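import Pool.Agent.H509.BT.Stm4

/-!
# Project BT: two lemmas of pure algebra
-/

set_option autoImplicit false

open scoped Classical

namespace Pool.Agent.H307.BT

open Pool.Agent.BT9

theorem odd_iff (n : ℤ) : Odd n ↔ ((n : ℤ) : ZMod 2) ≠ 0 := by
  rw [← Int.not_even_iff_odd, even_iff_two_dvd, Ne, ZMod.intCast_zmod_eq_zero_iff_dvd]
  rfl

theorem even_iff (n : ℤ) : Even n ↔ ((n : ℤ) : ZMod 2) = 0 := by
  rw [even_iff_two_dvd, ZMod.intCast_zmod_eq_zero_iff_dvd]
  rfl

theorem deta : S_DETA := by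
  intro A _ V r x hx hidx φ
  have hxV : ∀ b, x b ∈ V := by
    intro b
    rw [← hx]
    exact Subgroup.subset_closure ⟨b, rfl⟩
  obtain ⟨xV, hxV'⟩ : ∃ xV : Fin r → V, ∀ b, xV b = ⟨x b, hxV b⟩ := ⟨_, fun _ => rfl⟩
  let N : Subgroup V := (V.map (powMonoidHom 2)).subgroupOf V
  have hN : ∀ v : V, v ∈ N ↔ (v : A) ∈ V.map (powMonoidHom 2) := fun v =>
    Subgroup.mem_subgroupOf
  have hcard : Nat.card (V ⧸ N) = 2 ^ r := hidx
  have hsq : ∀ q : V ⧸ N, q ^ 2 = 1 := by
    intro q
    obtain ⟨v, rfl⟩ := QuotientGroup.mk_surjective q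
    rw [← QuotientGroup.mk_pow, QuotientGroup.eq_one_iff, hN]
    exact ⟨v, v.2, rfl⟩
  let E0 : (Fin r → ZMod 2) → V ⧸ N := fun c => ∏ b, ((xV b : V) : V ⧸ N) ^ (c b).val
  have hE0add : ∀ c d, E0 (c + d) = E0 c * E0 d := by
    intro c d
    simp only [E0]
    rw [← Finset.prod_mul_distrib]
    refine Finset.prod_congr rfl fun b _ => ?_
    rw [Pi.add_apply, ZMod.val_add, ← pow_add]
    exact (pow_eq_pow_mod _ (hsq _)).symm
  let E : Multiplicative (Fin r → ZMod 2) →* V ⧸ N :=
    MonoidHom.mk' (fun c => E0 (Multiplicative.toAdd c)) fun c d => hE0add _ _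
  have hEsurj : Function.Surjective E0 := by
    have h1 : V ≤ (E.range.comap (QuotientGroup.mk' N)).map V.subtype := by
      conv_lhs => rw [← hx]
      rw [Subgroup.closure_le]
      rintro _ ⟨b, rfl⟩
      refine ⟨xV b, ?_, by rw [hxV']; rfl⟩
      refine ⟨Multiplicative.ofAdd (Pi.single b 1), ?_⟩
      show E0 (Pi.single b 1) = (xV b : V ⧸ N)
      simp only [E0]
      rw [Finset.prod_eq_single b]
      · rw [Pi.single_eq_same, ZMod.val_one, pow_one]
      · intro b' _ hb'
        rw [Pi.single_eq_of_ne hb', ZMod.val_zero, pow_zero]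
      · intro h
        exact absurd (Finset.mem_univ b) h
    intro q
    obtain ⟨v, rfl⟩ := QuotientGroup.mk_surjective q
    obtain ⟨w, ⟨c, hc⟩, hw⟩ := h1 v.2
    have hwv : w = v := Subtype.ext hw
    refine ⟨Multiplicative.toAdd c, ?_⟩
    rw [← hwv]
    exact hc
  have hEbij : Function.Bijective E0 := by
    rw [Nat.bijective_iff_surjective_and_card]
    refine ⟨hEsurj, ?_⟩
    rw [hcard, Nat.card_eq_fintype_card, Fintype.card_fun, ZMod.card, Fintype.card_fin]
  let M : Matrix (Fin r) (Fin r) (ZMod 2) :=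
    Matrix.of fun a b => ((φ a (Additive.ofMul (xV b)) : ℤ) : ZMod 2)
  -- the functionals modulo two
  let ψ0 : Fin r → V →* Multiplicative (ZMod 2) := fun a =>
    MonoidHom.mk' (fun v => Multiplicative.ofAdd ((φ a (Additive.ofMul v) : ℤ) : ZMod 2)) (by
      intro v w
      rw [ofMul_mul, map_add, Int.cast_add, ofAdd_add])
  have hψ0 : ∀ a v, ψ0 a v = Multiplicative.ofAdd ((φ a (Additive.ofMul v) : ℤ) : ZMod 2) :=
    fun _ _ => rfl
  have hψN : ∀ a, N ≤ (ψ0 a).ker := by
    intro a v hv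
    rw [hN] at hv
    obtain ⟨w, hw, hwv⟩ := hv
    have hv2 : v = (⟨w, hw⟩ : V) ^ 2 := Subtype.ext hwv.symm
    rw [MonoidHom.mem_ker, hv2, map_pow]
    have h2 : ∀ z : Multiplicative (ZMod 2), z ^ 2 = 1 := by decide
    exact h2 _
  let ψ : Fin r → V ⧸ N →* Multiplicative (ZMod 2) := fun a => QuotientGroup.lift N (ψ0 a) (hψN a)
  have hψ : ∀ a (v : V), ψ a (v : V ⧸ N) = ψ0 a v := fun _ _ => rfl
  have hψE : ∀ a c, ψ a (E0 c) = Multiplicative.ofAdd (M.mulVec c a) := by
    intro a c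
    simp only [E0]
    rw [map_prod]
    have h3 : ∀ b, ψ a (((xV b : V) : V ⧸ N) ^ (c b).val) =
        Multiplicative.ofAdd (M a b * c b) := by
      intro b
      rw [map_pow, hψ, hψ0, ← ofAdd_nsmul]
      congr 1
      rw [nsmul_eq_mul, ZMod.natCast_zmod_val, mul_comm]
      rfl
    rw [Finset.prod_congr rfl fun b _ => h3 b, ← ofAdd_sum]
    rfl
  have hE00 : E0 0 = 1 := by
    have := hE0add 0 0
    rw [add_zero] at this
    exact (mul_eq_left.1 this.symm)
  have hdet : (((Matrix.of fun a b : Fin r => φ a (Additive.ofMul (⟨x b, hxV b⟩ : V))).det : ℤ) :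
      ZMod 2) = M.det := by
    have h4 := RingHom.map_det (Int.castRingHom (ZMod 2))
      (Matrix.of fun a b : Fin r => φ a (Additive.ofMul (⟨x b, hxV b⟩ : V)))
    rw [eq_intCast] at h4
    rw [h4]
    congr 1
    ext a b
    simp only [RingHom.mapMatrix_apply, Matrix.map_apply, Matrix.of_apply, M, hxV']
    rfl
  have hkey : (∀ c : Fin r → ZMod 2, M.mulVec c = 0 → c = 0) ↔ M.det ≠ 0 := by
    rw [Ne, ← Matrix.exists_mulVec_eq_zero_iff]
    constructor
    · rintro h ⟨c, hc, hMc⟩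
      exact hc (h c hMc)
    · intro h c hMc
      by_contra hc
      exact h ⟨c, hc, hMc⟩
  rw [odd_iff, hdet, ← hkey]
  constructor
  · intro h c hMc
    apply hEbij.1
    rw [hE00]
    obtain ⟨v, hv⟩ := QuotientGroup.mk_surjective (E0 c)
    rw [← hv, QuotientGroup.eq_one_iff, hN]
    refine h v v.2 fun a => ?_
    rw [even_iff]
    have h5 := hψE a c
    rw [hMc, ← hv, hψ, hψ0] at h5
    exact Multiplicative.ofAdd.injective h5
  · intro h u hu hall
    obtain ⟨c, hc⟩ := hEsurj ((⟨u, hu⟩ : V) : V ⧸ N)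
    have hMc : M.mulVec c = 0 := by
      funext a
      have h5 := hψE a c
      rw [hc, hψ, hψ0, (even_iff _).1 (hall a)] at h5
      exact (Multiplicative.ofAdd.injective h5).symm
    rw [h c hMc, hE00] at hc
    have h6 := (QuotientGroup.eq_one_iff (⟨u, hu⟩ : V)).1 hc.symm
    exact (hN _).1 h6

theorem cnt : S_CNT := by
  intro A _ Q' S' C _ W hfin hsq hW heven
  let N : Subgroup S' := Q'.subgroupOf S'
  have hcard : Nat.card (S' ⧸ N) ≠ 0 := hfin
  have hf : Finite (S' ⧸ N) := Nat.finite_of_card_ne_zero hcard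
  let _ := Fintype.ofFinite (S' ⧸ N)
  let _ := Fintype.ofFinite C
  have hP : IsPGroup 2 (S' ⧸ N) := by
    intro q
    obtain ⟨v, rfl⟩ := QuotientGroup.mk_surjective q
    refine ⟨1, ?_⟩
    rw [pow_one, ← QuotientGroup.mk_pow, QuotientGroup.eq_one_iff]
    show ((v ^ 2 : S') : A) ∈ Q'
    rw [pow_two]
    exact hsq v v.2
  let Wb : C → Subgroup (S' ⧸ N) := fun c => ((W c).subgroupOf S').map (QuotientGroup.mk' N)
  have hWb : ∀ c (v : S'), (v : S' ⧸ N) ∈ Wb c ↔ (v : A) ∈ W c := by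
    intro c v
    constructor
    · rintro ⟨w, hw, hwv⟩
      have h1 : w⁻¹ * v ∈ N := QuotientGroup.eq.1 hwv
      have h2 : ((w⁻¹ * v : S') : A) ∈ Q' := h1
      have h3 := (W c).mul_mem (show (w : A) ∈ W c from hw) ((hW c).1 h2)
      have h4 : (w : A) * ((w⁻¹ * v : S') : A) = v := by
        push_cast
        rw [mul_inv_cancel_left]
      rwa [h4] at h3
    · intro hv
      exact ⟨v, hv, rfl⟩
  have hWcard : ∀ c, ((Nat.card (Wb c) : ℕ) : ZMod 2) = if W c = Q' then 1 else 0 := by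
    intro c
    split_ifs with h
    · have h1 : Wb c = ⊥ := by
        rw [eq_bot_iff]
        intro q hq
        obtain ⟨v, rfl⟩ := QuotientGroup.mk_surjective q
        rw [hWb, h] at hq
        rw [Subgroup.mem_bot, QuotientGroup.eq_one_iff]
        exact hq
      rw [h1, Subgroup.card_bot, Nat.cast_one]
    · have h2 : IsPGroup 2 (Wb c) := hP.to_subgroup _
      rcases h2.card_eq_or_dvd with h3 | h3
      · exfalso
        apply h
        have h4 : Wb c = ⊥ := Subgroup.card_eq_one.1 h3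
        refine le_antisymm ?_ (hW c).1
        intro a ha
        have haS : a ∈ S' := (hW c).2 ha
        have h5 : (((⟨a, haS⟩ : S') : S' ⧸ N)) ∈ Wb c := (hWb c _).2 ha
        rw [h4, Subgroup.mem_bot, QuotientGroup.eq_one_iff] at h5
        exact h5
      · exact (ZMod.natCast_eq_zero_iff _ _).2 h3
  have hdouble : ∑ c : C, ∑ q : S' ⧸ N, (if q ∈ Wb c then (1 : ZMod 2) else 0) = 0 := by
    rw [Finset.sum_comm]
    refine Finset.sum_eq_zero fun q _ => ?_
    obtain ⟨v, rfl⟩ := QuotientGroup.mk_surjective q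
    rw [Finset.sum_boole]
    have h1 := heven v v.2
    rw [Nat.card_eq_fintype_card, Fintype.card_subtype] at h1
    have h2 : (Finset.univ.filter fun c => (v : S' ⧸ N) ∈ Wb c) =
        Finset.univ.filter fun c => (v : A) ∈ W c := by
      ext c
      simp only [Finset.mem_filter, Finset.mem_univ, true_and, hWb]
    rw [h2]
    exact (ZMod.natCast_eq_zero_iff _ _).2 h1.two_dvd
  have hinner : ∀ c, ∑ q : S' ⧸ N, (if q ∈ Wb c then (1 : ZMod 2) else 0) =
      if W c = Q' then 1 else 0 := by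
    intro c
    rw [Finset.sum_boole, ← hWcard c]
    congr 1
    rw [Nat.card_eq_fintype_card, ← Fintype.card_subtype]
  rw [Finset.sum_congr rfl fun c _ => hinner c, Finset.sum_boole] at hdouble
  rw [Nat.card_eq_fintype_card, Fintype.card_subtype, even_iff_two_dvd]
  exact (ZMod.natCast_eq_zero_iff _ _).1 hdouble

end Pool.Agent.H307.BT
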