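import Pool.Agent.H509.BT.Stm4
import Pool.Graph.R_pool_sql_team_seeded_5cf16337.K3h55.E2.Asm2

/-!
# Project BT: Rubin's conjecture from the statements for the characters, with a parity condition
(helper627; adapted from the library theorem `Pool.Agent.K3h55.E2.t_ASM2`)
-/

set_option autoImplicit false

open NumberField IsDedekindDomain Filter Topology

noncomputable section

namespace Pool.Agent.H627.BT

open Pool.Agent.K3h30.RS Pool.Agent.K3h56.E2 Pool.Agent.K3h62.E2 Pool.Agent.K3h55.E2 Pool.Agent.BT9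

theorem odd_prod_of {ι : Type*} (s : Finset ι) (f : ι → ℤ) (h : ∀ i ∈ s, Odd (f i)) :
    Odd (∏ i ∈ s, f i) := by
  classical
  induction s using Finset.induction_on with
  | empty => exact odd_one
  | insert a s ha ih =>
    rw [Finset.prod_insert ha]
    exact (h a (Finset.mem_insert_self a s)).mul (ih fun i hi => h i (Finset.mem_insert_of_mem hi))

theorem even_sum_of {ι : Type*} (s : Finset ι) (f : ι → ℤ)
    (h : Even (s.filter fun i => Odd (f i)).card) : Even (∑ i ∈ s, f i) := by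
  rw [even_iff_two_dvd] at h ⊢
  rw [show (2 : ℤ) = ((2 : ℕ) : ℤ) from rfl, ← ZMod.intCast_zmod_eq_zero_iff_dvd]
  have h1 : ∀ z : ℤ, (z : ZMod 2) = if Odd z then 1 else 0 := by
    intro z
    split_ifs with h
    · obtain ⟨k, rfl⟩ := h
      have : (2 : ZMod 2) = 0 := rfl
      push_cast
      rw [this]
      simp
    · rw [Int.not_odd_iff_even] at h
      exact (ZMod.intCast_zmod_eq_zero_iff_dvd z 2).2 (even_iff_two_dvd.1 h)
  push_cast
  rw [Finset.sum_congr rfl fun i _ => h1 (f i), Finset.sum_boole]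
  exact (ZMod.natCast_eq_zero_iff _ 2).2 h

theorem asm3 : S_ASM3 := by
  classical
  intro F H G _ _ _ _ _ _ _ _ _ D T _ h2 hI x0 q0 n0 hS hpar
  let _ := Fintype.ofFinite G
  have hfin : Finite (G →* ℂˣ) := finite_chars h2
  have hfin' : Finite {χ : G →* ℂˣ // D.Active χ} := inferInstance
  obtain ⟨n, ⟨e⟩⟩ := Finite.exists_equiv_fin {χ : G →* ℂˣ // D.Active χ}
  let x : {χ : G →* ℂˣ // D.Active χ} → Fin D.r → Hˣ := fun χ => x0 χ.1
  let q : {χ : G →* ℂˣ // D.Active χ} → ℝ := fun χ => q0 χ.1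
  let m : {χ : G →* ℂˣ // D.Active χ} → ℤ := fun χ => n0 χ.1
  have hcl : ∀ χ : {χ : G →* ℂˣ // D.Active χ}, Subgroup.closure (Set.range (x χ)) = part (D.U T) χ.1 :=
    fun χ => (hS χ.1 χ.2).1
  have hlim : ∀ χ : {χ : G →* ℂˣ // D.Active χ}, Tendsto (fun s : ℂ => (s ^ D.r)⁻¹ * D.L χ.1 s) (𝓝[≠] 0)
      (𝓝 (q χ : ℂ)) := fun χ => (hS χ.1 χ.2).2.1
  have hq : ∀ χ : {χ : G →* ℂˣ // D.Active χ},
      2 * (q χ * ∏ v ∈ T, ((Ideal.absNorm v.asIdeal : ℝ) - (sgn χ.1 (D.σ v) : ℝ))) =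
      m χ * (Nat.card G : ℝ) * Matrix.det (Matrix.of fun a b : Fin D.r =>
        Real.log (av (D.w a) ((x χ b : Hˣ) : H))) := fun χ => (hS χ.1 χ.2).2.2
  have hG : (Nat.card G : ℂ) ≠ 0 := by
    exact_mod_cast Nat.card_pos.ne'
  have hGQ : (Nat.card G : ℚ) ≠ 0 := by
    exact_mod_cast Nat.card_pos.ne'
  have hmem : ∀ (χ : {χ : G →* ℂˣ // D.Active χ}) (b : Fin D.r), x χ b ∈ part (D.U T) χ.1 := by
    intro χ b
    rw [← hcl χ]
    exact Subgroup.subset_closure (Set.mem_range_self b)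
  have hU : ∀ (χ : {χ : G →* ℂˣ // D.Active χ}) (b : Fin D.r), x χ b ∈ D.U T :=
    fun χ b => (hmem χ b).1
  have hx1 : ∀ (χ : {χ : G →* ℂˣ // D.Active χ}) (b : Fin D.r) (g : G), χ.1 g = 1 →
      act g (x χ b) = x χ b := fun χ b => (hmem χ b).2.1
  have hxn : ∀ (χ : {χ : G →* ℂˣ // D.Active χ}) (b : Fin D.r) (g : G), χ.1 g ≠ 1 →
      act g (x χ b) = (x χ b)⁻¹ := fun χ b => (hmem χ b).2.2
  let ε : (G →* ℂˣ) → ℤ := fun χ => ∏ v ∈ T, (-sgn χ (D.σ v))
  let κ : {χ : G →* ℂˣ // D.Active χ} → ℚ := fun χ => (ε χ.1 * m χ : ℤ) / (2 * (Nat.card G : ℚ) ^ D.r)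
  let cf : {χ : G →* ℂˣ // D.Active χ} → MonoidAlgebra ℚ G := fun χ =>
    ∑ g : G, MonoidAlgebra.single g (κ χ * eps χ.1 g)
  have hcf : ∀ (χ : {χ : G →* ℂˣ // D.Active χ}) (χ' : G →* ℂˣ),
      cvHom χ' (toR (cf χ)) = if χ.1 = χ' then (κ χ : ℂ) * (Nat.card G : ℂ) else 0 := by
    intro χ χ'
    simp only [cf]
    rw [cv_sum h2]
    split_ifs with h
    · subst h
      rw [sum_self, ← Nat.card_eq_fintype_card]
    · rw [sum_ne h2 h, mul_zero]
  let xx : {χ : G →* ℂˣ // D.Active χ} → Fin D.r → D.U T := fun χ b => ⟨x χ b, hU χ b⟩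
  -- the limit of the factor
  have hfac : ∀ χ : G →* ℂˣ, Tendsto (fun s : ℂ => ∏ v ∈ T, (1 - (χ (D.σ v) : ℂ) *
      (Ideal.absNorm v.asIdeal : ℂ) ^ (1 - s))) (𝓝[≠] 0)
      (𝓝 ((ε χ : ℂ) * ∏ v ∈ T, ((Ideal.absNorm v.asIdeal : ℂ) - ((sgn χ (D.σ v) : ℤ) : ℂ)))) := by
    intro χ
    have hc : Continuous fun s : ℂ => ∏ v ∈ T, (1 - (χ (D.σ v) : ℂ) *
        (Ideal.absNorm v.asIdeal : ℂ) ^ (1 - s)) := by
      refine continuous_finsetProd _ fun v _ => ?_
      refine continuous_const.sub (continuous_const.mul ?_)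
      refine Continuous.const_cpow (continuous_const.sub continuous_id) (Or.inl ?_)
      have h0 : Ideal.absNorm v.asIdeal ≠ 0 := by
        rw [Ne, Ideal.absNorm_eq_zero_iff]
        exact v.ne_bot
      exact_mod_cast h0
    have h3 := (hc.tendsto 0).mono_left (nhdsWithin_le_nhds (s := {0}ᶜ))
    have hval : ∏ v ∈ T, (1 - (χ (D.σ v) : ℂ) * (Ideal.absNorm v.asIdeal : ℂ) ^ (1 - (0 : ℂ))) =
        (ε χ : ℂ) * ∏ v ∈ T, ((Ideal.absNorm v.asIdeal : ℂ) - ((sgn χ (D.σ v) : ℤ) : ℂ)) := by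
      simp only [ε]
      push_cast
      rw [← Finset.prod_mul_distrib]
      refine Finset.prod_congr rfl fun v _ => ?_
      rw [chi_sgn h2, sub_zero, Complex.cpow_one]
      have h4 : ((sgn χ (D.σ v) : ℤ) : ℂ) * ((sgn χ (D.σ v) : ℤ) : ℂ) = 1 := by
        exact_mod_cast sgn_sq χ (D.σ v)
      linear_combination (-1 : ℂ) * h4
    rw [← hval]
    exact h3
  refine ⟨⟨n, fun k => cf (e.symm k), fun k => xx (e.symm k)⟩, ?_, ?_, ?_⟩
  · intro χ hχ k
    rw [charValue_eq, hcf, if_neg]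
    rintro rfl
    exact hχ (e.symm k).2
  · intro ψ
    let mm : {χ : G →* ℂˣ // D.Active χ} → Fin D.r → Fin D.r → ℤ := fun χ a b =>
      ((ψ a).f (Additive.ofMul (xx χ b))).coeff 1
    let AA : {χ : G →* ℂˣ // D.Active χ} → ℤ := fun χ => ε χ.1 * m χ * Matrix.det (Matrix.of (mm χ))
    have key : ∀ χ : {χ : G →* ℂˣ // D.Active χ},
        cf χ * toQ (Matrix.det (Matrix.of fun a b : Fin D.r =>
          (ψ a).f (Additive.ofMul (xx χ b)))) = (1 / 2 : ℚ) • toQ (AA χ • NN χ.1) := by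
      intro χ
      have e1 : ∀ a b, (ψ a).f (Additive.ofMul (xx χ b)) = mm χ a b • NN χ.1 := fun a b =>
        eq_smul_NN h2 _ (ghom_part (ψ a) (xx χ b) (hx1 χ b) (hxn χ b))
      have e2 : Matrix.det (Matrix.of fun a b : Fin D.r => (ψ a).f (Additive.ofMul (xx χ b))) =
          (Matrix.det (Matrix.of (mm χ))) • NN χ.1 ^ D.r := by
        rw [← det_NN χ.1 (mm χ)]
        congr 1
        ext1 a b
        exact e1 a b
      rw [e2]
      simp only [cf]
      rw [coef_eq, smul_mul_assoc, ← map_mul, mul_smul_comm, NN_pow h2, toQ_smul, toQ_smul,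
        toQ_smul, smul_smul, smul_smul, smul_smul]
      congr 1
      simp only [κ, AA]
      rw [Nat.card_eq_fintype_card] at hGQ ⊢
      push_cast
      field_simp
    -- parity
    have hev : Even (∑ k, AA (e.symm k)) := by
      let fz : Fin D.r → (Additive (D.U T) →+ ℤ) := fun a =>
        { toFun := fun u => ((ψ a).f u).coeff 1
          map_zero' := by simp
          map_add' := fun u v => by simp }
      have h5 := hpar fz
      have h6 : ∀ χ : {χ : G →* ℂˣ // D.Active χ}, Odd (AA χ) ↔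
          Odd (n0 χ.1 * Matrix.det (Matrix.of fun a b : Fin D.r => ev (fz a) (x0 χ.1 b))) := by
        intro χ
        have e1 : (Matrix.of fun a b : Fin D.r => ev (fz a) (x0 χ.1 b)) = Matrix.of (mm χ) := by
          ext1 a b
          exact ev_of_mem (fz a) (hU χ b)
        rw [e1]
        have e2 : Odd (ε χ.1) := by
          refine Int.odd_iff.2 ?_
          have h7 : ∀ g : G, (-sgn χ.1 g) % 2 = 1 := by
            intro g
            by_cases h : χ.1 g = 1
            · rw [sgn_one h]; rfl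
            · rw [sgn_neg h]; rfl
          exact Int.odd_iff.1 (odd_prod_of T (fun v => -sgn χ.1 (D.σ v))
            (fun v _ => Int.odd_iff.2 (h7 _)))
        simp only [AA, m]
        rw [mul_assoc, Int.odd_mul]
        exact and_iff_right e2
      have h8 : Nat.card {χ : G →* ℂˣ // D.Active χ ∧ Odd (n0 χ * Matrix.det (Matrix.of
          fun a b : Fin D.r => ev (fz a) (x0 χ b)))} = Nat.card {k : Fin n // Odd (AA (e.symm k))} := by
        refine Nat.card_congr ?_
        refine { toFun := fun χ => ⟨e ⟨χ.1, χ.2.1⟩, ?_⟩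
                 invFun := fun k => ⟨(e.symm k.1).1, (e.symm k.1).2, (h6 _).1 k.2⟩
                 left_inv := ?_
                 right_inv := ?_ }
        · rw [Equiv.symm_apply_apply]
          exact (h6 _).2 χ.2.2
        · rintro ⟨χ, h⟩
          simp
        · rintro ⟨k, h⟩
          simp
      rw [h8] at h5
      rw [Nat.card_eq_fintype_card, Fintype.card_subtype] at h5
      exact even_sum_of _ _ h5
    obtain ⟨c, hc⟩ := hev
    have hNN : ∀ χ : G →* ℂˣ, ∃ y : MonoidAlgebra ℤ G, NN χ = NN (1 : G →* ℂˣ) + (2 : ℤ) • y := by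
      intro χ
      refine ⟨∑ g : G, MonoidAlgebra.single g (if χ g = 1 then (0 : ℤ) else -1), ?_⟩
      unfold NN
      rw [Finset.smul_sum, ← Finset.sum_add_distrib]
      refine Finset.sum_congr rfl fun g _ => ?_
      rw [MonoidAlgebra.smul_single, ← MonoidAlgebra.single_add]
      congr 1
      have h1 : sgn (1 : G →* ℂˣ) g = 1 := sgn_one rfl
      rw [h1]
      by_cases h : χ g = 1
      · rw [sgn_one h, if_pos h]
        norm_num
      · rw [sgn_neg h, if_neg h]
        norm_num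
    choose y hy using hNN
    refine ⟨c • NN (1 : G →* ℂˣ) + ∑ k, AA (e.symm k) • y (e.symm k).1, ?_⟩
    unfold Wedge.value
    have h3 : ∑ k, cf (e.symm k) * toQ (Matrix.det (Matrix.of fun a b : Fin D.r =>
        (ψ a).f (Additive.ofMul (xx (e.symm k) b)))) =
        (1 / 2 : ℚ) • toQ (∑ k, AA (e.symm k) • NN (e.symm k).1) := by
      rw [map_sum, Finset.smul_sum]
      exact Finset.sum_congr rfl fun k _ => key _
    have h4 : ∑ k, AA (e.symm k) • NN (e.symm k).1 =
        (2 : ℤ) • (c • NN (1 : G →* ℂˣ) + ∑ k, AA (e.symm k) • y (e.symm k).1) := by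
      have h5 : ∀ k, AA (e.symm k) • NN (e.symm k).1 = AA (e.symm k) • NN (1 : G →* ℂˣ) +
          (2 : ℤ) • (AA (e.symm k) • y (e.symm k).1) := by
        intro k
        rw [hy (e.symm k).1, smul_add, smul_comm]
      rw [Finset.sum_congr rfl fun k _ => h5 k, Finset.sum_add_distrib, ← Finset.sum_smul, hc,
        ← Finset.smul_sum, smul_add, ← two_mul, mul_smul]
    refine h3.trans ?_
    rw [h4, toQ_smul, smul_smul]
    norm_num
  · intro χ
    have hreg : charValue χ (Wedge.regulator (⟨n, fun k => cf (e.symm k),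
        fun k => xx (e.symm k)⟩ : Wedge G D.r (D.U T)) D.w) =
        ∑ k : Fin n, cvHom χ (toR (cf (e.symm k))) * cvHom χ (Matrix.det (Matrix.of fun a b =>
          reg G (D.w a) (x (e.symm k) b : Hˣ))) := by
      rw [charValue_eq]
      unfold Wedge.regulator
      rw [map_sum]
      exact Finset.sum_congr rfl fun k _ => map_mul _ _ _
    have hLT : ∀ s : ℂ, (s ^ D.r)⁻¹ * D.LT T χ⁻¹ s = (∏ v ∈ T, (1 - (χ (D.σ v) : ℂ) *
        (Ideal.absNorm v.asIdeal : ℂ) ^ (1 - s))) * ((s ^ D.r)⁻¹ * D.L χ s) := by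
      intro s
      unfold RubinData.LT
      rw [inv_chi h2]
      ring
    simp only [hLT]
    rw [hreg]
    by_cases hA : D.Active χ
    · have h3 : ∑ k : Fin n, cvHom χ (toR (cf (e.symm k))) * cvHom χ (Matrix.det (Matrix.of
          fun a b => reg G (D.w a) (x (e.symm k) b : Hˣ))) =
          ((ε χ : ℂ) * ∏ v ∈ T, ((Ideal.absNorm v.asIdeal : ℂ) - ((sgn χ (D.σ v) : ℤ) : ℂ))) *
            (q ⟨χ, hA⟩ : ℂ) := by
        rw [Finset.sum_eq_single (e ⟨χ, hA⟩)]
        · rw [Equiv.symm_apply_apply, hcf, if_pos rfl,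
            cv_det h2 χ D.w (fun b => (x ⟨χ, hA⟩ b : Hˣ)) (hx1 ⟨χ, hA⟩) (hxn ⟨χ, hA⟩)]
          have h4 := hq ⟨χ, hA⟩
          generalize Matrix.det (Matrix.of fun a b : Fin D.r =>
            Real.log (av (D.w a) ((x ⟨χ, hA⟩ b : Hˣ) : H))) = dt at h4 ⊢
          have h5 : 2 * ((q ⟨χ, hA⟩ : ℂ) * ∏ v ∈ T, ((Ideal.absNorm v.asIdeal : ℂ) -
              ((sgn χ (D.σ v) : ℤ) : ℂ))) = (m ⟨χ, hA⟩ : ℂ) * (Nat.card G : ℂ) * (dt : ℂ) := by
            exact_mod_cast h4
          have h6 : ((κ ⟨χ, hA⟩ : ℚ) : ℂ) * (Nat.card G : ℂ) ^ D.r =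
              (ε χ : ℂ) * (m ⟨χ, hA⟩ : ℂ) / 2 := by
            simp only [κ]
            push_cast
            field_simp
          calc ((κ ⟨χ, hA⟩ : ℚ) : ℂ) * (Nat.card G : ℂ) * ((Nat.card G : ℂ) ^ D.r * (dt : ℂ)) =
              (((κ ⟨χ, hA⟩ : ℚ) : ℂ) * (Nat.card G : ℂ) ^ D.r) * ((Nat.card G : ℂ) * (dt : ℂ)) := by
                ring
            _ = (ε χ : ℂ) / 2 * ((m ⟨χ, hA⟩ : ℂ) * (Nat.card G : ℂ) * (dt : ℂ)) := by
                rw [h6]
                ring
            _ = _ := by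
                rw [← h5]
                ring
        · intro k _ hk
          rw [hcf, if_neg, zero_mul]
          intro h4
          apply hk
          rw [← e.apply_symm_apply k]
          congr 1
          exact Subtype.ext h4
        · intro h
          exact absurd (Finset.mem_univ _) h
      rw [h3]
      exact (hfac χ).mul (hlim ⟨χ, hA⟩)
    · have h3 : ∑ k : Fin n, cvHom χ (toR (cf (e.symm k))) * cvHom χ (Matrix.det (Matrix.of
          fun a b => reg G (D.w a) (x (e.symm k) b : Hˣ))) = 0 := by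
        refine Finset.sum_eq_zero fun k _ => ?_
        rw [hcf, if_neg, zero_mul]
        rintro rfl
        exact hA (e.symm k).2
      rw [h3]
      have h4 := (hfac χ).mul (hI χ hA)
      rwa [mul_zero] at h4

end Pool.Agent.H627.BT
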