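import Pool.Agent.H509.BT.Stm4
import Pool.Agent.H509.PopDec

/-!
# Project BT: assembly
-/

set_option autoImplicit false
set_option linter.unusedSectionVars false
set_option linter.deprecated false

open NumberField IsDedekindDomain Filter Topology Module

noncomputable section

namespace Pool.Agent.BT9

open Pool.Agent.Q92.AR (Dv prin Pr Ray nmD nu up sD puD Cong Pos frob IsFrobenius Unramified Ram art
  prin_mul prin_one prin_inv)
open Pool.Agent.Q20.EX (Inert CongAt)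
open Pool.Agent.K3h30.RS
open Pool.Agent.K3h56.E2 (Quad Dict part InSF SplAt Over CA SU minus actK oddCard sgn)
open Pool.Agent.H509 (U1 Generates)

section

variable {F H G : Type} [Field F] [NumberField F] [Field H] [NumberField H] [Algebra F H]
  [CommGroup G] [Finite G] [MulSemiringAction G H] (D : RubinData F H G)
  (T : Finset (HeightOneSpectrum (𝓞 F)))

/-- the elementwise statements on the units -/
def WUc (χ : G →* ℂˣ) : Prop := Sq T ≤ Wu D T χ ∧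
  (∀ u ∈ part (D.U T) χ, ∃ x ∈ Sel D T, ∃ b ∈ T1 H T, up F H x = u * b ^ 2) ∧
  (∀ (x : Fˣ), ∀ u ∈ part (D.U T) χ, ∀ b ∈ T1 H T, up F H x = u * b ^ 2 →
    (x ∈ Sq T ↔ u ∈ (part (D.U T) χ).map (powMonoidHom 2))) ∧
  (Sq T).relIndex (Wu D T χ) = ((part (D.U T) χ).map (powMonoidHom 2)).relIndex (part (D.U T) χ)

theorem sq_le_sel : Sq T ≤ Sel D T := by
  rintro _ ⟨y, hy, rfl⟩
  refine ⟨(FT T).pow_mem hy 2, fun v _ => ?_⟩
  change Even (prin (y ^ 2) v)
  rw [pow_two, prin_mul, Finsupp.add_apply]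
  exact ⟨_, rfl⟩

theorem sq_mem {x : Fˣ} (hx : x ∈ Sel D T) : x * x ∈ Sq T :=
  ⟨x, hx.1, pow_two x⟩

theorem up_T1 {y : Fˣ} (hy : y ∈ FT T) : up F H y ∈ T1 H T := by
  intro w hw
  obtain ⟨v, hv, hvw⟩ := hw
  have h1 := hy v hv
  have h2 : w.under (𝓞 F) = v := HeightOneSpectrum.ext hvw
  have h4 : w.asIdeal.LiesOver (w.under (𝓞 F)).asIdeal := ⟨rfl⟩
  have h3 : ((up F H y : Hˣ) : H) - 1 = algebraMap F H ((y : F) - 1) := by
    rw [map_sub, map_one]
    rfl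
  rw [h3, ← HeightOneSpectrum.valuation_liesOver H (w.under (𝓞 F)) w, h2]
  refine pow_lt_one₀ zero_le' h1 ?_
  have h5 : v.asIdeal.ramificationIdx' w.asIdeal ≠ 0 := by
    rw [← h2]
    exact Ideal.IsDedekindDomain.ramificationIdx'_ne_zero_of_liesOver w.asIdeal (w.under (𝓞 F)).ne_bot
  exact h5

variable {D T}

/-- the functionals and the units -/
theorem ker_wu_iff {χ : G →* ℂˣ} (hW : WUc D T χ) (f : Fin D.r → (Additive (D.U T) →+ ℤ))
    (Φ : Fin D.r → (Additive (Sel D T) →+ ZMod 2))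
    (hΦ : ∀ a, ∀ (x : Fˣ) (hx : x ∈ Sel D T) (u : Hˣ), u ∈ D.U T →
      ∀ b ∈ T1 H T, up F H x = u * b ^ 2 →
        Φ a (Additive.ofMul ⟨x, hx⟩) = ((ev (f a) u : ℤ) : ZMod 2)) :
    Ker D T Φ ⊓ Wu D T χ = Sq T ↔ ∀ u ∈ part (D.U T) χ, (∀ a, Even (ev (f a) u)) →
      u ∈ (part (D.U T) χ).map (powMonoidHom 2) := by
  obtain ⟨h1, h2, h3, -⟩ := hW
  constructor
  · intro h u hu he
    obtain ⟨x, hx, b, hb, hxb⟩ := h2 u hu
    refine (h3 x u hu b hb hxb).1 ?_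
    rw [← h]
    refine ⟨⟨hx, fun a => ?_⟩, hx, u, hu, b, hb, hxb⟩
    rw [hΦ a x hx u hu.1 b hb hxb, ZMod.intCast_eq_zero_iff_even]
    exact he a
  · intro h
    apply le_antisymm
    · rintro x ⟨⟨hx, hk⟩, -, u, hu, b, hb, hxb⟩
      refine (h3 x u hu b hb hxb).2 (h u hu fun a => ?_)
      rw [← ZMod.intCast_eq_zero_iff_even, ← hΦ a x hx u hu.1 b hb hxb]
      exact hk a
    · intro x hx
      refine ⟨⟨sq_le_sel D T hx, fun a => ?_⟩, h1 hx⟩
      obtain ⟨y, hy, hyx⟩ := hx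
      have h4 : up F H x = 1 * (up F H y) ^ 2 := by
        rw [one_mul, ← map_pow, ← hyx]
        rfl
      rw [hΦ a x _ 1 (D.U T).one_mem (up F H y) (up_T1 T hy) h4, ev_of_mem _ (D.U T).one_mem]
      have h5 : Additive.ofMul (⟨1, (D.U T).one_mem⟩ : D.U T) = 0 := rfl
      rw [h5, map_zero, Int.cast_zero]

/-- there are enough functionals only for small groups -/
theorem rel_le {W : Subgroup Fˣ} (hW : W ≤ Sel D T) (Φ : Fin D.r → (Additive (Sel D T) →+ ZMod 2))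
    (h : Ker D T Φ ⊓ W = Sq T) : (Sq T).relIndex W ≤ 2 ^ D.r ∧ (Sq T).relIndex W ≠ 0 := by
  classical
  let φ : W →* Multiplicative (Fin D.r → ZMod 2) :=
    { toFun := fun x => Multiplicative.ofAdd fun a => Φ a (Additive.ofMul ⟨x, hW x.2⟩)
      map_one' := by
        rw [← ofAdd_zero]
        congr 1
        funext a
        exact map_zero (Φ a)
      map_mul' := fun x y => by
        rw [← ofAdd_add]
        congr 1
        funext a
        exact map_add (Φ a) (Additive.ofMul ⟨x, hW x.2⟩) (Additive.ofMul ⟨y, hW y.2⟩) }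
  have hk : φ.ker = (Sq T).subgroupOf W := by
    ext x
    rw [MonoidHom.mem_ker, Subgroup.mem_subgroupOf, ← h]
    constructor
    · intro hx
      refine ⟨⟨hW x.2, fun a => ?_⟩, x.2⟩
      have h1 := congrArg Multiplicative.toAdd hx
      exact congrFun h1 a
    · rintro ⟨⟨hx, h1⟩, -⟩
      rw [← ofAdd_zero]
      apply congrArg Multiplicative.ofAdd
      funext a
      exact h1 a
  have h2 : (Sq T).relIndex W = Nat.card φ.range := by
    rw [← Subgroup.index_ker, hk]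
    rfl
  have hc : Nat.card (Multiplicative (Fin D.r → ZMod 2)) = 2 ^ D.r := by
    rw [Nat.card_eq_fintype_card, Fintype.card_multiplicative, Fintype.card_fun, ZMod.card,
      Fintype.card_fin]
  rw [h2]
  refine ⟨?_, Nat.card_pos.ne'⟩
  rw [← hc]
  exact Subgroup.card_le_card_group _

/-- many elements -/
theorem rel_big {χ : G →* ℂˣ} (hW : WUc D T χ) {W : Subgroup Fˣ} (hle : Wu D T χ ≤ W)
    (hsel : W ≤ Sel D T) (Φ : Fin D.r → (Additive (Sel D T) →+ ZMod 2)) {k : ℕ} (hk : D.r < k)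
    (hr : ((part (D.U T) χ).map (powMonoidHom 2)).relIndex (part (D.U T) χ) = 2 ^ k) :
    Ker D T Φ ⊓ W ≠ Sq T := by
  intro h
  obtain ⟨h1, h2⟩ := rel_le hsel Φ h
  have h3 : (Sq T).relIndex (Wu D T χ) ≤ (Sq T).relIndex W := by
    rw [← Subgroup.relIndex_mul_relIndex (Sq T) (Wu D T χ) W hW.1 hle] at h2 ⊢
    exact Nat.le_mul_of_pos_right _ (Nat.pos_of_ne_zero (right_ne_zero_of_mul h2))
  rw [hW.2.2.2, hr] at h3
  have h4 : 2 ^ D.r < 2 ^ k := Nat.pow_lt_pow_right (by norm_num) hk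
  omega

/-- one more element -/
theorem rel_more {χ : G →* ℂˣ} (hW : WUc D T χ) {W : Subgroup Fˣ} (hle : Wu D T χ ≤ W)
    (hsel : W ≤ Sel D T) (Φ : Fin D.r → (Additive (Sel D T) →+ ZMod 2))
    (hr : ((part (D.U T) χ).map (powMonoidHom 2)).relIndex (part (D.U T) χ) = 2 ^ D.r)
    (hex : ∃ y ∈ W, y ∉ Wu D T χ) : Ker D T Φ ⊓ W ≠ Sq T := by
  intro h
  obtain ⟨h1, h2⟩ := rel_le hsel Φ h
  rw [← Subgroup.relIndex_mul_relIndex (Sq T) (Wu D T χ) W hW.1 hle] at h1 h2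
  rw [hW.2.2.2, hr] at h1 h2
  have h5 : (Wu D T χ).relIndex W ≠ 1 := by
    rw [Ne, Subgroup.relIndex_eq_one]
    intro hle'
    obtain ⟨y, hy, hy'⟩ := hex
    exact hy' (hle' hy)
  have h6 : (Wu D T χ).relIndex W ≠ 0 := right_ne_zero_of_mul h2
  have h7 : 2 ≤ (Wu D T χ).relIndex W := by omega
  have h8 : 0 < 2 ^ D.r := by positivity
  nlinarith

/-- the statement for one character -/
def Dat (D : RubinData F H G) (T : Finset (HeightOneSpectrum (𝓞 F))) (χ : G →* ℂˣ)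
    (W : Subgroup Fˣ) (x : Fin D.r → Hˣ) (q : ℝ) (n : ℤ) : Prop :=
  Wu D T χ ≤ W ∧ (D.Active χ →
    Subgroup.closure (Set.range x) = part (D.U T) χ ∧
    Tendsto (fun s : ℂ => (s ^ D.r)⁻¹ * D.L χ s) (𝓝[≠] 0) (𝓝 (q : ℂ)) ∧
    2 * (q * ∏ v ∈ T, ((Ideal.absNorm v.asIdeal : ℝ) - (sgn χ (D.σ v) : ℝ))) =
      n * (Nat.card G : ℝ) * Matrix.det (Matrix.of fun a b : Fin D.r =>
        Real.log (av (D.w a) ((x b : Hˣ) : H))) ∧
    (Odd n → W ≤ Wu D T χ) ∧ (¬ Odd n → ∃ y ∈ W, y ∉ Wu D T χ))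

theorem dat_iff (hdeta : S_DETA) {χ : G →* ℂˣ} (hWU : WUc D T χ)
    (hrk : (D.Active χ →
      ((part (D.U T) χ).map (powMonoidHom 2)).relIndex (part (D.U T) χ) = 2 ^ D.r) ∧
      (¬ D.Active χ → ∃ k, D.r < k ∧
        ((part (D.U T) χ).map (powMonoidHom 2)).relIndex (part (D.U T) χ) = 2 ^ k))
    {W : Subgroup Fˣ} (hsel : W ≤ Sel D T) {x : Fin D.r → Hˣ} {q : ℝ} {n : ℤ}
    (hd : Dat D T χ W x q n) (f : Fin D.r → (Additive (D.U T) →+ ℤ))
    (Φ : Fin D.r → (Additive (Sel D T) →+ ZMod 2))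
    (hΦ : ∀ a, ∀ (x : Fˣ) (hx : x ∈ Sel D T) (u : Hˣ), u ∈ D.U T →
      ∀ b ∈ T1 H T, up F H x = u * b ^ 2 →
        Φ a (Additive.ofMul ⟨x, hx⟩) = ((ev (f a) u : ℤ) : ZMod 2)) :
    (D.Active χ ∧ Odd (n * Matrix.det (Matrix.of fun a b : Fin D.r => ev (f a) (x b)))) ↔
      Ker D T Φ ⊓ W = Sq T := by
  obtain ⟨hle, hd⟩ := hd
  by_cases ha : D.Active χ
  · obtain ⟨hcl, -, -, ho, he⟩ := hd ha
    have hr := hrk.1 ha
    rw [Int.odd_mul]
    by_cases hn : Odd n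
    · have hWe : W = Wu D T χ := le_antisymm (ho hn) hle
      rw [hWe, ker_wu_iff hWU f Φ hΦ]
      have hx : ∀ b, x b ∈ part (D.U T) χ := fun b => by
        rw [← hcl]
        exact Subgroup.subset_closure ⟨b, rfl⟩
      have hVU : part (D.U T) χ ≤ D.U T := fun u hu => hu.1
      let φ : Fin D.r → (Additive (part (D.U T) χ) →+ ℤ) := fun a =>
        (f a).comp (MonoidHom.toAdditive (Subgroup.inclusion hVU))
      have h1 := hdeta Hˣ (part (D.U T) χ) D.r x hcl hr φ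
      have h2 : ∀ (a : Fin D.r) (u : Hˣ) (hu : u ∈ part (D.U T) χ),
          φ a (Additive.ofMul ⟨u, hu⟩) = ev (f a) u := fun a u hu => (ev_of_mem (f a) (hVU hu)).symm
      simp only [h2] at h1
      rw [h1]
      simp [ha, hn]
    · constructor
      · rintro ⟨-, h, -⟩
        exact absurd h hn
      · intro h
        exact absurd h (rel_more hWU hle hsel Φ hr (he hn))
  · constructor
    · rintro ⟨h, -⟩
      exact absurd h ha
    · intro h
      obtain ⟨k, hk, hr⟩ := hrk.2 ha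
      exact absurd h (rel_big hWU hle hsel Φ hk hr)

end

section

variable {F H G : Type} [Field F] [NumberField F] [Field H] [NumberField H] [Algebra F H]
  [CommGroup G] [Finite G] [MulSemiringAction G H] [IsGaloisGroup G F H]

/-- the parity theorem -/
theorem rubin_of_dat (hphi : S_PHI) (hrka : S_RKA) (hdeta : S_DETA) (hcnt : S_CNT)
    (hasm : S_ASM3) (hevx : S_EVX) (D : RubinData F H G)
    (T : Finset (HeightOneSpectrum (𝓞 F))) (hT : D.Allowed T) (hG : ∀ g : G, g * g = 1)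
    (hgen : Generates H ⊥ (D.S : Set (HeightOneSpectrum (𝓞 F)))
      (T : Set (HeightOneSpectrum (𝓞 F)))) (hs : Nat.card (Sg D) = 2 ^ sc D)
    (hna : ∀ χ : G →* ℂˣ, ¬ D.Active χ →
      Tendsto (fun s : ℂ => (s ^ D.r)⁻¹ * D.L χ s) (𝓝[≠] 0) (𝓝 0))
    (q : ∀ χ : G →* ℂˣ, χ ≠ 1 → QF F H G χ) (hWU : ∀ χ : G →* ℂˣ, WUc D T χ)
    (hsel : ∀ χ : G →* ℂˣ, Wt D T q χ ≤ Sel D T)
    (x : (G →* ℂˣ) → Fin D.r → Hˣ) (qq : (G →* ℂˣ) → ℝ) (n : (G →* ℂˣ) → ℤ)
    (hd : ∀ χ : G →* ℂˣ, Dat D T χ (Wt D T q χ) (x χ) (qq χ) (n χ)) : D.Rubin T := by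
  classical
  obtain ⟨hfin, hphi⟩ := hphi F H G D T hT hgen
  refine hasm F H G D T hT hG hna x qq n (fun χ ha => ?_) fun f => ?_
  · obtain ⟨h1, h2, h3, -, -⟩ := (hd χ).2 ha
    exact ⟨h1, h2, h3⟩
  · choose Φ hΦ using fun a => hphi (f a)
    have hiff : ∀ χ : G →* ℂˣ, (D.Active χ ∧
        Odd (n χ * Matrix.det (Matrix.of fun a b : Fin D.r => ev (f a) (x χ b)))) ↔
        Ker D T Φ ⊓ Wt D T q χ = Sq T := fun χ =>
      dat_iff hdeta (hWU χ) (hrka F H G D T hT hG χ) (hsel χ) (hd χ) f Φ hΦ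
    have hC : Finite (G →* ℂˣ) := Pool.Agent.K3h62.E2.finite_chars hG
    have hker : Ker D T Φ ≤ Sel D T := fun y hy => hy.1
    have hle : ∀ χ, Sq T ≤ Ker D T Φ ⊓ Wt D T q χ := by
      intro χ
      have h1 : Sq T ≤ Ker D T Φ := by
        have h2 := (ker_wu_iff (hWU χ) f Φ hΦ)
        intro y hy
        refine ⟨sq_le_sel D T hy, fun a => ?_⟩
        obtain ⟨z, hz, hzy⟩ := hy
        have h4 : up F H y = 1 * (up F H z) ^ 2 := by
          rw [one_mul, ← map_pow, ← hzy]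
          rfl
        rw [hΦ a y _ 1 (D.U T).one_mem (up F H z) (up_T1 T hz) h4, ev_of_mem _ (D.U T).one_mem]
        have h5 : Additive.ofMul (⟨1, (D.U T).one_mem⟩ : D.U T) = 0 := rfl
        rw [h5, map_zero, Int.cast_zero]
      exact le_inf h1 ((hWU χ).1.trans (hd χ).1)
    have hcount := hcnt Fˣ (Sq T) (Ker D T Φ) (G →* ℂˣ) (fun χ => Ker D T Φ ⊓ Wt D T q χ) (by
        intro h0
        apply hfin
        have h1 := Subgroup.relIndex_mul_relIndex (Sq T) (Ker D T Φ) (Sel D T)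
          ((hle 1).trans inf_le_left) hker
        rw [← h1, h0, zero_mul]) (fun y hy => sq_mem D T (hker hy))
      (fun χ => ⟨hle χ, inf_le_left⟩) (fun y hy => by
        have h1 := hevx F H G D hG hs T q y (hker hy)
        have h2 : Nat.card {c : G →* ℂˣ // y ∈ Ker D T Φ ⊓ Wt D T q c} =
            Nat.card {χ : G →* ℂˣ // y ∈ Wt D T q χ} :=
          Nat.card_congr (Equiv.subtypeEquivRight fun χ =>
            ⟨fun h => h.2, fun h => ⟨hy, h⟩⟩)
        rw [h2]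
        exact h1)
    have h3 : Nat.card {χ : G →* ℂˣ // D.Active χ ∧
        Odd (n χ * Matrix.det (Matrix.of fun a b : Fin D.r => ev (f a) (x χ b)))} =
        Nat.card {c : G →* ℂˣ // Ker D T Φ ⊓ Wt D T q c = Sq T} :=
      Nat.card_congr (Equiv.subtypeEquivRight hiff)
    rw [h3]
    exact hcount

end

end Pool.Agent.BT9
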