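import Pool.Agent.H509.BT.Stm4

/-!
# Project BT: the task BF (`S_BF`)
-/

set_option autoImplicit false
set_option linter.unusedSectionVars false
set_option linter.deprecated false

open NumberField IsDedekindDomain Filter Topology Module

noncomputable section

namespace Pool.Agent.H167.BT

open Pool.Agent.Q92.AR (Dv prin Pr Ray nmD nu up sD puD Cong Pos frob IsFrobenius Unramified Ram art
  prin_mul prin_one prin_inv)
open Pool.Agent.K3h30.RS
open Pool.Agent.BT9

section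
variable {F H G : Type} [Field F] [NumberField F] [Field H] [NumberField H] [Algebra F H]
  [CommGroup G] [Finite G] [MulSemiringAction G H]

theorem fr_eq_one (D : RubinData F H G) {d : Dv F} (h : ∀ v, v ∉ D.S → d v = 0) :
    fr D d = 1 := by
  classical
  have h1 : frH D d = 0 := by
    unfold frH
    rw [Finsupp.liftAddHom_apply, Finsupp.sum]
    apply Finset.sum_eq_zero
    intro v _
    by_cases hv : v ∈ D.S
    · rw [if_pos hv]
      rfl
    · rw [h v hv, map_zero]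
  unfold fr
  rw [h1]
  rfl

theorem fr_congr (D : RubinData F H G) {a b : Dv F} (h : ∀ v, v ∉ D.S → a v = b v) :
    fr D a = fr D b := by
  have h1 : fr D (a - b) = 1 := fr_eq_one D fun v hv => by
    rw [Finsupp.sub_apply, h v hv, sub_self]
  have h2 : a = (a - b) + b := (sub_add_cancel a b).symm
  rw [h2, fr_add, h1, one_mul]

theorem prin_zero_of_FT {T : Finset (HeightOneSpectrum (𝓞 F))} {x : Fˣ} (hx : x ∈ FT T)
    {v : HeightOneSpectrum (𝓞 F)} (hv : v ∈ T) : prin x v = 0 := by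
  rw [Pool.Agent.Q182.AR.prin_eq_zero_iff]
  have h1 := mem_FT.1 hx v (Finset.mem_coe.2 hv)
  have h2 := Valuation.map_one_add_of_lt (v.valuation F) h1
  rwa [add_sub_cancel] at h2

end

/-- a multiple of an element by the relative index is in the subgroup -/
theorem relIndex_nsmul_mem {A : Type} [AddCommGroup A] {P Q : AddSubgroup A} {a : A} (ha : a ∈ Q) :
    P.relIndex Q • a ∈ P := by
  have h1 : (P.addSubgroupOf Q).index • (⟨a, ha⟩ : Q) ∈ P.addSubgroupOf Q :=
    AddSubgroup.nsmul_index_mem _ _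
  exact h1

/-- an odd index: elements whose double is in the subgroup -/
theorem mem_of_odd {A : Type} [AddCommGroup A] {P Q : AddSubgroup A} {a : A} (ha : a ∈ Q)
    (h : Odd (P.relIndex Q)) (h2 : a + a ∈ P) : a ∈ P := by
  obtain ⟨k, hk⟩ := h
  have h3 := relIndex_nsmul_mem (P := P) ha
  rw [hk, add_smul, one_smul, mul_comm, mul_smul, two_smul] at h3
  exact (AddSubgroup.add_mem_cancel_left P (nsmul_mem h2 k)).1 h3

/-- an even index: Cauchy's theorem -/
theorem exists_of_even {A : Type} [AddCommGroup A] {P Q : AddSubgroup A}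
    (h : Even (P.relIndex Q)) (h0 : P.relIndex Q ≠ 0) : ∃ a ∈ Q, a ∉ P ∧ a + a ∈ P := by
  have hfin : Finite (Q ⧸ P.addSubgroupOf Q) := by
    have h1 : Nat.card (Q ⧸ P.addSubgroupOf Q) ≠ 0 := h0
    exact Nat.finite_of_card_ne_zero h1
  have : Fact (Nat.Prime 2) := ⟨Nat.prime_two⟩
  obtain ⟨q, hq⟩ := exists_prime_addOrderOf_dvd_card' (G := Q ⧸ P.addSubgroupOf Q) 2
    (even_iff_two_dvd.1 h)
  obtain ⟨⟨a, ha⟩, rfl⟩ := QuotientAddGroup.mk_surjective q
  refine ⟨a, ha, ?_, ?_⟩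
  · intro haP
    have h1 : (QuotientAddGroup.mk (⟨a, ha⟩ : Q) : Q ⧸ P.addSubgroupOf Q) = 0 :=
      (QuotientAddGroup.eq_zero_iff _).2 haP
    rw [h1, addOrderOf_zero] at hq
    exact absurd hq (by norm_num)
  · have h1 := addOrderOf_nsmul_eq_zero (QuotientAddGroup.mk (⟨a, ha⟩ : Q) : Q ⧸ P.addSubgroupOf Q)
    rw [hq, two_smul, ← QuotientAddGroup.mk_add, QuotientAddGroup.eq_zero_iff] at h1
    exact h1

theorem bf (h1 : S_PF) : S_BF := by
  classical
  intro F H G _ _ _ _ _ _ _ _ _ D T hST hG hΛ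
  have hpf : ∀ ψ ∈ Perp D, ∀ y : Fˣ, ψ (fr D (prin y)) = 1 := h1 F H G D hΛ
  have hT : ∀ v, v ∈ T → v ∉ D.S := fun v hv hv' => Finset.disjoint_left.1 hST hv' hv
  refine ⟨?_, ?_, ?_, ?_⟩
  · rintro d ⟨hd, y, hy, h⟩
    refine ⟨hd, fun ψ hψ => ?_⟩
    rw [fr_congr D h]
    exact hpf ψ hψ y
  · rintro x ⟨hx, y, hy, h⟩
    exact ⟨hx, prin y, h, fun ψ hψ => hpf ψ hψ y⟩
  · rintro hodd x ⟨hx, a, ha, hψ⟩
    -- the divisor `a'`, zero at `S` and `T`
    let a' : Dv F := a.filter fun v => ¬ (v ∈ D.S ∨ v ∈ T)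
    have ha'1 : ∀ v, (v ∈ D.S ∨ v ∈ T) → a' v = 0 := fun v hv =>
      Finsupp.filter_apply_neg _ _ (not_not.2 hv)
    have ha'2 : ∀ v, v ∉ D.S → a' v = a v := by
      intro v hv
      by_cases hvT : v ∈ T
      · rw [ha'1 v (Or.inr hvT)]
        have h2 := ha v hv
        rw [prin_zero_of_FT hx.1 hvT] at h2
        omega
      · exact Finsupp.filter_apply_pos (fun v => ¬ (v ∈ D.S ∨ v ∈ T)) a
          (fun h => h.elim hv hvT)
    have hmem : a' ∈ D0F D T := ⟨ha'1, fun ψ hψ' => by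
      rw [fr_congr D ha'2]
      exact hψ ψ hψ'⟩
    have hmem2 : a' + a' ∈ PF D T := by
      refine ⟨(DF D T).add_mem hmem.1 hmem.1, x, hx.1, fun v hv => ?_⟩
      rw [Finsupp.add_apply, ha'2 v hv, ha v hv, two_mul]
    obtain ⟨-, y, hy, h⟩ := mem_of_odd hmem hodd hmem2
    refine ⟨hx, y, hy, fun v hv => ?_⟩
    rw [ha v hv, ← ha'2 v hv, h v hv]
  · intro heven h0
    obtain ⟨a, ha, haP, ha2⟩ := exists_of_even heven h0
    obtain ⟨-, x, hx, h⟩ := ha2
    have hxa : ∀ v, v ∉ D.S → prin x v = 2 * a v := by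
      intro v hv
      rw [← h v hv, Finsupp.add_apply, two_mul]
    have hsel : x ∈ Sel D T := by
      refine ⟨hx, fun v hv => ?_⟩
      rw [hxa v hv]
      exact even_two_mul _
    refine ⟨x, ⟨hsel, a, hxa, ha.2⟩, ?_⟩
    rintro ⟨-, y, hy, hxy⟩
    apply haP
    refine ⟨ha.1, y, hy, fun v hv => ?_⟩
    have h2 := hxa v hv
    rw [hxy v hv] at h2
    omega

end Pool.Agent.H167.BT
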