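import Pool.Agent.H509.BT.Stm4

/-! # Project BT, job BK -/

set_option autoImplicit false
set_option linter.unusedSectionVars false
set_option linter.deprecated false

open NumberField IsDedekindDomain Filter Topology Module

noncomputable section

namespace Pool.Agent.H914.BT

open Pool.Agent.BT9
open Pool.Agent.Q92.AR (Dv prin Pr Ray nmD nu up sD puD Cong Pos frob IsFrobenius Unramified Ram art
  prin_mul prin_one prin_inv sE)
open Pool.Agent.Q20.EX (Inert CongAt)
open Pool.Agent.K3h30.RS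
open Pool.Agent.K3h56.E2 (Quad Dict part InSF SplAt Over CA SU minus actK oddCard sgn loc)
open Pool.Agent.H509 (U1 Generates)
open Pool.Agent.TeamU (act val_act over_act val_over)
open Pool.Agent.Q5.BR (rdeg above mem_above)
open Pool.Agent.Q149.AR (act_under sD_apply prin_sE prin_eq_neg_log nmD_apply above_nonempty)

section base
variable {F H G K : Type} [Field F] [NumberField F] [Field H] [NumberField H]
  [Algebra F H] [CommGroup G] [Finite G] [MulSemiringAction G H] [Field K]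
  [NumberField K] [Algebra F K] [Algebra K H] {τ : K ≃ₐ[F] K} {χ : G →* ℂˣ}

theorem ab_iff {S : Set (HeightOneSpectrum (𝓞 F))} {w : HeightOneSpectrum (𝓞 K)} :
    Above S w ↔ w.under (𝓞 F) ∈ S := by
  constructor
  · rintro ⟨v, hv, h⟩
    have : w.under (𝓞 F) = v := HeightOneSpectrum.ext h
    rw [this]
    exact hv
  · intro h
    exact ⟨_, h, rfl⟩

theorem tinv (hq : Quad F K τ) : τ⁻¹ = τ := by
  rcases Pool.Agent.K3h50.E2.aut_eq hq τ⁻¹ with h | h
  · exfalso
    apply hq.ne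
    have h1 : τ⁻¹ = 1 := h
    exact inv_eq_one.1 h1
  · exact h

theorem act_tt (hq : Quad F K τ) (w : HeightOneSpectrum (𝓞 K)) : act τ (act τ w) = w := by
  have h := Pool.Agent.Q149.AR.act_inv_act τ w
  rwa [tinv hq] at h

theorem sD_t (hq : Quad F K τ) (c : Dv K) (w : HeightOneSpectrum (𝓞 K)) :
    sD τ c w = c (act τ w) := by
  rw [sD_apply, tinv hq]

theorem tt (hq : Quad F K τ) (x : K) : τ (τ x) = x :=
  (Pool.Agent.K3h92.E2.tau_facts τ hq).1 x

theorem t_fix (hq : Quad F K τ) {x : K} (h : τ x = x) : ∃ y : F, algebraMap F K y = x :=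
  (Pool.Agent.K3h92.E2.tau_facts τ hq).2 x h

theorem actK_val (x : Kˣ) : ((actK τ x : Kˣ) : K) = τ (x : K) := rfl

theorem actK_tt (hq : Quad F K τ) (x : Kˣ) : actK τ (actK τ x) = x := by
  apply Units.ext
  rw [actK_val, actK_val, tt hq]

theorem val_t (w : HeightOneSpectrum (𝓞 K)) (x : K) :
    (act τ w).valuation K (τ x) = w.valuation K x := val_act τ w x

theorem val_t' (hq : Quad F K τ) (w : HeightOneSpectrum (𝓞 K)) (x : K) :
    w.valuation K (τ x) = (act τ w).valuation K x := by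
  have h := val_act τ (act τ w) x
  rwa [act_tt hq] at h

theorem prin_t (hq : Quad F K τ) (x : Kˣ) (w : HeightOneSpectrum (𝓞 K)) :
    prin (actK τ x) w = prin x (act τ w) := by
  rw [prin_eq_neg_log, prin_eq_neg_log, actK_val, val_t' hq]

theorem up_inj : Function.Injective (up F K) := by
  intro a b h
  apply Units.ext
  have h1 := congrArg (fun x : Kˣ => (x : K)) h
  exact (algebraMap F K).injective h1

theorem up_nu (hq : Quad F K τ) (y : Kˣ) : up F K (nu F K y) = y * actK τ y := by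
  classical
  have hgal : IsGalois F K := Pool.Agent.K3h50.E2.isGalois_of_quad hq
  apply Units.ext
  have h1 : ((up F K (nu F K y) : Kˣ) : K) = algebraMap F K (Algebra.norm F (y : K)) := rfl
  rw [h1, Algebra.norm_eq_prod_automorphisms, Units.val_mul, actK_val]
  have h2 : (Finset.univ : Finset (K ≃ₐ[F] K)) = {AlgEquiv.refl, τ} := by
    ext g
    simp only [Finset.mem_univ, Finset.mem_insert, Finset.mem_singleton, true_iff]
    exact Pool.Agent.K3h50.E2.aut_eq hq g
  rw [h2, Finset.prod_pair (Ne.symm hq.ne)]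
  rfl

theorem actK_up (f : Fˣ) : actK τ (up F K f) = up F K f := by
  apply Units.ext
  rw [actK_val]
  exact τ.commutes (f : F)

theorem nu_t (hq : Quad F K τ) (y : Kˣ) : nu F K (actK τ y) = nu F K y := by
  apply up_inj (K := K)
  rw [up_nu hq, up_nu hq, actK_tt hq, mul_comm]

theorem nu_div_t (hq : Quad F K τ) (y : Kˣ) : nu F K (y / actK τ y) = 1 := by
  rw [map_div, nu_t hq, div_self']

/-- Hilbert 90 -/
theorem h90 (hq : Quad F K τ) {z : Kˣ} (h : nu F K z = 1) : ∃ γ : Kˣ, z = γ / actK τ γ := by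
  have h1 : z * actK τ z = 1 := by rw [← up_nu hq, h, map_one]
  by_cases hz : (1 : K) + z = 0
  · obtain ⟨t, ht⟩ : ∃ t : K, τ t ≠ t := by
      by_contra hcon
      push Not at hcon
      exact hq.ne (AlgEquiv.ext hcon)
    have ht0 : t - τ t ≠ 0 := sub_ne_zero.2 (Ne.symm ht)
    refine ⟨Units.mk0 _ ht0, ?_⟩
    rw [eq_div_iff_mul_eq']
    apply Units.ext
    rw [Units.val_mul, actK_val, Units.val_mk0, map_sub, tt hq]
    have : (z : K) = -1 := by linear_combination hz
    rw [this]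
    ring
  · refine ⟨Units.mk0 _ hz, ?_⟩
    rw [eq_div_iff_mul_eq']
    apply Units.ext
    rw [Units.val_mul, actK_val, Units.val_mk0, map_add, map_one]
    have h2 : (z : K) * τ (z : K) = 1 := by
      have := congrArg (fun x : Kˣ => (x : K)) h1
      exact this
    linear_combination h2

/-! ### `fr` -/

theorem fr_zero_of (D : RubinData F H G) {d : Dv F} (h : ∀ v, v ∉ D.S → d v = 0) : fr D d = 1 := by
  classical
  have h0 : frH D d = 0 := by
    unfold frH
    rw [Finsupp.liftAddHom_apply, Finsupp.sum]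
    refine Finset.sum_eq_zero fun v _ => ?_
    by_cases hv : v ∈ D.S
    · rw [if_pos hv]
      rfl
    · rw [h v hv, map_zero]
  unfold fr
  rw [h0]
  rfl

theorem fr_congr (D : RubinData F H G) {d d' : Dv F} (h : ∀ v, v ∉ D.S → d v = d' v) :
    fr D d = fr D d' := by
  have h1 : d = d' + (d - d') := by abel
  rw [h1, fr_add, fr_zero_of D (d := d - d'), mul_one]
  intro v hv
  rw [Finsupp.sub_apply, h v hv, sub_self]

/-! ### primes outside `S` -/

theorem unrK (hd : Dict F H G K τ χ) (D : RubinData F H G) {v : HeightOneSpectrum (𝓞 F)}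
    (hv : v ∉ D.S) : Unramified K v := by
  have htw : IsScalarTower F K H := hd.tower
  intro w _ hle
  have h8 : v.asIdeal.map (algebraMap (𝓞 F) (𝓞 H)) =
      (v.asIdeal.map (algebraMap (𝓞 F) (𝓞 K))).map (algebraMap (𝓞 K) (𝓞 H)) := by
    rw [Ideal.map_map, ← IsScalarTower.algebraMap_eq]
  have h7 := D.unramified v hv
  rw [h8] at h7
  have h9 := h7 (w.asIdeal.map (algebraMap (𝓞 K) (𝓞 H))) (by
    rw [← Ideal.map_mul, ← pow_two]
    exact Ideal.dvd_iff_le.2 (Ideal.map_mono hle))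
  rw [Ideal.isUnit_iff] at h9
  obtain ⟨u, hu⟩ := above_nonempty (E := H) w
  apply u.isPrime.ne_top
  rw [eq_top_iff, ← h9, Ideal.map_le_iff_le_comap]
  exact le_of_eq (congrArg HeightOneSpectrum.asIdeal hu).symm

/-- the primes above a prime of `F` outside `S` -/
theorem struct (hd : Dict F H G K τ χ) (D : RubinData F H G) {v : HeightOneSpectrum (𝓞 F)}
    (hv : v ∉ D.S) :
    (∃ P P' : HeightOneSpectrum (𝓞 K), P ≠ P' ∧ (∀ Q : HeightOneSpectrum (𝓞 K),
      Q.under (𝓞 F) = v ↔ Q = P ∨ Q = P') ∧ act τ P = P' ∧ act τ P' = P ∧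
      rdeg F P = 1 ∧ rdeg F P' = 1) ∨
    (∃ P : HeightOneSpectrum (𝓞 K), (∀ Q : HeightOneSpectrum (𝓞 K), Q.under (𝓞 F) = v ↔ Q = P) ∧
      act τ P = P ∧ rdeg F P = 2) := by
  have htw : IsScalarTower F K H := hd.tower
  have hgal : IsGalois F K := Pool.Agent.K3h50.E2.isGalois_of_quad hd.quad
  have habv : ∀ Q : HeightOneSpectrum (𝓞 K), Above {v} Q ↔ Q.under (𝓞 F) = v := fun Q => by
    rw [ab_iff, Set.mem_singleton_iff]
  obtain ⟨h1, h2⟩ := Pool.Agent.K3h25.E2.t_LOC F K τ hd.quad v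
  by_cases hl : loc K v = 1
  · left
    obtain ⟨P, P', hne, h3, -, h4, h5, h6⟩ := h1 hl
    have hP : Above {v} P := (h3 P).2 (Or.inl rfl)
    have hP' : Above {v} P' := (h3 P').2 (Or.inr rfl)
    have hu : P.under (𝓞 F) = P'.under (𝓞 F) := by
      rw [(habv P).1 hP, (habv P').1 hP']
    obtain ⟨g, hg⟩ := Pool.Agent.Q149.AR.trans_act (F := F) hu
    have hgτ : g = τ := by
      rcases Pool.Agent.K3h50.E2.aut_eq hd.quad g with h7 | h7
      · exfalso
        apply hne
        rw [← hg, h7]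
        exact (Pool.Agent.TeamU.act_one P).symm
      · exact h7
    rw [hgτ] at hg
    refine ⟨P, P', hne, fun Q => by rw [← habv, h3], hg, by rw [← hg, act_tt hd.quad],
      Pool.Agent.H509.Rec.rdeg_eq hP (k := 1) (by rw [h5, pow_one]),
      Pool.Agent.H509.Rec.rdeg_eq hP' (k := 1) (by rw [h6, pow_one])⟩
  · right
    obtain ⟨P, h3, -, h4⟩ := h2 hl
    have hP : Above {v} P := (h3 P).2 rfl
    rcases h4 with ⟨-, h5, h6⟩ | ⟨-, h5, h6⟩
    · refine ⟨P, fun Q => by rw [← habv, h3], ?_, Pool.Agent.H509.Rec.rdeg_eq hP (k := 2) h6⟩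
      apply (h3 _).1
      rw [habv, act_under, ← habv]
      exact hP
    · exfalso
      exact unrK hd D hv P ((habv P).1 hP) (le_of_eq h5)

theorem nmD_at (hd : Dict F H G K τ χ) (D : RubinData F H G) {w : HeightOneSpectrum (𝓞 K)}
    (hw : w.under (𝓞 F) ∉ D.S) (d : Dv K) :
    nmD F K d (w.under (𝓞 F)) = d w + d (act τ w) := by
  classical
  rw [nmD_apply]
  rcases struct hd D hw with ⟨P, P', hne, h3, h4, h5, h6, h7⟩ | ⟨P, h3, h4, h5⟩
  · have hab : above K (w.under (𝓞 F)) = {P, P'} := by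
      ext Q
      rw [mem_above, h3, Finset.mem_insert, Finset.mem_singleton]
    rw [hab, Finset.sum_pair hne, h6, h7]
    rcases (h3 w).1 rfl with h8 | h8
    · rw [h8, h4]
      push_cast
      ring
    · rw [h8, h5]
      push_cast
      ring
  · have hab : above K (w.under (𝓞 F)) = {P} := by
      ext Q
      rw [mem_above, h3, Finset.mem_singleton]
    rw [hab, Finset.sum_singleton, h5, (h3 w).1 rfl, h4]
    push_cast
    ring

theorem nm_prin (x : Kˣ) : nmD F K (prin x) = prin (nu F K x) := (Pool.Agent.Q106.AR.nm F K).1 x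

theorem prin_nu_at (hd : Dict F H G K τ χ) (D : RubinData F H G) {w : HeightOneSpectrum (𝓞 K)}
    (hw : w.under (𝓞 F) ∉ D.S) (x : Kˣ) :
    prin (nu F K x) (w.under (𝓞 F)) = prin x w + prin x (act τ w) := by
  rw [← nm_prin, nmD_at hd D hw]

theorem prin_up_at (hd : Dict F H G K τ χ) (D : RubinData F H G) {w : HeightOneSpectrum (𝓞 K)}
    (hw : w.under (𝓞 F) ∉ D.S) (c : Fˣ) : prin (up F K c) w = prin c (w.under (𝓞 F)) := by
  rw [prin_eq_neg_log, prin_eq_neg_log]
  have hov : Pool.Agent.TeamU.Over w (w.under (𝓞 F)) := rfl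
  have h1 : w.valuation K ((up F K c : Kˣ) : K) =
      (w.under (𝓞 F)).valuation F (c : F) ^ ((w.under (𝓞 F)).asIdeal.ramificationIdx' w.asIdeal) :=
    val_over hov (c : F)
  rw [h1]
  have he : Ideal.ramificationIdx' (w.under (𝓞 F)).asIdeal w.asIdeal = 1 := by
    refine Ideal.ramificationIdx'_spec ?_ ?_
    · rw [pow_one, Ideal.map_le_iff_le_comap]
      exact le_of_eq rfl
    · exact unrK hd D hw w rfl
  rw [he, pow_one]

open Classical in
/-- the part of a divisor -/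
def cut (p : HeightOneSpectrum (𝓞 K) → Prop) (d : Dv K) : Dv K := d.filter p

theorem cut_pos {p : HeightOneSpectrum (𝓞 K) → Prop} (d : Dv K) {w : HeightOneSpectrum (𝓞 K)}
    (h : p w) : cut p d w = d w := by
  classical
  exact Finsupp.filter_apply_pos _ _ h

theorem cut_neg {p : HeightOneSpectrum (𝓞 K) → Prop} (d : Dv K) {w : HeightOneSpectrum (𝓞 K)}
    (h : ¬ p w) : cut p d w = 0 := by
  classical
  exact Finsupp.filter_apply_neg _ _ h

/-- descent of divisors -/
theorem exists_desc (hd : Dict F H G K τ χ) (D : RubinData F H G) {d : Dv K}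
    (h : ∀ w : HeightOneSpectrum (𝓞 K), w.under (𝓞 F) ∉ D.S → d (act τ w) = d w) :
    ∃ e : Dv F, ∀ w : HeightOneSpectrum (𝓞 K), w.under (𝓞 F) ∉ D.S → d w = e (w.under (𝓞 F)) := by
  classical
  have hgal : IsGalois F K := Pool.Agent.K3h50.E2.isGalois_of_quad hd.quad
  have hgen : ∀ g : K ≃ₐ[F] K, g ∈ Subgroup.zpowers τ := by
    intro g
    rcases Pool.Agent.K3h50.E2.aut_eq hd.quad g with h7 | h7
    · rw [h7]
      exact Subgroup.one_mem _
    · rw [h7]
      exact Subgroup.mem_zpowers τ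
  set d' : Dv K := cut (fun w => w.under (𝓞 F) ∉ D.S) d with hd'
  have h1 : sD τ d' = d' := by
    ext w
    rw [sD_t hd.quad]
    by_cases hw : w.under (𝓞 F) ∈ D.S
    · rw [hd', cut_neg _ (by rw [act_under]; exact fun h => h hw), cut_neg _ (fun h => h hw)]
    · rw [hd', cut_pos _ (by rw [act_under]; exact hw), cut_pos _ hw, h w hw]
  obtain ⟨e, he⟩ := Pool.Agent.Q149.AR.exists_puD hgen h1
  refine ⟨e, fun w hw => ?_⟩
  have h2 : d w = d' w := (cut_pos (p := fun w => w.under (𝓞 F) ∉ D.S) d hw).symm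
  rw [h2, he, Pool.Agent.Q149.AR.puD_apply]

/-! ### congruences modulo `T` -/

theorem mem_T1' {T : Finset (HeightOneSpectrum (𝓞 F))} {x : Kˣ} : x ∈ T1 K T ↔
    ∀ w : HeightOneSpectrum (𝓞 K), w.under (𝓞 F) ∈ T → w.valuation K ((x : K) - 1) < 1 := by
  rw [mem_T1]
  exact forall_congr' fun w => by rw [ab_iff]; rfl

theorem val_one_of {L : Type} [Field L] [NumberField L] {w : HeightOneSpectrum (𝓞 L)} {x : L}
    (h : w.valuation L (x - 1) < 1) : w.valuation L x = 1 := by
  have h1 := Valuation.map_one_add_of_lt (w.valuation L) h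
  rwa [add_sub_cancel] at h1

theorem prin_of_val {L : Type} [Field L] [NumberField L] {w : HeightOneSpectrum (𝓞 L)} {x : Lˣ}
    (h : w.valuation L (x : L) = 1) : prin x w = 0 := by
  rw [prin_eq_neg_log, h, WithZero.log_one, neg_zero]

theorem T1_prin {T : Finset (HeightOneSpectrum (𝓞 F))} {y : Kˣ} (h : y ∈ T1 K T)
    {w : HeightOneSpectrum (𝓞 K)} (hw : w.under (𝓞 F) ∈ T) : prin y w = 0 :=
  prin_of_val (val_one_of (mem_T1'.1 h w hw))

theorem FT_prin {T : Finset (HeightOneSpectrum (𝓞 F))} {x : Fˣ} (h : x ∈ FT T)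
    {v : HeightOneSpectrum (𝓞 F)} (hv : v ∈ T) : prin x v = 0 :=
  prin_of_val (val_one_of (mem_FT.1 h v hv))

theorem T1_t (hq : Quad F K τ) {T : Finset (HeightOneSpectrum (𝓞 F))} {y : Kˣ}
    (h : y ∈ T1 K T) : actK τ y ∈ T1 K T := by
  rw [mem_T1'] at h ⊢
  intro w hw
  have h1 : ((actK τ y : Kˣ) : K) - 1 = τ ((y : K) - 1) := by rw [actK_val, map_sub, map_one]
  rw [h1, val_t' hq]
  exact h _ (by rw [act_under]; exact hw)

theorem nu_T1 (hq : Quad F K τ) {T : Finset (HeightOneSpectrum (𝓞 F))} {y : Kˣ}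
    (h : y ∈ T1 K T) : nu F K y ∈ FT T := by
  rw [mem_FT]
  intro v hv
  obtain ⟨w, hw⟩ := above_nonempty (E := K) v
  have h1 : up F K (nu F K y) ∈ T1 K T := by
    rw [up_nu hq]
    exact (T1 K T).mul_mem h (T1_t hq h)
  have h2 := mem_T1'.1 h1 w (by rw [hw]; exact hv)
  have h3 : ((up F K (nu F K y) : Kˣ) : K) - 1 = algebraMap F K ((nu F K y : F) - 1) := by
    rw [map_sub, map_one]
    rfl
  have hov : Pool.Agent.TeamU.Over w v := by
    rw [← hw]
    rfl
  rw [h3, val_over hov] at h2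
  by_contra hcon
  exact absurd (one_le_pow_of_one_le' (not_lt.1 hcon) _) (not_le.2 h2)

theorem val_int_le {L : Type} [Field L] [NumberField L] (w : HeightOneSpectrum (𝓞 L)) (x : 𝓞 L) :
    w.valuation L (x : L) ≤ 1 := HeightOneSpectrum.valuation_le_one w x

theorem val_mem {L : Type} [Field L] [NumberField L] {w : HeightOneSpectrum (𝓞 L)} {x : 𝓞 L}
    (h : x ∈ w.asIdeal) : w.valuation L (x : L) < 1 :=
  (HeightOneSpectrum.valuation_lt_one_iff_mem (K := L) w x).2 h

theorem val_unit_of_sub {L : Type} [Field L] [NumberField L] {w : HeightOneSpectrum (𝓞 L)} {x y : L}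
    (hx : w.valuation L x = 1) (h : w.valuation L (y - x) < 1) : w.valuation L y = 1 := by
  have h1 : y = x + (y - x) := by ring
  rw [h1, Valuation.map_add_eq_of_lt_left _ (by rw [hx]; exact h), hx]

theorem exists_theta_v (hd : Dict F H G K τ χ) (D : RubinData F H G)
    {v : HeightOneSpectrum (𝓞 F)} (hv : v ∉ D.S) : ∃ θ : 𝓞 K, ∀ w : HeightOneSpectrum (𝓞 K),
      w.under (𝓞 F) = v → w.valuation K ((θ : K) - τ (θ : K)) = 1 := by
  have hgal : IsGalois F K := Pool.Agent.K3h50.E2.isGalois_of_quad hd.quad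
  rcases struct hd D hv with ⟨P, P', hne, h3, h4, h5, h6, h7⟩ | ⟨P, h3, h4, h5⟩
  · have hne' : P.asIdeal ≠ P'.asIdeal := fun h => hne (HeightOneSpectrum.ext h)
    have hm : P.asIdeal.IsMaximal := P.isMaximal
    have hm' : P'.asIdeal.IsMaximal := P'.isMaximal
    have hc : (1 : 𝓞 K) ∈ P.asIdeal ⊔ P'.asIdeal := by
      rw [Ideal.IsMaximal.coprime_of_ne hm hm' hne']
      trivial
    obtain ⟨p, hp, p', hp', hpp⟩ := Submodule.mem_sup.1 hc
    have hP : P.valuation K ((p' : K) - τ (p' : K)) = 1 := by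
      have h8 : (p' : K) = 1 - (p : K) := by
        have h9 : p' = 1 - p := by rw [← hpp]; ring
        rw [h9]
        rfl
      refine val_unit_of_sub (x := 1) (map_one _) ?_
      have h10 : (p' : K) - τ (p' : K) - 1 = -((p : K) + τ (p' : K)) := by
        rw [h8]
        ring
      rw [h10, Valuation.map_neg]
      refine lt_of_le_of_lt (Valuation.map_add _ _ _) (max_lt (val_mem hp) ?_)
      rw [val_t' hd.quad, h4]
      exact val_mem hp'
    refine ⟨p', fun w hw => ?_⟩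
    rcases (h3 w).1 hw with h8 | h8
    · rw [h8]
      exact hP
    · rw [h8, ← h4]
      have h9 : (p' : K) - τ (p' : K) = -(τ ((p' : K) - τ (p' : K))) := by
        rw [map_sub, tt hd.quad]
        ring
      rw [h9, Valuation.map_neg, val_t]
      exact hP
  · by_contra hcon
    push Not at hcon
    apply hd.quad.ne
    have h6 : Unramified K (P.under (𝓞 F)) := by
      rw [(h3 P).2 rfl]
      exact unrK hd D hv
    refine Pool.Agent.Q238.MZ.inr_trivial h6 (g := τ) fun x => ?_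
    obtain ⟨w, hw, hx⟩ := hcon x
    rw [(h3 w).1 hw] at hx
    have hgx : IsIntegral ℤ (τ (x : K)) := x.2.map τ
    refine ⟨⟨τ (x : K), hgx⟩ - x, ?_, rfl⟩
    rw [← HeightOneSpectrum.valuation_lt_one_iff_mem (K := K)]
    have h7 : (algebraMap (𝓞 K) K) (⟨τ (x : K), hgx⟩ - x) = -((x : K) - τ (x : K)) := by
      rw [neg_sub]
      rfl
    have h8 : P.valuation K ((algebraMap (𝓞 K) K) (⟨τ (x : K), hgx⟩ - x)) ≤ 1 :=
      HeightOneSpectrum.valuation_le_one P _
    have h9 : P.valuation K ((algebraMap (𝓞 K) K) (⟨τ (x : K), hgx⟩ - x)) < 1 := by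
      rw [h7, Valuation.map_neg] at h8 ⊢
      exact lt_of_le_of_ne h8 hx
    exact h9

theorem exists_theta (hd : Dict F H G K τ χ) (D : RubinData F H G)
    {T : Finset (HeightOneSpectrum (𝓞 F))} (hT : Disjoint D.S T) :
    ∃ θ : K, ∀ w : HeightOneSpectrum (𝓞 K), w.under (𝓞 F) ∈ T →
      w.valuation K θ ≤ 1 ∧ w.valuation K (θ - τ θ) = 1 := by
  classical
  have hTS : ∀ v ∈ T, v ∉ D.S := fun v hv hv' => Finset.disjoint_left.1 hT hv' hv
  have hex : ∀ v : HeightOneSpectrum (𝓞 F), ∃ θ : 𝓞 K, v ∈ T → ∀ w : HeightOneSpectrum (𝓞 K),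
      w.under (𝓞 F) = v → w.valuation K ((θ : K) - τ (θ : K)) = 1 := by
    intro v
    by_cases hv : v ∈ T
    · obtain ⟨θ, hθ⟩ := exists_theta_v hd D (hTS v hv)
      exact ⟨θ, fun _ => hθ⟩
    · exact ⟨0, fun h => absurd h hv⟩
  choose θ hθ using hex
  obtain ⟨y, hy⟩ := IsDedekindDomain.exists_forall_sub_mem_ideal (R := 𝓞 K)
    (s := T.biUnion (above K)) (fun w : HeightOneSpectrum (𝓞 K) => w.asIdeal) (fun _ => 1)
    (fun w _ => w.prime) (fun w _ w' _ hne h => hne (HeightOneSpectrum.ext h))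
    (fun w => θ (w.1.under (𝓞 F)))
  have hy' : ∀ w : HeightOneSpectrum (𝓞 K), w.under (𝓞 F) ∈ T →
      w.valuation K ((y : K) - (θ (w.under (𝓞 F)) : K)) < 1 := by
    intro w hw
    have h1 := hy w (Finset.mem_biUnion.2 ⟨_, hw, mem_above.2 rfl⟩)
    rw [pow_one] at h1
    exact val_mem h1
  refine ⟨(y : K), fun w hw => ⟨val_int_le w y, ?_⟩⟩
  refine val_unit_of_sub (hθ _ hw w rfl) ?_
  have h1 : (y : K) - τ (y : K) - ((θ (w.under (𝓞 F)) : K) - τ (θ (w.under (𝓞 F)) : K)) =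
      ((y : K) - (θ (w.under (𝓞 F)) : K)) + -(τ ((y : K) - (θ (w.under (𝓞 F)) : K))) := by
    rw [map_sub]
    ring
  rw [h1]
  refine lt_of_le_of_lt (Valuation.map_add _ _ _) (max_lt (hy' w hw) ?_)
  rw [Valuation.map_neg, val_t' hd.quad]
  have h2 := hy' (act τ w) (by rw [act_under]; exact hw)
  rw [act_under] at h2
  exact h2

/-- if `γ / τ γ` is congruent to one modulo `T`, then `γ` is congruent to an element of `F` -/
theorem tfix (hd : Dict F H G K τ χ) (D : RubinData F H G)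
    {T : Finset (HeightOneSpectrum (𝓞 F))} (hT : Disjoint D.S T) {γ : Kˣ}
    (h : γ / actK τ γ ∈ T1 K T) : ∃ f : Fˣ, γ / up F K f ∈ T1 K T := by
  classical
  rcases T.eq_empty_or_nonempty with hT0 | ⟨v0, hv0⟩
  · refine ⟨1, mem_T1'.2 fun w hw => ?_⟩
    rw [hT0] at hw
    exact absurd hw (Finset.notMem_empty _)
  obtain ⟨θ, hθ⟩ := exists_theta hd D hT
  have hτγ : τ (γ : K) ≠ 0 := by
    rw [← actK_val]
    exact Units.ne_zero _
  obtain ⟨w0, hw0⟩ := above_nonempty (E := K) v0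
  have hw0T : w0.under (𝓞 F) ∈ T := by rw [hw0]; exact hv0
  have hθ0 : θ - τ θ ≠ 0 := by
    intro h0
    have h1 := (hθ w0 hw0T).2
    rw [h0, map_zero] at h1
    exact zero_ne_one h1
  set b : K := ((γ : K) - τ (γ : K)) / (θ - τ θ) with hb
  set a : K := (γ : K) - b * θ with ha
  have hbt : τ b = b := by
    rw [hb, map_div₀, map_sub, map_sub, tt hd.quad, tt hd.quad, ← neg_sub (γ : K) (τ (γ : K)),
      ← neg_sub θ (τ θ), neg_div_neg_eq]
  have hat : τ a = a := by
    have h1 : b * (θ - τ θ) = (γ : K) - τ (γ : K) := by rw [hb]; field_simp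
    rw [ha, map_sub, map_mul, hbt]
    linear_combination h1
  obtain ⟨f, hf⟩ := t_fix hd.quad hat
  have key : ∀ w : HeightOneSpectrum (𝓞 K), w.under (𝓞 F) ∈ T →
      w.valuation K ((γ : K) - a) < w.valuation K a := by
    intro w hw
    have h1 := mem_T1'.1 h w hw
    have h2 : ((γ / actK τ γ : Kˣ) : K) = (γ : K) / τ (γ : K) := by
      rw [Units.val_div_eq_div_val, actK_val]
    rw [h2] at h1
    have h3 := val_one_of h1
    have h4 : w.valuation K (τ (γ : K)) ≠ 0 := (Valuation.ne_zero_iff _).2 hτγ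
    have h5 : w.valuation K (γ : K) = w.valuation K (τ (γ : K)) := by
      rw [map_div₀, div_eq_one_iff_eq h4] at h3
      exact h3
    have h6 : w.valuation K ((γ : K) - τ (γ : K)) < w.valuation K (γ : K) := by
      have h7 : (γ : K) / τ (γ : K) - 1 = ((γ : K) - τ (γ : K)) / τ (γ : K) := by
        field_simp
      rw [h7, map_div₀, div_lt_one₀ (zero_lt_iff.2 h4)] at h1
      rw [h5]
      exact h1
    have h8 : w.valuation K ((γ : K) - a) < w.valuation K (γ : K) := by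
      have h9 : (γ : K) - a = b * θ := by rw [ha]; ring
      rw [h9, map_mul, hb, map_div₀, (hθ w hw).2, div_one]
      refine lt_of_le_of_lt ?_ h6
      calc w.valuation K ((γ : K) - τ (γ : K)) * w.valuation K θ
          ≤ w.valuation K ((γ : K) - τ (γ : K)) * 1 := mul_le_mul_right (hθ w hw).1 _
        _ = _ := mul_one _
    have h10 : w.valuation K a = w.valuation K (γ : K) := by
      have h11 : a = (γ : K) + -((γ : K) - a) := by ring
      rw [h11, Valuation.map_add_eq_of_lt_left]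
      rw [Valuation.map_neg]
      exact h8
    rw [h10]
    exact h8
  have ha0 : a ≠ 0 := by
    intro h0
    have h1 := key w0 hw0T
    rw [h0, map_zero] at h1
    exact not_lt_zero' h1
  have hf0 : f ≠ 0 := by
    rintro rfl
    apply ha0
    rw [← hf, map_zero]
  refine ⟨Units.mk0 f hf0, mem_T1'.2 fun w hw => ?_⟩
  have h1 : ((γ / up F K (Units.mk0 f hf0) : Kˣ) : K) - 1 = ((γ : K) - a) / a := by
    rw [Units.val_div_eq_div_val]
    have h2 : ((up F K (Units.mk0 f hf0) : Kˣ) : K) = a := hf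
    rw [h2]
    field_simp
  rw [h1, map_div₀, div_lt_one₀ (zero_lt_iff.2 ((Valuation.ne_zero_iff _).2 ha0))]
  exact key w hw

end base

/-! ### indices -/

theorem odd_mem {A : Type} [AddCommGroup A] {P Q : AddSubgroup A} (h : Odd (P.relIndex Q)) {c : A}
    (hc : c ∈ Q) (h2 : c + c ∈ P) : c ∈ P := by
  have h3 := AddSubgroup.nsmul_index_mem (P.addSubgroupOf Q) (⟨c, hc⟩ : Q)
  have h4 : P.relIndex Q • c ∈ P := h3
  obtain ⟨k, hk⟩ := h
  rw [hk, add_smul, one_smul, mul_comm, mul_smul, two_smul] at h4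
  have h5 : c = (k • (c + c) + c) - k • (c + c) := by abel
  rw [h5]
  exact P.sub_mem h4 (P.nsmul_mem h2 k)

theorem even_ex {A : Type} [AddCommGroup A] {P Q : AddSubgroup A} (h : Even (P.relIndex Q))
    (h0 : P.relIndex Q ≠ 0) : ∃ c ∈ Q, c ∉ P ∧ c + c ∈ P := by
  have h1 : Nat.card (Q ⧸ P.addSubgroupOf Q) = P.relIndex Q := rfl
  have hf : Finite (Q ⧸ P.addSubgroupOf Q) := Nat.finite_of_card_ne_zero (by rw [h1]; exact h0)
  have hp : Fact (Nat.Prime 2) := ⟨Nat.prime_two⟩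
  obtain ⟨q, hq⟩ := exists_prime_addOrderOf_dvd_card' (G := Q ⧸ P.addSubgroupOf Q) 2
    (by rw [h1]; exact h.two_dvd)
  obtain ⟨⟨c, hc⟩, rfl⟩ := QuotientAddGroup.mk_surjective q
  refine ⟨c, hc, fun hcP => ?_, ?_⟩
  · have h2 : ((⟨c, hc⟩ : Q) : Q ⧸ P.addSubgroupOf Q) = 0 :=
      (QuotientAddGroup.eq_zero_iff _).2 (AddSubgroup.mem_addSubgroupOf.2 hcP)
    rw [h2, addOrderOf_zero] at hq
    omega
  · have h2 : 2 • ((⟨c, hc⟩ : Q) : Q ⧸ P.addSubgroupOf Q) = 0 := by
      rw [← hq]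
      exact addOrderOf_nsmul_eq_zero _
    have h3 : (((2 • ⟨c, hc⟩ : Q) : Q) : Q ⧸ P.addSubgroupOf Q) = 0 := h2
    have h4 := AddSubgroup.mem_addSubgroupOf.1 ((QuotientAddGroup.eq_zero_iff _).1 h3)
    have h5 : ((2 • (⟨c, hc⟩ : Q) : Q) : A) = c + c := by
      rw [two_smul]
      rfl
    rw [h5] at h4
    exact h4

theorem exists_half {F : Type} [Field F] [NumberField F] (d : Dv F)
    (S : Finset (HeightOneSpectrum (𝓞 F))) (h : ∀ v, v ∉ S → Even (d v)) :
    ∃ a : Dv F, ∀ v, v ∉ S → d v = 2 * a v := by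
  refine ⟨d.mapRange (fun n => n / 2) (by norm_num), fun v hv => ?_⟩
  rw [Finsupp.mapRange_apply, Int.two_mul_ediv_two_of_even (h v hv)]

section mems
variable {F H G K : Type} [Field F] [NumberField F] [Field H] [NumberField H]
  [Algebra F H] [CommGroup G] [Finite G] [MulSemiringAction G H] [Field K]
  [NumberField K] [Algebra F K] (D : RubinData F H G) (T : Finset (HeightOneSpectrum (𝓞 F)))

theorem mem_DK' {d : Dv K} : d ∈ DK D T K ↔ ∀ w : HeightOneSpectrum (𝓞 K),
    (w.under (𝓞 F) ∈ D.S ∨ w.under (𝓞 F) ∈ T) → d w = 0 := by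
  have h1 : d ∈ DK D T K ↔ ∀ w : HeightOneSpectrum (𝓞 K),
    (Above (D.S : Set (HeightOneSpectrum (𝓞 F))) w ∨
    Above (T : Set (HeightOneSpectrum (𝓞 F))) w) → d w = 0 := Iff.rfl
  rw [h1]
  exact forall_congr' fun w => by rw [ab_iff, ab_iff]; rfl

theorem mem_PK' {d : Dv K} : d ∈ PK D T K ↔ d ∈ DK D T K ∧ ∃ y ∈ T1 K T, ∃ e : Dv F,
    ∀ w : HeightOneSpectrum (𝓞 K), w.under (𝓞 F) ∉ D.S → d w = prin y w + e (w.under (𝓞 F)) := by
  have h1 : d ∈ PK D T K ↔ d ∈ DK D T K ∧ ∃ y ∈ T1 K T, ∃ e : Dv F,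
    ∀ w : HeightOneSpectrum (𝓞 K), ¬ Above (D.S : Set (HeightOneSpectrum (𝓞 F))) w →
      d w = prin y w + e (w.under (𝓞 F)) := Iff.rfl
  have h2 : ∀ w : HeightOneSpectrum (𝓞 K), (¬ Above (D.S : Set (HeightOneSpectrum (𝓞 F))) w) ↔
      w.under (𝓞 F) ∉ D.S := fun w => by rw [ab_iff]; rfl
  rw [h1]
  simp only [h2]

theorem mem_D0K' {d : Dv K} : d ∈ D0K D T K ↔ d ∈ DK D T K ∧
    ∀ ψ ∈ Perp D, ψ (fr D (nmD F K d)) = 1 := Iff.rfl

theorem mem_WK' {x : Fˣ} : x ∈ WK D T K ↔ x ∈ Sel D T ∧ ∃ β ∈ T1 K T, ∃ e : Dv F, nu F K β = x ∧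
    ∀ w : HeightOneSpectrum (𝓞 K), w.under (𝓞 F) ∉ D.S → prin β w = e (w.under (𝓞 F)) := by
  have h1 : x ∈ WK D T K ↔ x ∈ Sel D T ∧ ∃ β ∈ T1 K T, ∃ e : Dv F, nu F K β = x ∧
    ∀ w : HeightOneSpectrum (𝓞 K), ¬ Above (D.S : Set (HeightOneSpectrum (𝓞 F))) w →
      prin β w = e (w.under (𝓞 F)) := Iff.rfl
  have h2 : ∀ w : HeightOneSpectrum (𝓞 K), (¬ Above (D.S : Set (HeightOneSpectrum (𝓞 F))) w) ↔
      w.under (𝓞 F) ∉ D.S := fun w => by rw [ab_iff]; rfl
  rw [h1]
  simp only [h2]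

theorem mem_WtK' {τ : K ≃ₐ[F] K} {x : Fˣ} : x ∈ WtK D T τ ↔ x ∈ Sel D T ∧
    ∃ (β : Kˣ) (c : Dv K), RepK D τ x β c ∧ ∀ ψ ∈ Perp D, ψ (fr D (nmD F K c)) = 1 := Iff.rfl

theorem RepK_iff {τ : K ≃ₐ[F] K} (hq : Quad F K τ) {x : Fˣ} {β : Kˣ} {c : Dv K} :
    RepK D τ x β c ↔ nu F K β = x ∧ ∀ w : HeightOneSpectrum (𝓞 K), w.under (𝓞 F) ∉ D.S →
      2 * prin β w = prin x (w.under (𝓞 F)) + 2 * (c w - c (act τ w)) := by
  have h2 : ∀ w : HeightOneSpectrum (𝓞 K), (¬ Above (D.S : Set (HeightOneSpectrum (𝓞 F))) w) ↔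
      w.under (𝓞 F) ∉ D.S := fun w => by rw [ab_iff]; rfl
  unfold RepK
  simp only [h2, sD_t hq]

end mems

theorem bk (hPF : S_PF) (hIN : S_INVD) (hTA : S_TADJ) : S_BK := by
  intro F H G K _ _ _ _ _ _ _ _ _ _ _ _ _ τ χ hd D T hT hG hΛ
  have hq := hd.quad
  have hTS : ∀ v ∈ T, v ∉ D.S := fun v hv hv' => Finset.disjoint_left.1 hT hv' hv
  have kI : ∀ d : Dv K, (∀ w : HeightOneSpectrum (𝓞 K), w.under (𝓞 F) ∉ D.S →
      d (act τ w) = d w) → fr D (nmD F K d) = 1 := by
    intro d h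
    refine (hIN F H G K τ χ hd D d fun w hw => ?_).2 hG
    rw [ab_iff] at hw
    rw [sD_t hq]
    exact h w hw
  have kP : ∀ ψ ∈ Perp D, ∀ y : Kˣ, ψ (fr D (nmD F K (prin y))) = 1 := by
    intro ψ hψ y
    rw [nm_prin]
    exact hPF F H G D hΛ ψ hψ _
  have hPD : PK D T K ≤ D0K D T K := by
    intro d hdP
    obtain ⟨hd1, y, hy, e, he⟩ := (mem_PK' D T).1 hdP
    refine ⟨hd1, fun ψ hψ => ?_⟩
    have e1 : d = (d - prin y) + prin y := by abel
    rw [e1, map_add, fr_add, map_mul, kP ψ hψ, kI, map_one, mul_one]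
    intro w hw
    rw [Finsupp.sub_apply, Finsupp.sub_apply, he w hw, he (act τ w) (by rw [act_under]; exact hw),
      act_under]
    ring
  have hsym : ∀ c ∈ DK D T K, c + sD τ c ∈ PK D T K := by
    intro c hc
    rw [mem_PK']
    have hc' := (mem_DK' D T).1 hc
    refine ⟨(mem_DK' D T).2 fun w hw => ?_, 1, (T1 K T).one_mem, nmD F K c, fun w hw => ?_⟩
    · rw [Finsupp.add_apply, sD_t hq, hc' w hw, hc' (act τ w) (by rw [act_under]; exact hw), add_zero]
    · rw [Finsupp.add_apply, sD_t hq, prin_one, Finsupp.zero_apply, zero_add, nmD_at hd D hw]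
  refine ⟨hPD, ?_, ?_, ?_⟩
  · intro x hx
    obtain ⟨h1, β, hβ, e, h2, h3⟩ := (mem_WK' D T).1 hx
    refine ⟨h1, β, 0, (RepK_iff D hq).2 ⟨h2, fun w hw => ?_⟩, fun ψ _ => by
      rw [map_zero, fr_zero, map_one]⟩
    rw [← h2, prin_nu_at hd D hw, h3 w hw, h3 (act τ w) (by rw [act_under]; exact hw), act_under,
      Finsupp.zero_apply, Finsupp.zero_apply]
    ring
  · intro hodd x hx
    obtain ⟨hxS, β, c, hrep, hψ⟩ := (mem_WtK' D T).1 hx
    obtain ⟨hn, hrep⟩ := (RepK_iff D hq).1 hrep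
    obtain ⟨γ, hγ⟩ := hTA F H G K τ χ hd D T hT β (by rw [hn]; exact hxS.1)
    set β1 : Kˣ := β * (γ / actK τ γ) with hβ1
    have hn1 : nu F K β1 = x := by rw [hβ1, map_mul, nu_div_t hq, mul_one, hn]
    set c1 : Dv K := c + prin γ with hc1
    have hp1 : ∀ w, prin β1 w = prin β w + (prin γ w - prin γ (act τ w)) := by
      intro w
      rw [hβ1, prin_mul, Pool.Agent.Q92.AR.prin_div, Finsupp.add_apply, Finsupp.sub_apply,
        prin_t hq]
    have hrep1 : ∀ w : HeightOneSpectrum (𝓞 K), w.under (𝓞 F) ∉ D.S →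
        2 * prin β1 w = prin x (w.under (𝓞 F)) + 2 * (c1 w - c1 (act τ w)) := by
      intro w hw
      rw [hp1, hc1, Finsupp.add_apply, Finsupp.add_apply, mul_add, hrep w hw]
      ring
    have hψ1 : ∀ ψ ∈ Perp D, ψ (fr D (nmD F K c1)) = 1 := by
      intro ψ h
      rw [hc1, map_add, fr_add, map_mul, hψ ψ h, kP ψ h, mul_one]
    have hTinv : ∀ w : HeightOneSpectrum (𝓞 K), w.under (𝓞 F) ∈ T → c1 (act τ w) = c1 w := by
      intro w hw
      have h1 := hrep1 w (hTS _ hw)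
      rw [T1_prin hγ hw, FT_prin hxS.1 hw] at h1
      omega
    set c' : Dv K := cut (fun w => w.under (𝓞 F) ∉ D.S ∧ w.under (𝓞 F) ∉ T) c1 with hc'
    have hcD : c' ∈ DK D T K := by
      rw [mem_DK']
      intro w hw
      rw [hc', cut_neg]
      rintro ⟨h1, h2⟩
      exact hw.elim h1 h2
    have hval : ∀ w : HeightOneSpectrum (𝓞 K), w.under (𝓞 F) ∉ D.S →
        (c1 - c') (act τ w) = (c1 - c') w := by
      intro w hw
      rw [Finsupp.sub_apply, Finsupp.sub_apply]
      by_cases hwT : w.under (𝓞 F) ∈ T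
      · rw [hc', cut_neg _ (by rw [act_under]; exact fun h => h.2 hwT),
          cut_neg _ (fun h => h.2 hwT), hTinv w hwT]
      · rw [hc', cut_pos _ (by rw [act_under]; exact ⟨hw, hwT⟩), cut_pos _ ⟨hw, hwT⟩]
        ring
    have hcD0 : c' ∈ D0K D T K := by
      refine ⟨hcD, fun ψ h => ?_⟩
      have h1 := hψ1 ψ h
      have h2 : c1 = c' + (c1 - c') := by abel
      rw [h2, map_add, fr_add, kI _ hval, mul_one] at h1
      exact h1
    have hdiff : ∀ w : HeightOneSpectrum (𝓞 K), w.under (𝓞 F) ∉ D.S →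
        c' w - c' (act τ w) = c1 w - c1 (act τ w) := by
      intro w hw
      have h1 := hval w hw
      rw [Finsupp.sub_apply, Finsupp.sub_apply] at h1
      linarith
    obtain ⟨a, ha⟩ := exists_half (prin x) D.S hxS.2
    have hsub : c' - sD τ c' ∈ PK D T K := by
      rw [mem_PK']
      have hc'' := (mem_DK' D T).1 hcD
      refine ⟨(mem_DK' D T).2 fun w hw => ?_, β1, hγ, -a, fun w hw => ?_⟩
      · rw [Finsupp.sub_apply, sD_t hq, hc'' w hw, hc'' (act τ w) (by rw [act_under]; exact hw),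
          sub_zero]
      · rw [Finsupp.sub_apply, sD_t hq, hdiff w hw, Finsupp.neg_apply]
        have h1 := hrep1 w hw
        rw [ha _ hw] at h1
        linarith
    have h2c : c' + c' ∈ PK D T K := by
      have h1 : c' + c' = (c' - sD τ c') + (c' + sD τ c') := by abel
      rw [h1]
      exact (PK D T K).add_mem hsub (hsym c' hcD)
    obtain ⟨-, y, hy, e, he⟩ := (mem_PK' D T).1 (odd_mem hodd hcD0 h2c)
    rw [mem_WK']
    refine ⟨hxS, β1 / (y / actK τ y), (T1 K T).div_mem hγ ((T1 K T).div_mem hy (T1_t hq hy)), a,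
      by rw [map_div, nu_div_t hq, div_one, hn1], fun w hw => ?_⟩
    rw [Pool.Agent.Q92.AR.prin_div, Pool.Agent.Q92.AR.prin_div, Finsupp.sub_apply,
      Finsupp.sub_apply, prin_t hq]
    have h1 := hrep1 w hw
    have h2 := hdiff w hw
    have h3 := he w hw
    have h4 := he (act τ w) (by rw [act_under]; exact hw)
    rw [act_under] at h4
    rw [ha _ hw] at h1
    linarith
  · intro heven hne
    obtain ⟨c, hc, hcP, h2c⟩ := even_ex heven hne
    have hcDK := hc.1
    have hsub : c - sD τ c ∈ PK D T K := by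
      have h1 : c - sD τ c = (c + c) - (c + sD τ c) := by abel
      rw [h1]
      exact (PK D T K).sub_mem h2c (hsym c hcDK)
    obtain ⟨-, y, hy, e, he⟩ := (mem_PK' D T).1 hsub
    have he' : ∀ w : HeightOneSpectrum (𝓞 K), w.under (𝓞 F) ∉ D.S →
        c w - c (act τ w) = prin y w + e (w.under (𝓞 F)) := by
      intro w hw
      have h1 := he w hw
      rw [Finsupp.sub_apply, sD_t hq] at h1
      exact h1
    have hnx : ∀ v : HeightOneSpectrum (𝓞 F), v ∉ D.S → prin (nu F K y) v = 2 * (-(e v)) := by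
      intro v hv
      obtain ⟨w, hw⟩ := above_nonempty (E := K) v
      rw [← hw] at hv ⊢
      rw [prin_nu_at hd D hv]
      have h1 := he' w hv
      have h2 := he' (act τ w) (by rw [act_under]; exact hv)
      rw [act_tt hq, act_under] at h2
      linarith
    have hSel : nu F K y ∈ Sel D T := ⟨nu_T1 hq hy, fun v hv => by
      rw [hnx v hv]
      exact even_two_mul _⟩
    refine ⟨nu F K y, ⟨hSel, y, c, (RepK_iff D hq).2 ⟨rfl, fun w hw => ?_⟩, hc.2⟩, fun hW => ?_⟩
    · rw [hnx _ hw, he' w hw]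
      ring
    · obtain ⟨-, β', hβ', e', hn', h3⟩ := (mem_WK' D T).1 hW
      obtain ⟨γ, hγ⟩ := h90 hq (z := y / β') (by rw [map_div, hn', div_self'])
      obtain ⟨f, hf⟩ := tfix hd D hT (γ := γ) (by
        rw [← hγ]
        exact (T1 K T).div_mem hy hβ')
      have hge : ∀ w : HeightOneSpectrum (𝓞 K), w.under (𝓞 F) ∉ D.S →
          (c - prin γ) (act τ w) = (c - prin γ) w := by
        intro w hw
        rw [Finsupp.sub_apply, Finsupp.sub_apply]
        have h1 := congrArg (fun z : Kˣ => prin z w) hγ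
        simp only [Pool.Agent.Q92.AR.prin_div, Finsupp.sub_apply, prin_t hq] at h1
        have h2 := he' w hw
        have h4 := h3 w hw
        have h5 := hnx _ hw
        rw [← hn', prin_nu_at hd D hw, h3 w hw, h3 (act τ w) (by rw [act_under]; exact hw),
          act_under] at h5
        linarith
      obtain ⟨e3, he3⟩ := exists_desc hd D hge
      apply hcP
      rw [mem_PK']
      refine ⟨hcDK, γ / up F K f, hf, prin f + e3, fun w hw => ?_⟩
      have h1 := he3 w hw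
      rw [Finsupp.sub_apply] at h1
      rw [Pool.Agent.Q92.AR.prin_div, Finsupp.sub_apply, prin_up_at hd D hw, Finsupp.add_apply]
      linarith

end Pool.Agent.H914.BT
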