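import Pool.Agent.H509.BT.Stm3

/-!
# BT-CEX: the divisor `c` of a norm (helper738)
-/

set_option autoImplicit false
set_option linter.unusedSectionVars false
set_option linter.deprecated false

open NumberField IsDedekindDomain Filter Topology Module

noncomputable section

namespace Pool.Agent.H738.BT

open Pool.Agent.BT9
open Pool.Agent.Q92.AR (Dv prin Pr Ray nmD nu up sD puD Cong Pos frob IsFrobenius Unramified Ram art
  prin_mul prin_one prin_inv sE sE_apply)
open Pool.Agent.Q20.EX (Inert CongAt)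
open Pool.Agent.K3h30.RS
open Pool.Agent.K3h56.E2 (Quad Dict part InSF SplAt Over CA SU minus actK oddCard sgn)
open Pool.Agent.H509 (U1 Generates)
open Pool.Agent.Q149.AR (prin_eq_neg_log sD_apply puD_apply prin_sE act_under)
open Pool.Agent.TeamU (act)

section
variable {F K H : Type} [Field F] [NumberField F] [Field K] [NumberField K] [Field H]
  [NumberField H] [Algebra F K] [Algebra K H] [Algebra F H] [IsScalarTower F K H]

/-- a prime which is unramified in `H` is unramified in the intermediate field `K` -/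
theorem unr_bot {v : HeightOneSpectrum (𝓞 F)} (h : Unramified H v) : Unramified K v := by
  intro P hP hle
  obtain ⟨Q, hQ⟩ := Pool.Agent.Q149.AR.above_nonempty (F := K) (E := H) P
  have h1 : Q.under (𝓞 F) = v := by
    rw [← hP, ← hQ]
    apply HeightOneSpectrum.ext
    change Q.asIdeal.comap (algebraMap (𝓞 F) (𝓞 H)) =
      (Q.asIdeal.comap (algebraMap (𝓞 K) (𝓞 H))).comap (algebraMap (𝓞 F) (𝓞 K))
    rw [Ideal.comap_comap, ← IsScalarTower.algebraMap_eq]
  apply h Q h1
  have h2 : v.asIdeal.map (algebraMap (𝓞 F) (𝓞 H)) =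
      (v.asIdeal.map (algebraMap (𝓞 F) (𝓞 K))).map (algebraMap (𝓞 K) (𝓞 H)) := by
    rw [Ideal.map_map, ← IsScalarTower.algebraMap_eq]
  rw [h2]
  refine (Ideal.map_mono hle).trans ?_
  rw [Ideal.map_pow]
  refine Ideal.pow_right_mono ?_ 2
  rw [Ideal.map_le_iff_le_comap, ← hQ]
  exact le_rfl

end

section
variable {F K : Type} [Field F] [NumberField F] [Field K] [NumberField K] [Algebra F K]

/-- the divisor of an element of `F` at an unramified prime -/
theorem prin_up_apply (x : Fˣ) (w : HeightOneSpectrum (𝓞 K))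
    (hu : Unramified K (w.under (𝓞 F))) : prin (up F K x) w = prin x (w.under (𝓞 F)) := by
  rw [prin_eq_neg_log, prin_eq_neg_log]
  have hov : Pool.Agent.TeamU.Over w (w.under (𝓞 F)) := rfl
  have h1 : w.valuation K ((up F K x : Kˣ) : K) =
      (w.under (𝓞 F)).valuation F (x : F) ^
        ((w.under (𝓞 F)).asIdeal.ramificationIdx' w.asIdeal) :=
    Pool.Agent.TeamU.val_over hov (x : F)
  have he : Ideal.ramificationIdx' (w.under (𝓞 F)).asIdeal w.asIdeal = 1 := by
    refine Ideal.ramificationIdx'_spec ?_ ?_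
    · rw [pow_one, Ideal.map_le_iff_le_comap]
      exact le_of_eq rfl
    · exact hu w rfl
  rw [h1, he, pow_one]

/-- the norm of a quadratic extension -/
theorem up_nu {τ : K ≃ₐ[F] K} (hQ : Quad F K τ) (β : Kˣ) :
    up F K (nu F K β) = β * (sE τ (Additive.ofMul β)).toMul := by
  classical
  have : Algebra.IsQuadraticExtension F K := { finrank_eq_two' := hQ.deg }
  have : IsGalois F K := inferInstance
  have hcard : Nat.card (K ≃ₐ[F] K) = 2 := by
    rw [IsGalois.card_aut_eq_finrank, hQ.deg]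
  have hτ1 : τ ≠ 1 := hQ.ne
  have h2 : ∀ σ : K ≃ₐ[F] K, σ ≠ 1 → σ = τ := by
    intro σ hσ
    obtain ⟨y, hy, hy'⟩ := (Nat.card_eq_two_iff' (1 : K ≃ₐ[F] K)).mp hcard
    rw [hy' σ hσ, hy' τ hτ1]
  have huniv : (Finset.univ : Finset (K ≃ₐ[F] K)) = {1, τ} := by
    ext σ
    simp only [Finset.mem_univ, Finset.mem_insert, Finset.mem_singleton, true_iff]
    by_cases h : σ = 1
    · exact Or.inl h
    · exact Or.inr (h2 σ h)
  apply Units.ext
  have h3 := Algebra.norm_eq_prod_automorphisms F (β : K)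
  rw [huniv, Finset.prod_pair hτ1.symm] at h3
  exact h3

/-- the involution -/
theorem prin_nu {τ : K ≃ₐ[F] K} (hQ : Quad F K τ) (β : Kˣ) (w : HeightOneSpectrum (𝓞 K))
    (hu : Unramified K (w.under (𝓞 F))) :
    prin β w + prin β (act τ⁻¹ w) = prin (nu F K β) (w.under (𝓞 F)) := by
  rw [← prin_up_apply (nu F K β) w hu, up_nu hQ, prin_mul, Finsupp.add_apply, prin_sE, sD_apply]
  rfl

theorem above_iff (S : Finset (HeightOneSpectrum (𝓞 F))) (w : HeightOneSpectrum (𝓞 K)) :
    Above (S : Set (HeightOneSpectrum (𝓞 F))) w ↔ w.under (𝓞 F) ∈ S := by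
  constructor
  · rintro ⟨v, hv, h⟩
    have h1 : w.under (𝓞 F) = v := HeightOneSpectrum.ext h
    rw [h1]
    exact hv
  · intro h
    exact ⟨w.under (𝓞 F), h, rfl⟩

end

/-- **CEX** -/
theorem cex : S_CEX := by
  classical
  intro F H G K _ _ _ _ _ _ _ _ _ _ _ _ _ τ χ hD D x β hx heven
  have htow := hD.tower
  -- twice the difference
  obtain ⟨P, hP⟩ : ∃ P : Dv K, ∀ w, P w = 2 * prin β w - prin x (w.under (𝓞 F)) :=
    ⟨(2 : ℤ) • prin β - puD F K (prin x), fun w => by
      rw [Finsupp.sub_apply, Finsupp.smul_apply, puD_apply, smul_eq_mul]⟩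
  obtain ⟨c, hc⟩ : ∃ c : Dv K, ∀ w, c w = if w.under (𝓞 F) ∈ D.S then 0 else max (P w / 2) 0 := by
    refine ⟨(P.mapRange (fun n => max (n / 2) 0) (by simp)).filter
      (fun w => w.under (𝓞 F) ∉ D.S), fun w => ?_⟩
    rw [Finsupp.filter_apply]
    by_cases h : w.under (𝓞 F) ∈ D.S
    · rw [if_neg (not_not.2 h), if_pos h]
    · rw [if_pos h, if_neg h, Finsupp.mapRange_apply]
  refine ⟨c, hx, fun w hw => ?_⟩
  rw [above_iff] at hw
  have hu : Unramified K (w.under (𝓞 F)) :=
    unr_bot (H := H) (Pool.Agent.H509.Rec.unr_of_squarefree (D.unramified _ hw))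
  have h1 := prin_nu hD.quad β w hu
  rw [hx] at h1
  have hw' : (act τ⁻¹ w).under (𝓞 F) = w.under (𝓞 F) := act_under τ⁻¹ w
  obtain ⟨m, hm⟩ := heven _ hw
  have hP1 : P w = 2 * (prin β w - m) := by
    rw [hP, hm]
    ring
  have hP2 : P (act τ⁻¹ w) = 2 * (-(prin β w - m)) := by
    rw [hP, hw']
    have h2 : prin β (act τ⁻¹ w) = prin x (w.under (𝓞 F)) - prin β w := by linarith
    rw [h2, hm]
    ring
  rw [sD_apply, hc, hc, hw', if_neg hw, if_neg hw, hP1, hP2,
    Int.mul_ediv_cancel_left _ two_ne_zero, Int.mul_ediv_cancel_left _ two_ne_zero, hm]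
  rcases le_total 0 (prin β w - m) with h | h
  · rw [max_eq_left h, max_eq_right (by omega)]
    ring
  · rw [max_eq_right h, max_eq_left (by omega)]
    ring

end Pool.Agent.H738.BT
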