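import Pool.Agent.H509.BT.Stm3
import Pool.Graph.R_pool_sql_team_seeded_3997aac3.Q149.AR.SD2
import Pool.Graph.R_pool_sql_team_seeded_3997aac3.Q182.MZ.LFa
import Pool.Graph.R_pool_sql_team_seeded_5cf16337.K3h77.E2.Minus

/-!
# BT-CWD: the symbol does not depend on the choices
-/

set_option autoImplicit false
set_option linter.unusedSectionVars false
set_option linter.deprecated false

open NumberField IsDedekindDomain

noncomputable section

namespace Pool.Agent.H253.BT

open Pool.Agent.Q92.AR (Dv prin Pr Ray nmD nu up sD sE prin_mul prin_one prin_inv prin_div)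
open Pool.Agent.K3h30.RS
open Pool.Agent.K3h56.E2 (Quad Dict)
open Pool.Agent.BT9

/-- Hilbert 90 for an involution `τ ≠ 1` of a field (char `≠ 2` is not needed). -/
theorem h90 {F K : Type} [Field F] [Field K] [Algebra F K] (τ : K ≃ₐ[F] K)
    (h2 : ∀ x : K, τ (τ x) = x) (hne : τ ≠ AlgEquiv.refl) (η : Kˣ) (hη : (η : K) * τ (η : K) = 1) :
    ∃ δ : Kˣ, (η : K) * τ (δ : K) = (δ : K) := by
  by_cases h : (η : K) = -1
  · obtain ⟨z, hz⟩ : ∃ z : K, τ z ≠ z := by
      by_contra hcon
      push Not at hcon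
      exact hne (AlgEquiv.ext hcon)
    have hy : z - τ z ≠ 0 := fun h0 => hz (sub_eq_zero.1 h0).symm
    refine ⟨Units.mk0 (z - τ z) hy, ?_⟩
    rw [Units.val_mk0, map_sub, h2, h]
    ring
  · have hd : 1 + (η : K) ≠ 0 := fun h0 => h (by linear_combination h0)
    refine ⟨Units.mk0 (1 + (η : K)) hd, ?_⟩
    rw [Units.val_mk0, map_add, map_one, mul_add, hη]
    ring

/-- the norm of a quadratic extension -/
theorem norm_quad {F K : Type} [Field F] [NumberField F] [Field K] [NumberField K] [Algebra F K]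
    {τ : K ≃ₐ[F] K} (h : Quad F K τ) (x : K) : algebraMap F K (Algebra.norm F x) = x * τ x := by
  classical
  have := Pool.Agent.K3h50.E2.isGalois_of_quad h
  have : FiniteDimensional F K := FiniteDimensional.of_finrank_pos (by rw [h.deg]; norm_num)
  rw [Algebra.norm_eq_prod_automorphisms]
  have hu : (Finset.univ : Finset (K ≃ₐ[F] K)) = {AlgEquiv.refl, τ} := by
    ext σ
    rw [Finset.mem_insert, Finset.mem_singleton]
    exact ⟨fun _ => Pool.Agent.K3h50.E2.aut_eq h σ, fun _ => Finset.mem_univ σ⟩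
  rw [hu, Finset.prod_pair h.ne.symm]
  rfl

theorem cwd (h1 : S_PF) (h2 : S_INVD) : S_CWD := by
  intro F H G K _ _ _ _ _ _ _ _ _ _ _ _ _ τ χ hD D hG hL x β β' c c' hr hr' ψ hψ
  have hn : nu F K (β' / β) = 1 := by rw [map_div, hr.1, hr'.1, div_self']
  have hη : ((β' / β : Kˣ) : K) * τ ((β' / β : Kˣ) : K) = 1 := by
    rw [← norm_quad hD.quad]
    have h3 : Algebra.norm F ((β' / β : Kˣ) : K) = 1 := congrArg Units.val hn
    rw [h3, map_one]
  obtain ⟨δ, hδ⟩ := h90 τ (Pool.Agent.K3h77.E2.tau_tau hD.quad) hD.quad.ne (β' / β) hη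
  have hp : prin β' - prin β = prin δ - sD τ (prin δ) := by
    have h4 : prin (sE τ (Additive.ofMul δ)).toMul = sD τ (prin δ) :=
      Pool.Agent.Q149.AR.prin_sE τ (Additive.ofMul δ)
    have h5 : (β' / β) * (sE τ (Additive.ofMul δ)).toMul = δ := Units.ext hδ
    have h6 : prin (β' / β) + sD τ (prin δ) = prin δ := by
      rw [← h4, ← prin_mul, h5]
    have h9 : prin (β' / β) = prin β' - prin β := prin_div β' β
    rw [← h9]
    exact eq_sub_of_add_eq h6
  have hd : ∀ w : HeightOneSpectrum (𝓞 K), ¬ Above (D.S : Set (HeightOneSpectrum (𝓞 F))) w →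
      sD τ (c' - c - prin δ) w = (c' - c - prin δ) w := by
    intro w hw
    have e1 := hr.2 w hw
    have e2 := hr'.2 w hw
    have e3 : (prin β' - prin β) w = (prin δ - sD τ (prin δ)) w := by rw [hp]
    rw [Finsupp.sub_apply, Finsupp.sub_apply] at e3
    rw [map_sub, map_sub, Finsupp.sub_apply, Finsupp.sub_apply, Finsupp.sub_apply,
      Finsupp.sub_apply]
    omega
  have h7 := (h2 F H G K τ χ hD D (c' - c - prin δ) hd).2 hG
  have h8 : c' = c + prin δ + (c' - c - prin δ) := by abel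
  rw [h8, map_add, map_add, fr_add, fr_add, h7, mul_one, Pool.Agent.Q182.MZ.nm_prin, map_mul,
    h1 F H G D hL ψ hψ, mul_one]

end Pool.Agent.H253.BT
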