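import Pool.Agent.H509.BT.Asm

/-!
# Project BT: the boundary case, for trivial class groups
-/

set_option autoImplicit false
set_option linter.unusedSectionVars false
set_option linter.deprecated false

open NumberField IsDedekindDomain Filter Topology Module

noncomputable section

namespace Pool.Agent.BT9

open Pool.Agent.Q92.AR (Dv prin Pr Ray nmD nu up sD puD Cong Pos frob IsFrobenius Unramified Ram art
  prin_mul prin_one prin_inv)
open Pool.Agent.Q20.EX (Inert CongAt)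
open Pool.Agent.K3h30.RS
open Pool.Agent.K3h56.E2 (Quad Dict part InSF SplAt Over CA SU minus actK oddCard sgn)
open Pool.Agent.H509 (U1 Generates)

/-- the index of `U^{1-τ}` in `U⁻` is finite -/
theorem rel_tau_ne {F K : Type} [Field F] [NumberField F] [Field K] [NumberField K] [Algebra F K]
    {τ : K ≃ₐ[F] K} (hQ : Quad F K τ) {S : Finset (HeightOneSpectrum (𝓞 F))}
    {A : Finset (HeightOneSpectrum (𝓞 K))} (hO : Over S A) :
    ((SU K A).map ((MonoidHom.id Kˣ) / actK τ)).relIndex (SU K A ⊓ minus τ) ≠ 0 := by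
  classical
  have h1 : Fintype.card (InfinitePlace F) ≤ Fintype.card (InfinitePlace K) :=
    Fintype.card_le_of_surjective _ (InfinitePlace.comap_surjective (k := F) (K := K))
  have h2 : S.card ≤ A.card := by
    refine Finset.card_le_card_of_surjOn (fun w : HeightOneSpectrum (𝓞 K) => w.under (𝓞 F)) ?_
    intro v hv
    obtain ⟨w, hw⟩ := (Pool.Agent.K3h25.RS.t_OVER F K v).1
    exact ⟨w, (hO w).2 ⟨v, hv, hw⟩, HeightOneSpectrum.ext (by
      obtain ⟨v', hv', h⟩ := hw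
      rw [Set.mem_singleton_iff] at hv'
      rw [← hv']
      exact h)⟩
  obtain ⟨r, hr⟩ := Nat.exists_eq_add_of_le (Nat.add_le_add h1 h2)
  have h3 := Pool.Agent.K3h17.E2.t_RANK F K τ hQ S A hO r (by omega)
  have h4 : (SU K A ⊓ minus τ).map (powMonoidHom 2) ≤
      (SU K A).map ((MonoidHom.id Kˣ) / actK τ) := by
    rintro _ ⟨u, ⟨hu, hm⟩, rfl⟩
    refine ⟨u, hu, ?_⟩
    have h5 : actK τ u = u⁻¹ := hm
    change u / actK τ u = u ^ 2
    rw [h5, div_inv_eq_mul, pow_two]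
  intro h0
  have h6 := Subgroup.relIndex_dvd_of_le_left (SU K A ⊓ minus τ) h4
  rw [h0, h3] at h6
  exact absurd (Nat.eq_zero_of_zero_dvd h6) (by positivity)

section

variable {F H G : Type} [Field F] [NumberField F] [Field H] [NumberField H] [Algebra F H]
  [CommGroup G] [Finite G] [MulSemiringAction G H] [IsGaloisGroup G F H]

theorem sc_pos {D : RubinData F H G} (Λ : Lam D) : 0 < sc D := by
  obtain ⟨w, hw, hw'⟩ := D.more
  obtain ⟨i, -⟩ := Λ.all w hw hw'
  have := Λ.fin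
  have h1 : 0 < Nat.card Λ.ι := Nat.card_pos_iff.2 ⟨⟨i⟩, inferInstance⟩
  have h2 := Λ.card
  unfold sc
  omega

theorem absNorm_ge (v : HeightOneSpectrum (𝓞 F)) : 2 ≤ Ideal.absNorm v.asIdeal := by
  have h0 : Ideal.absNorm v.asIdeal ≠ 0 := by
    rw [Ne, Ideal.absNorm_eq_zero_iff]
    exact v.ne_bot
  have h1 : Ideal.absNorm v.asIdeal ≠ 1 := by
    rw [Ne, Ideal.absNorm_eq_one_iff]
    exact v.isPrime.ne_top
  omega

theorem prod_ne (D : RubinData F H G) (T : Finset (HeightOneSpectrum (𝓞 F))) (χ : G →* ℂˣ) :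
    ∏ v ∈ T, ((Ideal.absNorm v.asIdeal : ℤ) - sgn χ (D.σ v)) ≠ 0 := by
  refine Finset.prod_ne_zero_iff.2 fun v _ => ?_
  have h1 : (2 : ℤ) ≤ (Ideal.absNorm v.asIdeal : ℤ) := by exact_mod_cast absNorm_ge v
  have h2 : sgn χ (D.σ v) ≤ 1 := by
    unfold sgn
    split_ifs <;> norm_num
  omega

/-- the arithmetic of the numbers -/
theorem num_aux {G : Type} [CommGroup G] [Finite G] {P : Subgroup G} {s e a b n I : ℕ}
    (hs : Nat.card P = 2 ^ s) (he : s = e + 1) (hI : I = P.index) (h : n * I = a * b) :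
    2 * ((a : ℝ) * b * 2 ^ e) = n * (Nat.card G : ℝ) := by
  have h1 := P.card_mul_index
  rw [hs, ← hI] at h1
  have h2 : (Nat.card G : ℝ) = 2 ^ s * I := by
    rw [← h1]
    push_cast
    rfl
  have h3 : (n : ℝ) * I = a * b := by exact_mod_cast h
  rw [h2, he, pow_succ, ← h3]
  ring

/-- the statement for a nontrivial character -/
theorem dat_chi (htcla : S_TCLA) (htclb : S_TCLB) (hdk0 : S_DK0) (hbk : S_BK) (hwu : S_WU)
    (D : RubinData F H G) (Λ : Lam D)
    (T : Finset (HeightOneSpectrum (𝓞 F))) (hT : D.Allowed T) (hG : ∀ g : G, g * g = 1)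
    (hs : Nat.card (Sg D) = 2 ^ sc D) (χ : G →* ℂˣ) (hχ : χ ≠ 1) :
    ∃ (Q : QF F H G χ) (x : Fin D.r → Hˣ) (q : ℝ) (n : ℤ), WUc D T χ ∧
      Dat D T χ (WtK D T Q.τ) x q n := by
  classical
  by_cases ha : D.Active χ
  · obtain ⟨K, iK, nK, aF, aH, τ, hd, A0, x, q, a, b, hO, haeq, hbeq, -, hcl, ht, hdet⟩ :=
      Pool.Agent.H509.E3.chi3 D T hT hG χ hχ ha
    obtain ⟨w1, w2, w3, w4, w5⟩ := hwu F H G K τ χ hd D T hT
    obtain ⟨b1, b2, b3, b4⟩ := hbk F H G K τ χ hd D T hT.1 hG ⟨Λ⟩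
    -- the numbers
    have e1 := htcla F H G K τ χ hd D A0 hO a haeq
    have e2 := htclb F H G K τ χ hd D T hT.1 b hbeq
    have hex : ∃ g ∈ Sg D, χ g ≠ 1 := by
      obtain ⟨w, hw, hw'⟩ := D.more
      rcases ha with ha | ⟨rfl, -⟩
      · obtain ⟨γ, h1, h2⟩ := ha w hw hw'
        exact ⟨γ, mem_Sg hw h1, h2⟩
      · exact absurd rfl hχ
    have e3 := hdk0 F H G K τ χ hd D T hex
    have hD0 : D0K D T K ≤ DK D T K := fun d hd => hd.1
    have e4 := AddSubgroup.relIndex_mul_relIndex (PK D T K) (D0K D T K) (DK D T K) b1 hD0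
    obtain ⟨m, hm⟩ : ∃ m : ℕ, m = (PK D T K).relIndex (D0K D T K) := ⟨_, rfl⟩
    rw [← hm, e3, e2, e1] at e4
    have ha0 : a ≠ 0 := by
      rintro rfl
      rw [mul_zero] at haeq
      have h1 : (CA (A0 : Set (HeightOneSpectrum (𝓞 K)))).index ≠ 0 :=
        Subgroup.index_ne_zero_of_finite
      exact rel_tau_ne hd.quad hO ((mul_eq_zero.1 haeq).resolve_left h1)
    have hb0 : b ≠ 0 := by
      rintro rfl
      rw [Nat.cast_zero, mul_zero] at hbeq
      exact prod_ne D T χ hbeq.symm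
    have hm0 : m ≠ 0 := by
      rintro rfl
      rw [zero_mul] at e4
      exact mul_ne_zero ha0 hb0 e4.symm
    have hsc : sc D = (Fintype.card (InfinitePlace F) + D.S.card - (D.r + 1)) + 1 := by
      have := sc_pos Λ
      unfold sc at this ⊢
      omega
    have hnum := num_aux hs hsc rfl e4
    have hodd : Odd m → WtK D T τ ≤ Wu D T χ := fun h => by
      rw [← w1]
      exact b3 (by rw [← hm]; exact h)
    have heven : ¬ Odd m → ∃ y ∈ WtK D T τ, y ∉ Wu D T χ := fun h => by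
      rw [← w1]
      exact b4 (by rw [← hm]; exact Nat.not_odd_iff_even.1 h) (by rw [← hm]; exact hm0)
    rcases hdet with hdet | hdet
    · refine ⟨⟨K, iK, nK, aF, aH, τ, hd⟩, x, q, (m : ℤ), ⟨w2, w3, w4, w5⟩, ?_, fun _ =>
        ⟨hcl, ht, ?_, fun h => hodd (by exact_mod_cast h), fun h => heven (by exact_mod_cast h)⟩⟩
      · rw [← w1]
        exact b2
      · rw [hdet]
        push_cast
        linear_combination (Matrix.det (Matrix.of fun a b : Fin D.r =>
          Real.log (av (D.w a) ((x b : Hˣ) : H)))) * hnum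
    · refine ⟨⟨K, iK, nK, aF, aH, τ, hd⟩, x, q, -(m : ℤ), ⟨w2, w3, w4, w5⟩, ?_, fun _ =>
        ⟨hcl, ht, ?_, fun h => hodd (by exact_mod_cast ((odd_neg (α := ℤ)).1 h)),
          fun h => heven (fun h' => h ((odd_neg (α := ℤ)).2 (by exact_mod_cast h')))⟩⟩
      · rw [← w1]
        exact b2
      · rw [hdet]
        push_cast
        linear_combination -(Matrix.det (Matrix.of fun a b : Fin D.r =>
          Real.log (av (D.w a) ((x b : Hˣ) : H)))) * hnum
  · have hsq : ∀ g : G, χ g * χ g = 1 := fun g => by rw [← map_mul, hG, map_one]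
    have hex : ∃ g : G, χ g ≠ 1 := by
      by_contra hcon
      push Not at hcon
      exact hχ (MonoidHom.ext hcon)
    obtain ⟨K, iK, nK, aF, aH, τ, hd⟩ := Pool.Agent.K3h41.E2.t_DICT F H G χ hsq hex
    obtain ⟨w1, w2, w3, w4, w5⟩ := hwu F H G K τ χ hd D T hT
    obtain ⟨b1, b2, b3, b4⟩ := hbk F H G K τ χ hd D T hT.1 hG ⟨Λ⟩
    refine ⟨⟨K, iK, nK, aF, aH, τ, hd⟩, fun _ => 1, 0, 0, ⟨w2, w3, w4, w5⟩, ?_, fun h =>
      absurd h ha⟩
    rw [← w1]
    exact b2

/-- the statement for the trivial character -/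
theorem dat_one (htclf : S_TCLF) (hdf0 : S_DF0) (hbf : S_BF) (hwu1 : S_WU1)
    (D : RubinData F H G) (Λ : Lam D)
    (T : Finset (HeightOneSpectrum (𝓞 F))) (hT : D.Allowed T) (hG : ∀ g : G, g * g = 1)
    (hs : Nat.card (Sg D) = 2 ^ sc D) :
    ∃ (x : Fin D.r → Hˣ) (q : ℝ) (n : ℤ), WUc D T (1 : G →* ℂˣ) ∧
      Dat D T (1 : G →* ℂˣ) (Wt1 D T) x q n := by
  classical
  obtain ⟨w1, w2, w3, w4, w5⟩ := hwu1 F H G D T hT
  obtain ⟨b1, b2, b3, b4⟩ := hbf F H G D T hT.1 hG ⟨Λ⟩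
  by_cases ha : D.Active (1 : G →* ℂˣ)
  · obtain ⟨hr, x, q, b, hbeq, -, hcl, ht, hdet⟩ := (Pool.Agent.H509.E3.one3 D T hT hG).2 ha
    have e2 := htclf F H G D T hT.1 b hbeq
    have e3 := hdf0 F H G D T
    have hD0 : D0F D T ≤ DF D T := fun d hd => hd.1
    have e4 := AddSubgroup.relIndex_mul_relIndex (PF D T) (D0F D T) (DF D T) b1 hD0
    obtain ⟨m, hm⟩ : ∃ m : ℕ, m = (PF D T).relIndex (D0F D T) := ⟨_, rfl⟩
    rw [← hm, e3, e2] at e4
    have ha0 : (CA (D.S : Set (HeightOneSpectrum (𝓞 F)))).index ≠ 0 :=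
      Subgroup.index_ne_zero_of_finite
    have hb0 : b ≠ 0 := by
      rintro rfl
      rw [Nat.cast_zero, mul_zero] at hbeq
      exact prod_ne D T 1 hbeq.symm
    have hm0 : m ≠ 0 := by
      rintro rfl
      rw [zero_mul] at e4
      exact mul_ne_zero ha0 hb0 e4.symm
    have hsc : sc D = 0 + 1 := by
      unfold sc
      omega
    have hnum := num_aux hs hsc rfl e4
    have hodd : Odd m → Wt1 D T ≤ Wu D T (1 : G →* ℂˣ) := fun h => by
      rw [← w1]
      exact b3 (by rw [← hm]; exact h)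
    have heven : ¬ Odd m → ∃ y ∈ Wt1 D T, y ∉ Wu D T (1 : G →* ℂˣ) := fun h => by
      rw [← w1]
      exact b4 (by rw [← hm]; exact Nat.not_odd_iff_even.1 h) (by rw [← hm]; exact hm0)
    rcases hdet with hdet | hdet
    · refine ⟨x, q, (m : ℤ), ⟨w2, w3, w4, w5⟩, ?_, fun _ =>
        ⟨hcl, ht, ?_, fun h => hodd (by exact_mod_cast h), fun h => heven (by exact_mod_cast h)⟩⟩
      · rw [← w1]
        exact b2
      · rw [hdet]
        push_cast
        linear_combination (Matrix.det (Matrix.of fun a b : Fin D.r =>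
          Real.log (av (D.w a) ((x b : Hˣ) : H)))) * hnum
    · refine ⟨x, q, -(m : ℤ), ⟨w2, w3, w4, w5⟩, ?_, fun _ =>
        ⟨hcl, ht, ?_, fun h => hodd (by exact_mod_cast ((odd_neg (α := ℤ)).1 h)),
          fun h => heven (fun h' => h ((odd_neg (α := ℤ)).2 (by exact_mod_cast h')))⟩⟩
      · rw [← w1]
        exact b2
      · rw [hdet]
        push_cast
        linear_combination -(Matrix.det (Matrix.of fun a b : Fin D.r =>
          Real.log (av (D.w a) ((x b : Hˣ) : H)))) * hnum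
  · refine ⟨fun _ => 1, 0, 0, ⟨w2, w3, w4, w5⟩, ?_, fun h => absurd h ha⟩
    rw [← w1]
    exact b2

/-- Rubin's conjecture in the boundary case, for trivial `(S, T)`-class groups. -/
theorem rubin_core (hlam : S_LAM) (hphi : S_PHI) (hrka : S_RKA) (hdeta : S_DETA) (hcnt : S_CNT)
    (hasm : S_ASM3) (hevx : S_EVX) (htcla : S_TCLA) (htclb : S_TCLB) (htclf : S_TCLF)
    (hdk0 : S_DK0) (hdf0 : S_DF0) (hbk : S_BK) (hbf : S_BF) (hwu : S_WU) (hwu1 : S_WU1)
    (D : RubinData F H G)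
    (T : Finset (HeightOneSpectrum (𝓞 F))) (hT : D.Allowed T) (hG : ∀ g : G, g * g = 1)
    (hgen : Generates H ⊥ (D.S : Set (HeightOneSpectrum (𝓞 F)))
      (T : Set (HeightOneSpectrum (𝓞 F)))) (hs : Nat.card (Sg D) = 2 ^ sc D) : D.Rubin T := by
  classical
  obtain ⟨Λ⟩ := hlam F H G D hG
  choose Q x q n hW hD using dat_chi htcla htclb hdk0 hbk hwu D Λ T hT hG hs
  obtain ⟨x1, q1, n1, hW1, hD1⟩ := dat_one htclf hdf0 hbf hwu1 D Λ T hT hG hs
  refine rubin_of_dat hphi hrka hdeta hcnt hasm hevx D T hT hG hgen hs ?_ Q ?_ ?_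
    (fun χ => if h : χ = 1 then x1 else x χ h) (fun χ => if h : χ = 1 then q1 else q χ h)
    (fun χ => if h : χ = 1 then n1 else n χ h) ?_
  · intro χ hna
    by_cases h : χ = 1
    · subst h
      exact (Pool.Agent.H509.E3.one3 D T hT hG).1 hna
    · exact Pool.Agent.H509.E3.chi0 D hG χ h hna
  · intro χ
    by_cases h : χ = 1
    · subst h
      exact hW1
    · exact hW χ h
  · intro χ y hy
    unfold Wt at hy
    split_ifs at hy with h
    · exact hy.1
    · exact hy.1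
  · intro χ
    by_cases h : χ = 1
    · subst h
      simp only [Wt, dif_pos]
      exact hD1
    · simp only [Wt, dif_neg h]
      exact hD χ h

end

end Pool.Agent.BT9
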