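import Pool.Agent.H509.BT.Stm4

/-!
# Project BT: the indices of `D0K` and `D0F`
-/

set_option autoImplicit false
set_option linter.unusedSectionVars false
set_option linter.deprecated false

namespace Pool.Agent.H591.BT

open NumberField IsDedekindDomain
open Pool.Agent.Q92.AR (Dv prin Pr nmD frob IsFrobenius Unramified nmD_single frob_spec
  isFrobenius_conj)
open Pool.Agent.Q5.BR (rdeg above mem_above)
open Pool.Agent.K3h30.RS
open Pool.Agent.K3h56.E2 (Dict)
open Pool.Agent.BT9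
open Pool.Agent.H509.Rec (eK eK_smul exists_eK unr_of_squarefree)

/-- the index of a kernel -/
theorem rel_of {A : Type} [AddCommGroup A] (C B : AddSubgroup A) {G : Type} [CommGroup G]
    (P : Subgroup G) (f : A →+ Additive G)
    (hker : ∀ a ∈ B, (a ∈ C ↔ (f a).toMul ∈ P))
    (hsurj : ∀ g : G, ∃ h ∈ P, ∃ a ∈ B, (f a).toMul = g * h) : C.relIndex B = P.index := by
  let φ : B →+ Additive (G ⧸ P) :=
    ((MonoidHom.toAdditive (QuotientGroup.mk' P)).comp f).comp B.subtype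
  have hφ : ∀ a : B, φ a = Additive.ofMul (QuotientGroup.mk (s := P) (f (a : A)).toMul) :=
    fun _ => rfl
  have h1 : φ.ker = C.addSubgroupOf B := by
    ext a
    rw [AddMonoidHom.mem_ker, AddSubgroup.mem_addSubgroupOf, hker a a.2, hφ, ofMul_eq_zero,
      QuotientGroup.eq_one_iff]
  have h2 : φ.range = ⊤ := by
    rw [AddMonoidHom.range_eq_top]
    intro y
    obtain ⟨g, hg⟩ := QuotientGroup.mk_surjective y.toMul
    obtain ⟨h, hh, a, ha, hfa⟩ := hsurj g
    refine ⟨⟨a, ha⟩, ?_⟩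
    rw [hφ]
    change Additive.ofMul (QuotientGroup.mk (s := P) (f a).toMul) = y
    rw [hfa]
    have h3 : (QuotientGroup.mk (g * h) : G ⧸ P) = QuotientGroup.mk g := by
      rw [QuotientGroup.eq]
      rw [mul_inv_rev, inv_mul_cancel_right]
      exact P.inv_mem hh
    rw [h3, hg]
    rfl
  unfold AddSubgroup.relIndex
  rw [← h1, AddSubgroup.index_ker, h2, AddSubgroup.card_top]
  rfl

section
variable {F H G : Type} [Field F] [NumberField F] [Field H] [NumberField H] [Algebra F H]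
  [CommGroup G] [Finite G] [MulSemiringAction G H] [IsGaloisGroup G F H]

/-- the Frobenius automorphisms in the group of `H / F` -/
theorem isFrobenius_of_isFrob {v : HeightOneSpectrum (𝓞 F)} {γ : G} (h : IsFrob (H := H) v γ) :
    IsFrobenius v (IsGaloisGroup.mulEquivAlgEquiv G F H γ) := by
  have hgal : IsGalois F H := IsGaloisGroup.isGalois G F H
  obtain ⟨w, hwm, hwv, -⟩ := frob_spec (M := H) v
  have hw0 : w ≠ ⊥ := by
    rintro rfl
    apply v.ne_bot
    rw [← hwv, ← RingHom.ker_eq_comap_bot]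
    exact (RingHom.injective_iff_ker_eq_bot _).1 (FaithfulSMul.algebraMap_injective (𝓞 F) (𝓞 H))
  refine ⟨w, hwm, hwv, fun x => ?_⟩
  have h1 := h ⟨w, hwm.isPrime, hw0⟩ ⟨v, rfl, hwv⟩ x
  have hgx : IsIntegral ℤ ((IsGaloisGroup.mulEquivAlgEquiv G F H γ) (x : H)) := x.2.map _
  obtain ⟨y, hy⟩ : ∃ y : 𝓞 H, (y : H) = (IsGaloisGroup.mulEquivAlgEquiv G F H γ) (x : H) :=
    ⟨⟨_, hgx⟩, rfl⟩
  refine ⟨y - x ^ Ideal.absNorm v.asIdeal, ?_, by rw [← hy]; rfl⟩
  have h2 := (HeightOneSpectrum.valuation_lt_one_iff_mem (K := H)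
    (⟨w, hwm.isPrime, hw0⟩ : HeightOneSpectrum (𝓞 H)) (y - x ^ Ideal.absNorm v.asIdeal)).1 (by
      refine lt_of_eq_of_lt (congrArg _
        (?_ : _ = γ • (x : H) - (x : H) ^ Ideal.absNorm v.asIdeal)) h1
      change (y : H) - (x : H) ^ Ideal.absNorm v.asIdeal = _
      rw [hy]
      rfl)
  exact h2

theorem frob_unique {v : HeightOneSpectrum (𝓞 F)} (hv : Unramified H v) {γ : G}
    (h : IsFrob (H := H) v γ) {g : H ≃ₐ[F] H} (hg : IsFrobenius v g) :
    IsGaloisGroup.mulEquivAlgEquiv G F H γ = g := by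
  have hgal : IsGalois F H := IsGaloisGroup.isGalois G F H
  obtain ⟨k, hk⟩ := isFrobenius_conj hv (isFrobenius_of_isFrob h) hg
  obtain ⟨κ, rfl⟩ := (IsGaloisGroup.mulEquivAlgEquiv G F H).surjective k
  rw [hk, ← map_inv, ← map_mul, ← map_mul, mul_comm κ⁻¹ γ, inv_mul_cancel_right]

variable (D : RubinData F H G) (T : Finset (HeightOneSpectrum (𝓞 F)))

theorem mem_of_perp (h : S_CHG) (g : G) : (∀ ψ ∈ Perp D, ψ g = 1) ↔ g ∈ Sg D :=
  ⟨fun hg => (h G (Sg D)).2 g hg, fun hg _ hψ => hψ g hg⟩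

theorem df_aux (γ : G) : ∃ a ∈ DF D T, fr D a = γ := by
  have hgal : IsGalois F H := IsGaloisGroup.isGalois G F H
  obtain ⟨v, hv1, hv2, hv3⟩ := Pool.Agent.Q14.AR.cheb F H (IsGaloisGroup.mulEquivAlgEquiv G F H γ)
    ((D.S : Set (HeightOneSpectrum (𝓞 F))) ∪ (T : Set (HeightOneSpectrum (𝓞 F))))
    (D.S.finite_toSet.union T.finite_toSet)
  have hvS : v ∉ D.S := fun h => hv1 (Or.inl h)
  refine ⟨Finsupp.single v 1, fun u hu => ?_, ?_⟩
  · refine Finsupp.single_eq_of_ne fun h => hv1 ?_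
    rw [← h]
    exact hu
  · rw [fr_single D hvS, zpow_one]
    exact (IsGaloisGroup.mulEquivAlgEquiv G F H).injective (frob_unique hv2 (D.frob v hvS) hv3)

theorem dk_aux (K : Type) [Field K] [NumberField K] [Algebra F K] [Algebra K H]
    [IsScalarTower F K H] (γ : G) (hγ : ∀ x : K, γ • algebraMap K H x = algebraMap K H x) :
    ∃ a ∈ DK D T K, fr D (nmD F K a) = γ := by
  have hgal : IsGalois F H := IsGaloisGroup.isGalois G F H
  have hgal' : IsGalois K H := IsGalois.tower_top_of_isGalois F K H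
  obtain ⟨g0, hg0⟩ := exists_eK F K H G γ hγ
  obtain ⟨w, hw1, hw2, hw3⟩ := Pool.Agent.Q14.AR.cheb K H g0
    {w | w.under (𝓞 F) ∈ D.S ∨ w.under (𝓞 F) ∈ T} (by
      classical
      refine ((D.S ∪ T).biUnion fun v => above K v).finite_toSet.subset fun w hw => ?_
      rw [Finset.mem_coe, Finset.mem_biUnion]
      exact ⟨w.under (𝓞 F), Finset.mem_union.2 hw, mem_above.2 rfl⟩)
  have hvS : w.under (𝓞 F) ∉ D.S := fun h => hw1 (Or.inl h)
  refine ⟨Finsupp.single w 1, fun u hu => ?_, ?_⟩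
  · refine Finsupp.single_eq_of_ne fun h => hw1 ?_
    rw [← h]
    rcases hu with ⟨v, hv, hv2⟩ | ⟨v, hv, hv2⟩
    · left
      have h3 : u.under (𝓞 F) = v := HeightOneSpectrum.ext hv2
      rw [h3]
      exact hv
    · right
      have h3 : u.under (𝓞 F) = v := HeightOneSpectrum.ext hv2
      rw [h3]
      exact hv
  · rw [nmD_single, mul_one, fr_single D hvS, zpow_natCast]
    have hun := unr_of_squarefree (D.unramified _ hvS)
    obtain ⟨h, hh1, hh2⟩ := Pool.Agent.Q275.EX.frob_pow (F := F) w hun g0 hw3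
    rw [← frob_unique hun (D.frob _ hvS) hh1, ← map_pow] at hh2
    apply (IsGaloisGroup.mulEquivAlgEquiv G F H).injective
    rw [hh2, ← hg0]
    exact (MulEquiv.apply_symm_apply (IsGaloisGroup.mulEquivAlgEquiv G F H) _).symm

end

theorem dk0 (h : S_CHG) : S_DK0 := by
  intro F H G K _ _ _ _ _ _ _ _ _ _ _ _ _ τ χ hd D T hg
  have htow : IsScalarTower F K H := hd.tower
  obtain ⟨g1, hg1, hg2⟩ := hg
  refine rel_of (D0K D T K) (DK D T K) (Sg D) ((frH D).comp (nmD F K)) ?_ ?_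
  · intro a ha
    change _ ↔ fr D (nmD F K a) ∈ Sg D
    rw [← mem_of_perp D h]
    exact ⟨fun h2 => h2.2, fun h2 => ⟨ha, h2⟩⟩
  · intro g
    by_cases hχ : χ g = 1
    · obtain ⟨a, ha, ha2⟩ := dk_aux D T K g (hd.one g hχ)
      refine ⟨1, (Sg D).one_mem, a, ha, ?_⟩
      rw [mul_one]
      exact ha2
    · have hχ2 : χ (g * g1) = 1 := by
        have hs : ∀ k : G, χ k ≠ 1 → χ k = -1 := by
          intro k hk
          have h3 := hd.sq k
          have h4 : ((χ k : ℂˣ) : ℂ) * ((χ k : ℂˣ) : ℂ) = 1 := by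
            rw [← Units.val_mul, h3, Units.val_one]
          rcases mul_self_eq_one_iff.1 h4 with h5 | h5
          · exact absurd (Units.ext h5) hk
          · exact Units.ext (by rw [h5, Units.val_neg, Units.val_one])
        rw [map_mul, hs g hχ, hs g1 hg2, neg_mul_neg, one_mul]
      obtain ⟨a, ha, ha2⟩ := dk_aux D T K (g * g1) (hd.one _ hχ2)
      exact ⟨g1, hg1, a, ha, ha2⟩

theorem df0 (h : S_CHG) : S_DF0 := by
  intro F H G _ _ _ _ _ _ _ _ _ D T
  refine rel_of (D0F D T) (DF D T) (Sg D) (frH D) ?_ ?_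
  · intro a ha
    change _ ↔ fr D a ∈ Sg D
    rw [← mem_of_perp D h]
    exact ⟨fun h2 => h2.2, fun h2 => ⟨ha, h2⟩⟩
  · intro g
    obtain ⟨a, ha, ha2⟩ := df_aux D T g
    refine ⟨1, (Sg D).one_mem, a, ha, ?_⟩
    rw [mul_one]
    exact ha2

end Pool.Agent.H591.BT
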