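import Pool.Agent.H509.Deco2
import Pool.Agent.H509.AllST

/-!
# Project BT: Rubin's conjecture for groups of exponent two, the boundary case. Definitions

`H / F` is Galois with group `G` of exponent two, `D : RubinData F H G` (a finite set `S` of places of
`F` which contains the archimedean ones and the ramified ones, given by its prime ideals `D.S`), `T` a
finite set of prime ideals of `F`, disjoint from `D.S`.  `Dv F` are the divisors of `F`, `prin x` the
divisor of `x` (files `Q92/AR`).  All divisors are considered outside `S`.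
-/

set_option autoImplicit false
set_option linter.unusedSectionVars false
set_option linter.deprecated false

open NumberField IsDedekindDomain Filter Topology

noncomputable section

namespace Pool.Agent.BT9

open Pool.Agent.Q92.AR (Dv prin Pr Ray nmD nu up sD puD Cong Pos frob IsFrobenius Unramified Ram art
  prin_mul prin_one prin_inv)
open Pool.Agent.Q20.EX (Inert)
open Pool.Agent.K3h30.RS
open Pool.Agent.K3h56.E2 (Quad Dict part InSF SplAt)
open Pool.Agent.H509 (U1 Generates)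

section
variable {F H G : Type} [Field F] [NumberField F] [Field H] [NumberField H] [Algebra F H]
  [CommGroup G] [Finite G] [MulSemiringAction G H]

open Classical in
/-- the product of the Frobenius automorphisms `σ_v ^ (d v)`, `v ∉ S`, written additively -/
def frH (D : RubinData F H G) : Dv F →+ Additive G :=
  Finsupp.liftAddHom fun v =>
    if v ∈ D.S then 0 else (zmultiplesHom (Additive G)) (Additive.ofMul (D.σ v))

/-- the product of the Frobenius automorphisms `σ_v ^ (d v)`, `v ∉ S` -/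
def fr (D : RubinData F H G) (d : Dv F) : G := (frH D d).toMul

theorem fr_add (D : RubinData F H G) (d d' : Dv F) : fr D (d + d') = fr D d * fr D d' := by
  unfold fr
  rw [map_add]
  rfl

theorem fr_zero (D : RubinData F H G) : fr D 0 = 1 := by
  unfold fr
  rw [map_zero]
  rfl

theorem fr_neg (D : RubinData F H G) (d : Dv F) : fr D (-d) = (fr D d)⁻¹ := by
  unfold fr
  rw [map_neg]
  rfl

theorem fr_single_mem (D : RubinData F H G) {v : HeightOneSpectrum (𝓞 F)} (hv : v ∈ D.S) (k : ℤ) :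
    fr D (Finsupp.single v k) = 1 := by
  unfold fr frH
  rw [Finsupp.liftAddHom_apply_single, if_pos hv]
  rfl

theorem fr_single (D : RubinData F H G) {v : HeightOneSpectrum (𝓞 F)} (hv : v ∉ D.S) (k : ℤ) :
    fr D (Finsupp.single v k) = D.σ v ^ k := by
  unfold fr frH
  rw [Finsupp.liftAddHom_apply_single, if_neg hv]
  rfl

/-- The group generated by the decomposition groups of the places of `S`. -/
def Sg (D : RubinData F H G) : Subgroup G := Pool.Agent.H509.Rec.decK (H := H) D.S (1 : G →* ℂˣ)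

theorem mem_Sg {D : RubinData F H G} {w : Place H}
    (hw : InS (D.S : Set (HeightOneSpectrum (𝓞 F))) w) {γ : G} (h : Fixes w γ) : γ ∈ Sg D :=
  Subgroup.subset_closure ⟨rfl, w, hw, h⟩

/-- The characters of `G` which are trivial on the decomposition groups of the places of `S`. -/
def Perp (D : RubinData F H G) : Set (G →* ℂˣ) := {ψ | ∀ g ∈ Sg D, ψ g = 1}

/-- the number of the places of `S` (archimedean ones included) which do not split completely -/
def sc (D : RubinData F H G) : ℕ := Fintype.card (InfinitePlace F) + D.S.card - D.r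

/-- the elements of `K^*` which are congruent to one modulo the primes over `T` -/
def T1 (K : Type) [Field K] [NumberField K] [Algebra F K] (T : Finset (HeightOneSpectrum (𝓞 F))) :
    Subgroup Kˣ := U1 {w : HeightOneSpectrum (𝓞 K) | Above (T : Set (HeightOneSpectrum (𝓞 F))) w}

theorem mem_T1 {K : Type} [Field K] [NumberField K] [Algebra F K]
    {T : Finset (HeightOneSpectrum (𝓞 F))} {x : Kˣ} : x ∈ T1 K T ↔
    ∀ w : HeightOneSpectrum (𝓞 K), Above (T : Set (HeightOneSpectrum (𝓞 F))) w →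
      w.valuation K ((x : K) - 1) < 1 := Iff.rfl

/-- the elements of `F^*` which are congruent to one modulo the primes in `T` -/
def FT (T : Finset (HeightOneSpectrum (𝓞 F))) : Subgroup Fˣ :=
  U1 (T : Set (HeightOneSpectrum (𝓞 F)))

theorem mem_FT {T : Finset (HeightOneSpectrum (𝓞 F))} {x : Fˣ} : x ∈ FT T ↔
    ∀ v ∈ (T : Set (HeightOneSpectrum (𝓞 F))), v.valuation F ((x : F) - 1) < 1 := Iff.rfl

/-- The Selmer group: the `x ≡ 1` modulo `T` with even valuations outside `S`. -/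
def Sel (D : RubinData F H G) (T : Finset (HeightOneSpectrum (𝓞 F))) : Subgroup Fˣ where
  carrier := {x | x ∈ FT T ∧ ∀ v, v ∉ D.S → Even (prin x v)}
  mul_mem' {x y} hx hy := ⟨(FT T).mul_mem hx.1 hy.1, fun v hv => by
    rw [prin_mul, Finsupp.add_apply]
    exact (hx.2 v hv).add (hy.2 v hv)⟩
  one_mem' := ⟨(FT T).one_mem, fun v _ => by
    rw [prin_one]
    exact Even.zero⟩
  inv_mem' {x} hx := ⟨(FT T).inv_mem hx.1, fun v hv => by
    rw [prin_inv, Finsupp.neg_apply]
    exact (hx.2 v hv).neg⟩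

/-- the squares of the elements `≡ 1` modulo `T` -/
def Sq (T : Finset (HeightOneSpectrum (𝓞 F))) : Subgroup Fˣ := (FT T).map (powMonoidHom 2)

end

section
variable {F H G : Type} [Field F] [NumberField F] [Field H] [NumberField H] [Algebra F H]
  [CommGroup G] [Finite G] [MulSemiringAction G H] (D : RubinData F H G)
  (T : Finset (HeightOneSpectrum (𝓞 F)))

/-- `Norm β = x` and `(β) = 𝔞 𝔠^(1 - τ)` outside `S`, where `(x) = 𝔞²` outside `S`. -/
def RepK {K : Type} [Field K] [NumberField K] [Algebra F K] (τ : K ≃ₐ[F] K) (x : Fˣ) (β : Kˣ)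
    (c : Dv K) : Prop :=
  nu F K β = x ∧ ∀ w : HeightOneSpectrum (𝓞 K), ¬ Above (D.S : Set (HeightOneSpectrum (𝓞 F))) w →
    2 * prin β w = prin x (w.under (𝓞 F)) + 2 * (c w - sD τ c w)

theorem RepK.mul {K : Type} [Field K] [NumberField K] [Algebra F K] {τ : K ≃ₐ[F] K} {x x' : Fˣ}
    {β β' : Kˣ} {c c' : Dv K} (h : RepK D τ x β c) (h' : RepK D τ x' β' c') :
    RepK D τ (x * x') (β * β') (c + c') := by
  refine ⟨by rw [map_mul, h.1, h'.1], fun w hw => ?_⟩
  rw [prin_mul, prin_mul, map_add, Finsupp.add_apply, Finsupp.add_apply, Finsupp.add_apply,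
    Finsupp.add_apply, mul_add, h.2 w hw, h'.2 w hw]
  ring

theorem RepK.inv {K : Type} [Field K] [NumberField K] [Algebra F K] {τ : K ≃ₐ[F] K} {x : Fˣ}
    {β : Kˣ} {c : Dv K} (h : RepK D τ x β c) : RepK D τ x⁻¹ β⁻¹ (-c) := by
  refine ⟨by rw [map_inv, h.1], fun w hw => ?_⟩
  rw [prin_inv, prin_inv, map_neg, Finsupp.neg_apply, Finsupp.neg_apply, Finsupp.neg_apply,
    Finsupp.neg_apply, mul_neg, h.2 w hw]
  ring

theorem RepK.one {K : Type} [Field K] [NumberField K] [Algebra F K] {τ : K ≃ₐ[F] K} :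
    RepK D τ 1 (1 : Kˣ) 0 := by
  refine ⟨map_one _, fun w _ => ?_⟩
  rw [prin_one, prin_one, map_zero]
  rfl

/-- `W_χ`, `χ ≠ 1`: the norms `x` of the `β ≡ 1` modulo `T` whose divisor comes from `F` outside `S` -/
def WK (K : Type) [Field K] [NumberField K] [Algebra F K] : Subgroup Fˣ where
  carrier := {x | x ∈ Sel D T ∧ ∃ β ∈ T1 K T, ∃ e : Dv F, nu F K β = x ∧
    ∀ w : HeightOneSpectrum (𝓞 K), ¬ Above (D.S : Set (HeightOneSpectrum (𝓞 F))) w →
      prin β w = e (w.under (𝓞 F))}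
  mul_mem' := by
    rintro x x' ⟨hx, β, hβ, e, h1, h2⟩ ⟨hx', β', hβ', e', h1', h2'⟩
    refine ⟨(Sel D T).mul_mem hx hx', β * β', (T1 K T).mul_mem hβ hβ', e + e',
      by rw [map_mul, h1, h1'], fun w hw => ?_⟩
    rw [prin_mul, Finsupp.add_apply, Finsupp.add_apply, h2 w hw, h2' w hw]
  one_mem' := ⟨(Sel D T).one_mem, 1, (T1 K T).one_mem, 0, map_one _, fun w _ => by
    rw [prin_one]; rfl⟩
  inv_mem' := by
    rintro x ⟨hx, β, hβ, e, h1, h2⟩
    refine ⟨(Sel D T).inv_mem hx, β⁻¹, (T1 K T).inv_mem hβ, -e, by rw [map_inv, h1],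
      fun w hw => ?_⟩
    rw [prin_inv, Finsupp.neg_apply, Finsupp.neg_apply, h2 w hw]

/-- `W̃_χ`, `χ ≠ 1`: the `x` in the Selmer group which are norms `x = Norm β` with trivial symbols
`ψ (N 𝔠)`, `(β) = 𝔞 𝔠^(1 - τ)` -/
def WtK {K : Type} [Field K] [NumberField K] [Algebra F K] (τ : K ≃ₐ[F] K) : Subgroup Fˣ where
  carrier := {x | x ∈ Sel D T ∧ ∃ (β : Kˣ) (c : Dv K), RepK D τ x β c ∧
    ∀ ψ ∈ Perp D, ψ (fr D (nmD F K c)) = 1}
  mul_mem' := by
    rintro x x' ⟨hx, β, c, h1, h2⟩ ⟨hx', β', c', h1', h2'⟩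
    refine ⟨(Sel D T).mul_mem hx hx', β * β', c + c', h1.mul D h1', fun ψ hψ => ?_⟩
    rw [map_add, fr_add, map_mul, h2 ψ hψ, h2' ψ hψ, mul_one]
  one_mem' := ⟨(Sel D T).one_mem, 1, 0, RepK.one D, fun ψ _ => by
    rw [map_zero, fr_zero, map_one]⟩
  inv_mem' := by
    rintro x ⟨hx, β, c, h1, h2⟩
    refine ⟨(Sel D T).inv_mem hx, β⁻¹, -c, h1.inv D, fun ψ hψ => ?_⟩
    rw [map_neg, fr_neg, map_inv, h2 ψ hψ, inv_one]

/-- `W_1`: the `x` in the Selmer group with `(x) = (y)²` outside `S`, `y ≡ 1` modulo `T` -/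
def W1 : Subgroup Fˣ where
  carrier := {x | x ∈ Sel D T ∧ ∃ y ∈ FT T, ∀ v, v ∉ D.S → prin x v = 2 * prin y v}
  mul_mem' := by
    rintro x x' ⟨hx, y, hy, h⟩ ⟨hx', y', hy', h'⟩
    refine ⟨(Sel D T).mul_mem hx hx', y * y', (FT T).mul_mem hy hy', fun v hv => ?_⟩
    rw [prin_mul, prin_mul, Finsupp.add_apply, Finsupp.add_apply, h v hv, h' v hv, mul_add]
  one_mem' := ⟨(Sel D T).one_mem, 1, (FT T).one_mem, fun v _ => by rw [prin_one]; rfl⟩
  inv_mem' := by
    rintro x ⟨hx, y, hy, h⟩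
    refine ⟨(Sel D T).inv_mem hx, y⁻¹, (FT T).inv_mem hy, fun v hv => ?_⟩
    rw [prin_inv, prin_inv, Finsupp.neg_apply, Finsupp.neg_apply, h v hv, mul_neg]

/-- `W̃_1`: the `x` in the Selmer group, `(x) = 𝔞²` outside `S`, with `ψ (𝔞) = 1` -/
def Wt1 : Subgroup Fˣ where
  carrier := {x | x ∈ Sel D T ∧ ∃ a : Dv F, (∀ v, v ∉ D.S → prin x v = 2 * a v) ∧
    ∀ ψ ∈ Perp D, ψ (fr D a) = 1}
  mul_mem' := by
    rintro x x' ⟨hx, a, ha, h⟩ ⟨hx', a', ha', h'⟩
    refine ⟨(Sel D T).mul_mem hx hx', a + a', fun v hv => ?_, fun ψ hψ => ?_⟩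
    · rw [prin_mul, Finsupp.add_apply, Finsupp.add_apply, ha v hv, ha' v hv, mul_add]
    · rw [fr_add, map_mul, h ψ hψ, h' ψ hψ, mul_one]
  one_mem' := ⟨(Sel D T).one_mem, 0, fun v _ => by rw [prin_one]; rfl, fun ψ _ => by
    rw [fr_zero, map_one]⟩
  inv_mem' := by
    rintro x ⟨hx, a, ha, h⟩
    refine ⟨(Sel D T).inv_mem hx, -a, fun v hv => ?_, fun ψ hψ => ?_⟩
    · rw [prin_inv, Finsupp.neg_apply, Finsupp.neg_apply, ha v hv, mul_neg]
    · rw [fr_neg, map_inv, h ψ hψ, inv_one]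

/-! ### The class groups -/

/-- the divisors of `K` without primes over `S` and `T` -/
def DK (K : Type) [Field K] [NumberField K] [Algebra F K] : AddSubgroup (Dv K) where
  carrier := {d | ∀ w : HeightOneSpectrum (𝓞 K), (Above (D.S : Set (HeightOneSpectrum (𝓞 F))) w ∨
    Above (T : Set (HeightOneSpectrum (𝓞 F))) w) → d w = 0}
  add_mem' {a b} ha hb w hw := by rw [Finsupp.add_apply, ha w hw, hb w hw, add_zero]
  zero_mem' _ _ := rfl
  neg_mem' {a} ha w hw := by rw [Finsupp.neg_apply, ha w hw, neg_zero]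

/-- the subgroup of the divisors which are, outside `S`, the sum of the divisor of an element
`y ≡ 1` modulo `T` and of a divisor which comes from `F` -/
def PK (K : Type) [Field K] [NumberField K] [Algebra F K] : AddSubgroup (Dv K) where
  carrier := {d | d ∈ DK D T K ∧ ∃ y ∈ T1 K T, ∃ e : Dv F, ∀ w : HeightOneSpectrum (𝓞 K),
    ¬ Above (D.S : Set (HeightOneSpectrum (𝓞 F))) w → d w = prin y w + e (w.under (𝓞 F))}
  add_mem' := by
    rintro a b ⟨ha, y, hy, e, h⟩ ⟨hb, y', hy', e', h'⟩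
    refine ⟨(DK D T K).add_mem ha hb, y * y', (T1 K T).mul_mem hy hy', e + e', fun w hw => ?_⟩
    rw [prin_mul, Finsupp.add_apply, Finsupp.add_apply, Finsupp.add_apply, h w hw, h' w hw]
    ring
  zero_mem' := ⟨(DK D T K).zero_mem, 1, (T1 K T).one_mem, 0, fun w _ => by
    rw [prin_one]; rfl⟩
  neg_mem' := by
    rintro a ⟨ha, y, hy, e, h⟩
    refine ⟨(DK D T K).neg_mem ha, y⁻¹, (T1 K T).inv_mem hy, -e, fun w hw => ?_⟩
    rw [prin_inv, Finsupp.neg_apply, Finsupp.neg_apply, Finsupp.neg_apply, h w hw]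
    ring

/-- the divisors with trivial values `ψ (N d)` -/
def D0K (K : Type) [Field K] [NumberField K] [Algebra F K] : AddSubgroup (Dv K) where
  carrier := {d | d ∈ DK D T K ∧ ∀ ψ ∈ Perp D, ψ (fr D (nmD F K d)) = 1}
  add_mem' := by
    rintro a b ⟨ha, h⟩ ⟨hb, h'⟩
    refine ⟨(DK D T K).add_mem ha hb, fun ψ hψ => ?_⟩
    rw [map_add, fr_add, map_mul, h ψ hψ, h' ψ hψ, mul_one]
  zero_mem' := ⟨(DK D T K).zero_mem, fun ψ _ => by rw [map_zero, fr_zero, map_one]⟩
  neg_mem' := by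
    rintro a ⟨ha, h⟩
    refine ⟨(DK D T K).neg_mem ha, fun ψ hψ => ?_⟩
    rw [map_neg, fr_neg, map_inv, h ψ hψ, inv_one]

/-- the divisors of `F` without primes in `S` and `T` -/
def DF : AddSubgroup (Dv F) where
  carrier := {d | ∀ v : HeightOneSpectrum (𝓞 F), (v ∈ D.S ∨ v ∈ T) → d v = 0}
  add_mem' {a b} ha hb w hw := by rw [Finsupp.add_apply, ha w hw, hb w hw, add_zero]
  zero_mem' _ _ := rfl
  neg_mem' {a} ha w hw := by rw [Finsupp.neg_apply, ha w hw, neg_zero]

/-- the divisors which are, outside `S`, the divisor of an element `y ≡ 1` modulo `T` -/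
def PF : AddSubgroup (Dv F) where
  carrier := {d | d ∈ DF D T ∧ ∃ y ∈ FT T, ∀ v : HeightOneSpectrum (𝓞 F), v ∉ D.S → d v = prin y v}
  add_mem' := by
    rintro a b ⟨ha, y, hy, h⟩ ⟨hb, y', hy', h'⟩
    refine ⟨(DF D T).add_mem ha hb, y * y', (FT T).mul_mem hy hy', fun w hw => ?_⟩
    rw [prin_mul, Finsupp.add_apply, Finsupp.add_apply, h w hw, h' w hw]
  zero_mem' := ⟨(DF D T).zero_mem, 1, (FT T).one_mem, fun w _ => by rw [prin_one]⟩
  neg_mem' := by
    rintro a ⟨ha, y, hy, h⟩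
    refine ⟨(DF D T).neg_mem ha, y⁻¹, (FT T).inv_mem hy, fun w hw => ?_⟩
    rw [prin_inv, Finsupp.neg_apply, Finsupp.neg_apply, h w hw]

/-- the divisors with trivial values `ψ (d)` -/
def D0F : AddSubgroup (Dv F) where
  carrier := {d | d ∈ DF D T ∧ ∀ ψ ∈ Perp D, ψ (fr D d) = 1}
  add_mem' := by
    rintro a b ⟨ha, h⟩ ⟨hb, h'⟩
    refine ⟨(DF D T).add_mem ha hb, fun ψ hψ => ?_⟩
    rw [fr_add, map_mul, h ψ hψ, h' ψ hψ, mul_one]
  zero_mem' := ⟨(DF D T).zero_mem, fun ψ _ => by rw [fr_zero, map_one]⟩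
  neg_mem' := by
    rintro a ⟨ha, h⟩
    refine ⟨(DF D T).neg_mem ha, fun ψ hψ => ?_⟩
    rw [fr_neg, map_inv, h ψ hψ, inv_one]

end

/-! ### Local symbols -/

section
variable {F H : Type} [Field F] [NumberField F] [Field H] [NumberField H] [Algebra F H]

/-- `x ∈ F^*` is near to one at the place of `F` under `w`: `v (x - 1) ≥ v (N)` at a prime ideal `v`, `x`
is positive at a real place (nothing at a complex place). -/
def Near (N : ℕ) (w : Place H) (x : Fˣ) : Prop :=
  match w with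
  | Sum.inl w => ∀ φ : F →+* ℝ, InfinitePlace.mk ((algebraMap ℝ ℂ).comp φ) =
      w.comap (algebraMap F H) → 0 < φ (x : F)
  | Sum.inr w => (w.under (𝓞 F)).valuation F ((x : F) - 1) ≤ (w.under (𝓞 F)).valuation F (N : F)

/-- The local norm symbols of the elements of `F^*` at the places of `S` which do not split completely,
with values in `G`. -/
structure Lam {G : Type} [CommGroup G] [Finite G] [MulSemiringAction G H]
    (D : RubinData F H G) where
  /-- the places of `S` which do not split completely -/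
  ι : Type
  fin : Fintype ι
  /-- a place of `H` above -/
  u : ι → Place H
  /-- the symbol -/
  L : ι → (Fˣ →* G)
  card : Nat.card ι + D.r = Fintype.card (InfinitePlace F) + D.S.card
  ins : ∀ i, InS (D.S : Set (HeightOneSpectrum (𝓞 F))) (u i)
  nsp : ∀ i j, ¬ Conj G (u i) (D.w j)
  inj : ∀ i i', Conj G (u i) (u i') → i = i'
  all : ∀ w : Place H, InS (D.S : Set (HeightOneSpectrum (𝓞 F))) w → (∀ j, ¬ Conj G w (D.w j)) →
    ∃ i, Conj G w (u i)
  /-- the values are in the decomposition groups -/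
  dec : ∀ i x, Fixes (u i) (L i x)
  /-- the product formula -/
  prod : ∀ x : Fˣ, (letI := fin; ∏ i, L i x) = fr D (prin x)
  /-- norms have trivial symbols -/
  norm : ∀ (K : Type) [Field K] [NumberField K] [Algebra F K] [Algebra K H] (τ : K ≃ₐ[F] K)
    (χ : G →* ℂˣ), Dict F H G K τ χ → ∀ (y : Kˣ) i, χ (L i (nu F K y)) = 1
  /-- a modulus -/
  N : ℕ
  N0 : N ≠ 0
  NS : ∀ v ∈ D.S, (N : 𝓞 F) ∈ v.asIdeal
  near : ∀ i x, Near N (u i) x → L i x = 1
  /-- unramified places -/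
  unr : ∀ i (w : HeightOneSpectrum (𝓞 H)), u i = Sum.inr w → Unramified H (w.under (𝓞 F)) →
    ∀ x : Fˣ, Even (prin x (w.under (𝓞 F))) → L i x = 1
  /-- approximation: the symbols can be prescribed, together with the valuations at a finite set of
  prime ideals outside `S` -/
  approx : ∀ g : ι → G, (∀ i, Fixes (u i) (g i)) → ∀ R : Finset (HeightOneSpectrum (𝓞 F)),
    Disjoint D.S R → ∀ n : HeightOneSpectrum (𝓞 F) → ℤ,
      ∃ x : Fˣ, (∀ i, L i x = g i) ∧ ∀ v ∈ R, prin x v = n v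

end

/-! ### The quadratic subfields -/

/-- A quadratic extension `K` of `F` in `H` which belongs to `χ`. -/
structure QF (F H G : Type) [Field F] [NumberField F] [Field H] [NumberField H] [Algebra F H]
    [CommGroup G] [MulSemiringAction G H] (χ : G →* ℂˣ) where
  K : Type
  fK : Field K
  nK : NumberField K
  aF : Algebra F K
  aH : Algebra K H
  τ : K ≃ₐ[F] K
  dict : Dict F H G K τ χ

attribute [instance] QF.fK QF.nK QF.aF QF.aH

section
variable {F H G : Type} [Field F] [NumberField F] [Field H] [NumberField H] [Algebra F H]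
  [CommGroup G] [Finite G] [MulSemiringAction G H] (D : RubinData F H G)
  (T : Finset (HeightOneSpectrum (𝓞 F)))

open Classical in
/-- the family of the groups `W̃_χ` -/
def Wt (q : ∀ χ : G →* ℂˣ, χ ≠ 1 → QF F H G χ) (χ : G →* ℂˣ) : Subgroup Fˣ :=
  if h : χ = 1 then Wt1 D T else WtK D T (q χ h).τ

/-- `W_χ`: the `x` in the Selmer group with `x = u b²`, `u` in the `χ`-part of `U_{S,T}`, `b ≡ 1` modulo
`T` -/
def Wu (χ : G →* ℂˣ) : Subgroup Fˣ where
  carrier := {x | x ∈ Sel D T ∧ ∃ u ∈ part (D.U T) χ, ∃ b ∈ T1 H T, up F H x = u * b ^ 2}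
  mul_mem' := by
    rintro x y ⟨hx, u, hu, b, hb, h⟩ ⟨hy, u', hu', b', hb', h'⟩
    refine ⟨(Sel D T).mul_mem hx hy, u * u', (part (D.U T) χ).mul_mem hu hu', b * b',
      (T1 H T).mul_mem hb hb', ?_⟩
    rw [map_mul, h, h', mul_pow, mul_mul_mul_comm]
  one_mem' := ⟨(Sel D T).one_mem, 1, (part (D.U T) χ).one_mem, 1, (T1 H T).one_mem, by
    rw [map_one, one_pow, mul_one]⟩
  inv_mem' := by
    rintro x ⟨hx, u, hu, b, hb, h⟩
    refine ⟨(Sel D T).inv_mem hx, u⁻¹, (part (D.U T) χ).inv_mem hu, b⁻¹, (T1 H T).inv_mem hb, ?_⟩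
    rw [map_inv, h, mul_inv, inv_pow]

open Classical in
/-- the value of a homomorphism on a subgroup, `0` outside -/
def ev {V : Subgroup Hˣ} (f : Additive V →+ ℤ) (x : Hˣ) : ℤ :=
  if h : x ∈ V then f (Additive.ofMul ⟨x, h⟩) else 0

theorem ev_of_mem {V : Subgroup Hˣ} (f : Additive V →+ ℤ) {x : Hˣ} (h : x ∈ V) :
    ev f x = f (Additive.ofMul ⟨x, h⟩) := dif_pos h

/-- the kernel of the functionals modulo 2 -/
def Ker {r : ℕ} (Φ : Fin r → (Additive (Sel D T) →+ ZMod 2)) : Subgroup Fˣ where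
  carrier := {x | ∃ hx : x ∈ Sel D T, ∀ a, Φ a (Additive.ofMul ⟨x, hx⟩) = 0}
  mul_mem' := by
    rintro x y ⟨hx, h⟩ ⟨hy, h'⟩
    refine ⟨(Sel D T).mul_mem hx hy, fun a => ?_⟩
    have e : (⟨x * y, (Sel D T).mul_mem hx hy⟩ : Sel D T) = ⟨x, hx⟩ * ⟨y, hy⟩ := rfl
    rw [e, ofMul_mul, map_add, h a, h' a, add_zero]
  one_mem' := ⟨(Sel D T).one_mem, fun a => map_zero (Φ a)⟩
  inv_mem' := by
    rintro x ⟨hx, h⟩
    refine ⟨(Sel D T).inv_mem hx, fun a => ?_⟩
    have e : (⟨x⁻¹, (Sel D T).inv_mem hx⟩ : Sel D T) = (⟨x, hx⟩ : Sel D T)⁻¹ := rfl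
    rw [e, ofMul_inv, map_neg, h a, neg_zero]

end

end Pool.Agent.BT9
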