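import Pool.Agent.H509.BT.Stm3

/-!
# Project BT: each `x` in the Selmer group is in an even number of the groups `W̃_χ`
-/

set_option autoImplicit false
set_option linter.unusedSectionVars false
set_option linter.deprecated false

open NumberField IsDedekindDomain Filter Topology Module

noncomputable section

namespace Pool.Agent.H996.BT.Ev

open Pool.Agent.Q92.AR (Dv prin Pr Ray nmD nu up sD puD Cong Pos frob IsFrobenius Unramified Ram art
  prin_mul prin_one prin_inv)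
open Pool.Agent.Q20.EX (Inert CongAt)
open Pool.Agent.K3h30.RS
open Pool.Agent.K3h56.E2 (Quad Dict part InSF SplAt Over CA SU minus actK oddCard sgn)
open Pool.Agent.BT9

/-- an involution without fixed points -/
theorem even_card {α : Type} [Finite α] (f : α → α) (h1 : ∀ a, f (f a) = a)
    (h2 : ∀ a, f a ≠ a) : Even (Nat.card α) := by
  classical
  have _ : Fintype α := Fintype.ofFinite α
  have h : ∑ _a : α, (1 : ZMod 2) = 0 :=
    Finset.sum_involution (fun a _ => f a) (fun _ _ => by decide) (fun a _ _ => h2 a)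
      (fun a _ => Finset.mem_univ _) (fun a _ => h1 a)
  rw [Finset.sum_const, Finset.card_univ, nsmul_eq_mul, mul_one] at h
  rw [Nat.card_eq_fintype_card]
  exact (ZMod.natCast_eq_zero_iff_even).1 h

/-- the order of a group generated by elements with product one -/
theorem card_closure {G : Type} [CommGroup G] [Finite G] (hG : ∀ g : G, g * g = 1) {ι : Type}
    [Fintype ι] (i₀ : ι) (g : ι → G) (hprod : ∏ i, g i = 1) :
    Nat.card (Subgroup.closure (Set.range g)) ≤ 2 ^ (Fintype.card ι - 1) := by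
  classical
  have h1 : Subgroup.closure (Set.range g) ≤ ⨆ i : {i // i ≠ i₀}, Subgroup.zpowers (g i) := by
    rw [Subgroup.closure_le]
    have hne : ∀ i, i ≠ i₀ → g i ∈ ⨆ i : {i // i ≠ i₀}, Subgroup.zpowers (g i) := fun i hi =>
      (le_iSup (fun i : {i // i ≠ i₀} => Subgroup.zpowers (g i)) ⟨i, hi⟩)
        (Subgroup.mem_zpowers (g i))
    rintro _ ⟨i, rfl⟩
    by_cases hi : i = i₀
    · subst hi
      rw [← Finset.mul_prod_erase Finset.univ g (Finset.mem_univ i)] at hprod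
      rw [eq_inv_of_mul_eq_one_left hprod]
      exact Subgroup.inv_mem _ (Subgroup.prod_mem _ fun j hj =>
        hne j (Finset.ne_of_mem_erase hj))
    · exact hne i hi
  refine (Pool.Agent.H509.E3.card_le_prod _ _ h1).trans ?_
  have h2 : ∀ i ∈ (Finset.univ : Finset {i // i ≠ i₀}), Nat.card (Subgroup.zpowers (g i)) ≤ 2 := by
    intro i _
    rw [Nat.card_zpowers]
    exact orderOf_le_of_pow_eq_one two_pos (by rw [pow_two, hG])
  refine (Finset.prod_le_pow_card _ _ _ h2).trans (le_of_eq ?_)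
  rw [Finset.card_univ, Fintype.card_subtype_compl, Fintype.card_subtype_eq]

section

variable {F H G : Type} [Field F] [NumberField F] [Field H] [NumberField H] [Algebra F H]
  [CommGroup G] [Finite G] [MulSemiringAction G H]

theorem fr_supp (D : RubinData F H G) {d : Dv F} (h : ∀ v, v ∉ D.S → d v = 0) : fr D d = 1 := by
  classical
  have h1 : ∀ s : Finset (HeightOneSpectrum (𝓞 F)), (∀ v ∈ s, v ∈ D.S) →
      fr D (∑ v ∈ s, Finsupp.single v (d v)) = 1 := by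
    intro s
    induction s using Finset.induction_on with
    | empty =>
      intro _
      rw [Finset.sum_empty, fr_zero]
    | insert v s hv ih =>
      intro hs
      rw [Finset.sum_insert hv, fr_add, fr_single_mem D (hs v (Finset.mem_insert_self v s)),
        ih fun w hw => hs w (Finset.mem_insert_of_mem hw), one_mul]
  have h2 := h1 d.support fun v hv => by
    by_contra hvS
    exact (Finsupp.mem_support_iff.1 hv) (h v hvS)
  have h3 : ∑ v ∈ d.support, Finsupp.single v (d v) = d := Finsupp.sum_single d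
  rwa [h3] at h2

theorem fr_congr (D : RubinData F H G) {d d' : Dv F} (h : ∀ v, v ∉ D.S → d v = d' v) :
    fr D d = fr D d' := by
  have h1 : fr D (d + -d') = 1 := fr_supp D fun v hv => by
    rw [Finsupp.add_apply, Finsupp.neg_apply, h v hv, add_neg_cancel]
  rw [fr_add, fr_neg, mul_inv_eq_one] at h1
  exact h1

theorem exists_half (D : RubinData F H G) (d : Dv F) (h : ∀ v, v ∉ D.S → Even (d v)) :
    ∃ a : Dv F, ∀ v, v ∉ D.S → d v = 2 * a v := by
  refine ⟨d.mapRange (fun n : ℤ => n / 2) (by norm_num), fun v hv => ?_⟩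
  rw [Finsupp.mapRange_apply]
  obtain ⟨k, hk⟩ := h v hv
  omega

theorem fr_two (D : RubinData F H G) (hG : ∀ g : G, g * g = 1) {d a : Dv F}
    (h : ∀ v, v ∉ D.S → d v = 2 * a v) : fr D d = 1 := by
  have h1 : fr D d = fr D (a + a) := fr_congr D fun v hv => by
    rw [h v hv, Finsupp.add_apply, two_mul]
  rw [h1, fr_add, hG]

theorem chi_sq (hG : ∀ g : G, g * g = 1) (ψ : G →* ℂˣ) (g : G) : ψ g * ψ g = 1 := by
  rw [← map_mul, hG, map_one]

theorem char_sq (hG : ∀ g : G, g * g = 1) (ψ : G →* ℂˣ) : ψ * ψ = 1 := by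
  ext g
  have h := chi_sq hG ψ g
  rw [MonoidHom.mul_apply, h]
  rfl

end

section up

open Pool.Agent.Q5.BR Pool.Agent.TeamU

variable {F E : Type} [Field F] [NumberField F] [Field E] [NumberField E] [Algebra F E]

theorem prin_up_of_unr {w : HeightOneSpectrum (𝓞 E)} (hu : Unramified E (w.under (𝓞 F)))
    (c : Fˣ) : prin (up F E c) w = prin c (w.under (𝓞 F)) := by
  rw [Pool.Agent.Q149.AR.prin_eq_neg_log, Pool.Agent.Q149.AR.prin_eq_neg_log]
  have hov : Pool.Agent.TeamU.Over w (w.under (𝓞 F)) := rfl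
  have h1 : w.valuation E ((up F E c : Eˣ) : E) = (w.under (𝓞 F)).valuation F (c : F) ^
      ((w.under (𝓞 F)).asIdeal.ramificationIdx' w.asIdeal) :=
    val_over hov (c : F)
  have he : Ideal.ramificationIdx' (w.under (𝓞 F)).asIdeal w.asIdeal = 1 := by
    refine Ideal.ramificationIdx'_spec ?_ ?_
    · rw [pow_one, Ideal.map_le_iff_le_comap]
      exact le_of_eq rfl
    · exact hu w rfl
  rw [h1, he, pow_one]

end up

section

variable {F H G K : Type} [Field F] [NumberField F] [Field H] [NumberField H]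
  [Algebra F H] [CommGroup G] [Finite G] [MulSemiringAction G H] [IsGaloisGroup G F H] [Field K]
  [NumberField K] [Algebra F K] [Algebra K H]

/-- squares are norms -/
theorem rep_sq {τ : K ≃ₐ[F] K} {χ : G →* ℂˣ} (hd : Dict F H G K τ χ) (D : RubinData F H G)
    (y : Fˣ) : RepK D τ (y ^ 2) (up F K y) 0 := by
  have htw : IsScalarTower F K H := hd.tower
  refine ⟨?_, fun w hw => ?_⟩
  · apply Units.ext
    show Algebra.norm F (algebraMap F K (y : F)) = ((y ^ 2 : Fˣ) : F)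
    rw [Algebra.norm_algebraMap, hd.quad.deg, Units.val_pow_eq_pow_val]
  · have hv : w.under (𝓞 F) ∉ D.S := fun h => hw ⟨w.under (𝓞 F), h, rfl⟩
    have hgal : IsGalois F H := IsGaloisGroup.isGalois G F H
    have hu : Unramified K (w.under (𝓞 F)) :=
      (Pool.Agent.H509.Rec.unr_of_squarefree (D.unramified _ hv)).sub
    rw [prin_up_of_unr hu, pow_two, prin_mul, map_zero, Finsupp.add_apply]
    show 2 * prin y (w.under (𝓞 F)) = prin y (w.under (𝓞 F)) + prin y (w.under (𝓞 F)) + 2 * (0 - 0)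
    ring

end

section

variable {F H G : Type} [Field F] [NumberField F] [Field H] [NumberField H] [Algebra F H]
  [CommGroup G] [Finite G] [MulSemiringAction G H] [IsGaloisGroup G F H]

/-- the order of the group of the characters which are trivial on the symbols of `x` -/
theorem card_X (h6 : S_CHG) (D : RubinData F H G) (hG : ∀ g : G, g * g = 1)
    (hS : Nat.card (Sg D) = 2 ^ sc D) (Λ : Lam D) (x : Fˣ) (hx : ∀ v, v ∉ D.S → Even (prin x v)) :
    (Sg D).index < Nat.card {χ : G →* ℂˣ // ∀ i, χ (Λ.L i x) = 1} := by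
  classical
  have _ : Fintype Λ.ι := Λ.fin
  set R := Subgroup.closure (Set.range fun i => Λ.L i x) with hR
  have h1 : Nat.card {χ : G →* ℂˣ // ∀ i, χ (Λ.L i x) = 1} = R.index := by
    rw [← (h6 G R).1]
    refine Nat.card_congr (Equiv.subtypeEquivRight fun χ => ?_)
    constructor
    · intro h g hg
      have h2 : R ≤ χ.ker := by
        rw [hR, Subgroup.closure_le]
        rintro _ ⟨i, rfl⟩
        exact h i
      exact h2 hg
    · intro h i
      exact h _ (Subgroup.subset_closure ⟨i, rfl⟩)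
  have hcard := Λ.card
  have hsc : sc D = Fintype.card Λ.ι := by
    rw [Nat.card_eq_fintype_card] at hcard
    unfold sc
    omega
  obtain ⟨u, hu, hu2⟩ := D.more
  obtain ⟨i₀, -⟩ := Λ.all u hu hu2
  have hpos : 0 < Fintype.card Λ.ι := Fintype.card_pos_iff.2 ⟨i₀⟩
  obtain ⟨a, ha⟩ := exists_half D (prin x) hx
  have hprod : ∏ i, Λ.L i x = 1 := by
    have h2 := Λ.prod x
    rw [fr_two D hG ha] at h2
    rw [← h2]
    exact Finset.prod_congr (by congr 1; exact Subsingleton.elim _ _) fun _ _ => rfl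
  have h3 := card_closure hG i₀ (fun i => Λ.L i x) hprod
  rw [← hR] at h3
  have h4 := R.index_mul_card
  have h5 := (Sg D).index_mul_card
  rw [hS, hsc] at h5
  have h7 : (2 : ℕ) ^ Fintype.card Λ.ι = 2 * 2 ^ (Fintype.card Λ.ι - 1) := by
    rw [← pow_succ']
    congr 1
    omega
  have h8 : 0 < (Sg D).index := Nat.pos_of_ne_zero Subgroup.index_ne_zero_of_finite
  rw [h1]
  rw [h7] at h5
  by_contra hlt
  push Not at hlt
  have h9 : R.index * Nat.card R ≤ (Sg D).index * 2 ^ (Fintype.card Λ.ι - 1) :=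
    Nat.mul_le_mul hlt h3
  have h10 : 0 < 2 ^ (Fintype.card Λ.ι - 1) := by positivity
  have h11 : 0 < (Sg D).index * 2 ^ (Fintype.card Λ.ι - 1) := Nat.mul_pos h8 h10
  have h12 : (Sg D).index * (2 * 2 ^ (Fintype.card Λ.ι - 1)) =
      2 * ((Sg D).index * 2 ^ (Fintype.card Λ.ι - 1)) := by ring
  rw [h12] at h5
  omega

end

/-- a set of characters which is stable under the multiplication by a character -/
theorem even_of_mul {G : Type} [CommGroup G] [Finite G] (hG : ∀ g : G, g * g = 1)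
    (P : (G →* ℂˣ) → Prop) (κ : G →* ℂˣ) (hκ : κ ≠ 1) (h : ∀ χ, P χ → P (κ * χ)) :
    Even (Nat.card {χ : G →* ℂˣ // P χ}) := by
  have hfin : Finite (G →* ℂˣ) := Finite.of_equiv _
    (CommGroup.monoidHom_mulEquiv_of_hasEnoughRootsOfUnity G ℂ).some.symm.toEquiv
  refine even_card (fun χ : {χ : G →* ℂˣ // P χ} => ⟨κ * χ.1, h χ.1 χ.2⟩) ?_ ?_
  · intro χ
    apply Subtype.ext
    refine MonoidHom.ext fun g => ?_
    show κ g * (κ g * χ.1 g) = χ.1 g
    rw [← mul_assoc, chi_sq hG, one_mul]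
  · intro χ h1
    apply hκ
    have h2 : κ * χ.1 = χ.1 := congrArg Subtype.val h1
    refine MonoidHom.ext fun g => ?_
    have h3 : κ g * χ.1 g = χ.1 g := DFunLike.congr_fun h2 g
    exact mul_eq_right.1 h3

/-- **EVX.** -/
theorem evx (h1 : Pool.Agent.BT9.S_LAM) (h2 : S_HNT) (h3 : S_CEX) (h4 : S_CWD) (h5 : S_CADD) (h6 : S_CHG)
    (h7 : S_PF) : S_EVX := by
  classical
  intro F H G _ _ _ _ _ _ _ _ _ D hG hS T q x hx
  obtain ⟨Λ⟩ := h1 F H G D hG
  have hfin : Finite (G →* ℂˣ) := Finite.of_equiv _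
    (CommGroup.monoidHom_mulEquiv_of_hasEnoughRootsOfUnity G ℂ).some.symm.toEquiv
  have hev : ∀ v, v ∉ D.S → Even (prin x v) := hx.2
  obtain ⟨a, ha⟩ := exists_half D (prin x) hev
  have hXcard := card_X h6 D hG hS Λ x hev
  have hkap : ∀ χ₁ χ₂ : G →* ℂˣ, χ₁ ≠ χ₂ → χ₁ * χ₂ ≠ 1 := by
    intro χ₁ χ₂ hne h
    apply hne
    refine MonoidHom.ext fun g => ?_
    have h8 : χ₁ g * χ₂ g = 1 := DFunLike.congr_fun h g
    have h9 := chi_sq hG χ₂ g
    rw [← h9] at h8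
    exact mul_right_cancel h8
  by_cases hsq : ∃ y : Fˣ, y ^ 2 = x
  · obtain ⟨y, rfl⟩ := hsq
    have hall : ∀ χ, (y ^ 2) ∈ Wt D T q χ := by
      intro χ
      unfold Wt
      split_ifs with h
      · exact ⟨hx, prin y, fun v _ => by rw [pow_two, prin_mul, Finsupp.add_apply, two_mul],
          fun ψ hψ => h7 F H G D ⟨Λ⟩ ψ hψ y⟩
      · exact ⟨hx, up F _ y, 0, rep_sq (q χ h).dict D y, fun ψ _ => by
          rw [map_zero, fr_zero, map_one]⟩
    have h8 : 0 < (Sg D).index := Nat.pos_of_ne_zero Subgroup.index_ne_zero_of_finite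
    have h9 : 1 < Nat.card {χ : G →* ℂˣ // ∀ i, χ (Λ.L i (y ^ 2)) = 1} := by omega
    rw [Finite.one_lt_card_iff_nontrivial] at h9
    obtain ⟨χ₁, χ₂, hne⟩ := h9
    exact even_of_mul hG _ (χ₁.1 * χ₂.1) (hkap _ _ fun h => hne (Subtype.ext h))
      fun χ _ => hall _
  have hsq' : ∀ y : Fˣ, y ^ 2 ≠ x := fun y hy => hsq ⟨y, hy⟩
  have hex : ∀ χ : {χ : G →* ℂˣ // ∀ i, χ (Λ.L i x) = 1}, ∃ s : G,
      (χ.1 = 1 → s = 1) ∧ ∀ h : χ.1 ≠ 1, ∃ (β : (q χ.1 h).Kˣ) (c : Dv (q χ.1 h).K),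
        RepK D (q χ.1 h).τ x β c ∧ s = fr D (nmD F (q χ.1 h).K c) * fr D a := by
    intro χ
    by_cases h : χ.1 = 1
    · exact ⟨1, fun _ => rfl, fun h' => absurd h h'⟩
    · obtain ⟨β, hβ⟩ := h2 F H G (q χ.1 h).K (q χ.1 h).τ χ.1 (q χ.1 h).dict D hG Λ x hev χ.2
      obtain ⟨c, hc⟩ := h3 F H G (q χ.1 h).K (q χ.1 h).τ χ.1 (q χ.1 h).dict D x β hβ hev
      exact ⟨fr D (nmD F (q χ.1 h).K c) * fr D a, fun h' => absurd h' h, fun _ => ⟨β, c, hc, rfl⟩⟩
  choose s hs1 hs2 using hex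
  have hA : ∀ (χ : {χ : G →* ℂˣ // ∀ i, χ (Λ.L i x) = 1}) (h : χ.1 ≠ 1) (β' : (q χ.1 h).Kˣ)
      (c' : Dv (q χ.1 h).K), RepK D (q χ.1 h).τ x β' c' → ∀ ψ ∈ Perp D,
      ψ (s χ) = ψ (fr D (nmD F (q χ.1 h).K c')) * ψ (fr D a) := by
    intro χ h β' c' hc' ψ hψ
    obtain ⟨β, c, hc, e⟩ := hs2 χ h
    rw [e, map_mul, h4 F H G _ _ _ (q χ.1 h).dict D hG ⟨Λ⟩ x β β' c c' hc hc' ψ hψ]
  have hmul : ∀ χ χ' : {χ : G →* ℂˣ // ∀ i, χ (Λ.L i x) = 1}, ∀ i,
      (χ.1 * χ'.1) (Λ.L i x) = 1 := fun χ χ' i => by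
    rw [MonoidHom.mul_apply, χ.2, χ'.2, mul_one]
  have hB : ∀ χ χ' : {χ : G →* ℂˣ // ∀ i, χ (Λ.L i x) = 1}, ∀ ψ ∈ Perp D,
      ψ (s ⟨χ.1 * χ'.1, hmul χ χ'⟩) = ψ (s χ) * ψ (s χ') := by
    intro χ χ' ψ hψ
    by_cases h : χ.1 = 1
    · have e : (⟨χ.1 * χ'.1, hmul χ χ'⟩ : {χ : G →* ℂˣ // ∀ i, χ (Λ.L i x) = 1}) = χ' :=
        Subtype.ext (MonoidHom.ext fun g => by
          rw [MonoidHom.mul_apply, h, MonoidHom.one_apply, one_mul])
      rw [e, hs1 χ h, map_one, one_mul]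
    by_cases h' : χ'.1 = 1
    · have e : (⟨χ.1 * χ'.1, hmul χ χ'⟩ : {χ : G →* ℂˣ // ∀ i, χ (Λ.L i x) = 1}) = χ :=
        Subtype.ext (MonoidHom.ext fun g => by
          rw [MonoidHom.mul_apply, h', MonoidHom.one_apply, mul_one])
      rw [e, hs1 χ' h', map_one, mul_one]
    by_cases h'' : χ.1 * χ'.1 = 1
    · have e : χ = χ' := by
        by_contra hne
        exact hkap χ.1 χ'.1 (fun h8 => hne (Subtype.ext h8)) h''
      rw [hs1 _ h'', map_one, e, chi_sq hG]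
    · obtain ⟨β₁, c₁, hc₁, e₁⟩ := hs2 χ h
      obtain ⟨β₂, c₂, hc₂, e₂⟩ := hs2 χ' h'
      obtain ⟨β₃, c₃, hc₃, e₃⟩ := h5 F H G (q χ.1 h).K (q χ'.1 h').K (q (χ.1 * χ'.1) h'').K
        (q χ.1 h).τ (q χ'.1 h').τ (q (χ.1 * χ'.1) h'').τ χ.1 χ'.1 (q χ.1 h).dict (q χ'.1 h').dict
        (q (χ.1 * χ'.1) h'').dict D hG ⟨Λ⟩ x a β₁ β₂ c₁ c₂ hsq' ha hc₁ hc₂
      rw [hA ⟨χ.1 * χ'.1, hmul χ χ'⟩ h'' β₃ c₃ hc₃ ψ hψ, e₃ ψ hψ, e₁, e₂, map_mul, map_mul,
        mul_assoc, mul_mul_mul_comm]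
  have hC : ∀ χ : G →* ℂˣ, x ∈ Wt D T q χ ↔ ∃ hχ : (∀ i, χ (Λ.L i x) = 1), ∀ ψ ∈ Perp D,
      ψ (s ⟨χ, hχ⟩) = ψ (fr D a) := by
    intro χ
    unfold Wt
    split_ifs with h
    · constructor
      · rintro ⟨-, a', ha', h8⟩
        refine ⟨fun i => by rw [h]; rfl, fun ψ hψ => ?_⟩
        have e : fr D a = fr D a' := fr_congr D fun v hv => by
          have h9 := ha v hv
          rw [ha' v hv] at h9
          omega
        rw [hs1 _ h, map_one, e, h8 ψ hψ]
      · rintro ⟨hχ, h8⟩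
        refine ⟨hx, a, ha, fun ψ hψ => ?_⟩
        rw [← h8 ψ hψ, hs1 _ h, map_one]
    · constructor
      · rintro ⟨-, β, c, hc, h8⟩
        have hχ : ∀ i, χ (Λ.L i x) = 1 := fun i => by
          rw [← hc.1]
          exact Λ.norm (q χ h).K (q χ h).τ χ (q χ h).dict β i
        refine ⟨hχ, fun ψ hψ => ?_⟩
        rw [hA ⟨χ, hχ⟩ h β c hc ψ hψ, h8 ψ hψ, one_mul]
      · rintro ⟨hχ, h8⟩
        obtain ⟨β, c, hc, e⟩ := hs2 ⟨χ, hχ⟩ h
        refine ⟨hx, β, c, hc, fun ψ hψ => ?_⟩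
        have h9 := h8 ψ hψ
        rw [e, map_mul] at h9
        exact mul_eq_right.1 h9
  -- two characters with the same values
  obtain ⟨χ₁, χ₂, hne, h12⟩ : ∃ χ₁ χ₂ : {χ : G →* ℂˣ // ∀ i, χ (Λ.L i x) = 1}, χ₁ ≠ χ₂ ∧
      ∀ ψ ∈ Perp D, ψ (s χ₁) = ψ (s χ₂) := by
    by_contra hcon
    push Not at hcon
    have hinj : Function.Injective (fun χ : {χ : G →* ℂˣ // ∀ i, χ (Λ.L i x) = 1} =>
        (QuotientGroup.mk (s χ) : G ⧸ Sg D)) := by
      intro χ₁ χ₂ h
      by_contra hne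
      obtain ⟨ψ, hψ, h8⟩ := hcon χ₁ χ₂ hne
      apply h8
      have h9 : (s χ₁)⁻¹ * s χ₂ ∈ Sg D := QuotientGroup.eq.1 h
      have h10 := hψ _ h9
      rw [map_mul, map_inv, inv_mul_eq_one] at h10
      exact h10
    have h8 := Nat.card_le_card_of_injective _ hinj
    exact absurd (lt_of_lt_of_le hXcard h8) (lt_irrefl _)
  refine even_of_mul hG _ (χ₁.1 * χ₂.1) (hkap _ _ fun h => hne (Subtype.ext h)) fun χ hχ => ?_
  obtain ⟨h8, h9⟩ := (hC χ).1 hχ
  refine (hC _).2 ⟨hmul ⟨_, hmul χ₁ χ₂⟩ ⟨χ, h8⟩, fun ψ hψ => ?_⟩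
  have h10 := hB ⟨_, hmul χ₁ χ₂⟩ ⟨χ, h8⟩ ψ hψ
  rw [h10, hB χ₁ χ₂ ψ hψ, h12 ψ hψ, chi_sq hG, one_mul, h9 ψ hψ]

end Pool.Agent.H996.BT.Ev

namespace Pool.Agent.H996.BT

open Pool.Agent.BT9

/-- **EVX.** Each `x` in the Selmer group is in an even number of the groups. -/
theorem evx (h1 : Pool.Agent.BT9.S_LAM) (h2 : S_HNT) (h3 : S_CEX) (h4 : S_CWD) (h5 : S_CADD) (h6 : S_CHG)
    (h7 : S_PF) : S_EVX := Ev.evx h1 h2 h3 h4 h5 h6 h7

end Pool.Agent.H996.BT
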