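import Pool.Agent.H509.BT.Stm1

/-! Project BT, job HN: the norm theorem of Hasse for quadratic extensions. -/

set_option autoImplicit false
set_option linter.unusedSectionVars false

namespace Pool.Agent.H332.BT

open NumberField IsDedekindDomain Module
open Pool.Agent.Q92.AR (Dv prin Pr Ray RayD art nmD nu up puD Cong Pos frob IsFrobenius Unramified Ram
  SupF prin_mul prin_div prin_one prin_inv mem_Pr val_eq_one nmD_single art_single frob_spec)
open Pool.Agent.Q20.EX (CongAt)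
open Pool.Agent.Q5.MZ (LocN NonSplit PosRam VAData)
open Pool.Agent.Q38.EX (near_one near_mul near_inv near_div near_prod exists_exp_le val_nat_lt_one
  val_nat_ne_zero approx nu_eq val_nat norm_cong exists_above)
open Pool.Agent.Q125.AR (mem_under prin_eq_zero_of_valuation prin_mem_Pr Ray_mono Ram_mono)
open Pool.Agent.Q182.MZ

/-- **HN** -/
theorem hn : Pool.Agent.BT9.S_HN := by
  intro hLA hLD k E _ _ _ _ _ _ ψ x h2 hψ hpos heven hram
  classical
  have hcard : Nat.card (E ≃ₐ[k] E) = 2 := by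
    rw [IsGalois.card_aut_eq_finrank, h2]
  have : Fact (Nat.Prime 2) := ⟨Nat.prime_two⟩
  have hcyc : IsCyclic (E ≃ₐ[k] E) := isCyclic_of_prime_card hcard
  obtain ⟨σ, hσ⟩ := hcyc.exists_generator
  obtain ⟨N0, hN0, hR0, hker0⟩ := Pool.Agent.Q92.AR.recip k E ψ
  obtain ⟨N1, N2, hN1, hN2, h01, h12, hpow, A, hA1, hA2, hA3, hA4⟩ :=
    Pool.Agent.Q149.AR.va k E σ hσ N0 hN0
  have hR1 : Ram k E N1 := Ram_mono h01 hR0
  have hR2 : Ram k E N2 := Ram_mono h12 hR1
  have hVA : VAData k E σ N1 N2 A := ⟨hσ, hN1, hN2, hR1, h12, hpow, hA1, hA2, hA3, hA4⟩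
  have hker1 : ∀ x ∈ Ray k N1, art ψ (prin x) = 0 := fun x hx => hker0 x (Ray_mono h01 hx)
  have hker2 : ∀ x ∈ Ray k N2, art ψ (prin x) = 0 := fun x hx => hker1 x (Ray_mono h12 hx)
  have hmem : ∀ v : HeightOneSpectrum (𝓞 k), (N1 : 𝓞 k) ∈ v.asIdeal → (N2 : 𝓞 k) ∈ v.asIdeal := by
    intro v h
    obtain ⟨c, rfl⟩ := h12
    rw [Nat.cast_mul]
    exact Ideal.mul_mem_right _ _ h
  have hloc : ∀ v : HeightOneSpectrum (𝓞 k), Unramified E v → LocN E v x := fun v hv =>
    Pool.Agent.Q285.MZ.le k E v x h2 hv (heven v hv)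
  have hmemsup := hLD k E σ N1 N2 A ψ h2 hVA hψ hker1 x (fun v hv _ => by
    by_cases hu : Unramified E v
    · obtain ⟨z, hz1, hz2, hz3⟩ := apxAt hN2 v x
      exact ⟨z, hz1, hz2, hz3 (hmem v hv),
        artLoc ψ hN2 hR2 hker2 (hmem v hv) (hloc v hu) hz1 hz2 (hz3 (hmem v hv))⟩
    · exact hram v hu N2 hN2)
  obtain ⟨y0', hy0, a, haA, hxa⟩ := Subgroup.mem_sup.1 hmemsup
  obtain ⟨y0, rfl⟩ := MonoidHom.mem_range.1 hy0
  have haA' : up k E a ∈ A := Subgroup.mem_comap.1 haA
  have hxa' : a = x / nu k E y0 := by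
    rw [← hxa, mul_div_cancel_left]
  have hposa : PosRam E a := by
    intro φ hφ
    rw [hxa', Units.val_div_eq_div_val, map_div₀]
    exact div_pos (hpos φ hφ) ((Pool.Agent.Q106.AR.nm k E).2.2.2.2.1 φ y0 hφ)
  have hDa : ∃ D ∈ Pr E N1, nmD k E D = prin a := by
    refine glueD _ fun v => ?_
    by_cases hv : (N1 : 𝓞 k) ∈ v.asIdeal
    · have h3 : prin a v = 0 := by
        obtain ⟨W, hW⟩ := exists_above (M := E) v
        have hNW : (N1 : 𝓞 E) ∈ W.asIdeal := by
          rw [← mem_under (F := k), hW]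
          exact hv
        have h4 := hA2 _ haA' W hNW
        have h5 : ((up k E a : Eˣ) : E) = algebraMap k E (a : k) := rfl
        rw [h5, val_nat, hW] at h4
        exact prin_eq_zero_of_valuation (near_one _ (val_nat_lt_one hv) h4)
      rw [h3, Finsupp.single_zero]
      exact ⟨0, AddSubgroup.zero_mem _, map_zero _⟩
    · have hu : Unramified E v := by
        by_contra h3
        exact hv (hR1 v h3)
      obtain ⟨D, hD1, hD2⟩ := locD hv (hloc v hu)
      refine ⟨D - pa v (prin y0), AddSubgroup.sub_mem _ hD1 ?_, ?_⟩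
      · intro W hW
        refine pa_neg _ fun h1 => hv ?_
        rw [← h1]
        exact mem_under.2 hW
      · rw [map_sub, hD2, nmD_pa, nm_prin, hxa', prin_div, Finsupp.sub_apply, Finsupp.single_sub]
  obtain ⟨y1, -, hy1⟩ := hLA k E σ N1 N2 A hVA a haA' hposa hDa
  refine ⟨y0 * y1, ?_⟩
  rw [map_mul, hy1, hxa]

end Pool.Agent.H332.BT
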