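import Pool.Agent.H509.BT.Stm2

/-!
# Subtask 4798 of helper509: Hasse norm theorem in terms of the symbols
-/

set_option autoImplicit false
set_option linter.unusedSectionVars false
set_option linter.deprecated false

open NumberField IsDedekindDomain Filter Topology Module

noncomputable section

namespace Pool.Agent.H333.BT

open Pool.Agent.BT9
open Pool.Agent.Q92.AR (Dv prin Pr Ray nmD nu up sD puD Cong Pos frob IsFrobenius Unramified Ram art
  prin_mul prin_one prin_inv frob_spec art_single val_eq_one)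
open Pool.Agent.Q20.EX (Inert CongAt Split)
open Pool.Agent.K3h30.RS
open Pool.Agent.K3h56.E2 (Quad Dict part InSF SplAt Over CA SU minus actK oddCard sgn loc)
open Pool.Agent.Q5.MZ (LocN NonSplit PosRam VAData S_LA S_LB S_LC S_LD)
open Pool.Agent.K3h73.E2 (Below conj_of_below below_of_conj exists_below)
open Pool.Agent.Q125.AR (mem_under prin_eq_zero_of_valuation)
open Pool.Agent.H509.Rec (under_of_above unr_of_squarefree)

section
variable {F H G K : Type} [Field F] [NumberField F] [Field H] [NumberField H]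
  [Algebra F H] [CommGroup G] [Finite G] [MulSemiringAction G H] [IsGaloisGroup G F H] [Field K]
  [NumberField K] [Algebra F K] [Algebra K H]

theorem val_mul_le (v : HeightOneSpectrum (𝓞 F)) (a b : ℕ) :
    v.valuation F ((a * b : ℕ) : F) ≤ v.valuation F (a : F) ∧
      v.valuation F ((a * b : ℕ) : F) ≤ v.valuation F (b : F) := by
  have h : ∀ n : ℕ, v.valuation F (n : F) ≤ 1 := fun n => by
    have := v.valuation_le_one (K := F) (n : 𝓞 F)
    simpa using this
  rw [Nat.cast_mul, map_mul]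
  exact ⟨mul_le_of_le_one_right' (h b), mul_le_of_le_one_left' (h a)⟩

/-- a finite place of `S` which does not split in `K` is one of the places of `Λ` -/
theorem exists_index {τ : K ≃ₐ[F] K} {χ : G →* ℂˣ} (hd : Dict F H G K τ χ) {D : RubinData F H G}
    (Λ : Lam D) {v : HeightOneSpectrum (𝓞 F)} (hv : v ∈ D.S) (hl : loc K v ≠ 1) :
    ∃ (i : Λ.ι) (w : HeightOneSpectrum (𝓞 H)), Λ.u i = Sum.inr w ∧ Above {v} w := by
  obtain ⟨w, hw⟩ := (Pool.Agent.K3h25.RS.t_OVER F H v).1
  have h1 : ¬ ∀ γ : G, Fixes (Sum.inr w : Place H) γ → χ γ = 1 := fun h =>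
    hl ((Pool.Agent.K3h72.E2.t_FINW Pool.Agent.K3h25.E2.t_LOC F H G K τ χ hd v w hw).1 h)
  push Not at h1
  obtain ⟨γ, hf, hχ⟩ := h1
  have h2 : ∀ j, ¬ Conj G (Sum.inr w : Place H) (D.w j) := fun j hj => hχ (by
    rw [D.splits j γ (Pool.Agent.H509.E3.fixes_conj hj hf), map_one])
  have hin : InS (D.S : Set (HeightOneSpectrum (𝓞 F))) (Sum.inr w : Place H) := by
    obtain ⟨v', h3, h4⟩ := hw
    rw [Set.mem_singleton_iff] at h3
    subst h3
    exact ⟨v', hv, h4⟩
  obtain ⟨i, hi⟩ := Λ.all (Sum.inr w) hin h2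
  obtain ⟨p, hp⟩ := exists_below (F := F) (Λ.u i)
  have hp2 : (Sum.inr v : InfinitePlace F ⊕ HeightOneSpectrum (𝓞 F)) = p :=
    below_of_conj (p := Sum.inr v) (w := Sum.inr w) hw hp hi
  subst hp2
  refine ⟨i, ?_⟩
  rcases hu : Λ.u i with w' | w'
  · rw [hu] at hp
    exact hp.elim
  · rw [hu] at hp
    exact ⟨w', rfl, hp⟩

/-- an element near to `x` at a place of `S` which does not split in `K` has trivial symbol -/
theorem key (h4 : S_BRK) [IsGalois F K] {τ : K ≃ₐ[F] K} {χ : G →* ℂˣ} (hd : Dict F H G K τ χ)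
    {D : RubinData F H G} (Λ : Lam D) (ψ : (K ≃ₐ[F] K) →* ℂˣ) (hψ : Function.Injective ψ) (x : Fˣ)
    (hx : ∀ i, χ (Λ.L i x) = 1) {v : HeightOneSpectrum (𝓞 F)} (hv : v ∈ D.S) (hl : loc K v ≠ 1)
    {N : ℕ} (hN : N ≠ 0) : ∃ z : Fˣ, Pos (z : F) ∧ CongAt {v}ᶜ N (z : F) ∧
      v.valuation F ((x : F) / (z : F) - 1) ≤ v.valuation F (N : F) ∧
      v.valuation F ((x : F) / (z : F) - 1) ≤ v.valuation F (Λ.N : F) ∧
      art ψ (prin z - Finsupp.single v (prin z v)) = 0 := by
  classical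
  let _ := Λ.fin
  have hN' : N * Λ.N ≠ 0 := mul_ne_zero hN Λ.N0
  obtain ⟨z, hz1, hz2, hz3⟩ := Pool.Agent.Q182.MZ.apxAt hN' v x
  have hmem : ∀ v' : HeightOneSpectrum (𝓞 F), (N : 𝓞 F) ∈ v'.asIdeal →
      ((N * Λ.N : ℕ) : 𝓞 F) ∈ v'.asIdeal := fun v' h => by
    rw [Nat.cast_mul]
    exact v'.asIdeal.mul_mem_right _ h
  have hmem2 : ∀ v' : HeightOneSpectrum (𝓞 F), (Λ.N : 𝓞 F) ∈ v'.asIdeal →
      ((N * Λ.N : ℕ) : 𝓞 F) ∈ v'.asIdeal := fun v' h => by
    rw [Nat.cast_mul]
    exact v'.asIdeal.mul_mem_left _ h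
  have hz4 := hz3 (hmem2 v (Λ.NS v hv))
  refine ⟨z, hz1, fun v' h1 h2 => (hz2 v' h1 (hmem v' h2)).trans (val_mul_le v' N Λ.N).1,
    hz4.trans (val_mul_le v N Λ.N).1, hz4.trans (val_mul_le v N Λ.N).2, ?_⟩
  have hcong : ∀ v' ∈ D.S, v' ≠ v →
      v'.valuation F ((z : F) - 1) ≤ v'.valuation F (Λ.N : F) := fun v' hv' hne =>
    (hz2 v' (fun h => hne (Set.mem_singleton_iff.1 h)) (hmem2 v' (Λ.NS v' hv'))).trans
      (val_mul_le v' N Λ.N).2
  obtain ⟨i, w, hi, hw⟩ := exists_index hd Λ hv hl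
  -- the symbols of `z`
  have hother : ∀ j, j ≠ i → Λ.L j z = 1 := by
    intro j hj
    apply Λ.near
    rcases hu : Λ.u j with w' | w'
    · intro φ _
      exact hz1 φ
    · have hin := Λ.ins j
      rw [hu] at hin
      obtain ⟨v', hv', h5⟩ := hin
      have h6 : w'.under (𝓞 F) = v' := HeightOneSpectrum.ext h5
      have hne : v' ≠ v := by
        rintro rfl
        apply hj
        apply Λ.inj
        rw [hu, hi]
        exact conj_of_below (p := Sum.inr v') (w := Sum.inr w') (w' := Sum.inr w)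
          (Pool.Agent.K3h30.RS.above_singleton.2 h5) hw
      change (w'.under (𝓞 F)).valuation F ((z : F) - 1) ≤ (w'.under (𝓞 F)).valuation F (Λ.N : F)
      rw [h6]
      exact hcong v' hv' hne
  have hsame : Λ.L i z = Λ.L i x := by
    have h1 : Λ.L i (x / z) = 1 := by
      apply Λ.near
      rw [hi]
      change (w.under (𝓞 F)).valuation F (((x / z : Fˣ) : F) - 1) ≤
        (w.under (𝓞 F)).valuation F (Λ.N : F)
      rw [under_of_above hw, Units.val_div_eq_div_val]
      exact hz4.trans (val_mul_le v N Λ.N).2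
    rw [map_div, div_eq_one] at h1
    exact h1.symm
  have hprod : fr D (prin z) = Λ.L i x := by
    rw [← Λ.prod z, Fintype.prod_eq_single i (fun j hj => hother j hj), hsame]
  set d : Dv F := prin z - Finsupp.single v (prin z v) with hd'
  have hd0 : ∀ v' ∈ D.S, d v' = 0 := by
    intro v' hv'
    by_cases hne : v' = v
    · subst hne
      rw [hd', Finsupp.sub_apply, Finsupp.single_eq_same, sub_self]
    · have h1 := val_eq_one (Λ.NS v' hv') (hcong v' hv' hne)
      rw [hd', Finsupp.sub_apply, prin_eq_zero_of_valuation h1,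
        Finsupp.single_eq_of_ne hne, sub_zero]
  have hfr : fr D d = Λ.L i x := by
    rw [← hprod, hd', sub_eq_add_neg, fr_add, fr_neg, fr_single_mem D hv, inv_one, mul_one]
  rw [h4 F H G K τ χ hd D ψ hψ d hd0, hfr, hx i, ofMul_one]

theorem loc_of_nonSplit {v : HeightOneSpectrum (𝓞 F)} (h : NonSplit K v) : loc K v ≠ 1 := by
  classical
  have h1 : ¬ ∃ P P' : HeightOneSpectrum (𝓞 K), P ≠ P' ∧ Above {v} P ∧ Above {v} P' := by
    rintro ⟨P, P', hne, h2, h3⟩
    exact hne (h P P' (under_of_above h2) (under_of_above h3))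
  unfold loc
  rw [if_neg h1]
  split_ifs <;> decide

theorem loc_of_ram {τ : K ≃ₐ[F] K} (hQ : Quad F K τ) {v : HeightOneSpectrum (𝓞 F)}
    (h : ¬ Unramified K v) : loc K v ≠ 1 := by
  intro hl
  obtain ⟨P, P', hne, h3, -, h5, -⟩ := (Pool.Agent.K3h25.E2.t_LOC F K τ hQ v).1 hl
  apply h
  intro w hw hle
  have h6 : w.asIdeal ^ 2 ∣ P.asIdeal * P'.asIdeal := by
    rw [← h5]
    exact Ideal.dvd_iff_le.2 hle
  have hwP : w = P ∨ w = P' := (h3 w).1 (Pool.Agent.K3h30.RS.above_singleton.2 (by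
    rw [← hw]; rfl))
  have hdvd : ∀ Q Q' : HeightOneSpectrum (𝓞 K), Q.asIdeal ∣ Q'.asIdeal → Q = Q' := by
    intro Q Q' hQQ
    apply HeightOneSpectrum.ext
    exact (Q'.isMaximal.eq_of_le Q.isPrime.ne_top (Ideal.dvd_iff_le.1 hQQ)).symm
  rcases hwP with rfl | rfl
  · rw [pow_two] at h6
    exact hne (hdvd _ _ ((mul_dvd_mul_iff_left w.ne_bot).1 h6))
  · rw [pow_two, mul_comm P.asIdeal] at h6
    exact hne (hdvd _ _ ((mul_dvd_mul_iff_left w.ne_bot).1 h6)).symm

theorem mem_S_of_ram [IsScalarTower F K H] (D : RubinData F H G) {v : HeightOneSpectrum (𝓞 F)}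
    (h : ¬ Unramified K v) : v ∈ D.S := by
  by_contra hv
  apply h
  intro w hw hle
  have h1 := D.unramified v hv
  have h2 : v.asIdeal.map (algebraMap (𝓞 F) (𝓞 H)) =
      (v.asIdeal.map (algebraMap (𝓞 F) (𝓞 K))).map (algebraMap (𝓞 K) (𝓞 H)) := by
    rw [Ideal.map_map, ← IsScalarTower.algebraMap_eq]
  have h3 : w.asIdeal.map (algebraMap (𝓞 K) (𝓞 H)) * w.asIdeal.map (algebraMap (𝓞 K) (𝓞 H)) ∣
      v.asIdeal.map (algebraMap (𝓞 F) (𝓞 H)) := by
    rw [h2, ← pow_two, ← Ideal.map_pow]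
    exact Ideal.dvd_iff_le.2 (Ideal.map_mono hle)
  have h4 := h1 _ h3
  rw [Ideal.isUnit_iff] at h4
  obtain ⟨W, hW⟩ := (Pool.Agent.K3h25.RS.t_OVER K H w).1
  have h5 : w.asIdeal.map (algebraMap (𝓞 K) (𝓞 H)) ≤ W.asIdeal := by
    rw [Ideal.map_le_iff_le_comap, Pool.Agent.K3h30.RS.above_singleton.1 hW]
  rw [h4, top_le_iff] at h5
  exact W.isPrime.ne_top h5

theorem act_under (σ : K ≃ₐ[F] K) (w : HeightOneSpectrum (𝓞 K)) :
    (Pool.Agent.TeamU.act σ w).under (𝓞 F) = w.under (𝓞 F) := by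
  apply HeightOneSpectrum.ext
  ext x
  change algebraMap (𝓞 F) (𝓞 K) x ∈ (Pool.Agent.TeamU.act σ w).asIdeal ↔
    algebraMap (𝓞 F) (𝓞 K) x ∈ w.asIdeal
  rw [Pool.Agent.TeamU.mem_act]
  have h1 : (RingOfIntegers.mapRingEquiv σ.toRingEquiv).symm (algebraMap (𝓞 F) (𝓞 K) x) =
      algebraMap (𝓞 F) (𝓞 K) x := by
    rw [RingEquiv.symm_apply_eq]
    apply RingOfIntegers.ext
    change algebraMap F K (x : F) = σ (algebraMap F K (x : F))
    rw [AlgEquiv.commutes]
  rw [h1]

/-- the injective character of the group of a quadratic extension -/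
theorem exists_psi {τ : K ≃ₐ[F] K} (hQ : Quad F K τ) :
    ∃ ψ : (K ≃ₐ[F] K) →* ℂˣ, Function.Injective ψ ∧ ∀ g, ψ g * ψ g = 1 := by
  classical
  have hτ : τ ≠ 1 := hQ.ne
  have haut : ∀ σ : K ≃ₐ[F] K, σ = 1 ∨ σ = τ := Pool.Agent.K3h50.E2.aut_eq hQ
  have hττ : τ * τ = 1 := by
    rcases haut (τ * τ) with h | h
    · exact h
    · exact absurd (mul_eq_left.1 h) hτ
  let f : (K ≃ₐ[F] K) → ℂˣ := fun σ => if σ = 1 then 1 else -1
  have hf1 : f 1 = 1 := if_pos rfl
  have hfτ : f τ = -1 := if_neg hτ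
  have hmul : ∀ a b, f (a * b) = f a * f b := by
    intro a b
    rcases haut a with rfl | ha
    · rw [one_mul, hf1, one_mul]
    · rcases haut b with rfl | hb
      · rw [mul_one, hf1, mul_one]
      · rw [ha, hb, hττ, hf1, hfτ, neg_mul_neg, one_mul]
  have hne : (1 : ℂˣ) ≠ -1 := by
    intro h
    have h2 := congrArg (fun u : ℂˣ => (u : ℂ)) h
    norm_num at h2
  refine ⟨MonoidHom.mk' f hmul, ?_, ?_⟩
  · intro a b hab
    change f a = f b at hab
    rcases haut a with ha | ha <;> rcases haut b with hb | hb <;> rw [ha, hb] at hab ⊢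
    · rw [hf1, hfτ] at hab
      exact absurd hab hne
    · rw [hf1, hfτ] at hab
      exact absurd hab.symm hne
  · intro g
    change f g * f g = 1
    rcases haut g with hg | hg
    · rw [hg, hf1, one_mul]
    · rw [hg, hfτ, neg_mul_neg, one_mul]

/-- positivity at the real places which ramify in `K` -/
theorem posRam {τ : K ≃ₐ[F] K} {χ : G →* ℂˣ} (hd : Dict F H G K τ χ)
    {D : RubinData F H G} (Λ : Lam D) (x : Fˣ) (hx : ∀ i, χ (Λ.L i x) = 1) : PosRam K x := by
  classical
  have hgal : IsGalois F K := Pool.Agent.K3h50.E2.isGalois_of_quad hd.quad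
  have htw : IsScalarTower F K H := hd.tower
  intro φ hφ
  obtain ⟨ι, g, hι, hg⟩ := Pool.Agent.H509.Rec.exists_conj (M := K) φ
  -- `g = τ`
  have hgτ : g = τ := by
    rcases Pool.Agent.K3h50.E2.aut_eq hd.quad g with h | h
    · exfalso
      apply hφ
      have h2 : ∀ y : K, (starRingEnd ℂ) (ι y) = ι y := by
        intro y
        rw [← hg, h]
        rfl
      have h3 : ∀ y : K, (((ι y).re : ℝ) : ℂ) = ι y := fun y => Complex.conj_eq_iff_re.1 (h2 y)
      have hcast : Function.Injective (fun r : ℝ => (r : ℂ)) := Complex.ofReal_injective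
      refine ⟨{ toFun := fun y => (ι y).re
                map_one' := by rw [map_one, Complex.one_re]
                map_mul' := fun y z => hcast (by
                  simp only [Complex.ofReal_mul]
                  rw [h3, h3, h3, map_mul])
                map_zero' := by rw [map_zero, Complex.zero_re]
                map_add' := fun y z => by rw [map_add, Complex.add_re] }, ?_⟩
      ext y
      change (ι (algebraMap F K y)).re = φ y
      rw [hι, Complex.ofReal_re]
    · exact h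
  subst hgτ
  obtain ⟨w, hw'⟩ := InfinitePlace.comap_surjective (K := H) (InfinitePlace.mk ι)
  have hw : w.comap (algebraMap K H) = InfinitePlace.mk ι := hw'
  have hwτ : (w.comap (algebraMap K H)).comap (g : K →+* K) = w.comap (algebraMap K H) := by
    rw [hw, InfinitePlace.comap_mk]
    have e : ι.comp (g : K →+* K) = ComplexEmbedding.conjugate ι := by
      ext y
      exact hg y
    rw [e, InfinitePlace.mk_conjugate_eq]
  have h1 : ¬ ∀ γ : G, Fixes (Sum.inl w : Place H) γ → χ γ = 1 := fun h =>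
    (Pool.Agent.K3h50.E2.t_INFW F H G K g χ hd w).1 h hwτ
  push Not at h1
  obtain ⟨γ, hf, hχ⟩ := h1
  have h2 : ∀ j, ¬ Conj G (Sum.inl w : Place H) (D.w j) := fun j hj => hχ (by
    rw [D.splits j γ (Pool.Agent.H509.E3.fixes_conj hj hf), map_one])
  obtain ⟨i, hi⟩ := Λ.all (Sum.inl w) trivial h2
  have hwF : w.comap (algebraMap F H) = InfinitePlace.mk ((algebraMap ℝ ℂ).comp φ) := by
    have e1 : w.comap (algebraMap F H) = (w.comap (algebraMap K H)).comap (algebraMap F K) := by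
      rw [← InfinitePlace.comap_comp, ← IsScalarTower.algebraMap_eq]
    rw [e1, hw, InfinitePlace.comap_mk]
    congr 1
    ext y
    exact hι y
  obtain ⟨p, hp⟩ := exists_below (F := F) (Λ.u i)
  have hp2 : (Sum.inl (w.comap (algebraMap F H)) : InfinitePlace F ⊕ HeightOneSpectrum (𝓞 F)) = p :=
    below_of_conj (p := Sum.inl (w.comap (algebraMap F H))) (w := Sum.inl w) rfl hp hi
  subst hp2
  -- the meaning of `Near`
  have hnear : ∀ t : Fˣ, 0 < φ (t : F) → Near Λ.N (Λ.u i) t := by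
    intro t ht
    rcases hu : Λ.u i with w' | w'
    · rw [hu] at hp
      have hp3 : w'.comap (algebraMap F H) = w.comap (algebraMap F H) := hp
      intro φ' hφ'
      rw [hp3, hwF] at hφ'
      have hφφ : φ' = φ := by
        have hinj : ∀ a b : F →+* ℝ, (algebraMap ℝ ℂ).comp a = (algebraMap ℝ ℂ).comp b → a = b := by
          intro a b hab
          ext y
          have := RingHom.congr_fun hab y
          exact Complex.ofReal_injective this
        rcases InfinitePlace.mk_eq_iff.1 hφ' with h | h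
        · exact hinj _ _ h
        · apply hinj
          rw [← h]
          ext y
          exact (Complex.conj_ofReal _).symm
      rw [hφφ]
      exact ht
    · rw [hu] at hp
      exact hp.elim
  by_contra hneg
  have hneg' : φ (x : F) < 0 := lt_of_le_of_ne (not_lt.1 hneg) (by
    rw [Ne, map_eq_zero]
    exact x.ne_zero)
  have hfi : Fixes (Λ.u i) γ := Pool.Agent.H509.E3.fixes_conj hi hf
  obtain ⟨x', hx', -⟩ := Λ.approx (fun j => if j = i then γ else 1) (fun j => by
    by_cases hj : j = i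
    · rw [if_pos hj, hj]
      exact hfi
    · rw [if_neg hj]
      intro y
      rw [one_smul]) ∅ (Finset.disjoint_empty_right _) 0
  have hxi : Λ.L i x' = γ := by
    rw [hx' i, if_pos rfl]
  have hx'neg : φ (x' : F) < 0 := by
    by_contra h
    have h3 : 0 < φ (x' : F) := lt_of_le_of_ne (not_lt.1 h) (Ne.symm (by
      rw [Ne, map_eq_zero]
      exact x'.ne_zero))
    have h4 := Λ.near i x' (hnear x' h3)
    apply hχ
    rw [← hxi, h4, map_one]
  have h5 : Λ.L i (x * x') = 1 := by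
    apply Λ.near
    apply hnear
    rw [Units.val_mul, map_mul]
    exact mul_pos_of_neg_of_neg hneg' hx'neg
  rw [map_mul, hxi] at h5
  have h6 : χ (Λ.L i x) * χ γ = 1 := by rw [← map_mul, h5, map_one]
  rw [hx i, one_mul] at h6
  exact hχ h6

end

/-- **HNT** -/
theorem hnt (h1 : S_LA) (h2 : S_LD) (h3 : S_HN) (h4 : S_BRK) : S_HNT := by
  intro F H G K _ _ _ _ _ _ _ _ _ _ _ _ _ τ χ hd D hG Λ x hev hx
  classical
  have hgal : IsGalois F K := Pool.Agent.K3h50.E2.isGalois_of_quad hd.quad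
  have htw : IsScalarTower F K H := hd.tower
  obtain ⟨ψ, hψ, hψ2⟩ := exists_psi hd.quad
  refine h3 h1 h2 F K ψ x hd.quad.deg hψ (posRam hd Λ x hx) ?_ ?_
  · intro v hun hns
    by_cases hv : v ∈ D.S
    · obtain ⟨N, hN, -, hgood⟩ := Pool.Agent.Q111.EX.good Pool.Agent.Q38.EX.nrm F K ψ v hun
      obtain ⟨z, hz1, hz2, -, hz4, hz5⟩ := key h4 hd Λ ψ hψ x hx hv (loc_of_nonSplit hns) hN
      have h6 := hgood z hz1 hz2
      rw [map_sub, h6, zero_sub, neg_eq_zero, art_single] at hz5
      rw [Pool.Agent.Q182.MZ.prin_eq_of_near (Λ.NS v hv) hz4]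
      by_contra hodd
      rw [Int.not_even_iff_odd] at hodd
      obtain ⟨k, hk⟩ := hodd
      have h7 : ψ (frob K v) = 1 := by
        have h8 : (ψ (frob K v)) ^ (prin z v) = 1 := by
          have := congrArg Additive.toMul hz5
          simpa using this
        rw [hk, zpow_add, zpow_mul, zpow_one, zpow_ofNat, pow_two, hψ2, one_zpow, one_mul] at h8
        exact h8
      have hsp := Pool.Agent.Q111.EX.split_of_inj ψ hψ hun h7
      obtain ⟨w, hw⟩ := (Pool.Agent.K3h25.RS.t_OVER F K v).1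
      have hw' := under_of_above hw
      exact hd.quad.ne (hsp w hw' τ (hns _ _ (by rw [act_under, hw']) hw'))
    · exact hev v hv
  · intro v hram N hN
    obtain ⟨z, hz1, hz2, hz3, -, hz5⟩ := key h4 hd Λ ψ hψ x hx (mem_S_of_ram D hram)
      (loc_of_ram hd.quad hram) hN
    exact ⟨z, hz1, hz2, hz3, hz5⟩

end Pool.Agent.H333.BT
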