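import Pool.Agent.H509.BT.Stm2
import Pool.Graph.R_pool_sql_team_seeded_3997aac3.Q182.MZ.LFa
import Pool.Graph.R_pool_sql_team_seeded_5cf16337.K3h73.E2.Places

/-!
# Project BT, LAM: the local symbols exist (`lam`)
-/

set_option autoImplicit false
set_option linter.unusedSectionVars false
set_option linter.deprecated false

open NumberField IsDedekindDomain Filter Topology Module

noncomputable section

namespace Pool.Agent.H221.BT

open Pool.Agent.BT9
open Pool.Agent.Q92.AR (Dv prin Pr Ray nmD nu up sD puD Cong Pos frob IsFrobenius Unramified Ram art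
  prin_mul prin_one prin_inv prin_div)
open Pool.Agent.Q20.EX (Inert CongAt)
open Pool.Agent.K3h30.RS
open Pool.Agent.K3h56.E2 (Quad Dict)
open Pool.Agent.K3h73.E2 (Below exists_below exists_over below_unique conj_of_below below_of_conj)
open Pool.Agent.Q38.EX (near_one near_mul near_inv near_div val_nat_lt_one val_nat_ne_zero approx)

section one
variable {F : Type} [Field F] [NumberField F]

/-- the places of `F` -/
abbrev Pl (F : Type) [Field F] [NumberField F] : Type := InfinitePlace F ⊕ HeightOneSpectrum (𝓞 F)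

/-- the place of a real embedding -/
def rp (φ : F →+* ℝ) : InfinitePlace F := InfinitePlace.mk ((algebraMap ℝ ℂ).comp φ)

theorem rp_inj {φ φ' : F →+* ℝ} (h : rp φ = rp φ') : φ = φ' := by
  have hinj : Function.Injective (algebraMap ℝ ℂ) := (algebraMap ℝ ℂ).injective
  rcases InfinitePlace.mk_eq_iff.1 h with h | h
  · ext x
    exact hinj (RingHom.congr_fun h x)
  · ext x
    have h1 := RingHom.congr_fun h x
    rw [ComplexEmbedding.conjugate_coe_eq] at h1
    have h2 : (starRingEnd ℂ) ((algebraMap ℝ ℂ) (φ x)) = (algebraMap ℝ ℂ) (φ x) :=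
      Complex.conj_ofReal _
    have h3 : (algebraMap ℝ ℂ) (φ x) = (algebraMap ℝ ℂ) (φ' x) := by
      rw [← h2]
      exact h1
    exact hinj h3

/-- `x` is near one at the place `p` -/
def Nr (N : ℕ) : Pl F → Fˣ → Prop
  | Sum.inl v, x => ∀ φ : F →+* ℝ, rp φ = v → 0 < φ (x : F)
  | Sum.inr v, x => (N : 𝓞 F) ∈ v.asIdeal → v.valuation F ((x : F) - 1) ≤ v.valuation F (N : F)

theorem Nr.one (N : ℕ) (p : Pl F) : Nr N p 1 := by
  rcases p with v | v
  · intro φ _
    rw [Units.val_one, map_one]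
    exact one_pos
  · intro _
    rw [Units.val_one, sub_self, map_zero]
    exact zero_le

theorem Nr.mul {N : ℕ} {p : Pl F} {x y : Fˣ} (hx : Nr N p x) (hy : Nr N p y) : Nr N p (x * y) := by
  rcases p with v | v
  · intro φ h
    rw [Units.val_mul, map_mul]
    exact mul_pos (hx φ h) (hy φ h)
  · intro h
    rw [Units.val_mul]
    exact near_mul _ (val_nat_lt_one h) (hx h) (hy h)

theorem Nr.inv {N : ℕ} {p : Pl F} {x : Fˣ} (hx : Nr N p x) : Nr N p x⁻¹ := by
  rcases p with v | v
  · intro φ h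
    rw [Units.val_inv_eq_inv_val, map_inv₀]
    exact inv_pos.2 (hx φ h)
  · intro h
    rw [Units.val_inv_eq_inv_val]
    exact near_inv _ (val_nat_lt_one h) (hx h)

theorem Nr.div {N : ℕ} {p : Pl F} {x y : Fˣ} (hx : Nr N p x) (hy : Nr N p y) : Nr N p (x / y) := by
  rw [div_eq_mul_inv]
  exact hx.mul hy.inv

theorem Nr.prod {N : ℕ} {p : Pl F} {ι : Type} (s : Finset ι) (z : ι → Fˣ)
    (h : ∀ i ∈ s, Nr N p (z i)) : Nr N p (∏ i ∈ s, z i) := by
  classical
  induction s using Finset.induction_on with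
  | empty =>
    rw [Finset.prod_empty]
    exact Nr.one N p
  | insert a s ha ih =>
    rw [Finset.prod_insert ha]
    exact (h a (Finset.mem_insert_self _ _)).mul (ih fun i hi => h i (Finset.mem_insert_of_mem hi))

theorem nr_all {N : ℕ} {x : Fˣ} (h : ∀ p, Nr N p x) : Pos (x : F) ∧ Cong N (x : F) :=
  ⟨fun φ => h (Sum.inl (rp φ)) φ rfl, fun v hv => h (Sum.inr v) hv⟩

/-- approximation with signs -/
theorem apS {N : ℕ} (hN : N ≠ 0) (y : HeightOneSpectrum (𝓞 F) → Fˣ) (s : (F →+* ℝ) → Prop) :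
    ∃ z : Fˣ, (∀ w : HeightOneSpectrum (𝓞 F), (N : 𝓞 F) ∈ w.asIdeal →
      w.valuation F ((z : F) / (y w : F) - 1) ≤ w.valuation F (N : F)) ∧
      ∀ φ : F →+* ℝ, 0 < φ (z : F) ↔ s φ := by
  obtain ⟨z, hz⟩ := approx hN y
  obtain ⟨c, hc1, hc2⟩ := Pool.Agent.Q84.AR.sgn F N hN (fun φ => (0 < φ (z : F) ↔ s φ))
  refine ⟨z * c, ?_, ?_⟩
  · intro w hw
    have h1 : ((z * c : Fˣ) : F) / (y w : F) = (z : F) / (y w : F) * (c : F) := by
      rw [Units.val_mul, mul_div_right_comm]
    rw [h1]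
    exact near_mul _ (val_nat_lt_one hw) (hz w hw) (hc1 w hw)
  · intro φ
    rw [Units.val_mul, map_mul]
    have hz0 : φ (z : F) ≠ 0 := by
      rw [Ne, map_eq_zero]
      exact z.ne_zero
    have hc0 : φ (c : F) ≠ 0 := by
      rw [Ne, map_eq_zero]
      exact c.ne_zero
    by_cases h1 : 0 < φ (z : F)
    · rw [mul_pos_iff_of_pos_left h1, hc2 φ]
      exact ⟨fun h => h.1 h1, fun h => ⟨fun _ => h, fun _ => h1⟩⟩
    · have h2 : φ (z : F) < 0 := lt_of_le_of_ne (not_lt.1 h1) hz0
      by_cases h3 : 0 < φ (c : F)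
      · have h4 := (hc2 φ).1 h3
        have h5 : ¬ (0 < φ (z : F) * φ (c : F)) := not_lt.2 (mul_nonpos_of_nonpos_of_nonneg h2.le h3.le)
        exact ⟨fun h => absurd h h5, fun h => absurd (h4.2 h) h1⟩
      · have h4 : φ (c : F) < 0 := lt_of_le_of_ne (not_lt.1 h3) hc0
        have h5 : ¬ (0 < φ (z : F) ↔ s φ) := fun h => h3 ((hc2 φ).2 h)
        refine ⟨fun _ => ?_, fun _ => mul_pos_of_neg_of_neg h2 h4⟩
        by_contra h6
        exact h5 ⟨fun h => absurd h h1, fun h => absurd h h6⟩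

/-- an element near `x` at `p` and near `1` at the other places -/
theorem exAp {N : ℕ} (hN : N ≠ 0) (p : Pl F) (x : Fˣ) :
    ∃ z : Fˣ, Nr N p (x / z) ∧ ∀ q, q ≠ p → Nr N q z := by
  classical
  rcases p with v | v
  · obtain ⟨z, h1, h2⟩ := apS hN (fun _ => (1 : Fˣ)) (fun φ => rp φ = v → 0 < φ (x : F))
    refine ⟨z, ?_, ?_⟩
    · intro φ hφ
      rw [Units.val_div_eq_div_val, map_div₀]
      have hz0 : φ (z : F) ≠ 0 := by
        rw [Ne, map_eq_zero]
        exact z.ne_zero
      have hx0 : φ (x : F) ≠ 0 := by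
        rw [Ne, map_eq_zero]
        exact x.ne_zero
      by_cases h : 0 < φ (x : F)
      · exact div_pos h ((h2 φ).2 fun _ => h)
      · have h3 : φ (x : F) < 0 := lt_of_le_of_ne (not_lt.1 h) hx0
        have h4 : ¬ 0 < φ (z : F) := fun h5 => h ((h2 φ).1 h5 hφ)
        exact div_pos_of_neg_of_neg h3 (lt_of_le_of_ne (not_lt.1 h4) hz0)
    · rintro (v' | w) hq
      · intro φ hφ
        refine (h2 φ).2 fun h => absurd ?_ hq
        rw [← hφ, h]
      · intro hw
        have h3 := h1 w hw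
        rwa [Units.val_one, div_one] at h3
  · obtain ⟨z, h1, h2⟩ := apS hN (fun w => if w = v then x else 1) (fun _ => True)
    refine ⟨z, ?_, ?_⟩
    · intro hv
      have h3 := h1 v hv
      rw [if_pos rfl] at h3
      have h4 := near_inv _ (val_nat_lt_one hv) h3
      rw [inv_div] at h4
      rw [Units.val_div_eq_div_val]
      exact h4
    · rintro (v' | w) hq
      · intro φ _
        exact (h2 φ).2 trivial
      · intro hw
        have h3 := h1 w hw
        have hne : w ≠ v := fun h => hq (by rw [h])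
        rw [if_neg hne] at h3
        rwa [Units.val_one, div_one] at h3

/-- a prime ideal which does not divide `N` -/
theorem exists_prime_not {N : ℕ} (hN : N ≠ 0) :
    ∃ v : HeightOneSpectrum (𝓞 F), (N : 𝓞 F) ∉ v.asIdeal := by
  have h1 := Pool.Agent.Q125.AR.finite_dvd (F := F) hN
  obtain ⟨p, hp1, hp2⟩ := Nat.exists_infinite_primes (N + 1)
  have hp : (p : 𝓞 F) ≠ 0 := Nat.cast_ne_zero.2 hp2.ne_zero
  have hu : ¬ IsUnit (p : 𝓞 F) := by
    intro h
    have h2 := h.map (Algebra.norm ℤ : 𝓞 F →* ℤ)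
    have h3 : Algebra.norm ℤ ((p : ℤ) : 𝓞 F) = (p : ℤ) ^ (Module.finrank ℤ (𝓞 F)) := by
      have := Algebra.norm_algebraMap (R := ℤ) (S := 𝓞 F) (p : ℤ)
      simpa using this
    have h4 : ((p : ℤ) : 𝓞 F) = (p : 𝓞 F) := by push_cast; rfl
    have h5 : Algebra.norm ℤ (p : 𝓞 F) = (p : ℤ) ^ (Module.finrank ℤ (𝓞 F)) := by rw [← h4, h3]
    rw [h5, Int.isUnit_iff_natAbs_eq, Int.natAbs_pow, Int.natAbs_natCast] at h2
    have h6 : Module.finrank ℤ (𝓞 F) ≠ 0 := by
      rw [RingOfIntegers.rank]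
      exact Module.finrank_pos.ne'
    exact hp2.one_lt.ne' ((pow_eq_one_iff.1 h2).resolve_right h6)
  obtain ⟨M, hM, hle⟩ := Ideal.exists_le_maximal (Ideal.span {(p : 𝓞 F)}) (by
    rw [Ne, Ideal.span_singleton_eq_top]
    exact hu)
  have hpM : (p : 𝓞 F) ∈ M := hle (Ideal.mem_span_singleton_self _)
  have hne : M ≠ ⊥ := by
    rintro rfl
    exact hp (by simpa using hpM)
  refine ⟨⟨M, hM.isPrime, hne⟩, fun hNM => ?_⟩
  have hco : Nat.Coprime N p := by
    rw [Nat.coprime_comm, Nat.Prime.coprime_iff_not_dvd hp2]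
    intro hd
    have := Nat.le_of_dvd (Nat.pos_of_ne_zero hN) hd
    omega
  have hb := Nat.isCoprime_iff_coprime.2 hco
  obtain ⟨a, b, hab⟩ := hb
  have h7 : (a : 𝓞 F) * (N : 𝓞 F) + (b : 𝓞 F) * (p : 𝓞 F) = 1 := by
    have h8 := congrArg (fun t : ℤ => (t : 𝓞 F)) hab
    push_cast at h8
    exact h8
  have h9 : (1 : 𝓞 F) ∈ M := by
    rw [← h7]
    exact M.add_mem (M.mul_mem_left _ hNM) (M.mul_mem_left _ hpM)
  exact hM.ne_top ((Ideal.eq_top_iff_one _).2 h9)

end one

section two
variable {F H G : Type} [Field F] [NumberField F] [Field H] [NumberField H] [Algebra F H]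
  [CommGroup G] [Finite G] [MulSemiringAction G H]

/-- the symbol of the divisor of an element -/
def frP (D : RubinData F H G) : Fˣ →* G where
  toFun x := fr D (prin x)
  map_one' := by rw [prin_one, fr_zero]
  map_mul' x y := by rw [prin_mul, fr_add]

theorem frP_apply (D : RubinData F H G) (x : Fˣ) : frP D x = fr D (prin x) := rfl

variable {D : RubinData F H G} {N : ℕ}

theorem frP_one (M : Mod D N) {z : Fˣ} (h : ∀ p, Nr N p z) : frP D z = 1 := by
  obtain ⟨v, hv⟩ := exists_prime_not (F := F) M.n0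
  obtain ⟨h1, h2⟩ := nr_all h
  refine M.recU z v h1 (fun w _ hw => h2 w hw) ?_ ?_
  · by_contra hu
    exact hv (M.ram v hu)
  · intro hS
    exact absurd (M.inS v hS) hv

/-- the symbol at the place `p` -/
def Ls (M : Mod D N) (p : Pl F) (x : Fˣ) : G := frP D (Classical.choose (exAp M.n0 p x))

theorem Ls_eq (M : Mod D N) (p : Pl F) {x z : Fˣ} (h1 : Nr N p (x / z))
    (h2 : ∀ q, q ≠ p → Nr N q z) : Ls M p x = frP D z := by
  obtain ⟨k1, k2⟩ := Classical.choose_spec (exAp M.n0 p x)
  unfold Ls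
  generalize Classical.choose (exAp M.n0 p x) = z' at k1 k2
  have h3 : frP D (z' / z) = 1 := by
    refine frP_one M fun q => ?_
    by_cases hq : q = p
    · rw [hq]
      have h4 : z' / z = (x / z) / (x / z') := by
        rw [div_div_div_cancel_left]
      rw [h4]
      exact h1.div k1
    · exact (k2 q hq).div (h2 q hq)
  rw [map_div] at h3
  exact div_eq_one.1 h3

/-- the symbol at the place `p` as a homomorphism -/
def LsH (M : Mod D N) (p : Pl F) : Fˣ →* G where
  toFun := Ls M p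
  map_one' := by
    rw [Ls_eq M p (x := 1) (z := 1) (by rw [div_one]; exact Nr.one N p)
      (fun q _ => Nr.one N q), map_one]
  map_mul' x y := by
    obtain ⟨z, h1, h2⟩ := exAp M.n0 p x
    obtain ⟨z', h1', h2'⟩ := exAp M.n0 p y
    rw [Ls_eq M p h1 h2, Ls_eq M p h1' h2', Ls_eq M p (x := x * y) (z := z * z') ?_
      (fun q hq => (h2 q hq).mul (h2' q hq)), map_mul]
    have h3 : x * y / (z * z') = (x / z) * (y / z') := by rw [mul_div_mul_comm]
    rw [h3]
    exact h1.mul h1'

theorem LsH_eq (M : Mod D N) (p : Pl F) {x z : Fˣ} (h1 : Nr N p (x / z))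
    (h2 : ∀ q, q ≠ p → Nr N q z) : LsH M p x = frP D z := Ls_eq M p h1 h2

theorem LsH_near (M : Mod D N) (p : Pl F) {x : Fˣ} (h : Nr N p x) : LsH M p x = 1 := by
  rw [LsH_eq M p (z := 1) (by rwa [div_one]) (fun q _ => Nr.one N q), map_one]

theorem LsH_prod (M : Mod D N) (P : Finset (Pl F)) (hP : ∀ q, q ∉ P → ∀ y, Nr N q y) (x : Fˣ) :
    ∏ p ∈ P, LsH M p x = frP D x := by
  classical
  choose z h1 h2 using fun p : Pl F => exAp M.n0 p x
  have h3 : ∏ p ∈ P, LsH M p x = frP D (∏ p ∈ P, z p) := by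
    rw [map_prod]
    exact Finset.prod_congr rfl fun p _ => LsH_eq M p (h1 p) (h2 p)
  have h4 : frP D (x / ∏ p ∈ P, z p) = 1 := by
    refine frP_one M fun q => ?_
    by_cases hq : q ∈ P
    · rw [← Finset.mul_prod_erase P z hq, ← div_div]
      refine (h1 q).div (Nr.prod _ _ fun i hi => h2 i q ?_)
      exact (Finset.ne_of_mem_erase hi).symm
    · exact hP q hq _
  rw [h3, eq_comm]
  rw [map_div] at h4
  exact div_eq_one.1 h4

/-- characters detect subgroups -/
theorem char_mem (P : Subgroup G) (g : G)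
    (h : ∀ ψ : G →* ℂˣ, (∀ γ ∈ P, ψ γ = 1) → ψ g = 1) : g ∈ P := by
  by_contra hg
  have h1 : (QuotientGroup.mk g : G ⧸ P) ≠ 1 := by
    rw [Ne, QuotientGroup.eq_one_iff]
    exact hg
  have : NeZero (Monoid.exponent (G ⧸ P)) := inferInstance
  obtain ⟨ψ, hψ⟩ := CommGroup.exists_apply_ne_one_of_hasEnoughRootsOfUnity (G ⧸ P) ℂ h1
  exact hψ (h (ψ.comp (QuotientGroup.mk' P)) fun γ hγ => by
    rw [MonoidHom.comp_apply, QuotientGroup.mk'_apply, (QuotientGroup.eq_one_iff γ).2 hγ, map_one])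

/-- the decomposition group -/
def FixG (w : Place H) : Subgroup G where
  carrier := {γ | Fixes w γ}
  mul_mem' {a b} ha hb x := by rw [mul_smul, ha, hb]
  one_mem' x := by rw [one_smul]
  inv_mem' {a} ha x := by rw [← ha (a⁻¹ • x), smul_inv_smul]

theorem mem_FixG {w : Place H} {γ : G} : γ ∈ (FixG w : Subgroup G) ↔ Fixes w γ := Iff.rfl

theorem below_inl {v : InfinitePlace F} {w : Place H} (h : Below (Sum.inl v) w) :
    ∃ w' : InfinitePlace H, w = Sum.inl w' ∧ w'.comap (algebraMap F H) = v := by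
  rcases w with w | w
  · exact ⟨w, rfl, h⟩
  · exact h.elim

theorem below_inr {v : HeightOneSpectrum (𝓞 F)} {w : Place H} (h : Below (Sum.inr v) w) :
    ∃ w' : HeightOneSpectrum (𝓞 H), w = Sum.inr w' ∧ Above {v} w' := by
  rcases w with w | w
  · exact h.elim
  · exact ⟨w, rfl, h⟩

theorem above_under (w : HeightOneSpectrum (𝓞 H)) : Above {w.under (𝓞 F)} w :=
  above_singleton.2 rfl

variable [IsGaloisGroup G F H]

theorem LsH_dec (M : Mod D N) (p : Pl F) (w : Place H) (hw : Below p w) (x : Fˣ) :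
    Fixes w (LsH M p x) := by
  rw [← mem_FixG]
  rcases p with v | v
  · obtain ⟨w', rfl, hw'⟩ := below_inl hw
    by_cases hv : ∃ φ : F →+* ℝ, rp φ = v
    · obtain ⟨φ, hφ⟩ := hv
      obtain ⟨z, h1, h2⟩ := exAp M.n0 (Sum.inl v) x
      rw [LsH_eq M _ h1 h2]
      refine char_mem _ _ fun ψ hψ => ?_
      refine M.recR ψ z φ (fun u hu => h2 (Sum.inr u) (by simp) hu) (fun φ' hne => ?_)
        (fun u hu γ hγ => ?_)
      · refine h2 (Sum.inl (rp φ')) (fun h => hne ?_) φ' rfl
        rw [← hφ] at h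
        exact rp_inj (Sum.inl_injective h)
      · refine hψ γ ?_
        rw [mem_FixG]
        have h3 : Below (Sum.inl v : Pl F) (Sum.inl u : Place H) := by
          change u.comap (algebraMap F H) = v
          rw [← hφ]
          exact hu.symm
        exact Pool.Agent.K3h73.E2.fixes_conj (conj_of_below hw h3) hγ
    · rw [LsH_near M _ (fun φ hφ => absurd ⟨φ, hφ⟩ hv)]
      exact Subgroup.one_mem _
  · obtain ⟨w', rfl, hw'⟩ := below_inr hw
    obtain ⟨z, h1, h2⟩ := exAp M.n0 (Sum.inr v) x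
    rw [LsH_eq M _ h1 h2]
    refine char_mem _ _ fun ψ hψ => ?_
    refine M.recF ψ z v (fun φ => h2 (Sum.inl (rp φ)) (by simp) φ rfl) (fun u hu hN => ?_)
      (fun u hu γ hγ => ?_)
    · refine h2 (Sum.inr u) (fun h => hu ?_) hN
      exact Sum.inr_injective h
    · refine hψ γ ?_
      rw [mem_FixG]
      have h3 : Below (Sum.inr v : Pl F) (Sum.inr u : Place H) := by
        change Above {v} u
        rw [← hu]
        exact above_under u
      exact Pool.Agent.K3h73.E2.fixes_conj (conj_of_below hw h3) hγ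

theorem LsH_split (M : Mod D N) (p : Pl F) (j : Fin D.r) (h : Below p (D.w j)) (x : Fˣ) :
    LsH M p x = 1 := D.splits j _ (LsH_dec M p _ h x)

theorem LsH_unr (M : Mod D N) (v : HeightOneSpectrum (𝓞 F)) (hu : Unramified H v) (x : Fˣ)
    (hx : v ∈ D.S → Even (prin x v)) : LsH M (Sum.inr v) x = 1 := by
  obtain ⟨z, h1, h2⟩ := exAp M.n0 (Sum.inr v) x
  rw [LsH_eq M _ h1 h2]
  refine M.recU z v (fun φ => h2 (Sum.inl (rp φ)) (by simp) φ rfl) (fun u hu hN => ?_) hu
    (fun hS => ?_)
  · refine h2 (Sum.inr u) (fun h => hu ?_) hN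
    exact Sum.inr_injective h
  · have hN := M.inS v hS
    have h3 := h1 hN
    rw [Units.val_div_eq_div_val] at h3
    rw [← Pool.Agent.Q182.MZ.prin_eq_of_near hN h3]
    exact hx hS

theorem LsH_surj (hSur : S_SUR) (hG : ∀ g : G, g * g = 1) (M : Mod D N) (p : Pl F) (w : Place H)
    (hw : Below p w) (hS : InS (D.S : Set (HeightOneSpectrum (𝓞 F))) w) {γ : G} (hγ : Fixes w γ) :
    ∃ y, LsH M p y = γ := by
  by_contra hcon
  have h1 : ¬ γ ∈ (LsH M p).range := fun h => hcon h
  have h2 : ∃ ψ : G →* ℂˣ, (∀ g ∈ (LsH M p).range, ψ g = 1) ∧ ψ γ ≠ 1 := by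
    by_contra h3
    push Not at h3
    exact h1 (char_mem _ _ h3)
  obtain ⟨ψ, h3, h4⟩ := h2
  obtain ⟨k1, k2⟩ := hSur F H G D hG N M ψ γ h4
  rcases p with v | v
  · obtain ⟨w', rfl, hw'⟩ := below_inl hw
    obtain ⟨φ, hφ, z, m1, -, m2, m3⟩ := k2 w' hγ
    have h5 : rp φ = v := by rw [← hw', ← hφ]; rfl
    refine m3 ?_
    rw [← frP_apply, ← LsH_eq M (Sum.inl v) (x := z) (z := z)]
    · exact h3 _ ⟨z, rfl⟩
    · rw [div_self']
      exact Nr.one N _
    · rintro (q | q) hq
      · intro φ' hφ'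
        refine m2 φ' fun h => hq ?_
        rw [← hφ', h, h5]
      · exact fun hN => m1 q hN
  · obtain ⟨w', rfl, hw'⟩ := below_inr hw
    have h5 : w'.under (𝓞 F) = v := HeightOneSpectrum.ext (above_singleton.1 hw')
    obtain ⟨z, m1, m2, m3⟩ := k1 w' (by
      obtain ⟨v', hv', h6⟩ := hS
      have h7 : w'.under (𝓞 F) = v' := HeightOneSpectrum.ext h6
      rw [h7]
      exact hv') hγ
    refine m3 ?_
    rw [← frP_apply, ← LsH_eq M (Sum.inr v) (x := z) (z := z)]
    · exact h3 _ ⟨z, rfl⟩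
    · rw [div_self']
      exact Nr.one N _
    · rintro (q | q) hq
      · intro φ' _
        exact m1 φ'
      · intro hN
        refine m2 q (fun h => hq ?_) hN
        rw [← h5]
        exact congrArg Sum.inr h

end two

section norm
variable {F H G : Type} [Field F] [NumberField F] [Field H] [NumberField H] [Algebra F H]
  [CommGroup G] [Finite G] [MulSemiringAction G H] [IsGaloisGroup G F H]
  {D : RubinData F H G} {N : ℕ}

/-- an element which fixes an archimedean place of `H` over a real place which extends to a real place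
of `K` is trivial on `K` -/
theorem no_real {K : Type} [Field K] [NumberField K] [Algebra F K] [Algebra K H] {τ : K ≃ₐ[F] K}
    {χ : G →* ℂˣ} (hd : Dict F H G K τ χ) {w : InfinitePlace H} {φ : F →+* ℝ}
    (hw : w.comap (algebraMap F H) = rp φ) {γ : G} (hγ : Fixes (Sum.inl w : Place H) γ)
    (hχ : χ γ ≠ 1) : ¬ ∃ θ : K →+* ℝ, θ.comp (algebraMap F K) = φ := by
  rintro ⟨θ, hθ⟩
  have htw : IsScalarTower F K H := hd.tower
  obtain ⟨u, hu'⟩ := InfinitePlace.comap_surjective (k := K) (K := H) (rp θ)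
  have hu : u.comap (algebraMap K H) = rp θ := hu'
  have h1 : u.comap (algebraMap F H) = rp φ := by
    rw [IsScalarTower.algebraMap_eq F K H, InfinitePlace.comap_comp, hu]
    change (InfinitePlace.mk _).comap _ = _
    rw [InfinitePlace.comap_mk, ← hθ]
    rfl
  have h2 : Fixes (Sum.inl u : Place H) γ := by
    have k1 : Below (Sum.inl (rp φ) : Pl F) (Sum.inl w : Place H) := hw
    have k2 : Below (Sum.inl (rp φ) : Pl F) (Sum.inl u : Place H) := h1
    exact Pool.Agent.K3h73.E2.fixes_conj (conj_of_below k2 k1) hγ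
  have h3 : ∀ x : H, u (γ • x) = u x := by
    intro x
    have h4 : u (γ • x) ^ u.mult = u x ^ u.mult := h2 x
    exact (pow_left_inj₀ (apply_nonneg _ _) (apply_nonneg _ _) InfinitePlace.mult_pos.ne').1 h4
  -- the embedding
  let ι : H →+* ℂ := u.embedding
  have hιu : InfinitePlace.mk ι = u := InfinitePlace.mk_embedding u
  have hιK : ∀ k : K, ι (algebraMap K H k) = ((θ k : ℝ) : ℂ) := by
    intro k
    have h5 : InfinitePlace.mk (ι.comp (algebraMap K H)) =
        InfinitePlace.mk ((algebraMap ℝ ℂ).comp θ) := by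
      rw [← InfinitePlace.comap_mk, hιu, hu]
      rfl
    rcases InfinitePlace.mk_eq_iff.1 h5 with h6 | h6
    · exact RingHom.congr_fun h6 k
    · have h7 := RingHom.congr_fun h6 k
      rw [ComplexEmbedding.conjugate_coe_eq] at h7
      have h8 := congrArg (starRingEnd ℂ) h7
      rw [Complex.conj_conj] at h8
      rw [RingHom.comp_apply] at h8
      rw [h8]
      exact Complex.conj_ofReal _
  let γ' : H →+* H := MulSemiringAction.toRingHom G H γ
  have hγ' : ∀ x, γ' x = γ • x := fun x => rfl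
  have h9 : InfinitePlace.mk (ι.comp γ') = InfinitePlace.mk ι := by
    rw [hιu]
    ext x
    rw [InfinitePlace.apply, RingHom.comp_apply, hγ', ← InfinitePlace.apply, hιu, h3]
  have h10 : ∀ k : K, θ (τ k) = θ k := by
    intro k
    have e1 : γ • algebraMap K H k = algebraMap K H (τ k) := hd.neg γ hχ k
    have hinj : Function.Injective (algebraMap ℝ ℂ) := (algebraMap ℝ ℂ).injective
    rcases InfinitePlace.mk_eq_iff.1 h9 with h6 | h6
    · have h7 := RingHom.congr_fun h6 (algebraMap K H k)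
      rw [RingHom.comp_apply, hγ', e1, hιK, hιK] at h7
      exact hinj h7
    · have h7 := RingHom.congr_fun h6 (algebraMap K H k)
      rw [ComplexEmbedding.conjugate_coe_eq, RingHom.comp_apply, hγ', e1, hιK, hιK,
        Complex.conj_ofReal] at h7
      exact hinj h7
  exact hd.quad.ne (AlgEquiv.ext fun k => θ.injective (h10 k))

theorem LsH_norm (hNsy : S_NSY) (hG : ∀ g : G, g * g = 1) (M : Mod D N) (p : Pl F) (w : Place H)
    (hw : Below p w) (hS : InS (D.S : Set (HeightOneSpectrum (𝓞 F))) w)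
    (K : Type) [Field K] [NumberField K] [Algebra F K] [Algebra K H] (τ : K ≃ₐ[F] K)
    (χ : G →* ℂˣ) (hd : Dict F H G K τ χ) (y : Kˣ) : χ (LsH M p (nu F K y)) = 1 := by
  rcases p with v | v
  · obtain ⟨w', rfl, hw'⟩ := below_inl hw
    by_cases hfix : ∀ γ, Fixes (Sum.inl w' : Place H) γ → χ γ = 1
    · exact hfix _ (LsH_dec M _ _ hw _)
    · push Not at hfix
      obtain ⟨γ, h1, h2⟩ := hfix
      have h3 : Nr N (Sum.inl v) (nu F K y) := fun φ hφ =>
        (Pool.Agent.Q106.AR.nm F K).2.2.2.2.1 φ y (no_real hd (by rw [hw', hφ]) h1 h2)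
      rw [LsH_near M _ h3, map_one]
  · obtain ⟨w', rfl, hw'⟩ := below_inr hw
    have hvS : v ∈ D.S := by
      obtain ⟨v', hv', h6⟩ := hS
      have h7 : v = v' := HeightOneSpectrum.ext (by rw [← above_singleton.1 hw', h6])
      rw [h7]
      exact hv'
    obtain ⟨z, h1, h2⟩ := exAp M.n0 (Sum.inr v) (nu F K y)
    rw [LsH_eq M _ h1 h2]
    refine hNsy F H G K τ χ hd D hG N M y v z hvS
      (fun φ => h2 (Sum.inl (rp φ)) (by simp) φ rfl) (fun u hu hN => ?_) ?_
    · refine h2 (Sum.inr u) (fun h => hu ?_) hN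
      exact Sum.inr_injective h
    · have hN := M.inS v hvS
      have h3 := near_inv _ (val_nat_lt_one hN) (h1 hN)
      rwa [Units.val_div_eq_div_val, inv_div] at h3

end norm

section exist
variable {F : Type} [Field F] [NumberField F]

theorem exists_prin (v : HeightOneSpectrum (𝓞 F)) (n : ℤ) : ∃ x : Fˣ, prin x v = n := by
  obtain ⟨π, hπ⟩ := v.valuation_exists_uniformizer F
  have h0 : π ≠ 0 := by
    rintro rfl
    rw [map_zero] at hπ
    exact WithZero.exp_ne_zero.symm hπ
  have h1 : prin (Units.mk0 π h0) v = 1 := by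
    have h2 := Pool.Agent.Q125.AR.valuation_eq_exp (Units.mk0 π h0) v
    rw [Units.val_mk0, hπ] at h2
    have h3 := WithZero.exp_injective h2
    omega
  refine ⟨(Units.mk0 π h0) ^ n, ?_⟩
  have h4 : prin ((Units.mk0 π h0) ^ n) = n • prin (Units.mk0 π h0) :=
    (Pool.Agent.Q92.AR.prinHom (F := F)).map_zsmul n (Additive.ofMul (Units.mk0 π h0))
  rw [h4, Finsupp.smul_apply, h1, smul_eq_mul, mul_one]

/-- approximation at finitely many places: near given elements modulo `N`, and with given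
valuations at the primes in `R` -/
theorem exists_glob {N : ℕ} (hN : N ≠ 0) (Y : Pl F → Fˣ) (R : Finset (HeightOneSpectrum (𝓞 F)))
    (n : HeightOneSpectrum (𝓞 F) → ℤ) : ∃ x : Fˣ, (∀ v ∈ R, prin x v = n v) ∧
    ∀ p : Pl F, (∀ v ∈ R, p ≠ Sum.inr v) → Nr N p (x / Y p) := by
  classical
  choose π hπ using fun v : HeightOneSpectrum (𝓞 F) => exists_prin v (n v)
  set N' : ℕ := N * ∏ v ∈ R, Ideal.absNorm v.asIdeal with hN'
  have hN'0 : N' ≠ 0 := by
    refine mul_ne_zero hN (Finset.prod_ne_zero_iff.2 fun v _ => ?_)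
    rw [Ne, Ideal.absNorm_eq_zero_iff]
    exact v.ne_bot
  have hR : ∀ v ∈ R, (N' : 𝓞 F) ∈ v.asIdeal := by
    intro v hv
    have h1 : Ideal.absNorm v.asIdeal ∣ N' :=
      (Finset.dvd_prod_of_mem (fun v : HeightOneSpectrum (𝓞 F) => Ideal.absNorm v.asIdeal) hv).trans
        (Dvd.intro_left _ rfl)
    obtain ⟨c, hc⟩ := h1
    rw [hc, Nat.cast_mul]
    exact v.asIdeal.mul_mem_right _ (Ideal.absNorm_mem _)
  obtain ⟨x, h1, h2⟩ := apS hN'0 (fun w => if w ∈ R then π w else Y (Sum.inr w))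
    (fun φ => 0 < φ (Y (Sum.inl (rp φ)) : F))
  refine ⟨x, ?_, ?_⟩
  · intro v hv
    have h3 := h1 v (hR v hv)
    rw [if_pos hv] at h3
    rw [Pool.Agent.Q182.MZ.prin_eq_of_near (hR v hv) h3, hπ]
  · rintro (v | v) hp
    · intro φ hφ
      rw [Units.val_div_eq_div_val, map_div₀]
      have hx0 : φ (x : F) ≠ 0 := by
        rw [Ne, map_eq_zero]
        exact x.ne_zero
      have hy0 : φ (Y (Sum.inl v) : F) ≠ 0 := by
        rw [Ne, map_eq_zero]
        exact (Y (Sum.inl v)).ne_zero
      have h3 := h2 φ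
      rw [hφ] at h3
      by_cases h : 0 < φ (x : F)
      · exact div_pos h (h3.1 h)
      · have h4 : φ (x : F) < 0 := lt_of_le_of_ne (not_lt.1 h) hx0
        have h5 : ¬ 0 < φ (Y (Sum.inl v) : F) := fun h6 => h (h3.2 h6)
        exact div_pos_of_neg_of_neg h4 (lt_of_le_of_ne (not_lt.1 h5) hy0)
    · intro hv
      have hvR : v ∉ R := fun h => hp v h rfl
      have hv' : (N' : 𝓞 F) ∈ v.asIdeal := by
        rw [hN', Nat.cast_mul]
        exact v.asIdeal.mul_mem_right _ hv
      have h3 := h1 v hv'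
      rw [if_neg hvR] at h3
      rw [Units.val_div_eq_div_val]
      refine h3.trans ?_
      rw [hN', Nat.cast_mul, map_mul]
      refine mul_le_of_le_one_right' ?_
      have h4 := v.valuation_le_one (K := F)
        ((∏ v ∈ R, Ideal.absNorm v.asIdeal : ℕ) : 𝓞 F)
      have h5 : algebraMap (𝓞 F) F ((∏ v ∈ R, Ideal.absNorm v.asIdeal : ℕ) : 𝓞 F) =
          ((∏ v ∈ R, Ideal.absNorm v.asIdeal : ℕ) : F) := map_natCast (algebraMap (𝓞 F) F) _
      rw [← h5]
      exact h4

end exist

/-- LAM. The local symbols exist. -/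
theorem lam (h1 : S_MOD) (h2 : S_SUR) (h3 : S_NSY) : Pool.Agent.BT9.S_LAM := by
  intro F H G _ _ _ _ _ _ _ _ _ D hG
  classical
  obtain ⟨N, hN0, hN⟩ := h1 F H G D hG
  have M : Mod D N := hN N hN0 dvd_rfl
  -- the places
  choose f hf using fun a : Fin D.r => exists_below (F := F) (D.w a)
  have hfi : Function.Injective f := by
    intro a b hab
    refine D.distinct a b (conj_of_below (hf a) ?_)
    rw [hab]
    exact hf b
  set A : Finset (Pl F) := Finset.univ.disjSum D.S with hA
  have hAS : ∀ (p : Pl F) (w : Place H), Below p w →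
      (p ∈ A ↔ InS (D.S : Set (HeightOneSpectrum (𝓞 F))) w) := by
    intro p w hw
    rcases p with v | v
    · obtain ⟨w', rfl, -⟩ := below_inl hw
      rw [hA, Finset.inl_mem_disjSum]
      exact ⟨fun _ => trivial, fun _ => Finset.mem_univ _⟩
    · obtain ⟨w', rfl, hw'⟩ := below_inr hw
      rw [hA, Finset.inr_mem_disjSum]
      change _ ↔ Above _ w'
      rw [above_iff hw']
      exact Finset.mem_coe.symm
  have hfA : ∀ a, f a ∈ A := fun a => (hAS _ _ (hf a)).2 (D.inS a)
  set P : Finset (Pl F) := A \ Finset.univ.image f with hP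
  have hPA : ∀ p ∈ P, p ∈ A := fun p hp => (Finset.mem_sdiff.1 hp).1
  have hPf : ∀ p ∈ P, ∀ a, p ≠ f a := fun p hp a h =>
    (Finset.mem_sdiff.1 hp).2 (Finset.mem_image.2 ⟨a, Finset.mem_univ a, h.symm⟩)
  choose u hu using fun p : Pl F => exists_over (H := H) p
  have hin : ∀ p ∈ P, InS (D.S : Set (HeightOneSpectrum (𝓞 F))) (u p) := fun p hp =>
    (hAS _ _ (hu p)).1 (hPA p hp)
  -- surjectivity
  have hsurj : ∀ (p : Pl F) (g : G), ∃ y : Fˣ, p ∈ P → Fixes (u p) g → LsH M p y = g := by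
    intro p g
    by_cases hp : p ∈ P ∧ Fixes (u p) g
    · obtain ⟨y, hy⟩ := LsH_surj h2 hG M p (u p) (hu p) (hin p hp.1) hp.2
      exact ⟨y, fun _ _ => hy⟩
    · exact ⟨1, fun h h' => absurd ⟨h, h'⟩ hp⟩
  refine ⟨{
    ι := {p : Pl F // p ∈ P}
    fin := inferInstance
    u := fun i => u i.1
    L := fun i => LsH M i.1
    card := ?_
    ins := fun i => hin i.1 i.2
    nsp := ?_
    inj := ?_
    all := ?_
    dec := fun i x => LsH_dec M _ _ (hu i.1) x
    prod := ?_
    norm := ?_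
    N := N
    N0 := hN0
    NS := M.inS
    near := ?_
    unr := ?_
    approx := ?_ }⟩
  · rw [Nat.card_eq_fintype_card, Fintype.card_coe, hP, Finset.card_sdiff_of_subset]
    · have k1 : (Finset.univ.image f).card = D.r := by
        rw [Finset.card_image_of_injective _ hfi, Finset.card_univ, Fintype.card_fin]
      have k2 : A.card = Fintype.card (InfinitePlace F) + D.S.card := by
        rw [hA, Finset.card_disjSum, Finset.card_univ]
      have k3 : (Finset.univ.image f).card ≤ A.card := Finset.card_le_card (by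
        intro p hp
        obtain ⟨a, -, rfl⟩ := Finset.mem_image.1 hp
        exact hfA a)
      omega
    · intro p hp
      obtain ⟨a, -, rfl⟩ := Finset.mem_image.1 hp
      exact hfA a
  · rintro ⟨p, hp⟩ j hc
    exact hPf p hp j (below_of_conj (hu p) (hf j) hc)
  · rintro ⟨p, hp⟩ ⟨q, hq⟩ hc
    exact Subtype.ext (below_of_conj (hu p) (hu q) hc)
  · intro w hw hn
    obtain ⟨p, hp⟩ := exists_below (F := F) w
    have hpP : p ∈ P := by
      rw [hP, Finset.mem_sdiff]
      refine ⟨(hAS p w hp).2 hw, fun h => ?_⟩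
      obtain ⟨a, -, rfl⟩ := Finset.mem_image.1 h
      exact hn a (conj_of_below hp (hf a))
    exact ⟨⟨p, hpP⟩, conj_of_below hp (hu p)⟩
  · intro x
    have hfin := Pool.Agent.Q125.AR.finite_dvd (F := F) hN0
    set B : Finset (Pl F) := Finset.univ.disjSum (hfin.toFinset ∪ D.S) with hB
    have k1 : ∏ p ∈ B, LsH M p x = frP D x := by
      refine LsH_prod M B (fun q hq y => ?_) x
      rcases q with v | v
      · exact absurd (Finset.inl_mem_disjSum.2 (Finset.mem_univ v)) hq
      · intro hv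
        exact absurd (Finset.inr_mem_disjSum.2
          (Finset.mem_union_left _ (hfin.mem_toFinset.2 hv))) hq
    have k2 : P ⊆ B := by
      intro p hp
      have := hPA p hp
      rcases p with v | v
      · exact Finset.inl_mem_disjSum.2 (Finset.mem_univ v)
      · rw [hA, Finset.inr_mem_disjSum] at this
        exact Finset.inr_mem_disjSum.2 (Finset.mem_union_right _ this)
    have k3 : ∏ p ∈ P, LsH M p x = ∏ p ∈ B, LsH M p x := by
      refine Finset.prod_subset k2 fun p _ hp => ?_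
      by_cases hpA : p ∈ A
      · have h4 : p ∈ Finset.univ.image f := by
          by_contra h5
          exact hp (Finset.mem_sdiff.2 ⟨hpA, h5⟩)
        obtain ⟨a, -, rfl⟩ := Finset.mem_image.1 h4
        exact LsH_split M _ a (hf a) x
      · rcases p with v | v
        · exact absurd (Finset.inl_mem_disjSum.2 (Finset.mem_univ v)) hpA
        · have hvS : v ∉ D.S := fun h => hpA (Finset.inr_mem_disjSum.2 h)
          exact LsH_unr M v (Pool.Agent.H509.Rec.unr_of_squarefree (D.unramified v hvS)) x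
            (fun h => absurd h hvS)
    rw [← frP_apply, ← k1, ← k3]
    exact Finset.prod_coe_sort P fun p => LsH M p x
  · intro K _ _ _ _ τ χ hd y i
    exact LsH_norm h3 hG M i.1 _ (hu i.1) (hin i.1 i.2) K τ χ hd y
  · rintro ⟨p, hp⟩ x hx
    refine LsH_near M p ?_
    have h4 := hu p
    change Near N (u p) x at hx
    rcases p with v | v
    · obtain ⟨w', hw, hw'⟩ := below_inl h4
      rw [hw] at hx
      intro φ hφ
      refine hx φ ?_
      rw [hw', ← hφ]
      rfl
    · obtain ⟨w', hw, hw'⟩ := below_inr h4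
      rw [hw] at hx
      have h5 : w'.under (𝓞 F) = v := HeightOneSpectrum.ext (above_singleton.1 hw')
      intro _
      change (w'.under (𝓞 F)).valuation F ((x : F) - 1) ≤ (w'.under (𝓞 F)).valuation F (N : F) at hx
      rwa [h5] at hx
  · rintro ⟨p, hp⟩ w hw hur x hx
    change u p = Sum.inr w at hw
    have h4 := hu p
    rcases p with v | v
    · obtain ⟨w', hw1, -⟩ := below_inl h4
      rw [hw] at hw1
      exact absurd hw1 (by simp)
    · obtain ⟨w', hw1, hw'⟩ := below_inr h4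
      rw [hw] at hw1
      have h6 : w = w' := Sum.inr_injective hw1
      have h5 : w.under (𝓞 F) = v := by
        rw [h6]
        exact HeightOneSpectrum.ext (above_singleton.1 hw')
      rw [h5] at hur hx
      exact LsH_unr M v hur x fun _ => hx
  · intro g hg R hR n
    choose Y0 hY0 using hsurj
    obtain ⟨x, k1, k2⟩ := exists_glob hN0
      (fun p : Pl F => if h : p ∈ P then Y0 p (g ⟨p, h⟩) else 1) R n
    refine ⟨x, ?_, k1⟩
    rintro ⟨p, hp⟩
    have k3 := k2 p (fun v hv hpv => by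
      rw [hpv] at hp
      have := hPA _ hp
      rw [hA, Finset.inr_mem_disjSum] at this
      exact Finset.disjoint_left.1 hR this hv)
    have k4 := LsH_near M p k3
    rw [map_div, div_eq_one, dif_pos hp] at k4
    change LsH M p x = g ⟨p, hp⟩
    rw [k4]
    exact hY0 p _ hp (hg ⟨p, hp⟩)

end Pool.Agent.H221.BT
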