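import Pool.Graph.R_pool_sql_team_seeded_3997aac3.Q182.MZ.LFb
import Pool.Graph.R_pool_sql_team_seeded_3997aac3.Q111.EX.Fin
import Pool.Graph.R_pool_sql_team_seeded_3997aac3.Q38.EX.NrmB

/-! Project BT (helper509): job BT-LC = `Pool.Agent.Q5.MZ.S_LC`, the local component of the Artin character of a
quadratic extension at a prime which does not split is not trivial. -/

set_option autoImplicit false
set_option linter.unusedSectionVars false
set_option linter.deprecated false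

namespace Pool.Agent.H181.BT

open NumberField IsDedekindDomain Module
open Pool.Agent.Q92.AR (Dv prin Pr Ray RayD art nmD nu up puD Cong Pos frob IsFrobenius Unramified Ram
  SupF prin_mul prin_div prin_one prin_inv mem_Pr val_eq_one nmD_single art_single frob_spec)
open Pool.Agent.Q20.EX (CongAt Inert Split)
open Pool.Agent.Q5.MZ (LocN NonSplit PosRam)
open Pool.Agent.Q38.EX (near_one near_mul near_inv near_div near_prod exists_exp_le val_nat_lt_one
  val_nat_ne_zero approx nu_eq val_nat norm_cong exists_above)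
open Pool.Agent.Q125.AR (mem_under prin_eq_zero_of_valuation prin_mem_Pr Ray_mono Ram_mono
  valuation_eq_exp chi_frob)
open Pool.Agent.Q5.BR (rdeg absNorm_rdeg rdeg_pos under_eq)
open Pool.Agent.Q182.MZ (apx apxAt prin_eq_of_near artLoc pa pa_pos pa_neg nmD_pa nm_prin)

section one
variable {K : Type} [Field K] [NumberField K]

theorem exists_unif (v : HeightOneSpectrum (𝓞 K)) : ∃ π : Kˣ, prin π v = 1 := by
  obtain ⟨π, hπ⟩ := v.valuation_exists_uniformizer K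
  have h0 : π ≠ 0 := by
    rintro rfl
    rw [map_zero] at hπ
    exact WithZero.exp_ne_zero hπ.symm
  refine ⟨Units.mk0 π h0, ?_⟩
  have h := valuation_eq_exp (Units.mk0 π h0) v
  rw [Units.val_mk0, hπ] at h
  have h1 := WithZero.exp_injective h
  omega

theorem CongAt_mono {A : Set (HeightOneSpectrum (𝓞 K))} {N N' : ℕ} (h : N' ∣ N) {x : K}
    (hx : CongAt A N x) : CongAt A N' x := by
  intro v hv hN'
  obtain ⟨c, rfl⟩ := h
  have h1 : ((N' * c : ℕ) : 𝓞 K) ∈ v.asIdeal := by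
    rw [Nat.cast_mul]
    exact v.asIdeal.mul_mem_right _ hN'
  refine (hx v hv h1).trans ?_
  rw [Nat.cast_mul, map_mul]
  have h3 : v.valuation K (c : K) ≤ 1 := by
    have h4 := v.valuation_le_one (K := K) (c : 𝓞 K)
    simpa using h4
  exact mul_le_of_le_one_right' h3

theorem two_le_absNorm (v : HeightOneSpectrum (𝓞 K)) : 2 ≤ Ideal.absNorm v.asIdeal := by
  have h0 : Ideal.absNorm v.asIdeal ≠ 0 := by
    rw [Ne, Ideal.absNorm_eq_zero_iff]; exact v.ne_bot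
  have h1 : Ideal.absNorm v.asIdeal ≠ 1 := by
    rw [Ne, Ideal.absNorm_eq_one_iff]; exact v.isPrime.ne_top
  omega

end one

/-- a prime whose residue field satisfies `x ^ q = x` has degree one -/
theorem rdeg_one {k L : Type} [Field k] [NumberField k] [Field L] [NumberField L] [Algebra k L]
    (W : HeightOneSpectrum (𝓞 L))
    (h : ∀ x : 𝓞 L, x ^ Ideal.absNorm (W.under (𝓞 k)).asIdeal - x ∈ W.asIdeal) : rdeg k W = 1 := by
  classical
  have hq := two_le_absNorm (W.under (𝓞 k))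
  set q := Ideal.absNorm (W.under (𝓞 k)).asIdeal with hqdef
  have hm : W.asIdeal.IsMaximal := W.isMaximal
  let _ : Field (𝓞 L ⧸ W.asIdeal) := Ideal.Quotient.field W.asIdeal
  have hf : Finite (𝓞 L ⧸ W.asIdeal) := Ideal.finiteQuotientOfFreeOfNeBot _ W.ne_bot
  let _ : Fintype (𝓞 L ⧸ W.asIdeal) := Fintype.ofFinite _
  have h1 : Ideal.absNorm W.asIdeal = Fintype.card (𝓞 L ⧸ W.asIdeal) := by
    rw [← Nat.card_eq_fintype_card]
    rfl
  have h2 : ∀ x : 𝓞 L ⧸ W.asIdeal, x ^ q = x := by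
    intro x
    obtain ⟨a, rfl⟩ := Ideal.Quotient.mk_surjective x
    rw [← map_pow, ← sub_eq_zero, ← map_sub, Ideal.Quotient.eq_zero_iff_mem]
    exact h a
  have h3 : Fintype.card (𝓞 L ⧸ W.asIdeal) ≤ q := by
    have hp : (Polynomial.X ^ q - Polynomial.X : Polynomial (𝓞 L ⧸ W.asIdeal)) ≠ 0 :=
      FiniteField.X_pow_card_sub_X_ne_zero _ hq
    have h4 : (Finset.univ : Finset (𝓞 L ⧸ W.asIdeal)) ⊆
        (Polynomial.X ^ q - Polynomial.X : Polynomial (𝓞 L ⧸ W.asIdeal)).roots.toFinset := by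
      intro x _
      rw [Multiset.mem_toFinset, Polynomial.mem_roots hp, Polynomial.IsRoot.def]
      simp [h2 x]
    calc Fintype.card (𝓞 L ⧸ W.asIdeal) = (Finset.univ : Finset (𝓞 L ⧸ W.asIdeal)).card := rfl
      _ ≤ (Polynomial.X ^ q - Polynomial.X : Polynomial (𝓞 L ⧸ W.asIdeal)).roots.toFinset.card :=
          Finset.card_le_card h4
      _ ≤ Multiset.card (Polynomial.X ^ q - Polynomial.X :
            Polynomial (𝓞 L ⧸ W.asIdeal)).roots := Multiset.toFinset_card_le _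
      _ ≤ (Polynomial.X ^ q - Polynomial.X : Polynomial (𝓞 L ⧸ W.asIdeal)).natDegree :=
          Polynomial.card_roots' _
      _ = q := FiniteField.X_pow_card_sub_X_natDegree_eq _ hq
  have h5 := absNorm_rdeg (K := k) W
  rw [← hqdef] at h5
  rw [← h1, h5] at h3
  have h6 := rdeg_pos (K := k) W
  by_contra h7
  have h8 : 2 ≤ rdeg k W := by omega
  have h9 : q ^ 2 ≤ q ^ rdeg k W := Nat.pow_le_pow_right (by omega) h8
  have h10 : q ^ 2 ≤ q := h9.trans h3
  nlinarith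

section two
variable {k E : Type} [Field k] [NumberField k] [Field E] [NumberField E] [Algebra k E] [IsGalois k E]

/-- the unramified case -/
theorem lc_unr (ψ : (E ≃ₐ[k] E) →* ℂˣ) (v : HeightOneSpectrum (𝓞 k)) (N : ℕ)
    (hfin : finrank k E = 2) (hψ : Function.Injective ψ) (hN : N ≠ 0) (hv : (N : 𝓞 k) ∈ v.asIdeal)
    (hns : NonSplit E v) (hun : Unramified E v) :
    ∃ z : kˣ, Pos (z : k) ∧ CongAt {v}ᶜ N (z : k) ∧
      art ψ (prin z - Finsupp.single v (prin z v)) ≠ 0 := by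
  classical
  have hfr : ψ (frob E v) ≠ 1 := by
    intro h1
    have hs : Split E v := Pool.Agent.Q111.EX.split_of_inj ψ hψ hun h1
    obtain ⟨w, hw⟩ := exists_above (M := E) v
    have hcard : Nat.card (E ≃ₐ[k] E) = 2 := by
      rw [IsGalois.card_aut_eq_finrank, hfin]
    have hsub : ∀ g : E ≃ₐ[k] E, g = 1 := fun g => hs w hw g (hns _ _ (by
      rw [Pool.Agent.Q38.EX.under_act, hw]) hw)
    have hs2 : Subsingleton (E ≃ₐ[k] E) := ⟨fun a b => by rw [hsub a, hsub b]⟩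
    have h3 : Nat.card (E ≃ₐ[k] E) = 1 := Nat.card_unique
    omega
  obtain ⟨N1, hN1, hR1, h1⟩ := Pool.Agent.Q111.EX.good Pool.Agent.Q38.EX.nrm k E ψ v hun
  obtain ⟨π, hπ⟩ := exists_unif v
  obtain ⟨z, hz1, hz2, hz3⟩ := apxAt (N := N * N1) (mul_ne_zero hN hN1) v π
  have hv' : ((N * N1 : ℕ) : 𝓞 k) ∈ v.asIdeal := by
    rw [Nat.cast_mul]
    exact v.asIdeal.mul_mem_right _ hv
  have hzv : prin z v = 1 := by
    rw [← prin_eq_of_near hv' (hz3 hv'), hπ]
  refine ⟨z, hz1, CongAt_mono (Dvd.intro _ rfl) hz2, ?_⟩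
  rw [map_sub, h1 z hz1 (CongAt_mono (Dvd.intro_left _ rfl) hz2), hzv, art_single, zero_sub,
    one_smul, Ne, neg_eq_zero]
  intro h
  exact hfr (Additive.ofMul.injective h)

/-- elements of order two -/
theorem units_sq {u : ℂˣ} (h : u ^ 2 = 1) (h1 : u ≠ 1) : u = -1 := by
  have h2 : ((u : ℂ)) ^ 2 = 1 := by
    rw [← Units.val_pow_eq_pow_val, h, Units.val_one]
  have h4 : ((u : ℂ) - 1) * ((u : ℂ) + 1) = 0 := by linear_combination h2
  have h5 : (u : ℂ) = 1 ∨ (u : ℂ) = -1 := by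
    rcases mul_eq_zero.1 h4 with h6 | h6
    · exact Or.inl (sub_eq_zero.1 h6)
    · exact Or.inr (eq_neg_of_add_eq_zero_left h6)
  rcases h5 with h3 | h3
  · exact absurd (Units.ext h3) h1
  · exact Units.ext (by rw [h3]; simp)

end two

section three
variable {k E C : Type} [Field k] [NumberField k] [Field E] [NumberField E] [Field C] [NumberField C]
  [Algebra k E] [Algebra k C] [Algebra E C] [IsScalarTower k E C] [IsGalois k E] [IsGalois k C]

/-- a prime of degree one in the field cut out by `ψ1 * ρ1` -/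
theorem exists_deg_one (ψ : (E ≃ₐ[k] E) →* ℂˣ) (hψ : Function.Injective ψ) (hfin : finrank k E = 2)
    (v : HeightOneSpectrum (𝓞 k)) (hun : ¬ Unramified E v) (ρ1 : (C ≃ₐ[k] C) →* ℂˣ)
    (hρ1 : ∀ g : C ≃ₐ[k] C, IsFrobenius v g → ρ1 g = -1) (L : IntermediateField k C)
    [IsGalois k L] (θ' : (L ≃ₐ[k] L) →* ℂˣ) (hinj : Function.Injective θ')
    (hθ' : ∀ g : C ≃ₐ[k] C, θ' (AlgEquiv.restrictNormal g L) =
      ψ (AlgEquiv.restrictNormal g E) * ρ1 g) :
    ∃ W : HeightOneSpectrum (𝓞 L), W.under (𝓞 k) = v ∧ rdeg k W = 1 := by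
  classical
  -- the inertia element
  obtain ⟨w, hw, g0, hg0, x0, hx0⟩ : ∃ w : HeightOneSpectrum (𝓞 C), w.under (𝓞 k) = v ∧
      ∃ g0 : C ≃ₐ[k] C, Inert w g0 ∧ ∃ x0 : E, g0 (algebraMap E C x0) ≠ algebraMap E C x0 := by
    by_contra hcon
    push Not at hcon
    exact hun (Pool.Agent.Q111.EX.unram_of_inert (M := C) v hcon)
  have hcard : Nat.card (E ≃ₐ[k] E) = 2 := by
    rw [IsGalois.card_aut_eq_finrank, hfin]
  have hsq : ∀ g : E ≃ₐ[k] E, ψ g ^ 2 = 1 := by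
    intro g
    rw [← map_pow, ← hcard, pow_card_eq_one', map_one]
  have hψg0 : ψ (AlgEquiv.restrictNormal g0 E) = -1 := by
    refine units_sq (hsq _) fun h => hx0 ?_
    have h1 : AlgEquiv.restrictNormal g0 E = 1 := hψ (by rw [h, map_one])
    rw [← AlgEquiv.restrictNormal_commutes, h1]
    rfl
  -- a Frobenius element at `w`
  obtain ⟨φ, hφ⟩ : ∃ φ : C ≃ₐ[k] C, ∀ x : 𝓞 C, ∃ y ∈ w.asIdeal,
      (y : C) = φ x - (x : C) ^ Ideal.absNorm v.asIdeal := by
    obtain ⟨w0, hw0m, hw0v, hw0⟩ := frob_spec (M := C) v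
    have h0 : w0 ≠ ⊥ := by
      rintro rfl
      apply v.ne_bot
      rw [← hw0v, ← RingHom.ker_eq_comap_bot]
      exact (RingHom.injective_iff_ker_eq_bot _).1 (FaithfulSMul.algebraMap_injective (𝓞 k) (𝓞 C))
    obtain ⟨τ, hτ⟩ := Pool.Agent.TeamU.exists_act (k := k) (P := ⟨w0, hw0m.isPrime, h0⟩) (Q := w)
      (v := v) hw0v (under_eq hw)
    refine ⟨τ * frob C v * τ⁻¹, fun x => ?_⟩
    have hx' : IsIntegral ℤ (τ⁻¹ (x : C)) := x.2.map τ⁻¹
    obtain ⟨x', hx'⟩ : ∃ x' : 𝓞 C, (x' : C) = τ⁻¹ (x : C) := ⟨⟨_, hx'⟩, rfl⟩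
    obtain ⟨y', hy', hy2⟩ := hw0 x'
    have hy : IsIntegral ℤ (τ (y' : C)) := y'.2.map τ
    obtain ⟨y, hy⟩ : ∃ y : 𝓞 C, (y : C) = τ (y' : C) := ⟨⟨_, hy⟩, rfl⟩
    refine ⟨y, ?_, ?_⟩
    · rw [← hτ, Pool.Agent.TeamU.mem_act]
      have h4 : (RingOfIntegers.mapRingEquiv τ.toRingEquiv).symm y = y' := by
        rw [RingEquiv.symm_apply_eq]
        apply RingOfIntegers.ext
        exact hy
      rw [h4]
      exact hy'
    · rw [hy, hy2, map_sub, map_pow, hx']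
      rw [AlgEquiv.mul_apply, AlgEquiv.mul_apply, ← AlgEquiv.mul_apply τ τ⁻¹, mul_inv_cancel,
        AlgEquiv.one_apply]
  have hφ2 : ∀ x : 𝓞 C, ∃ y ∈ w.asIdeal,
      (y : C) = (g0 * φ) x - (x : C) ^ Ideal.absNorm v.asIdeal := by
    intro x
    obtain ⟨y, hy, hy2⟩ := hφ x
    have h1 : IsIntegral ℤ (φ (x : C)) := x.2.map φ
    obtain ⟨x1, hx1⟩ : ∃ x1 : 𝓞 C, (x1 : C) = φ (x : C) := ⟨⟨_, h1⟩, rfl⟩
    have h2 : IsIntegral ℤ (g0 (x1 : C)) := x1.2.map g0
    obtain ⟨x2, hx2⟩ : ∃ x2 : 𝓞 C, (x2 : C) = g0 (x1 : C) := ⟨⟨_, h2⟩, rfl⟩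
    refine ⟨x2 - x1 + y, w.asIdeal.add_mem ?_ hy, ?_⟩
    · rw [← w.valuation_lt_one_iff_mem (K := C)]
      have h3 := hg0 x1
      rw [← hx2] at h3
      exact h3
    · have h5 : ((x2 - x1 + y : 𝓞 C) : C) = (x2 : C) - (x1 : C) + (y : C) := rfl
      rw [h5, hx2, hy2, hx1, AlgEquiv.mul_apply]
      ring
  have hcomap : w.asIdeal.comap (algebraMap (𝓞 k) (𝓞 C)) = v.asIdeal := under_eq hw
  have hF1 : IsFrobenius v φ := ⟨w.asIdeal, w.isMaximal, hcomap, hφ⟩
  have hF2 : IsFrobenius v (g0 * φ) := ⟨w.asIdeal, w.isMaximal, hcomap, hφ2⟩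
  obtain ⟨Φ, hΦ, hΦθ⟩ : ∃ Φ : C ≃ₐ[k] C, (∀ x : 𝓞 C, ∃ y ∈ w.asIdeal,
      (y : C) = Φ x - (x : C) ^ Ideal.absNorm v.asIdeal) ∧
      ψ (AlgEquiv.restrictNormal Φ E) * ρ1 Φ = 1 := by
    by_cases hc : ψ (AlgEquiv.restrictNormal φ E) = 1
    · refine ⟨g0 * φ, hφ2, ?_⟩
      have h1 : AlgEquiv.restrictNormal (g0 * φ) E =
          AlgEquiv.restrictNormal g0 E * AlgEquiv.restrictNormal φ E :=
        map_mul (AlgEquiv.restrictNormalHom E) g0 φ
      rw [hρ1 _ hF2, h1, map_mul, hψg0, hc]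
      simp
    · refine ⟨φ, hφ, ?_⟩
      rw [hρ1 _ hF1, units_sq (hsq _) hc]
      simp
  have hΦL : AlgEquiv.restrictNormal Φ L = 1 := hinj (by rw [hθ', hΦθ, map_one])
  have hWu : (w.under (𝓞 L)).under (𝓞 k) = v := by
    apply HeightOneSpectrum.ext
    change ((w.asIdeal.comap (algebraMap (𝓞 L) (𝓞 C))).comap (algebraMap (𝓞 k) (𝓞 L))) = v.asIdeal
    rw [Ideal.comap_comap, ← hcomap, ← IsScalarTower.algebraMap_eq (𝓞 k) (𝓞 L) (𝓞 C)]
  refine ⟨w.under (𝓞 L), hWu, rdeg_one _ fun x => ?_⟩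
  rw [hWu]
  change algebraMap (𝓞 L) (𝓞 C) (x ^ Ideal.absNorm v.asIdeal - x) ∈ w.asIdeal
  obtain ⟨y, hy, hy2⟩ := hΦ (algebraMap (𝓞 L) (𝓞 C) x)
  have h1 : algebraMap (𝓞 L) (𝓞 C) (x ^ Ideal.absNorm v.asIdeal - x) = -y := by
    apply RingOfIntegers.ext
    change algebraMap L C ((x : L) ^ Ideal.absNorm v.asIdeal - (x : L)) = -(y : C)
    rw [hy2]
    have h2 : Φ ((algebraMap (𝓞 L) (𝓞 C) x : 𝓞 C) : C) = ((algebraMap (𝓞 L) (𝓞 C) x : 𝓞 C) : C) := by
      change Φ (algebraMap L C (x : L)) = algebraMap L C (x : L)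
      rw [← AlgEquiv.restrictNormal_commutes, hΦL]
      rfl
    rw [h2, map_sub, map_pow]
    change algebraMap L C (x : L) ^ _ - algebraMap L C (x : L) =
      -(algebraMap L C (x : L) - algebraMap L C (x : L) ^ _)
    ring
  rw [h1]
  exact w.asIdeal.neg_mem hy

end three

section four
variable {k E : Type} [Field k] [NumberField k] [Field E] [NumberField E] [Algebra k E] [IsGalois k E]

/-- the ramified case -/
theorem lc_ram (ψ : (E ≃ₐ[k] E) →* ℂˣ) (v : HeightOneSpectrum (𝓞 k)) (N : ℕ)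
    (hfin : finrank k E = 2) (hψ : Function.Injective ψ) (hN : N ≠ 0) (hv : (N : 𝓞 k) ∈ v.asIdeal)
    (hun : ¬ Unramified E v) :
    ∃ z : kˣ, Pos (z : k) ∧ CongAt {v}ᶜ N (z : k) ∧
      art ψ (prin z - Finsupp.single v (prin z v)) ≠ 0 := by
  classical
  by_contra hcon
  push Not at hcon
  have hq2 := two_le_absNorm v
  obtain ⟨m, hm0, hmc, hm⟩ := Pool.Agent.Q84.AR.ord (Ideal.absNorm v.asIdeal) 2 1 hq2
    two_ne_zero one_ne_zero
  have hmz : NeZero m := ⟨hm0⟩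
  rw [mul_one] at hmc
  have hmv : (m : 𝓞 k) ∉ v.asIdeal := Pool.Agent.Q128.AR.not_mem_of_coprime hmc
  obtain ⟨ρ, hρ⟩ := Pool.Agent.Q111.EX.exists_char (ZMod.unitOfCoprime _ hmc.symm) (-1 : ℂˣ) (by
    have h0 : orderOf (-1 : ℂˣ) ∣ 2 := orderOf_dvd_of_pow_eq_one (by simp)
    refine h0.trans (hm _ ?_)
    have h1 := pow_orderOf_eq_one (ZMod.unitOfCoprime (Ideal.absNorm v.asIdeal) hmc.symm)
    have h2 := congrArg (fun u : (ZMod m)ˣ => (u : ZMod m)) h1
    rw [Units.val_pow_eq_pow_val, ZMod.coe_unitOfCoprime, Units.val_one, ← Nat.cast_pow,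
      ← Nat.cast_one, ZMod.natCast_eq_natCast_iff] at h2
    exact h2)
  -- the field `C`
  obtain ⟨C, _, _, _, _, _, hcyc, hCgal⟩ : ∃ (C : Type) (_ : Field C) (_ : NumberField C)
      (_ : Algebra E C) (_ : Algebra k C) (_ : IsScalarTower k E C),
      IsCyclotomicExtension {m} E C ∧ IsGalois k C :=
    ⟨CyclotomicField m E, inferInstance, inferInstance, inferInstance, inferInstance,
      inferInstance, inferInstance, Pool.Agent.Q128.AR.isGalois_tower k E (CyclotomicField m E) m⟩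
  obtain ⟨ζ, hζ⟩ := IsCyclotomicExtension.exists_isPrimitiveRoot E C (Set.mem_singleton m) hm0
  let κ : (C ≃ₐ[k] C) →* (ZMod m)ˣ := hζ.autToPow k
  have hκ : ∀ g : C ≃ₐ[k] C, ζ ^ ((κ g : (ZMod m)ˣ) : ZMod m).val = g ζ := fun g =>
    hζ.autToPow_spec k g
  let C' : IntermediateField k C := IntermediateField.adjoin k {ζ}
  have hC' : IsCyclotomicExtension {m} k C' :=
    hζ.intermediateField_adjoin_isCyclotomicExtension k
  have hC'gal : IsGalois k C' := IsCyclotomicExtension.isGalois {m} k C'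
  have hζm : ζ ∈ C' := IntermediateField.mem_adjoin_simple_self k ζ
  have hζ' : IsPrimitiveRoot (⟨ζ, hζm⟩ : C') m :=
    IsPrimitiveRoot.of_map_of_injective (f := algebraMap C' C) hζ (algebraMap C' C).injective
  let κ' : (C' ≃ₐ[k] C') →* (ZMod m)ˣ := hζ'.autToPow k
  have hκ' : ∀ g : C ≃ₐ[k] C, κ' (AlgEquiv.restrictNormal g C') = κ g := by
    intro g
    have h1 := hζ'.autToPow_spec k (AlgEquiv.restrictNormal g C')
    have h2 := congrArg (algebraMap C' C) h1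
    rw [AlgEquiv.restrictNormal_commutes, map_pow] at h2
    have h3 : ζ ^ ((κ' (AlgEquiv.restrictNormal g C') : (ZMod m)ˣ) : ZMod m).val = g ζ := h2
    rw [← hκ g, Pool.Agent.Q128.AR.root_pow_iff hm0 hζ, ← ZMod.natCast_eq_natCast_iff,
      ZMod.natCast_zmod_val, ZMod.natCast_zmod_val] at h3
    exact Units.ext h3
  -- the characters
  let ψ1 : (C ≃ₐ[k] C) →* ℂˣ := ψ.comp (AlgEquiv.restrictNormalHom E)
  let ρ1 : (C ≃ₐ[k] C) →* ℂˣ := ρ.comp κ
  have hρ1 : ∀ g : C ≃ₐ[k] C, IsFrobenius v g → ρ1 g = -1 := by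
    intro g hg
    have h1 : κ g = ZMod.unitOfCoprime _ hmc.symm := by
      have h2 := Pool.Agent.Q128.AR.frob_root hg hmv hζ.1
      rw [← hκ, Pool.Agent.Q128.AR.root_pow_iff hm0 hζ, ← ZMod.natCast_eq_natCast_iff,
        ZMod.natCast_zmod_val] at h2
      exact Units.ext h2
    rw [← hρ, ← h1]
    rfl
  obtain ⟨L, hLgal, θ', hinj, hθ'⟩ := Pool.Agent.Q111.EX.exists_quot (ψ1 * ρ1)
  obtain ⟨W, hWv, hW1⟩ := exists_deg_one ψ hψ hfin v hun ρ1 hρ1 L θ' hinj hθ'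
  -- the modulus
  obtain ⟨N1, hN1, hR1, -⟩ := Pool.Agent.Q92.AR.recip k C (ψ1 * ρ1)
  obtain ⟨N2, hN2, hR2, h2⟩ := Pool.Agent.Q92.AR.recip k L θ'
  have hN0 : N * N1 * N2 * m ≠ 0 := mul_ne_zero (mul_ne_zero (mul_ne_zero hN hN1) hN2) hm0
  have hd0 : N ∣ N * N1 * N2 * m := ⟨N1 * N2 * m, by ring⟩
  have hd1 : N1 ∣ N * N1 * N2 * m := ⟨N * N2 * m, by ring⟩
  have hd2 : N2 ∣ N * N1 * N2 * m := ⟨N * N1 * m, by ring⟩
  have hd3 : m ∣ N * N1 * N2 * m := ⟨N * N1 * N2, by ring⟩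
  generalize N * N1 * N2 * m = M at hN0 hd0 hd1 hd2 hd3
  have hRC : Ram k C M := Ram_mono hd1 hR1
  have hRL : Ram k L M := Ram_mono hd2 hR2
  have hvM : (M : 𝓞 k) ∈ v.asIdeal := by
    obtain ⟨c, rfl⟩ := hd0
    rw [Nat.cast_mul]
    exact v.asIdeal.mul_mem_right _ hv
  -- the element `π` of `L`
  obtain ⟨π0, hπ0⟩ := exists_unif W
  obtain ⟨π, -, hπ⟩ := apx hN0 (fun w : HeightOneSpectrum (𝓞 L) => if w = W then π0 else 1)
  have hab : ∀ w : HeightOneSpectrum (𝓞 L), w.under (𝓞 k) = v → (M : 𝓞 L) ∈ w.asIdeal := by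
    intro w hw
    rw [← mem_under (F := k), hw]
    exact hvM
  have hπW : prin π W = 1 := by
    have h3 := hπ W (hab W hWv)
    rw [if_pos rfl] at h3
    rw [prin_eq_of_near (hab W hWv) h3, hπ0]
  have hπw : ∀ w : HeightOneSpectrum (𝓞 L), w.under (𝓞 k) = v → w ≠ W → prin π w = 0 := by
    intro w hw hne
    have h3 := hπ w (hab w hw)
    rw [if_neg hne, Units.val_one, div_one] at h3
    exact prin_eq_zero_of_valuation (val_eq_one (hab w hw) h3)
  have hpa : pa v (prin π) = Finsupp.single W (1 : ℤ) := by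
    ext w
    by_cases hw : w.under (𝓞 k) = v
    · rw [pa_pos _ hw]
      by_cases hne : w = W
      · rw [hne, hπW, Finsupp.single_eq_same]
      · rw [hπw w hw hne, Finsupp.single_eq_of_ne hne]
    · rw [pa_neg _ hw, Finsupp.single_eq_of_ne]
      rintro rfl
      exact hw hWv
  have hxv : prin (nu k L π) v = 1 := by
    have h3 := nmD_pa (k := k) v (prin π)
    rw [hpa, nmD_single, hWv, hW1, nm_prin] at h3
    have h4 := DFunLike.congr_fun h3 v
    rw [Finsupp.single_eq_same, Finsupp.single_eq_same] at h4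
    rw [← h4]
    norm_num
  have hloc : LocN L v (nu k L π) := by
    intro j
    refine ⟨π, ?_⟩
    rw [div_self (nu k L π).ne_zero, sub_self, map_zero]
    exact zero_le
  obtain ⟨z, hz1, hz2, hz3⟩ := apxAt hN0 v (nu k L π)
  have hz3 := hz3 hvM
  have hzv : prin z v = 1 := by
    rw [← prin_eq_of_near hvM hz3, hxv]
  have e0 := artLoc θ' hN0 hRL (fun x hx => h2 x (Ray_mono hd2 hx)) hvM hloc hz1 hz2 hz3
  have e00 := hcon z hz1 (CongAt_mono hd0 hz2)
  have hunr : ∀ u, (prin z - Finsupp.single v (prin z v)) u ≠ 0 → Unramified C u := by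
    intro u hu
    by_cases h : (M : 𝓞 k) ∈ u.asIdeal
    · exfalso
      apply hu
      rw [Finsupp.sub_apply]
      by_cases huv : u = v
      · rw [huv, Finsupp.single_eq_same, sub_self]
      · rw [Finsupp.single_eq_of_ne huv, sub_zero]
        exact prin_eq_zero_of_valuation (val_eq_one h (hz2 u huv h))
    · exact Pool.Agent.Q128.AR.Ram.unram hRC h
  have e3 := Pool.Agent.Q111.EX.art_quot' _ _ hθ' _ hunr
  have e4 : art ψ _ = art ψ1 _ := Pool.Agent.Q111.EX.art_quot' _ _ (fun _ => rfl) _ hunr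
  have e5 : art (ρ.comp κ') _ = art ρ1 _ :=
    Pool.Agent.Q111.EX.art_quot' _ _ (fun g => by
      change ρ (κ' _) = ρ (κ g)
      rw [hκ']) _ hunr
  have e6 : art (ρ.comp κ') (prin z) = 0 := by
    refine Pool.Agent.Q92.AR.all_Cyc k C' C' m m hm0 dvd_rfl (ρ.comp κ') z ⟨fun u hu => ?_, hz1⟩
    have hne : u ≠ v := by
      rintro rfl
      exact hmv hu
    exact CongAt_mono hd3 hz2 u hne hu
  have e7 : κ' (frob C' v) = ZMod.unitOfCoprime _ hmc.symm := by
    have h3 := Pool.Agent.Q128.AR.frob_root (frob_spec (M := C') v) hmv hζ'.1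
    rw [← hζ'.autToPow_spec k (frob C' v), Pool.Agent.Q128.AR.root_pow_iff hm0 hζ',
      ← ZMod.natCast_eq_natCast_iff, ZMod.natCast_zmod_val] at h3
    exact Units.ext h3
  have e8 : art (ρ.comp κ') (Finsupp.single v (prin z v)) = Additive.ofMul (-1 : ℂˣ) := by
    rw [hzv, art_single, one_smul, MonoidHom.comp_apply, e7, hρ]
  rw [e0, Pool.Agent.Q111.EX.art_mul, ← e4, e00, zero_add, ← e5, map_sub, e6, e8, zero_sub] at e3
  have e9 : Additive.ofMul (-1 : ℂˣ) = 0 := neg_eq_zero.1 e3.symm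
  have e10 : (-1 : ℂˣ) = 1 := Additive.ofMul.injective e9
  have e11 := congrArg (fun u : ℂˣ => (u : ℂ)) e10
  simp only [Units.val_neg, Units.val_one] at e11
  norm_num at e11

end four

/-- **JOB BT-LC** -/
theorem lc : Pool.Agent.Q5.MZ.S_LC := by
  intro k E _ _ _ _ _ _ ψ v N hfin hψ hN hv _ hns
  by_cases hun : Unramified E v
  · exact lc_unr ψ v N hfin hψ hN hv hns hun
  · exact lc_ram ψ v N hfin hψ hN hv hun

end Pool.Agent.H181.BT
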