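import Pool.Agent.H509.BT.Stm1

/-!
# Project BT: the local component at a ramified real place is not trivial
-/

set_option autoImplicit false
set_option linter.unusedSectionVars false
set_option linter.deprecated false

open NumberField IsDedekindDomain Filter Topology Module

noncomputable section

namespace Pool.Agent.H996.BT

open Pool.Agent.Q92.AR (Dv prin Pr Ray nmD nu up sD puD Cong Pos frob IsFrobenius Unramified Ram art
  prin_mul prin_one prin_inv)
open Pool.Agent.Q20.EX (Inert CongAt)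
open Pool.Agent.BT9

section

variable {F : Type} [Field F] [NumberField F]

/-- integral elements `≡ 1 mod N` with given signs -/
theorem sgn_int (N : ℕ) (hN : N ≠ 0) (s : (F →+* ℝ) → Prop) :
    ∃ a : 𝓞 F, a ≠ 0 ∧ (N : 𝓞 F) ∣ a - 1 ∧ ∀ φ : F →+* ℝ, (0 < φ (a : F) ↔ s φ) := by
  obtain ⟨z, hz⟩ := Pool.Agent.Q84.AR.exists_sign s
  obtain ⟨M, hM, w, hw⟩ := Pool.Agent.Q84.AR.exists_nat_den z
  have hMF : (0 : ℝ) < M := by exact_mod_cast Nat.pos_of_ne_zero hM
  have hwz : ∀ φ : F →+* ℝ, φ (w : F) = φ z * M := by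
    intro φ
    have h0 : (w : F) = z * (M : F) := by
      have h := hw
      rw [map_natCast] at h
      exact h.symm
    rw [h0, map_mul, map_natCast]
  have h1 : ∀ᶠ t : ℕ in atTop, ∀ φ : F →+* ℝ, (0 < 1 + (t : ℝ) * (N * φ (w : F)) ↔ s φ) := by
    rw [eventually_all]
    intro φ
    have hNR : (0 : ℝ) < N := by exact_mod_cast Nat.pos_of_ne_zero hN
    rcases lt_or_gt_of_ne (hz φ).1 with h | h
    · have h2 : ¬ s φ := fun hs => absurd ((hz φ).2.2 hs) (by linarith)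
      have h3 : (N : ℝ) * φ (w : F) < 0 := by
        rw [hwz]
        exact mul_neg_of_pos_of_neg hNR (mul_neg_of_neg_of_pos h hMF)
      have h4 : Tendsto (fun t : ℕ => 1 + (t : ℝ) * (N * φ (w : F))) atTop atBot := by
        apply tendsto_atBot_add_const_left
        exact Tendsto.atTop_mul_const_of_neg h3 tendsto_natCast_atTop_atTop
      filter_upwards [h4.eventually_lt_atBot 0] with t ht
      exact iff_of_false (by linarith) h2
    · have h2 : s φ := (hz φ).2.1 h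
      have h3 : 0 < (N : ℝ) * φ (w : F) := by
        rw [hwz]
        exact mul_pos hNR (mul_pos h hMF)
      refine Eventually.of_forall fun t => iff_of_true ?_ h2
      positivity
  have h2 : ∀ᶠ t : ℕ in atTop, 1 + (t : F) * (N * (w : F)) ≠ 0 := by
    by_cases h : ∃ t₀ : ℕ, 1 + (t₀ : F) * (N * (w : F)) = 0
    · obtain ⟨t₀, ht₀⟩ := h
      filter_upwards [eventually_gt_atTop t₀] with t ht h3
      have h4 : ((t : F) - t₀) * (N * (w : F)) = 0 := by linear_combination h3 - ht₀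
      rcases mul_eq_zero.1 h4 with h5 | h5
      · have : (t : F) = t₀ := sub_eq_zero.1 h5
        have := Nat.cast_injective this
        omega
      · rw [h5, mul_zero, add_zero] at h3
        exact one_ne_zero h3
    · push Not at h
      exact Eventually.of_forall h
  obtain ⟨t, ht1, ht2⟩ := (h1.and h2).exists
  have e : ((1 + (t : 𝓞 F) * ((N : 𝓞 F) * w) : 𝓞 F) : F) = 1 + (t : F) * (N * (w : F)) := by
    push_cast
    ring
  refine ⟨1 + (t : 𝓞 F) * ((N : 𝓞 F) * w), ?_, ?_, ?_⟩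
  · intro h0
    apply ht2
    rw [← e, h0]
    rfl
  · exact ⟨(t : 𝓞 F) * w, by ring⟩
  · intro φ
    rw [e, map_add, map_one, map_mul, map_mul, map_natCast, map_natCast]
    exact ht1 φ

/-- the norm of an element which is negative at exactly one real place -/
theorem norm_neg_of (φ : F →+* ℝ) (x : F) (hx : φ x < 0) (h : ∀ χ : F →+* ℝ, χ ≠ φ → 0 < χ x) :
    Algebra.norm ℚ x < 0 := by
  classical
  have hx0 : x ≠ 0 := by
    rintro rfl
    rw [map_zero] at hx
    exact lt_irrefl _ hx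
  have h1 := Pool.Agent.Y772.TW.norm_prod_emb x
  have hne : ∀ σ : F →+* ℂ, σ x ≠ 0 := fun σ => (map_ne_zero σ).2 hx0
  set σ₀ : F →+* ℂ := Complex.ofRealHom.comp φ with hσ₀
  let f : (F →+* ℂ) → ℂ := fun σ => (σ x / (‖σ x‖ : ℂ)) * (if σ = σ₀ then -1 else 1)
  have hc0 : ∀ σ : F →+* ℂ, ComplexEmbedding.conjugate σ = σ₀ ↔ σ = σ₀ := by
    have hc : ComplexEmbedding.conjugate σ₀ = σ₀ := by
      ext y
      rw [ComplexEmbedding.conjugate_coe_eq]
      exact Complex.conj_ofReal _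
    intro σ
    constructor
    · intro h2
      have h3 := congrArg ComplexEmbedding.conjugate h2
      rw [hc] at h3
      rw [← h3]
      ext y
      rw [ComplexEmbedding.conjugate_coe_eq, ComplexEmbedding.conjugate_coe_eq, Complex.conj_conj]
    · rintro rfl
      exact hc
  have h2 : ∏ σ : F →+* ℂ, f σ = 1 := by
    refine Finset.prod_involution (fun σ _ => ComplexEmbedding.conjugate σ) ?_ ?_ ?_ ?_
    · intro σ _
      have h0 : (‖σ x‖ : ℂ) ≠ 0 := by
        rw [Ne, Complex.ofReal_eq_zero, norm_eq_zero]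
        exact hne σ
      have h3 : (if ComplexEmbedding.conjugate σ = σ₀ then (-1 : ℂ) else 1) =
          if σ = σ₀ then -1 else 1 := if_congr (hc0 σ) rfl rfl
      have h4 : (if σ = σ₀ then (-1 : ℂ) else 1) * (if σ = σ₀ then (-1 : ℂ) else 1) = 1 := by
        split_ifs
        · norm_num
        · norm_num
      show (σ x / (‖σ x‖ : ℂ)) * (if σ = σ₀ then -1 else 1) *
        ((ComplexEmbedding.conjugate σ x / (‖ComplexEmbedding.conjugate σ x‖ : ℂ)) *
          (if ComplexEmbedding.conjugate σ = σ₀ then -1 else 1)) = 1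
      rw [h3, mul_mul_mul_comm, h4, mul_one, ComplexEmbedding.conjugate_coe_eq, Complex.norm_conj,
        div_mul_div_comm, Complex.mul_conj, Complex.normSq_eq_norm_sq]
      rw [div_eq_one_iff_eq (mul_ne_zero h0 h0)]
      push_cast
      ring
    · intro σ _ hσ hcσ
      apply hσ
      have hr : ComplexEmbedding.IsReal σ := ComplexEmbedding.isReal_iff.2 hcσ
      have h5 : ((hr.embedding x : ℝ) : ℂ) = σ x := ComplexEmbedding.IsReal.coe_embedding_apply hr x
      by_cases hs : σ = σ₀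
      · have h6 : σ x = ((φ x : ℝ) : ℂ) := by
          rw [hs]
          rfl
        show (σ x / (‖σ x‖ : ℂ)) * (if σ = σ₀ then -1 else 1) = 1
        rw [if_pos hs, h6, Complex.norm_real, Real.norm_of_nonpos hx.le]
        have h7 : ((φ x : ℝ) : ℂ) ≠ 0 := by exact_mod_cast hx.ne
        push_cast
        field_simp
      · have h6 : hr.embedding ≠ φ := by
          intro h7
          apply hs
          ext y
          rw [← ComplexEmbedding.IsReal.coe_embedding_apply hr y, h7]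
          rfl
        have h4 := h _ h6
        show (σ x / (‖σ x‖ : ℂ)) * (if σ = σ₀ then -1 else 1) = 1
        rw [if_neg hs, mul_one, ← h5, Complex.norm_real, Real.norm_of_nonneg h4.le]
        apply div_self
        rw [Ne, Complex.ofReal_eq_zero]
        exact h4.ne'
    · intro σ _
      exact Finset.mem_univ _
    · intro σ _
      ext e
      rw [ComplexEmbedding.conjugate_coe_eq, ComplexEmbedding.conjugate_coe_eq, Complex.conj_conj]
  have h3 : ∏ σ : F →+* ℂ, f σ = (∏ σ : F →+* ℂ, (σ x / (‖σ x‖ : ℂ))) * (-1) := by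
    show ∏ σ : F →+* ℂ, ((σ x / (‖σ x‖ : ℂ)) * (if σ = σ₀ then -1 else 1)) = _
    rw [Finset.prod_mul_distrib, Finset.prod_ite_eq' Finset.univ σ₀ (fun _ => (-1 : ℂ)),
      if_pos (Finset.mem_univ _)]
  have hn0 : ∏ σ : F →+* ℂ, (‖σ x‖ : ℂ) ≠ 0 := by
    rw [Finset.prod_ne_zero_iff]
    intro σ _
    rw [Ne, Complex.ofReal_eq_zero, norm_eq_zero]
    exact hne σ
  have h4 : ∏ σ : F →+* ℂ, σ x = ((-(∏ σ : F →+* ℂ, ‖σ x‖) : ℝ) : ℂ) := by
    rw [h2, Finset.prod_div_distrib] at h3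
    have h5 : (∏ σ : F →+* ℂ, σ x) / (∏ σ : F →+* ℂ, (‖σ x‖ : ℂ)) = -1 := by
      linear_combination h3
    rw [div_eq_iff hn0] at h5
    rw [h5]
    push_cast
    ring
  rw [← h1] at h4
  have h5 : ((Algebra.norm ℚ x : ℚ) : ℝ) = -(∏ σ : F →+* ℂ, ‖σ x‖) := by exact_mod_cast h4
  have h6 : (0 : ℝ) < ∏ σ : F →+* ℂ, ‖σ x‖ := Finset.prod_pos fun σ _ => norm_pos_iff.2 (hne σ)
  have h7 : ((Algebra.norm ℚ x : ℚ) : ℝ) < 0 := by linarith
  exact_mod_cast h7

/-- the ideal norm of an integer congruent to one modulo four, negative at one real place -/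
theorem absNorm_mod (φ : F →+* ℝ) (a : 𝓞 F) (hm : ((4 : ℕ) : 𝓞 F) ∣ a - 1) (hx : φ (a : F) < 0)
    (h : ∀ χ : F →+* ℝ, χ ≠ φ → 0 < χ (a : F)) : Ideal.absNorm (Ideal.span {a}) ≡ 3 [MOD 4] := by
  have h0 := norm_neg_of φ (a : F) hx h
  rw [← Algebra.coe_norm_int] at h0
  have h1 : Algebra.norm ℤ a < 0 := by exact_mod_cast h0
  obtain ⟨y, hy⟩ := hm
  obtain ⟨r, hr⟩ := Algebra.norm_one_add_smul (4 : ℤ) y
  have h2 : a = 1 + (4 : ℤ) • y := by
    rw [zsmul_eq_mul]
    push_cast at hy ⊢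
    rw [← hy]
    ring
  rw [← h2] at hr
  rw [Ideal.absNorm_span_singleton]
  have h3 : ((Algebra.norm ℤ a).natAbs : ℤ) = - Algebra.norm ℤ a := Int.ofNat_natAbs_of_nonpos h1.le
  have h4 : Algebra.norm ℤ a = 1 + 4 * (Algebra.trace ℤ (𝓞 F) y + r * 4) := by
    rw [hr]
    ring
  generalize Algebra.norm ℤ a = n at *
  generalize Algebra.trace ℤ (𝓞 F) y + r * 4 = k at *
  rw [Nat.ModEq]
  omega

/-- the Artin symbol of an integer congruent to one modulo four, negative at one real place, for a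
character of the group of `F(i) / F` with the value `-1` at the automorphism `i ↦ i ^ 3` -/
theorem art_four {E : Type} [Field E] [NumberField E] [Algebra F E] [IsGalois F E]
    [IsCyclotomicExtension {4} F E] {ζ : E} (hζ : IsPrimitiveRoot ζ 4) (ε : (E ≃ₐ[F] E) →* ℂˣ)
    (hε : ∀ g : E ≃ₐ[F] E, g ζ = ζ ^ 3 → ε g = -1)
    (φ : F →+* ℝ) (a : 𝓞 F) (ha : a ≠ 0) (u : Fˣ) (hu : (u : F) = a)
    (hm : ((4 : ℕ) : 𝓞 F) ∣ a - 1) (hx : φ (a : F) < 0)
    (h : ∀ χ : F →+* ℝ, χ ≠ φ → 0 < χ (a : F)) : art ε (prin u) = Additive.ofMul (-1) := by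
  have hS : ∀ v ∈ (prin u).support, ((4 : ℕ) : 𝓞 F) ∉ v.asIdeal := by
    intro v hv hmv
    rw [Finsupp.mem_support_iff, Pool.Agent.Q257.AR.prin_eq a ha u hu v] at hv
    have hv' : (Associates.mk v.asIdeal).count (Associates.mk (Ideal.span {a})).factors ≠ 0 := by
      exact_mod_cast hv
    have h1 : v.asIdeal ∣ Ideal.span {a} :=
      (Associates.count_ne_zero_iff_dvd (Pool.Agent.Q257.AR.span_ne a ha) v.irreducible).1 hv'
    have h2 : a ∈ v.asIdeal := by
      rw [Ideal.dvd_span_singleton] at h1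
      exact h1
    have h3 : a - 1 ∈ v.asIdeal := Ideal.mem_of_dvd _ hm hmv
    apply v.isPrime.ne_top
    rw [Ideal.eq_top_iff_one]
    have h4 : (1 : 𝓞 F) = a - (a - 1) := by ring
    rw [h4]
    exact v.asIdeal.sub_mem h2 h3
  obtain ⟨g, hg1, hg2⟩ := Pool.Agent.Q257.AR.exists_prod (E := E) (C := E)
    Pool.Agent.Q225.AR.fr Pool.Agent.Q280.AR.unr 4 hζ ε (prin u).support
    (fun v => (prin u v).toNat) hS
  have h5 : g ζ = ζ ^ 3 := by
    rw [hg1, ← Pool.Agent.Q257.AR.absNorm_eq a ha u hu]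
    have h6 := absNorm_mod φ a hm hx h
    rw [pow_eq_pow_mod _ hζ.pow_eq_one, h6, ← pow_eq_pow_mod _ hζ.pow_eq_one]
  have h12 : art ε (prin u) =
      ∑ v ∈ (prin u).support, ((prin u v).toNat : ℤ) • Additive.ofMul (ε (frob E v)) := by
    conv_lhs => rw [← Finsupp.sum_single (prin u)]
    rw [Finsupp.sum, map_sum]
    refine Finset.sum_congr rfl fun v _ => ?_
    rw [Pool.Agent.Q92.AR.art_single, Int.toNat_of_nonneg]
    rw [Pool.Agent.Q257.AR.prin_eq a ha u hu v]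
    exact Int.natCast_nonneg _
  have h13 : AlgEquiv.restrictNormalHom E g = g := by
    ext y
    exact AlgEquiv.restrictNormal_commutes g E y
  rw [h12, hg2, h13, hε g h5]

end

/-- a character of the group of units modulo four -/
theorem exists_rho : ∃ ρ : (ZMod 4)ˣ →* ℂˣ, ρ (-1) = -1 := by
  refine Pool.Agent.Q111.EX.exists_char (-1 : (ZMod 4)ˣ) (-1) ?_
  have h1 : orderOf (-1 : ℂˣ) ∣ 2 := orderOf_dvd_of_pow_eq_one (by norm_num)
  have h2 : orderOf (-1 : (ZMod 4)ˣ) = 2 := by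
    refine orderOf_eq_prime (by norm_num) ?_
    decide
  rw [h2]
  exact h1

section

variable {F M : Type} [Field F] [NumberField F] [Field M] [NumberField M] [Algebra F M]

/-- complex conjugation acts on the fourth roots of unity -/
theorem zeta_conj {ζ : M} (hζ : ζ ^ 4 = 1) (ι : M →+* ℂ) (g : M ≃ₐ[F] M)
    (hg : ∀ x : M, ι (g x) = (starRingEnd ℂ) (ι x)) : g ζ = ζ ^ 3 := by
  apply ι.injective
  rw [hg, map_pow]
  have h1 : ι ζ ^ 4 = 1 := by rw [← map_pow, hζ, map_one]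
  have h0 : ι ζ ≠ 0 := by
    intro h
    rw [h] at h1
    norm_num at h1
  have h2 : ‖ι ζ‖ = 1 := by
    have h3 := congrArg (fun z : ℂ => ‖z‖) h1
    simp only [norm_pow, norm_one] at h3
    exact (pow_eq_one_iff_of_nonneg (norm_nonneg _) (by norm_num)).1 h3
  have h3 : ι ζ * (starRingEnd ℂ) (ι ζ) = 1 := by
    rw [Complex.mul_conj, Complex.normSq_eq_norm_sq, h2]
    norm_num
  apply mul_left_cancel₀ h0
  rw [h3, ← pow_succ']
  exact h1.symm

/-- complex conjugations over a real place are conjugate -/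
theorem psi_conj [IsGalois F M] (ψ : (M ≃ₐ[F] M) →* ℂˣ) (φ : F →+* ℝ) (ι ι' : M →+* ℂ)
    (g g' : M ≃ₐ[F] M) (h1 : ∀ x : F, ι (algebraMap F M x) = ((φ x : ℝ) : ℂ))
    (h1' : ∀ x : F, ι' (algebraMap F M x) = ((φ x : ℝ) : ℂ))
    (hg : ∀ x : M, ι (g x) = (starRingEnd ℂ) (ι x))
    (hg' : ∀ x : M, ι' (g' x) = (starRingEnd ℂ) (ι' x)) : ψ g = ψ g' := by
  obtain ⟨σ, hσ⟩ := ComplexEmbedding.exists_comp_symm_eq_of_comp_eq (k := F) ι ι' (by
    ext x
    exact (h1 x).trans (h1' x).symm)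
  have h2 : ∀ y : M, ι' y = ι (σ.symm y) := fun y => by
    rw [← hσ]
    rfl
  have h3 : ∀ x : M, σ.symm (g' x) = g (σ.symm x) := by
    intro x
    apply ι.injective
    rw [← h2, hg', h2, hg]
  have h4 : g' * σ = σ * g := by
    ext x
    have h5 := h3 (σ x)
    rw [AlgEquiv.symm_apply_apply] at h5
    have h6 := congrArg σ h5
    rw [AlgEquiv.apply_symm_apply] at h6
    exact h6
  have h5 := congrArg ψ h4
  rw [map_mul, map_mul, mul_comm (ψ σ)] at h5
  exact (mul_right_cancel h5).symm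

end

/-- **LSR.** -/
theorem lsr : S_LSR := by
  intro hRECD F M _ _ _ _ _ _ ψ hψ φ hφ N hN
  obtain ⟨ι₀, g₀, hι₀, hg₀, hψ₀⟩ := hφ
  have hψ₀' : ψ g₀ = -1 := by
    have h1 := hψ g₀
    have h2 : ((ψ g₀ : ℂˣ) : ℂ) * (ψ g₀ : ℂˣ) = 1 := by
      rw [← Units.val_mul, h1, Units.val_one]
    rcases mul_self_eq_one_iff.1 h2 with h3 | h3
    · exact absurd (Units.ext h3) hψ₀
    · apply Units.ext
      rw [h3]
      rfl
  -- the field `C`
  obtain ⟨C, _, _, _, _, _, hcyc, hCgal⟩ : ∃ (C : Type) (_ : Field C) (_ : NumberField C)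
      (_ : Algebra M C) (_ : Algebra F C) (_ : IsScalarTower F M C),
      IsCyclotomicExtension {4} M C ∧ IsGalois F C :=
    ⟨CyclotomicField 4 M, inferInstance, inferInstance, inferInstance, inferInstance,
      inferInstance, inferInstance, Pool.Agent.Q128.AR.isGalois_tower F M (CyclotomicField 4 M) 4⟩
  have hm0 : (4 : ℕ) ≠ 0 := by norm_num
  obtain ⟨ζ, hζ⟩ := IsCyclotomicExtension.exists_isPrimitiveRoot M C (Set.mem_singleton 4) hm0
  let κ : (C ≃ₐ[F] C) →* (ZMod 4)ˣ := hζ.autToPow F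
  have hκ : ∀ g : C ≃ₐ[F] C, ζ ^ ((κ g : (ZMod 4)ˣ) : ZMod 4).val = g ζ := fun g =>
    hζ.autToPow_spec F g
  let C' : IntermediateField F C := IntermediateField.adjoin F {ζ}
  have hC' : IsCyclotomicExtension {4} F C' :=
    hζ.intermediateField_adjoin_isCyclotomicExtension F
  have hC'gal : IsGalois F C' := IsCyclotomicExtension.isGalois {4} F C'
  have hζm : ζ ∈ C' := IntermediateField.mem_adjoin_simple_self F ζ
  have hζ' : IsPrimitiveRoot (⟨ζ, hζm⟩ : C') 4 :=
    IsPrimitiveRoot.of_map_of_injective (f := algebraMap C' C) hζ (algebraMap C' C).injective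
  let κ' : (C' ≃ₐ[F] C') →* (ZMod 4)ˣ := hζ'.autToPow F
  have hκ' : ∀ g : C ≃ₐ[F] C, κ' (AlgEquiv.restrictNormal g C') = κ g := by
    intro g
    have h1 := hζ'.autToPow_spec F (AlgEquiv.restrictNormal g C')
    have h2 := congrArg (algebraMap C' C) h1
    rw [AlgEquiv.restrictNormal_commutes, map_pow] at h2
    have h3 : ζ ^ ((κ' (AlgEquiv.restrictNormal g C') : (ZMod 4)ˣ) : ZMod 4).val = g ζ := h2
    rw [← hκ g, Pool.Agent.Q128.AR.root_pow_iff hm0 hζ, ← ZMod.natCast_eq_natCast_iff,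
      ZMod.natCast_zmod_val, ZMod.natCast_zmod_val] at h3
    exact Units.ext h3
  obtain ⟨ρ, hρ⟩ := exists_rho
  let ψ1 : (C ≃ₐ[F] C) →* ℂˣ := ψ.comp (AlgEquiv.restrictNormalHom M)
  let ε : (C ≃ₐ[F] C) →* ℂˣ := ρ.comp κ
  let ε' : (C' ≃ₐ[F] C') →* ℂˣ := ρ.comp κ'
  have hε3 : ∀ g : C ≃ₐ[F] C, g ζ = ζ ^ 3 → ε g = -1 := by
    intro g hg
    rw [← hκ g, Pool.Agent.Q128.AR.root_pow_iff hm0 hζ, ← ZMod.natCast_eq_natCast_iff,
      ZMod.natCast_zmod_val] at hg
    have h1 : κ g = -1 := Units.ext (hg.trans (by decide))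
    show ρ (κ g) = -1
    rw [h1, hρ]
  have hε3' : ∀ g : C' ≃ₐ[F] C', g (⟨ζ, hζm⟩ : C') = (⟨ζ, hζm⟩ : C') ^ 3 → ε' g = -1 := by
    intro g hg
    rw [← hζ'.autToPow_spec F g, Pool.Agent.Q128.AR.root_pow_iff hm0 hζ',
      ← ZMod.natCast_eq_natCast_iff, ZMod.natCast_zmod_val] at hg
    have h1 : κ' g = -1 := Units.ext (hg.trans (by decide))
    show ρ (κ' g) = -1
    rw [h1, hρ]
  -- the product is not ramified at `φ`
  have hθ : ¬ RamR (ψ1 * ε) φ := by
    rintro ⟨ι, g, hι, hg, hne⟩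
    apply hne
    have h1 : ε g = -1 := hε3 g (zeta_conj hζ.pow_eq_one ι g hg)
    have h2 : ψ1 g = -1 := by
      show ψ (AlgEquiv.restrictNormal g M) = -1
      rw [← hψ₀']
      refine psi_conj ψ φ (ι.comp (algebraMap M C)) ι₀ _ g₀ (fun x => ?_) hι₀ (fun x => ?_) hg₀
      · rw [RingHom.comp_apply, ← IsScalarTower.algebraMap_apply F M C, hι]
      · rw [RingHom.comp_apply, RingHom.comp_apply, AlgEquiv.restrictNormal_commutes, hg]
    rw [MonoidHom.mul_apply, h1, h2]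
    norm_num
  obtain ⟨N1, hN1, hR1, h1⟩ := hRECD F C (ψ1 * ε)
  -- the modulus
  have hN0 : N * N1 * 4 ≠ 0 := mul_ne_zero (mul_ne_zero hN hN1) hm0
  have hd1 : N ∣ N * N1 * 4 := ⟨N1 * 4, by ring⟩
  have hd2 : N1 ∣ N * N1 * 4 := ⟨N * 4, by ring⟩
  have hd3 : 4 ∣ N * N1 * 4 := ⟨N * N1, by ring⟩
  generalize N * N1 * 4 = K at hN0 hd1 hd2 hd3
  obtain ⟨a, ha0, haK, ha⟩ := sgn_int (F := F) K hN0 (fun χ => χ ≠ φ)
  have hdvd : ∀ {n : ℕ}, n ∣ K → (n : 𝓞 F) ∣ a - 1 := by
    intro n hn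
    have h2 : (n : 𝓞 F) ∣ (K : 𝓞 F) := by exact_mod_cast Nat.cast_dvd_cast (α := 𝓞 F) hn
    exact h2.trans haK
  have haF : (a : F) ≠ 0 := by exact_mod_cast fun h => ha0 (RingOfIntegers.ext h)
  have hneg : φ (a : F) < 0 := by
    have h2 : ¬ 0 < φ (a : F) := fun h => (ha φ).1 h rfl
    have h3 : φ (a : F) ≠ 0 := (map_ne_zero φ).2 haF
    exact lt_of_le_of_ne (not_lt.1 h2) h3
  have hpos : ∀ χ : F →+* ℝ, χ ≠ φ → 0 < χ (a : F) := fun χ hχ => (ha χ).2 hχ
  have hval : ∀ {n : ℕ}, n ∣ K → ∀ v : HeightOneSpectrum (𝓞 F),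
      v.valuation F ((a : F) - 1) ≤ v.valuation F (n : F) := by
    intro n hn v
    obtain ⟨y, hy⟩ := hdvd hn
    have h2 : (a : F) - 1 = (n : F) * (y : F) := by
      have h3 := congrArg (fun t : 𝓞 F => (t : F)) hy
      push_cast at h3
      exact h3
    rw [h2, map_mul]
    exact mul_le_of_le_one_right' (v.valuation_le_one y)
  obtain ⟨x, hx⟩ : ∃ x : Fˣ, (x : F) = a := ⟨Units.mk0 (a : F) haF, rfl⟩
  refine ⟨x, fun v _ => by rw [hx]; exact hval hd1 v, by rw [hx]; exact hneg,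
    fun χ hχ => by rw [hx]; exact hpos χ hχ, ?_⟩
  -- the reciprocity law for the product
  have h2 : art (ψ1 * ε) (prin x) = 0 := by
    refine h1 x (fun v _ => by rw [hx]; exact hval hd2 v) fun χ hχ => ?_
    rw [hx]
    refine hpos χ ?_
    rintro rfl
    exact hθ hχ
  have hun : ∀ v, prin x v ≠ 0 → Unramified C v := by
    intro v hv
    by_contra h
    apply hv
    apply Pool.Agent.Q125.AR.prin_eq_zero_of_valuation
    refine Pool.Agent.Q92.AR.val_eq_one (hR1 v h) ?_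
    rw [hx]
    exact hval hd2 v
  have h3 : art ε' (prin x) = art ε (prin x) :=
    Pool.Agent.Q111.EX.art_quot' ε ε' (fun g => by
      show ρ (κ' _) = ρ (κ g)
      rw [hκ' g]) _ hun
  have h4 : art ψ (prin x) = art ψ1 (prin x) :=
    Pool.Agent.Q111.EX.art_quot' ψ1 ψ (fun g => rfl) _ hun
  have h5 : art ε' (prin x) = Additive.ofMul (-1) :=
    art_four hζ' ε' hε3' φ a ha0 x hx (hdvd hd3) hneg hpos
  rw [Pool.Agent.Q111.EX.art_mul, ← h3, h5, ← h4] at h2
  intro h6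
  rw [h6, zero_add] at h2
  have h7 : (-1 : ℂˣ) = 1 := h2
  have h8 := congrArg (fun u : ℂˣ => (u : ℂ)) h7
  norm_num at h8

end Pool.Agent.H996.BT
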