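import Pool.Agent.H509.BT.Stm2

/-!
# Project BT, job MOD: a modulus for all characters of `G`
-/

set_option autoImplicit false
set_option linter.unusedSectionVars false
set_option linter.deprecated false

open NumberField IsDedekindDomain Filter Topology Module

noncomputable section

namespace Pool.Agent.H183.BT

open Pool.Agent.Q92.AR (Dv prin Pr Ray nmD nu up sD puD Cong Pos frob IsFrobenius Unramified Ram art
  prin_mul prin_one prin_inv art_single frob_spec val_eq_one)
open Pool.Agent.Q20.EX (Inert CongAt)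
open Pool.Agent.K3h30.RS
open Pool.Agent.H509.Rec (eK eK_smul act_of_frob act_of_inert fixes_of_act fixes_of_conj
  unr_of_squarefree inert_one)
open Pool.Agent.Q125.AR (Ram_mono prin_eq_zero_of_valuation)
open Pool.Agent.BT9

section
variable {F : Type} [Field F] [NumberField F]

theorem val_nat_dvd {N0 N : ℕ} (h : N0 ∣ N) (v : HeightOneSpectrum (𝓞 F)) :
    v.valuation F (N : F) ≤ v.valuation F (N0 : F) := by
  obtain ⟨c, rfl⟩ := h
  rw [Nat.cast_mul, map_mul]
  refine mul_le_of_le_one_right' ?_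
  have h1 := v.valuation_le_one (K := F) (c : 𝓞 F)
  simpa using h1

theorem prin_of_near {N : ℕ} {x : Fˣ} {v : HeightOneSpectrum (𝓞 F)}
    (hv : (N : 𝓞 F) ∈ v.asIdeal) (h : v.valuation F ((x : F) - 1) ≤ v.valuation F (N : F)) :
    prin x v = 0 := prin_eq_zero_of_valuation (val_eq_one hv h)

end

section
variable {F H : Type} [Field F] [NumberField F] [Field H] [NumberField H] [Algebra F H]
  [IsGalois F H]

/-- if a character is ramified at `v`, then `v` is ramified -/
theorem ramAt_unr {ψ : (H ≃ₐ[F] H) →* ℂˣ} {v : HeightOneSpectrum (𝓞 F)} (h : RamAt ψ v) :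
    ¬ Unramified H v := by
  intro hu
  obtain ⟨w, g, hw, hg, hne⟩ := h
  subst hw
  apply hne
  rw [inert_one (F := F) (K := F) hu hg, map_one]

end

/-- **MOD** -/
theorem mod (h1 : S_RECD) (h2 : S_BRI) : S_MOD := by
  classical
  intro F H G _ _ _ _ _ _ _ _ _ D hG
  have hgal : IsGalois F H := IsGaloisGroup.isGalois G F H
  have hfin : Finite (G →* ℂˣ) :=
    Finite.of_equiv _ (CommGroup.monoidHom_mulEquiv_of_hasEnoughRootsOfUnity G ℂ).some.symm.toEquiv
  let _ : Fintype (G →* ℂˣ) := Fintype.ofFinite _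
  choose Nf hNf0 hNfR hNf using fun ψ : G →* ℂˣ => h1 F H (ψ.comp (eK F F H G))
  set N0 := (∏ ψ : G →* ℂˣ, Nf ψ) * ∏ v ∈ D.S, Ideal.absNorm v.asIdeal with hN0
  have habs : ∀ v : HeightOneSpectrum (𝓞 F), Ideal.absNorm v.asIdeal ≠ 0 := by
    intro v
    rw [Ne, Ideal.absNorm_eq_zero_iff]
    exact v.ne_bot
  refine ⟨N0, mul_ne_zero (Finset.prod_ne_zero_iff.2 fun ψ _ => hNf0 ψ)
    (Finset.prod_ne_zero_iff.2 fun v _ => habs v), fun N hN hdvd => ?_⟩
  have hd : ∀ ψ, Nf ψ ∣ N := fun ψ =>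
    ((Finset.dvd_prod_of_mem Nf (Finset.mem_univ ψ)).trans (dvd_mul_right _ _)).trans hdvd
  have hRam : Ram F H N := Ram_mono (hd 1) (hNfR 1)
  have hS : ∀ v ∈ D.S, (N : 𝓞 F) ∈ v.asIdeal := by
    intro v hv
    have h3 : Ideal.absNorm v.asIdeal ∣ N :=
      ((Finset.dvd_prod_of_mem (fun v : HeightOneSpectrum (𝓞 F) => Ideal.absNorm v.asIdeal) hv).trans
        (dvd_mul_left _ _)).trans hdvd
    obtain ⟨c, hc⟩ := h3
    rw [hc, Nat.cast_mul]
    exact v.asIdeal.mul_mem_right _ (Ideal.absNorm_mem _)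
  -- the conclusion from the vanishing of the Artin symbols
  have hfrobS : ∀ (ψ : G →* ℂˣ) (z : Fˣ) (v : HeightOneSpectrum (𝓞 F)), CongAt {v}ᶜ N (z : F) →
      art (ψ.comp (eK F F H G)) (prin z) = 0 →
      (v ∈ D.S → (prin z v) • Additive.ofMul ((ψ.comp (eK F F H G)) (frob H v)) = 0) →
      ψ (fr D (prin z)) = 1 := by
    intro ψ z v hz hart hv
    have hz0 : ∀ v' ∈ D.S, v' ≠ v → prin z v' = 0 := by
      intro v' hv' hne
      exact prin_of_near (hS v' hv') (hz v' (fun h => hne h) (hS v' hv'))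
    by_cases hvS : v ∈ D.S
    · have hd0 : ∀ v' ∈ D.S, (prin z - Finsupp.single v (prin z v)) v' = 0 := by
        intro v' hv'
        rw [Finsupp.sub_apply]
        by_cases hne : v' = v
        · rw [hne, Finsupp.single_eq_same, sub_self]
        · rw [hz0 v' hv' hne, Finsupp.single_eq_of_ne hne, sub_self]
      have h3 := h2 F H G D ψ _ hd0
      rw [map_sub, art_single, hart, hv hvS, sub_self] at h3
      have h4 : fr D (prin z) = fr D (prin z - Finsupp.single v (prin z v)) := by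
        conv_lhs => rw [← sub_add_cancel (prin z) (Finsupp.single v (prin z v))]
        rw [fr_add, fr_single_mem D hvS, mul_one]
      rw [h4]
      exact (Additive.ofMul.injective h3).symm
    · have hd0 : ∀ v' ∈ D.S, (prin z) v' = 0 := fun v' hv' => hz0 v' hv' (fun h => hvS (h ▸ hv'))
      have h3 := h2 F H G D ψ _ hd0
      rw [hart] at h3
      exact (Additive.ofMul.injective h3).symm
  -- the vanishing
  have hzero : ∀ (ψ : G →* ℂˣ) (z : Fˣ) (v : HeightOneSpectrum (𝓞 F)), Pos (z : F) →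
      CongAt {v}ᶜ N (z : F) → ¬ RamAt (ψ.comp (eK F F H G)) v →
      art (ψ.comp (eK F F H G)) (prin z) = 0 := by
    intro ψ z v hpos hz hnr
    refine hNf ψ z (fun v' hv' => ?_) (fun φ _ => hpos φ)
    have hne : v' ≠ v := fun h => hnr (h ▸ hv')
    have hm : (N : 𝓞 F) ∈ v'.asIdeal := hRam v' (ramAt_unr hv')
    exact (hz v' (fun h => hne h) hm).trans (val_nat_dvd (hd ψ) v')
  refine ⟨hN, hRam, hS, ?_, ?_, ?_⟩
  · intro ψ z v hpos hz hψ
    have hfix : ∀ (w : HeightOneSpectrum (𝓞 H)) (g : H ≃ₐ[F] H), w.under (𝓞 F) = v →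
        Pool.Agent.TeamU.act g w = w → (ψ.comp (eK F F H G)) g = 1 := by
      intro w g hw hg
      exact hψ w hw _ (fixes_of_act hg)
    refine hfrobS ψ z v hz (hzero ψ z v hpos hz ?_) fun _ => ?_
    · rintro ⟨w, g, hw, hg, hne⟩
      exact hne (hfix w g hw (act_of_inert hg))
    · obtain ⟨w, hw, hw2⟩ := act_of_frob (frob_spec (M := H) v)
      rw [hfix w _ hw hw2, ofMul_one, smul_zero]
  · intro z v hpos hz hunr hev
    by_contra hne
    obtain ⟨ψ, hψ⟩ := CommGroup.exists_apply_ne_one_of_hasEnoughRootsOfUnity G ℂ hne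
    apply hψ
    refine hfrobS ψ z v hz (hzero ψ z v hpos hz fun h => ramAt_unr h hunr) fun hvS => ?_
    obtain ⟨m, hm⟩ := hev hvS
    rw [hm, add_zsmul, ← zsmul_add, ← ofMul_mul, ← map_mul]
    have h3 : (ψ.comp (eK F F H G)) (frob H v * frob H v) = 1 := by
      rw [MonoidHom.comp_apply, map_mul, hG, map_one]
    rw [h3, ofMul_one, smul_zero]
  · intro ψ z φ hz hpos hψ
    have h3 : art (ψ.comp (eK F F H G)) (prin z) = 0 := by
      refine hNf ψ z (fun v' hv' => ?_) (fun φ' hφ' => ?_)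
      · have hm : (N : 𝓞 F) ∈ v'.asIdeal := hRam v' (ramAt_unr hv')
        exact (hz v' hm).trans (val_nat_dvd (hd ψ) v')
      · by_cases h : φ' = φ
        · obtain ⟨ι, g, h4, h5, h6⟩ := hφ'
          exfalso
          apply h6
          refine hψ (InfinitePlace.mk ι) ?_ _ (fixes_of_conj h5)
          rw [InfinitePlace.comap_mk, ← h]
          congr 1
          ext x
          exact (h4 x).symm
        · exact hpos φ' h
    have hd0 : ∀ v' ∈ D.S, (prin z) v' = 0 := fun v' hv' => prin_of_near (hS v' hv') (hz v' (hS v' hv'))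
    have h4 := h2 F H G D ψ _ hd0
    rw [h3] at h4
    exact (Additive.ofMul.injective h4).symm

end Pool.Agent.H183.BT
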