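import Pool.Agent.H509.BT.Stm1

/-!
# Project BT: NORF, norms have trivial local symbols
-/

set_option autoImplicit false
set_option linter.unusedSectionVars false
set_option linter.deprecated false

open NumberField IsDedekindDomain Filter Topology Module

noncomputable section

namespace Pool.Agent.H643.BT

open Pool.Agent.Q92.AR (Dv prin Pr Ray nmD nu up sD puD Cong Pos frob IsFrobenius Unramified Ram art
  prin_mul prin_one prin_inv)
open Pool.Agent.Q20.EX (Inert CongAt)
open Pool.Agent.BT9

theorem norf : S_NORF := by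
  intro F K _ _ _ _ _ _ ψ
  obtain ⟨N, hN, hR, hker⟩ := Pool.Agent.Q92.AR.recip F K ψ
  refine ⟨N, hN, hR, ?_⟩
  intro y v z hv hz1 hz2 hz3
  have h3 : v.valuation F ((nu F K y : F) / (z : F) - 1) ≤ v.valuation F (N : F) := by
    have h2 := Pool.Agent.Q38.EX.near_inv _ (Pool.Agent.Q38.EX.val_nat_lt_one hv) hz3
    rwa [inv_div] at h2
  refine Pool.Agent.Q182.MZ.artLoc (x := nu F K y) ψ hN hR hker hv ?_ hz1 hz2 h3
  intro m
  refine ⟨y, ?_⟩
  rw [div_self (Units.ne_zero _), sub_self, map_zero]
  exact zero_le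

end Pool.Agent.H643.BT
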