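import Pool.Agent.H509.BT.Stm2
import Pool.Graph.R_pool_sql_team_seeded_5cf16337.K3h50.E2.Inf

/-! Project BT, NSY: norms have trivial symbols. -/

set_option autoImplicit false
set_option linter.unusedSectionVars false
set_option linter.deprecated false

open NumberField IsDedekindDomain Filter Topology Module

noncomputable section

namespace Pool.Agent.H353.BT

open Pool.Agent.BT9
open Pool.Agent.Q92.AR (Dv prin Pr Ray nmD nu up sD puD Cong Pos frob IsFrobenius Unramified Ram art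
  prin_mul prin_one prin_inv)
open Pool.Agent.Q20.EX (Inert CongAt)
open Pool.Agent.K3h30.RS
open Pool.Agent.K3h56.E2 (Quad Dict part InSF SplAt Over CA SU minus actK oddCard sgn)
open Pool.Agent.Q38.EX (near_one near_mul near_inv near_div val_nat_lt_one)
open Pool.Agent.Q182.MZ (apxAt prin_eq_of_near pa pa_neg nmD_pa nm_prin)

/-- there is a prime ideal which does not divide `N` -/
theorem exists_prime (F : Type) [Field F] [NumberField F] {N : ℕ} (hN : N ≠ 0) :
    ∃ v : HeightOneSpectrum (𝓞 F), (N : 𝓞 F) ∉ v.asIdeal := by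
  obtain ⟨q, hqN, hq⟩ := Nat.exists_infinite_primes (N + 1)
  have hqp : Prime (q : ℤ) := Nat.prime_iff_prime_int.1 hq
  have hmax : (Ideal.span {(q : ℤ)}).IsMaximal :=
    PrincipalIdealRing.isMaximal_of_irreducible hqp.irreducible
  obtain ⟨P, hP, hPq⟩ :=
    Ideal.exists_maximal_ideal_liesOver_of_isIntegral (S := 𝓞 F) (Ideal.span {(q : ℤ)})
  have hqP : (q : 𝓞 F) ∈ P := by
    have h1 : (q : ℤ) ∈ Ideal.span {(q : ℤ)} := Ideal.mem_span_singleton_self _
    rw [hPq.over] at h1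
    have h2 : algebraMap ℤ (𝓞 F) (q : ℤ) ∈ P := h1
    simpa using h2
  have hP0 : P ≠ ⊥ := by
    intro h
    rw [h, Ideal.mem_bot] at hqP
    exact hq.ne_zero (Nat.cast_eq_zero.1 hqP)
  refine ⟨⟨P, hP.isPrime, hP0⟩, fun hNP => ?_⟩
  have hNP' : (N : 𝓞 F) ∈ P := hNP
  have hco : IsCoprime (N : ℤ) (q : ℤ) := by
    rw [Int.isCoprime_iff_gcd_eq_one, Int.gcd_natCast_natCast]
    refine ((Nat.Prime.coprime_iff_not_dvd hq).2 fun hdv => ?_).symm
    exact absurd (Nat.le_of_dvd (Nat.pos_of_ne_zero hN) hdv) (by omega)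
  obtain ⟨a, b, hab⟩ := hco
  apply hP.ne_top
  rw [Ideal.eq_top_iff_one]
  have h1 : (1 : 𝓞 F) = (a : 𝓞 F) * (N : 𝓞 F) + (b : 𝓞 F) * (q : 𝓞 F) := by
    have h2 := congrArg (Int.cast : ℤ → 𝓞 F) hab
    push_cast at h2
    exact h2.symm
  rw [h1]
  exact P.add_mem (P.mul_mem_left _ hNP') (P.mul_mem_left _ hqP)

section
variable {F : Type} [Field F] [NumberField F]

theorem val_dvd {N N' : ℕ} (h : N ∣ N') (w : HeightOneSpectrum (𝓞 F)) :
    w.valuation F (N' : F) ≤ w.valuation F (N : F) := by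
  obtain ⟨c, rfl⟩ := h
  rw [Nat.cast_mul, map_mul]
  have h1 : w.valuation F (c : F) ≤ 1 := by
    have := w.valuation_le_one (K := F) (c : 𝓞 F)
    simpa using this
  calc w.valuation F (N : F) * w.valuation F (c : F) ≤ w.valuation F (N : F) * 1 := by gcongr
    _ = w.valuation F (N : F) := mul_one _

theorem mem_dvd {N N' : ℕ} (h : N ∣ N') {w : HeightOneSpectrum (𝓞 F)}
    (hw : (N : 𝓞 F) ∈ w.asIdeal) : (N' : 𝓞 F) ∈ w.asIdeal := by
  obtain ⟨c, rfl⟩ := h
  rw [Nat.cast_mul]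
  exact w.asIdeal.mul_mem_right _ hw

theorem congAt_dvd {N N' : ℕ} (h : N ∣ N') {A : Set (HeightOneSpectrum (𝓞 F))} {x : F}
    (hx : CongAt A N' x) : CongAt A N x := fun w hw hN =>
  (hx w hw (mem_dvd h hN)).trans (val_dvd h w)

end

theorem nsy (h1 : S_NORF) (h2 : S_BRK) : S_NSY := by
  intro F H G K _ _ _ _ _ _ _ _ _ _ _ _ _ τ χ hd D hG N hM y v z hv hz hzc hzv
  have hGal : IsGalois F K := Pool.Agent.K3h50.E2.isGalois_of_quad hd.quad
  obtain ⟨ψ, hψ⟩ := Pool.Agent.Q125.AR.exists_char τ (fun g => by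
    rcases Pool.Agent.K3h50.E2.aut_eq hd.quad g with h | h
    · rw [h]
      exact Subgroup.one_mem _
    · rw [h]
      exact Subgroup.mem_zpowers τ)
  obtain ⟨N1, hN1, hR1, hnorf⟩ := h1 F K ψ
  -- the second number
  obtain ⟨N2, hN2, hgood⟩ : ∃ N2 : ℕ, N2 ≠ 0 ∧ ((N1 : 𝓞 F) ∉ v.asIdeal → ∀ x : Fˣ, Pos (x : F) →
      CongAt {v}ᶜ N2 (x : F) → art ψ (prin x) = 0) := by
    by_cases h3 : (N1 : 𝓞 F) ∈ v.asIdeal
    · exact ⟨1, one_ne_zero, fun h => absurd h3 h⟩
    · have hu : Unramified K v := by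
        by_contra hu
        exact h3 (hR1 v hu)
      obtain ⟨N2, hN2, -, h4⟩ := Pool.Agent.Q111.EX.good Pool.Agent.Q38.EX.nrm F K ψ v hu
      exact ⟨N2, hN2, fun _ => h4⟩
  set N' : ℕ := N * N1 * N2 with hN'
  have hN0 := hM.n0
  have hN'0 : N' ≠ 0 := mul_ne_zero (mul_ne_zero hN0 hN1) hN2
  have d0 : N ∣ N' := ⟨N1 * N2, by rw [hN', mul_assoc]⟩
  have d1 : N1 ∣ N' := ⟨N * N2, by rw [hN']; ring⟩
  have d2 : N2 ∣ N' := ⟨N * N1, by rw [hN']; ring⟩
  have hNv := hM.inS v hv
  have hN'v : (N' : 𝓞 F) ∈ v.asIdeal := mem_dvd d0 hNv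
  obtain ⟨z', hz'1, hz'2, hz'3⟩ := apxAt hN'0 v (nu F K y)
  have hz'v := hz'3 hN'v
  -- the divisor
  have key : art ψ (prin z' - Finsupp.single v (prin z' v)) = 0 := by
    by_cases h3 : (N1 : 𝓞 F) ∈ v.asIdeal
    · refine hnorf y v z' h3 hz'1 (congAt_dvd d1 hz'2) ?_
      have h4 := near_inv _ (val_nat_lt_one hN'v) hz'v
      rw [inv_div] at h4
      exact h4.trans (val_dvd d1 v)
    · have h4 := hgood h3 z' hz'1 (congAt_dvd d2 hz'2)
      have h5 : art ψ (Finsupp.single v (prin z' v)) = 0 := by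
        rw [← prin_eq_of_near hN'v hz'v, ← nm_prin, ← nmD_pa]
        refine (Pool.Agent.Q92.AR.all_NKer F K ψ N1 hN1).1 hR1 _ ?_
        intro w hw
        apply pa_neg
        intro h6
        apply h3
        rw [← h6]
        exact (Pool.Agent.Q125.AR.mem_under).2 hw
      rw [map_sub, h4, h5, sub_zero]
  have hvan : ∀ v' ∈ D.S, (prin z' - Finsupp.single v (prin z' v)) v' = 0 := by
    intro v' hv'
    rw [Finsupp.sub_apply]
    by_cases h3 : v' = v
    · rw [h3, Finsupp.single_eq_same, sub_self]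
    · rw [Finsupp.single_eq_of_ne h3, sub_zero]
      have h4 := mem_dvd d0 (hM.inS v' hv')
      exact Pool.Agent.Q125.AR.prin_eq_zero_of_valuation
        (near_one _ (val_nat_lt_one h4) (hz'2 v' (fun h5 => h3 h5) h4))
  have hb := h2 F H G K τ χ hd D ψ hψ _ hvan
  rw [key] at hb
  have hb' : χ (fr D (prin z' - Finsupp.single v (prin z' v))) = 1 :=
    (ofMul_eq_zero.1 hb.symm)
  have e1 : fr D (prin z') = fr D (prin z' - Finsupp.single v (prin z' v)) := by
    have h3 := fr_add D (prin z' - Finsupp.single v (prin z' v)) (Finsupp.single v (prin z' v))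
    rw [sub_add_cancel, fr_single_mem D hv, mul_one] at h3
    exact h3
  -- the quotient
  obtain ⟨v0, hv0⟩ := exists_prime F hN0
  have hv0S : v0 ∉ D.S := fun h => hv0 (hM.inS v0 h)
  have hv0u : Unramified H v0 := by
    by_contra h
    exact hv0 (hM.ram v0 h)
  have e2 : fr D (prin (z / z')) = 1 := by
    refine hM.recU (z / z') v0 ?_ ?_ hv0u (fun h => absurd h hv0S)
    · intro φ
      rw [Units.val_div_eq_div_val, map_div₀]
      exact div_pos (hz φ) (hz'1 φ)
    · intro w _ hNw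
      rw [Units.val_div_eq_div_val]
      by_cases h3 : w = v
      · subst h3
        have h4 : (z : F) / (z' : F) =
            ((z : F) / (nu F K y : F)) * ((nu F K y : F) / (z' : F)) := by
          have h5 : (nu F K y : F) ≠ 0 := (nu F K y).ne_zero
          have h6 : (z' : F) ≠ 0 := z'.ne_zero
          field_simp
        rw [h4]
        exact near_mul _ (val_nat_lt_one hNw) hzv (hz'v.trans (val_dvd d0 w))
      · exact near_div _ (val_nat_lt_one hNw) (hzc w (fun h5 => h3 h5) hNw)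
          (congAt_dvd d0 hz'2 w (fun h5 => h3 h5) hNw)
  have e3 : z = z / z' * z' := (div_mul_cancel z z').symm
  rw [e3, prin_mul, fr_add, map_mul, e2, map_one, one_mul, e1]
  exact hb'

end Pool.Agent.H353.BT
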