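import Pool.Agent.H509.BT.Stm3

/-! # Project BT, job PF -/

set_option autoImplicit false
set_option linter.unusedSectionVars false
set_option linter.deprecated false

open NumberField IsDedekindDomain Filter Topology Module

noncomputable section

namespace Pool.Agent.H914.BT

open Pool.Agent.BT9
open Pool.Agent.Q92.AR (Dv prin Pr Ray nmD nu up sD puD Cong Pos frob IsFrobenius Unramified Ram art
  prin_mul prin_one prin_inv)
open Pool.Agent.Q20.EX (Inert CongAt)
open Pool.Agent.K3h30.RS
open Pool.Agent.K3h56.E2 (Quad Dict part InSF SplAt Over CA SU minus actK oddCard sgn loc)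
open Pool.Agent.H509 (U1 Generates)
open Pool.Agent.TeamU (act)
open Pool.Agent.Q5.BR (rdeg above mem_above)

theorem pf : S_PF := by
  intro F H G _ _ _ _ _ _ _ _ D hΛ ψ hψ y
  obtain ⟨Λ⟩ := hΛ
  rw [← Λ.prod y]
  let _ := Λ.fin
  rw [map_prod]
  exact Finset.prod_eq_one fun i _ => hψ _ (mem_Sg (Λ.ins i) (Λ.dec i y))

theorem fr_even {F H G : Type} [Field F] [NumberField F] [Field H] [NumberField H] [Algebra F H]
    [CommGroup G] [Finite G] [MulSemiringAction G H] (D : RubinData F H G)
    (hG : ∀ g : G, g * g = 1) {d : Dv F} (h : ∀ v, v ∉ D.S → Even (d v)) : fr D d = 1 := by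
  classical
  have h0 : frH D d = 0 := by
    unfold frH
    rw [Finsupp.liftAddHom_apply, Finsupp.sum]
    refine Finset.sum_eq_zero fun v _ => ?_
    by_cases hv : v ∈ D.S
    · rw [if_pos hv]
      rfl
    · rw [if_neg hv]
      obtain ⟨k, hk⟩ := h v hv
      rw [hk, map_add, ← ofMul_toMul ((zmultiplesHom (Additive G)) (Additive.ofMul (D.σ v)) k),
        ← ofMul_mul, hG]
      rfl
  unfold fr
  rw [h0]
  rfl

theorem above_iff {F K : Type} [Field F] [NumberField F] [Field K] [NumberField K] [Algebra F K]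
    {v : HeightOneSpectrum (𝓞 F)} {P : HeightOneSpectrum (𝓞 K)} :
    Above {v} P ↔ P.under (𝓞 F) = v := by
  constructor
  · exact Pool.Agent.H509.Rec.under_of_above
  · intro h
    rw [above_singleton, ← h]
    rfl

theorem invd : S_INVD := by
  classical
  intro F H G K _ _ _ _ _ _ _ _ _ _ _ _ _ τ χ hd D d h
  have htw : IsScalarTower F K H := hd.tower
  have hgal : IsGalois F K := Pool.Agent.K3h50.E2.isGalois_of_quad hd.quad
  have key : ∀ v, v ∉ D.S → Even (nmD F K d v) := by
    intro v hv
    have hna : ∀ w : HeightOneSpectrum (𝓞 K), Above {v} w →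
        ¬ Above (D.S : Set (HeightOneSpectrum (𝓞 F))) w := by
      rintro w hw ⟨v', hv', h2⟩
      apply hv
      have h3 : v' = v := by
        apply HeightOneSpectrum.ext
        rw [← h2, ← above_singleton.1 hw]
      rw [← h3]
      exact hv'
    obtain ⟨h1, h2⟩ := Pool.Agent.K3h25.E2.t_LOC F K τ hd.quad v
    rw [Pool.Agent.Q149.AR.nmD_apply]
    by_cases hl : loc K v = 1
    · obtain ⟨P, P', hne, h3, -, h4, h5, h6⟩ := h1 hl
      have hP : Above {v} P := (h3 P).2 (Or.inl rfl)
      have hP' : Above {v} P' := (h3 P').2 (Or.inr rfl)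
      have hab : above K v = {P, P'} := by
        ext Q
        rw [mem_above, ← above_iff, h3, Finset.mem_insert, Finset.mem_singleton]
      have hu : P.under (𝓞 F) = P'.under (𝓞 F) := by
        rw [above_iff.1 hP, above_iff.1 hP']
      obtain ⟨g, hg⟩ := Pool.Agent.Q149.AR.trans_act (F := F) hu
      have hgτ : g = τ := by
        rcases Pool.Agent.K3h50.E2.aut_eq hd.quad g with h7 | h7
        · exfalso
          apply hne
          rw [← hg, h7]
          exact (Pool.Agent.TeamU.act_one P).symm
        · exact h7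
      rw [hgτ] at hg
      have h8 := h P' (hna P' hP')
      rw [Pool.Agent.Q149.AR.sD_apply, ← hg, Pool.Agent.Q149.AR.act_inv_act, hg] at h8
      rw [hab, Finset.sum_pair hne, Pool.Agent.H509.Rec.rdeg_eq hP (k := 1) (by rw [h5, pow_one]),
        Pool.Agent.H509.Rec.rdeg_eq hP' (k := 1) (by rw [h6, pow_one]), h8]
      exact ⟨d P', by push_cast; ring⟩
    · obtain ⟨P, h3, -, h4⟩ := h2 hl
      have hP : Above {v} P := (h3 P).2 rfl
      have hab : above K v = {P} := by
        ext Q
        rw [mem_above, ← above_iff, h3, Finset.mem_singleton]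
      rcases h4 with ⟨-, h5, h6⟩ | ⟨-, h5, h6⟩
      · rw [hab, Finset.sum_singleton, Pool.Agent.H509.Rec.rdeg_eq hP (k := 2) h6]
        exact ⟨d P, by push_cast; ring⟩
      · exfalso
        have h7 := D.unramified v hv
        have h8 : v.asIdeal.map (algebraMap (𝓞 F) (𝓞 H)) =
            (v.asIdeal.map (algebraMap (𝓞 F) (𝓞 K))).map (algebraMap (𝓞 K) (𝓞 H)) := by
          rw [Ideal.map_map, ← IsScalarTower.algebraMap_eq]
        rw [h8, h5, Ideal.map_pow, pow_two] at h7
        have h9 := h7 _ dvd_rfl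
        rw [Ideal.isUnit_iff] at h9
        obtain ⟨w, hw⟩ := Pool.Agent.Q149.AR.above_nonempty (E := H) P
        apply w.isPrime.ne_top
        rw [eq_top_iff, ← h9, Ideal.map_le_iff_le_comap]
        exact le_of_eq (congrArg HeightOneSpectrum.asIdeal hw).symm
  exact ⟨key, fun hG => fr_even D hG key⟩

theorem chg : S_CHG := by
  intro G _ _ P
  constructor
  · have e : {ψ : G →* ℂˣ // ∀ g ∈ P, ψ g = 1} ≃ (G ⧸ P →* ℂˣ) :=
      { toFun := fun ψ => QuotientGroup.lift P ψ.1 ψ.2
        invFun := fun κ => ⟨κ.comp (QuotientGroup.mk' P), fun g hg => by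
          have h0 : (QuotientGroup.mk' P) g = 1 := (QuotientGroup.eq_one_iff g).2 hg
          rw [MonoidHom.comp_apply, h0, map_one]⟩
        left_inv := fun ψ => by
          apply Subtype.ext
          ext g
          rfl
        right_inv := fun κ => by
          ext g
          rfl }
    rw [Nat.card_congr e, Nat.card_congr
      (CommGroup.monoidHom_mulEquiv_of_hasEnoughRootsOfUnity (G ⧸ P) ℂ).some.toEquiv]
    rfl
  · intro g hg
    by_contra hgP
    have h1 : ((g : G) : G ⧸ P) ≠ 1 := fun h => hgP ((QuotientGroup.eq_one_iff g).1 h)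
    obtain ⟨κ, hκ⟩ := CommGroup.exists_apply_ne_one_of_hasEnoughRootsOfUnity (G ⧸ P) ℂ h1
    apply hκ
    exact hg (κ.comp (QuotientGroup.mk' P)) fun h hh => by
      rw [MonoidHom.comp_apply]
      have : (QuotientGroup.mk' P) h = 1 := (QuotientGroup.eq_one_iff h).2 hh
      rw [this, map_one]

end Pool.Agent.H914.BT
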