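import Pool.Agent.H509.BT.Stm4
import Pool.Graph.R_pool_sql_team_seeded_5cf16337.K3h60.E2.Basis

/-! Project BT, PHI: functionals on the Selmer group. -/

set_option autoImplicit false
set_option linter.unusedSectionVars false
set_option linter.deprecated false

open NumberField IsDedekindDomain Filter Topology Module

noncomputable section

namespace Pool.Agent.H353.BTPHI

open Pool.Agent.BT9
open Pool.Agent.Q92.AR (Dv prin up prin_mul prin_one prin_inv prin_div prinHom)
open Pool.Agent.Q128.AR (val_prin)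
open Pool.Agent.K3h30.RS
open Pool.Agent.H509 (U1 Generates)

section
variable {F H : Type} [Field F] [NumberField F] [Field H] [NumberField H] [Algebra F H]

theorem above_under {S : Set (HeightOneSpectrum (𝓞 F))} {w : HeightOneSpectrum (𝓞 H)} :
    Above S w ↔ w.under (𝓞 F) ∈ S := by
  constructor
  · rintro ⟨v, hv, h⟩
    have h1 : w.under (𝓞 F) = v := HeightOneSpectrum.ext h
    rwa [h1]
  · intro h
    exact ⟨_, h, rfl⟩

theorem prin_up (x : Fˣ) (w : HeightOneSpectrum (𝓞 H)) :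
    ∃ e : ℕ, prin (up F H x) w = e * prin x (w.under (𝓞 F)) := by
  have : w.asIdeal.LiesOver (w.under (𝓞 F)).asIdeal := ⟨rfl⟩
  have h := HeightOneSpectrum.valuation_liesOver (A := 𝓞 F) (K := F) H (w.under (𝓞 F)) w (x : F)
  refine ⟨(w.under (𝓞 F)).asIdeal.ramificationIdx' w.asIdeal, ?_⟩
  have h1 : w.valuation H (algebraMap F H (x : F)) = WithZero.exp (-(prin (up F H x) w)) :=
    val_prin (up F H x) w
  rw [h1, val_prin, ← WithZero.exp_nsmul, WithZero.exp_inj, smul_neg, neg_inj, nsmul_eq_mul] at h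
  exact h.symm

theorem val_lt_up (w : HeightOneSpectrum (𝓞 H)) (c : F) :
    w.valuation H (algebraMap F H c) < 1 ↔ (w.under (𝓞 F)).valuation F c < 1 := by
  have : w.asIdeal.LiesOver (w.under (𝓞 F)).asIdeal := ⟨rfl⟩
  have h := HeightOneSpectrum.valuation_liesOver (A := 𝓞 F) (K := F) H (w.under (𝓞 F)) w c
  have h0 := Ideal.IsDedekindDomain.ramificationIdx'_ne_zero_of_liesOver w.asIdeal
    (w.under (𝓞 F)).ne_bot
  rw [← h]
  exact pow_lt_one_iff h0

theorem up_mem_T1 {T : Finset (HeightOneSpectrum (𝓞 F))} {x : Fˣ} :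
    up F H x ∈ T1 H T ↔ x ∈ FT T := by
  rw [mem_T1, mem_FT]
  constructor
  · intro h v hv
    obtain ⟨w, hw⟩ := (Pool.Agent.K3h25.RS.t_OVER F H v).1
    have hwv : w.under (𝓞 F) = v := HeightOneSpectrum.ext (above_singleton.1 hw)
    have h1 := h w ((above_iff hw).2 hv)
    have e : ((up F H x : Hˣ) : H) - 1 = algebraMap F H ((x : F) - 1) := by
      rw [map_sub, map_one]
      rfl
    rw [e, val_lt_up, hwv] at h1
    exact h1
  · intro h w hw
    have e : ((up F H x : Hˣ) : H) - 1 = algebraMap F H ((x : F) - 1) := by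
      rw [map_sub, map_one]
      rfl
    rw [e, val_lt_up]
    exact h _ (above_under.1 hw)

theorem prin_zpow (x : Hˣ) (n : ℤ) : prin (x ^ n) = n • prin x :=
  map_zsmul (prinHom (F := H)) n (Additive.ofMul x)

theorem prin_prod {ι : Type} (A : Finset ι) (f : ι → Hˣ) :
    prin (∏ i ∈ A, f i) = ∑ i ∈ A, prin (f i) := by
  classical
  induction A using Finset.induction_on with
  | empty => rw [Finset.prod_empty, Finset.sum_empty, prin_one]
  | insert a s ha ih => rw [Finset.prod_insert ha, Finset.sum_insert ha, prin_mul, ih]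

theorem val_one_of_T1 {T : Finset (HeightOneSpectrum (𝓞 F))} {x : Hˣ} (hx : x ∈ T1 (F := F) H T)
    {w : HeightOneSpectrum (𝓞 H)} (hw : Above (T : Set (HeightOneSpectrum (𝓞 F))) w) :
    w.valuation H (x : H) = 1 := by
  have h := Valuation.map_one_add_of_lt (w.valuation H) (mem_T1.1 hx w hw)
  rwa [add_sub_cancel] at h

theorem val_one_iff (x : Hˣ) (w : HeightOneSpectrum (𝓞 H)) :
    w.valuation H (x : H) = 1 ↔ prin x w = 0 := by
  rw [val_prin, ← WithZero.exp_zero, WithZero.exp_inj, neg_eq_zero]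

end

section
variable {F H G : Type} [Field F] [NumberField F] [Field H] [NumberField H]
  [Algebra F H] [CommGroup G] [Finite G] [MulSemiringAction G H]
  (D : RubinData F H G) (T : Finset (HeightOneSpectrum (𝓞 F)))

theorem mem_U {x : Hˣ} : x ∈ D.U T ↔ (∀ w : HeightOneSpectrum (𝓞 H),
    ¬ Above (D.S : Set (HeightOneSpectrum (𝓞 F))) w → prin x w = 0) ∧ x ∈ T1 (F := F) H T := by
  constructor
  · rintro ⟨h1, h2⟩
    exact ⟨fun w hw => (val_one_iff x w).1 (h1 w hw), h2⟩
  · rintro ⟨h1, h2⟩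
    exact ⟨fun w hw => (val_one_iff x w).2 (h1 w hw), h2⟩

theorem exists_b (hg : Generates H ⊥ (D.S : Set (HeightOneSpectrum (𝓞 F)))
    (T : Set (HeightOneSpectrum (𝓞 F)))) {x : Fˣ} (hx : x ∈ Sel D T) :
    ∃ b ∈ T1 (F := F) H T, ∃ u ∈ D.U T, up F H x = u * b ^ 2 := by
  classical
  have hG : ∀ w : HeightOneSpectrum (𝓞 H), ∃ g ∈ T1 (F := F) H T,
      (¬ Above (D.S : Set (HeightOneSpectrum (𝓞 F))) w →
        ¬ Above (T : Set (HeightOneSpectrum (𝓞 F))) w →
        ∀ w' : HeightOneSpectrum (𝓞 H), ¬ Above (D.S : Set (HeightOneSpectrum (𝓞 F))) w' →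
          prin g w' = if w' = w then 1 else 0) := by
    intro w
    by_cases h : ¬ Above (D.S : Set (HeightOneSpectrum (𝓞 F))) w ∧
        ¬ Above (T : Set (HeightOneSpectrum (𝓞 F))) w
    · obtain ⟨n, hn, -, y, h1, h2, h3⟩ := hg w h.1 h.2
      rw [Submonoid.mem_bot] at hn
      subst hn
      refine ⟨y, h3, fun _ _ w' hw' => ?_⟩
      by_cases hww : w' = w
      · rw [if_pos hww, hww]
        rw [val_prin, WithZero.exp_inj, neg_inj] at h1
        rw [h1]
        rfl
      · rw [if_neg hww]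
        exact (val_one_iff y w').1 (h2 w' hw' hww)
    · refine ⟨1, (T1 H T).one_mem, fun h1 h2 => absurd ⟨h1, h2⟩ h⟩
  choose g hg1 hg2 using hG
  set P := prin (up F H x) with hP
  set A := P.support.filter (fun w => ¬ Above (D.S : Set (HeightOneSpectrum (𝓞 F))) w) with hA
  set b : Hˣ := ∏ w ∈ A, g w ^ (P w / 2) with hb
  have hup : up F H x ∈ T1 (F := F) H T := up_mem_T1.2 hx.1
  have hbT : b ∈ T1 (F := F) H T :=
    Subgroup.prod_mem _ fun w _ => Subgroup.zpow_mem _ (hg1 w) _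
  have hbp : ∀ w : HeightOneSpectrum (𝓞 H),
      ¬ Above (D.S : Set (HeightOneSpectrum (𝓞 F))) w → 2 * prin b w = P w := by
    intro w hw
    have hev : Even (P w) := by
      obtain ⟨e, he⟩ := prin_up x w
      rw [hP, he]
      refine Even.mul_left (hx.2 _ fun h => hw (above_under.2 h)) _
    have h1 : prin b w = P w / 2 := by
      rw [hb, prin_prod, Finsupp.finset_sum_apply]
      have h2 : ∀ w' ∈ A, prin (g w' ^ (P w' / 2)) w = if w' = w then P w' / 2 else 0 := by
        intro w' hw'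
        rw [hA, Finset.mem_filter, Finsupp.mem_support_iff] at hw'
        have h3 : ¬ Above (T : Set (HeightOneSpectrum (𝓞 F))) w' := by
          intro h4
          exact hw'.1 ((val_one_iff _ _).1 (val_one_of_T1 hup h4))
        rw [prin_zpow, Finsupp.smul_apply, hg2 w' hw'.2 h3 w hw, smul_eq_mul]
        by_cases h4 : w' = w
        · rw [if_pos h4, if_pos h4.symm, mul_one]
        · rw [if_neg h4, if_neg (fun h => h4 h.symm), mul_zero]
      rw [Finset.sum_congr rfl h2, Finset.sum_ite_eq']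
      by_cases h5 : w ∈ A
      · rw [if_pos h5]
      · rw [if_neg h5]
        rw [hA, Finset.mem_filter, Finsupp.mem_support_iff] at h5
        have h6 : P w = 0 := by
          by_contra h7
          exact h5 ⟨h7, hw⟩
        rw [h6]
        rfl
    rw [h1]
    exact Int.mul_ediv_cancel' hev.two_dvd
  refine ⟨b, hbT, up F H x / b ^ 2, ?_, (div_mul_cancel _ _).symm⟩
  rw [mem_U]
  refine ⟨fun w hw => ?_, (T1 H T).div_mem hup ((T1 H T).pow_mem hbT 2)⟩
  rw [prin_div, pow_two, prin_mul, Finsupp.sub_apply, Finsupp.add_apply, ← two_mul, hbp w hw, hP,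
    sub_self]

theorem ev_eq {x : Fˣ} {u u' b b' : Hˣ} (hu : u ∈ D.U T) (hu' : u' ∈ D.U T)
    (hb : b ∈ T1 (F := F) H T) (hb' : b' ∈ T1 (F := F) H T) (h : up F H x = u * b ^ 2)
    (h' : up F H x = u' * b' ^ 2) (f : Additive (D.U T) →+ ℤ) :
    ((ev f u : ℤ) : ZMod 2) = ((ev f u' : ℤ) : ZMod 2) := by
  have hc2 : u' * (b' / b) ^ 2 = u := by
    rw [div_pow, ← mul_div_assoc, ← h', h, mul_div_cancel_right]
  have hc : b' / b ∈ D.U T := by
    rw [mem_U]
    refine ⟨fun w hw => ?_, (T1 H T).div_mem hb' hb⟩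
    have h1 := ((mem_U D T).1 hu).1 w hw
    have h2 := ((mem_U D T).1 hu').1 w hw
    rw [← hc2, prin_mul, pow_two, prin_mul, Finsupp.add_apply, Finsupp.add_apply, h2] at h1
    omega
  have h3 : (⟨u, hu⟩ : D.U T) = ⟨u', hu'⟩ * (⟨b' / b, hc⟩ : D.U T) ^ 2 := Subtype.ext hc2.symm
  rw [ev_of_mem f hu, ev_of_mem f hu', h3, ofMul_mul, ofMul_pow, map_add, map_nsmul]
  push_cast
  have h4 : ((2 : ℕ) : ZMod 2) = 0 := rfl
  rw [nsmul_eq_mul, Int.cast_mul]
  have h5 : (((2 : ℕ) : ℤ) : ZMod 2) = 0 := rfl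
  rw [h5, zero_mul, add_zero]

theorem act_T1 [IsGaloisGroup G F H] (γ : G) {x : Hˣ} (hx : x ∈ T1 (F := F) H T) :
    act γ x ∈ T1 (F := F) H T := by
  intro w hw
  obtain ⟨v, hvT, hv⟩ := above_mem hw
  obtain ⟨w', h1, h2⟩ := (Pool.Agent.K3h25.RS.t_TRANS F H G v w hv).1 γ
  have h3 : ((act γ x : Hˣ) : H) - 1 = γ • ((x : H) - 1) := by
    rw [act_val, smul_sub, smul_one]
  rw [h3, ← h2]
  refine hx w' ?_
  exact (above_iff h1).2 hvT

theorem neg_one_not_mem [IsGaloisGroup G F H] (hT : D.Allowed T) : (-1 : Hˣ) ∉ T1 (F := F) H T := by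
  intro h
  have h1 : (-1 : Hˣ) ∈ D.U T := by
    refine ⟨fun w _ => ?_, h⟩
    rw [Units.val_neg, Units.val_one, Valuation.map_neg, map_one]
  have h2 := Pool.Agent.K3h60.E2.tfU D T hT (-1) h1 2 two_pos neg_one_sq
  have h3 := congrArg (fun z : Hˣ => (z : H)) h2
  simp only [Units.val_one, Units.val_neg] at h3
  have h4 : (2 : H) = 0 := by linear_combination -h3
  exact two_ne_zero h4

theorem mem_Sq [IsGaloisGroup G F H] (hT : D.Allowed T) {x : Fˣ} {d : Hˣ}
    (hd : d ∈ T1 (F := F) H T) (h : up F H x = d ^ 2) : x ∈ Sq T := by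
  have hfix : ∀ g : G, act g d = d := by
    intro g
    have h1 : (act g d) ^ 2 = d ^ 2 := by
      rw [← act_pow, ← h]
      ext
      rw [act_val]
      exact smul_algebraMap g (x : F)
    have h2 : ((act g d : Hˣ) : H) ^ 2 = (d : H) ^ 2 := by
      rw [← Units.val_pow_eq_pow_val, h1, Units.val_pow_eq_pow_val]
    rcases sq_eq_sq_iff_eq_or_eq_neg.mp h2 with h3 | h3
    · exact Units.ext h3
    · exfalso
      have h4 : act g d = -d := Units.ext (by rw [h3, Units.val_neg])
      have h5 : act g d / d = -1 := by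
        rw [h4, neg_div, div_self']
      exact neg_one_not_mem D T hT (h5 ▸ (T1 H T).div_mem (act_T1 T g hd) hd)
  obtain ⟨y, hy⟩ := Algebra.IsInvariant.isInvariant (A := F) (G := G) (d : H)
    (fun g => by
      have h1 := congrArg (fun z : Hˣ => (z : H)) (hfix g)
      exact h1)
  have hy0 : y ≠ 0 := by
    rintro rfl
    rw [map_zero] at hy
    exact d.ne_zero hy.symm
  have hyd : up F H (Units.mk0 y hy0) = d := Units.ext hy
  refine ⟨Units.mk0 y hy0, up_mem_T1.1 (hyd ▸ hd), ?_⟩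
  have hinj : Function.Injective (up F H) := Units.map_injective (algebraMap F H).injective
  apply hinj
  rw [powMonoidHom_apply, map_pow, hyd, h]

end

theorem exists_sq {M : Type} [CommGroup M] (V : Subgroup M) {n : ℕ}
    (bs : Basis (Fin n) ℤ (Additive V)) {u : M} (hu : u ∈ V) (c : Fin n → ℤ)
    (hc : ∀ i, bs.repr (Additive.ofMul (⟨u, hu⟩ : V)) i = 2 * c i) : ∃ z ∈ V, z ^ 2 = u := by
  have e : Additive.ofMul (⟨u, hu⟩ : V) = 2 • ∑ i, c i • bs i := by
    rw [← bs.sum_repr (Additive.ofMul (⟨u, hu⟩ : V)), Finset.smul_sum]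
    refine Finset.sum_congr rfl fun i _ => ?_
    rw [hc i, mul_smul, two_smul, two_nsmul]
  refine ⟨((Additive.toMul (∑ i, c i • bs i) : V) : M), (Additive.toMul (∑ i, c i • bs i)).2, ?_⟩
  have e3 := congrArg (fun z : Additive V => ((Additive.toMul z : V) : M)) e
  simp only [toMul_ofMul, toMul_nsmul, Subgroup.coe_pow] at e3
  exact e3.symm

theorem phi1 {F H G : Type} [Field F] [NumberField F] [Field H] [NumberField H]
    [Algebra F H] [CommGroup G] [Finite G] [MulSemiringAction G H] [IsGaloisGroup G F H]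
    (D : RubinData F H G) (T : Finset (HeightOneSpectrum (𝓞 F)))
    (hg : Generates H ⊥ (D.S : Set (HeightOneSpectrum (𝓞 F)))
      (T : Set (HeightOneSpectrum (𝓞 F)))) (f : Additive (D.U T) →+ ℤ) :
    ∃ Φ : Additive (Sel D T) →+ ZMod 2, ∀ (x : Fˣ) (hx : x ∈ Sel D T) (u : Hˣ), u ∈ D.U T →
      ∀ b ∈ T1 H T, up F H x = u * b ^ 2 → Φ (Additive.ofMul ⟨x, hx⟩) = ((ev f u : ℤ) : ZMod 2) := by
  have hB : ∀ x : Sel D T, ∃ b ∈ T1 (F := F) H T, ∃ u ∈ D.U T, up F H (x : Fˣ) = u * b ^ 2 :=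
    fun x => exists_b D T hg x.2
  choose b hb u hu hbu using hB
  refine ⟨{ toFun := fun x => ((ev f (u x.toMul) : ℤ) : ZMod 2), map_zero' := ?_, map_add' := ?_ },
    ?_⟩
  · have h1 : up F H ((1 : Sel D T) : Fˣ) = 1 * 1 ^ 2 := by
      rw [Subgroup.coe_one, map_one, one_pow, one_mul]
    have h2 := ev_eq D T (hu 1) (D.U T).one_mem (hb 1) (T1 H T).one_mem (hbu 1) h1 f
    rw [toMul_zero, h2, ev_of_mem f (D.U T).one_mem]
    have h3 : f (Additive.ofMul (⟨1, (D.U T).one_mem⟩ : D.U T)) = 0 := map_zero f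
    rw [h3, Int.cast_zero]
  · intro x y
    have h1 : up F H ((x.toMul * y.toMul : Sel D T) : Fˣ) =
        (u x.toMul * u y.toMul) * (b x.toMul * b y.toMul) ^ 2 := by
      rw [Subgroup.coe_mul, map_mul, hbu x.toMul, hbu y.toMul, mul_pow, mul_mul_mul_comm]
    have h2 := ev_eq D T (hu (x.toMul * y.toMul)) ((D.U T).mul_mem (hu x.toMul) (hu y.toMul))
      (hb (x.toMul * y.toMul)) ((T1 H T).mul_mem (hb x.toMul) (hb y.toMul))
      (hbu (x.toMul * y.toMul)) h1 f
    rw [toMul_add, h2, ev_of_mem f ((D.U T).mul_mem (hu x.toMul) (hu y.toMul)),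
      ev_of_mem f (hu x.toMul), ev_of_mem f (hu y.toMul), ← Int.cast_add, ← map_add]
    rfl
  · intro x hx u' hu' b' hb' h
    exact ev_eq D T (hu ⟨x, hx⟩) hu' (hb ⟨x, hx⟩) hb' (hbu ⟨x, hx⟩) h f

theorem phi : S_PHI := by
  intro F H G _ _ _ _ _ _ _ _ _ D T hT hg
  refine ⟨?_, phi1 D T hg⟩
  classical
  set V := D.U T with hV
  have hfin : Module.Finite ℤ (Additive (unitGroup (H := H) (D.S : Set (HeightOneSpectrum (𝓞 F))) ∅)) :=
    Module.Finite.iff_addGroup_fg.2 (fgA Pool.Agent.K3h25.RS.t_OVER D.S)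
  have hVle : V ≤ unitGroup (H := H) (D.S : Set (HeightOneSpectrum (𝓞 F))) ∅ := by
    intro x hx
    refine ⟨hx.1, fun w hw => ?_⟩
    obtain ⟨v, hv, -⟩ := hw
    exact absurd hv (by simp)
  have hVfin : Module.Finite ℤ (Additive V) := by
    let f : Additive V →+ Additive (unitGroup (H := H) (D.S : Set (HeightOneSpectrum (𝓞 F))) ∅) :=
      MonoidHom.toAdditive (Subgroup.inclusion hVle)
    have hinj : Function.Injective f.toIntLinearMap := by
      intro x y hxy
      apply Additive.toMul.injective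
      exact Subgroup.inclusion_injective hVle (Additive.ofMul.injective hxy)
    exact Module.Finite.of_injective _ hinj
  have h3 : IsAddTorsionFree (Additive V) := by
    refine ⟨fun n hn => ?_⟩
    intro a b hab
    have h : n • (a - b) = 0 := by
      rw [nsmul_sub]
      exact sub_eq_zero.mpr hab
    have h' : (Additive.toMul (a - b) : V) = 1 := by
      have h4 := Pool.Agent.K3h60.E2.tfU D T hT _ (Additive.toMul (a - b)).2 n
        (Nat.pos_of_ne_zero hn) (by
        have h5 : (Additive.toMul (a - b) : V) ^ n = 1 := by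
          rw [← toMul_nsmul, h]; rfl
        rw [← Subgroup.coe_pow, h5]; rfl)
      exact Subtype.ext h4
    have h'' : a - b = 0 := h'
    exact sub_eq_zero.mp h''
  have h4 : Module.Free ℤ (Additive V) := inferInstance
  let bs := Module.finBasis ℤ (Additive V)
  set n := Module.finrank ℤ (Additive V) with hn
  have hΦ := fun i : Fin n => phi1 D T hg (bs.coord i).toAddMonoidHom
  choose Φ hΦ using hΦ
  let Ψ : Additive (Sel D T) →+ (Fin n → ZMod 2) :=
    { toFun := fun x i => Φ i x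
      map_zero' := by ext i; simp
      map_add' := fun v w => by ext i; simp }
  let ψ : Sel D T →* Multiplicative (Fin n → ZMod 2) := AddMonoidHom.toMultiplicativeRight Ψ
  have hker : ψ.ker.index ≠ 0 := by
    rw [Subgroup.index_ker]
    have : Finite ψ.range := inferInstance
    exact Nat.card_pos.ne'
  have hle : ψ.ker ≤ (Sq T).subgroupOf (Sel D T) := by
    intro x hx
    rw [MonoidHom.mem_ker] at hx
    rw [Subgroup.mem_subgroupOf]
    obtain ⟨b, hb, u, hu, hxu⟩ := exists_b D T hg x.2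
    have h5 : ∀ i, ∃ c : ℤ, bs.repr (Additive.ofMul (⟨u, hu⟩ : V)) i = 2 * c := by
      intro i
      have h6 : Φ i (Additive.ofMul x) = 0 := congrFun hx i
      have h7 := hΦ i (x : Fˣ) x.2 u hu b hb hxu
      have h8 : Φ i (Additive.ofMul (⟨(x : Fˣ), x.2⟩ : Sel D T)) = 0 := h6
      rw [h8, ev_of_mem _ hu] at h7
      exact (ZMod.intCast_zmod_eq_zero_iff_dvd _ 2).mp h7.symm
    choose c hc using h5
    obtain ⟨z, hzV, hzu⟩ := exists_sq V bs hu c hc
    refine mem_Sq D T hT (d := z * b) ((T1 H T).mul_mem ((mem_U D T).1 hzV).2 hb) ?_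
    rw [hxu, ← hzu, mul_pow]
  intro h0
  have h9 := Subgroup.index_dvd_of_le hle
  change ((Sq T).subgroupOf (Sel D T)).index = 0 at h0
  rw [h0, zero_dvd_iff] at h9
  exact hker h9

end Pool.Agent.H353.BTPHI

namespace Pool.Agent.H353.BT

theorem phi : Pool.Agent.BT9.S_PHI := Pool.Agent.H353.BTPHI.phi

end Pool.Agent.H353.BT
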