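import Pool.Agent.H509.BT.Stm1

/-!
# Project BT, RECD: Artin's reciprocity law with conditions only at the ramified places
-/

set_option autoImplicit false
set_option linter.unusedSectionVars false
set_option linter.deprecated false

namespace Pool.Agent.H389.BT

open NumberField IsDedekindDomain
open Pool.Agent.Q92.AR (Dv prin Pr Ray RayD art nmD nu up Cong Pos frob IsFrobenius Unramified Ram
  prin_mul prin_div prin_one prin_inv mem_Pr val_eq_one nmD_single art_single frob_spec)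
open Pool.Agent.Q20.EX (CongAt Split Inert)
open Pool.Agent.Q5.MZ (PosRam)
open Pool.Agent.Q125.AR (mem_under prin_eq_zero_of_valuation prin_mem_Pr Ray_mono Ram_mono
  art_eq_sum chi_frob finite_dvd)
open Pool.Agent.Q182.MZ (fixReal nm_prin prodForm apxAt prin_eq_of_near)
open Pool.Agent.Q38.EX (near_one near_mul val_nat_lt_one)
open Pool.Agent.BT9 (RamAt RamR S_RECD)

section
variable {F M : Type} [Field F] [NumberField F] [Field M] [NumberField M] [Algebra F M]
  [IsGalois F M]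

theorem congAt_mono {A : Set (HeightOneSpectrum (𝓞 F))} {N N' : ℕ} (h : N' ∣ N) {x : F}
    (hx : CongAt A N x) : CongAt A N' x := by
  intro u huA hu
  obtain ⟨k, hk⟩ := h
  have hNu : (N : 𝓞 F) ∈ u.asIdeal := by
    rw [hk, Nat.cast_mul]
    exact u.asIdeal.mul_mem_right _ hu
  refine (hx u huA hNu).trans ?_
  rw [hk, Nat.cast_mul, map_mul]
  have h3 : u.valuation F (k : F) ≤ 1 := by
    have h4 := u.valuation_le_one (K := F) (k : 𝓞 F)
    simpa using h4
  exact mul_le_of_le_one_right' h3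

/-- a prime ideal at which `ψ` is ramified ramifies in `M` -/
theorem ramAt_ram {ψ : (M ≃ₐ[F] M) →* ℂˣ} {v : HeightOneSpectrum (𝓞 F)} (h : RamAt ψ v) :
    ¬ Unramified M v := by
  obtain ⟨w, g, hw, hg, h1⟩ := h
  intro hu
  refine h1 ?_
  have h2 : g = 1 := by
    refine Pool.Agent.Q238.MZ.inr_trivial (hw.symm ▸ hu) fun x => ?_
    have hgx : IsIntegral ℤ (g (x : M)) := x.2.map g
    refine ⟨⟨g (x : M), hgx⟩ - x, ?_, rfl⟩
    rw [← HeightOneSpectrum.valuation_lt_one_iff_mem (K := M)]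
    exact hg x
  rw [h2, map_one]

/-- if complex conjugations above `φ` act trivially on `L`, then `φ` extends to `L` -/
theorem real_ext (L : IntermediateField F M) (φ : F →+* ℝ)
    (hfix : ∀ (ι : M →+* ℂ) (g : M ≃ₐ[F] M), (∀ x : F, ι (algebraMap F M x) = ((φ x : ℝ) : ℂ)) →
      (∀ x : M, ι (g x) = (starRingEnd ℂ) (ι x)) → ∀ x : L, g (algebraMap L M x) = algebraMap L M x) :
    ∃ χ : L →+* ℝ, χ.comp (algebraMap F L) = φ := by
  obtain ⟨ι, g, hι, hg⟩ := Pool.Agent.H509.Rec.exists_conj (M := M) φ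
  have h1 := hfix ι g hι hg
  have h2 : ∀ x : L, (starRingEnd ℂ) (ι (algebraMap L M x)) = ι (algebraMap L M x) := by
    intro x
    rw [← hg, h1]
  have h3 : ∀ x : L, (((ι (algebraMap L M x)).re : ℝ) : ℂ) = ι (algebraMap L M x) := fun x =>
    Complex.conj_eq_iff_re.1 (h2 x)
  have hcast : Function.Injective (fun r : ℝ => (r : ℂ)) := Complex.ofReal_injective
  refine ⟨{ toFun := fun x => (ι (algebraMap L M x)).re
            map_one' := by rw [map_one, map_one, Complex.one_re]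
            map_mul' := fun x y => hcast (by
              simp only [Complex.ofReal_mul]
              rw [h3, h3, h3, map_mul, map_mul])
            map_zero' := by rw [map_zero, map_zero, Complex.zero_re]
            map_add' := fun x y => by rw [map_add, map_add, Complex.add_re] }, ?_⟩
  ext x
  change (ι (algebraMap L M (algebraMap F L x))).re = φ x
  rw [← IsScalarTower.algebraMap_apply F L M, hι, Complex.ofReal_re]

/-- the Artin map of a character of a quotient, on the divisors supported outside the primes at which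
the character is ramified -/
theorem art_quotR {L : IntermediateField F M} [IsGalois F L] (ψ : (M ≃ₐ[F] M) →* ℂˣ)
    (θ' : (L ≃ₐ[F] L) →* ℂˣ) (hθ' : ∀ g : M ≃ₐ[F] M, θ' (AlgEquiv.restrictNormal g L) = ψ g)
    (d : Dv F) (hd : ∀ v, d v ≠ 0 → Unramified L v) : art θ' d = art ψ d := by
  rw [art_eq_sum, art_eq_sum]
  refine Finset.sum_congr rfl fun v hv => ?_
  have huE : Unramified L v := hd v (Finsupp.mem_support_iff.1 hv)
  have h2 : IsFrobenius v (AlgEquiv.restrictNormal (frob M v) L) :=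
    Pool.Agent.Q225.AR.fr.1 F L M v (frob M v) (frob_spec v)
  have h3 := chi_frob huE (frob_spec (M := L) v) h2 θ'
  rw [h3, hθ']

end

/-- **RECD** -/
theorem recd : S_RECD := by
  classical
  intro F M _ _ _ _ _ _ ψ
  obtain ⟨L, hLgal, θ', hinj, hθ'⟩ := Pool.Agent.Q111.EX.exists_quot ψ
  have hfix : ∀ g : M ≃ₐ[F] M, ψ g = 1 → ∀ x : L, g (algebraMap L M x) = algebraMap L M x := by
    intro g hg x
    have h1 : AlgEquiv.restrictNormal g L = 1 := hinj (by rw [hθ', hg, map_one])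
    rw [← AlgEquiv.restrictNormal_commutes g L x, h1]
    rfl
  have hun : ∀ v : HeightOneSpectrum (𝓞 F), ¬ RamAt ψ v → Unramified L v := fun v hv =>
    Pool.Agent.Q111.EX.unram_of_inert (M := M) v fun w hw g hg => hfix g (by
      by_contra h
      exact hv ⟨w, g, hw, hg, h⟩)
  have hreal : ∀ φ : F →+* ℝ, ¬ RamR ψ φ → ∃ χ : L →+* ℝ, χ.comp (algebraMap F L) = φ := by
    intro φ hφ
    refine real_ext L φ fun ι g hι hg => hfix g ?_
    by_contra h
    exact hφ ⟨ι, g, hι, hg, h⟩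
  obtain ⟨N1, hN1, hR1, h1⟩ := Pool.Agent.Q92.AR.recip F L θ'
  obtain ⟨N2, hN2, hR2⟩ := Pool.Agent.Q280.AR.rF F M
  have hN12 : N1 * N2 ≠ 0 := mul_ne_zero hN1 hN2
  -- the numbers from `good`
  have hgood : ∀ v : HeightOneSpectrum (𝓞 F), ∃ n : ℕ, n ≠ 0 ∧ (¬ RamAt ψ v → ∀ x : Fˣ,
      Pos (x : F) → CongAt {v}ᶜ n (x : F) → art θ' (prin x) = 0) := by
    intro v
    by_cases hv : RamAt ψ v
    · exact ⟨1, one_ne_zero, fun h => absurd hv h⟩
    · obtain ⟨n, hn, -, h⟩ := Pool.Agent.Q111.EX.good Pool.Agent.Q38.EX.nrm F L θ' v (hun v hv)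
      exact ⟨n, hn, fun _ => h⟩
  choose Nv hNv0 hNv using hgood
  let P1 : Finset (HeightOneSpectrum (𝓞 F)) := (finite_dvd (F := F) hN12).toFinset
  have hP1 : ∀ v, v ∈ P1 ↔ ((N1 * N2 : ℕ) : 𝓞 F) ∈ v.asIdeal := by
    intro v
    rw [Set.Finite.mem_toFinset]
    rfl
  have hN0 : N1 * N2 * ∏ v ∈ P1, Nv v ≠ 0 :=
    mul_ne_zero hN12 (Finset.prod_ne_zero_iff.2 fun v _ => hNv0 v)
  have hd12 : N1 * N2 ∣ N1 * N2 * ∏ v ∈ P1, Nv v := dvd_mul_right _ _
  have hdv : ∀ v ∈ P1, Nv v ∣ N1 * N2 * ∏ v ∈ P1, Nv v := fun v hv =>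
    (Finset.dvd_prod_of_mem Nv hv).trans (dvd_mul_left _ _)
  generalize N1 * N2 * ∏ v ∈ P1, Nv v = N at hN0 hd12 hdv
  have hd1 : N1 ∣ N := (dvd_mul_right N1 N2).trans hd12
  have hd2 : N2 ∣ N := (dvd_mul_left N2 N1).trans hd12
  have hRM : Ram F M N := Ram_mono hd2 hR2
  have hRL : Ram F L N := Ram_mono hd1 hR1
  refine ⟨N, hN0, hRM, fun x hx hφ => ?_⟩
  -- the ramified primes
  have hram : ∀ v, RamAt ψ v → (N : 𝓞 F) ∈ v.asIdeal := fun v hv => hRM v (ramAt_ram hv)
  have hram0 : ∀ v, RamAt ψ v → prin x v = 0 := fun v hv =>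
    prin_eq_zero_of_valuation (val_eq_one (hram v hv) (hx v hv))
  have e1 : art ψ (prin x) = art θ' (prin x) := by
    refine (art_quotR ψ θ' hθ' _ fun v hv => hun v fun h => hv (hram0 v h)).symm
  rw [e1]
  have hpr : PosRam L x := fun φ h => hφ φ (by
    by_contra h2
    exact h (hreal φ h2))
  -- the approximations
  have happ : ∀ v : HeightOneSpectrum (𝓞 F), ∃ z : Fˣ, Pos (z : F) ∧ CongAt {v}ᶜ N (z : F) ∧
      ((N : 𝓞 F) ∈ v.asIdeal → v.valuation F ((x : F) / (z : F) - 1) ≤ v.valuation F (N : F)) ∧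
      art θ' (prin z) = 0 := by
    intro v
    by_cases hv : RamAt ψ v
    · refine ⟨1, fun φ => ?_, fun u _ _ => ?_, fun _ => ?_, ?_⟩
      · rw [Units.val_one, map_one]
        exact one_pos
      · rw [Units.val_one, sub_self, map_zero]
        exact zero_le'
      · rw [Units.val_one, div_one]
        exact hx v hv
      · rw [prin_one, map_zero]
    · obtain ⟨z, hz1, hz2, hz3⟩ := apxAt hN0 v x
      refine ⟨z, hz1, hz2, hz3, ?_⟩
      by_cases hv1 : v ∈ P1
      · exact hNv v hv z hz1 (congAt_mono (hdv v hv1) hz2)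
      · refine h1 z ⟨fun u hu => ?_, hz1⟩
        have hne : u ∉ ({v} : Set (HeightOneSpectrum (𝓞 F))) := by
          intro h
          rw [Set.mem_singleton_iff] at h
          refine hv1 ((hP1 v).2 ?_)
          rw [← h, Nat.cast_mul]
          exact u.asIdeal.mul_mem_right _ hu
        exact congAt_mono hd1 hz2 u hne hu
  choose z hz1 hz2 hz3 hz4 using happ
  let P : Finset (HeightOneSpectrum (𝓞 F)) := (finite_dvd (F := F) hN0).toFinset
  have hP : ∀ v, v ∈ P ↔ (N : 𝓞 F) ∈ v.asIdeal := by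
    intro v
    rw [Set.Finite.mem_toFinset]
    rfl
  have hpf := prodForm θ' hN0 hRL (fun y hy => h1 y (Ray_mono hd1 hy)) P hP hpr z hz1 hz2
    (fun v hv => hz3 v ((hP v).1 hv))
  have h5 : ∀ v ∈ P, art θ' (prin (z v) - Finsupp.single v (prin (z v) v)) =
      - art θ' (Finsupp.single v (prin x v)) := by
    intro v hv
    rw [map_sub, hz4, zero_sub, prin_eq_of_near ((hP v).1 hv) (hz3 v ((hP v).1 hv))]
  rw [Finset.sum_congr rfl h5, map_sub, map_sum, Finset.sum_neg_distrib] at hpf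
  have h6 := sub_eq_iff_eq_add.1 hpf
  rw [neg_add_cancel] at h6
  exact h6

end Pool.Agent.H389.BT
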