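import Pool.Agent.H509.BT.Stm4
import Pool.Agent.H509.Chi4

/-!
# Project BT (helper509): RKA, the rank of the `χ`-part of `U_{S,T}`

Adapted from the library module `K3h60/E2/Basis.lean` and from `H509/Chi4.lean`.
-/

set_option autoImplicit false
set_option linter.unusedSectionVars false

open NumberField IsDedekindDomain Filter Topology

noncomputable section

namespace Pool.Agent.H975.BT

open Pool.Agent.K3h30.RS Pool.Agent.K3h56.E2 Pool.Agent.K3h60.E2

/-- the index of the squares in the `χ`-part of `U_{S,T}` -/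
theorem sqT {F H G : Type} [Field F] [NumberField F] [Field H] [NumberField H] [Algebra F H]
    [CommGroup G] [Finite G] [MulSemiringAction G H] [IsGaloisGroup G F H]
    (D : RubinData F H G) (χ : G →* ℂˣ) (T : Finset (HeightOneSpectrum (𝓞 F)))
    (hT : D.Allowed T) (r : ℕ)
    (hr : ((part (D.U ∅) χ).map (powMonoidHom 2)).relIndex (part (D.U ∅) χ) = 2 ^ (r + 1)) :
    ((part (D.U T) χ).map (powMonoidHom 2)).relIndex (part (D.U T) χ) = 2 ^ r := by
  classical
  set U0 := part (D.U ∅) χ with hU0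
  set V := part (D.U T) χ with hV
  set m := part (mu H) χ with hm
  have hfgA : AddGroup.FG (Additive (unitGroup (H := H) (D.S : Set (HeightOneSpectrum (𝓞 F))) ∅)) :=
    fgA Pool.Agent.K3h25.RS.t_OVER D.S
  have hfin : Module.Finite ℤ (Additive (unitGroup (H := H) (D.S : Set (HeightOneSpectrum (𝓞 F))) ∅)) :=
    Module.Finite.iff_addGroup_fg.2 hfgA
  -- finitely generated subgroups
  have hfg : ∀ W : Subgroup Hˣ, W ≤ unitGroup (H := H) (D.S : Set (HeightOneSpectrum (𝓞 F))) ∅ →
      Group.FG W := by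
    intro W hW
    let f : Additive W →+ Additive (unitGroup (H := H) (D.S : Set (HeightOneSpectrum (𝓞 F))) ∅) :=
      MonoidHom.toAdditive (Subgroup.inclusion hW)
    have hinj : Function.Injective f.toIntLinearMap := by
      intro x y hxy
      apply Additive.toMul.injective
      exact Subgroup.inclusion_injective hW (Additive.ofMul.injective hxy)
    have h1 : Module.Finite ℤ (Additive W) := Module.Finite.of_injective _ hinj
    have h2 : AddGroup.FG (Additive W) := Module.Finite.iff_addGroup_fg.1 h1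
    exact GroupFG.iff_add_fg.2 h2
  have hUe : D.U ∅ = unitGroup (H := H) (D.S : Set (HeightOneSpectrum (𝓞 F))) ∅ := by
    show unitGroup _ _ = _
    rw [Finset.coe_empty]
  have hUle : D.U T ≤ D.U ∅ := by
    intro x hx
    refine ⟨hx.1, fun w hw => ?_⟩
    obtain ⟨v, hv, -⟩ := hw
    exact absurd hv (by simp)
  have hU0le : U0 ≤ unitGroup (H := H) (D.S : Set (HeightOneSpectrum (𝓞 F))) ∅ := by
    rw [← hUe]
    exact fun x hx => hx.1
  have hVU : V ≤ U0 := fun x hx => ⟨hUle hx.1, hx.2⟩
  have hVfg : Group.FG V := hfg V (hVU.trans hU0le)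
  have hU0fg : Group.FG U0 := hfg U0 hU0le
  have htfV : ∀ x ∈ V, ∀ n : ℕ, 0 < n → x ^ n = 1 → x = 1 :=
    fun x hx n hn h => tfU D T hT x hx.1 n hn h
  -- roots of unity are units
  have hmuU : ∀ x : Hˣ, IsOfFinOrder x → x ∈ D.U ∅ := by
    intro x hx
    obtain ⟨n, hn, hxn⟩ := isOfFinOrder_iff_pow_eq_one.mp hx
    refine ⟨fun w _ => ?_, fun w hw => ?_⟩
    · have h : w.valuation H (x : H) ^ n = 1 := by
        rw [← map_pow, ← Units.val_pow_eq_pow_val, hxn, Units.val_one, map_one]
      exact (pow_eq_one_iff.1 h).resolve_right hn.ne'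
    · obtain ⟨v, hv, -⟩ := hw
      exact absurd hv (by simp)
  have hmU : m ≤ U0 := fun x hx => ⟨hmuU x hx.1, hx.2⟩
  have hdis : V ⊓ m = ⊥ := by
    rw [eq_bot_iff]
    rintro x ⟨hx, hx'⟩
    obtain ⟨n, hn, hxn⟩ := isOfFinOrder_iff_pow_eq_one.mp hx'.1
    exact Subgroup.mem_bot.2 (htfV x hx n hn hxn)
  -- finite index
  have hidx : V.relIndex U0 ≠ 0 := by
    have htor : ∀ q : U0 ⧸ V.subgroupOf U0, IsOfFinOrder q := by
      intro q
      obtain ⟨x, rfl⟩ := QuotientGroup.mk_surjective q
      obtain ⟨n, hn, hxn⟩ := exists_pow D T hT.1 (x : Hˣ) x.2.1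
      refine isOfFinOrder_iff_pow_eq_one.mpr ⟨n, hn, ?_⟩
      rw [← QuotientGroup.mk_pow, QuotientGroup.eq_one_iff, Subgroup.mem_subgroupOf,
        Subgroup.coe_pow]
      exact ⟨hxn, (U0.pow_mem x.2 n).2⟩
    have : Finite (U0 ⧸ V.subgroupOf U0) :=
      CommGroup.finite_of_fg_isMulTorsion (U0 ⧸ V.subgroupOf U0) (fun q => by
        obtain ⟨n, hn, h⟩ := isOfFinOrder_iff_pow_eq_one.mp (htor q)
        exact isOfFinOrder_iff_pow_eq_one.mpr ⟨n, hn, h⟩)
    exact Subgroup.index_ne_zero_of_finite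
  -- the elements of order two
  set E : Subgroup Hˣ := (powMonoidHom 2 : Hˣ →* Hˣ).ker with hE
  have hEmem : ∀ x : Hˣ, x ∈ E ↔ x = 1 ∨ x = -1 := by
    intro x
    rw [hE, MonoidHom.mem_ker, powMonoidHom_apply]
    constructor
    · intro h
      have h1 : (x : H) ^ 2 = 1 := by
        rw [← Units.val_pow_eq_pow_val, h, Units.val_one]
      rcases (sq_eq_sq_iff_eq_or_eq_neg.mp (h1.trans (one_pow 2).symm)) with h2 | h2
      · exact Or.inl (Units.ext h2)
      · refine Or.inr (Units.ext ?_)
        rw [Units.val_neg, Units.val_one]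
        exact h2
    · rintro (rfl | rfl)
      · exact one_pow 2
      · exact neg_one_sq
  have hEU : E ≤ U0 := by
    intro x hx
    rcases (hEmem x).1 hx with rfl | rfl
    · exact U0.one_mem
    · have h1 : ∀ g : G, act g (-1 : Hˣ) = -1 := by
        intro g
        ext
        rw [act_val, Units.val_neg, Units.val_one, smul_neg, smul_one]
      refine ⟨hmuU _ (isOfFinOrder_iff_pow_eq_one.mpr ⟨2, two_pos, neg_one_sq⟩),
        fun g _ => h1 g, fun g _ => ?_⟩
      rw [h1 g, inv_neg, inv_one]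
  have hEV : V ⊓ E = ⊥ := by
    rw [eq_bot_iff]
    rintro x ⟨hx, hx'⟩
    exact Subgroup.mem_bot.2 (htfV x hx 2 two_pos hx')
  have hEcard : Nat.card E = 2 := by
    have h1 : (E : Set Hˣ) = {1, -1} := by
      ext x
      exact hEmem x
    have h2 : (1 : Hˣ) ≠ -1 := by
      intro h
      have h3 := congrArg (fun z : Hˣ => (z : H)) h
      simp only [Units.val_one, Units.val_neg] at h3
      have h4 : (2 : H) = 0 := by linear_combination h3
      exact two_ne_zero h4
    have h3 : Nat.card E = (E : Set Hˣ).ncard := rfl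
    rw [h3, h1, Set.ncard_pair h2]
  have h2 := idx2 U0 V E hVU hEU rfl hEcard hEV hidx
  rw [hr, pow_succ, mul_comm] at h2
  exact (Nat.eq_of_mul_eq_mul_left two_pos h2).symm

/-- the index of the squares in the `χ`-part of the `S`-units, `χ ≠ 1` -/
theorem sqchi {F H G : Type} [Field F] [NumberField F] [Field H] [NumberField H] [Algebra F H]
    [CommGroup G] [Finite G] [MulSemiringAction G H] [IsGaloisGroup G F H]
    (D : RubinData F H G) (hG : ∀ g : G, g * g = 1) (χ : G →* ℂˣ) (hχ : χ ≠ 1) :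
    ∃ k, ((part (D.U ∅) χ).map (powMonoidHom 2)).relIndex (part (D.U ∅) χ) = 2 ^ (k + 1) ∧
      (D.Active χ → k = D.r) ∧ (¬ D.Active χ → D.r < k) := by
  classical
  have hLoc := Pool.Agent.K3h25.E2.t_LOC
  have hDict := Pool.Agent.K3h41.E2.t_DICT
  have hFw := Pool.Agent.K3h72.E2.t_FINW hLoc
  have hIw := Pool.Agent.K3h50.E2.t_INFW
  have hCount := Pool.Agent.K3h50.E2.t_COUNT
  have hPl := Pool.Agent.K3h73.E2.t_PLACES
  have hsq : ∀ g : G, χ g * χ g = 1 := fun g => by rw [← map_mul, hG, map_one]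
  have hex : ∃ g : G, χ g ≠ 1 := by
    by_contra hcon
    push Not at hcon
    exact hχ (MonoidHom.ext hcon)
  obtain ⟨K, _, _, _, _, τ, hd⟩ := hDict F H G χ hsq hex
  have htw : IsScalarTower F K H := hd.tower
  obtain ⟨f, hfi, hfl, hfr, hfs, ⟨p1, hp1, hp1'⟩, hact, -⟩ := hPl F H G D
  obtain ⟨A0, hA0, hA0c⟩ := exists_over hLoc hd.quad D.S
  -- the infinite places
  have hA : Fintype.card {v : InfinitePlace F // SplAt H χ (Sum.inl v)} +
      Fintype.card (InfinitePlace F) = Fintype.card (InfinitePlace K) := by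
    rw [← hCount F K τ hd.quad, Nat.card_eq_fintype_card]
    congr 1
    exact Fintype.card_congr (Equiv.subtypeEquivRight fun v => splAt_inl hIw hd v)
  set B : Finset (HeightOneSpectrum (𝓞 F)) := D.S.filter fun v => loc K v = 1 with hBdef
  set A : Finset (InfinitePlace F) := Finset.univ.filter fun v => SplAt H χ (Sum.inl v) with hAdef
  have hAcard : A.card + Fintype.card (InfinitePlace F) = Fintype.card (InfinitePlace K) := by
    rw [← hA, hAdef, Fintype.card_subtype]
  set P : Finset (InfinitePlace F ⊕ HeightOneSpectrum (𝓞 F)) := A.disjSum B with hPdef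
  have hPcard : P.card = A.card + B.card := Finset.card_disjSum _ _
  have hPmem : ∀ p, p ∈ P ↔ InSF D p ∧ SplAt H χ p := by
    intro p
    rcases p with v | v
    · rw [hPdef, Finset.inl_mem_disjSum, hAdef, Finset.mem_filter]
      simp [InSF]
    · rw [hPdef, Finset.inr_mem_disjSum, hBdef, Finset.mem_filter, splAt_inr hFw hd]
      rfl
  have hcases : ∀ a, (∃ w, D.w a = Sum.inl w) ∨ ∃ w, D.w a = Sum.inr w := by
    intro a
    rcases D.w a with w | w
    · exact Or.inl ⟨w, rfl⟩
    · exact Or.inr ⟨w, rfl⟩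
  have hfIn : ∀ a, InSF D (f a) := by
    intro a
    rcases hcases a with ⟨w, hw⟩ | ⟨w, hw⟩
    · rw [hfl a w hw]
      trivial
    · obtain ⟨v, h1, h2, -⟩ := hfr a w hw
      rw [h1]
      exact h2
  have hfP : ∀ a, f a ∈ P := fun a => (hPmem _).2 ⟨hfIn a, hfs χ a⟩
  have himg : (Finset.univ.image f) ⊆ P := by
    intro p hp
    obtain ⟨a, -, rfl⟩ := Finset.mem_image.1 hp
    exact hfP a
  have himgc : (Finset.univ.image f).card = D.r := by
    rw [Finset.card_image_of_injective _ hfi, Finset.card_univ, Fintype.card_fin]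
  have hRank := Pool.Agent.K3h17.E2.t_RANK
  have hKH := Pool.Agent.K3h3.E2.t_KH
  have hrc : P.card + (Fintype.card (InfinitePlace F) + D.S.card) =
      Fintype.card (InfinitePlace K) + A0.card := by omega
  -- the map from `K^*` to `H^*`
  let j : Kˣ →* Hˣ := Units.map (algebraMap K H : K →* H)
  have hj : Function.Injective j := Pool.Agent.K3h3.E2.inj
  obtain ⟨hK1, hK2⟩ := hKH F H G K τ χ hd D A0 hA0
  have hK1' : (SU K A0 ⊓ minus τ).map j = part (D.U ∅) χ := hK1
  refine ⟨P.card, ?_, fun ha => ?_, fun hna => ?_⟩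
  · rw [← hK1', Subgroup.map_map]
    have h1 : (powMonoidHom 2 : Hˣ →* Hˣ).comp j = j.comp (powMonoidHom 2) := by
      ext x
      simp
    rw [h1, ← Subgroup.map_map, Subgroup.relIndex_map_map_of_injective _ _ hj,
      hRank F K τ hd.quad D.S A0 hA0 P.card hrc]
  · have himgP : Finset.univ.image f = P := by
      apply le_antisymm himg
      intro p hp
      obtain ⟨h1, h2⟩ := (hPmem p).1 hp
      obtain ⟨a, ha'⟩ := (hact χ hχ).1 ha p h1 h2
      exact Finset.mem_image.2 ⟨a, Finset.mem_univ a, ha'⟩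
    rw [← himgc, himgP]
  · rw [← himgc]
    apply Finset.card_lt_card
    refine ⟨himg, fun hsub => hna ((hact χ hχ).2 fun p h1 h2 => ?_)⟩
    obtain ⟨a, -, ha⟩ := Finset.mem_image.1 (hsub ((hPmem p).2 ⟨h1, h2⟩))
    exact ⟨a, ha⟩

/-- the index of the squares in the invariant part of the `S`-units -/
theorem sqone {F H G : Type} [Field F] [NumberField F] [Field H] [NumberField H] [Algebra F H]
    [CommGroup G] [Finite G] [MulSemiringAction G H] [IsGaloisGroup G F H]
    (D : RubinData F H G) :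
    ∃ k, ((part (D.U ∅) (1 : G →* ℂˣ)).map (powMonoidHom 2)).relIndex
        (part (D.U ∅) (1 : G →* ℂˣ)) = 2 ^ (k + 1) ∧
      (D.Active 1 → k = D.r) ∧ (¬ D.Active 1 → D.r < k) := by
  classical
  have hR1 := Pool.Agent.K3h17.E2.t_RANK1
  have hK := Pool.Agent.K3h3.E2.t_KH1
  have hPl := Pool.Agent.K3h73.E2.t_PLACES
  obtain ⟨f, hf, hfl, hfr, -, ⟨p1, hp1, hp1'⟩, -, hact⟩ := hPl F H G D
  have hc : 0 < Fintype.card (InfinitePlace F) := Fintype.card_pos
  have hcardP : ∃ P : Finset (InfinitePlace F ⊕ HeightOneSpectrum (𝓞 F)), (∀ p, p ∈ P ↔ InSF D p) ∧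
      P.card = Fintype.card (InfinitePlace F) + D.S.card := by
    refine ⟨Finset.univ.disjSum D.S, ?_, ?_⟩
    · rintro (p | p)
      · simp [InSF]
      · simp [InSF]
    · rw [Finset.card_disjSum, Finset.card_univ]
  obtain ⟨P, hP, hPc⟩ := hcardP
  have hcases : ∀ a, (∃ w, D.w a = Sum.inl w) ∨ ∃ w, D.w a = Sum.inr w := by
    intro a
    rcases D.w a with w | w
    · exact Or.inl ⟨w, rfl⟩
    · exact Or.inr ⟨w, rfl⟩
  have hfP : ∀ a, f a ∈ P := by
    intro a
    rw [hP]
    rcases hcases a with ⟨w, hw⟩ | ⟨w, hw⟩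
    · rw [hfl a w hw]
      trivial
    · obtain ⟨v, hv1, hv2, -⟩ := hfr a w hw
      rw [hv1]
      exact hv2
  let j : Fˣ →* Hˣ := Units.map (algebraMap F H : F →* H)
  have hj : Function.Injective j := by
    intro a b hab
    apply Units.ext
    apply (algebraMap F H).injective
    exact congrArg (fun x : Hˣ => (x : H)) hab
  obtain ⟨hK1, hK2⟩ := hK F H G D
  have hK1' : (SU F D.S).map j = part (D.U ∅) (1 : G →* ℂˣ) := hK1
  obtain ⟨k, hk⟩ : ∃ k, k + 1 = Fintype.card (InfinitePlace F) + D.S.card :=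
    ⟨Fintype.card (InfinitePlace F) + D.S.card - 1, by omega⟩
  refine ⟨k, ?_, fun ha => ?_, fun hna => ?_⟩
  · rw [← hK1', Subgroup.map_map]
    have h1 : (powMonoidHom 2 : Hˣ →* Hˣ).comp j = j.comp (powMonoidHom 2) := by
      ext x
      simp
    rw [h1, ← Subgroup.map_map, Subgroup.relIndex_map_map_of_injective _ _ hj, hR1 F D.S, hk]
  · rw [hact] at ha
    have huniq : ∀ p, InSF D p → p ≠ p1 → p ∈ Set.range f := by
      intro p hp hne
      by_contra hcon
      exact hne (ha p p1 hp hp1 hcon hp1')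
    have hr : D.r + 1 = Fintype.card (InfinitePlace F) + D.S.card := by
      have h1 : insert p1 (Finset.univ.image f) = P := by
        ext x
        simp only [Finset.mem_insert, Finset.mem_image, Finset.mem_univ, true_and]
        constructor
        · rintro (rfl | ⟨a, rfl⟩)
          · exact (hP _).2 hp1
          · exact hfP a
        · intro hx
          by_cases hxp : x = p1
          · exact Or.inl hxp
          · exact Or.inr (huniq x ((hP _).1 hx) hxp)
      have h2 := congrArg Finset.card h1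
      rw [Finset.card_insert_of_notMem, Finset.card_image_of_injective _ hf, Finset.card_univ,
        Fintype.card_fin, hPc] at h2
      · exact h2
      · simpa using hp1'
    omega
  · rw [hact] at hna
    push Not at hna
    obtain ⟨p, p', hp, hp', hpf, hpf', hne⟩ := hna
    have h1 : insert p (insert p' (Finset.univ.image f)) ⊆ P := by
      intro x hx
      simp only [Finset.mem_insert, Finset.mem_image, Finset.mem_univ, true_and] at hx
      rcases hx with rfl | rfl | ⟨a, rfl⟩
      · exact (hP _).2 hp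
      · exact (hP _).2 hp'
      · exact hfP a
    have h2 := Finset.card_le_card h1
    rw [Finset.card_insert_of_notMem, Finset.card_insert_of_notMem,
      Finset.card_image_of_injective _ hf, Finset.card_univ, Fintype.card_fin, hPc] at h2
    · omega
    · simpa using hpf'
    · simp only [Finset.mem_insert, Finset.mem_image, Finset.mem_univ, true_and, not_or]
      exact ⟨hne, hpf⟩


theorem rka : Pool.Agent.BT9.S_RKA := by
  intro F H G _ _ _ _ _ _ _ _ _ D T hT hG χ
  have key : ∃ k, ((part (D.U ∅) χ).map (powMonoidHom 2)).relIndex (part (D.U ∅) χ) =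
      2 ^ (k + 1) ∧ (D.Active χ → k = D.r) ∧ (¬ D.Active χ → D.r < k) := by
    by_cases hχ : χ = 1
    · rw [hχ]
      exact sqone D
    · exact sqchi D hG χ hχ
  obtain ⟨k, hk, h1, h2⟩ := key
  have h3 := sqT D χ T hT k hk
  refine ⟨fun ha => ?_, fun hna => ⟨k, h2 hna, h3⟩⟩
  rw [h3, h1 ha]

end Pool.Agent.H975.BT
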