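import Pool.Agent.H509.BT.Stm2
import Pool.Graph.R_pool_sql_team_seeded_5cf16337.K3h41.E2.Dict
import Pool.Graph.R_pool_sql_team_seeded_5cf16337.K3h72.E2.Finw
import Pool.Graph.R_pool_sql_team_seeded_5cf16337.K3h25.E2.Loc
import Pool.Graph.R_pool_sql_team_seeded_5cf16337.K3h50.E2.Inf

/-!
# Project BT, SUR: the local symbols are not trivial
-/

set_option autoImplicit false
set_option linter.unusedSectionVars false
set_option linter.deprecated false

open NumberField IsDedekindDomain Filter Topology Module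

noncomputable section

namespace Pool.Agent.H295.BT

open Pool.Agent.BT9
open Pool.Agent.Q92.AR (Dv prin Pr Ray nmD nu up sD puD Cong Pos frob IsFrobenius Unramified Ram art
  prin_mul prin_one prin_inv)
open Pool.Agent.Q20.EX (Inert CongAt)
open Pool.Agent.K3h30.RS
open Pool.Agent.K3h56.E2 (Quad Dict part InSF SplAt Over CA SU minus actK oddCard sgn loc)
open Pool.Agent.H509 (U1 Generates)
open Pool.Agent.Q5.MZ (LocN NonSplit PosRam VAData S_LA S_LB S_LC S_LD)
open Pool.Agent.Q125.AR (prin_eq_zero_of_valuation)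
open Pool.Agent.Q38.EX (near_one val_nat_lt_one)

/-- the injective character of a group of order two -/
theorem inj_char {F K : Type} [Field F] [NumberField F] [Field K] [NumberField K] [Algebra F K]
    {τ : K ≃ₐ[F] K} (h : Quad F K τ) : ∃ ψ : (K ≃ₐ[F] K) →* ℂˣ, Function.Injective ψ := by
  classical
  have hne : (-1 : ℂˣ) ≠ 1 := by
    intro h1
    have h2 := congrArg (fun u : ℂˣ => (u : ℂ)) h1
    simp only [Units.val_neg, Units.val_one] at h2
    norm_num at h2
  have haut := Pool.Agent.K3h50.E2.aut_eq h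
  have hτ1 : τ ≠ 1 := h.ne
  have hττ : τ * τ = 1 := by
    rcases haut (τ * τ) with h1 | h1
    · exact h1
    · exact absurd (mul_left_cancel (h1.trans (mul_one τ).symm)) hτ1
  have hval : ∀ σ : K ≃ₐ[F] K, σ = 1 ∨ σ = τ := fun σ => haut σ
  let f : (K ≃ₐ[F] K) → ℂˣ := fun σ => if σ = 1 then 1 else -1
  have f1 : f 1 = 1 := if_pos rfl
  have fτ : f τ = -1 := if_neg hτ1
  refine ⟨{ toFun := f, map_one' := f1, map_mul' := fun a b => ?_ }, fun a b hab => ?_⟩
  · rcases hval a with rfl | rfl
    · rw [one_mul, f1, one_mul]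
    · rcases hval b with rfl | rfl
      · rw [mul_one, f1, mul_one]
      · rw [hττ, f1, fτ, neg_mul_neg, one_mul]
  · have hab' : f a = f b := hab
    rcases hval a with rfl | rfl
    · rcases hval b with rfl | rfl
      · rfl
      · rw [f1, fτ] at hab'
        exact absurd hab'.symm hne
    · rcases hval b with rfl | rfl
      · rw [f1, fτ] at hab'
        exact absurd hab' hne
      · rfl

section
variable {F H G : Type} [Field F] [NumberField F] [Field H] [NumberField H] [Algebra F H]
  [CommGroup G] [Finite G] [MulSemiringAction G H] [IsGaloisGroup G F H]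

include G in
/-- ramification in a subfield -/
theorem ram_sub {K : Type} [Field K] [NumberField K] [Algebra F K] [Algebra K H]
    [IsScalarTower F K H] {N : ℕ} (hR : Ram F H N) : Ram F K N := by
  have hgal : IsGalois F H := IsGaloisGroup.isGalois G F H
  intro v hv
  refine hR v fun hu => hv ?_
  refine Pool.Agent.Q111.EX.unram_of_inert (M := H) v fun w hw g hg x => ?_
  have h1 : g = 1 := Pool.Agent.H509.Rec.inert_one (F := F) (K := F) (by rw [hw]; exact hu) hg
  rw [h1]
  rfl

theorem prin_S {D : RubinData F H G} {N : ℕ} (hN : Mod D N) {z : Fˣ}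
    {v : HeightOneSpectrum (𝓞 F)} (hv : v ∈ D.S)
    (h : v.valuation F ((z : F) - 1) ≤ v.valuation F (N : F)) : prin z v = 0 :=
  prin_eq_zero_of_valuation (near_one _ (val_nat_lt_one (hN.inS v hv)) h)

/-- `fr` does not see the places of `S` -/
theorem fr_sub (D : RubinData F H G) {v : HeightOneSpectrum (𝓞 F)} (hv : v ∈ D.S) (d : Dv F)
    (k : ℤ) : fr D (d - Finsupp.single v k) = fr D d := by
  rw [sub_eq_add_neg, fr_add, fr_neg, fr_single_mem D hv, inv_one, mul_one]

include F in
/-- an automorphism which fixes an infinite place and is not the identity is a complex conjugation -/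
theorem conj_of_fixes {w : InfinitePlace H} {γ : G} (hf : Fixes (Sum.inl w : Place H) γ)
    (hγ : γ ≠ 1) (x : H) : w.embedding (γ • x) = (starRingEnd ℂ) (w.embedding x) := by
  have hfaith : FaithfulSMul G H := (inferInstance : IsGaloisGroup G F H).faithful
  let ι' : H →+* ℂ := w.embedding.comp (MulSemiringAction.toRingHom G H γ)
  have hw : ∀ y : H, w (γ • y) = w y := by
    intro y
    have h1 : w (γ • y) ^ w.mult = w y ^ w.mult := hf y
    exact (pow_left_inj₀ (apply_nonneg _ _) (apply_nonneg _ _) w.mult_ne_zero).1 h1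
  have hmk : InfinitePlace.mk ι' = InfinitePlace.mk w.embedding := by
    rw [InfinitePlace.mk_embedding]
    ext y
    rw [InfinitePlace.apply]
    change ‖w.embedding (γ • y)‖ = w y
    rw [InfinitePlace.norm_embedding_eq, hw]
  rcases InfinitePlace.mk_eq_iff.1 hmk with h1 | h1
  · exfalso
    apply hγ
    refine hfaith.eq_of_smul_eq_smul fun y => ?_
    rw [one_smul]
    exact w.embedding.injective (DFunLike.congr_fun h1 y)
  · have h2 := DFunLike.congr_fun h1 x
    have h3 : (starRingEnd ℂ) (w.embedding (γ • x)) = w.embedding x := h2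
    rw [← h3, Complex.conj_conj]

end

theorem sur (h0 : S_RECD) (h1 : S_LC) (h2 : S_LSR) (h3 : S_BRI) (h4 : S_BRK) : S_SUR := by
  intro F H G _ _ _ _ _ _ _ _ _ D hexp N hN ψ γ hψγ
  have hcomm : SMulCommClass G F H := IsGaloisGroup.commutes
  have hψ2 : ∀ g : G, ψ g * ψ g = 1 := fun g => by rw [← map_mul, hexp, map_one]
  have hγ1 : γ ≠ 1 := by
    rintro rfl
    exact hψγ (map_one ψ)
  have hgal : IsGalois F H := IsGaloisGroup.isGalois G F H
  refine ⟨fun w hw hf => ?_, fun w hf => ?_⟩
  · -- prime ideals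
    obtain ⟨K, fK, nK, aF, aH, τ, hD⟩ := Pool.Agent.K3h41.E2.t_DICT F H G ψ hψ2 ⟨γ, hψγ⟩
    have htow : IsScalarTower F K H := hD.tower
    have hgalK : IsGalois F K := Pool.Agent.K3h50.E2.isGalois_of_quad hD.quad
    obtain ⟨ψK, hψK⟩ := inj_char hD.quad
    set v := w.under (𝓞 F) with hv
    have habove : Above {v} w := ⟨v, rfl, rfl⟩
    have hloc : loc K v ≠ 1 := by
      intro hl
      exact hψγ (((Pool.Agent.K3h72.E2.t_FINW Pool.Agent.K3h25.E2.t_LOC F H G K τ ψ hD v w
        habove).2 hl) γ hf)
    obtain ⟨P, hP, -⟩ := (Pool.Agent.K3h25.E2.t_LOC F K τ hD.quad v).2 hloc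
    have hns : NonSplit K v := by
      intro u u' hu hu'
      have a1 : Above {v} u := ⟨v, rfl, by rw [← hu]; rfl⟩
      have a2 : Above {v} u' := ⟨v, rfl, by rw [← hu']; rfl⟩
      rw [(hP u).1 a1, (hP u').1 a2]
    obtain ⟨z, hz1, hz2, hz3⟩ := h1 F K ψK v N hD.quad.deg hψK hN.n0 (hN.inS v hw)
      (ram_sub (G := G) (H := H) hN.ram) hns
    refine ⟨z, hz1, hz2, fun hc => hz3 ?_⟩
    rw [h4 F H G K τ ψ hD D ψK hψK]
    · rw [fr_sub D hw, hc, ofMul_one]
    · intro v' hv'
      classical
      rw [Finsupp.sub_apply]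
      by_cases hvv : v' = v
      · rw [hvv, Finsupp.single_eq_same, sub_self]
      · rw [Finsupp.single_eq_of_ne hvv, sub_zero]
        exact prin_S hN hv' (hz2 v' hvv (hN.inS v' hv'))
  · -- infinite places
    have hconj := conj_of_fixes (F := F) hf hγ1
    have hreal : ∀ x : F, (((w.embedding (algebraMap F H x)).re : ℝ) : ℂ) =
        w.embedding (algebraMap F H x) := by
      intro x
      refine Complex.conj_eq_iff_re.1 ?_
      rw [← hconj, smul_algebraMap]
    have hcast : Function.Injective (fun r : ℝ => (r : ℂ)) := Complex.ofReal_injective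
    let φ : F →+* ℝ :=
      { toFun := fun x => (w.embedding (algebraMap F H x)).re
        map_one' := by rw [map_one, map_one, Complex.one_re]
        map_mul' := fun x y => hcast (by
          simp only [Complex.ofReal_mul]
          rw [hreal, hreal, hreal, map_mul, map_mul])
        map_zero' := by rw [map_zero, map_zero, Complex.zero_re]
        map_add' := fun x y => by rw [map_add, map_add, Complex.add_re] }
    have hφ : ∀ x : F, w.embedding (algebraMap F H x) = ((φ x : ℝ) : ℂ) := fun x => (hreal x).symm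
    refine ⟨φ, ?_, ?_⟩
    · have e1 : (algebraMap ℝ ℂ).comp φ = w.embedding.comp (algebraMap F H) := by
        ext x
        exact hreal x
      rw [e1]
      conv_rhs => rw [← InfinitePlace.mk_embedding w]
      rw [InfinitePlace.comap_mk]
    · obtain ⟨g, hg⟩ := Pool.Agent.H509.Rec.exists_eK F F H G γ (fun x => smul_algebraMap γ x)
      set ψ' : (H ≃ₐ[F] H) →* ℂˣ := ψ.comp (Pool.Agent.H509.Rec.eK F F H G) with hψ'
      have hram : RamR ψ' φ := by
        refine ⟨w.embedding, g, hφ, fun x => ?_, ?_⟩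
        · rw [← Pool.Agent.H509.Rec.eK_smul F F H G g x, hg]
          exact hconj x
        · rw [hψ', MonoidHom.comp_apply, hg]
          exact hψγ
      obtain ⟨z, hz1, hz2, hz3, hz4⟩ := h2 h0 F H ψ' (fun g => by
        rw [hψ', MonoidHom.comp_apply]; exact hψ2 _) φ hram N hN.n0
      refine ⟨z, hz1, hz2, hz3, fun hc => hz4 ?_⟩
      rw [hψ', h3 F H G D ψ (prin z) (fun v hv => prin_S hN hv (hz1 v (hN.inS v hv))), hc, ofMul_one]

end Pool.Agent.H295.BT
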