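import Pool.Agent.H509.BT.Stm4

/-! Project BT, task TADJ: adjusting `β` modulo `T`. -/

set_option autoImplicit false
set_option linter.unusedSectionVars false
set_option linter.deprecated false

open NumberField IsDedekindDomain

noncomputable section

namespace Pool.Agent.H199.BT

open Pool.Agent.BT9
open Pool.Agent.Q92.AR (nu up)
open Pool.Agent.K3h30.RS
open Pool.Agent.K3h56.E2 (Quad Dict SplAt actK sgn loc S_LOC)
open Pool.Agent.K3h72.E2 (mem_iff lies tr tr_coe neg_int one_lt_norm card_le above_mid frob_mem)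

section quad

variable {F K : Type} [Field F] [NumberField F] [Field K] [NumberField K] [Algebra F K]
  {τ : K ≃ₐ[F] K}

theorem quad_norm (hQ : Quad F K τ) (x : K) :
    algebraMap F K (Algebra.norm F x) = x * τ x := by
  classical
  have : Algebra.IsQuadraticExtension F K := { finrank_eq_two' := hQ.deg }
  have : IsGalois F K := inferInstance
  rw [Algebra.norm_eq_prod_automorphisms]
  have hcard : Fintype.card (K ≃ₐ[F] K) = 2 := by
    rw [← Nat.card_eq_fintype_card, IsGalois.card_aut_eq_finrank, hQ.deg]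
  have huniv : (Finset.univ : Finset (K ≃ₐ[F] K)) = {AlgEquiv.refl, τ} := by
    symm
    apply Finset.eq_univ_of_card
    rw [Finset.card_pair hQ.ne.symm, hcard]
  rw [huniv, Finset.prod_pair hQ.ne.symm]
  rfl

theorem quad_inv (hQ : Quad F K τ) (x : K) : τ (τ x) = x := by
  by_cases hx : x = 0
  · rw [hx, map_zero, map_zero]
  have h1 := congrArg τ (quad_norm hQ x)
  rw [AlgEquiv.commutes, quad_norm hQ, map_mul, mul_comm x] at h1
  have hx' : τ x ≠ 0 := by
    intro h
    exact hx ((map_eq_zero τ).1 h)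
  exact (mul_left_cancel₀ hx' h1).symm

/-- a local condition -/
def Loc (τ : K ≃ₐ[F] K) (β : Kˣ) (v : HeightOneSpectrum (𝓞 F))
    (y : HeightOneSpectrum (𝓞 K) → Kˣ) : Prop :=
  ∀ z : Kˣ, (∀ w : HeightOneSpectrum (𝓞 K), Above {v} w →
    w.valuation K ((z : K) / (y w : K) - 1) < 1) →
    ∀ w : HeightOneSpectrum (𝓞 K), Above {v} w →
      w.valuation K (z : K) ≤ w.valuation K ((z : K) + (β : K) * τ (z : K))

theorem val_one {w : HeightOneSpectrum (𝓞 K)} {x : K} (h : w.valuation K (x - 1) < 1) :
    w.valuation K x = 1 := by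
  have h1 := Valuation.map_one_add_of_lt (w.valuation K) h
  rwa [add_sub_cancel] at h1

theorem val_div {w : HeightOneSpectrum (𝓞 K)} {x y : K} (hy : y ≠ 0)
    (h : w.valuation K (x / y - 1) < 1) : w.valuation K x = w.valuation K y := by
  have h1 := val_one h
  rw [map_div₀] at h1
  have h2 : w.valuation K y ≠ 0 := (Valuation.ne_zero_iff _).2 hy
  exact (div_eq_one_iff_eq h2).1 h1

theorem loc_split (hQ : Quad F K τ) {β : Kˣ} {v : HeightOneSpectrum (𝓞 F)}
    {P P' : HeightOneSpectrum (𝓞 K)} (hne : P ≠ P')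
    (hab : ∀ Q : HeightOneSpectrum (𝓞 K), Above {v} Q ↔ Q = P ∨ Q = P')
    (hv : ∀ x : K, P'.valuation K x = P.valuation K (τ x))
    (hβ1 : P.valuation K ((β : K) * τ (β : K)) = 1) (hβ : P.valuation K (β : K) ≤ 1) :
    ∃ y : HeightOneSpectrum (𝓞 K) → Kˣ, Loc τ β v y := by
  classical
  obtain ⟨π, hπ⟩ := HeightOneSpectrum.valuation_exists_uniformizer K P'
  have hπ1 : P'.valuation K π < 1 := by
    rw [hπ]
    rw [← WithZero.exp_zero]
    exact WithZero.exp_lt_exp.2 (by norm_num)
  have hπ0 : π ≠ 0 := by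
    rintro rfl
    rw [map_zero] at hπ
    exact WithZero.exp_ne_zero hπ.symm
  refine ⟨fun w => if w = P then 1 else Units.mk0 π hπ0, ?_⟩
  intro z hz
  have hz1 : P.valuation K (z : K) = 1 := by
    have h1 := hz P ((hab P).2 (Or.inl rfl))
    dsimp only at h1
    rw [if_pos rfl, Units.val_one, div_one] at h1
    exact val_one h1
  have hz2 : P'.valuation K (z : K) < 1 := by
    have h1 := hz P' ((hab P').2 (Or.inr rfl))
    dsimp only at h1
    rw [if_neg hne.symm, Units.val_mk0] at h1
    rw [val_div hπ0 h1]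
    exact hπ1
  have hz3 : P.valuation K (τ (z : K)) < 1 := by rw [← hv]; exact hz2
  have hβ2 : 1 ≤ P.valuation K (τ (β : K)) := by
    by_contra hcon
    rw [not_le] at hcon
    rw [map_mul] at hβ1
    have h2 : P.valuation K (β : K) * P.valuation K (τ (β : K)) < 1 := by
      calc P.valuation K (β : K) * P.valuation K (τ (β : K))
          ≤ 1 * P.valuation K (τ (β : K)) := mul_le_mul_left hβ _
        _ < 1 := by rw [one_mul]; exact hcon
    rw [hβ1] at h2
    exact lt_irrefl _ h2
  intro w hw
  rcases (hab w).1 hw with rfl | rfl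
  · have h1 : w.valuation K ((β : K) * τ (z : K)) < w.valuation K (z : K) := by
      rw [hz1, map_mul]
      calc w.valuation K (β : K) * w.valuation K (τ (z : K))
          ≤ 1 * w.valuation K (τ (z : K)) := mul_le_mul_left hβ _
        _ < 1 := by rw [one_mul]; exact hz3
    rw [Valuation.map_add_eq_of_lt_left _ h1]
  · rw [hv, hv, map_add, map_mul, quad_inv hQ]
    have h1 : P.valuation K (τ (z : K)) < P.valuation K (τ (β : K) * (z : K)) := by
      rw [map_mul, hz1, mul_one]
      exact hz3.trans_le hβ2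
    rw [Valuation.map_add_eq_of_lt_right _ h1]
    exact h1.le

theorem loc_inert {β : Kˣ} {v : HeightOneSpectrum (𝓞 F)} {P : HeightOneSpectrum (𝓞 K)}
    (hab : ∀ Q : HeightOneSpectrum (𝓞 K), Above {v} Q ↔ Q = P)
    (hv : ∀ x : K, P.valuation K x = P.valuation K (τ x))
    (hβ1 : P.valuation K ((β : K) * τ (β : K)) = 1) {a : K} (ha : P.valuation K a ≤ 1)
    (ha' : P.valuation K (a - τ a) = 1) :
    ∃ y : HeightOneSpectrum (𝓞 K) → Kˣ, Loc τ β v y := by
  have hβ : P.valuation K (β : K) = 1 := by
    rw [map_mul, ← hv] at hβ1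
    rcases lt_trichotomy (P.valuation K (β : K)) 1 with h | h | h
    · have := mul_lt_one_of_nonneg_of_lt_one_left (zero_le) h h.le
      rw [hβ1] at this
      exact absurd this (lt_irrefl _)
    · exact h
    · have := one_lt_mul_of_lt_of_le h h.le
      rw [hβ1] at this
      exact absurd this (lt_irrefl _)
  have hex : ∃ c : K, P.valuation K c ≤ 1 ∧ P.valuation K (c + (β : K) * τ c) = 1 := by
    by_cases h1 : P.valuation K (1 + (β : K)) = 1
    · refine ⟨1, by rw [map_one], ?_⟩
      rw [map_one, mul_one]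
      exact h1
    · have h2 : P.valuation K (1 + (β : K)) < 1 := by
        refine lt_of_le_of_ne ?_ h1
        refine (Valuation.map_add _ _ _).trans (max_le ?_ hβ.le)
        rw [map_one]
      refine ⟨a, ha, ?_⟩
      have e1 : a + (β : K) * τ a = (a - τ a) + (1 + (β : K)) * τ a := by ring
      have h3 : P.valuation K ((1 + (β : K)) * τ a) < P.valuation K (a - τ a) := by
        rw [ha', map_mul, ← hv]
        calc P.valuation K (1 + (β : K)) * P.valuation K a
            ≤ P.valuation K (1 + (β : K)) * 1 := mul_le_mul_right ha _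
          _ < 1 := by rw [mul_one]; exact h2
      rw [e1, Valuation.map_add_eq_of_lt_left _ h3, ha']
  obtain ⟨c, hc1, hc2⟩ := hex
  have hc0 : c ≠ 0 := by
    rintro rfl
    rw [map_zero, mul_zero, add_zero, map_zero] at hc2
    exact zero_ne_one hc2
  refine ⟨fun _ => Units.mk0 c hc0, ?_⟩
  intro z hz w hw
  have hwP := (hab w).1 hw
  subst hwP
  have h1 := hz w hw
  rw [Units.val_mk0] at h1
  have h2 := val_div hc0 h1
  have h3 : w.valuation K ((z : K) - c) < 1 := by
    have e1 : (z : K) - c = c * ((z : K) / c - 1) := by field_simp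
    rw [e1, map_mul]
    calc w.valuation K c * w.valuation K ((z : K) / c - 1)
        ≤ 1 * w.valuation K ((z : K) / c - 1) := mul_le_mul_left hc1 _
      _ < 1 := by rw [one_mul]; exact h1
  have e2 : (z : K) + (β : K) * τ (z : K) =
      (c + (β : K) * τ c) + (((z : K) - c) + (β : K) * τ ((z : K) - c)) := by
    rw [map_sub]; ring
  have h4 : w.valuation K (((z : K) - c) + (β : K) * τ ((z : K) - c)) <
      w.valuation K (c + (β : K) * τ c) := by
    rw [hc2]
    refine lt_of_le_of_lt (Valuation.map_add _ _ _) (max_lt h3 ?_)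
    rw [map_mul, hβ, one_mul, ← hv]
    exact h3
  rw [e2, Valuation.map_add_eq_of_lt_left _ h4, hc2, h2]
  exact hc1

theorem val_lt {v : HeightOneSpectrum (𝓞 F)} {w : HeightOneSpectrum (𝓞 K)} (hw : Above {v} w)
    {x : F} (hx : v.valuation F x < 1) : w.valuation K (algebraMap F K x) < 1 := by
  have : w.asIdeal.LiesOver v.asIdeal := ⟨(lies hw).symm⟩
  rw [← HeightOneSpectrum.valuation_liesOver K v w x]
  exact pow_lt_one₀ zero_le hx (Ideal.IsDedekindDomain.ramificationIdx'_ne_zero_of_liesOver w.asIdeal v.ne_bot)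

end quad

theorem tadj : S_TADJ := by
  classical
  intro F H G K _ _ _ _ _ _ _ _ _ _ _ _ _ τ χ hd D T hT β hβ
  have hQ := hd.quad
  have := hd.tower
  have hnb : algebraMap F K ((nu F K β : Fˣ) : F) = (β : K) * τ (β : K) := quad_norm hQ (β : K)
  have hloc : ∀ v : HeightOneSpectrum (𝓞 F), ∃ y : HeightOneSpectrum (𝓞 K) → Kˣ,
      v ∈ T → Loc τ β v y := by
    intro v
    by_cases hvT : v ∈ T
    · have hvS : v ∉ D.S := fun h => (Finset.disjoint_left.1 hT) h hvT
      have hβv := mem_FT.1 hβ v hvT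
      have hb1 : ∀ w : HeightOneSpectrum (𝓞 K), Above {v} w →
          w.valuation K ((β : K) * τ (β : K)) = 1 := by
        intro w hw
        have h1 := val_lt hw hβv
        rw [map_sub, map_one, hnb] at h1
        exact val_one h1
      have hL := Pool.Agent.K3h25.E2.t_LOC F K τ hQ v
      by_cases hl : loc K v = 1
      · obtain ⟨P, P', hne, hab, hv, -⟩ := hL.1 hl
        have hP := (hab P).2 (Or.inl rfl)
        have hP' := (hab P').2 (Or.inr rfl)
        by_cases hle : P.valuation K (β : K) ≤ 1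
        · obtain ⟨y, hy⟩ := loc_split hQ hne hab hv (hb1 P hP) hle
          exact ⟨y, fun _ => hy⟩
        · have hv' : ∀ x : K, P.valuation K x = P'.valuation K (τ x) := by
            intro x; rw [hv, quad_inv hQ]
          have hab' : ∀ Q : HeightOneSpectrum (𝓞 K), Above {v} Q ↔ Q = P' ∨ Q = P := by
            intro Q; rw [hab Q, or_comm]
          have hle' : P'.valuation K (β : K) ≤ 1 := by
            rw [hv]
            by_contra hcon
            rw [not_le] at hle hcon
            have h2 := hb1 P hP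
            rw [map_mul] at h2
            have h3 := one_lt_mul_of_lt_of_le hle hcon.le
            rw [h2] at h3
            exact lt_irrefl _ h3
          obtain ⟨y, hy⟩ := loc_split hQ hne.symm hab' hv' (hb1 P' hP') hle'
          exact ⟨y, fun _ => hy⟩
      · obtain ⟨P, hab, hv, hc⟩ := hL.2 hl
        have hP := (hab P).2 rfl
        have hF := D.frob v hvS
        have hfr := Pool.Agent.K3h72.E2.t_FROB Pool.Agent.K3h25.E2.t_LOC F H G K τ χ hd v (D.σ v)
          (D.unramified v hvS) hF
        have hχ : χ (D.σ v) ≠ 1 := by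
          intro h
          rw [h, Units.val_one] at hfr
          exact hl (by exact_mod_cast hfr)
        have hl0 : loc K v ≠ 0 := by
          intro h
          rw [h, Int.cast_zero] at hfr
          exact (χ (D.σ v)).ne_zero hfr.symm
        have hnorm : Ideal.absNorm P.asIdeal = Ideal.absNorm v.asIdeal ^ 2 := by
          rcases hc with ⟨-, -, h⟩ | ⟨h, -⟩
          · exact h
          · exact absurd h hl0
        obtain ⟨wH, hwH⟩ := (Pool.Agent.K3h25.RS.t_OVER K H P).1
        have hwv : Above {v} wH := by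
          rw [above_singleton]
          have h1 := lies hwH
          have h2 := lies hP
          rw [← h2, ← h1, Ideal.comap_comap, ← IsScalarTower.algebraMap_eq]
        have hex : ∃ a : 𝓞 K, a - tr τ a ∉ P.asIdeal := by
          by_contra hcon
          push Not at hcon
          have h1 : Ideal.absNorm P.asIdeal ≤ Ideal.absNorm v.asIdeal := by
            refine card_le P _ (one_lt_norm v) fun x => ?_
            have h3 := hF wH hwv (algebraMap (𝓞 K) (𝓞 H) x)
            have h4 : D.σ v • algebraMap (𝓞 K) (𝓞 H) x -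
                algebraMap (𝓞 K) (𝓞 H) x ^ (Ideal.absNorm v.asIdeal) ∈ wH.asIdeal := by
              rw [← HeightOneSpectrum.valuation_lt_one_iff_mem (K := H)]
              exact h3
            rw [← neg_int hd hχ, ← map_pow, ← map_sub, mem_iff hwH] at h4
            have h5 := P.asIdeal.add_mem (hcon x) h4
            rw [sub_add_sub_cancel] at h5
            have h6 := P.asIdeal.neg_mem h5
            rwa [neg_sub] at h6
          rw [hnorm] at h1
          have h2 := one_lt_norm v
          nlinarith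
        obtain ⟨a, ha⟩ := hex
        have ha1 : P.valuation K (a : K) ≤ 1 := HeightOneSpectrum.valuation_le_one P a
        have ha2 : P.valuation K ((a : K) - τ (a : K)) = 1 := by
          have h1 : P.valuation K ((a - tr τ a : 𝓞 K) : K) ≤ 1 :=
            HeightOneSpectrum.valuation_le_one P _
          have h2 : ¬ P.valuation K ((a - tr τ a : 𝓞 K) : K) < 1 := by
            intro h3
            exact ha ((HeightOneSpectrum.valuation_lt_one_iff_mem (K := K) P _).1 h3)
          have h3 := le_antisymm h1 (not_lt.1 h2)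
          have e1 : ((a - tr τ a : 𝓞 K) : K) = (a : K) - τ (a : K) := by
            rw [← tr_coe]; exact map_sub (algebraMap (𝓞 K) K) _ _
          rwa [e1] at h3
        obtain ⟨y, hy⟩ := loc_inert hab hv (hb1 P hP) ha1 ha2
        exact ⟨y, fun _ => hy⟩
    · exact ⟨fun _ => 1, fun h => absurd h hvT⟩
  choose y hy using hloc
  by_cases hTe : T = ∅
  · refine ⟨1, ?_⟩
    rw [mem_T1]
    rintro w ⟨v, hv, -⟩
    rw [hTe] at hv
    exact absurd (Finset.mem_coe.1 hv) (Finset.notMem_empty v)
  obtain ⟨v₀, hv₀⟩ := Finset.nonempty_iff_ne_empty.2 hTe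
  have hN0 : (∏ v ∈ T, Ideal.absNorm v.asIdeal) ≠ 0 :=
    Finset.prod_ne_zero_iff.2 fun v _ => (zero_lt_one.trans (one_lt_norm v)).ne'
  obtain ⟨z, hz⟩ := Pool.Agent.Q38.EX.approx hN0 (fun w => y (w.under (𝓞 F)) w)
  have hmem : ∀ v ∈ T, ∀ w : HeightOneSpectrum (𝓞 K), Above {v} w →
      ((∏ v ∈ T, Ideal.absNorm v.asIdeal : ℕ) : 𝓞 K) ∈ w.asIdeal := by
    intro v hv w hw
    have h1 : ((Ideal.absNorm v.asIdeal : ℕ) : 𝓞 F) ∈ v.asIdeal := Ideal.absNorm_mem v.asIdeal
    have h2 : ((Ideal.absNorm v.asIdeal : ℕ) : 𝓞 K) ∈ w.asIdeal := by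
      rw [← mem_iff hw, map_natCast] at h1
      exact h1
    rw [← Finset.mul_prod_erase T _ hv, Nat.cast_mul]
    exact w.asIdeal.mul_mem_right _ h2
  have hkey : ∀ v ∈ T, ∀ w : HeightOneSpectrum (𝓞 K), Above {v} w →
      w.valuation K (z : K) ≤ w.valuation K ((z : K) + (β : K) * τ (z : K)) := by
    intro v hv
    refine hy v hv z ?_
    intro w hw
    have h1 := hz w (hmem v hv w hw)
    have h2 : w.under (𝓞 F) = v := HeightOneSpectrum.ext (lies hw)
    rw [h2] at h1
    exact h1.trans_lt (Pool.Agent.Q38.EX.val_nat_lt_one (hmem v hv w hw))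
  have hγ0 : (z : K) + (β : K) * τ (z : K) ≠ 0 := by
    intro h
    obtain ⟨w, hw⟩ := (Pool.Agent.K3h25.RS.t_OVER F K v₀).1
    have h1 := hkey v₀ hv₀ w hw
    rw [h, map_zero] at h1
    have h2 : w.valuation K (z : K) = 0 := le_antisymm h1 zero_le
    exact z.ne_zero ((Valuation.zero_iff _).1 h2)
  refine ⟨(Units.mk0 _ hγ0)⁻¹, ?_⟩
  rw [mem_T1]
  rintro w ⟨v, hv, hwv⟩
  have hvT : v ∈ T := Finset.mem_coe.1 hv
  have hw : Above {v} w := ⟨v, rfl, hwv⟩
  have h1 := hkey v hvT w hw
  have h2 := val_lt hw (mem_FT.1 hβ v hvT)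
  rw [map_sub, map_one, hnb] at h2
  have hτγ0 : τ ((z : K) + (β : K) * τ (z : K)) ≠ 0 := fun h => hγ0 ((map_eq_zero τ).1 h)
  have e1 : ((β * ((Units.mk0 _ hγ0)⁻¹ / actK τ (Units.mk0 _ hγ0)⁻¹) : Kˣ) : K) - 1 =
      ((β : K) * τ (β : K) - 1) * ((z : K) / ((z : K) + (β : K) * τ (z : K))) := by
    have e2 : ((actK τ (Units.mk0 _ hγ0)⁻¹ : Kˣ) : K) = (τ ((z : K) + (β : K) * τ (z : K)))⁻¹ := by
      rw [map_inv, Units.val_inv_eq_inv_val]; rfl
    rw [Units.val_mul, Units.val_div_eq_div_val, e2, Units.val_inv_eq_inv_val, Units.val_mk0,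
      div_inv_eq_mul, map_add, map_mul, quad_inv hQ]
    field_simp
    ring
  rw [e1, map_mul, map_div₀]
  have h3 : w.valuation K ((z : K) + (β : K) * τ (z : K)) ≠ 0 := (Valuation.ne_zero_iff _).2 hγ0
  calc w.valuation K ((β : K) * τ (β : K) - 1) *
        (w.valuation K (z : K) / w.valuation K ((z : K) + (β : K) * τ (z : K)))
      ≤ w.valuation K ((β : K) * τ (β : K) - 1) * 1 :=
        mul_le_mul_right (div_le_one_of_le₀ h1 zero_le) _
    _ < 1 := by rw [mul_one]; exact h2

end Pool.Agent.H199.BT
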