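import Pool.Agent.H509.BT.Stm4

/-!
# BT-TCLA: the cokernel of the map of the class groups (helper738)
-/

set_option autoImplicit false
set_option linter.unusedSectionVars false
set_option linter.deprecated false

open NumberField IsDedekindDomain Filter Topology Module

noncomputable section

namespace Pool.Agent.H738.BT.TA

open Pool.Agent.BT9
open Pool.Agent.Q92.AR (Dv prin Pr Ray nmD nu up sD puD Cong Pos frob IsFrobenius Unramified Ram art
  prin_mul prin_one prin_inv prin_div sE sE_apply prinHom)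
open Pool.Agent.Q20.EX (Inert CongAt)
open Pool.Agent.K3h30.RS
open Pool.Agent.K3h56.E2 (Quad Dict part InSF SplAt Over CA SU minus actK oddCard sgn cls)
open Pool.Agent.H509 (U1 Generates)
open Pool.Agent.H509.Rec (clD cl_single cl_prin cl_ker cl_CA cl_surj)
open Pool.Agent.Q149.AR (prin_eq_neg_log sD_apply puD_apply prin_sE act_under)
open Pool.Agent.TeamU (act)

/-! ### Divisors outside a set of primes -/

section
variable {K : Type} [Field K] [NumberField K]

/-- divisors which vanish on `A` -/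
def DA (A : Set (HeightOneSpectrum (𝓞 K))) : AddSubgroup (Dv K) where
  carrier := {d | ∀ w ∈ A, d w = 0}
  add_mem' {a b} ha hb w hw := by rw [Finsupp.add_apply, ha w hw, hb w hw, add_zero]
  zero_mem' _ _ := rfl
  neg_mem' {a} ha w hw := by rw [Finsupp.neg_apply, ha w hw, neg_zero]

open Classical in
/-- the part of a divisor outside `A` -/
def rs (A : Set (HeightOneSpectrum (𝓞 K))) : Dv K →+ Dv K :=
  Finsupp.filterAddHom (fun w => w ∉ A)

theorem rs_mem {A : Set (HeightOneSpectrum (𝓞 K))} (d : Dv K) {w : HeightOneSpectrum (𝓞 K)}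
    (hw : w ∈ A) : rs A d w = 0 := by
  classical
  exact Finsupp.filter_apply_neg _ _ (not_not.2 hw)

theorem rs_not {A : Set (HeightOneSpectrum (𝓞 K))} (d : Dv K) {w : HeightOneSpectrum (𝓞 K)}
    (hw : w ∉ A) : rs A d w = d w := by
  classical
  exact Finsupp.filter_apply_pos _ _ hw

/-- the divisor of an element, outside `A` -/
def rK (A : Set (HeightOneSpectrum (𝓞 K))) : Additive Kˣ →+ Dv K := (rs A).comp prinHom

theorem rK_mem {A : Set (HeightOneSpectrum (𝓞 K))} (x : Additive Kˣ)
    {w : HeightOneSpectrum (𝓞 K)} (hw : w ∈ A) : rK A x w = 0 := rs_mem _ hw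

theorem rK_not {A : Set (HeightOneSpectrum (𝓞 K))} (x : Additive Kˣ)
    {w : HeightOneSpectrum (𝓞 K)} (hw : w ∉ A) : rK A x w = prin x.toMul w := rs_not _ hw

/-- the class of a divisor with support in `A` -/
theorem cl_supp {A : Set (HeightOneSpectrum (𝓞 K))} {a : Dv K} (ha : ∀ w, w ∉ A → a w = 0) :
    clD a ∈ Subgroup.toAddSubgroup (CA A) := by
  have h1 : a = ∑ w ∈ a.support, a w • Finsupp.single w (1 : ℤ) := by
    conv_lhs => rw [← Finsupp.sum_single a]
    refine Finset.sum_congr rfl fun w _ => ?_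
    rw [Finsupp.smul_single, smul_eq_mul, mul_one]
  rw [h1, map_sum]
  refine AddSubgroup.sum_mem _ fun w hw => ?_
  rw [map_zsmul, cl_single]
  refine AddSubgroup.zsmul_mem _ ?_ _
  have hwA : w ∈ A := by
    by_contra h
    exact (Finsupp.mem_support_iff.1 hw) (ha w h)
  change cls w ∈ CA A
  unfold CA
  exact Subgroup.subset_closure ⟨w, hwA, rfl⟩

/-- the order of the class group without the classes of the primes in `A` -/
theorem index_CA (A : Set (HeightOneSpectrum (𝓞 K))) :
    (rK A).range.relIndex (DA A) = (CA A).index := by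
  have h1 : (rK A).range = (Subgroup.toAddSubgroup (CA A)).comap clD ⊓ DA A := by
    apply le_antisymm
    · rintro _ ⟨y, rfl⟩
      refine ⟨?_, fun w hw => rK_mem y hw⟩
      change clD (rK A y) ∈ Subgroup.toAddSubgroup (CA A)
      have h2 : clD (rK A y) = -clD (prin y.toMul - rK A y) := by
        rw [map_sub, cl_prin, zero_sub, neg_neg]
      rw [h2]
      refine AddSubgroup.neg_mem _ (cl_supp fun w hw => ?_)
      rw [Finsupp.sub_apply, rK_not y hw, sub_self]
    · rintro d ⟨h2, h3⟩
      change clD d ∈ Subgroup.toAddSubgroup (CA A) at h2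
      obtain ⟨a, ha1, ha2⟩ := cl_CA (A := A) (c := (clD d).toMul) h2
      have h4 : clD (d - a) = 0 := by
        rw [map_sub, ha2]
        exact sub_self _
      obtain ⟨x, hx⟩ := cl_ker _ h4
      refine ⟨Additive.ofMul x, ?_⟩
      ext w
      by_cases hw : w ∈ A
      · rw [rK_mem _ hw, h3 w hw]
      · rw [rK_not _ hw]
        have h5 : prin x w = d w - a w := by rw [← hx, Finsupp.sub_apply]
        rw [ha1 w hw, sub_zero] at h5
        exact h5
  have h2 : (DA A).map clD ⊔ Subgroup.toAddSubgroup (CA A) = ⊤ := by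
    rw [eq_top_iff]
    intro c _
    obtain ⟨d, -, hd⟩ := cl_surj (K := K) one_ne_zero c.toMul
    have h3 : c = clD (rs A d) + clD (d - rs A d) := by
      rw [← map_add, add_sub_cancel, hd]
      rfl
    rw [h3]
    refine AddSubgroup.add_mem _ (AddSubgroup.mem_sup_left ⟨rs A d, fun w hw => rs_mem d hw, rfl⟩)
      (AddSubgroup.mem_sup_right (cl_supp fun w hw => ?_))
    rw [Finsupp.sub_apply, rs_not d hw, sub_self]
  rw [h1, AddSubgroup.inf_relIndex_right, AddSubgroup.relIndex_comap,
    ← AddSubgroup.relIndex_sup_right, h2, AddSubgroup.relIndex_top_right]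
  rfl

end

/-! ### The quadratic extension -/

section
variable {F K H : Type} [Field F] [NumberField F] [Field K] [NumberField K] [Field H]
  [NumberField H] [Algebra F K] [Algebra K H] [Algebra F H] [IsScalarTower F K H]

/-- a prime which is unramified in `H` is unramified in the intermediate field `K` -/
theorem unr_bot {v : HeightOneSpectrum (𝓞 F)} (h : Unramified H v) : Unramified K v := by
  intro P hP hle
  obtain ⟨Q, hQ⟩ := Pool.Agent.Q149.AR.above_nonempty (F := K) (E := H) P
  have h1 : Q.under (𝓞 F) = v := by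
    rw [← hP, ← hQ]
    apply HeightOneSpectrum.ext
    change Q.asIdeal.comap (algebraMap (𝓞 F) (𝓞 H)) =
      (Q.asIdeal.comap (algebraMap (𝓞 K) (𝓞 H))).comap (algebraMap (𝓞 F) (𝓞 K))
    rw [Ideal.comap_comap, ← IsScalarTower.algebraMap_eq]
  apply h Q h1
  have h2 : v.asIdeal.map (algebraMap (𝓞 F) (𝓞 H)) =
      (v.asIdeal.map (algebraMap (𝓞 F) (𝓞 K))).map (algebraMap (𝓞 K) (𝓞 H)) := by
    rw [Ideal.map_map, ← IsScalarTower.algebraMap_eq]
  rw [h2]
  refine (Ideal.map_mono hle).trans ?_
  rw [Ideal.map_pow]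
  refine Ideal.pow_right_mono ?_ 2
  rw [Ideal.map_le_iff_le_comap, ← hQ]
  exact le_rfl

end

section
variable {F K : Type} [Field F] [NumberField F] [Field K] [NumberField K] [Algebra F K]

/-- the divisor of an element of `F` at an unramified prime -/
theorem prin_up_apply (x : Fˣ) (w : HeightOneSpectrum (𝓞 K))
    (hu : Unramified K (w.under (𝓞 F))) : prin (up F K x) w = prin x (w.under (𝓞 F)) := by
  rw [prin_eq_neg_log, prin_eq_neg_log]
  have hov : Pool.Agent.TeamU.Over w (w.under (𝓞 F)) := rfl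
  have h1 : w.valuation K ((up F K x : Kˣ) : K) =
      (w.under (𝓞 F)).valuation F (x : F) ^
        ((w.under (𝓞 F)).asIdeal.ramificationIdx' w.asIdeal) :=
    Pool.Agent.TeamU.val_over hov (x : F)
  have he : Ideal.ramificationIdx' (w.under (𝓞 F)).asIdeal w.asIdeal = 1 := by
    refine Ideal.ramificationIdx'_spec ?_ ?_
    · rw [pow_one, Ideal.map_le_iff_le_comap]
      exact le_of_eq rfl
    · exact hu w rfl
  rw [h1, he, pow_one]

theorem above_iff (S : Set (HeightOneSpectrum (𝓞 F))) (w : HeightOneSpectrum (𝓞 K)) :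
    Above S w ↔ w.under (𝓞 F) ∈ S := by
  constructor
  · rintro ⟨v, hv, h⟩
    have h1 : w.under (𝓞 F) = v := HeightOneSpectrum.ext h
    rw [h1]
    exact hv
  · intro h
    exact ⟨w.under (𝓞 F), h, rfl⟩

theorem gen_tau {τ : K ≃ₐ[F] K} (hQ : Quad F K τ) (g : K ≃ₐ[F] K) : g ∈ Subgroup.zpowers τ := by
  have : Algebra.IsQuadraticExtension F K := { finrank_eq_two' := hQ.deg }
  have : IsGalois F K := inferInstance
  have hcard : Nat.card (K ≃ₐ[F] K) = 2 := by
    rw [IsGalois.card_aut_eq_finrank, hQ.deg]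
  have hτ1 : τ ≠ 1 := hQ.ne
  by_cases h : g = 1
  · rw [h]
    exact Subgroup.one_mem _
  · obtain ⟨y, hy, hy'⟩ := (Nat.card_eq_two_iff' (1 : K ≃ₐ[F] K)).mp hcard
    rw [hy' g h, ← hy' τ hτ1]
    exact Subgroup.mem_zpowers τ

/-- the homomorphism `x ↦ x / τ x` -/
def phi (τ : K ≃ₐ[F] K) : Kˣ →* Kˣ := (MonoidHom.id Kˣ) / actK τ

theorem phi_apply (τ : K ≃ₐ[F] K) (x : Kˣ) : phi τ x = x / actK τ x := rfl

/-- Hilbert 90 -/
theorem map_Y {τ : K ≃ₐ[F] K} (hQ : Quad F K τ) (U : Subgroup Kˣ) :
    (U.comap (phi τ)).map (phi τ) = U ⊓ minus τ := by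
  obtain ⟨htt, hfix⟩ := Pool.Agent.K3h92.E2.tau_facts τ hQ
  have hinv : ∀ α : Kˣ, actK τ (actK τ α) = α := fun α => Units.ext (htt _)
  apply le_antisymm
  · rintro _ ⟨y, hy, rfl⟩
    refine ⟨hy, ?_⟩
    change actK τ (phi τ y) = (phi τ y)⁻¹
    rw [phi_apply, map_div, hinv, inv_div]
  · rintro z ⟨hzU, hz⟩
    have hz' : actK τ z = z⁻¹ := hz
    have hzK : τ (z : K) = (z : K)⁻¹ := by
      have h := congrArg Units.val hz'
      rw [Units.val_inv_eq_inv_val] at h
      exact h
    obtain ⟨y, hy⟩ : ∃ y : Kˣ, phi τ y = z := by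
      by_cases h1 : (1 : K) + z = 0
      · obtain ⟨w, hw⟩ : ∃ w : K, τ w ≠ w := by
          by_contra hc
          push Not at hc
          exact hQ.ne (AlgEquiv.ext hc)
        have h2 : w - τ w ≠ 0 := sub_ne_zero.2 fun h => hw h.symm
        refine ⟨Units.mk0 _ h2, ?_⟩
        rw [phi_apply, div_eq_iff_eq_mul]
        apply Units.ext
        change w - τ w = (z : K) * τ (w - τ w)
        have hz1 : (z : K) = -1 := by linear_combination h1
        rw [map_sub, htt, hz1]
        ring
      · refine ⟨Units.mk0 _ h1, ?_⟩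
        rw [phi_apply, div_eq_iff_eq_mul]
        apply Units.ext
        change 1 + (z : K) = (z : K) * τ (1 + (z : K))
        rw [map_add, map_one, hzK, mul_add, mul_one, mul_inv_cancel₀ z.ne_zero, add_comm]
    refine ⟨y, ?_, hy⟩
    rw [SetLike.mem_coe, Subgroup.mem_comap, hy]
    exact hzU

end

/-- **TCLA** -/
theorem tcla : S_TCLA := by
  intro F H G K _ _ _ _ _ _ _ _ _ _ _ _ _ τ χ hD D A0 hA0 a ha
  have htow := hD.tower
  have hQ := hD.quad
  have : Algebra.IsQuadraticExtension F K := { finrank_eq_two' := hQ.deg }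
  have : IsGalois F K := inferInstance
  obtain ⟨htt, hfix⟩ := Pool.Agent.K3h92.E2.tau_facts τ hQ
  obtain ⟨A, hAd⟩ : ∃ A : Set (HeightOneSpectrum (𝓞 K)), A = (A0 : Set _) := ⟨_, rfl⟩
  obtain ⟨S, hSd⟩ : ∃ S : Set (HeightOneSpectrum (𝓞 F)), S = (D.S : Set _) := ⟨_, rfl⟩
  rw [← hAd, ← hSd] at ha
  have hAS : ∀ w : HeightOneSpectrum (𝓞 K), w ∈ A ↔ w.under (𝓞 F) ∈ S := by
    intro w
    rw [hAd, Finset.mem_coe, hA0 w, hSd, Finset.mem_coe]
    constructor
    · rintro ⟨v, hv, h⟩
      rw [above_iff, Set.mem_singleton_iff] at h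
      rwa [h]
    · intro h
      exact ⟨_, h, (above_iff _ _).2 rfl⟩
  have hAct : ∀ w : HeightOneSpectrum (𝓞 K), act τ⁻¹ w ∈ A ↔ w ∈ A := by
    intro w
    rw [hAS, hAS, act_under]
  have hun : ∀ w : HeightOneSpectrum (𝓞 K), w ∉ A → Unramified K (w.under (𝓞 F)) := by
    intro w hw
    have h1 : w.under (𝓞 F) ∉ D.S := by
      intro h
      apply hw
      rw [hAS, hSd]
      exact h
    exact unr_bot (H := H) (Pool.Agent.H509.Rec.unr_of_squarefree (D.unramified _ h1))
  have hpin : Function.Injective (puD F K) := by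
    intro e e' h
    ext v
    obtain ⟨w, hw⟩ := Pool.Agent.Q149.AR.above_nonempty (F := F) (E := K) v
    have h1 := DFunLike.congr_fun h w
    rw [puD_apply, puD_apply, hw] at h1
    exact h1
  -- units
  obtain ⟨U, hU⟩ : ∃ U : Subgroup Kˣ, U = SU K A := ⟨_, rfl⟩
  have hUm : ∀ x : Kˣ, x ∈ U ↔ ∀ w, w ∉ A → prin x w = 0 := by
    intro x
    rw [hU]
    exact forall₂_congr fun w hw => (Pool.Agent.Q182.AR.prin_eq_zero_iff x w).symm
  have hact : ∀ (x : Kˣ) (w : HeightOneSpectrum (𝓞 K)), prin (actK τ x) w = prin x (act τ⁻¹ w) := by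
    intro x w
    have h1 := prin_sE τ (Additive.ofMul x)
    have h2 := DFunLike.congr_fun h1 w
    rw [sD_apply] at h2
    exact h2
  have hphi : ∀ (x : Kˣ) (w : HeightOneSpectrum (𝓞 K)),
      prin (phi τ x) w = prin x w - prin x (act τ⁻¹ w) := by
    intro x w
    rw [phi_apply, prin_div, Finsupp.sub_apply, hact]
  obtain ⟨Y, hY⟩ : ∃ Y : Subgroup Kˣ, Y = U.comap (phi τ) := ⟨_, rfl⟩
  have hYm : ∀ x : Kˣ, x ∈ Y ↔ ∀ w, w ∉ A → prin x w = prin x (act τ⁻¹ w) := by
    intro x
    rw [hY, Subgroup.mem_comap, hUm]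
    refine forall₂_congr fun w hw => ?_
    rw [hphi, sub_eq_zero]
  have hUY : U ≤ Y := by
    intro x hx
    rw [hUm] at hx
    rw [hYm]
    intro w hw
    rw [hx w hw, hx _ (fun h => hw ((hAct w).1 h))]
  have hkY : (phi τ).ker ≤ Y := by
    intro x hx
    rw [hY, Subgroup.mem_comap, MonoidHom.mem_ker.1 hx]
    exact U.one_mem
  -- the index `m`
  obtain ⟨m, hm⟩ : ∃ m : ℕ, m = (U.map (phi τ)).relIndex (U ⊓ minus τ) := ⟨_, rfl⟩
  have hm1 : m = (U ⊔ (phi τ).ker).relIndex Y := by
    rw [hm, ← map_Y hQ U, ← hY, Subgroup.relIndex_map_map, sup_of_le_left hkY]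
  -- the additive side
  obtain ⟨P, hP⟩ : ∃ P : AddSubgroup (Dv K), P = (rK A).range := ⟨_, rfl⟩
  obtain ⟨L, hL⟩ : ∃ L : AddSubgroup (Dv K), L = (DA S).map (puD F K) := ⟨_, rfl⟩
  have hker : (rK A).ker = Subgroup.toAddSubgroup U := by
    ext x
    change rK A x = 0 ↔ x.toMul ∈ U
    rw [hUm]
    constructor
    · intro h w hw
      rw [← rK_not x hw, h]
      rfl
    · intro h
      ext w
      by_cases hw : w ∈ A
      · rw [rK_mem x hw]
        rfl
      · rw [rK_not x hw, h w hw]
        rfl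
  have hm2 : ((Subgroup.toAddSubgroup (phi τ).ker).map (rK A)).relIndex
      ((Subgroup.toAddSubgroup Y).map (rK A)) = m := by
    rw [AddSubgroup.relIndex_map_map, hker, hm1]
    have h1 : Subgroup.toAddSubgroup Y ⊔ Subgroup.toAddSubgroup U = Subgroup.toAddSubgroup Y :=
      sup_of_le_left hUY
    rw [h1, sup_comm, ← OrderIso.map_sup]
    rfl
  -- `P ⊓ L`
  have hPL : P ⊓ L = (Subgroup.toAddSubgroup Y).map (rK A) := by
    apply le_antisymm
    · rintro d ⟨h1, h2⟩
      rw [hP] at h1
      rw [hL] at h2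
      obtain ⟨y, hy⟩ := h1
      obtain ⟨e, he, hd⟩ := h2
      refine ⟨y, ?_, hy⟩
      change y.toMul ∈ Y
      rw [hYm]
      intro w hw
      have hw' : act τ⁻¹ w ∉ A := fun h => hw ((hAct w).1 h)
      rw [← rK_not y hw, ← rK_not y hw', hy, ← hd, puD_apply, puD_apply, act_under]
    · rintro _ ⟨y, hy, rfl⟩
      have hy' : y.toMul ∈ Y := hy
      rw [hYm] at hy'
      refine ⟨by rw [hP]; exact ⟨y, rfl⟩, ?_⟩
      have h1 : sD τ (rK A y) = rK A y := by
        ext w
        rw [sD_apply]
        by_cases hw : w ∈ A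
        · rw [rK_mem y hw, rK_mem y ((hAct w).2 hw)]
        · rw [rK_not y hw, rK_not y (fun h => hw ((hAct w).1 h)), hy' w hw]
      obtain ⟨e, he⟩ := Pool.Agent.Q149.AR.exists_puD (gen_tau hQ) h1
      rw [hL]
      refine ⟨e, fun v hv => ?_, he.symm⟩
      obtain ⟨w, hw⟩ := Pool.Agent.Q149.AR.above_nonempty (F := F) (E := K) v
      have hwA : w ∈ A := by
        rw [hAS, hw]
        exact hv
      have h2 := rK_mem y hwA
      rw [he, puD_apply, hw] at h2
      exact h2
  -- the principal divisors of `F`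
  have hup : ∀ f : Fˣ, rK A (Additive.ofMul (up F K f)) = puD F K (rK S (Additive.ofMul f)) := by
    intro f
    ext w
    rw [puD_apply]
    by_cases hw : w ∈ A
    · rw [rK_mem _ hw, rK_mem _ ((hAS w).1 hw)]
    · rw [rK_not _ hw, rK_not _ (fun h => hw ((hAS w).2 h))]
      exact prin_up_apply f w (hun w hw)
  have hkF : (Subgroup.toAddSubgroup (phi τ).ker).map (rK A) = (rK S).range.map (puD F K) := by
    apply le_antisymm
    · rintro _ ⟨y, hy, rfl⟩
      have hy1 : phi τ y.toMul = 1 := hy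
      rw [phi_apply, div_eq_one] at hy1
      obtain ⟨f, hf⟩ := hfix ((y.toMul : Kˣ) : K) (congrArg Units.val hy1).symm
      have hf0 : f ≠ 0 := by
        rintro rfl
        rw [map_zero] at hf
        exact (y.toMul : Kˣ).ne_zero hf.symm
      refine ⟨rK S (Additive.ofMul (Units.mk0 f hf0)), ⟨_, rfl⟩, ?_⟩
      rw [← hup]
      congr 1
      apply Additive.toMul.injective
      exact Units.ext hf
    · rintro _ ⟨_, ⟨f, rfl⟩, rfl⟩
      refine ⟨Additive.ofMul (up F K f.toMul), ?_, hup f.toMul⟩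
      change phi τ (up F K f.toMul) = 1
      rw [phi_apply, div_eq_one]
      apply Units.ext
      exact (AlgEquiv.commutes τ _).symm
  -- the groups of the statement
  have hDK : DK D ∅ K = DA A := by
    ext d
    constructor
    · intro h w hw
      refine h w (Or.inl ?_)
      rw [above_iff, ← hSd]
      exact (hAS w).1 hw
    · rintro h w (hw | hw)
      · rw [above_iff, ← hSd] at hw
        exact h w ((hAS w).2 hw)
      · rw [above_iff] at hw
        exact absurd hw (by simp)
  have hPK : PK D ∅ K = P ⊔ L := by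
    apply le_antisymm
    · rintro d ⟨h1, y, -, e, h2⟩
      have h1' : d ∈ DA A := by
        rw [← hDK]
        exact h1
      have h3 : d = rK A (Additive.ofMul y) + puD F K (rs S e) := by
        ext w
        rw [Finsupp.add_apply, puD_apply]
        by_cases hw : w ∈ A
        · rw [rK_mem _ hw, rs_mem _ ((hAS w).1 hw), h1' w hw, add_zero]
        · rw [rK_not _ hw, rs_not _ (fun h => hw ((hAS w).2 h))]
          refine h2 w fun h => hw ?_
          rw [above_iff, ← hSd] at h
          exact (hAS w).2 h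
      rw [h3]
      refine AddSubgroup.add_mem _ (AddSubgroup.mem_sup_left ?_) (AddSubgroup.mem_sup_right ?_)
      · rw [hP]
        exact ⟨_, rfl⟩
      · rw [hL]
        exact ⟨_, fun v hv => rs_mem e hv, rfl⟩
    · rw [sup_le_iff]
      constructor
      · rw [hP]
        rintro _ ⟨y, rfl⟩
        refine ⟨by rw [hDK]; exact fun w hw => rK_mem y hw, y.toMul, ?_, 0, fun w hw => ?_⟩
        · rw [mem_T1]
          intro w hw
          rw [above_iff] at hw
          exact absurd hw (by simp)
        · have hw' : w ∉ A := by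
            intro h
            apply hw
            rw [above_iff, ← hSd]
            exact (hAS w).1 h
          rw [rK_not y hw']
          exact (add_zero _).symm
      · rw [hL]
        rintro _ ⟨e, he, rfl⟩
        refine ⟨?_, 1, (T1 K ∅).one_mem, e, fun w hw => ?_⟩
        · rw [hDK]
          intro w hw
          rw [puD_apply]
          exact he _ ((hAS w).1 hw)
        · rw [puD_apply, prin_one]
          exact (zero_add _).symm
  -- the computation
  have hF1 : (rK S).range.relIndex (DA S) = (CA S).index := index_CA S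
  have hK1 : P.relIndex (DA A) = (CA A).index := by
    rw [hP]
    exact index_CA A
  have hrS : (rK S).range ≤ DA S := by
    rintro _ ⟨y, rfl⟩ w hw
    exact rK_mem y hw
  have hF2 : (CA S).index = m * P.relIndex L := by
    rw [← hF1, ← AddSubgroup.relIndex_map_map_of_injective _ _ hpin, ← hL, ← hkF]
    have h1 : (Subgroup.toAddSubgroup (phi τ).ker).map (rK A) ≤ P ⊓ L := by
      rw [hPL]
      exact AddSubgroup.map_mono hkY
    rw [← AddSubgroup.relIndex_mul_relIndex _ _ _ h1 inf_le_right, AddSubgroup.inf_relIndex_right,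
      hPL, hm2]
  have hK2 : (CA A).index = P.relIndex L * (PK D ∅ K).relIndex (DK D ∅ K) := by
    have h1 : P ⊔ L ≤ DA A := by
      rw [← hPK, ← hDK]
      exact fun d hd => hd.1
    rw [← hK1, hPK, hDK, ← AddSubgroup.relIndex_sup_left L P,
      AddSubgroup.relIndex_mul_relIndex _ _ _ le_sup_left h1]
  have ha' : (CA A).index * m = (CA S).index * a := by
    rw [hm, hU]
    exact ha
  have hne : (CA S).index ≠ 0 := Subgroup.index_ne_zero_of_finite
  rw [hK2] at ha'
  have h3 : (CA S).index * (PK D ∅ K).relIndex (DK D ∅ K) = (CA S).index * a := by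
    rw [← ha', hF2]
    ring
  exact Nat.eq_of_mul_eq_mul_left (Nat.pos_of_ne_zero hne) h3

end Pool.Agent.H738.BT.TA
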