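import Pool.Agent.H509.BT.Stm4
import Pool.Agent.H509.Rec3
import Pool.Graph.R_pool_sql_team_seeded_3997aac3.Q149.AR.SD2
import Pool.Graph.R_pool_sql_team_seeded_3997aac3.Q182.MZ.LFa
import Pool.Graph.R_pool_sql_team_seeded_5cf16337.K3h77.E2.Minus
import Pool.Graph.R_pool_sql_team_seeded_5cf16337.K3h72.E2.Frob
import Pool.Graph.R_pool_sql_team_seeded_5cf16337.K3h3.E2.KH

/-!
# BT-TCLB: the effect of `T` on the relative class group

`R` is the group of the elements of `Kˣ` which are units above `T`, `T1` the subgroup of the elements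
`≡ 1` above `T`, `R'` (`Rp`) the elements of `R` whose divisor comes from `F` outside `S`.
`[R : T1] = ∏_{w | T} (N w - 1)` (`index_U1`, `index_K`); `{y ∈ R : y / τ y ∈ T1} = T1 · R_F` (`N1_eq`, with
the Frobenius automorphism: `fixed_res`), so `[R : N1] = ∏_{v ∈ T} (N v - sgn)` (`index_th`);
`R'^{1-τ}` is the group of the `S`-units of norm one (`map_th`, Hilbert 90), `index_part`;
`(PK D ∅ K ⊓ DK D T K) / PK D T K = R / (T1 R')` (`C1`, `C2`, `C3`).
-/

set_option autoImplicit false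
set_option linter.unusedSectionVars false
set_option linter.deprecated false

open NumberField IsDedekindDomain

noncomputable section

namespace Pool.Agent.H253.BT

open Pool.Agent.Q92.AR (Dv prin Pr Ray nmD nu up sD sE Unramified prinHom prin_mul prin_one prin_inv prin_div)
open Pool.Agent.K3h30.RS
open Pool.Agent.K3h56.E2 (Quad Dict part SplAt Over CA SU minus actK sgn loc)
open Pool.Agent.K3h72.E2 (tr tr_coe)
open Pool.Agent.Q5.BR (above mem_above)
open Pool.Agent.H509 (U1 UW)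
open Pool.Agent.BT9

section one
variable {K : Type} [Field K] [NumberField K]

/-- the residue homomorphism at `w` -/
theorem resid (w : HeightOneSpectrum (𝓞 K)) : ∃ ψ : unitsAt w →* (𝓞 K ⧸ w.asIdeal)ˣ,
    Function.Surjective ψ ∧ ∀ x : unitsAt w, ψ x = 1 ↔ w.valuation K (((x : Kˣ) : K) - 1) < 1 := by
  have hmax := w.isMaximal
  let _ : Field (𝓞 K ⧸ w.asIdeal) := Ideal.Quotient.field w.asIdeal
  have hrep : ∀ x : unitsAt w, ∃ a : 𝓞 K, w.valuation K ((a : K) - ((x : Kˣ) : K)) < 1 := by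
    intro x
    have hx : w.valuation K ((x : Kˣ) : K) = 1 := x.2
    exact w.exists_valuation_sub_lt_of_integer hx.le 1
  choose rep hrep using hrep
  have hmk : ∀ a b : 𝓞 K, Ideal.Quotient.mk w.asIdeal a = Ideal.Quotient.mk w.asIdeal b ↔
      w.valuation K ((a : K) - (b : K)) < 1 := by
    intro a b
    have e : ((a - b : 𝓞 K) : K) = (a : K) - (b : K) := RingHom.map_sub (algebraMap (𝓞 K) K) a b
    rw [Ideal.Quotient.mk_eq_mk_iff_sub_mem, ← e]
    exact (w.valuation_lt_one_iff_mem (K := K) (a - b)).symm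
  have hle : ∀ a : 𝓞 K, w.valuation K (a : K) ≤ 1 := fun a => w.valuation_le_one (K := K) a
  let φ : unitsAt w →* (𝓞 K ⧸ w.asIdeal) :=
    { toFun := fun x => Ideal.Quotient.mk w.asIdeal (rep x)
      map_one' := by
        have h := hrep 1
        rw [← map_one (Ideal.Quotient.mk w.asIdeal), hmk]
        simpa using h
      map_mul' := by
        intro x y
        rw [← map_mul, hmk]
        have h1 := hrep x
        have h2 := hrep y
        have h3 := hrep (x * y)
        have hx : w.valuation K ((x : Kˣ) : K) = 1 := x.2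
        have e : ((rep (x * y) : 𝓞 K) : K) - ((rep x * rep y : 𝓞 K) : K) =
            (((rep (x * y) : 𝓞 K) : K) - (((x * y : unitsAt w) : Kˣ) : K)) -
            ((((rep x : 𝓞 K) : K) - ((x : Kˣ) : K)) * ((rep y : 𝓞 K) : K) +
              ((x : Kˣ) : K) * (((rep y : 𝓞 K) : K) - ((y : Kˣ) : K))) := by
          push_cast
          ring
        rw [e]
        refine lt_of_le_of_lt (Valuation.map_sub _ _ _) (max_lt h3 ?_)
        refine lt_of_le_of_lt (Valuation.map_add _ _ _) (max_lt ?_ ?_)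
        · rw [map_mul]
          exact lt_of_le_of_lt (mul_le_of_le_one_right' (hle _)) h1
        · rw [map_mul, hx, one_mul]
          exact h2 }
  have hφ : ∀ x, φ x = Ideal.Quotient.mk w.asIdeal (rep x) := fun _ => rfl
  have hval : ∀ x, ((φ.toHomUnits x : (𝓞 K ⧸ w.asIdeal)ˣ) : 𝓞 K ⧸ w.asIdeal) = φ x := fun _ => rfl
  refine ⟨φ.toHomUnits, fun u => ?_, fun x => ?_⟩
  · obtain ⟨a, ha⟩ := Ideal.Quotient.mk_surjective (u : 𝓞 K ⧸ w.asIdeal)
    have ha1 : a ∉ w.asIdeal := fun h => by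
      rw [← Ideal.Quotient.eq_zero_iff_mem, ha] at h
      exact u.ne_zero h
    have ha2 : w.valuation K (a : K) = 1 :=
      (HeightOneSpectrum.valuation_eq_one_iff_notMem (K := K) w).2 ha1
    have ha0 : (a : K) ≠ 0 := fun h => by
      rw [h, map_zero] at ha2
      exact zero_ne_one ha2
    refine ⟨⟨Units.mk0 (a : K) ha0, ha2⟩, ?_⟩
    apply Units.ext
    rw [hval, hφ, ← ha, hmk]
    exact hrep ⟨Units.mk0 (a : K) ha0, ha2⟩
  · have h1 : φ.toHomUnits x = 1 ↔ φ x = 1 := by
      rw [← Units.val_inj, hval, Units.val_one]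
    rw [h1, hφ, ← map_one (Ideal.Quotient.mk w.asIdeal), hmk]
    have h3 := hrep x
    have h4 : w.valuation K (((x : Kˣ) : K) - ((rep x : 𝓞 K) : K)) < 1 := by
      rw [Valuation.map_sub_swap]
      exact h3
    constructor
    · intro h
      have e : ((x : Kˣ) : K) - 1 = (((x : Kˣ) : K) - ((rep x : 𝓞 K) : K)) +
          (((rep x : 𝓞 K) : K) - ((1 : 𝓞 K) : K)) := by push_cast; ring
      rw [e]
      exact lt_of_le_of_lt (Valuation.map_add _ _ _) (max_lt h4 h)
    · intro h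
      have e : ((rep x : 𝓞 K) : K) - ((1 : 𝓞 K) : K) = (((rep x : 𝓞 K) : K) - ((x : Kˣ) : K)) +
          (((x : Kˣ) : K) - 1) := by push_cast; ring
      rw [e]
      exact lt_of_le_of_lt (Valuation.map_add _ _ _) (max_lt h3 h)

/-- approximation -/
theorem near (W : Finset (HeightOneSpectrum (𝓞 K))) (y : HeightOneSpectrum (𝓞 K) → Kˣ) :
    ∃ z : Kˣ, ∀ w ∈ W, w.valuation K (((z / y w : Kˣ) : K) - 1) < 1 := by
  classical
  set N : ℕ := ∏ w ∈ W, Ideal.absNorm w.asIdeal with hN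
  have hN0 : N ≠ 0 := Finset.prod_ne_zero_iff.2 fun w _ h => w.ne_bot (Ideal.absNorm_eq_zero_iff.1 h)
  obtain ⟨z, hz⟩ := Pool.Agent.Q38.EX.approx hN0 y
  refine ⟨z, fun w hw => ?_⟩
  have hm : (N : 𝓞 K) ∈ w.asIdeal := by
    obtain ⟨m, hm⟩ := Finset.dvd_prod_of_mem (fun w : HeightOneSpectrum (𝓞 K) =>
      Ideal.absNorm w.asIdeal) hw
    rw [hN, hm, Nat.cast_mul]
    exact Ideal.mul_mem_right _ _ (Ideal.absNorm_mem w.asIdeal)
  have h1 := hz w hm
  rw [← Units.val_div_eq_div_val] at h1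
  exact h1.trans_lt (Pool.Agent.Q38.EX.val_nat_lt_one hm)

/-- the number of the residue classes -/
theorem index_U1 (W : Finset (HeightOneSpectrum (𝓞 K))) :
    (U1 (W : Set (HeightOneSpectrum (𝓞 K)))).relIndex (UW (W : Set (HeightOneSpectrum (𝓞 K)))) =
      ∏ w ∈ W, (Ideal.absNorm w.asIdeal - 1) := by
  classical
  choose ψ hψ1 hψ2 using resid (K := K)
  have hin : ∀ w : W, ∀ x ∈ UW (W : Set (HeightOneSpectrum (𝓞 K))), x ∈ unitsAt (w : HeightOneSpectrum (𝓞 K)) :=
    fun w x hx => hx w w.2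
  let ρ : UW (W : Set (HeightOneSpectrum (𝓞 K))) →* (∀ w : W, (𝓞 K ⧸ (w : HeightOneSpectrum (𝓞 K)).asIdeal)ˣ) :=
    Pi.monoidHom fun w => (ψ w).comp (Subgroup.inclusion (hin w))
  have hρ : ∀ x w, ρ x w = ψ w ⟨(x : Kˣ), x.2 w w.2⟩ := fun _ _ => rfl
  have hker : (U1 (W : Set (HeightOneSpectrum (𝓞 K)))).subgroupOf (UW (W : Set (HeightOneSpectrum (𝓞 K)))) = ρ.ker := by
    ext x
    rw [Subgroup.mem_subgroupOf, MonoidHom.mem_ker]
    constructor
    · intro h
      funext w
      rw [hρ]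
      exact (hψ2 w _).2 (h w w.2)
    · intro h w hw
      have h1 := congrFun h ⟨w, hw⟩
      rw [hρ] at h1
      exact (hψ2 w _).1 h1
  have hsurj : Function.Surjective ρ := by
    intro u
    choose y hy using fun w : W => hψ1 w (u w)
    obtain ⟨z, hz⟩ := near W (fun w => if h : w ∈ W then (y ⟨w, h⟩ : Kˣ) else 1)
    have hzw : ∀ w : W, (w : HeightOneSpectrum (𝓞 K)).valuation K (((z / (y w : Kˣ) : Kˣ) : K) - 1) < 1 := by
      intro w
      have h1 := hz w w.2
      rw [dif_pos w.2] at h1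
      exact h1
    have hzy : ∀ w : W, z / (y w : Kˣ) ∈ unitsAt (w : HeightOneSpectrum (𝓞 K)) := by
      intro w
      have h := Valuation.map_one_add_of_lt _ (hzw w)
      rw [add_sub_cancel] at h
      exact h
    have hzu : ∀ w : W, z ∈ unitsAt (w : HeightOneSpectrum (𝓞 K)) := by
      intro w
      have h := (unitsAt (w : HeightOneSpectrum (𝓞 K))).mul_mem (hzy w) (y w).2
      rwa [div_mul_cancel] at h
    refine ⟨⟨z, fun w hw => hzu ⟨w, hw⟩⟩, ?_⟩
    funext w
    rw [hρ, ← hy w]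
    have h1 := (hψ2 w ⟨z / (y w : Kˣ), hzy w⟩).2 (hzw w)
    have h2 : (⟨z, hzu w⟩ : unitsAt (w : HeightOneSpectrum (𝓞 K))) = ⟨z / (y w : Kˣ), hzy w⟩ * y w :=
      Subtype.ext (div_mul_cancel _ _).symm
    rw [show (⟨z, _⟩ : unitsAt (w : HeightOneSpectrum (𝓞 K))) = _ from h2, map_mul, h1, one_mul]
  have hcard : Nat.card (∀ w : W, (𝓞 K ⧸ (w : HeightOneSpectrum (𝓞 K)).asIdeal)ˣ) =
      ∏ w ∈ W, (Ideal.absNorm w.asIdeal - 1) := by
    rw [Nat.card_pi, ← Finset.prod_coe_sort W]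
    refine Finset.prod_congr rfl fun w _ => ?_
    have hmax := (w : HeightOneSpectrum (𝓞 K)).isMaximal
    let _ : Field (𝓞 K ⧸ (w : HeightOneSpectrum (𝓞 K)).asIdeal) := Ideal.Quotient.field _
    have hfin : Finite (𝓞 K ⧸ (w : HeightOneSpectrum (𝓞 K)).asIdeal) :=
      Ideal.finiteQuotientOfFreeOfNeBot _ (w : HeightOneSpectrum (𝓞 K)).ne_bot
    rw [Nat.card_units, Ideal.absNorm_apply, Submodule.cardQuot_apply]
  unfold Subgroup.relIndex
  rw [hker, Subgroup.index_ker, MonoidHom.range_eq_top.2 hsurj, ← hcard]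
  exact Nat.card_congr (Subgroup.topEquiv (G := ∀ w : W, (𝓞 K ⧸ (w : HeightOneSpectrum (𝓞 K)).asIdeal)ˣ)).toEquiv

end one

section two
variable {F K : Type} [Field F] [NumberField F] [Field K] [NumberField K] [Algebra F K]

theorem above_iff {S : Set (HeightOneSpectrum (𝓞 F))} {w : HeightOneSpectrum (𝓞 K)} :
    Above S w ↔ w.under (𝓞 F) ∈ S := by
  constructor
  · rintro ⟨v, hv, h⟩
    have h1 : w.under (𝓞 F) = v := HeightOneSpectrum.ext h
    rwa [h1]
  · intro h
    exact ⟨w.under (𝓞 F), h, rfl⟩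

theorem above_one {v : HeightOneSpectrum (𝓞 F)} {w : HeightOneSpectrum (𝓞 K)} :
    Above {v} w ↔ w.under (𝓞 F) = v := by
  rw [above_iff, Set.mem_singleton_iff]

/-- the solutions of `x ^ q = x` in the residue field -/
theorem rootq {v : HeightOneSpectrum (𝓞 F)} {P : HeightOneSpectrum (𝓞 K)} (hP : Above {v} P)
    (a : 𝓞 K) (ha : a ^ Ideal.absNorm v.asIdeal - a ∈ P.asIdeal) :
    ∃ b : 𝓞 F, a - algebraMap (𝓞 F) (𝓞 K) b ∈ P.asIdeal := by
  classical
  have hPm := P.isMaximal
  have hvm := v.isMaximal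
  let _ : Field (𝓞 K ⧸ P.asIdeal) := Ideal.Quotient.field _
  let _ : Field (𝓞 F ⧸ v.asIdeal) := Ideal.Quotient.field _
  have hf1 : Finite (𝓞 K ⧸ P.asIdeal) := Ideal.finiteQuotientOfFreeOfNeBot _ P.ne_bot
  have hf2 : Finite (𝓞 F ⧸ v.asIdeal) := Ideal.finiteQuotientOfFreeOfNeBot _ v.ne_bot
  let _ := Fintype.ofFinite (𝓞 K ⧸ P.asIdeal)
  let _ := Fintype.ofFinite (𝓞 F ⧸ v.asIdeal)
  have hq : Ideal.absNorm v.asIdeal = Fintype.card (𝓞 F ⧸ v.asIdeal) := by
    rw [← Nat.card_eq_fintype_card]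
    rfl
  have hN := Pool.Agent.K3h72.E2.one_lt_norm v
  let ι : 𝓞 F ⧸ v.asIdeal →+* 𝓞 K ⧸ P.asIdeal :=
    Ideal.quotientMap P.asIdeal (algebraMap (𝓞 F) (𝓞 K)) (Pool.Agent.K3h72.E2.lies hP).ge
  have hι : ∀ b, ι (Ideal.Quotient.mk v.asIdeal b) =
    Ideal.Quotient.mk P.asIdeal (algebraMap (𝓞 F) (𝓞 K) b) := fun _ => rfl
  have h0 : (Polynomial.X ^ Ideal.absNorm v.asIdeal - Polynomial.X :
      Polynomial (𝓞 K ⧸ P.asIdeal)) ≠ 0 := FiniteField.X_pow_card_sub_X_ne_zero _ hN
  have hd : (Polynomial.X ^ Ideal.absNorm v.asIdeal - Polynomial.X :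
      Polynomial (𝓞 K ⧸ P.asIdeal)).natDegree = Ideal.absNorm v.asIdeal :=
    FiniteField.X_pow_card_sub_X_natDegree_eq _ hN
  have hsub : (Finset.univ.image ι) ⊆ (Polynomial.X ^ Ideal.absNorm v.asIdeal - Polynomial.X :
      Polynomial (𝓞 K ⧸ P.asIdeal)).roots.toFinset := by
    intro y hy
    obtain ⟨x, -, rfl⟩ := Finset.mem_image.1 hy
    rw [Multiset.mem_toFinset, Polynomial.mem_roots h0, Polynomial.IsRoot.def,
      Polynomial.eval_sub, Polynomial.eval_pow, Polynomial.eval_X, ← map_pow, hq,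
      FiniteField.pow_card, sub_self]
  have hcard : (Polynomial.X ^ Ideal.absNorm v.asIdeal - Polynomial.X :
      Polynomial (𝓞 K ⧸ P.asIdeal)).roots.toFinset.card ≤ (Finset.univ.image ι).card := by
    rw [Finset.card_image_of_injective _ ι.injective, Finset.card_univ, ← hq]
    refine (Multiset.toFinset_card_le _).trans ?_
    exact (Polynomial.card_roots' _).trans hd.le
  have heq := Finset.eq_of_subset_of_card_le hsub hcard
  have hmem : Ideal.Quotient.mk P.asIdeal a ∈ Finset.univ.image ι := by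
    rw [heq, Multiset.mem_toFinset, Polynomial.mem_roots h0, Polynomial.IsRoot.def,
      Polynomial.eval_sub, Polynomial.eval_pow, Polynomial.eval_X, ← map_pow, ← map_sub,
      Ideal.Quotient.eq_zero_iff_mem]
    exact ha
  obtain ⟨x, -, hx⟩ := Finset.mem_image.1 hmem
  obtain ⟨b, rfl⟩ := Ideal.Quotient.mk_surjective x
  refine ⟨b, ?_⟩
  rw [← Ideal.Quotient.eq_zero_iff_mem, map_sub, ← hx, hι, sub_self]

/-- valuations of elements of `F` -/
theorem val_lt {v : HeightOneSpectrum (𝓞 F)} {w : HeightOneSpectrum (𝓞 K)}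
    (h : w.under (𝓞 F) = v) (x : F) :
    w.valuation K (algebraMap F K x) < 1 ↔ v.valuation F x < 1 := by
  have h1 : w.valuation K (algebraMap F K x) = v.valuation F x ^ (v.asIdeal.ramificationIdx' w.asIdeal) :=
    Pool.Agent.TeamU.val_over (by rw [← h]; rfl) x
  have h0 : v.asIdeal.ramificationIdx' w.asIdeal ≠ 0 := by
    have : w.asIdeal.LiesOver v.asIdeal := ⟨by rw [← h]; rfl⟩
    exact Ideal.IsDedekindDomain.ramificationIdx'_ne_zero_of_liesOver w.asIdeal v.ne_bot
  rw [h1]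
  exact pow_lt_one_iff_of_nonneg zero_le h0

theorem val_one {v : HeightOneSpectrum (𝓞 F)} {w : HeightOneSpectrum (𝓞 K)}
    (h : w.under (𝓞 F) = v) (x : F) :
    w.valuation K (algebraMap F K x) = 1 ↔ v.valuation F x = 1 :=
  Pool.Agent.K3h3.E2.val_one_iff (above_one.2 h) x

theorem trans_val {τ : K ≃ₐ[F] K} (hQ : Quad F K τ) {w w' : HeightOneSpectrum (𝓞 K)}
    (h : w.under (𝓞 F) = w'.under (𝓞 F)) :
    (w' = w) ∨ ∀ x : K, w'.valuation K (τ x) = w.valuation K x := by
  have hg : IsGalois F K := Pool.Agent.K3h50.E2.isGalois_of_quad hQ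
  obtain ⟨g, hg⟩ := Pool.Agent.Q149.AR.trans_act h
  rcases Pool.Agent.K3h50.E2.aut_eq hQ g with h1 | h1
  · left
    rw [← hg, h1]
    exact Pool.Agent.TeamU.act_one w
  · right
    intro x
    rw [← hg, h1]
    exact Pool.Agent.TeamU.val_act τ w x

end two

section three
variable {F H G K : Type} [Field F] [NumberField F] [Field H] [NumberField H]
  [Algebra F H] [CommGroup G] [Finite G] [MulSemiringAction G H] [IsGaloisGroup G F H] [Field K]
  [NumberField K] [Algebra F K] [Algebra K H] {τ : K ≃ₐ[F] K} {χ : G →* ℂˣ}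

/-- the Frobenius automorphism on `𝓞 K` -/
theorem frobK (hD : Dict F H G K τ χ) (D : RubinData F H G) {v : HeightOneSpectrum (𝓞 F)}
    (hv : v ∉ D.S) {P : HeightOneSpectrum (𝓞 K)} (hP : P.under (𝓞 F) = v) (a : 𝓞 K) :
    (χ (D.σ v) = 1 → a ^ Ideal.absNorm v.asIdeal - a ∈ P.asIdeal) ∧
    (χ (D.σ v) ≠ 1 → a ^ Ideal.absNorm v.asIdeal - tr τ a ∈ P.asIdeal) := by
  have := hD.tower
  obtain ⟨w, hw⟩ := (Pool.Agent.K3h25.RS.t_OVER K H P).1
  have hwv : Above {v} w := by
    rw [above_singleton, ← Pool.Agent.K3h72.E2.lies (above_one.2 hP),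
      ← Pool.Agent.K3h72.E2.lies hw, Ideal.comap_comap, ← IsScalarTower.algebraMap_eq]
  have h4 : D.σ v • algebraMap (𝓞 K) (𝓞 H) a -
      algebraMap (𝓞 K) (𝓞 H) a ^ (Ideal.absNorm v.asIdeal) ∈ w.asIdeal := by
    rw [← HeightOneSpectrum.valuation_lt_one_iff_mem (K := H)]
    exact D.frob v hv w hwv (algebraMap (𝓞 K) (𝓞 H) a)
  constructor
  · intro hs
    rw [Pool.Agent.K3h72.E2.one_int hD hs, ← map_pow, ← map_sub,
      Pool.Agent.K3h72.E2.mem_iff hw] at h4
    have h5 := P.asIdeal.neg_mem h4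
    rwa [neg_sub] at h5
  · intro hs
    rw [← Pool.Agent.K3h72.E2.neg_int hD hs, ← map_pow, ← map_sub,
      Pool.Agent.K3h72.E2.mem_iff hw] at h4
    have h5 := P.asIdeal.neg_mem h4
    rwa [neg_sub] at h5

theorem loc_eq (hD : Dict F H G K τ χ) (D : RubinData F H G) {v : HeightOneSpectrum (𝓞 F)}
    (hv : v ∉ D.S) : (χ (D.σ v) = 1 ∧ loc K v = 1) ∨ (χ (D.σ v) ≠ 1 ∧ loc K v = -1) := by
  have h := Pool.Agent.K3h72.E2.t_FROB Pool.Agent.K3h25.E2.t_LOC F H G K τ χ hD v (D.σ v)
    (D.unramified v hv) (D.frob v hv)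
  by_cases hs : χ (D.σ v) = 1
  · left
    refine ⟨hs, ?_⟩
    rw [hs, Units.val_one] at h
    exact_mod_cast h
  · right
    refine ⟨hs, ?_⟩
    have h2 : ((χ (D.σ v) : ℂˣ) : ℂ) = -1 := by
      have h3 : ((χ (D.σ v) : ℂˣ) : ℂ) * ((χ (D.σ v) : ℂˣ) : ℂ) = 1 := by
        rw [← Units.val_mul, hD.sq (D.σ v), Units.val_one]
      rcases mul_self_eq_one_iff.1 h3 with h | h
      · exact absurd (Units.ext h) hs
      · exact h
    rw [h2] at h
    exact_mod_cast h

/-- in the inert case `τ` fixes the prime above -/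
theorem inert_val (hD : Dict F H G K τ χ) (D : RubinData F H G) {v : HeightOneSpectrum (𝓞 F)}
    (hv : v ∉ D.S) (hs : χ (D.σ v) ≠ 1) {P : HeightOneSpectrum (𝓞 K)} (hP : P.under (𝓞 F) = v)
    (x : K) : P.valuation K (τ x) = P.valuation K x := by
  have hl : loc K v ≠ 1 := by
    rcases loc_eq hD D hv with h | h
    · exact absurd h.1 hs
    · rw [h.2]; norm_num
  obtain ⟨P0, hu, hval, -⟩ := (Pool.Agent.K3h25.E2.t_LOC F K τ hD.quad v).2 hl
  have hP0 : P = P0 := (hu P).1 (above_one.2 hP)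
  rw [hP0]
  exact (hval x).symm

/-- an element `y` with `y / τ y ≡ 1` is congruent to an element of `F` -/
theorem fixed_res (hD : Dict F H G K τ χ) (D : RubinData F H G) {v : HeightOneSpectrum (𝓞 F)}
    (hv : v ∉ D.S) (y : Kˣ) (hy : ∀ w : HeightOneSpectrum (𝓞 K), w.under (𝓞 F) = v →
      w.valuation K (y : K) = 1)
    (ht : ∀ w : HeightOneSpectrum (𝓞 K), w.under (𝓞 F) = v →
      w.valuation K (((y / actK τ y : Kˣ) : K) - 1) < 1) :
    ∃ f : Fˣ, ∀ w : HeightOneSpectrum (𝓞 K), w.under (𝓞 F) = v →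
      w.valuation K (((up F K f / y : Kˣ) : K) - 1) < 1 := by
  obtain ⟨P, hP⟩ := Pool.Agent.Q149.AR.above_nonempty (F := F) (E := K) v
  have hτy0 : τ (y : K) ≠ 0 := (map_ne_zero_iff _ τ.injective).2 y.ne_zero
  have hdiv : ((y / actK τ y : Kˣ) : K) = (y : K) / τ (y : K) := by
    rw [Units.val_div_eq_div_val]
    rfl
  have hPy := hy P hP
  have hPt := ht P hP
  rw [hdiv] at hPt
  have hPτ : P.valuation K (τ (y : K)) = 1 := by
    have h := Valuation.map_one_add_of_lt _ hPt
    rw [add_sub_cancel, map_div₀, hPy] at h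
    have h0 : P.valuation K (τ (y : K)) ≠ 0 := (Valuation.ne_zero_iff _).2 hτy0
    exact ((div_eq_one_iff_eq h0).1 h).symm
  have hPd : P.valuation K ((y : K) - τ (y : K)) < 1 := by
    have h : (y : K) - τ (y : K) = ((y : K) / τ (y : K) - 1) * τ (y : K) := by
      field_simp
    rw [h, map_mul, hPτ, mul_one]
    exact hPt
  obtain ⟨a, ha⟩ : ∃ a : 𝓞 K, P.valuation K ((a : K) - (y : K)) < 1 :=
    P.exists_valuation_sub_lt_of_integer hPy.le 1
  have hroot : a ^ Ideal.absNorm v.asIdeal - a ∈ P.asIdeal := by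
    by_cases hs : χ (D.σ v) = 1
    · exact (frobK hD D hv hP a).1 hs
    · have h1 := (frobK hD D hv hP a).2 hs
      have h2 : tr τ a - a ∈ P.asIdeal := by
        rw [← HeightOneSpectrum.valuation_lt_one_iff_mem (K := K)]
        have h3 : ((tr τ a - a : 𝓞 K) : K) = τ ((a : K) - (y : K)) +
            (-((y : K) - τ (y : K)) + -((a : K) - (y : K))) := by
          have h4 : ((tr τ a - a : 𝓞 K) : K) = τ (a : K) - (a : K) :=
            RingHom.map_sub (algebraMap (𝓞 K) K) _ _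
          rw [h4, map_sub]
          ring
        change P.valuation K ((tr τ a - a : 𝓞 K) : K) < 1
        rw [h3]
        refine lt_of_le_of_lt (Valuation.map_add _ _ _) (max_lt ?_
          (lt_of_le_of_lt (Valuation.map_add _ _ _) (max_lt ?_ ?_)))
        · rw [inert_val hD D hv hs hP]
          exact ha
        · rw [Valuation.map_neg]
          exact hPd
        · rw [Valuation.map_neg]
          exact ha
      have h5 := P.asIdeal.add_mem h1 h2
      rwa [sub_add_sub_cancel] at h5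
  obtain ⟨b, hb⟩ := rootq (above_one.2 hP) a hroot
  have hbK : ((algebraMap (𝓞 F) (𝓞 K) b : 𝓞 K) : K) = algebraMap F K (b : F) := rfl
  have hby : P.valuation K (algebraMap F K (b : F) - (y : K)) < 1 := by
    have h1 : P.valuation K ((a : K) - algebraMap F K (b : F)) < 1 := by
      have h2 : ((a - algebraMap (𝓞 F) (𝓞 K) b : 𝓞 K) : K) = (a : K) - algebraMap F K (b : F) :=
        RingHom.map_sub (algebraMap (𝓞 K) K) _ _
      rw [← h2]
      exact (HeightOneSpectrum.valuation_lt_one_iff_mem (K := K) P _).2 hb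
    have h3 : algebraMap F K (b : F) - (y : K) = -((a : K) - algebraMap F K (b : F)) +
        ((a : K) - (y : K)) := by ring
    rw [h3]
    refine lt_of_le_of_lt (Valuation.map_add _ _ _) (max_lt ?_ ha)
    rw [Valuation.map_neg]
    exact h1
  have hb0 : (b : F) ≠ 0 := by
    intro h
    rw [h, map_zero, zero_sub, Valuation.map_neg, hPy] at hby
    exact lt_irrefl _ hby
  refine ⟨Units.mk0 (b : F) hb0, fun w hw => ?_⟩
  have hwy := hy w hw
  have hup : ((up F K (Units.mk0 (b : F) hb0) / y : Kˣ) : K) - 1 =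
      (algebraMap F K (b : F) - (y : K)) * (y : K)⁻¹ := by
    have h0 : (y : K) ≠ 0 := y.ne_zero
    rw [Units.val_div_eq_div_val]
    change algebraMap F K (b : F) / (y : K) - 1 = _
    field_simp
  rw [hup, map_mul, map_inv₀, hwy, inv_one, mul_one]
  rcases trans_val hD.quad (w := P) (w' := w) (by rw [hP, hw]) with h | h
  · rw [h]
    exact hby
  · have h1 : algebraMap F K (b : F) - (y : K) = τ (algebraMap F K (b : F) - τ (y : K)) := by
      rw [map_sub, AlgEquiv.commutes, Pool.Agent.K3h77.E2.tau_tau hD.quad]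
    rw [h1, h]
    have h2 : algebraMap F K (b : F) - τ (y : K) = (algebraMap F K (b : F) - (y : K)) +
        ((y : K) - τ (y : K)) := by ring
    rw [h2]
    exact lt_of_le_of_lt (Valuation.map_add _ _ _) (max_lt hby hPd)

end three

section four
variable {F H G K : Type} [Field F] [NumberField F] [Field H] [NumberField H]
  [Algebra F H] [CommGroup G] [Finite G] [MulSemiringAction G H] [IsGaloisGroup G F H] [Field K]
  [NumberField K] [Algebra F K] [Algebra K H] {τ : K ≃ₐ[F] K} {χ : G →* ℂˣ}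

/-- the primes above `T` -/
abbrev WT (K : Type) [Field K] [NumberField K] [Algebra F K] (T : Finset (HeightOneSpectrum (𝓞 F))) :
    Set (HeightOneSpectrum (𝓞 K)) := {w | Above (T : Set (HeightOneSpectrum (𝓞 F))) w}

open Classical in
/-- the primes above `T` -/
def wt (K : Type) [Field K] [NumberField K] [Algebra F K] (T : Finset (HeightOneSpectrum (𝓞 F))) :
    Finset (HeightOneSpectrum (𝓞 K)) := T.biUnion fun v => above K v

theorem coe_wt (T : Finset (HeightOneSpectrum (𝓞 F))) :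
    ((wt K T : Finset (HeightOneSpectrum (𝓞 K))) : Set (HeightOneSpectrum (𝓞 K))) = WT K T := by
  classical
  ext w
  unfold wt WT
  rw [Finset.mem_coe, Finset.mem_biUnion, Set.mem_setOf_eq, above_iff, Finset.mem_coe]
  constructor
  · rintro ⟨v, hv, h⟩
    rw [mem_above] at h
    rwa [h]
  · intro h
    exact ⟨_, h, mem_above.2 rfl⟩

theorem prod_above (hD : Dict F H G K τ χ) (D : RubinData F H G) {v : HeightOneSpectrum (𝓞 F)}
    (hv : v ∉ D.S) : ((∏ w ∈ above K v, (Ideal.absNorm w.asIdeal - 1) : ℕ) : ℤ) =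
      ((Ideal.absNorm v.asIdeal - 1 : ℕ) : ℤ) * ((Ideal.absNorm v.asIdeal : ℤ) - sgn χ (D.σ v)) := by
  classical
  have hN := Pool.Agent.K3h72.E2.one_lt_norm v
  have hl := Pool.Agent.K3h25.E2.t_LOC F K τ hD.quad v
  have h1 : ((Ideal.absNorm v.asIdeal - 1 : ℕ) : ℤ) = (Ideal.absNorm v.asIdeal : ℤ) - 1 := by
    rw [Nat.cast_sub hN.le, Nat.cast_one]
  rcases loc_eq hD D hv with ⟨hs, hlo⟩ | ⟨hs, hlo⟩
  · obtain ⟨P, P', hne, hu, -, -, hn, hn'⟩ := hl.1 hlo
    have hab : above K v = {P, P'} := by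
      ext w
      rw [mem_above, ← above_one, hu, Finset.mem_insert, Finset.mem_singleton]
    have hsg : sgn χ (D.σ v) = 1 := by
      unfold sgn
      rw [if_pos hs]
    rw [hab, Finset.prod_pair hne, hn, hn', hsg, Nat.cast_mul, h1]
  · obtain ⟨P, hu, -, h⟩ := hl.2 (by rw [hlo]; norm_num)
    have hab : above K v = {P} := by
      ext w
      rw [mem_above, ← above_one, hu, Finset.mem_singleton]
    have hn : Ideal.absNorm P.asIdeal = Ideal.absNorm v.asIdeal ^ 2 := by
      rcases h with ⟨-, -, h⟩ | ⟨h, -, -⟩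
      · exact h
      · rw [hlo] at h
        norm_num at h
    have hsg : sgn χ (D.σ v) = -1 := by
      unfold sgn
      rw [if_neg hs]
    have h2 : 1 ≤ Ideal.absNorm v.asIdeal ^ 2 := Nat.one_le_pow _ _ (by omega)
    rw [hab, Finset.prod_singleton, hn, hsg, Nat.cast_sub h2, h1]
    push_cast
    ring

theorem index_K (hD : Dict F H G K τ χ) (D : RubinData F H G)
    {T : Finset (HeightOneSpectrum (𝓞 F))} (hT : Disjoint D.S T) :
    (((T1 K T).relIndex (UW (WT K T)) : ℕ) : ℤ) =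
      ((∏ v ∈ T, (Ideal.absNorm v.asIdeal - 1) : ℕ) : ℤ) *
        ∏ v ∈ T, ((Ideal.absNorm v.asIdeal : ℤ) - sgn χ (D.σ v)) := by
  classical
  have h1 : (T1 K T).relIndex (UW (WT K T)) = ∏ w ∈ wt K T, (Ideal.absNorm w.asIdeal - 1) := by
    rw [← index_U1, coe_wt]
    rfl
  rw [h1]
  unfold wt
  rw [Finset.prod_biUnion]
  · rw [Nat.cast_prod, Nat.cast_prod, ← Finset.prod_mul_distrib]
    refine Finset.prod_congr rfl fun v hv => ?_
    exact prod_above hD D fun h => Finset.disjoint_left.1 hT h hv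
  · intro v _ v' _ hne
    rw [Function.onFun, Finset.disjoint_left]
    intro w hw hw'
    rw [mem_above] at hw hw'
    exact hne (hw.symm.trans hw')

/-- `1 - τ` -/
def th (τ : K ≃ₐ[F] K) : Kˣ →* Kˣ := MonoidHom.id Kˣ / actK τ

theorem th_apply (τ : K ≃ₐ[F] K) (y : Kˣ) : th τ y = y / actK τ y := rfl

theorem val_act_one {W : Set (HeightOneSpectrum (𝓞 F))} {y : Kˣ}
    (hy : ∀ w : HeightOneSpectrum (𝓞 K), Above W w → w.valuation K (y : K) = 1)
    {w : HeightOneSpectrum (𝓞 K)} (hw : Above W w) : w.valuation K (τ (y : K)) = 1 := by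
  have h := Pool.Agent.TeamU.val_act' (τ⁻¹) w (y : K)
  have h1 : (τ⁻¹ : K ≃ₐ[F] K).symm (y : K) = τ (y : K) := rfl
  rw [h1] at h
  rw [← h]
  apply hy
  rw [above_iff] at hw ⊢
  rwa [Pool.Agent.Q149.AR.act_under]

theorem up_act (f : Fˣ) : actK τ (up F K f) = up F K f := by
  apply Units.ext
  exact τ.commutes (f : F)

theorem mem_T1_up {T : Finset (HeightOneSpectrum (𝓞 F))} {f : Fˣ} :
    up F K f ∈ T1 K T ↔ f ∈ FT T := by
  rw [mem_T1, mem_FT]
  have hup : ((up F K f : Kˣ) : K) - 1 = algebraMap F K ((f : F) - 1) := by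
    rw [map_sub, map_one]
    rfl
  constructor
  · intro h v hv
    obtain ⟨P, hP⟩ := Pool.Agent.Q149.AR.above_nonempty (F := F) (E := K) v
    have h1 := h P (by rw [above_iff, hP]; exact hv)
    rw [hup, val_lt hP] at h1
    exact h1
  · intro h w hw
    rw [above_iff] at hw
    rw [hup, val_lt rfl]
    exact h _ hw

/-- the group `N1` -/
theorem N1_eq (hD : Dict F H G K τ χ) (D : RubinData F H G)
    {T : Finset (HeightOneSpectrum (𝓞 F))} (hT : Disjoint D.S T) :
    (T1 K T).comap (th τ) ⊓ UW (WT K T) =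
      T1 K T ⊔ (UW (T : Set (HeightOneSpectrum (𝓞 F)))).map (up F K) := by
  classical
  apply le_antisymm
  · rintro y ⟨hy1, hy2⟩
    have hy1' : th τ y ∈ T1 K T := hy1
    rw [th_apply, mem_T1] at hy1'
    have hloc : ∀ v : HeightOneSpectrum (𝓞 F), ∃ f : Fˣ, v ∈ T →
        ∀ w : HeightOneSpectrum (𝓞 K), w.under (𝓞 F) = v →
          w.valuation K (((up F K f / y : Kˣ) : K) - 1) < 1 := by
      intro v
      by_cases hv : v ∈ T
      · have hab : ∀ w : HeightOneSpectrum (𝓞 K), w.under (𝓞 F) = v →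
            Above (T : Set (HeightOneSpectrum (𝓞 F))) w := by
          intro w hw
          rw [above_iff, hw]
          exact hv
        obtain ⟨f, hf⟩ := fixed_res hD D (v := v) (fun h => Finset.disjoint_left.1 hT h hv) y
          (fun w hw => hy2 w (hab w hw)) (fun w hw => hy1' w (hab w hw))
        exact ⟨f, fun _ => hf⟩
      · exact ⟨1, fun h => absurd h hv⟩
    choose f hf using hloc
    obtain ⟨z, hz⟩ := near T f
    have hzy : up F K z / y ∈ T1 K T := by
      rw [mem_T1]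
      intro w hw
      have hv := above_iff.1 hw
      have h1 := hf _ hv w rfl
      have h2 := hz _ hv
      have h3 : up F K z / y = up F K (z / f (w.under (𝓞 F))) * (up F K (f (w.under (𝓞 F))) / y) := by
        rw [map_div, div_mul_div_cancel]
      rw [h3]
      have h4 : w.valuation K (((up F K (z / f (w.under (𝓞 F))) : Kˣ) : K) - 1) < 1 := by
        have h5 : ((up F K (z / f (w.under (𝓞 F))) : Kˣ) : K) - 1 =
            algebraMap F K (((z / f (w.under (𝓞 F)) : Fˣ) : F) - 1) := by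
          rw [map_sub, map_one]
          rfl
        rw [h5, val_lt rfl]
        exact h2
      exact (U1 ({w} : Set (HeightOneSpectrum (𝓞 K)))).mul_mem
        (fun w' hw' => by rw [Set.mem_singleton_iff.1 hw']; exact h4)
        (fun w' hw' => by rw [Set.mem_singleton_iff.1 hw']; exact h1) w rfl
    have hzu : up F K z ∈ UW (WT K T) := by
      intro w hw
      have h1 := (mem_T1.1 hzy) w hw
      have h2 := Valuation.map_one_add_of_lt _ h1
      rw [add_sub_cancel, Units.val_div_eq_div_val, map_div₀, hy2 w hw, div_one] at h2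
      exact h2
    have hz1 : z ∈ UW (T : Set (HeightOneSpectrum (𝓞 F))) := by
      intro v hv
      obtain ⟨P, hP⟩ := Pool.Agent.Q149.AR.above_nonempty (F := F) (E := K) v
      have h1 := hzu P (by rw [Set.mem_setOf_eq, above_iff, hP]; exact hv)
      exact (val_one hP (z : F)).1 h1
    have h6 : y = (up F K z / y)⁻¹ * up F K z := by
      rw [inv_div, div_mul_cancel]
    rw [h6]
    exact Subgroup.mul_mem_sup ((T1 K T).inv_mem hzy) ⟨z, hz1, rfl⟩
  · refine sup_le (fun y hy => ?_) ?_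
    · have hu : ∀ w : HeightOneSpectrum (𝓞 K), Above (T : Set (HeightOneSpectrum (𝓞 F))) w →
          w.valuation K (y : K) = 1 := by
        intro w hw
        have h2 := Valuation.map_one_add_of_lt _ (mem_T1.1 hy w hw)
        rwa [add_sub_cancel] at h2
      refine ⟨?_, hu⟩
      have hact : actK τ y ∈ T1 K T := by
        rw [mem_T1]
        intro w hw
        have h := Pool.Agent.TeamU.val_act' (τ⁻¹) w ((y : K) - 1)
        have h1 : (τ⁻¹ : K ≃ₐ[F] K).symm ((y : K) - 1) = τ ((y : K) - 1) := rfl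
        have h2 : τ ((y : K) - 1) = τ (y : K) - 1 := by rw [map_sub, map_one]
        rw [h1, h2] at h
        change w.valuation K (τ (y : K) - 1) < 1
        rw [← h]
        apply mem_T1.1 hy
        rw [above_iff] at hw ⊢
        rwa [Pool.Agent.Q149.AR.act_under]
      exact (T1 K T).div_mem hy hact
    · rintro _ ⟨f, hf, rfl⟩
      refine ⟨?_, fun w hw => ?_⟩
      · change th τ (up F K f) ∈ T1 K T
        rw [th_apply, up_act, div_self']
        exact (T1 K T).one_mem
      · exact (val_one rfl (f : F)).2 (hf _ (above_iff.1 hw))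

/-- `[R^{1-τ} T1 : T1]` -/
theorem index_th (hD : Dict F H G K τ χ) (D : RubinData F H G)
    {T : Finset (HeightOneSpectrum (𝓞 F))} (hT : Disjoint D.S T) :
    ((((T1 K T).comap (th τ) ⊓ UW (WT K T)).relIndex (UW (WT K T)) : ℕ) : ℤ) =
        ∏ v ∈ T, ((Ideal.absNorm v.asIdeal : ℤ) - sgn χ (D.σ v)) := by
  classical
  have hle : T1 K T ≤ (T1 K T).comap (th τ) ⊓ UW (WT K T) := by
    rw [N1_eq hD D hT]
    exact le_sup_left
  have h1 := Subgroup.relIndex_mul_relIndex _ _ _ hle (inf_le_right)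
  have h2 : (T1 K T).relIndex ((T1 K T).comap (th τ) ⊓ UW (WT K T)) =
      ∏ v ∈ T, (Ideal.absNorm v.asIdeal - 1) := by
    rw [N1_eq hD D hT, Subgroup.relIndex_sup_left, ← Subgroup.relIndex_comap, ← index_U1]
    congr 1
    ext f
    exact mem_T1_up
  have h3 := index_K hD D hT
  rw [← h1, h2, Nat.cast_mul] at h3
  have h4 : ((∏ v ∈ T, (Ideal.absNorm v.asIdeal - 1) : ℕ) : ℤ) ≠ 0 := by
    rw [Nat.cast_ne_zero]
    refine Finset.prod_ne_zero_iff.2 fun v _ => ?_
    have := Pool.Agent.K3h72.E2.one_lt_norm v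
    omega
  exact mul_left_cancel₀ h4 h3

end four

section pr
variable {K : Type} [Field K] [NumberField K]

/-- prescribed valuations -/
theorem exists_prin (W : Finset (HeightOneSpectrum (𝓞 K))) (e : HeightOneSpectrum (𝓞 K) → ℤ) :
    ∃ z : Kˣ, ∀ w ∈ W, prin z w = e w := by
  have h1 : ∀ w : HeightOneSpectrum (𝓞 K), ∃ y : Kˣ, prin y w = e w := by
    intro w
    obtain ⟨π, hπ⟩ := w.valuation_exists_uniformizer K
    have hπ0 : π ≠ 0 := by
      rintro rfl
      rw [map_zero] at hπ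
      exact WithZero.zero_ne_coe hπ
    have h2 : prin (Units.mk0 π hπ0) w = 1 := by
      rw [Pool.Agent.Q182.AR.prin_log, Units.val_mk0, hπ]
      rfl
    refine ⟨(Units.mk0 π hπ0) ^ e w, ?_⟩
    have h3 : prin ((Units.mk0 π hπ0) ^ e w) = e w • prin (Units.mk0 π hπ0) :=
      (prinHom (F := K)).map_zsmul (e w) (Additive.ofMul (Units.mk0 π hπ0))
    rw [h3, Finsupp.smul_apply, h2, smul_eq_mul, mul_one]
  choose y hy using h1
  obtain ⟨z, hz⟩ := near W y
  refine ⟨z, fun w hw => ?_⟩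
  have h4 := Valuation.map_one_add_of_lt _ (hz w hw)
  rw [add_sub_cancel] at h4
  have h5 := (Pool.Agent.Q182.AR.prin_eq_zero_iff (z / y w) w).2 h4
  rw [prin_div, Finsupp.sub_apply, hy, sub_eq_zero] at h5
  exact h5

/-- Hilbert 90 for an involution `τ ≠ 1` of a field -/
theorem hilb {F K : Type} [Field F] [Field K] [Algebra F K] (τ : K ≃ₐ[F] K)
    (h2 : ∀ x : K, τ (τ x) = x) (hne : τ ≠ AlgEquiv.refl) (η : Kˣ) (hη : (η : K) * τ (η : K) = 1) :
    ∃ δ : Kˣ, (η : K) * τ (δ : K) = (δ : K) := by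
  by_cases h : (η : K) = -1
  · obtain ⟨z, hz⟩ : ∃ z : K, τ z ≠ z := by
      by_contra hcon
      push Not at hcon
      exact hne (AlgEquiv.ext hcon)
    have hy : z - τ z ≠ 0 := fun h0 => hz (sub_eq_zero.1 h0).symm
    refine ⟨Units.mk0 (z - τ z) hy, ?_⟩
    rw [Units.val_mk0, map_sub, h2, h]
    ring
  · have hd : 1 + (η : K) ≠ 0 := fun h0 => h (by linear_combination h0)
    refine ⟨Units.mk0 (1 + (η : K)) hd, ?_⟩
    rw [Units.val_mk0, map_add, map_one, mul_add, hη]
    ring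

end pr

section five
variable {F H G K : Type} [Field F] [NumberField F] [Field H] [NumberField H]
  [Algebra F H] [CommGroup G] [Finite G] [MulSemiringAction G H] [IsGaloisGroup G F H] [Field K]
  [NumberField K] [Algebra F K] [Algebra K H] {τ : K ≃ₐ[F] K} {χ : G →* ℂˣ}

theorem unrK (hD : Dict F H G K τ χ) (D : RubinData F H G) {v : HeightOneSpectrum (𝓞 F)}
    (hv : v ∉ D.S) : Unramified K v := by
  have := hD.tower
  exact Pool.Agent.Q92.AR.Unramified.sub (M := H)
    (Pool.Agent.H509.Rec.unr_of_squarefree (D.unramified v hv))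

theorem prin_up_at (hD : Dict F H G K τ χ) (D : RubinData F H G) (f : Fˣ)
    {w : HeightOneSpectrum (𝓞 K)} (hw : w.under (𝓞 F) ∉ D.S) :
    prin (up F K f) w = prin f (w.under (𝓞 F)) := by
  rw [Pool.Agent.Q182.AR.prin_log, Pool.Agent.Q182.AR.prin_log]
  have h1 : w.valuation K ((up F K f : Kˣ) : K) = (w.under (𝓞 F)).valuation F (f : F) ^
      ((w.under (𝓞 F)).asIdeal.ramificationIdx' w.asIdeal) :=
    Pool.Agent.TeamU.val_over (show Pool.Agent.TeamU.Over w (w.under (𝓞 F)) from rfl) (f : F)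
  have he : Ideal.ramificationIdx' (w.under (𝓞 F)).asIdeal w.asIdeal = 1 := by
    refine Ideal.ramificationIdx'_spec ?_ ?_
    · rw [pow_one, Ideal.map_le_iff_le_comap]
      exact le_of_eq rfl
    · exact unrK hD D hw w rfl
  rw [h1, he, pow_one]

/-- a `τ`-invariant divisor comes from `F` -/
theorem from_F (hQ : Quad F K τ) (S : Set (HeightOneSpectrum (𝓞 F))) (d : Dv K)
    (h : ∀ w : HeightOneSpectrum (𝓞 K), ¬ Above S w → sD τ d w = d w) :
    ∃ e : Dv F, ∀ w : HeightOneSpectrum (𝓞 K), ¬ Above S w → d w = e (w.under (𝓞 F)) := by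
  classical
  have hg : IsGalois F K := Pool.Agent.K3h50.E2.isGalois_of_quad hQ
  choose w hw using Pool.Agent.Q149.AR.above_nonempty (F := F) (E := K)
  have hwinj : Function.Injective w := by
    intro v v' hvv
    rw [← hw v, ← hw v', hvv]
  have hfin : (Function.support fun v => d (w v)).Finite := by
    have : (Function.support fun v => d (w v)) = w ⁻¹' (d.support : Set (HeightOneSpectrum (𝓞 K))) := by
      ext v
      simp
    rw [this]
    exact (d.support.finite_toSet).preimage hwinj.injOn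
  refine ⟨Finsupp.ofSupportFinite (fun v => d (w v)) hfin, fun w' hw' => ?_⟩
  rw [Finsupp.ofSupportFinite_coe]
  obtain ⟨g, hg⟩ := Pool.Agent.Q149.AR.trans_act (F := F) (w := w (w'.under (𝓞 F))) (w' := w') (hw _)
  rcases Pool.Agent.K3h50.E2.aut_eq hQ g with h1 | h1
  · rw [h1] at hg
    have h2 : Pool.Agent.TeamU.act (AlgEquiv.refl : K ≃ₐ[F] K) (w (w'.under (𝓞 F))) = w (w'.under (𝓞 F)) :=
      Pool.Agent.TeamU.act_one _
    have h3 : w (w'.under (𝓞 F)) = w' := h2.symm.trans hg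
    exact (congrArg d h3).symm
  · rw [h1] at hg
    have h3 := h w' hw'
    rw [Pool.Agent.Q149.AR.sD_apply] at h3
    have h4 : Pool.Agent.TeamU.act τ⁻¹ w' = w (w'.under (𝓞 F)) := by
      have h5 := Pool.Agent.Q149.AR.act_inv_act τ (w (w'.under (𝓞 F)))
      rwa [hg] at h5
    rw [h4] at h3
    exact h3.symm

theorem prin_act (y : Kˣ) : prin (actK τ y) = sD τ (prin y) :=
  Pool.Agent.Q149.AR.prin_sE τ (Additive.ofMul y)

variable (K) in
/-- `R'` -/
def Rp (D : RubinData F H G) (T : Finset (HeightOneSpectrum (𝓞 F))) : Subgroup Kˣ where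
  carrier := {z | z ∈ UW (WT K T) ∧ ∃ e : Dv F, ∀ w : HeightOneSpectrum (𝓞 K),
    ¬ Above (D.S : Set (HeightOneSpectrum (𝓞 F))) w → prin z w = e (w.under (𝓞 F))}
  mul_mem' := by
    rintro a b ⟨ha, e, h⟩ ⟨hb, e', h'⟩
    refine ⟨(UW (WT K T)).mul_mem ha hb, e + e', fun w hw => ?_⟩
    rw [prin_mul, Finsupp.add_apply, Finsupp.add_apply, h w hw, h' w hw]
  one_mem' := ⟨(UW (WT K T)).one_mem, 0, fun w _ => by rw [prin_one]; rfl⟩
  inv_mem' := by
    rintro a ⟨ha, e, h⟩
    refine ⟨(UW (WT K T)).inv_mem ha, -e, fun w hw => ?_⟩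
    rw [prin_inv, Finsupp.neg_apply, Finsupp.neg_apply, h w hw]

theorem map_th (hD : Dict F H G K τ χ) (D : RubinData F H G)
    {T : Finset (HeightOneSpectrum (𝓞 F))} (hT : Disjoint D.S T) :
    (Rp K D T).map (th τ) = SU K (WT K D.S) ⊓ minus τ := by
  classical
  have htt := Pool.Agent.K3h77.E2.tau_tau hD.quad
  have htt' : ∀ y : Kˣ, actK τ (actK τ y) = y := fun y => Units.ext (htt (y : K))
  have hab : ∀ w : HeightOneSpectrum (𝓞 K),
      ¬ Above (D.S : Set (HeightOneSpectrum (𝓞 F))) w ↔ w.under (𝓞 F) ∉ D.S := by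
    intro w
    rw [above_iff, Finset.mem_coe]
  apply le_antisymm
  · rintro _ ⟨z, ⟨hz, e, he⟩, rfl⟩
    refine ⟨fun w hw => ?_, ?_⟩
    · have hw' : ¬ Above (D.S : Set (HeightOneSpectrum (𝓞 F))) w := hw
      rw [← Pool.Agent.Q182.AR.prin_eq_zero_iff, th_apply, prin_div, Finsupp.sub_apply, prin_act,
        Pool.Agent.Q149.AR.sD_apply, he w hw', he, Pool.Agent.Q149.AR.act_under, sub_self]
      rw [hab, Pool.Agent.Q149.AR.act_under, ← hab]
      exact hw'
    · change actK τ (th τ z) = (th τ z)⁻¹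
      rw [th_apply, map_div, htt', inv_div]
  · rintro u ⟨hu1, hu2⟩
    have hu2' : actK τ u = u⁻¹ := hu2
    have hu3 : (u : K) * τ (u : K) = 1 := by
      have h := congrArg Units.val hu2'
      have h' : τ (u : K) = ((u⁻¹ : Kˣ) : K) := h
      rw [h', Units.mul_inv]
    obtain ⟨δ, hδ⟩ := hilb τ htt hD.quad.ne u hu3
    have hδ' : u * actK τ δ = δ := Units.ext hδ
    have hinv : ∀ w : HeightOneSpectrum (𝓞 K), ¬ Above (D.S : Set (HeightOneSpectrum (𝓞 F))) w →
        sD τ (prin δ) w = prin δ w := by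
      intro w hw
      have h1 := (Pool.Agent.Q182.AR.prin_eq_zero_iff u w).2 (hu1 w hw)
      conv_rhs => rw [← hδ']
      rw [prin_mul, Finsupp.add_apply, h1, zero_add, prin_act]
    obtain ⟨e, he⟩ := from_F hD.quad _ (prin δ) hinv
    obtain ⟨f, hf⟩ := exists_prin T e
    refine ⟨δ / up F K f, ⟨fun w hw => ?_, e - prin f, fun w hw => ?_⟩, ?_⟩
    · have hwT : w.under (𝓞 F) ∈ T := above_iff.1 hw
      have hwS : w.under (𝓞 F) ∉ D.S := fun h => Finset.disjoint_left.1 hT h hwT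
      rw [← Pool.Agent.Q182.AR.prin_eq_zero_iff, prin_div, Finsupp.sub_apply,
        prin_up_at hD D f hwS, he w ((hab w).2 hwS), hf _ hwT, sub_self]
    · rw [prin_div, Finsupp.sub_apply, Finsupp.sub_apply, prin_up_at hD D f ((hab w).1 hw), he w hw]
    · rw [th_apply, map_div, up_act, div_div_div_cancel_right]
      exact div_eq_of_eq_mul' (by rw [mul_comm]; exact hδ'.symm)

theorem index_part (hD : Dict F H G K τ χ) (D : RubinData F H G)
    (T : Finset (HeightOneSpectrum (𝓞 F))) :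
    (T1 K T).relIndex (SU K (WT K D.S) ⊓ minus τ) =
      (part (D.U T) χ).relIndex (part (D.U ∅) χ) := by
  classical
  have := hD.tower
  have hover : Over D.S (wt K D.S) := by
    intro P
    rw [← Finset.mem_coe, coe_wt, Set.mem_setOf_eq, above_iff]
    constructor
    · intro h
      exact ⟨_, h, above_one.2 rfl⟩
    · rintro ⟨v, hv, h⟩
      rw [above_one.1 h]
      exact hv
  have h1 := (Pool.Agent.K3h3.E2.t_KH F H G K τ χ hD D (wt K D.S) hover).1
  rw [coe_wt] at h1
  have hunder : ∀ w : HeightOneSpectrum (𝓞 H), (w.under (𝓞 K)).under (𝓞 F) = w.under (𝓞 F) := by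
    intro w
    apply HeightOneSpectrum.ext
    change (w.asIdeal.comap (algebraMap (𝓞 K) (𝓞 H))).comap (algebraMap (𝓞 F) (𝓞 K)) =
      w.asIdeal.comap (algebraMap (𝓞 F) (𝓞 H))
    rw [Ideal.comap_comap, ← IsScalarTower.algebraMap_eq]
  have hι : ∀ x : Kˣ, ((Units.map (algebraMap K H : K →* H) x : Hˣ) : H) - 1 =
      algebraMap K H ((x : K) - 1) := by
    intro x
    rw [map_sub, map_one]
    rfl
  have hiff : ∀ x : Kˣ, (∀ w : HeightOneSpectrum (𝓞 H), Above (T : Set (HeightOneSpectrum (𝓞 F))) w →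
      w.valuation H (((Units.map (algebraMap K H : K →* H) x : Hˣ) : H) - 1) < 1) ↔ x ∈ T1 K T := by
    intro x
    rw [mem_T1]
    constructor
    · intro h P hP
      obtain ⟨w, hw⟩ := Pool.Agent.Q149.AR.above_nonempty (F := K) (E := H) P
      have h2 := h w (by
        rw [above_iff, ← hunder, hw]
        exact above_iff.1 hP)
      rw [hι, val_lt hw] at h2
      exact h2
    · intro h w hw
      rw [hι, val_lt rfl]
      apply h
      rw [above_iff, hunder]
      exact above_iff.1 hw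
  have h2 : (T1 K T ⊓ (SU K (WT K D.S) ⊓ minus τ)).map (Units.map (algebraMap K H : K →* H)) =
      part (D.U T) χ := by
    apply le_antisymm
    · rintro _ ⟨x, ⟨hx1, hx2⟩, rfl⟩
      have h3 : Units.map (algebraMap K H : K →* H) x ∈ part (D.U ∅) χ := by
        rw [← h1]
        exact ⟨x, hx2, rfl⟩
      obtain ⟨h4, h5⟩ := h3
      exact ⟨mem_unitGroup.2 ⟨(mem_unitGroup.1 h4).1, (hiff x).2 hx1⟩, h5⟩
    · rintro u ⟨hu1, hu2⟩
      have h3 : u ∈ part (D.U ∅) χ := by
        refine ⟨mem_unitGroup.2 ⟨(mem_unitGroup.1 hu1).1, fun w hw => ?_⟩, hu2⟩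
        obtain ⟨v, hv, -⟩ := hw
        exact absurd hv (by simp)
      rw [← h1] at h3
      obtain ⟨x, hx, rfl⟩ := h3
      exact ⟨x, ⟨(hiff x).1 (mem_unitGroup.1 hu1).2, hx⟩, rfl⟩
  rw [← h1, ← h2, Subgroup.relIndex_map_map_of_injective _ _ Pool.Agent.K3h3.E2.inj,
    Subgroup.inf_relIndex_right]

end five

section six
variable {F H G K : Type} [Field F] [NumberField F] [Field H] [NumberField H]
  [Algebra F H] [CommGroup G] [Finite G] [MulSemiringAction G H] [IsGaloisGroup G F H] [Field K]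
  [NumberField K] [Algebra F K] [Algebra K H] {τ : K ≃ₐ[F] K} {χ : G →* ℂˣ}

open Classical in
variable (K) in
/-- the divisor outside `S` -/
def rh (D : RubinData F H G) : Additive Kˣ →+ Dv K :=
  (Finsupp.filterAddHom (fun w : HeightOneSpectrum (𝓞 K) =>
    ¬ Above (D.S : Set (HeightOneSpectrum (𝓞 F))) w)).comp prinHom

theorem rh_out (D : RubinData F H G) (x : Additive Kˣ) {w : HeightOneSpectrum (𝓞 K)}
    (hw : ¬ Above (D.S : Set (HeightOneSpectrum (𝓞 F))) w) : rh K D x w = prin x.toMul w := by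
  classical
  exact Finsupp.filter_apply_pos (fun w : HeightOneSpectrum (𝓞 K) =>
    ¬ Above (D.S : Set (HeightOneSpectrum (𝓞 F))) w) (prin x.toMul) hw

theorem rh_in (D : RubinData F H G) (x : Additive Kˣ) {w : HeightOneSpectrum (𝓞 K)}
    (hw : Above (D.S : Set (HeightOneSpectrum (𝓞 F))) w) : rh K D x w = 0 := by
  classical
  exact Finsupp.filter_apply_neg (fun w : HeightOneSpectrum (𝓞 K) =>
    ¬ Above (D.S : Set (HeightOneSpectrum (𝓞 F))) w) (prin x.toMul) (not_not.2 hw)

variable (D : RubinData F H G) (T : Finset (HeightOneSpectrum (𝓞 F)))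

theorem T1_empty (y : Kˣ) : y ∈ T1 K (∅ : Finset (HeightOneSpectrum (𝓞 F))) := by
  rw [mem_T1]
  rintro w ⟨v, hv, -⟩
  exact absurd hv (by simp)

theorem not_above_empty (w : HeightOneSpectrum (𝓞 K)) :
    ¬ Above ((∅ : Finset (HeightOneSpectrum (𝓞 F))) : Set (HeightOneSpectrum (𝓞 F))) w := by
  rintro ⟨v, hv, -⟩
  exact absurd hv (by simp)

theorem DK_le : DK D T K ≤ DK D ∅ K := by
  intro d hd w hw
  rcases hw with h | h
  · exact hd w (Or.inl h)
  · exact absurd h (not_above_empty w)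

theorem PK_le : PK D T K ≤ PK D ∅ K := by
  rintro d ⟨hd, y, hy, e, h⟩
  exact ⟨DK_le D T hd, y, T1_empty y, e, h⟩

theorem rh_mem (x : Kˣ) (hx : x ∈ UW (WT K T)) : rh K D (Additive.ofMul x) ∈ DK D T K := by
  intro w hw
  by_cases hS : Above (D.S : Set (HeightOneSpectrum (𝓞 F))) w
  · exact rh_in D _ hS
  · rw [rh_out D _ hS]
    rcases hw with h | h
    · exact absurd h hS
    · exact (Pool.Agent.Q182.AR.prin_eq_zero_iff x w).2 (hx w h)

theorem UW_empty (x : Kˣ) : x ∈ UW (WT K (∅ : Finset (HeightOneSpectrum (𝓞 F)))) := by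
  intro w hw
  exact absurd hw (not_above_empty w)

theorem rh_P0 (x : Kˣ) : rh K D (Additive.ofMul x) ∈ PK D ∅ K :=
  ⟨rh_mem D ∅ x (UW_empty x), x, T1_empty x, 0, fun w hw => by
    rw [rh_out D _ hw, Finsupp.coe_zero, Pi.zero_apply, add_zero]
    rfl⟩

/-- (C1) -/
theorem C1 : DK D ∅ K = DK D T K ⊔ PK D ∅ K := by
  classical
  apply le_antisymm
  · intro d hd
    obtain ⟨z, hz⟩ := exists_prin (wt K T) d
    have hwt : ∀ w : HeightOneSpectrum (𝓞 K), w ∈ wt K T ↔
        Above (T : Set (HeightOneSpectrum (𝓞 F))) w := by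
      intro w
      rw [← Finset.mem_coe, coe_wt]
      rfl
    have h1 : d - rh K D (Additive.ofMul z) ∈ DK D T K := by
      intro w hw
      rw [Finsupp.sub_apply]
      by_cases hS : Above (D.S : Set (HeightOneSpectrum (𝓞 F))) w
      · rw [rh_in D _ hS, hd w (Or.inl hS), sub_zero]
      · rcases hw with h | h
        · exact absurd h hS
        · rw [rh_out D _ hS]
          change d w - prin z w = 0
          rw [hz w ((hwt w).2 h), sub_self]
    have h2 : d = (d - rh K D (Additive.ofMul z)) + rh K D (Additive.ofMul z) :=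
      (sub_add_cancel _ _).symm
    rw [h2]
    exact AddSubgroup.add_mem_sup h1 (rh_P0 D z)
  · exact sup_le (DK_le D T) (fun d hd => hd.1)

variable {T} in
/-- (C2) -/
theorem C2 (hD : Dict F H G K τ χ) (hT : Disjoint D.S T) : PK D ∅ K ⊓ DK D T K =
    PK D T K ⊔ (Subgroup.toAddSubgroup (UW (WT K T))).map (rh K D) := by
  classical
  have hab : ∀ w : HeightOneSpectrum (𝓞 K),
      ¬ Above (D.S : Set (HeightOneSpectrum (𝓞 F))) w ↔ w.under (𝓞 F) ∉ D.S := by
    intro w
    rw [above_iff, Finset.mem_coe]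
  apply le_antisymm
  · rintro d ⟨⟨-, y, -, e, h⟩, hd⟩
    obtain ⟨f, hf⟩ := exists_prin T e
    have hz : y * up F K f ∈ UW (WT K T) := by
      intro w hw
      have hwT : w.under (𝓞 F) ∈ T := above_iff.1 hw
      have hwS : w.under (𝓞 F) ∉ D.S := fun h => Finset.disjoint_left.1 hT h hwT
      rw [← Pool.Agent.Q182.AR.prin_eq_zero_iff, prin_mul, Finsupp.add_apply,
        prin_up_at hD D f hwS, hf _ hwT, ← h w ((hab w).2 hwS)]
      exact hd w (Or.inr hw)
    have h1 : d - rh K D (Additive.ofMul (y * up F K f)) ∈ PK D T K := by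
      refine ⟨(DK D T K).sub_mem hd (rh_mem D T _ hz), 1, (T1 K T).one_mem, e - prin f,
        fun w hw => ?_⟩
      rw [Finsupp.sub_apply, Finsupp.sub_apply, rh_out D _ hw, h w hw, prin_one,
        Finsupp.coe_zero, Pi.zero_apply]
      change prin y w + e (w.under (𝓞 F)) - prin (y * up F K f) w = _
      rw [prin_mul, Finsupp.add_apply, prin_up_at hD D f ((hab w).1 hw)]
      ring
    have h2 : d = (d - rh K D (Additive.ofMul (y * up F K f))) +
      rh K D (Additive.ofMul (y * up F K f)) := (sub_add_cancel _ _).symm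
    rw [h2]
    exact AddSubgroup.add_mem_sup h1 ⟨Additive.ofMul (y * up F K f), hz, rfl⟩
  · refine sup_le (le_inf (PK_le D T) fun d hd => hd.1) ?_
    rintro _ ⟨z, hz, rfl⟩
    exact ⟨rh_P0 D z.toMul, rh_mem D T z.toMul hz⟩

/-- (C3) -/
theorem C3 : (PK D T K).comap (rh K D) ⊓ Subgroup.toAddSubgroup (UW (WT K T)) =
    Subgroup.toAddSubgroup (T1 K T ⊔ Rp K D T) := by
  classical
  have hT1 : T1 K T ≤ UW (WT K T) := by
    intro y hy w hw
    have h2 := Valuation.map_one_add_of_lt _ (mem_T1.1 hy w hw)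
    rwa [add_sub_cancel] at h2
  apply le_antisymm
  · rintro x ⟨hx1, hx2⟩
    obtain ⟨-, y, hy, e, h⟩ := hx1
    have hx2' : x.toMul ∈ UW (WT K T) := hx2
    have h1 : x.toMul / y ∈ Rp K D T := by
      refine ⟨(UW (WT K T)).div_mem hx2' (hT1 hy), e, fun w hw => ?_⟩
      have h2 := h w hw
      rw [rh_out D _ hw] at h2
      rw [prin_div, Finsupp.sub_apply, h2, add_sub_cancel_left]
    have h3 : x.toMul = y * (x.toMul / y) := by rw [mul_div_cancel]
    change x.toMul ∈ T1 K T ⊔ Rp K D T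
    rw [h3]
    exact Subgroup.mul_mem_sup hy h1
  · have hle : T1 K T ⊔ Rp K D T ≤ AddSubgroup.toSubgroup' ((PK D T K).comap (rh K D) ⊓
        Subgroup.toAddSubgroup (UW (WT K T))) := by
      refine sup_le (fun x hx => ?_) (fun x hx => ?_)
      · refine ⟨⟨rh_mem D T x (hT1 hx), x, hx, 0, fun w hw => ?_⟩, hT1 hx⟩
        rw [rh_out D _ hw, Finsupp.coe_zero, Pi.zero_apply, add_zero]
        rfl
      · obtain ⟨h1, e, he⟩ := hx
        refine ⟨⟨rh_mem D T x h1, 1, (T1 K T).one_mem, e, fun w hw => ?_⟩, h1⟩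
        rw [rh_out D _ hw, prin_one, Finsupp.coe_zero, Pi.zero_apply, zero_add]
        exact he w hw
    intro x hx
    exact hle hx

end six

theorem tclb : S_TCLB := by
  intro F H G K _ _ _ _ _ _ _ _ _ _ _ _ _ τ χ hD D T hT b hb
  classical
  -- the multiplicative part
  have hN1 : (T1 K T).comap (th τ) ⊓ UW (WT K T) ≤ T1 K T ⊔ Rp K D T := by
    rw [N1_eq hD D hT]
    refine sup_le_sup_left ?_ _
    rintro _ ⟨f, hf, rfl⟩
    refine ⟨fun w hw => (val_one rfl (f : F)).2 (hf _ (above_iff.1 hw)), prin f, fun w hw => ?_⟩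
    refine prin_up_at hD D f fun h => hw ?_
    rw [above_iff]
    exact h
  have hT1 : T1 K T ≤ UW (WT K T) := by
    intro y hy w hw
    have h2 := Valuation.map_one_add_of_lt _ (mem_T1.1 hy w hw)
    rwa [add_sub_cancel] at h2
  have hRp : Rp K D T ≤ UW (WT K T) := fun x hx => hx.1
  have hN2 : T1 K T ⊔ Rp K D T ≤ UW (WT K T) := sup_le hT1 hRp
  have hmul := Subgroup.relIndex_mul_relIndex _ _ _ hN1 hN2
  have hT1N : T1 K T ≤ (T1 K T).comap (th τ) ⊓ UW (WT K T) := by
    rw [N1_eq hD D hT]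
    exact le_sup_left
  have h1 : ((T1 K T).comap (th τ) ⊓ UW (WT K T)).relIndex (T1 K T ⊔ Rp K D T) =
      (part (D.U T) χ).relIndex (part (D.U ∅) χ) := by
    have h2 : T1 K T ⊔ Rp K D T = ((T1 K T).comap (th τ) ⊓ UW (WT K T)) ⊔ Rp K D T := by
      apply le_antisymm
      · exact sup_le_sup_right hT1N _
      · exact sup_le hN1 le_sup_right
    rw [h2, Subgroup.relIndex_sup_left, ← index_part hD D T, ← map_th hD D hT,
      ← Subgroup.relIndex_comap, ← Subgroup.inf_relIndex_right, inf_assoc,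
      inf_eq_right.2 hRp, Subgroup.inf_relIndex_right]
  have h3 : ((T1 K T ⊔ Rp K D T).relIndex (UW (WT K T)) : ℤ) = b := by
    have h4 := index_th hD D hT
    rw [← hmul, h1, ← hb, Nat.cast_mul] at h4
    refine mul_left_cancel₀ ?_ h4
    intro h0
    rw [h0, zero_mul] at hb
    have h5 := Finset.prod_eq_zero_iff.1 hb.symm
    obtain ⟨v, -, hv⟩ := h5
    have hn := Pool.Agent.K3h72.E2.one_lt_norm v
    unfold sgn at hv
    split_ifs at hv <;> omega
  have h3' : (T1 K T ⊔ Rp K D T).relIndex (UW (WT K T)) = b := by exact_mod_cast h3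
  -- the additive part
  have hPT : PK D T K ≤ PK D ∅ K ⊓ DK D T K := le_inf (PK_le D T) fun d hd => hd.1
  have h6 := AddSubgroup.relIndex_mul_relIndex _ _ _ hPT inf_le_right
  have h7 : (PK D T K).relIndex (PK D ∅ K ⊓ DK D T K) = b := by
    rw [C2 D hD hT, AddSubgroup.relIndex_sup_left, ← AddSubgroup.relIndex_comap,
      ← AddSubgroup.inf_relIndex_right, C3, Subgroup.relIndex_toAddSubgroup, h3']
  rw [← h6, h7, AddSubgroup.inf_relIndex_right, C1 D T, AddSubgroup.relIndex_sup_right, mul_comm]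

end Pool.Agent.H253.BT
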