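import Pool.Agent.H509.BT.Stm4
import Pool.Agent.H509.Rec2
import Pool.Graph.R_pool_sql_team_seeded_5cf16337.K3h3.E2.KH

/-!
# Project BT, brick TCLF: the order of the `(S, T)`-class group of `F`
-/

set_option autoImplicit false
set_option linter.unusedSectionVars false
set_option linter.deprecated false

open NumberField IsDedekindDomain

noncomputable section

namespace Pool.Agent.H955.BT

open Pool.Agent.Q92.AR (Dv prin Pr prin_mul prin_one prin_inv prin_div prin_apply mem_Pr)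
open Pool.Agent.K3h30.RS
open Pool.Agent.K3h56.E2 (part CA SU sgn cls)
open Pool.Agent.H509 (U1 UW)
open Pool.Agent.BT9
open Pool.Agent.H509.Rec (clD cl_prin cl_ker cl_CA cl_surj cl_single)

section loc

variable {F : Type} [Field F] [NumberField F]

/-- the residue homomorphism -/
theorem residue (w : HeightOneSpectrum (𝓞 F)) :
    ∃ ψ : unitsAt w →* (𝓞 F ⧸ w.asIdeal)ˣ,
      (∀ x : unitsAt w, ψ x = 1 ↔ w.valuation F (((x : Fˣ) : F) - 1) < 1) ∧
      Function.Surjective ψ := by
  have hmax := w.isMaximal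
  let _ : Field (𝓞 F ⧸ w.asIdeal) := Ideal.Quotient.field w.asIdeal
  -- representatives
  have hrep : ∀ x : unitsAt w, ∃ a : 𝓞 F, w.valuation F ((a : F) - ((x : Fˣ) : F)) < 1 := by
    intro x
    have hx : w.valuation F ((x : Fˣ) : F) = 1 := x.2
    exact w.exists_valuation_sub_lt_of_integer hx.le 1
  choose rep hrep using hrep
  have hmk : ∀ a b : 𝓞 F, Ideal.Quotient.mk w.asIdeal a = Ideal.Quotient.mk w.asIdeal b ↔
      w.valuation F ((a : F) - (b : F)) < 1 := by
    intro a b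
    have e : ((a - b : 𝓞 F) : F) = (a : F) - (b : F) := RingHom.map_sub (algebraMap (𝓞 F) F) a b
    rw [Ideal.Quotient.mk_eq_mk_iff_sub_mem, ← e]
    exact (w.valuation_lt_one_iff_mem (K := F) (a - b)).symm
  have hle : ∀ a : 𝓞 F, w.valuation F (a : F) ≤ 1 := fun a => w.valuation_le_one (K := F) a
  let φ : unitsAt w →* (𝓞 F ⧸ w.asIdeal) :=
    { toFun := fun x => Ideal.Quotient.mk w.asIdeal (rep x)
      map_one' := by
        have h := hrep 1
        rw [← map_one (Ideal.Quotient.mk w.asIdeal), hmk]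
        simpa using h
      map_mul' := by
        intro x y
        rw [← map_mul, hmk]
        have h1 := hrep x
        have h2 := hrep y
        have h3 := hrep (x * y)
        have hx : w.valuation F ((x : Fˣ) : F) = 1 := x.2
        have e : ((rep (x * y) : 𝓞 F) : F) - ((rep x * rep y : 𝓞 F) : F) =
            (((rep (x * y) : 𝓞 F) : F) - (((x * y : unitsAt w) : Fˣ) : F)) -
            ((((rep x : 𝓞 F) : F) - ((x : Fˣ) : F)) * ((rep y : 𝓞 F) : F) +
              ((x : Fˣ) : F) * (((rep y : 𝓞 F) : F) - ((y : Fˣ) : F))) := by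
          push_cast
          ring
        rw [e]
        refine lt_of_le_of_lt (Valuation.map_sub _ _ _) (max_lt h3 ?_)
        refine lt_of_le_of_lt (Valuation.map_add _ _ _) (max_lt ?_ ?_)
        · rw [map_mul]
          exact lt_of_le_of_lt (mul_le_of_le_one_right' (hle _)) h1
        · rw [map_mul, hx, one_mul]
          exact h2 }
  let ψ : unitsAt w →* (𝓞 F ⧸ w.asIdeal)ˣ := φ.toHomUnits
  have hψ : ∀ x, ψ x = 1 ↔ w.valuation F (((x : Fˣ) : F) - 1) < 1 := by
    intro x
    have h1 : ψ x = 1 ↔ φ x = 1 := by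
      rw [← Units.val_inj]
      rfl
    have h2 : φ x = Ideal.Quotient.mk w.asIdeal (rep x) := rfl
    rw [h1, h2, ← map_one (Ideal.Quotient.mk w.asIdeal), hmk]
    have h3 := hrep x
    have h4 : w.valuation F (((x : Fˣ) : F) - ((rep x : 𝓞 F) : F)) < 1 := by
      rw [Valuation.map_sub_swap]
      exact h3
    constructor
    · intro h
      have e : ((x : Fˣ) : F) - 1 = (((x : Fˣ) : F) - ((rep x : 𝓞 F) : F)) +
          (((rep x : 𝓞 F) : F) - ((1 : 𝓞 F) : F)) := by push_cast; ring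
      rw [e]
      exact lt_of_le_of_lt (Valuation.map_add _ _ _) (max_lt h4 h)
    · intro h
      have e : ((rep x : 𝓞 F) : F) - ((1 : 𝓞 F) : F) = (((rep x : 𝓞 F) : F) - ((x : Fˣ) : F)) +
          (((x : Fˣ) : F) - 1) := by push_cast; ring
      rw [e]
      exact lt_of_le_of_lt (Valuation.map_add _ _ _) (max_lt h3 h)
  refine ⟨ψ, hψ, fun u => ?_⟩
  obtain ⟨a, ha⟩ := Ideal.Quotient.mk_surjective (u : 𝓞 F ⧸ w.asIdeal)
  have ha0 : a ∉ w.asIdeal := by
    intro h
    have h1 := u.ne_zero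
    rw [← ha] at h1
    exact h1 (Ideal.Quotient.eq_zero_iff_mem.2 h)
  have ha1 : w.valuation F (a : F) = 1 := (w.valuation_eq_one_iff_notMem (K := F)).2 ha0
  have ha2 : (a : F) ≠ 0 := by
    intro h0
    rw [h0, map_zero] at ha1
    exact zero_ne_one ha1
  refine ⟨⟨Units.mk0 (a : F) ha2, ha1⟩, ?_⟩
  apply Units.ext
  change φ _ = _
  rw [← ha]
  change Ideal.Quotient.mk w.asIdeal (rep _) = _
  rw [hmk]
  exact hrep ⟨Units.mk0 (a : F) ha2, ha1⟩

theorem one_lt_norm (v : HeightOneSpectrum (𝓞 F)) : 1 < Ideal.absNorm v.asIdeal :=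
  Pool.Agent.K3h72.E2.one_lt_norm v

/-- the index of the group of the `x ≡ 1` modulo `T` in the group of the units at `T` -/
theorem index_T (T : Finset (HeightOneSpectrum (𝓞 F))) :
    (U1 (T : Set (HeightOneSpectrum (𝓞 F)))).relIndex (UW (T : Set (HeightOneSpectrum (𝓞 F)))) =
      ∏ v ∈ T, (Ideal.absNorm v.asIdeal - 1) := by
  classical
  choose ψ hψ1 hψ2 using fun v : HeightOneSpectrum (𝓞 F) => residue v
  let Ψ : UW (T : Set (HeightOneSpectrum (𝓞 F))) →* ∀ v : T, (𝓞 F ⧸ v.1.asIdeal)ˣ :=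
    { toFun := fun x v => ψ v.1 ⟨(x : Fˣ), x.2 v.1 v.2⟩
      map_one' := by
        funext v
        exact map_one (ψ v.1)
      map_mul' := by
        intro x y
        funext v
        exact map_mul (ψ v.1) ⟨(x : Fˣ), x.2 v.1 v.2⟩ ⟨(y : Fˣ), y.2 v.1 v.2⟩ }
  have hker : Ψ.ker = (U1 (T : Set (HeightOneSpectrum (𝓞 F)))).subgroupOf
      (UW (T : Set (HeightOneSpectrum (𝓞 F)))) := by
    ext x
    rw [MonoidHom.mem_ker, Subgroup.mem_subgroupOf]
    constructor
    · intro h v hv
      exact (hψ1 v _).1 (congrFun h ⟨v, hv⟩)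
    · intro h
      funext v
      exact (hψ1 v.1 _).2 (h v.1 v.2)
  have hsurj : Function.Surjective Ψ := by
    intro u
    have h1 : ∀ v : HeightOneSpectrum (𝓞 F), ∃ y : unitsAt v, ∀ hv : v ∈ T, ψ v y = u ⟨v, hv⟩ := by
      intro v
      by_cases hv : v ∈ T
      · obtain ⟨y, hy⟩ := hψ2 v (u ⟨v, hv⟩)
        exact ⟨y, fun _ => hy⟩
      · exact ⟨1, fun h => absurd h hv⟩
    choose y hy using h1
    have hN : (∏ v ∈ T, Ideal.absNorm v.asIdeal) ≠ 0 :=
      Finset.prod_ne_zero_iff.2 fun v _ => (zero_lt_one.trans (one_lt_norm v)).ne'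
    obtain ⟨z, -, hz⟩ := Pool.Agent.Q182.MZ.apx hN (fun v => (y v : Fˣ))
    have hmem : ∀ v ∈ T, ((∏ v ∈ T, Ideal.absNorm v.asIdeal : ℕ) : 𝓞 F) ∈ v.asIdeal := by
      intro v hv
      obtain ⟨k, hk⟩ := Finset.dvd_prod_of_mem (fun v : HeightOneSpectrum (𝓞 F) =>
        Ideal.absNorm v.asIdeal) hv
      rw [hk, Nat.cast_mul]
      exact v.asIdeal.mul_mem_right _ (Ideal.absNorm_mem v.asIdeal)
    have hz1 : ∀ v ∈ T, v.valuation F ((z : F) / ((y v : Fˣ) : F) - 1) < 1 := fun v hv =>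
      lt_of_le_of_lt (hz v (hmem v hv)) (Pool.Agent.Q38.EX.val_nat_lt_one (hmem v hv))
    have hz2 : ∀ v ∈ T, v.valuation F (z : F) = 1 := by
      intro v hv
      have h2 := Valuation.map_one_add_of_lt (v.valuation F) (hz1 v hv)
      rw [add_sub_cancel, map_div₀, show v.valuation F ((y v : Fˣ) : F) = 1 from (y v).2,
        div_one] at h2
      exact h2
    refine ⟨⟨z, fun v hv => hz2 v hv⟩, ?_⟩
    funext v
    rw [← hy v.1 v.2]
    change ψ v.1 ⟨z, _⟩ = ψ v.1 (y v.1)
    rw [← div_eq_one, ← map_div, hψ1]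
    have h3 := hz1 v.1 v.2
    rw [← Units.val_div_eq_div_val] at h3
    exact h3
  have hcard : ∀ v : HeightOneSpectrum (𝓞 F), Nat.card (𝓞 F ⧸ v.asIdeal)ˣ =
      Ideal.absNorm v.asIdeal - 1 := by
    intro v
    have hmax := v.isMaximal
    let _ : Field (𝓞 F ⧸ v.asIdeal) := Ideal.Quotient.field v.asIdeal
    rw [Nat.card_units, Ideal.absNorm_apply, Submodule.cardQuot_apply]
  rw [Subgroup.relIndex, ← hker, Subgroup.index_ker, MonoidHom.range_eq_top.2 hsurj,
    Subgroup.card_top, Nat.card_pi,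
    ← Finset.prod_coe_sort T fun v : HeightOneSpectrum (𝓞 F) => Ideal.absNorm v.asIdeal - 1]
  exact Finset.prod_congr rfl fun v _ => hcard v.1

theorem prin_zero_iff {x : Fˣ} {v : HeightOneSpectrum (𝓞 F)} :
    prin x v = 0 ↔ v.valuation F (x : F) = 1 := by
  constructor
  · intro h
    rw [Pool.Agent.Q125.AR.valuation_eq_exp, h, neg_zero, WithZero.exp_zero]
  · exact Pool.Agent.Q125.AR.prin_eq_zero_of_valuation

/-- the class of a divisor with primes in `A` -/
theorem cl_filter (A : Finset (HeightOneSpectrum (𝓞 F))) (a : Dv F) :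
    open scoped Classical in
    (clD (a.filter (· ∈ A))).toMul ∈ CA (A : Set (HeightOneSpectrum (𝓞 F))) := by
  classical
  induction a using Finsupp.induction_linear with
  | zero =>
    rw [Finsupp.filter_zero, map_zero, toMul_zero]
    exact Subgroup.one_mem _
  | add a b ha hb =>
    rw [Finsupp.filter_add, map_add, toMul_add]
    exact Subgroup.mul_mem _ ha hb
  | single v k =>
    by_cases hv : v ∈ A
    · rw [Finsupp.filter_single_of_pos _ hv]
      have h1 : (Finsupp.single v k : Dv F) = k • Finsupp.single v (1 : ℤ) := by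
        rw [Finsupp.smul_single, smul_eq_mul, mul_one]
      rw [h1, map_zsmul, cl_single, toMul_zsmul, toMul_ofMul]
      have h2 : cls v ∈ CA (A : Set (HeightOneSpectrum (𝓞 F))) :=
        Subgroup.subset_closure (Set.mem_image_of_mem cls hv)
      exact Subgroup.zpow_mem _ h2 k
    · rw [Finsupp.filter_single_of_neg _ hv, map_zero, toMul_zero]
      exact Subgroup.one_mem _

open Classical in
/-- the divisor of an element, outside `S` -/
def cut (S : Finset (HeightOneSpectrum (𝓞 F))) : Additive Fˣ →+ Dv F :=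
  (Finsupp.filterAddHom (· ∉ S)).comp (Pool.Agent.Q92.AR.prinHom (F := F))

theorem cut_mem {S : Finset (HeightOneSpectrum (𝓞 F))} (x : Fˣ) {v : HeightOneSpectrum (𝓞 F)}
    (hv : v ∈ S) : cut S (Additive.ofMul x) v = 0 := by
  classical
  change (Finsupp.filter (· ∉ S) (prin x)) v = 0
  rw [Finsupp.filter_apply_neg]
  exact fun h => h hv

theorem cut_notMem {S : Finset (HeightOneSpectrum (𝓞 F))} (x : Fˣ) {v : HeightOneSpectrum (𝓞 F)}
    (hv : v ∉ S) : cut S (Additive.ofMul x) v = prin x v := by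
  classical
  change (Finsupp.filter (· ∉ S) (prin x)) v = prin x v
  rw [Finsupp.filter_apply_pos]
  exact hv

theorem cl_cut (S : Finset (HeightOneSpectrum (𝓞 F))) (x : Fˣ) :
    (clD (cut S (Additive.ofMul x))).toMul ∈ CA (S : Set (HeightOneSpectrum (𝓞 F))) := by
  classical
  have h1 : cut S (Additive.ofMul x) = prin x - (prin x).filter (· ∈ S) := by
    ext v
    rw [Finsupp.sub_apply]
    by_cases hv : v ∈ S
    · rw [cut_mem x hv, Finsupp.filter_apply_pos _ _ hv, sub_self]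
    · rw [cut_notMem x hv, Finsupp.filter_apply_neg _ _ hv, sub_zero]
  rw [h1, map_sub, cl_prin, zero_sub, toMul_neg]
  exact Subgroup.inv_mem _ (cl_filter S (prin x))

end loc

section main

variable {F H G : Type} [Field F] [NumberField F] [Field H] [NumberField H] [Algebra F H]
  [CommGroup G] [Finite G] [MulSemiringAction G H] [IsGaloisGroup G F H]

/-- the `T`-part of `t_KH1` -/
theorem part_one (D : RubinData F H G) (T : Finset (HeightOneSpectrum (𝓞 F))) :
    (SU F D.S ⊓ FT T).map (Units.map (algebraMap F H : F →* H)) = part (D.U T) (1 : G →* ℂˣ) := by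
  have h0 := (Pool.Agent.K3h3.E2.t_KH1 F H G D).1
  have hval : ∀ (v : HeightOneSpectrum (𝓞 F)) (w : HeightOneSpectrum (𝓞 H)), Above {v} w →
      ∀ x : F, w.valuation H (algebraMap F H x) < 1 ↔ v.valuation F x < 1 := by
    intro v w hvw x
    haveI : w.asIdeal.LiesOver v.asIdeal := ⟨(above_singleton.1 hvw).symm⟩
    rw [← HeightOneSpectrum.valuation_liesOver H v w x]
    have h0 : v.asIdeal.ramificationIdx' w.asIdeal ≠ 0 :=
      Ideal.IsDedekindDomain.ramificationIdx'_ne_zero_of_liesOver w.asIdeal v.ne_bot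
    rw [pow_lt_one_iff h0]
  have hU : ∀ (x : Fˣ), (∀ w : HeightOneSpectrum (𝓞 H), Above (T : Set (HeightOneSpectrum (𝓞 F))) w →
      w.valuation H ((Units.map (algebraMap F H : F →* H) x : Hˣ) - 1 : H) < 1) ↔ x ∈ FT T := by
    intro x
    have e : ((Units.map (algebraMap F H : F →* H) x : Hˣ) - 1 : H) =
        algebraMap F H ((x : F) - 1) := by
      rw [map_sub, map_one]
      rfl
    rw [e]
    constructor
    · intro h v hv
      obtain ⟨w, hw⟩ := (Pool.Agent.K3h25.RS.t_OVER F H v).1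
      rw [← hval v w hw]
      refine h w ⟨v, hv, above_singleton.1 hw⟩
    · rintro h w ⟨v, hv, hvw⟩
      rw [hval v w (above_singleton.2 hvw)]
      exact h v hv
  ext y
  constructor
  · rintro ⟨x, ⟨hx1, hx2⟩, rfl⟩
    have h1 : Units.map (algebraMap F H : F →* H) x ∈ part (D.U ∅) (1 : G →* ℂˣ) := by
      rw [← h0]
      exact ⟨x, hx1, rfl⟩
    refine ⟨mem_unitGroup.2 ⟨(mem_unitGroup.1 h1.1).1, (hU x).2 hx2⟩, h1.2⟩
  · rintro ⟨hy1, hy2⟩
    have h1 : y ∈ part (D.U ∅) (1 : G →* ℂˣ) := by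
      refine ⟨mem_unitGroup.2 ⟨(mem_unitGroup.1 hy1).1, ?_⟩, hy2⟩
      rintro w ⟨v, hv, -⟩
      exact absurd hv (by simp)
    rw [← h0] at h1
    obtain ⟨x, hx, rfl⟩ := h1
    exact ⟨x, ⟨hx, (hU x).1 (mem_unitGroup.1 hy1).2⟩, rfl⟩

theorem SU_le (D : RubinData F H G) {T : Finset (HeightOneSpectrum (𝓞 F))} (hT : Disjoint D.S T) :
    SU F D.S ≤ UW (T : Set (HeightOneSpectrum (𝓞 F))) := fun x hx v hv =>
  hx v fun h => Finset.disjoint_left.1 hT h hv

theorem FT_le (T : Finset (HeightOneSpectrum (𝓞 F))) :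
    FT T ≤ UW (T : Set (HeightOneSpectrum (𝓞 F))) := by
  intro x hx v hv
  have h := Valuation.map_one_add_of_lt (v.valuation F) (hx v hv)
  rwa [add_sub_cancel] at h

/-- the index of `FT T` in the product of it and the group of the `S`-units -/
theorem index_part (D : RubinData F H G) (T : Finset (HeightOneSpectrum (𝓞 F))) :
    (part (D.U T) (1 : G →* ℂˣ)).relIndex (part (D.U ∅) (1 : G →* ℂˣ)) =
      (FT T).relIndex (FT T ⊔ SU F D.S) := by
  rw [← part_one D T, ← (Pool.Agent.K3h3.E2.t_KH1 F H G D).1,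
    Subgroup.relIndex_map_map_of_injective _ _ (Pool.Agent.K3h3.E2.inj (K := F) (H := H)),
    Subgroup.relIndex_sup_left, inf_comm, Subgroup.inf_relIndex_right]

theorem cut_ker (D : RubinData F H G) :
    (cut D.S).ker = Subgroup.toAddSubgroup (SU F D.S) := by
  ext x
  induction x with | ofMul x => ?_
  rw [AddMonoidHom.mem_ker]
  constructor
  · intro h v hv
    have h1 : cut D.S (Additive.ofMul x) v = 0 := by
      rw [h]
      rfl
    rw [cut_notMem x hv] at h1
    exact prin_zero_iff.1 h1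
  · intro h
    ext v
    by_cases hv : v ∈ D.S
    · exact cut_mem x hv
    · rw [cut_notMem x hv]
      exact prin_zero_iff.2 (h v hv)

theorem map_FT (D : RubinData F H G) {T : Finset (HeightOneSpectrum (𝓞 F))}
    (hT : Disjoint D.S T) : (Subgroup.toAddSubgroup (FT T)).map (cut D.S) = PF D T := by
  ext d
  constructor
  · rintro ⟨y, hy, rfl⟩
    have hy' : y.toMul ∈ FT T := hy
    refine ⟨fun v hv => ?_, y.toMul, hy', fun v hv => cut_notMem y.toMul hv⟩
    by_cases hvS : v ∈ D.S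
    · exact cut_mem y.toMul hvS
    · have h1 : cut D.S (Additive.ofMul y.toMul) v = prin y.toMul v := cut_notMem _ hvS
      refine h1.trans (prin_zero_iff.2 (FT_le T hy' v ?_))
      exact hv.resolve_left hvS
  · rintro ⟨hd, y, hy, h⟩
    refine ⟨Additive.ofMul y, hy, ?_⟩
    ext v
    by_cases hv : v ∈ D.S
    · rw [cut_mem y hv, hd v (Or.inl hv)]
    · rw [cut_notMem y hv, h v hv]

/-- the kernel of the map to the class group -/
def KT (D : RubinData F H G) (T : Finset (HeightOneSpectrum (𝓞 F))) : AddSubgroup (Dv F) :=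
  (Subgroup.toAddSubgroup (UW (T : Set (HeightOneSpectrum (𝓞 F))))).map (cut D.S)

theorem mem_KT (D : RubinData F H G) {T : Finset (HeightOneSpectrum (𝓞 F))}
    (hT : Disjoint D.S T) (d : Dv F) : d ∈ KT D T ↔ d ∈ DF D T ∧
      (clD d).toMul ∈ CA (D.S : Set (HeightOneSpectrum (𝓞 F))) := by
  constructor
  · rintro ⟨y, hy, rfl⟩
    have hy' : y.toMul ∈ UW (T : Set (HeightOneSpectrum (𝓞 F))) := hy
    refine ⟨fun v hv => ?_, cl_cut D.S y.toMul⟩
    by_cases hvS : v ∈ D.S
    · exact cut_mem y.toMul hvS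
    · have h1 : cut D.S (Additive.ofMul y.toMul) v = prin y.toMul v := cut_notMem _ hvS
      exact h1.trans (prin_zero_iff.2 (hy' v (hv.resolve_left hvS)))
  · rintro ⟨hd, hc⟩
    obtain ⟨a, ha, ha2⟩ := cl_CA hc
    have h1 : clD (d - a) = 0 := by
      rw [map_sub, ha2, ofMul_toMul, sub_self]
    obtain ⟨x, hx⟩ := cl_ker _ h1
    have h2 : ∀ v, v ∉ D.S → prin x v = d v := by
      intro v hv
      rw [← hx, Finsupp.sub_apply, ha v hv, sub_zero]
    refine ⟨Additive.ofMul x, fun v hv => ?_, ?_⟩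
    · have hvS : v ∉ D.S := fun h => Finset.disjoint_left.1 hT h hv
      apply prin_zero_iff.1
      change prin x v = 0
      rw [h2 v hvS, hd v (Or.inr hv)]
    · ext v
      by_cases hv : v ∈ D.S
      · rw [cut_mem x hv, hd v (Or.inl hv)]
      · rw [cut_notMem x hv, h2 v hv]

/-- the index of the kernel -/
theorem index_KT (D : RubinData F H G) {T : Finset (HeightOneSpectrum (𝓞 F))}
    (hT : Disjoint D.S T) : (KT D T).relIndex (DF D T) =
      (CA (D.S : Set (HeightOneSpectrum (𝓞 F)))).index := by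
  classical
  let V := Subgroup.toAddSubgroup (CA (D.S : Set (HeightOneSpectrum (𝓞 F))))
  let θ : DF D T →+ Additive (ClassGroup (𝓞 F)) := clD.comp (DF D T).subtype
  have hker : (KT D T).addSubgroupOf (DF D T) = V.comap θ := by
    ext d
    rw [AddSubgroup.mem_addSubgroupOf, mem_KT D hT, AddSubgroup.mem_comap]
    exact ⟨fun h => h.2, fun h => ⟨d.2, h⟩⟩
  have hsurj : Function.Surjective θ := by
    intro c
    have hN : (∏ v ∈ D.S ∪ T, Ideal.absNorm v.asIdeal) ≠ 0 :=
      Finset.prod_ne_zero_iff.2 fun v _ => (zero_lt_one.trans (one_lt_norm v)).ne'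
    obtain ⟨d, hd, hd2⟩ := cl_surj hN c.toMul
    refine ⟨⟨d, fun v hv => ?_⟩, hd2⟩
    refine hd v ?_
    have hv' : v ∈ D.S ∪ T := Finset.mem_union.2 hv
    obtain ⟨k, hk⟩ := Finset.dvd_prod_of_mem (fun v : HeightOneSpectrum (𝓞 F) =>
      Ideal.absNorm v.asIdeal) hv'
    rw [hk, Nat.cast_mul]
    exact v.asIdeal.mul_mem_right _ (Ideal.absNorm_mem v.asIdeal)
  rw [AddSubgroup.relIndex, hker, AddSubgroup.index_comap_of_surjective _ hsurj]
  rfl

end main

theorem tclf : S_TCLF := by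
  intro F H G _ _ _ _ _ _ _ _ _ D T hT b hb
  have h1 : (PF D T).relIndex (KT D T) =
      (FT T ⊔ SU F D.S).relIndex (UW (T : Set (HeightOneSpectrum (𝓞 F)))) := by
    rw [← map_FT D hT]
    unfold KT
    rw [AddSubgroup.relIndex_map_map, cut_ker]
    have e1 : Subgroup.toAddSubgroup (FT T) ⊔ Subgroup.toAddSubgroup (SU F D.S) =
        Subgroup.toAddSubgroup (FT T ⊔ SU F D.S) := (map_sup Subgroup.toAddSubgroup _ _).symm
    have e2 : Subgroup.toAddSubgroup (UW (T : Set (HeightOneSpectrum (𝓞 F)))) ⊔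
        Subgroup.toAddSubgroup (SU F D.S) =
        Subgroup.toAddSubgroup (UW (T : Set (HeightOneSpectrum (𝓞 F)))) := by
      rw [← map_sup, sup_eq_left.2 (SU_le D hT)]
    rw [e1, e2]
    rfl
  have h2 : (PF D T).relIndex (KT D T) * (KT D T).relIndex (DF D T) =
      (PF D T).relIndex (DF D T) := by
    apply AddSubgroup.relIndex_mul_relIndex
    · rw [← map_FT D hT]
      exact AddSubgroup.map_mono (FT_le T)
    · intro d hd
      exact ((mem_KT D hT d).1 hd).1
  have h3 : (FT T).relIndex (FT T ⊔ SU F D.S) *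
      (FT T ⊔ SU F D.S).relIndex (UW (T : Set (HeightOneSpectrum (𝓞 F)))) =
      ∏ v ∈ T, (Ideal.absNorm v.asIdeal - 1) := by
    rw [← index_T T]
    exact Subgroup.relIndex_mul_relIndex _ _ _ le_sup_left (sup_le (FT_le T) (SU_le D hT))
  have h4 : (∏ v ∈ T, (Ideal.absNorm v.asIdeal - 1)) ≠ 0 :=
    Finset.prod_ne_zero_iff.2 fun v _ => by
      have := one_lt_norm v
      omega
  have h5 : ((∏ v ∈ T, (Ideal.absNorm v.asIdeal - 1) : ℕ) : ℤ) =
      ∏ v ∈ T, ((Ideal.absNorm v.asIdeal : ℤ) - sgn (1 : G →* ℂˣ) (D.σ v)) := by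
    rw [Nat.cast_prod]
    refine Finset.prod_congr rfl fun v _ => ?_
    have := one_lt_norm v
    unfold sgn
    rw [if_pos (show (1 : G →* ℂˣ) (D.σ v) = 1 from rfl)]
    push_cast [this.le]
    rfl
  rw [← h5, index_part, ← h3] at hb
  have h6 : (FT T).relIndex (FT T ⊔ SU F D.S) ≠ 0 := by
    intro h
    rw [h, zero_mul] at h3
    exact h4 h3.symm
  have h7 : b = (FT T ⊔ SU F D.S).relIndex (UW (T : Set (HeightOneSpectrum (𝓞 F)))) := by
    have h8 : (FT T).relIndex (FT T ⊔ SU F D.S) * b = (FT T).relIndex (FT T ⊔ SU F D.S) *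
      (FT T ⊔ SU F D.S).relIndex (UW (T : Set (HeightOneSpectrum (𝓞 F)))) := by
      exact_mod_cast hb
    exact Nat.eq_of_mul_eq_mul_left (Nat.pos_of_ne_zero h6) h8
  rw [← h2, h1, ← h7, index_KT D hT, mul_comm]

end Pool.Agent.H955.BT
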