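import Pool.Agent.H509.BT.Stm4

set_option autoImplicit false
set_option linter.unusedSectionVars false
set_option linter.deprecated false
set_option linter.style.haveILetI false

open NumberField IsDedekindDomain Filter Topology Module

noncomputable section

namespace Pool.Agent.H120.BT

open Pool.Agent.BT9
open Pool.Agent.Q92.AR (Dv prin Pr Ray nmD nu up sD puD Cong Pos frob IsFrobenius Unramified Ram art
  prin_mul prin_one prin_inv prin_div sE)
open Pool.Agent.Q20.EX (Inert CongAt)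
open Pool.Agent.K3h30.RS
open Pool.Agent.K3h56.E2 (Quad Dict part InSF SplAt Over CA SU minus actK oddCard sgn)
open Pool.Agent.H509 (U1 Generates)

section base
variable {F K : Type} [Field F] [NumberField F] [Field K] [NumberField K] [Algebra F K]

theorem val_lt_iff {P : HeightOneSpectrum (𝓞 F)} {w : HeightOneSpectrum (𝓞 K)}
    (hP : Above {P} w) (x : F) :
    w.valuation K (algebraMap F K x) < 1 ↔ P.valuation F x < 1 := by
  haveI : w.asIdeal.LiesOver P.asIdeal := ⟨(above_singleton.1 hP).symm⟩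
  rw [← HeightOneSpectrum.valuation_liesOver K P w x]
  have h0 : P.asIdeal.ramificationIdx' w.asIdeal ≠ 0 :=
    Ideal.IsDedekindDomain.ramificationIdx'_ne_zero_of_liesOver w.asIdeal P.ne_bot
  constructor
  · intro h
    by_contra hc
    exact absurd h (not_lt.2 (one_le_pow₀ (not_lt.1 hc)))
  · intro h
    exact pow_lt_one₀ zero_le h h0

theorem above_under (w : HeightOneSpectrum (𝓞 K)) : Above {w.under (𝓞 F)} w :=
  above_singleton.2 rfl

theorem not_above {S : Set (HeightOneSpectrum (𝓞 F))} {w : HeightOneSpectrum (𝓞 K)} :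
    Above S w ↔ w.under (𝓞 F) ∈ S := above_iff (above_under w)

theorem FT_up {T : Finset (HeightOneSpectrum (𝓞 F))} {x : Fˣ} : x ∈ FT T ↔ up F K x ∈ T1 K T := by
  have key : ∀ (v : HeightOneSpectrum (𝓞 F)) (w : HeightOneSpectrum (𝓞 K)), Above {v} w →
      (w.valuation K (((up F K x : Kˣ) : K) - 1) < 1 ↔ v.valuation F ((x : F) - 1) < 1) := by
    intro v w hw
    have e : ((up F K x : Kˣ) : K) - 1 = algebraMap F K ((x : F) - 1) := by
      rw [map_sub, map_one]
      rfl
    rw [e]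
    exact val_lt_iff hw _
  constructor
  · intro h w hw
    exact (key _ w (above_under w)).2 (h _ (not_above.1 hw))
  · intro h v hv
    obtain ⟨w, hw⟩ := (Pool.Agent.K3h25.RS.t_OVER F K v).1
    exact (key v w hw).1 (h w ((above_iff hw).2 hv))

theorem up_inj : Function.Injective (up F K) := Units.map_injective (algebraMap F K).injective

/-- the divisor of an element of `F` at an unramified prime of `K` -/
theorem prin_up' {w : HeightOneSpectrum (𝓞 K)} (hu : Unramified K (w.under (𝓞 F))) (x : Fˣ) :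
    prin (up F K x) w = prin x (w.under (𝓞 F)) := by
  haveI : w.asIdeal.LiesOver (w.under (𝓞 F)).asIdeal := ⟨rfl⟩
  have he : Ideal.ramificationIdx' (w.under (𝓞 F)).asIdeal w.asIdeal = 1 := by
    refine Ideal.ramificationIdx'_spec ?_ ?_
    · rw [pow_one, Ideal.map_le_iff_le_comap]
      exact le_of_eq rfl
    · exact hu w rfl
  have h1 := HeightOneSpectrum.valuation_liesOver K (w.under (𝓞 F)) w (x : F)
  rw [he, pow_one] at h1
  have h2 := Pool.Agent.Q128.AR.val_prin x (w.under (𝓞 F))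
  have h3 := Pool.Agent.Q128.AR.val_prin (up F K x) w
  have h4 : ((up F K x : Kˣ) : K) = algebraMap F K (x : F) := rfl
  rw [h4, ← h1, h2, WithZero.exp_inj, neg_inj] at h3
  exact h3.symm

theorem val_one_iff_prin (x : Fˣ) (v : HeightOneSpectrum (𝓞 F)) :
    v.valuation F (x : F) = 1 ↔ prin x v = 0 := by
  rw [Pool.Agent.Q128.AR.val_prin, ← WithZero.exp_zero, WithZero.exp_inj, neg_eq_zero]

end base

section tower
variable {F K H : Type} [Field F] [NumberField F] [Field K] [NumberField K] [Field H]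
  [NumberField H] [Algebra F K] [Algebra K H] [Algebra F H] [IsScalarTower F K H]

theorem under_under (w : HeightOneSpectrum (𝓞 H)) :
    (w.under (𝓞 K)).under (𝓞 F) = w.under (𝓞 F) := by
  apply HeightOneSpectrum.ext
  change (w.asIdeal.comap (algebraMap (𝓞 K) (𝓞 H))).comap (algebraMap (𝓞 F) (𝓞 K)) =
    w.asIdeal.comap (algebraMap (𝓞 F) (𝓞 H))
  rw [Ideal.comap_comap, ← IsScalarTower.algebraMap_eq]

theorem T1_up {T : Finset (HeightOneSpectrum (𝓞 F))} {y : Kˣ} :
    y ∈ T1 K T ↔ up K H y ∈ T1 H T := by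
  have key : ∀ (v : HeightOneSpectrum (𝓞 K)) (w : HeightOneSpectrum (𝓞 H)), Above {v} w →
      (w.valuation H (((up K H y : Hˣ) : H) - 1) < 1 ↔ v.valuation K ((y : K) - 1) < 1) := by
    intro v w hw
    have e : ((up K H y : Hˣ) : H) - 1 = algebraMap K H ((y : K) - 1) := by
      rw [map_sub, map_one]
      rfl
    rw [e]
    exact val_lt_iff hw _
  constructor
  · intro h w hw
    refine (key _ w (above_under w)).2 (h _ (not_above.2 ?_))
    have h1 := not_above.1 hw
    rwa [under_under]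
  · intro h v hv
    obtain ⟨w, hw⟩ := (Pool.Agent.K3h25.RS.t_OVER K H v).1
    refine (key v w hw).1 (h w (not_above.2 ?_))
    have e : w.under (𝓞 K) = v := Pool.Agent.H509.Rec.under_of_above hw
    have h1 := not_above.1 hv
    rwa [← under_under (K := K), e]

theorem up_up (x : Fˣ) : up K H (up F K x) = up F H x :=
  Units.ext (IsScalarTower.algebraMap_apply F K H (x : F)).symm

end tower

section gal
variable {F H G : Type} [Field F] [NumberField F] [Field H] [NumberField H] [Algebra F H]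
  [CommGroup G] [Finite G] [MulSemiringAction G H] [IsGaloisGroup G F H]

theorem act_T1 {T : Finset (HeightOneSpectrum (𝓞 F))} (γ : G) {x : Hˣ} (hx : x ∈ T1 H T) :
    act γ x ∈ T1 H T := by
  intro w hw
  obtain ⟨v, hvT, hv⟩ := above_mem hw
  obtain ⟨w', h1, h2⟩ := (Pool.Agent.K3h25.RS.t_TRANS F H G v w hv).1 γ
  have : ((act γ x : Hˣ) : H) - 1 = γ • ((x : H) - 1) := by
    rw [smul_sub, smul_one]
    rfl
  rw [this, ← h2]
  exact hx w' ((above_iff h1).2 hvT)

theorem act_up (γ : G) (x : Fˣ) : act γ (up F H x) = up F H x := by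
  haveI : SMulCommClass G F H := IsGaloisGroup.commutes
  exact Units.ext (smul_algebraMap γ (x : F))

theorem fixed_up {y : Hˣ} (h : ∀ g : G, act g y = y) : ∃ x : Fˣ, up F H x = y := by
  obtain ⟨x, hx⟩ := (IsGaloisGroup.isInvariant (G := G) (A := F) (B := H)).isInvariant (y : H)
    (fun g => congrArg Units.val (h g))
  have hx0 : x ≠ 0 := by
    rintro rfl
    rw [map_zero] at hx
    exact y.ne_zero hx.symm
  exact ⟨Units.mk0 x hx0, Units.ext hx⟩

theorem act_map (γ : G) (x y : Hˣ) : act γ (x * y) = act γ x * act γ y := map_mul _ _ _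
theorem act_invs (γ : G) (x : Hˣ) : act γ x⁻¹ = (act γ x)⁻¹ := map_inv _ _
theorem act_divs (γ : G) (x y : Hˣ) : act γ (x / y) = act γ x / act γ y := map_div _ _ _
theorem act_pows (γ : G) (x : Hˣ) (n : ℕ) : act γ (x ^ n) = act γ x ^ n := map_pow _ _ _

variable (D : RubinData F H G) {T : Finset (HeightOneSpectrum (𝓞 F))}

theorem mem_U {x : Hˣ} : x ∈ D.U T ↔ (∀ w : HeightOneSpectrum (𝓞 H), w.under (𝓞 F) ∉ D.S →
    prin x w = 0) ∧ x ∈ T1 H T := by
  constructor
  · intro h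
    refine ⟨fun w hw => ?_, h.2⟩
    rw [← val_one_iff_prin]
    exact h.1 w fun h' => hw (not_above.1 h')
  · rintro ⟨h1, h2⟩
    refine ⟨fun w hw => ?_, h2⟩
    rw [val_one_iff_prin]
    exact h1 w fun h' => hw (not_above.2 h')

theorem unr (v : HeightOneSpectrum (𝓞 F)) (hv : v ∉ D.S) : Unramified H v :=
  Pool.Agent.H509.Rec.unr_of_squarefree (D.unramified v hv)

theorem sq_one (hT : D.Allowed T) {z : Hˣ} (hz : z ∈ T1 H T) (h : z ^ 2 = 1) : z = 1 := by
  refine Pool.Agent.K3h60.E2.tfU D T hT z ⟨fun w _ => ?_, hz⟩ 2 (by norm_num) h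
  have h1 : w.valuation H (z : H) ^ 2 = 1 := by
    rw [← map_pow, ← Units.val_pow_eq_pow_val, h, Units.val_one, map_one]
  rw [pow_eq_one_iff] at h1
  exact h1.resolve_right (by norm_num)

theorem T1_sq (hT : D.Allowed T) {a b : Hˣ} (ha : a ∈ T1 H T) (hb : b ∈ T1 H T)
    (h : a ^ 2 = b ^ 2) : a = b := by
  have h1 : a / b = 1 := sq_one D hT ((T1 H T).div_mem ha hb) (by rw [div_pow, h, div_self'])
  exact div_eq_one.1 h1

theorem Sq_le (χ : G →* ℂˣ) : Sq T ≤ Wu D T χ := by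
  rintro _ ⟨y, hy, rfl⟩
  refine ⟨⟨(FT T).pow_mem hy 2, fun v _ => ?_⟩, 1, (part (D.U T) χ).one_mem, up F H y,
    FT_up.1 hy, ?_⟩
  · have e : powMonoidHom 2 y = y * y := pow_two y
    rw [e, prin_mul, Finsupp.add_apply]
    exact ⟨_, rfl⟩
  · rw [one_mul, ← map_pow]
    rfl

theorem Sq_iff (hT : D.Allowed T) (χ : G →* ℂˣ) (x : Fˣ) (u : Hˣ) (hu : u ∈ part (D.U T) χ)
    (b : Hˣ) (hb : b ∈ T1 H T) (h : up F H x = u * b ^ 2) :
    x ∈ Sq T ↔ u ∈ (part (D.U T) χ).map (powMonoidHom 2) := by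
  constructor
  · rintro ⟨y, hy, rfl⟩
    have hy1 : up F H y ∈ T1 H T := FT_up.1 hy
    have hv : up F H y / b ∈ T1 H T := (T1 H T).div_mem hy1 hb
    have huv : u = (up F H y / b) ^ 2 := by
      have h1 : up F H (y ^ 2) = u * b ^ 2 := h
      rw [div_pow, ← map_pow, h1, mul_div_cancel_right]
    refine ⟨up F H y / b, ⟨?_, fun g hg => ?_, fun g hg => ?_⟩, huv.symm⟩
    · rw [mem_U]
      refine ⟨fun w hw => ?_, hv⟩
      have h2 := ((mem_U D).1 hu.1).1 w hw
      rw [huv, pow_two, prin_mul, Finsupp.add_apply] at h2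
      omega
    · refine T1_sq D hT (act_T1 g hv) hv ?_
      rw [← act_pows, ← huv]
      exact hu.2.1 g hg
    · refine T1_sq D hT (act_T1 g hv) ((T1 H T).inv_mem hv) ?_
      rw [← act_pows, ← huv, inv_pow, ← huv]
      exact hu.2.2 g hg
  · rintro ⟨v, hv, rfl⟩
    have hz : v * b ∈ T1 H T := (T1 H T).mul_mem ((mem_U D).1 hv.1).2 hb
    have hx : up F H x = (v * b) ^ 2 := by
      rw [mul_pow]
      exact h
    obtain ⟨y, hy⟩ := fixed_up (F := F) (G := G) (y := v * b) (fun g => by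
      refine T1_sq D hT (act_T1 g hz) hz ?_
      rw [← act_pows, ← hx]
      exact act_up g x)
    refine ⟨y, ?_, ?_⟩
    · have : up F H y ∈ T1 H T := by rw [hy]; exact hz
      exact FT_up.2 this
    · apply up_inj (K := H)
      rw [hx, ← hy, ← map_pow]
      rfl

theorem rel_eq (hT : D.Allowed T) (χ : G →* ℂˣ)
    (hex : ∀ u ∈ part (D.U T) χ, ∃ x ∈ Sel D T, ∃ b ∈ T1 H T, up F H x = u * b ^ 2) :
    (Sq T).relIndex (Wu D T χ) =
      ((part (D.U T) χ).map (powMonoidHom 2)).relIndex (part (D.U T) χ) := by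
  have mulr : ∀ (x x' : Fˣ) (u u' b b' : Hˣ), up F H x = u * b ^ 2 → up F H x' = u' * b' ^ 2 →
      up F H (x * x') = (u * u') * (b * b') ^ 2 := by
    intro x x' u u' b b' h h'
    rw [map_mul, h, h', mul_pow, mul_mul_mul_comm]
  have invr : ∀ (x : Fˣ) (u b : Hˣ), up F H x = u * b ^ 2 →
      up F H x⁻¹ = u⁻¹ * b⁻¹ ^ 2 := by
    intro x u b h
    rw [map_inv, h, mul_inv, inv_pow]
  apply Nat.dvd_antisymm
  · refine Pool.Agent.K3h92.E2.relIndex_dvd (Wu D T χ) (Sq T) (part (D.U T) χ)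
      ((part (D.U T) χ).map (powMonoidHom 2))
      (fun x u => u ∈ part (D.U T) χ ∧ ∃ b ∈ T1 H T, up F H x = u * b ^ 2) ?_ ?_ ?_ ?_ ?_
    · rintro x ⟨_, u, hu, b, hb, h⟩
      exact ⟨u, hu, b, hb, h⟩
    · rintro x u x' u' ⟨hu, b, hb, h⟩ ⟨hu', b', hb', h'⟩
      exact ⟨(part (D.U T) χ).mul_mem hu hu', b * b', (T1 H T).mul_mem hb hb', mulr _ _ _ _ _ _ h h'⟩
    · rintro x u ⟨hu, -⟩
      exact hu
    · rintro x u u' ⟨hu, b, hb, h⟩ ⟨hu', b', hb', h'⟩
      have h2 := mulr _ _ _ _ _ _ (invr _ _ _ h) h'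
      refine (Sq_iff D hT χ (x⁻¹ * x) (u⁻¹ * u')
        ((part (D.U T) χ).mul_mem ((part (D.U T) χ).inv_mem hu) hu') (b⁻¹ * b')
        ((T1 H T).mul_mem ((T1 H T).inv_mem hb) hb') h2).1 ?_
      rw [inv_mul_cancel]
      exact (Sq T).one_mem
    · rintro x u ⟨hu, b, hb, h⟩ hm
      exact (Sq_iff D hT χ x u hu b hb h).2 hm
  · refine Pool.Agent.K3h92.E2.relIndex_dvd (part (D.U T) χ)
      ((part (D.U T) χ).map (powMonoidHom 2)) (Wu D T χ) (Sq T)
      (fun u x => x ∈ Sel D T ∧ u ∈ part (D.U T) χ ∧ ∃ b ∈ T1 H T, up F H x = u * b ^ 2)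
      ?_ ?_ ?_ ?_ ?_
    · intro u hu
      obtain ⟨x, hx, b, hb, h⟩ := hex u hu
      exact ⟨x, hx, hu, b, hb, h⟩
    · rintro u x u' x' ⟨hx, hu, b, hb, h⟩ ⟨hx', hu', b', hb', h'⟩
      exact ⟨(Sel D T).mul_mem hx hx', (part (D.U T) χ).mul_mem hu hu', b * b',
        (T1 H T).mul_mem hb hb', mulr _ _ _ _ _ _ h h'⟩
    · rintro u x ⟨hx, hu, b, hb, h⟩
      exact ⟨hx, u, hu, b, hb, h⟩
    · rintro u x x' ⟨hx, hu, b, hb, h⟩ ⟨hx', hu', b', hb', h'⟩
      have h2 := mulr _ _ _ _ _ _ (invr _ _ _ h) h'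
      refine (Sq_iff D hT χ (x⁻¹ * x') (u⁻¹ * u)
        ((part (D.U T) χ).mul_mem ((part (D.U T) χ).inv_mem hu) hu) (b⁻¹ * b')
        ((T1 H T).mul_mem ((T1 H T).inv_mem hb) hb') h2).2 ?_
      rw [inv_mul_cancel]
      exact Subgroup.one_mem _
    · rintro u x ⟨hx, hu, b, hb, h⟩ hm
      exact (Sq_iff D hT χ x u hu b hb h).1 hm

end gal

theorem wu1 : S_WU1 := by
  intro F H G _ _ _ _ _ _ _ _ _ D T hT
  have hone : ∀ u ∈ part (D.U T) (1 : G →* ℂˣ), ∀ g : G, act g u = u := fun u hu g =>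
    hu.2.1 g rfl
  have hex : ∀ u ∈ part (D.U T) (1 : G →* ℂˣ), ∃ x ∈ Sel D T, ∃ b ∈ T1 H T,
      up F H x = u * b ^ 2 := by
    intro u hu
    obtain ⟨x, hx⟩ := fixed_up (F := F) (hone u hu)
    refine ⟨x, ⟨?_, fun v hv => ?_⟩, 1, (T1 H T).one_mem, by rw [one_pow, mul_one, hx]⟩
    · have : up F H x ∈ T1 H T := by rw [hx]; exact ((mem_U D).1 hu.1).2
      exact FT_up.2 this
    · obtain ⟨w, hw⟩ := Pool.Agent.Q149.AR.above_nonempty (F := F) (E := H) v
      have h1 := prin_up' (w := w) (by rw [hw]; exact unr D v hv) x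
      rw [hw, hx, ((mem_U D).1 hu.1).1 w (by rw [hw]; exact hv)] at h1
      rw [← h1]
      exact Even.zero
  refine ⟨?_, Sq_le D 1, hex, fun x u hu b hb h => Sq_iff D hT 1 x u hu b hb h, rel_eq D hT 1 hex⟩
  ext x
  constructor
  · rintro ⟨hx, y, hy, h⟩
    have hy1 : up F H y ∈ T1 H T := FT_up.1 hy
    have hx1 : up F H x ∈ T1 H T := FT_up.1 hx.1
    refine ⟨hx, up F H x / up F H y ^ 2, ⟨?_, fun g _ => ?_, fun g hg => absurd rfl hg⟩,
      up F H y, hy1, by rw [div_mul_cancel]⟩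
    · rw [mem_U]
      refine ⟨fun w hw => ?_, (T1 H T).div_mem hx1 ((T1 H T).pow_mem hy1 2)⟩
      have hu := unr D _ hw
      have e : prin (up F H x / up F H y ^ 2) w = prin (up F H x) w -
          (prin (up F H y) w + prin (up F H y) w) := by
        rw [prin_div, Finsupp.sub_apply, pow_two, prin_mul, Finsupp.add_apply]
      rw [e, prin_up' hu, prin_up' hu, h _ hw]
      ring
    · rw [act_divs, act_pows, act_up, act_up]
  · rintro ⟨hx, u, hu, b, hb, h⟩
    have hfix : ∀ g : G, act g b = b := by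
      intro g
      refine T1_sq D hT (act_T1 g hb) hb ?_
      have h1 : b ^ 2 = up F H x / u := by rw [h, mul_div_cancel_left]
      rw [← act_pows, h1, act_divs, act_up, hone u hu g]
    obtain ⟨y, hy⟩ := fixed_up (F := F) hfix
    refine ⟨hx, y, ?_, fun v hv => ?_⟩
    · have : up F H y ∈ T1 H T := by rw [hy]; exact hb
      exact FT_up.2 this
    · obtain ⟨w, hw⟩ := Pool.Agent.Q149.AR.above_nonempty (F := F) (E := H) v
      have hu' : Unramified H (w.under (𝓞 F)) := by rw [hw]; exact unr D v hv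
      have h1 := prin_up' hu' x
      have h2 := prin_up' hu' y
      rw [h, ← hy, prin_mul, Finsupp.add_apply, ((mem_U D).1 hu.1).1 w (by rw [hw]; exact hv),
        pow_two, prin_mul, Finsupp.add_apply, h2, hw] at h1
      rw [← h1]
      ring

/-! ### quadratic extensions -/

section quad
variable {F K : Type} [Field F] [NumberField F] [Field K] [NumberField K] [Algebra F K]
  {τ : K ≃ₐ[F] K}

theorem gal_two (hQ : Quad F K τ) (σ : K ≃ₐ[F] K) : σ = 1 ∨ σ = τ := by
  haveI : Algebra.IsQuadraticExtension F K := { finrank_eq_two' := hQ.deg }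
  haveI : IsGalois F K := inferInstance
  have hcard : Nat.card (K ≃ₐ[F] K) = 2 := by
    rw [IsGalois.card_aut_eq_finrank, hQ.deg]
  by_cases hσ : σ = 1
  · exact Or.inl hσ
  · right
    obtain ⟨y, hy, hy'⟩ := (Nat.card_eq_two_iff' (1 : K ≃ₐ[F] K)).mp hcard
    rw [hy' σ hσ, hy' τ hQ.ne]

theorem galois_of_quad (hQ : Quad F K τ) : IsGalois F K := by
  haveI : Algebra.IsQuadraticExtension F K := { finrank_eq_two' := hQ.deg }
  infer_instance

theorem tau_tau (hQ : Quad F K τ) (x : Kˣ) : actK τ (actK τ x) = x :=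
  Units.ext ((Pool.Agent.K3h92.E2.tau_facts τ hQ).1 (x : K))

theorem up_nu (hQ : Quad F K τ) (β : Kˣ) : up F K (nu F K β) = β * actK τ β := by
  classical
  haveI := galois_of_quad hQ
  apply Units.ext
  have h1 := Algebra.norm_eq_prod_automorphisms F (β : K)
  have h2 : (Finset.univ : Finset (K ≃ₐ[F] K)) = {1, τ} := by
    ext σ
    simp only [Finset.mem_univ, Finset.mem_insert, Finset.mem_singleton, true_iff]
    exact gal_two hQ σ
  rw [h2, Finset.prod_pair (show (1 : K ≃ₐ[F] K) ≠ τ from fun h => hQ.ne h.symm)] at h1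
  exact h1

theorem prin_act (β : Kˣ) (w : HeightOneSpectrum (𝓞 K)) :
    prin (actK τ β) w = prin β (Pool.Agent.TeamU.act τ⁻¹ w) := by
  have h1 := Pool.Agent.Q149.AR.prin_sE τ (Additive.ofMul β)
  have h2 := congrArg (fun d : Dv K => d w) h1
  simp only [Pool.Agent.Q149.AR.sD_apply] at h2
  exact h2

theorem under_act (w : HeightOneSpectrum (𝓞 K)) (g : K ≃ₐ[F] K) :
    (Pool.Agent.TeamU.act g w).under (𝓞 F) = w.under (𝓞 F) :=
  Pool.Agent.Q149.AR.act_under g w

/-- divisors which are invariant outside a set come from `F` there -/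
theorem descend (hQ : Quad F K τ) {S : Set (HeightOneSpectrum (𝓞 F))} (d : Dv K)
    (h : ∀ w : HeightOneSpectrum (𝓞 K), w.under (𝓞 F) ∉ S →
      d (Pool.Agent.TeamU.act τ w) = d w) :
    ∃ e : Dv F, ∀ w : HeightOneSpectrum (𝓞 K), w.under (𝓞 F) ∉ S → d w = e (w.under (𝓞 F)) := by
  classical
  haveI := galois_of_quad hQ
  choose w hw using Pool.Agent.Q149.AR.above_nonempty (F := F) (E := K)
  have hwinj : Function.Injective w := by
    intro v v' hvv
    rw [← hw v, ← hw v', hvv]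
  have hfin : (Function.support fun v => d (w v)).Finite := by
    have : (Function.support fun v => d (w v)) =
        w ⁻¹' (d.support : Set (HeightOneSpectrum (𝓞 K))) := by
      ext v
      simp
    rw [this]
    exact (d.support.finite_toSet).preimage hwinj.injOn
  refine ⟨Finsupp.ofSupportFinite (fun v => d (w v)) hfin, ?_⟩
  intro w' hw'
  rw [Finsupp.ofSupportFinite_coe]
  obtain ⟨g, hg⟩ := Pool.Agent.Q149.AR.trans_act (F := F) (w := w (w'.under (𝓞 F))) (w' := w')
    (hw _)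
  rcases gal_two hQ g with h1 | h1
  · rw [h1, Pool.Agent.TeamU.act_one] at hg
    rw [hg]
  · rw [h1] at hg
    have h2 := h (w (w'.under (𝓞 F))) (by rw [hw]; exact hw')
    rw [hg] at h2
    exact h2

/-- the trace of an integer -/
theorem trO (hQ : Quad F K τ) (c : 𝓞 K) : ∃ t : 𝓞 F, algebraMap F K (t : F) = (c : K) + τ (c : K) := by
  obtain ⟨h1, h2⟩ := Pool.Agent.K3h92.E2.tau_facts τ hQ
  obtain ⟨y, hy⟩ := h2 ((c : K) + τ (c : K)) (by rw [map_add, h1, add_comm])
  have hi : IsIntegral ℤ ((c : K) + τ (c : K)) := c.2.add (c.2.map τ)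
  rw [← hy] at hi
  have hy' : IsIntegral ℤ y := (isIntegral_algebraMap_iff (algebraMap F K).injective).1 hi
  exact ⟨⟨y, hy'⟩, hy⟩

theorem mem_of_under {w : HeightOneSpectrum (𝓞 K)} (t : 𝓞 F) :
    t ∈ (w.under (𝓞 F)).asIdeal ↔ w.valuation K (algebraMap F K (t : F)) < 1 := by
  have e : algebraMap F K (t : F) = ((algebraMap (𝓞 F) (𝓞 K) t : 𝓞 K) : K) := rfl
  rw [e, HeightOneSpectrum.valuation_lt_one_iff_mem]
  rfl

/-- elements with trace prime to `v` -/
theorem exists_tr_one (hQ : Quad F K τ) (v : HeightOneSpectrum (𝓞 F)) (hu : Unramified K v) :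
    ∃ (c : 𝓞 K) (t : 𝓞 F), algebraMap F K (t : F) = (c : K) + τ (c : K) ∧ t ∉ v.asIdeal := by
  by_contra hcon
  push Not at hcon
  obtain ⟨w, hw⟩ := Pool.Agent.Q149.AR.above_nonempty (F := F) (E := K) v
  have key : ∀ c : 𝓞 K, w.valuation K ((c : K) + τ (c : K)) < 1 := by
    intro c
    obtain ⟨t, ht⟩ := trO hQ c
    rw [← ht, ← mem_of_under, hw]
    exact hcon c t ht
  have h2 : w.valuation K (2 : K) < 1 := by
    have h := key 1
    have e : ((1 : 𝓞 K) : K) + τ ((1 : 𝓞 K) : K) = 2 := by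
      have e1 : ((1 : 𝓞 K) : K) = 1 := rfl
      rw [e1, map_one]
      norm_num
    rwa [e] at h
  have hne : τ = 1 := by
    refine Pool.Agent.Q238.MZ.inr_trivial (K := F) (M := K) (P := w) (by rw [hw]; exact hu)
      fun x => ?_
    have hgx : IsIntegral ℤ (τ (x : K)) := x.2.map τ
    obtain ⟨y, hy⟩ : ∃ y : 𝓞 K, (y : K) = τ (x : K) := ⟨⟨τ (x : K), hgx⟩, rfl⟩
    have e1 : ((y - x : 𝓞 K) : K) = τ (x : K) - (x : K) := by rw [← hy]; rfl
    refine ⟨y - x, ?_, e1⟩
    rw [← HeightOneSpectrum.valuation_lt_one_iff_mem (K := K)]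
    have e' : ((y - x : 𝓞 K) : K) = ((x : K) + τ (x : K)) - 2 * (x : K) := by
      rw [e1]
      ring
    have h3 : w.valuation K ((y - x : 𝓞 K) : K) < 1 := by
      rw [e']
      refine lt_of_le_of_lt (Valuation.map_sub _ _ _) (max_lt (key x) ?_)
      rw [map_mul]
      exact mul_lt_one_of_lt_of_le h2 (w.valuation_le_one x)
    exact h3
  exact hQ.ne hne

theorem exists_tr (hQ : Quad F K τ) (T : Finset (HeightOneSpectrum (𝓞 F)))
    (hu : ∀ v ∈ T, Unramified K v) :
    ∃ (c : 𝓞 K) (t : 𝓞 F), algebraMap F K (t : F) = (c : K) + τ (c : K) ∧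
      ∀ v ∈ T, t - 1 ∈ v.asIdeal := by
  classical
  have h1 : ∀ v : T, ∃ (c : 𝓞 K) (t : 𝓞 F), algebraMap F K (t : F) = (c : K) + τ (c : K) ∧
      t ∉ v.1.asIdeal := fun v => exists_tr_one hQ v.1 (hu v.1 v.2)
  choose c t hct ht using h1
  have h2 : ∀ v : T, ∃ a : 𝓞 F, a * t v - 1 ∈ v.1.asIdeal ∧
      ∀ v' ∈ T, v' ≠ v.1 → a ∈ v'.asIdeal := by
    intro v
    obtain ⟨b, hb⟩ : ∃ b : 𝓞 F, b * t v - 1 ∈ v.1.asIdeal := by
      have hm : v.1.asIdeal.IsMaximal := v.1.isMaximal
      obtain ⟨b, i, hi, hbi⟩ := hm.exists_inv (ht v)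
      refine ⟨b, ?_⟩
      have : b * t v - 1 = -i := by rw [← hbi]; ring
      rw [this]
      exact neg_mem hi
    obtain ⟨a, ha⟩ := IsDedekindDomain.exists_forall_sub_mem_ideal (s := T)
      (fun v' : HeightOneSpectrum (𝓞 F) => v'.asIdeal) (fun _ => 1) (fun v' _ => v'.prime)
      (fun i _ j _ hij h => hij (HeightOneSpectrum.ext h))
      (fun v' : T => if v'.1 = v.1 then b else 0)
    refine ⟨a, ?_, fun v' hv' hne => ?_⟩
    · have h3 := ha v.1 v.2
      simp only [pow_one, if_true] at h3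
      have e : a * t v - 1 = (a - b) * t v + (b * t v - 1) := by ring
      rw [e]
      exact add_mem (Ideal.mul_mem_right _ _ h3) hb
    · have h3 := ha v' hv'
      simp only [pow_one, if_neg hne, sub_zero] at h3
      exact h3
  choose a ha1 ha2 using h2
  refine ⟨∑ v : T, algebraMap (𝓞 F) (𝓞 K) (a v) * c v, ∑ v : T, a v * t v, ?_, ?_⟩
  · have e1 : ((∑ v : T, algebraMap (𝓞 F) (𝓞 K) (a v) * c v : 𝓞 K) : K) =
        ∑ v : T, algebraMap F K (a v : F) * (c v : K) := by
      change algebraMap (𝓞 K) K (∑ v : T, algebraMap (𝓞 F) (𝓞 K) (a v) * c v) = _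
      rw [map_sum]
      refine Finset.sum_congr rfl fun v _ => ?_
      rw [map_mul]
      rfl
    have e2 : ((∑ v : T, a v * t v : 𝓞 F) : F) = ∑ v : T, (a v : F) * (t v : F) := by
      change algebraMap (𝓞 F) F (∑ v : T, a v * t v) = _
      rw [map_sum]
      exact Finset.sum_congr rfl fun v _ => map_mul _ _ _
    rw [e1, e2, map_sum, map_sum, ← Finset.sum_add_distrib]
    refine Finset.sum_congr rfl fun v _ => ?_
    rw [map_mul, map_mul, hct v, AlgEquiv.commutes, mul_add]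
  · intro v0 hv0
    rw [← Finset.add_sum_erase Finset.univ _ (Finset.mem_univ (⟨v0, hv0⟩ : T)), add_sub_right_comm]
    refine add_mem (ha1 ⟨v0, hv0⟩) (Ideal.sum_mem _ fun v hv => ?_)
    refine Ideal.mul_mem_right _ _ (ha2 v v0 hv0 fun h => ?_)
    exact (Finset.mem_erase.1 hv).1 (Subtype.ext h.symm)

/-- Hilbert 90 with a congruence -/
theorem hilb (hQ : Quad F K τ) {T : Finset (HeightOneSpectrum (𝓞 F))} (hne : T.Nonempty)
    (hu : ∀ v ∈ T, Unramified K v) {u : Kˣ} (hu1 : u ∈ T1 K T) (hN : u * actK τ u = 1) :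
    ∃ β ∈ T1 K T, β / actK τ β = u := by
  obtain ⟨c, t, hct, ht⟩ := exists_tr hQ T hu
  have key : ∀ w : HeightOneSpectrum (𝓞 K), Above (T : Set (HeightOneSpectrum (𝓞 F))) w →
      w.valuation K (((c : K) + u * τ (c : K)) - 1) < 1 := by
    intro w hw
    have e : ((c : K) + u * τ (c : K)) - 1 =
        algebraMap F K ((t - 1 : 𝓞 F) : F) + ((u : K) - 1) * τ (c : K) := by
      have e1 : ((t - 1 : 𝓞 F) : F) = (t : F) - 1 := rfl
      rw [e1, map_sub, map_one, hct]
      ring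
    rw [e]
    refine lt_of_le_of_lt (Valuation.map_add _ _ _) (max_lt ?_ ?_)
    · rw [← mem_of_under]
      exact ht _ (not_above.1 hw)
    · rw [map_mul]
      refine mul_lt_one_of_lt_of_le (hu1 w hw) ?_
      exact w.valuation_le_one (⟨τ (c : K), c.2.map τ⟩ : 𝓞 K)
  have h0 : (c : K) + u * τ (c : K) ≠ 0 := by
    intro h
    obtain ⟨v, hv⟩ := hne
    obtain ⟨w, hw⟩ := (Pool.Agent.K3h25.RS.t_OVER F K v).1
    have h1 := key w ((above_iff hw).2 hv)
    rw [h, zero_sub, Valuation.map_neg, map_one] at h1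
    exact lt_irrefl _ h1
  refine ⟨Units.mk0 _ h0, key, ?_⟩
  rw [div_eq_iff_eq_mul]
  apply Units.ext
  have h1 : (u : K) * τ (u : K) = 1 := congrArg Units.val hN
  have h2 := (Pool.Agent.K3h92.E2.tau_facts τ hQ).1 (c : K)
  change (c : K) + u * τ (c : K) = u * τ ((c : K) + u * τ (c : K))
  rw [map_add, map_mul, h2]
  linear_combination (-(c : K)) * h1

end quad

theorem unr_mid {F K H : Type} [Field F] [NumberField F] [Field K] [NumberField K] [Field H]
    [NumberField H] [Algebra F K] [Algebra K H] [Algebra F H] [IsScalarTower F K H]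
    {v : HeightOneSpectrum (𝓞 F)} (h : Unramified H v) : Unramified K v := by
  intro w hw hle
  obtain ⟨W, hW⟩ := Pool.Agent.Q149.AR.above_nonempty (F := K) (E := H) w
  refine h W ?_ ?_
  · rw [← under_under (K := K), hW, hw]
  · have e : v.asIdeal.map (algebraMap (𝓞 F) (𝓞 H)) =
        (v.asIdeal.map (algebraMap (𝓞 F) (𝓞 K))).map (algebraMap (𝓞 K) (𝓞 H)) := by
      rw [Ideal.map_map, ← IsScalarTower.algebraMap_eq]
    rw [e]
    refine (Ideal.map_mono hle).trans ?_
    rw [Ideal.map_pow]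
    refine Ideal.pow_right_mono ?_ 2
    rw [Ideal.map_le_iff_le_comap]
    exact le_of_eq (congrArg HeightOneSpectrum.asIdeal hW).symm

theorem wu : S_WU := by
  intro F H G K _ _ _ _ _ _ _ _ _ _ _ _ _ τ χ hd D T hT
  haveI := hd.tower
  have hQ := hd.quad
  obtain ⟨g0, hg0⟩ := hd.ex
  have hTne : T.Nonempty := by
    rcases hT.2 with ⟨v, hv, -⟩ | ⟨v, hv, -⟩
    · exact ⟨v, hv⟩
    · exact ⟨v, hv⟩
  have unrK : ∀ v, v ∉ D.S → Unramified K v := fun v hv => unr_mid (H := H) (unr D v hv)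
  have unrT : ∀ v ∈ T, Unramified K v := fun v hv =>
    unrK v fun h => (Finset.disjoint_left.1 hT.1) h hv
  have a1 : ∀ g : G, χ g = 1 → ∀ y : Kˣ, act g (up K H y) = up K H y := fun g hg y =>
    Units.ext (hd.one g hg (y : K))
  have a2 : ∀ g : G, χ g ≠ 1 → ∀ y : Kˣ, act g (up K H y) = up K H (actK τ y) := fun g hg y =>
    Units.ext (hd.neg g hg (y : K))
  have desc : ∀ y : Hˣ, (∀ g : G, χ g = 1 → act g y = y) → ∃ x : Kˣ, up K H x = y := by
    intro y h
    obtain ⟨x, hx⟩ := hd.fix (y : H) (fun g hg => congrArg Units.val (h g hg))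
    have hx0 : x ≠ 0 := by
      rintro rfl
      rw [map_zero] at hx
      exact y.ne_zero hx.symm
    exact ⟨Units.mk0 x hx0, Units.ext hx⟩
  have tT1 : ∀ y : Kˣ, y ∈ T1 K T → actK τ y ∈ T1 K T := by
    intro y hy
    rw [T1_up (H := H), ← a2 g0 hg0]
    exact act_T1 g0 (T1_up.1 hy)
  -- units
  have unit_iff : ∀ (y : Kˣ) (w : HeightOneSpectrum (𝓞 K)) (W : HeightOneSpectrum (𝓞 H)),
      W.under (𝓞 K) = w → (prin (up K H y) W = 0 ↔ prin y w = 0) := by
    intro y w W hW
    rw [← val_one_iff_prin, ← val_one_iff_prin]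
    exact Pool.Agent.K3h3.E2.val_one_iff (by rw [← hW]; exact above_under W) (y : K)
  have unitK : ∀ (y : Kˣ), up K H y ∈ D.U T → ∀ w : HeightOneSpectrum (𝓞 K),
      w.under (𝓞 F) ∉ D.S → prin y w = 0 := by
    intro y hy w hw
    obtain ⟨W, hW⟩ := Pool.Agent.Q149.AR.above_nonempty (F := K) (E := H) w
    rw [← unit_iff y w W hW]
    exact ((mem_U D).1 hy).1 W (by rw [← under_under (K := K), hW]; exact hw)
  have hex : ∀ u ∈ part (D.U T) χ, ∃ x ∈ Sel D T, ∃ b ∈ T1 H T, up F H x = u * b ^ 2 := by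
    intro u hu
    obtain ⟨u', hu'⟩ := desc u hu.2.1
    have hu1 : u' ∈ T1 K T := T1_up.2 (by rw [hu']; exact ((mem_U D).1 hu.1).2)
    have hN : u' * actK τ u' = 1 := by
      apply up_inj (K := H)
      rw [map_mul, ← a2 g0 hg0, hu', hu.2.2 g0 hg0, mul_inv_cancel, map_one]
    obtain ⟨β, hβ, hβu⟩ := hilb hQ hTne unrT hu1 hN
    have hx : up F H (nu F K β) = u * up K H (actK τ β) ^ 2 := by
      rw [← up_up (K := K), up_nu hQ, ← hu', ← hβu, ← map_pow, ← map_mul]
      congr 1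
      rw [pow_two, ← mul_assoc, div_mul_cancel]
    refine ⟨nu F K β, ⟨?_, fun v hv => ?_⟩, up K H (actK τ β), T1_up.1 (tT1 β hβ), hx⟩
    · refine (FT_up (K := K)).2 ?_
      rw [up_nu hQ]
      exact (T1 K T).mul_mem hβ (tT1 β hβ)
    · obtain ⟨w, hw⟩ := Pool.Agent.Q149.AR.above_nonempty (F := F) (E := K) v
      have h1 := prin_up' (w := w) (by rw [hw]; exact unrK v hv) (nu F K β)
      rw [up_nu hQ, prin_mul, Finsupp.add_apply, hw] at h1
      have h2 := unitK u' (by rw [hu']; exact hu.1) w (by rw [hw]; exact hv)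
      rw [← hβu, prin_div, Finsupp.sub_apply] at h2
      rw [← h1]
      exact ⟨prin β w, by omega⟩
  refine ⟨?_, Sq_le D χ, hex, fun x u hu b hb h => Sq_iff D hT χ x u hu b hb h, rel_eq D hT χ hex⟩
  ext x
  constructor
  · rintro ⟨hx, β, hβ, e, hnu, he⟩
    have hb : up K H (actK τ β) ∈ T1 H T := T1_up.1 (tT1 β hβ)
    refine ⟨hx, up K H (β / actK τ β), ⟨?_, fun g hg => a1 g hg _, fun g hg => ?_⟩,
      up K H (actK τ β), hb, ?_⟩
    · rw [mem_U]
      refine ⟨fun W hW => ?_, ?_⟩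
      · rw [unit_iff _ _ W rfl, prin_div, Finsupp.sub_apply, prin_act]
        have h1 : (W.under (𝓞 K)).under (𝓞 F) ∉ D.S := by rw [under_under]; exact hW
        rw [he _ (fun h => h1 (not_above.1 h)), he _ (fun h => h1 (by
          have h2 := not_above.1 h
          rwa [under_act] at h2)), under_act, sub_self]
      · rw [map_div]
        exact (T1 H T).div_mem (T1_up.1 hβ) hb
    · rw [a2 g hg, ← map_inv, map_div, tau_tau hQ, inv_div]
    · rw [← hnu, ← up_up (K := K), up_nu hQ, ← map_pow, ← map_mul]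
      congr 1
      rw [pow_two, ← mul_assoc, div_mul_cancel]
  · rintro ⟨hx, u, hu, b, hb, h⟩
    have hb2 : b ^ 2 = up F H x / u := by rw [h, mul_div_cancel_left]
    obtain ⟨β, hβ⟩ := desc b (fun g hg => by
      refine T1_sq D hT (act_T1 g hb) hb ?_
      rw [← act_pows, hb2, act_divs, act_up, hu.2.1 g hg])
    have hβ1 : β ∈ T1 K T := T1_up.2 (by rw [hβ]; exact hb)
    have hxT : up F H x ∈ T1 H T := FT_up.1 hx.1
    have hprod : b * act g0 b = up F H x := by
      refine T1_sq D hT ((T1 H T).mul_mem hb (act_T1 g0 hb)) hxT ?_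
      rw [mul_pow, ← act_pows, hb2, act_divs, act_up, hu.2.2 g0 hg0, div_inv_eq_mul, pow_two]
      rw [div_mul_eq_mul_div, mul_div_assoc, mul_div_cancel_right]
    have hnu : nu F K β = x := by
      apply up_inj (K := K)
      apply up_inj (K := H)
      rw [up_nu hQ, up_up, map_mul, ← a2 g0 hg0, hβ, hprod]
    have h2β : ∀ w : HeightOneSpectrum (𝓞 K), w.under (𝓞 F) ∉ D.S →
        2 * prin β w = prin x (w.under (𝓞 F)) := by
      intro w hw
      have h1 : up K H (up F K x / β ^ 2) = u := by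
        rw [map_div, map_pow, up_up, hβ, h, mul_div_cancel_right]
      have h2 := unitK _ (by rw [h1]; exact hu.1) w hw
      rw [prin_div, Finsupp.sub_apply, prin_up' (unrK _ hw), pow_two, prin_mul,
        Finsupp.add_apply] at h2
      omega
    obtain ⟨e, he⟩ := descend hQ (S := (D.S : Set (HeightOneSpectrum (𝓞 F)))) (prin β)
      (fun w hw => by
        have h1 := h2β w hw
        have h2 := h2β (Pool.Agent.TeamU.act τ w) (by rw [under_act]; exact hw)
        rw [under_act] at h2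
        omega)
    exact ⟨hx, β, hβ1, e, hnu, fun w hw => he w fun h => hw (not_above.2 h)⟩

end Pool.Agent.H120.BT
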