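import Pool.Agent.H509.BT.Main
import Pool.Agent.H509.BT.LB
import Pool.Agent.H509.BT.LC
import Pool.Agent.H509.BT.LD
import Pool.Agent.H509.BT.RECD
import Pool.Agent.H509.BT.LSR
import Pool.Agent.H509.BT.NORF
import Pool.Agent.H509.BT.BRI
import Pool.Agent.H509.BT.HN
import Pool.Agent.H509.BT.MOD
import Pool.Agent.H509.BT.SUR
import Pool.Agent.H509.BT.NSY
import Pool.Agent.H509.BT.LAM
import Pool.Agent.H509.BT.HNT
import Pool.Agent.H509.BT.PF
import Pool.Agent.H509.BT.CEX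
import Pool.Agent.H509.BT.CWD
import Pool.Agent.H509.BT.CADD
import Pool.Agent.H509.BT.EVX
import Pool.Agent.H509.BT.TCLA
import Pool.Agent.H509.BT.TCLB
import Pool.Agent.H509.BT.TCLF
import Pool.Agent.H509.BT.DK0
import Pool.Agent.H509.BT.TADJ
import Pool.Agent.H509.BT.BK
import Pool.Agent.H509.BT.BF
import Pool.Agent.H509.BT.WU
import Pool.Agent.H509.BT.PHI
import Pool.Agent.H509.BT.RKA
import Pool.Agent.H509.BT.ALG
import Pool.Agent.H509.BT.ASM3

/-!
# Project BT: all parts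
-/

set_option autoImplicit false

open NumberField IsDedekindDomain

noncomputable section

namespace Pool.Agent.BT9

theorem ldd : Pool.Agent.Q5.MZ.S_LD :=
  Pool.Agent.H294.BT.ld Pool.Agent.Q68.MZ.la (Pool.Agent.H183.BT.lb Pool.Agent.Q68.MZ.la)
    Pool.Agent.H181.BT.lc

theorem all_mod : S_MOD := Pool.Agent.H183.BT.mod Pool.Agent.H389.BT.recd Pool.Agent.H115.BT.bri

theorem all_sur : S_SUR :=
  Pool.Agent.H295.BT.sur Pool.Agent.H389.BT.recd Pool.Agent.H181.BT.lc Pool.Agent.H996.BT.lsr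
    Pool.Agent.H115.BT.bri Pool.Agent.H115.BT.brk

theorem all_nsy : S_NSY := Pool.Agent.H353.BT.nsy Pool.Agent.H643.BT.norf Pool.Agent.H115.BT.brk

theorem all_lam : S_LAM := Pool.Agent.H221.BT.lam all_mod all_sur all_nsy

theorem all_hnt : S_HNT :=
  Pool.Agent.H333.BT.hnt Pool.Agent.Q68.MZ.la ldd Pool.Agent.H332.BT.hn Pool.Agent.H115.BT.brk

theorem all_evx : S_EVX :=
  Pool.Agent.H996.BT.evx all_lam all_hnt Pool.Agent.H738.BT.cex
    (Pool.Agent.H253.BT.cwd Pool.Agent.H914.BT.pf Pool.Agent.H914.BT.invd)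
    (Pool.Agent.H297.BT.cadd Pool.Agent.H914.BT.pf Pool.Agent.H738.BT.cex)
    Pool.Agent.H914.BT.chg Pool.Agent.H914.BT.pf

theorem all : All where
  lam := all_lam
  phi := Pool.Agent.H353.BTPHI.phi
  rka := Pool.Agent.H975.BT.rka
  deta := Pool.Agent.H307.BT.deta
  cnt := Pool.Agent.H307.BT.cnt
  asm := Pool.Agent.H627.BT.asm3
  evx := all_evx
  tcla := Pool.Agent.H738.BT.TA.tcla
  tclb := Pool.Agent.H253.BT.tclb
  tclf := Pool.Agent.H955.BT.tclf
  dk0 := Pool.Agent.H591.BT.dk0 Pool.Agent.H914.BT.chg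
  df0 := Pool.Agent.H591.BT.df0 Pool.Agent.H914.BT.chg
  bk := Pool.Agent.H914.BT.bk Pool.Agent.H914.BT.pf Pool.Agent.H914.BT.invd Pool.Agent.H199.BT.tadj
  bf := Pool.Agent.H167.BT.bf Pool.Agent.H914.BT.pf
  wu := Pool.Agent.H120.BT.wu
  wu1 := Pool.Agent.H120.BT.wu1

end Pool.Agent.BT9

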