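import Pool.Agent.H509.BT.Stm2
import Pool.Graph.R_pool_sql_team_seeded_3997aac3.Q299.EX.CntA
import Pool.Graph.R_pool_sql_team_seeded_3997aac3.Q299.EX.Locn

/-! # Project BT, ISO: the theorem `iso : S_ISO` -/

set_option autoImplicit false
set_option linter.unusedSectionVars false
set_option linter.deprecated false

open NumberField IsDedekindDomain Filter Topology Module

noncomputable section

namespace Pool.Agent.H788.BT

section PartA

/-- the number of the characters, with values in a field, of a finite quotient -/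
theorem card_char_le {Y L ι : Type} [CommGroup Y] [Field L] [Finite ι] (Z : Subgroup Y)
    (hZ : Z.index ≠ 0) (χ : ι → (Y →* L)) (hχ : Function.Injective χ)
    (htriv : ∀ i, ∀ y ∈ Z, χ i y = 1) : Nat.card ι ≤ Z.index := by
  classical
  have : Z.FiniteIndex := ⟨hZ⟩
  have : Finite (Y ⧸ Z) := inferInstance
  have : Fintype (Y ⧸ Z) := Fintype.ofFinite _
  have : Fintype ι := Fintype.ofFinite _
  let ψ : ι → (Y ⧸ Z →* L) := fun i => QuotientGroup.lift Z (χ i) (fun y hy => htriv i y hy)
  have hψ : Function.Injective ψ := by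
    intro i j h
    apply hχ
    ext y
    have h1 := DFunLike.congr_fun h (QuotientGroup.mk y)
    exact h1
  have hli := (linearIndependent_monoidHom (Y ⧸ Z) L).comp ψ hψ
  have h1 := hli.fintype_card_le_finrank
  rw [Module.finrank_fintype_fun_eq_card] at h1
  rw [Nat.card_eq_fintype_card, Subgroup.index, Nat.card_eq_fintype_card]
  exact h1

/-- the square of the order of the image is at most the index -/
theorem sq_le_index {A G Y L : Type} [CommGroup A] [CommGroup G] [Finite G] [CommGroup Y] [Field L]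
    (lam : A →* G) (Q : Subgroup A) (hQ : Q.index ≠ 0) (hQk : Q ≤ lam.ker) (φ : Y →* A)
    (hφ : φ.range ≤ lam.ker) (χ : lam.range → (Y →* L)) (hχ : Function.Injective χ)
    (htriv : ∀ γ, ∀ y, φ y ∈ Q → χ γ y = 1) : Nat.card lam.range ^ 2 ≤ Q.index := by
  have h1 : (Q.comap φ).index = Q.relIndex φ.range := Subgroup.index_comap Q φ
  have hne : Q.relIndex lam.ker ≠ 0 := by
    intro h
    apply hQ
    have h2 := Subgroup.relIndex_mul_index hQk
    rw [h, zero_mul] at h2
    exact h2.symm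
  have h2 : Q.relIndex φ.range ≤ Q.relIndex lam.ker := Subgroup.relIndex_le_of_le_right hφ hne
  have hZ : (Q.comap φ).index ≠ 0 := by
    rw [h1]
    intro h
    apply hQ
    exact Subgroup.index_eq_zero_of_relIndex_eq_zero h
  have h3 : Nat.card lam.range ≤ (Q.comap φ).index :=
    card_char_le (Q.comap φ) hZ χ hχ fun γ y hy => htriv γ y hy
  have h4 : lam.ker.index = Nat.card lam.range := Subgroup.index_ker lam
  calc Nat.card lam.range ^ 2 = Nat.card lam.range * lam.ker.index := by rw [h4, pow_two]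
    _ ≤ Q.relIndex lam.ker * lam.ker.index := Nat.mul_le_mul_right _ (h3.trans (h1.le.trans h2))
    _ = Q.index := Subgroup.relIndex_mul_index hQk

end PartA

section PartB

open Pool.Agent.BT9
open Pool.Agent.Q92.AR (Dv prin Pr Ray nmD nu up sD puD Cong Pos frob IsFrobenius Unramified Ram art
  prin_mul prin_one prin_inv)
open Pool.Agent.K3h30.RS
open Pool.Agent.K3h56.E2 (Quad Dict)

section
variable {F H G : Type} [Field F] [NumberField F] [Field H] [NumberField H] [Algebra F H]
  [CommGroup G] [Finite G] [MulSemiringAction G H]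

/-- the Frobenius product of a divisor with even coefficients outside `S` -/
theorem fr_even (D : RubinData F H G) (hG : ∀ g : G, g * g = 1) (d : Dv F)
    (h : ∀ v, v ∉ D.S → Even (d v)) : fr D d = 1 := by
  classical
  unfold fr frH
  rw [Finsupp.liftAddHom_apply, Finsupp.sum, Finset.sum_eq_zero]
  · rfl
  · intro v _
    by_cases hv : v ∈ D.S
    · rw [if_pos hv]
      rfl
    · rw [if_neg hv, zmultiplesHom_apply]
      obtain ⟨k, hk⟩ := h v hv
      rw [hk, add_zsmul, ← zsmul_add]
      have h1 : Additive.ofMul (D.σ v) + Additive.ofMul (D.σ v) = 0 := by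
        rw [← ofMul_mul, hG]
        rfl
      rw [h1, zsmul_zero]

/-- the divisor of a square root, at an unramified prime ideal -/
theorem even_of_sq {x : Fˣ} {h : Hˣ} (hx : up F H x = h ^ 2) (w : HeightOneSpectrum (𝓞 H))
    (hu : Unramified H (w.under (𝓞 F))) : Even (prin x (w.under (𝓞 F))) := by
  have hov : Pool.Agent.TeamU.Over w (w.under (𝓞 F)) := rfl
  have h1 : w.valuation H ((up F H x : Hˣ) : H) =
      (w.under (𝓞 F)).valuation F (x : F) ^
        ((w.under (𝓞 F)).asIdeal.ramificationIdx' w.asIdeal) :=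
    Pool.Agent.TeamU.val_over hov (x : F)
  have he : Ideal.ramificationIdx' (w.under (𝓞 F)).asIdeal w.asIdeal = 1 := by
    refine Ideal.ramificationIdx'_spec ?_ ?_
    · rw [pow_one, Ideal.map_le_iff_le_comap]
      exact le_of_eq rfl
    · exact hu w rfl
  rw [he, pow_one, Pool.Agent.Q125.AR.valuation_eq_exp, Pool.Agent.Q125.AR.valuation_eq_exp] at h1
  have h2 := neg_injective (WithZero.exp_injective h1)
  rw [← h2, hx, pow_two, prin_mul, Finsupp.add_apply]
  exact ⟨_, rfl⟩

/-- the conjugates of a square root -/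
theorem smul_root [SMulCommClass G F H] {x : F} {h : H} (hx : algebraMap F H x = h ^ 2) (g : G) :
    g • h = h ∨ g • h = -h := by
  rw [← sq_eq_sq_iff_eq_or_eq_neg, ← smul_pow', ← hx]
  rw [Algebra.algebraMap_eq_smul_one, smul_comm, smul_one]

/-- the local statement at an archimedean place -/
theorem arch_fix [SMulCommClass G F H] {w : InfinitePlace H} {x : Fˣ} {h : H}
    (hx : algebraMap F H (x : F) = h ^ 2)
    (hpos : ∀ φ : F →+* ℝ, InfinitePlace.mk ((algebraMap ℝ ℂ).comp φ) =
      w.comap (algebraMap F H) → 0 < φ (x : F)) {γ : G}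
    (hγ : Fixes (Sum.inl w : Place H) γ) : γ • h = h := by
  have hw : ∀ y : H, w (γ • y) = w y := by
    intro y
    have h1 : w (γ • y) ^ w.mult = w y ^ w.mult := hγ y
    exact (pow_left_inj₀ (apply_nonneg _ _) (apply_nonneg _ _) w.mult_ne_zero).1 h1
  set ι : H →+* ℂ := w.embedding with hι
  let ι' : H →+* ℂ := ι.comp (MulSemiringAction.toRingHom G H γ)
  have hι' : ∀ y, ι' y = ι (γ • y) := fun _ => rfl
  have hmk : InfinitePlace.mk ι' = InfinitePlace.mk ι := by
    apply InfinitePlace.ext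
    intro y
    rw [InfinitePlace.apply, InfinitePlace.apply, hι', hι, InfinitePlace.norm_embedding_eq w,
      InfinitePlace.norm_embedding_eq w, hw]
  have hF : ∀ a : F, γ • algebraMap F H a = algebraMap F H a := by
    intro a
    rw [Algebra.algebraMap_eq_smul_one, smul_comm, smul_one]
  rcases InfinitePlace.mk_eq_iff.1 hmk with h1 | h1
  · apply ι.injective
    rw [← hι', h1]
  · have h2 : ∀ y, (starRingEnd ℂ) (ι (γ • y)) = ι y := by
      intro y
      have h3 := DFunLike.congr_fun h1 y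
      exact h3
    have hreal : ComplexEmbedding.IsReal (ι.comp (algebraMap F H)) := by
      rw [ComplexEmbedding.isReal_iff]
      ext a
      have h3 := h2 (algebraMap F H a)
      rw [hF] at h3
      exact h3
    set φ : F →+* ℝ := hreal.embedding with hφ
    have hφe : ∀ a : F, ((φ a : ℝ) : ℂ) = ι (algebraMap F H a) := fun a =>
      ComplexEmbedding.IsReal.coe_embedding_apply hreal a
    have h4 : InfinitePlace.mk ((algebraMap ℝ ℂ).comp φ) = w.comap (algebraMap F H) := by
      have e1 : (algebraMap ℝ ℂ).comp φ = ι.comp (algebraMap F H) := by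
        ext a
        exact hφe a
      rw [e1]
      conv_rhs => rw [← InfinitePlace.mk_embedding w]
      rw [InfinitePlace.comap_mk]
    have h5 := hpos φ h4
    have h6 : ι h ^ 2 = ((Real.sqrt (φ (x : F)) : ℝ) : ℂ) ^ 2 := by
      rw [← map_pow, ← hx, ← hφe, ← Complex.ofReal_pow, Real.sq_sqrt h5.le]
    have h7 : (starRingEnd ℂ) (ι h) = ι h := by
      rcases sq_eq_sq_iff_eq_or_eq_neg.1 h6 with h8 | h8
      · rw [h8, Complex.conj_ofReal]
      · rw [h8, map_neg, Complex.conj_ofReal]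
    apply ι.injective
    have h8 := congrArg (starRingEnd ℂ) (h2 h)
    rw [Complex.conj_conj, h7] at h8
    exact h8

/-- the local statement at a prime ideal -/
theorem ram_fix [SMulCommClass G F H] {w : HeightOneSpectrum (𝓞 H)} {x y : Fˣ} {h : H}
    (hx : algebraMap F H (x : F) = h ^ 2)
    (hxy : w.valuation H (algebraMap F H ((x : F) / (y : F) ^ 2 - 1)) < w.valuation H 2 ^ 2) {γ : G}
    (hγ : ∀ z : H, w.valuation H (γ • z) = w.valuation H z) : γ • h = h := by
  rcases smul_root hx γ with h1 | h1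
  · exact h1
  exfalso
  have hF : ∀ a : F, γ • algebraMap F H a = algebraMap F H a := by
    intro a
    rw [Algebra.algebraMap_eq_smul_one, smul_comm, smul_one]
  set b : H := algebraMap F H (y : F) with hb
  have hb0 : b ≠ 0 := by
    rw [hb]
    exact (map_ne_zero _).2 y.ne_zero
  set s : H := h / b with hs
  have hγs : γ • s = -s := by
    rw [hs, smul_div₀', h1, hF, neg_div]
  have h2 : algebraMap F H ((x : F) / (y : F) ^ 2 - 1) = (s - 1) * (s + 1) := by
    rw [map_sub, map_div₀, map_pow, hx, map_one, hs]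
    field_simp
    ring
  rw [h2, map_mul] at hxy
  have h3 : w.valuation H (s - 1) = w.valuation H (s + 1) := by
    have h4 : γ • (s - 1) = -(s + 1) := by
      rw [smul_sub, hγs, smul_one]
      ring
    rw [← hγ (s - 1), h4, Valuation.map_neg]
  have h5 : w.valuation H 2 ≤ w.valuation H (s - 1) := by
    have h6 : (2 : H) = (s + 1) - (s - 1) := by ring
    rw [h6]
    refine (Valuation.map_sub _ _ _).trans (max_le h3.ge le_rfl)
  rw [← h3, ← pow_two] at hxy
  exact absurd hxy (not_lt.2 (pow_le_pow_left₀ zero_le' h5 2))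

end

end PartB

section PartC

open Pool.Agent.BT9
open Pool.Agent.Q92.AR (Dv prin Pr Ray nmD nu up sD puD Cong Pos frob IsFrobenius Unramified Ram art
  prin_mul prin_one prin_inv)
open Pool.Agent.K3h30.RS
open Pool.Agent.K3h56.E2 (Quad Dict)
open Pool.Agent.H509.E3 (dg mem_dg)

section
variable {F H G : Type} [Field F] [NumberField F] [Field H] [NumberField H] [Algebra F H]
  [CommGroup G] [Finite G] [MulSemiringAction G H]

theorem squarefree_of_unr {v : HeightOneSpectrum (𝓞 F)} (h : Unramified H v) :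
    Squarefree (v.asIdeal.map (algebraMap (𝓞 F) (𝓞 H))) := by
  intro I hI
  by_contra hu
  have hI1 : I ≠ ⊤ := fun h1 => hu (Ideal.isUnit_iff.2 h1)
  have hmap : v.asIdeal.map (algebraMap (𝓞 F) (𝓞 H)) ≠ ⊥ := by
    rw [Ne, Ideal.map_eq_bot_iff_of_injective (FaithfulSMul.algebraMap_injective (𝓞 F) (𝓞 H))]
    exact v.ne_bot
  have hI0 : I ≠ ⊥ := by
    rintro rfl
    apply hmap
    have h1 := Ideal.dvd_iff_le.1 hI
    rw [Ideal.bot_mul] at h1
    exact le_bot_iff.1 h1
  obtain ⟨P, hP, hIP⟩ := Ideal.exists_le_maximal I hI1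
  have hP0 : P ≠ ⊥ := fun h1 => hI0 (le_bot_iff.1 (h1 ▸ hIP))
  let w : HeightOneSpectrum (𝓞 H) := ⟨P, hP.isPrime, hP0⟩
  have hle2 : v.asIdeal.map (algebraMap (𝓞 F) (𝓞 H)) ≤ w.asIdeal ^ 2 := by
    refine (Ideal.dvd_iff_le.1 hI).trans ?_
    rw [pow_two]
    exact Ideal.mul_mono hIP hIP
  have hle1 : v.asIdeal.map (algebraMap (𝓞 F) (𝓞 H)) ≤ w.asIdeal :=
    hle2.trans (Ideal.pow_le_self two_ne_zero)
  have hvm := v.isMaximal
  have hwv : w.under (𝓞 F) = v := by
    apply HeightOneSpectrum.ext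
    symm
    refine hvm.eq_of_le (w.under (𝓞 F)).isPrime.ne_top ?_
    exact Ideal.map_le_iff_le_comap.1 hle1
  exact h w hwv hle2

open scoped Pointwise in
theorem dg_unram [IsGaloisGroup G F H] (hG : ∀ g : G, g * g = 1) (w : HeightOneSpectrum (𝓞 H))
    (hu : Unramified H (w.under (𝓞 F))) :
    Nat.card (dg (G := G) (Sum.inr w : Place H)) ≤ 2 := by
  set v := w.under (𝓞 F) with hv
  have hsq := squarefree_of_unr hu
  have hw : Above {v} w := ⟨v, rfl, rfl⟩
  have hwp := w.isPrime
  have hvp := v.isPrime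
  have hvm := v.isMaximal
  have hwm := w.isMaximal
  have hlo : w.asIdeal.LiesOver v.asIdeal := ⟨rfl⟩
  have hgal : IsGaloisGroup G (𝓞 F) (𝓞 H) := inferInstance
  have hs : SMulCommClass G (𝓞 F) (𝓞 H) := hgal.commutes
  have hstab : ∀ γ ∈ dg (G := G) (Sum.inr w : Place H), γ ∈ MulAction.stabilizer G w.asIdeal := by
    intro γ hγ
    rw [MulAction.mem_stabilizer_iff]
    ext x
    rw [Ideal.mem_pointwise_smul_iff_inv_smul_mem,
      ← Pool.Agent.K3h72.E2.fixes_mem (mem_dg.1 hγ), smul_inv_smul]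
  let _ : Field (𝓞 F ⧸ v.asIdeal) := Ideal.Quotient.field v.asIdeal
  let _ : Field (𝓞 H ⧸ w.asIdeal) := Ideal.Quotient.field w.asIdeal
  have hf1 : Finite (𝓞 F ⧸ v.asIdeal) := Ideal.finiteQuotientOfFreeOfNeBot _ v.ne_bot
  have hf2 : Finite (𝓞 H ⧸ w.asIdeal) := Ideal.finiteQuotientOfFreeOfNeBot _ w.ne_bot
  let f : dg (G := G) (Sum.inr w : Place H) →*
      ((𝓞 H ⧸ w.asIdeal) ≃ₐ[𝓞 F ⧸ v.asIdeal] (𝓞 H ⧸ w.asIdeal)) :=
    (Ideal.Quotient.stabilizerHom w.asIdeal v.asIdeal G).comp (Subgroup.inclusion hstab)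
  have hf : Function.Injective f := by
    rw [injective_iff_map_eq_one]
    intro γ hγ
    have hin : (γ : G) ∈ w.asIdeal.inertia G := by
      intro x
      change (γ : G) • x - x ∈ w.asIdeal
      rw [← Ideal.Quotient.eq_zero_iff_mem, map_sub, sub_eq_zero]
      have h1 := congrArg (fun φ => φ (Ideal.Quotient.mk w.asIdeal x)) hγ
      exact h1
    rw [Pool.Agent.K3h92.RS.inertia_bot v hsq w hw, Subgroup.mem_bot] at hin
    exact Subtype.ext hin
  have hcyc : IsCyclic (dg (G := G) (Sum.inr w : Place H)) := isCyclic_of_injective f hf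
  rw [← IsCyclic.exponent_eq_card]
  refine Nat.le_of_dvd two_pos (Monoid.exponent_dvd_of_forall_pow_eq_one fun g => ?_)
  rw [pow_two]
  exact Subtype.ext (hG g)

end

end PartC

section PartD

open Pool.Agent.BT9
open Pool.Agent.Q92.AR (Dv prin Pr Ray nmD nu up sD puD Cong Pos frob IsFrobenius Unramified Ram art
  prin_mul prin_one prin_inv)
open Pool.Agent.K3h30.RS
open Pool.Agent.K3h56.E2 (Quad Dict)
open Pool.Agent.H509.E3 (dg mem_dg)

section
variable {F H G : Type} [Field F] [NumberField F] [Field H] [NumberField H] [Algebra F H]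
  [CommGroup G] [Finite G] [MulSemiringAction G H]

/-- the elements of `Fˣ` which are positive at the real place under `w` -/
def Qa (F : Type) {H : Type} [Field F] [Field H] [Algebra F H] (w : InfinitePlace H) :
    Subgroup Fˣ where
  carrier := {x | ∀ φ : F →+* ℝ, InfinitePlace.mk ((algebraMap ℝ ℂ).comp φ) =
      w.comap (algebraMap F H) → 0 < φ (x : F)}
  mul_mem' {x y} hx hy φ hφ := by
    rw [Units.val_mul, map_mul]
    exact mul_pos (hx φ hφ) (hy φ hφ)
  one_mem' φ _ := by
    rw [Units.val_one, map_one]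
    exact one_pos
  inv_mem' {x} hx φ hφ := by
    rw [Units.val_inv_eq_inv_val, map_inv₀]
    exact inv_pos.2 (hx φ hφ)

theorem real_unique {φ φ' : F →+* ℝ} (h : InfinitePlace.mk ((algebraMap ℝ ℂ).comp φ) =
    InfinitePlace.mk ((algebraMap ℝ ℂ).comp φ')) : φ = φ' := by
  rcases InfinitePlace.mk_eq_iff.1 h with h1 | h1
  · ext a
    exact Complex.ofReal_injective (DFunLike.congr_fun h1 a)
  · ext a
    have h2 := DFunLike.congr_fun h1 a
    have h3 : (starRingEnd ℂ) ((φ a : ℝ) : ℂ) = ((φ' a : ℝ) : ℂ) := h2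
    rw [Complex.conj_ofReal] at h3
    exact Complex.ofReal_injective h3

theorem index_Qa (w : InfinitePlace H) : (Qa F w).index ≠ 0 ∧ (Qa F w).index ≤ 2 := by
  classical
  have h := Pool.Agent.Q299.EX.index_le_of_inv (Qa F w)
    (fun x => decide (x ∈ Qa F w)) (fun x y hxy => by
      by_cases hx : x ∈ Qa F w
      · have hy : y ∈ Qa F w := by
          have h1 : decide (y ∈ Qa F w) = true := by
            rw [← hxy]
            exact decide_eq_true hx
          exact of_decide_eq_true h1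
        exact (Qa F w).div_mem hx hy
      · have hy : y ∉ Qa F w := by
          intro hy
          have h1 : decide (x ∈ Qa F w) = true := by
            change decide (x ∈ Qa F w) = decide (y ∈ Qa F w) at hxy
            rw [hxy]
            exact decide_eq_true hy
          exact hx (of_decide_eq_true h1)
        have key : ∀ z : Fˣ, z ∉ Qa F w → ∀ φ : F →+* ℝ,
            InfinitePlace.mk ((algebraMap ℝ ℂ).comp φ) = w.comap (algebraMap F H) →
            φ (z : F) < 0 := by
          intro z hz φ hφ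
          have h1 : ∃ φ' : F →+* ℝ, InfinitePlace.mk ((algebraMap ℝ ℂ).comp φ') =
              w.comap (algebraMap F H) ∧ ¬ 0 < φ' (z : F) := by
            by_contra hcon
            push Not at hcon
            exact hz fun φ' hφ' => hcon φ' hφ'
          obtain ⟨φ', h2, h3⟩ := h1
          have h4 : φ = φ' := real_unique (hφ.trans h2.symm)
          rw [h4]
          exact lt_of_le_of_ne (not_lt.1 h3) ((map_ne_zero φ').2 z.ne_zero)
        intro φ hφ
        have e : ((x / y : Fˣ) : F) = (x : F) / (y : F) := Units.val_div_eq_div_val x y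
        rw [e, map_div₀]
        exact div_pos_of_neg_of_neg (key x hx φ hφ) (key y hy φ hφ))
  rw [Nat.card_eq_fintype_card, Fintype.card_bool] at h
  exact h

/-- the local group at an archimedean place -/
theorem exQ_arch [SMulCommClass G F H] (w : InfinitePlace H) (N : ℕ) (L : Fˣ →* G)
    (hnear : ∀ x, Near N (Sum.inl w : Place H) x → L x = 1) :
    ∃ Q : Subgroup Fˣ, Q.index ≠ 0 ∧ Q.index ≤ 2 ∧ (∀ x ∈ Q, L x = 1) ∧
      ∀ x ∈ Q, ∀ h : H, algebraMap F H (x : F) = h ^ 2 → ∀ γ : G,
        Fixes (Sum.inl w : Place H) γ → γ • h = h := by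
  refine ⟨Qa F w, (index_Qa w).1, (index_Qa w).2, fun x hx => hnear x hx,
    fun x hx h hh γ hγ => ?_⟩
  exact arch_fix hh hx hγ

theorem val_inv {w : HeightOneSpectrum (𝓞 H)} {γ : G} (hγ : Fixes (Sum.inr w : Place H) γ) (z : H) :
    w.valuation H (γ • z) = w.valuation H z :=
  (Pool.Agent.K3h25.RS.val_aut w w γ
    (fun x => (Pool.Agent.K3h72.E2.fixes_mem hγ x).symm) z).symm

theorem two_notMem (v : HeightOneSpectrum (𝓞 F)) : ((2 : ℕ) : 𝓞 F) ∉ v.asIdeal ^ (e2 v + 1) := by
  intro h
  have h1 : v.valuation F (algebraMap (𝓞 F) F ((2 : ℕ) : 𝓞 F)) ≤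
      WithZero.exp (-((e2 v + 1 : ℕ) : ℤ)) := by
    rw [HeightOneSpectrum.valuation_of_algebraMap]
    exact (HeightOneSpectrum.intValuation_le_pow_iff_mem v _ _).2 h
  have h2 : algebraMap (𝓞 F) F ((2 : ℕ) : 𝓞 F) = ((Units.mk0 (2 : F) two_ne_zero : Fˣ) : F) := by
    rw [map_natCast]
    rfl
  rw [h2, Pool.Agent.Q125.AR.valuation_eq_exp, WithZero.exp_le_exp] at h1
  have h3 : prin (Units.mk0 (2 : F) two_ne_zero) v ≤ (e2 v : ℤ) := Int.self_le_toNat _
  push_cast at h1
  omega

/-- the local group at a prime ideal -/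
theorem exQ_fin [SMulCommClass G F H] (hG : ∀ g : G, g * g = 1) (w : HeightOneSpectrum (𝓞 H))
    (N : ℕ) (hN : N ≠ 0) (L : Fˣ →* G)
    (hnear : ∀ x, Near N (Sum.inr w : Place H) x → L x = 1) :
    ∃ Q : Subgroup Fˣ, Q.index ≠ 0 ∧
      Q.index ≤ 4 * Ideal.absNorm (w.under (𝓞 F)).asIdeal ^ e2 (w.under (𝓞 F)) ∧
      (∀ x ∈ Q, L x = 1) ∧
      ∀ x ∈ Q, ∀ h : H, algebraMap F H (x : F) = h ^ 2 → ∀ γ : G,
        Fixes (Sum.inr w : Place H) γ → γ • h = h := by
  set v := w.under (𝓞 F) with hv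
  have hNF : (N : F) ≠ 0 := Nat.cast_ne_zero.2 hN
  set m : ℕ := (prin (Units.mk0 (N : F) hNF) v).toNat with hm
  set e : ℕ := 2 * e2 v + 1 + m with he
  have he1 : 1 ≤ e := by omega
  have hprim : IsPrimitiveRoot (-1 : F) 2 := IsPrimitiveRoot.neg_one 0 (by norm_num)
  have hidx := Pool.Agent.Q299.EX.index_Hv Pool.Agent.Q299.EX.locn (n := 2) two_pos hprim v
    (e2 v) e he1 (two_notMem v)
  refine ⟨Pool.Agent.Q299.EX.Hv v 2 e he1, hidx.1, ?_, ?_, ?_⟩
  · refine hidx.2.trans (le_of_eq ?_)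
    ring
  · rintro x ⟨y, hy⟩
    have h1 : L (x / y ^ 2) = 1 := by
      apply hnear
      change v.valuation F (((x / y ^ 2 : Fˣ) : F) - 1) ≤ v.valuation F (N : F)
      rw [Units.val_div_eq_div_val, Units.val_pow_eq_pow_val]
      refine hy.trans ?_
      have h2 : v.valuation F (N : F) = WithZero.exp (-(prin (Units.mk0 (N : F) hNF) v)) :=
        Pool.Agent.Q125.AR.valuation_eq_exp (Units.mk0 (N : F) hNF) v
      rw [h2, WithZero.exp_le_exp]
      have h3 : prin (Units.mk0 (N : F) hNF) v ≤ (m : ℤ) := Int.self_le_toNat _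
      push_cast [he]
      omega
    rw [map_div, map_pow, pow_two, hG, div_one] at h1
    exact h1
  · rintro x ⟨y, hy⟩ h hh γ hγ
    refine ram_fix (y := y) hh ?_ (val_inv hγ)
    have hov : Pool.Agent.TeamU.Over w v := rfl
    have hne : (v.asIdeal.ramificationIdx' w.asIdeal) ≠ 0 := by
      have hlo : w.asIdeal.LiesOver v.asIdeal := ⟨rfl⟩
      have hwm := w.isMaximal
      exact Ideal.IsDedekindDomain.ramificationIdx'_ne_zero_of_liesOver w.asIdeal v.ne_bot
    have h2F : w.valuation H 2 = v.valuation F 2 ^ (v.asIdeal.ramificationIdx' w.asIdeal) := by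
      have e0 : algebraMap F H 2 = 2 := map_ofNat (algebraMap F H) 2
      rw [← Pool.Agent.TeamU.val_over hov, e0]
    rw [Pool.Agent.TeamU.val_over hov, h2F, pow_right_comm]
    refine pow_lt_pow_left₀ (lt_of_le_of_lt hy ?_) zero_le' hne
    have h2 : v.valuation F (2 : F) = WithZero.exp (-(prin (Units.mk0 (2 : F) two_ne_zero) v)) :=
      Pool.Agent.Q125.AR.valuation_eq_exp (Units.mk0 (2 : F) two_ne_zero) v
    rw [h2, ← WithZero.exp_nsmul, WithZero.exp_lt_exp]
    have h3 : prin (Units.mk0 (2 : F) two_ne_zero) v ≤ (e2 v : ℤ) := Int.self_le_toNat _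
    rw [nsmul_eq_mul]
    push_cast [he]
    omega

end

end PartD

section PartE

open Pool.Agent.BT9
open Pool.Agent.Q92.AR (Dv prin Pr Ray nmD nu up sD puD Cong Pos frob IsFrobenius Unramified Ram art
  prin_mul prin_one prin_inv)
open Pool.Agent.K3h30.RS
open Pool.Agent.K3h56.E2 (Quad Dict)
open Pool.Agent.H509.E3 (dg mem_dg)

section
variable {F H G : Type} [Field F] [NumberField F] [Field H] [NumberField H] [Algebra F H]
  [CommGroup G] [Finite G] [MulSemiringAction G H]

/-- `H` is generated by square roots of elements of `F` -/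
theorem sep [IsGaloisGroup G F H] (hG : ∀ g : G, g * g = 1) (g : G)
    (hg : ∀ (x : Fˣ) (h : Hˣ), up F H x = h ^ 2 → g • (h : H) = h) : g = 1 := by
  by_contra hne
  obtain ⟨χ, hχ⟩ := CommGroup.exists_apply_ne_one_of_hasEnoughRootsOfUnity G ℂ hne
  obtain ⟨K, _, _, _, _, τ, hD⟩ := Pool.Agent.K3h41.E2.t_DICT F H G χ
    (fun g' => by rw [← map_mul, hG, map_one]) ⟨g, hχ⟩
  have hτ : ∃ y : K, τ y ≠ y := by
    by_contra hcon
    push Not at hcon
    exact hD.quad.ne (AlgEquiv.ext hcon)
  obtain ⟨y, hy⟩ := hτ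
  set s : K := y - τ y with hs
  have hs0 : s ≠ 0 := fun h0 => hy (sub_eq_zero.1 h0).symm
  have hτs : τ s = -s := by
    rw [hs, map_sub, Pool.Agent.K3h77.E2.tau_tau hD.quad, neg_sub]
  set h : H := algebraMap K H s with hh
  have hh0 : h ≠ 0 := (map_ne_zero _).2 hs0
  have hsq : ∀ g' : G, g' • h ^ 2 = h ^ 2 := by
    intro g'
    rw [smul_pow']
    by_cases h1 : χ g' = 1
    · rw [hh, hD.one g' h1]
    · rw [hh, hD.neg g' h1, hτs, map_neg, neg_sq]
  have hinv : Algebra.IsInvariant F H G := IsGaloisGroup.isInvariant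
  obtain ⟨a, ha⟩ := hinv.isInvariant (h ^ 2) hsq
  have ha0 : a ≠ 0 := by
    rintro rfl
    rw [map_zero] at ha
    exact hh0 (pow_eq_zero_iff two_ne_zero |>.1 ha.symm)
  have h1 := hg (Units.mk0 a ha0) (Units.mk0 h hh0) (by
    ext
    exact ha)
  have h2 : g • h = -h := by
    rw [hh, hD.neg g hχ, hτs, map_neg]
  have h3 : g • h = h := h1
  rw [h3] at h2
  exact hh0 (self_eq_neg.1 h2)

/-- the group of the pairs `(x, h)`, `x = h²` -/
def YY (F H : Type) [Field F] [Field H] [Algebra F H] : Subgroup (Fˣ × Hˣ) :=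
  MonoidHom.eqLocus ((up F H).comp (MonoidHom.fst Fˣ Hˣ))
    ((powMonoidHom 2).comp (MonoidHom.snd Fˣ Hˣ))

theorem mem_YY {y : Fˣ × Hˣ} : y ∈ YY F H ↔ up F H y.1 = y.2 ^ 2 := Iff.rfl

/-- the Kummer character -/
def kum (g : G) : YY F H →* H where
  toFun y := (g • ((y : Fˣ × Hˣ).2 : H)) / ((y : Fˣ × Hˣ).2 : H)
  map_one' := by
    change (g • ((1 : Hˣ) : H)) / ((1 : Hˣ) : H) = 1
    rw [Units.val_one, smul_one, div_one]
  map_mul' y y' := by
    change (g • (((y : Fˣ × Hˣ).2 * (y' : Fˣ × Hˣ).2 : Hˣ) : H)) /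
      (((y : Fˣ × Hˣ).2 * (y' : Fˣ × Hˣ).2 : Hˣ) : H) = _
    rw [Units.val_mul, smul_mul', mul_div_mul_comm]

theorem kum_apply (g : G) (y : YY F H) :
    kum g y = (g • ((y : Fˣ × Hˣ).2 : H)) / ((y : Fˣ × Hˣ).2 : H) := rfl

theorem kum_inj [IsGaloisGroup G F H] (hG : ∀ g : G, g * g = 1) {g g' : G}
    (h : (kum g : YY F H →* H) = kum g') : g = g' := by
  have h1 : g'⁻¹ * g = 1 := by
    refine sep (F := F) (H := H) hG _ fun x r hx => ?_
    have h2 := DFunLike.congr_fun h ⟨(x, r), mem_YY.2 hx⟩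
    rw [kum_apply, kum_apply, div_left_inj' r.ne_zero] at h2
    change g • (r : H) = g' • (r : H) at h2
    rw [mul_smul, h2, inv_smul_smul]
  exact (inv_mul_eq_one.1 h1).symm

/-- ISO -/
theorem iso : S_ISO := by
  intro F H G _ _ _ _ _ _ _ _ _ D hG Λ
  letI := Λ.fin
  classical
  have hcomm : SMulCommClass G F H := IsGaloisGroup.commutes
  let U : Λ.ι → Prop := fun i => ∃ w : HeightOneSpectrum (𝓞 H), Λ.u i = Sum.inr w ∧
    Unramified H (w.under (𝓞 F))
  have hlbU : ∀ i, U i → lb F (Λ.u i) = 4 := by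
    rintro i ⟨w, hw, hu⟩
    rw [hw]
    exact if_pos hu
  have hQ : ∀ i, ∃ Q : Subgroup Fˣ, Q.index ≠ 0 ∧ Q.index ≤ (if U i then 1 else lb F (Λ.u i)) ∧
      (¬ U i → (∀ x ∈ Q, Λ.L i x = 1) ∧ ∀ x ∈ Q, ∀ h : H, algebraMap F H (x : F) = h ^ 2 →
        ∀ γ : G, Fixes (Λ.u i) γ → γ • h = h) := by
    intro i
    by_cases hU : U i
    · refine ⟨⊤, ?_, ?_, fun h => absurd hU h⟩
      · rw [Subgroup.index_top]
        exact one_ne_zero
      · rw [if_pos hU, Subgroup.index_top]
    · rw [if_neg hU]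
      rcases hw : Λ.u i with w | w
      · obtain ⟨Q, h1, h2, h3, h4⟩ := exQ_arch (F := F) (G := G) w Λ.N (Λ.L i) (fun x hx => by
          refine Λ.near i x ?_
          rw [hw]
          exact hx)
        exact ⟨Q, h1, h2, fun _ => ⟨h3, h4⟩⟩
      · obtain ⟨Q, h1, h2, h3, h4⟩ := exQ_fin (F := F) (G := G) hG w Λ.N Λ.N0 (Λ.L i)
          (fun x hx => by
            refine Λ.near i x ?_
            rw [hw]
            exact hx)
        refine ⟨Q, h1, ?_, fun _ => ⟨h3, h4⟩⟩
        have hu : ¬ Unramified H (w.under (𝓞 F)) := fun hu => hU ⟨w, hw, hu⟩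
        refine h2.trans (le_of_eq ?_)
        exact (if_neg hu).symm
  choose Q hQ0 hQ1 hQ2 using hQ
  let I0 : Finset Λ.ι := Finset.univ.filter (fun i => ¬ U i)
  have hI0 : ∀ i, i ∈ I0 ↔ ¬ U i := fun i => by
    change i ∈ Finset.univ.filter (fun i => ¬ U i) ↔ _
    rw [Finset.mem_filter]
    exact and_iff_right (Finset.mem_univ i)
  let lam : Fˣ →* G := ∏ i ∈ I0, Λ.L i
  have hlam : ∀ x, lam x = ∏ i ∈ I0, Λ.L i x := fun x => MonoidHom.finset_prod_apply _ _ x
  -- the bound for the image of `lam`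
  have hA : Nat.card lam.range ^ 2 ≤ (⨅ i, Q i).index := by
    refine sq_le_index lam (⨅ i, Q i) (Subgroup.index_iInf_ne_zero hQ0) ?_
      ((MonoidHom.fst Fˣ Hˣ).comp (YY F H).subtype) ?_
      (fun γ => (kum (γ : G) : YY F H →* H)) ?_ ?_
    · intro x hx
      rw [Subgroup.mem_iInf] at hx
      rw [MonoidHom.mem_ker, hlam]
      exact Finset.prod_eq_one fun i hi => (hQ2 i ((hI0 i).1 hi)).1 x (hx i)
    · rintro x ⟨y, rfl⟩
      have hy : up F H (y : Fˣ × Hˣ).1 = (y : Fˣ × Hˣ).2 ^ 2 := mem_YY.1 y.2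
      rw [MonoidHom.mem_ker, hlam]
      change ∏ i ∈ I0, Λ.L i (y : Fˣ × Hˣ).1 = 1
      have h1 : ∏ i ∈ I0, Λ.L i (y : Fˣ × Hˣ).1 = ∏ i, Λ.L i (y : Fˣ × Hˣ).1 := by
        refine Finset.prod_subset (Finset.subset_univ _) fun i _ hi => ?_
        have hU : U i := by
          by_contra hU
          exact hi ((hI0 i).2 hU)
        obtain ⟨w, hw, hu⟩ := hU
        exact Λ.unr i w hw hu _ (even_of_sq hy w hu)
      rw [h1, Λ.prod]
      refine fr_even D hG _ fun v hv => ?_
      obtain ⟨w, v', hv', hw⟩ := (Pool.Agent.K3h25.RS.t_OVER F H v).1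
      rw [Set.mem_singleton_iff] at hv'
      subst hv'
      have hwv : w.under (𝓞 F) = v' := HeightOneSpectrum.ext hw
      have hu : Unramified H v' := Pool.Agent.H509.Rec.unr_of_squarefree (D.unramified v' hv)
      rw [← hwv] at hu ⊢
      exact even_of_sq hy w hu
    · intro γ γ' h
      exact Subtype.ext (kum_inj (F := F) (H := H) hG h)
    · intro γ y hy
      have hy1 : (y : Fˣ × Hˣ).1 ∈ ⨅ i, Q i := hy
      rw [Subgroup.mem_iInf] at hy1
      have hy2 : algebraMap F H ((y : Fˣ × Hˣ).1 : F) = ((y : Fˣ × Hˣ).2 : H) ^ 2 :=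
        congrArg Units.val (mem_YY.1 y.2)
      obtain ⟨g, a, rfl⟩ := γ
      change kum (lam a) y = 1
      have h1 : lam a ∈ MulAction.stabilizer G ((y : Fˣ × Hˣ).2 : H) := by
        rw [hlam]
        refine Subgroup.prod_mem _ fun i hi => ?_
        exact (hQ2 i ((hI0 i).1 hi)).2 _ (hy1 i) _ hy2 _ (Λ.dec i a)
      rw [MulAction.mem_stabilizer_iff] at h1
      rw [kum_apply, h1, div_self (Units.ne_zero _)]
  -- the generators
  let P : Option Λ.ι → Subgroup G := fun o => match o with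
    | none => lam.range
    | some i => if U i then dg (Λ.u i) else ⊥
  have hPn : P none = lam.range := rfl
  have hPs : ∀ i, P (some i) = if U i then dg (Λ.u i) else ⊥ := fun i => rfl
  have hSg : Sg D ≤ ⨆ o, P o := by
    refine (Subgroup.closure_le _).2 ?_
    rintro γ ⟨-, w, hw, hγ⟩
    by_cases hj : ∃ j, Conj G w (D.w j)
    · obtain ⟨j, hj⟩ := hj
      have h1 : γ = 1 := D.splits j γ (Pool.Agent.H509.E3.fixes_conj hj hγ)
      rw [h1]
      exact Subgroup.one_mem _
    · push Not at hj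
      obtain ⟨i, hi⟩ := Λ.all w hw hj
      have hγi : Fixes (Λ.u i) γ := Pool.Agent.H509.E3.fixes_conj hi hγ
      by_cases hU : U i
      · have h1 : γ ∈ P (some i) := by
          rw [hPs, if_pos hU]
          exact mem_dg.2 hγi
        exact (le_iSup P (some i)) h1
      · obtain ⟨x, hx, -⟩ := Λ.approx (Pi.mulSingle i γ) (fun i' => by
          by_cases hi' : i' = i
          · subst hi'
            rw [Pi.mulSingle_eq_same]
            exact hγi
          · rw [Pi.mulSingle_eq_of_ne hi']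
            exact mem_dg.1 (one_mem (dg (G := G) (Λ.u i')))) ∅ (Finset.disjoint_empty_right _)
          (fun _ => 0)
        have h1 : γ ∈ P none := by
          refine ⟨x, ?_⟩
          rw [hlam, Finset.prod_eq_single i]
          · rw [hx, Pi.mulSingle_eq_same]
          · intro i' _ hi'
            rw [hx, Pi.mulSingle_eq_of_ne hi']
          · intro h2
            exact absurd ((hI0 i).2 hU) h2
        exact (le_iSup P none) h1
  have hB : Nat.card (Sg D) ≤ Nat.card lam.range * ∏ i, Nat.card (P (some i)) := by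
    refine (Pool.Agent.H509.E3.card_le_prod P (Sg D) hSg).trans (le_of_eq ?_)
    rw [Fintype.prod_option]
  calc Nat.card (Sg D) ^ 2 ≤ (Nat.card lam.range * ∏ i, Nat.card (P (some i))) ^ 2 :=
        Nat.pow_le_pow_left hB 2
    _ = Nat.card lam.range ^ 2 * ∏ i, Nat.card (P (some i)) ^ 2 := by
        rw [mul_pow, Finset.prod_pow]
    _ ≤ (∏ i, (if U i then 1 else lb F (Λ.u i))) * ∏ i, (if U i then 4 else 1) := by
        refine Nat.mul_le_mul ?_ ?_
        · refine hA.trans ((Subgroup.index_iInf_le Q).trans ?_)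
          exact Finset.prod_le_prod' fun i _ => hQ1 i
        · refine Finset.prod_le_prod' fun i _ => ?_
          by_cases hU : U i
          · rw [hPs, if_pos hU, if_pos hU]
            obtain ⟨w, hw, hu⟩ := hU
            rw [hw]
            have h1 := dg_unram (G := G) hG w hu
            calc _ ≤ 2 ^ 2 := Nat.pow_le_pow_left h1 2
              _ = 4 := rfl
          · rw [hPs, if_neg hU, if_neg hU, Subgroup.card_bot, one_pow]
    _ = ∏ i, lb F (Λ.u i) := by
        rw [← Finset.prod_mul_distrib]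
        refine Finset.prod_congr rfl fun i _ => ?_
        by_cases hU : U i
        · rw [if_pos hU, if_pos hU, hlbU i hU, one_mul]
        · rw [if_neg hU, if_neg hU, mul_one]

end

end PartE

end Pool.Agent.H788.BT
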