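import Pool.Agent.H509.BT.Stm5

/-!
# Project BT: the primes above two, local degrees

`n2 : S_N2` and `tot : S_TOT`.
-/

set_option autoImplicit false
set_option linter.unusedSectionVars false
set_option linter.deprecated false

open NumberField IsDedekindDomain Filter Topology Module

noncomputable section

namespace Pool.Agent.H161.BT

open Pool.Agent.Q92.AR (Dv prin)
open Pool.Agent.BT9

theorem map_two {F : Type} [Field F] [NumberField F] :
    Ideal.map (algebraMap ℤ (𝓞 F)) (Ideal.span {(2 : ℤ)}) = Ideal.span {(2 : 𝓞 F)} := by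
  rw [Ideal.map_span, Set.image_singleton]
  simp

theorem span_two_ne {F : Type} [Field F] [NumberField F] :
    Ideal.span {(2 : 𝓞 F)} ≠ ⊥ := by
  rw [Ne, Ideal.span_singleton_eq_bot]
  exact two_ne_zero

theorem prime_two : Prime (2 : ℤ) := Int.prime_two

theorem liesOver {F : Type} [Field F] [NumberField F] (v : HeightOneSpectrum (𝓞 F))
    (h : (2 : 𝓞 F) ∈ v.asIdeal) : v.asIdeal.LiesOver (Ideal.span {(2 : ℤ)}) := by
  refine ⟨?_⟩
  have hmax : (Ideal.span {(2 : ℤ)}).IsMaximal :=
    PrincipalIdealRing.isMaximal_of_irreducible prime_two.irreducible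
  refine hmax.eq_of_le ?_ ?_
  · have := v.isPrime
    exact Ideal.IsPrime.ne_top inferInstance
  · rw [Ideal.span_singleton_le_iff_mem, Ideal.under_def, Ideal.mem_comap]
    simpa using h

/-- `e2` is the ramification index. -/
theorem e2_eq {F : Type} [Field F] [NumberField F] (v : HeightOneSpectrum (𝓞 F)) :
    e2 v = Ideal.ramificationIdx' (Ideal.span {(2 : ℤ)}) v.asIdeal := by
  classical
  unfold e2
  rw [Pool.Agent.Q92.AR.prin_apply]
  have h1 : FractionalIdeal.spanSingleton (nonZeroDivisors (𝓞 F))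
      ((Units.mk0 (2 : F) two_ne_zero : Fˣ) : F) =
      ((Ideal.span {(2 : 𝓞 F)} : Ideal (𝓞 F)) : FractionalIdeal (nonZeroDivisors (𝓞 F)) F) := by
    rw [FractionalIdeal.coeIdeal_span_singleton, Units.val_mk0, map_ofNat]
  rw [h1, FractionalIdeal.count_coe F v span_two_ne, Int.toNat_natCast,
    Ideal.count_associates_factors_eq span_two_ne v.isPrime v.ne_bot,
    Ideal.IsDedekindDomain.ramificationIdx'_eq_normalizedFactors_count (by rw [map_two]; exact span_two_ne)
      v.isPrime v.ne_bot, map_two]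

theorem n2 : S_N2 := by
  intro F _ _ v h
  have := liesOver v h
  rw [e2_eq, Ideal.absNorm_eq_pow_inertiaDeg v.asIdeal prime_two, deg2, ← pow_mul, mul_comm]
  rfl

theorem tot : S_TOT := by
  classical
  intro F H _ _ _ _ _ hF hH W hW
  have hmax : (Ideal.span {(2 : ℤ)}).IsMaximal :=
    PrincipalIdealRing.isMaximal_of_irreducible prime_two.irreducible
  have hne : (Ideal.span {(2 : ℤ)}) ≠ ⊥ := by
    rw [Ne, Ideal.span_singleton_eq_bot]
    exact two_ne_zero
  have h1 := Ideal.sum_ramification_inertia (S := 𝓞 F) ℚ F hne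
  have hinj : Function.Injective (fun v : HeightOneSpectrum (𝓞 F) => v.asIdeal) := by
    intro a b hab
    exact HeightOneSpectrum.ext hab
  have h2 : ∑ v ∈ W, deg2 v ≤ finrank ℚ F := by
    rw [← h1]
    have e1 : ∑ v ∈ W, deg2 v = ∑ P ∈ W.map ⟨_, hinj⟩,
        Ideal.ramificationIdx' (Ideal.span {(2 : ℤ)}) P *
          Ideal.inertiaDeg' (Ideal.span {(2 : ℤ)}) P := by
      rw [Finset.sum_map]
      rfl
    rw [e1]
    refine Finset.sum_le_sum_of_subset ?_
    intro P hP
    rw [Finset.mem_map] at hP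
    obtain ⟨v, hv, rfl⟩ := hP
    rw [IsDedekindDomain.mem_primesOverFinset_iff hne]
    exact ⟨v.isPrime, liesOver v (hW v hv)⟩
  refine h2.trans ?_
  have htr : IsTotallyReal F := ⟨hF⟩
  have h3 : finrank ℚ F = Nat.card (InfinitePlace F) := by
    rw [IsTotallyReal.finrank, Nat.card_eq_fintype_card,
      InfinitePlace.card_eq_nrRealPlaces_add_nrComplexPlaces]
    simp
  rw [h3]
  unfold RC
  refine le_of_eq (Nat.card_congr ?_)
  exact (Equiv.subtypeUnivEquiv fun v => ⟨hF v, fun w _ => hH w⟩).symm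

end Pool.Agent.H161.BT
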