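import Pool.Agent.H509.BT.Stm5
import Pool.Graph.R_pool_sql_team_seeded_3997aac3.Q125.AR.Base
import Pool.Graph.R_pool_sql_team_seeded_5cf16337.K3h73.E2.Places

/-!
# Project BT, WILD: bound for the decomposition groups (helper627)
-/

set_option autoImplicit false
set_option linter.unusedSectionVars false
set_option linter.deprecated false

open NumberField IsDedekindDomain Filter Topology Module

noncomputable section

namespace Pool.Agent.H627.BT

open Pool.Agent.BT9
open Pool.Agent.Q92.AR (Dv prin Pr Ray nmD nu up sD puD Cong Pos frob IsFrobenius Unramified Ram art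
  prin_mul prin_one prin_inv)
open Pool.Agent.K3h30.RS
open Pool.Agent.K3h73.E2 (Below exists_below exists_over below_unique conj_of_below below_of_conj)

section
variable {F H G : Type} [Field F] [NumberField F] [Field H] [NumberField H] [Algebra F H]
  [CommGroup G] [Finite G] [MulSemiringAction G H] [IsGaloisGroup G F H]

/-- the archimedean factor -/
def cF (F : Type) [Field F] [NumberField F] : InfinitePlace F ⊕ HeightOneSpectrum (𝓞 F) → ℕ
  | Sum.inl _ => 2
  | Sum.inr _ => 4

/-- the archimedean factor, complementary -/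
def cF' (F : Type) [Field F] [NumberField F] : InfinitePlace F ⊕ HeightOneSpectrum (𝓞 F) → ℕ
  | Sum.inl _ => 2
  | Sum.inr _ => 1

open Classical in
/-- the wild factor -/
def dF (F H : Type) [Field F] [NumberField F] [Field H] [NumberField H] [Algebra F H] :
    InfinitePlace F ⊕ HeightOneSpectrum (𝓞 F) → ℕ
  | Sum.inl _ => 1
  | Sum.inr v => if Unramified H v then 1 else Ideal.absNorm v.asIdeal ^ e2 v

theorem nrm_pos (v : HeightOneSpectrum (𝓞 F)) : 1 ≤ Ideal.absNorm v.asIdeal ^ e2 v := by
  refine Nat.one_le_pow _ _ (Nat.pos_of_ne_zero ?_)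
  rw [Ne, Ideal.absNorm_eq_zero_iff]
  exact v.ne_bot

theorem dF_pos (q : InfinitePlace F ⊕ HeightOneSpectrum (𝓞 F)) : 1 ≤ dF F H q := by
  classical
  rcases q with v | v
  · exact le_refl 1
  · show 1 ≤ if Unramified H v then 1 else Ideal.absNorm v.asIdeal ^ e2 v
    split_ifs
    · exact le_refl 1
    · exact nrm_pos v

theorem e2_zero {v : HeightOneSpectrum (𝓞 F)} (h : (2 : 𝓞 F) ∉ v.asIdeal) : e2 v = 0 := by
  have h1 := Pool.Agent.Q125.AR.valuation_eq_exp (Units.mk0 (2 : F) two_ne_zero) v
  have h2 : v.valuation F (2 : F) = 1 := by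
    have h3 : ¬ v.valuation F (algebraMap (𝓞 F) F 2) < 1 := fun h4 =>
      h ((v.valuation_lt_one_iff_mem (K := F) (2 : 𝓞 F)).1 h4)
    have h5 := v.valuation_le_one (K := F) (2 : 𝓞 F)
    have h6 := le_antisymm h5 (not_lt.1 h3)
    exact h6
  rw [Units.val_mk0, h2] at h1
  have h3 : prin (Units.mk0 (2 : F) two_ne_zero) v = 0 := by
    have h4 : (WithZero.exp (0 : ℤ)) = WithZero.exp (- prin (Units.mk0 (2 : F) two_ne_zero) v) := by
      rw [← h1]; rfl
    have h5 := WithZero.exp_injective h4
    omega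
  unfold e2
  rw [h3]
  rfl

theorem lb_eq {p : InfinitePlace F ⊕ HeightOneSpectrum (𝓞 F)} {w : Place H} (h : Below p w) :
    lb F w = cF F p * dF F H p := by
  classical
  rcases w with w | w <;> rcases p with v | v
  · rfl
  · exact h.elim
  · exact h.elim
  · have h1 : w.under (𝓞 F) = v := by
      obtain ⟨v', hv', h2⟩ := (show Above {v} w from h)
      rw [Set.mem_singleton_iff] at hv'
      subst hv'
      exact HeightOneSpectrum.ext h2
    show (if Unramified H (w.under (𝓞 F)) then 4 else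
      4 * Ideal.absNorm (w.under (𝓞 F)).asIdeal ^ e2 (w.under (𝓞 F))) =
      4 * (if Unramified H v then 1 else Ideal.absNorm v.asIdeal ^ e2 v)
    rw [h1]
    split_ifs
    · rfl
    · rfl

/-- the complex conjugation at a real place which becomes complex -/
theorem exists_cc (v : InfinitePlace F) (hv : v.IsReal)
    (hc : ∀ w : InfinitePlace H, w.comap (algebraMap F H) = v → w.IsComplex) :
    ∃ (w : InfinitePlace H) (γ : G), w.comap (algebraMap F H) = v ∧ Fixes (Sum.inl w : Place H) γ ∧
      γ ≠ 1 := by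
  have : IsGalois F H := IsGaloisGroup.isGalois G F H
  obtain ⟨ι, g, hι, hg⟩ := Pool.Agent.H509.Rec.exists_conj (M := H)
    (InfinitePlace.embedding_of_isReal hv)
  have h1 : (InfinitePlace.mk ι).comap (algebraMap F H) = v := by
    rw [InfinitePlace.comap_mk]
    have e : ι.comp (algebraMap F H) = v.embedding := by
      ext x
      change ι (algebraMap F H x) = v.embedding x
      rw [hι, InfinitePlace.embedding_of_isReal_apply]
    rw [e, InfinitePlace.mk_embedding]
  refine ⟨InfinitePlace.mk ι, Pool.Agent.H509.Rec.eK F F H G g, h1,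
    Pool.Agent.H509.Rec.fixes_of_conj hg, fun h2 => ?_⟩
  have h3 : ComplexEmbedding.IsReal ι := by
    rw [ComplexEmbedding.isReal_iff]
    ext x
    rw [ComplexEmbedding.conjugate_coe_eq, ← hg]
    have h4 := Pool.Agent.H509.Rec.eK_smul (F := F) (K := F) (H := H) (G := G) g x
    rw [h2, one_smul] at h4
    rw [← h4]
  have h5 : (InfinitePlace.mk ι).IsReal := ⟨ι, h3, rfl⟩
  exact (InfinitePlace.not_isReal_iff_isComplex.2 (hc _ h1)) h5

end

theorem wild (h1 : S_ISO) (h2 : S_N2) : S_WILD := by
  classical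
  intro F H G _ _ _ _ _ _ _ _ _ D hexp hΛ W hW hsum
  obtain ⟨Λ⟩ := hΛ
  have hiso := h1 F H G D hexp Λ
  let _ := Λ.fin
  have hb : ∀ i, ∃ p : InfinitePlace F ⊕ HeightOneSpectrum (𝓞 F), Below p (Λ.u i) :=
    fun i => exists_below (Λ.u i)
  choose p hp using hb
  have hpinj : Function.Injective p := by
    intro i i' h
    have h3 := hp i'
    rw [← h] at h3
    exact Λ.inj i i' (conj_of_below (hp i) h3)
  have hprod : Nat.card (Sg D) ^ 2 ≤ (∏ i, cF F (p i)) * ∏ i, dF F H (p i) := by
    rw [← Finset.prod_mul_distrib]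
    refine hiso.trans (le_of_eq ?_)
    exact Finset.prod_congr rfl fun i _ => lb_eq (hp i)
  -- the wild part
  have hd : ∏ i, dF F H (p i) ≤ 2 ^ (1 + Nat.card (RC F H)) := by
    have e1 : ∏ i, dF F H (p i) = ∏ q ∈ Finset.univ.image p, dF F H q :=
      (Finset.prod_image fun i _ i' _ h => hpinj h).symm
    have e2' : ∏ q ∈ Finset.univ.image p, dF F H q =
        ∏ q ∈ (Finset.univ.image p).filter (fun q => dF F H q ≠ 1), dF F H q :=
      (Finset.prod_filter_ne_one _).symm
    let W' := W.filter fun v => (2 : 𝓞 F) ∈ v.asIdeal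
    have hsub : (Finset.univ.image p).filter (fun q => dF F H q ≠ 1) ⊆
        W'.image (Sum.inr : HeightOneSpectrum (𝓞 F) → InfinitePlace F ⊕ HeightOneSpectrum (𝓞 F)) := by
      intro q hq
      have hq2 := (Finset.mem_filter.1 hq).2
      rcases q with v | v
      · exact absurd rfl hq2
      · have h3 : ¬ Unramified H v := fun h => hq2 (if_pos h)
        have h4 : dF F H (Sum.inr v) = Ideal.absNorm v.asIdeal ^ e2 v := if_neg h3
        have h5 : (2 : 𝓞 F) ∈ v.asIdeal := by
          by_contra h6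
          rw [h4, e2_zero h6, pow_zero] at hq2
          exact hq2 rfl
        refine Finset.mem_image.2 ⟨v, Finset.mem_filter.2 ⟨hW v h5 fun h6 => h3 ?_, h5⟩, rfl⟩
        exact Pool.Agent.H509.Rec.unr_of_squarefree h6
    rw [e1, e2']
    calc ∏ q ∈ (Finset.univ.image p).filter (fun q => dF F H q ≠ 1), dF F H q
        ≤ ∏ q ∈ W'.image Sum.inr, dF F H q :=
          Finset.prod_le_prod_of_subset_of_one_le' hsub fun q _ _ => dF_pos q
      _ = ∏ v ∈ W', dF F H (Sum.inr v) := Finset.prod_image fun a _ b _ h => Sum.inr_injective h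
      _ ≤ ∏ v ∈ W', 2 ^ deg2 v := by
          refine Finset.prod_le_prod' fun v hv => ?_
          rw [← h2 F v (Finset.mem_filter.1 hv).2]
          show (if Unramified H v then 1 else Ideal.absNorm v.asIdeal ^ e2 v) ≤ _
          split_ifs
          · exact nrm_pos v
          · exact le_refl _
      _ = 2 ^ (∑ v ∈ W', deg2 v) := Finset.prod_pow_eq_pow_sum _ _ _
      _ ≤ 2 ^ (1 + Nat.card (RC F H)) := by
          refine Nat.pow_le_pow_right (by norm_num) (le_trans ?_ hsum)
          exact Finset.sum_le_sum_of_subset (Finset.filter_subset _ _)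
  -- the archimedean part
  have hRC : 2 ^ Nat.card (RC F H) ≤ ∏ i, cF' F (p i) := by
    have h3 : ∀ v : RC F H, ∃ i, p i = Sum.inl v.1 := by
      intro v
      obtain ⟨w, γ, hw, hf, hγ⟩ := exists_cc (G := G) v.1 v.2.1 v.2.2
      have h4 : ∀ j, ¬ Conj G (Sum.inl w : Place H) (D.w j) := fun j hj =>
        hγ (D.splits j γ (Pool.Agent.H509.E3.fixes_conj hj hf))
      obtain ⟨i, hi⟩ := Λ.all (Sum.inl w) trivial h4
      exact ⟨i, (below_of_conj (p := Sum.inl v.1) (w := Sum.inl w) hw (hp i) hi).symm⟩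
    choose k hk using h3
    have hkinj : Function.Injective k := by
      intro v v' h
      have h4 := hk v
      rw [h, hk v'] at h4
      exact (Subtype.ext (Sum.inl_injective h4)).symm
    have hfin : Finite (RC F H) := Finite.of_injective k hkinj
    let _ := Fintype.ofFinite (RC F H)
    have h4 : ∏ i ∈ Finset.univ.image k, cF' F (p i) = 2 ^ Nat.card (RC F H) := by
      rw [Finset.prod_image fun a _ b _ h => hkinj h]
      have h5 : ∀ v : RC F H, cF' F (p (k v)) = 2 := fun v => by rw [hk v]; rfl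
      rw [Finset.prod_congr rfl fun v _ => h5 v, Finset.prod_const, Finset.card_univ,
        Nat.card_eq_fintype_card]
    rw [← h4]
    refine Finset.prod_le_prod_of_subset_of_one_le' (Finset.subset_univ _) fun i _ _ => ?_
    rcases p i with v | v
    · exact one_le_two
    · exact le_refl 1
  have hcc : (∏ i, cF F (p i)) * ∏ i, cF' F (p i) = 4 ^ Nat.card Λ.ι := by
    rw [← Finset.prod_mul_distrib]
    have h3 : ∀ i, cF F (p i) * cF' F (p i) = 4 := by
      intro i
      rcases p i with v | v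
      · rfl
      · rfl
    rw [Finset.prod_congr rfl fun i _ => h3 i, Finset.prod_const, Finset.card_univ,
      Nat.card_eq_fintype_card]
  have hsc : sc D = Nat.card Λ.ι := by
    have := Λ.card
    unfold sc
    omega
  have hfinal : Nat.card (Sg D) ^ 2 ≤ 2 * 4 ^ Nat.card Λ.ι := by
    calc Nat.card (Sg D) ^ 2 ≤ (∏ i, cF F (p i)) * ∏ i, dF F H (p i) := hprod
      _ ≤ (∏ i, cF F (p i)) * 2 ^ (1 + Nat.card (RC F H)) := Nat.mul_le_mul_left _ hd
      _ = 2 * ((∏ i, cF F (p i)) * 2 ^ Nat.card (RC F H)) := by rw [pow_add, pow_one]; ring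
      _ ≤ 2 * ((∏ i, cF F (p i)) * ∏ i, cF' F (p i)) :=
          Nat.mul_le_mul_left _ (Nat.mul_le_mul_left _ hRC)
      _ = 2 * 4 ^ Nat.card Λ.ι := by rw [hcc]
  -- power of two
  have : Fact (Nat.Prime 2) := ⟨Nat.prime_two⟩
  obtain ⟨m, hm⟩ := (IsPGroup.iff_card (p := 2) (G := Sg D)).1 fun g => ⟨1, by
      rw [pow_one, pow_two]
      exact Subtype.ext (hexp g)⟩
  rw [hsc, hm]
  rw [hm] at hfinal
  refine Nat.pow_le_pow_right (by norm_num) ?_
  have h3 : (2 ^ m) ^ 2 = 2 ^ (2 * m) := by rw [← pow_mul, mul_comm]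
  have h4 : 2 * 4 ^ Nat.card Λ.ι = 2 ^ (2 * Nat.card Λ.ι + 1) := by
    rw [show (4 : ℕ) = 2 ^ 2 from rfl, ← pow_mul, pow_succ]
    ring
  rw [h3, h4] at hfinal
  have h5 := (Nat.pow_le_pow_iff_right (by norm_num : 1 < 2)).1 hfinal
  omega

end Pool.Agent.H627.BT
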