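import Pool.Agent.H509.BT.Fin
import Pool.Agent.H509.BT.ISO
import Pool.Agent.H509.BT.N2
import Pool.Agent.H509.BT.WILD

/-!
# Project BT: final theorems
-/

set_option autoImplicit false

open NumberField IsDedekindDomain

noncomputable section

namespace Pool.Agent.BT9

open Pool.Agent.K3h30.RS Pool.Agent.K3h62.RS Pool.Agent.K3h3.RS Pool.Agent.K3h81.RL
open Pool.Agent.H509 Pool.Agent.H509.Rec

theorem wild : S_WILD := Pool.Agent.H627.BT.wild Pool.Agent.H788.BT.iso Pool.Agent.H161.BT.n2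

section

variable {F H G : Type} [Field F] [NumberField F] [Field H] [NumberField H] [Algebra F H]
  [CommGroup G] [Finite G] [MulSemiringAction G H] [IsGaloisGroup G F H]

/-- the second form of the hypothesis -/
theorem card_of_wild (D : RubinData F H G) (hG : ∀ g : G, g * g = 1)
    (h : ∃ W : Finset (HeightOneSpectrum (𝓞 F)), (∀ v : HeightOneSpectrum (𝓞 F),
      (2 : 𝓞 F) ∈ v.asIdeal → ¬ Squarefree (v.asIdeal.map (algebraMap (𝓞 F) (𝓞 H))) → v ∈ W) ∧
      ∑ v ∈ W, deg2 v ≤ 1 + Nat.card (RC F H)) : Nat.card (Sg D) ≤ 2 ^ sc D := by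
  obtain ⟨W, h1, h2⟩ := h
  exact wild F H G D hG (all_lam F H G D hG) W h1 h2

/-- the group `Σ` -/
theorem sg_eq (D : RubinData F H G) : Sg D = Subgroup.closure {γ : G | ∃ w : Place H,
    InS (D.S : Set (HeightOneSpectrum (𝓞 F))) w ∧ Fixes w γ} := by
  unfold Sg decK
  simp only [MonoidHom.one_apply, true_and]

open Classical in
/-- the three forms of the hypothesis -/
theorem card_of_cases (D : RubinData F H G) (hG : ∀ g : G, g * g = 1)
    (h : Nat.card (Subgroup.closure {γ : G | ∃ w : Place H,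
          InS (D.S : Set (HeightOneSpectrum (𝓞 F))) w ∧ Fixes w γ}) ≤
        2 ^ (Fintype.card (InfinitePlace F) + D.S.card - D.r) ∨
      (∃ W : Finset (HeightOneSpectrum (𝓞 F)), (∀ v : HeightOneSpectrum (𝓞 F),
          (2 : 𝓞 F) ∈ v.asIdeal → ¬ Squarefree (v.asIdeal.map (algebraMap (𝓞 F) (𝓞 H))) → v ∈ W) ∧
        ∑ v ∈ W, deg2 v ≤ 1 + Nat.card {v : InfinitePlace F // v.IsReal ∧
          ∀ w : InfinitePlace H, w.comap (algebraMap F H) = v → w.IsComplex}) ∨
      ((∀ v : InfinitePlace F, v.IsReal) ∧ ∀ w : InfinitePlace H, w.IsComplex)) :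
    Nat.card (Sg D) ≤ 2 ^ sc D := by
  rcases h with h | h | ⟨h1, h2⟩
  · rw [sg_eq]
    exact h
  · exact card_of_wild D hG h
  · have hfin : {v : HeightOneSpectrum (𝓞 F) | (2 : 𝓞 F) ∈ v.asIdeal}.Finite := by
      have h3 := Ideal.finite_factors (I := Ideal.span {(2 : 𝓞 F)}) (by
        rw [Ne, Ideal.zero_eq_bot, Ideal.span_singleton_eq_bot]
        exact two_ne_zero)
      refine h3.subset fun v hv => ?_
      rw [Set.mem_ofPred_eq] at hv ⊢
      rw [Ideal.dvd_iff_le, Ideal.span_singleton_le_iff_mem]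
      exact hv
    refine card_of_wild D hG ⟨hfin.toFinset, fun v h3 _ => ?_, ?_⟩
    · rw [Set.Finite.mem_toFinset]
      exact h3
    · refine (Pool.Agent.H161.BT.tot F H h1 h2 _ fun v hv => ?_).trans (Nat.le_add_left _ _)
      rw [Set.Finite.mem_toFinset] at hv
      exact hv

end

end Pool.Agent.BT9
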