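import Pool.Agent.H509.BT.Core

/-!
# Project BT: the theorem, from the statements of the parts
-/

set_option autoImplicit false
set_option linter.unusedSectionVars false
set_option linter.deprecated false

open NumberField IsDedekindDomain Filter Topology Module

noncomputable section

namespace Pool.Agent.BT9

open Pool.Agent.K3h30.RS Pool.Agent.K3h62.RS Pool.Agent.K3h3.RS Pool.Agent.K3h81.RL
open Pool.Agent.H509 Pool.Agent.H509.Rec
open Pool.Agent.Q92.AR (prin Unramified)

/-- all statements of the project -/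
structure All : Prop where
  lam : S_LAM
  phi : S_PHI
  rka : S_RKA
  deta : S_DETA
  cnt : S_CNT
  asm : S_ASM3
  evx : S_EVX
  tcla : S_TCLA
  tclb : S_TCLB
  tclf : S_TCLF
  dk0 : S_DK0
  df0 : S_DF0
  bk : S_BK
  bf : S_BF
  wu : S_WU
  wu1 : S_WU1

section

variable {F H G : Type} [Field F] [NumberField F] [Field H] [NumberField H] [Algebra F H]
  [CommGroup G] [Finite G] [MulSemiringAction G H] [IsGaloisGroup G F H]

theorem all_core (h : All) (D : RubinData F H G)
    (T : Finset (HeightOneSpectrum (𝓞 F))) (hT : D.Allowed T) (hG : ∀ g : G, g * g = 1)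
    (hgen : Generates H ⊥ (D.S : Set (HeightOneSpectrum (𝓞 F)))
      (T : Set (HeightOneSpectrum (𝓞 F)))) (hs : Nat.card (Sg D) = 2 ^ sc D) : D.Rubin T :=
  rubin_core h.lam h.phi h.rka h.deta h.cnt h.asm h.evx h.tcla h.tclb h.tclf h.dk0 h.df0 h.bk
    h.bf h.wu h.wu1 D T hT hG hgen hs

theorem card_sg (D : RubinData F H G) (hG : ∀ g : G, g * g = 1) :
    ∃ k, Nat.card (Sg D) = 2 ^ k := by
  have : Fact (Nat.Prime 2) := ⟨Nat.prime_two⟩
  obtain ⟨m, hm⟩ := (IsPGroup.iff_card (p := 2) (G := Sg D)).1 fun g => ⟨1, by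
    rw [pow_one, pow_two]
    exact Subtype.ext (hG (g : G))⟩
  exact ⟨m, hm⟩

/-- small decomposition groups -/
theorem crit_of_card (D : RubinData F H G) (hG : ∀ g : G, g * g = 1)
    (h : 2 * Nat.card (Sg D) ≤ 2 ^ sc D) : Crit D := by
  intro χ ha
  have hle0 : decK (H := H) D.S χ ≤ Sg D := by
    refine (Subgroup.closure_le _).2 ?_
    rintro γ ⟨-, w, hw, hγ⟩
    exact mem_Sg hw hγ
  have hlek : decK (H := H) D.S χ ≤ χ.ker := by
    refine (Subgroup.closure_le _).2 ?_
    rintro γ ⟨h1, -⟩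
    exact h1
  have hidx : Nat.card (decK (H := H) D.S χ) * (decK (H := H) D.S χ).relIndex χ.ker =
      Nat.card χ.ker := by
    have h2 := Subgroup.card_mul_index ((decK (H := H) D.S χ).subgroupOf χ.ker)
    rw [Nat.card_congr (Subgroup.subgroupOfEquivOfLe hlek).toEquiv] at h2
    exact h2
  have hpos : 0 < Nat.card (Sg D) := Nat.card_pos
  have hsc : sc D = (Fintype.card (InfinitePlace F) + D.S.card - (D.r + 1)) + 1 := by
    by_contra hcon
    have h1 : sc D = 0 := by
      unfold sc at hcon ⊢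
      omega
    rw [h1] at h
    omega
  have h2 : Nat.card (Sg D) ≤ 2 ^ (Fintype.card (InfinitePlace F) + D.S.card - (D.r + 1)) := by
    rw [hsc, pow_succ] at h
    omega
  by_cases hχ : ∃ γ ∈ Sg D, χ γ ≠ 1
  · have hker : Nat.card χ.ker * 2 = Nat.card G := by
      have h1 := E3.card_half (⊤ : Subgroup G) χ hG (by
        obtain ⟨γ, -, h2⟩ := hχ
        exact ⟨γ, Subgroup.mem_top γ, h2⟩)
      rwa [top_inf_eq, Subgroup.card_top] at h1
    have h3 : Nat.card (decK (H := H) D.S χ) * 2 ≤ Nat.card (Sg D) := by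
      rw [← E3.card_half (Sg D) χ hG hχ]
      refine Nat.mul_le_mul_right _ ?_
      exact Subgroup.card_le_of_le (le_inf hle0 hlek)
    calc Nat.card G = (Nat.card (decK (H := H) D.S χ) * 2) *
          (decK (H := H) D.S χ).relIndex χ.ker := by rw [← hker, ← hidx]; ring
      _ ≤ 2 ^ (Fintype.card (InfinitePlace F) + D.S.card - (D.r + 1)) *
          (decK (H := H) D.S χ).relIndex χ.ker := Nat.mul_le_mul_right _ (h3.trans h2)
  · push Not at hχ
    have hone : χ = 1 := by
      rcases ha with ha | ⟨h1, -⟩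
      · exfalso
        obtain ⟨w, hw, hw'⟩ := D.more
        obtain ⟨γ, h1, h2⟩ := ha w hw hw'
        exact h2 (hχ γ (mem_Sg hw h1))
      · exact h1
    subst hone
    have h4 : (1 : G →* ℂˣ).ker = ⊤ := MonoidHom.ker_one
    rw [h4] at hidx ⊢
    rw [Subgroup.card_top] at hidx
    have h5 : decK (H := H) D.S (1 : G →* ℂˣ) = Sg D := rfl
    rw [h5] at hidx ⊢
    calc Nat.card G = Nat.card (Sg D) * (Sg D).relIndex ⊤ := hidx.symm
      _ ≤ _ := Nat.mul_le_mul_right _ h2

open Classical in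
/-- completely split prime ideals are added to `S` -/
theorem exists_same (D : RubinData F H G) (V : Finset (HeightOneSpectrum (𝓞 F)))
    (hV : ∀ v ∈ V, v ∉ D.S ∧ D.σ v = 1) :
    ∃ D₁ : RubinData F H G, D₁.S = D.S ∪ V ∧ Sg D₁ = Sg D ∧ sc D₁ = sc D := by
  induction V using Finset.induction_on with
  | empty => exact ⟨D, by rw [Finset.union_empty], rfl, rfl⟩
  | insert q V hq ih =>
    obtain ⟨D₁, hD₁, h₁, h₂⟩ := ih fun v hv => hV v (Finset.mem_insert_of_mem hv)
    obtain ⟨hqS, hσ⟩ := hV q (Finset.mem_insert_self _ _)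
    have hq₁ : q ∉ D₁.S := by
      rw [hD₁, Finset.mem_union, not_or]
      exact ⟨hqS, hq⟩
    have hsub : D.S ⊆ D₁.S := by
      rw [hD₁]
      exact Finset.subset_union_left
    have hσ₁ : D₁.σ q = 1 := by rw [← sigma_eq hsub hq₁, hσ]
    obtain ⟨Q, hQ⟩ := (Pool.Agent.K3h25.RS.t_OVER F H q).1
    refine ⟨addSplit D₁ q hq₁ hσ₁ Q hQ, ?_, ?_, ?_⟩
    · ext v
      rw [mem_split_S, hD₁, Finset.mem_union, Finset.mem_union, Finset.mem_insert]
      tauto
    · rw [← h₁]
      exact decK_split D₁ hq₁ hσ₁ hQ 1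
    · rw [← h₂]
      change Fintype.card (InfinitePlace F) + (D₁.S.cons q hq₁).card - (D₁.r + 1) =
        Fintype.card (InfinitePlace F) + D₁.S.card - D₁.r
      rw [Finset.card_cons]
      omega

open Classical in
/-- **Rubin's conjecture** for all `S' ⊇ S` and all `T`, if `#Σ ≤ 2 ^ (#S - r)` -/
theorem rubin_bt (hall : All) (D : RubinData F H G) (hG : ∀ g : G, g * g = 1)
    (h : Nat.card (Sg D) ≤ 2 ^ sc D) (D' : RubinData F H G) (hD' : D.S ⊆ D'.S)
    (T : Finset (HeightOneSpectrum (𝓞 F)))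
    (hT : Disjoint D'.S T) (hfree : Free H ⊥ T) : RubinM ⊥ D' T := by
  by_cases h1 : 2 * Nat.card (Sg D) ≤ 2 ^ sc D
  · exact rubin_crit D hG (crit_of_card D hG h1) D' hD' T hT hfree
  · have hs : Nat.card (Sg D) = 2 ^ sc D := by
      obtain ⟨k, hk⟩ := card_sg D hG
      rw [hk] at h h1 ⊢
      have h2 : k ≤ sc D := (Nat.pow_le_pow_iff_right (by norm_num)).1 h
      congr 1
      by_contra hne
      apply h1
      rw [← pow_succ']
      exact Nat.pow_le_pow_right (by norm_num) (by omega)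
    obtain ⟨t, ht1, ht2, -, ht4⟩ := exists_frob D 1
      ((finite_small F (Module.finrank ℚ F + 1)).toFinset)
    obtain ⟨V, hV, hgen⟩ := exists_V' D ∅ {t}
    obtain ⟨D₁, hD₁, h₁, h₂⟩ := exists_same D V fun v hv => ⟨(hV v hv).1, (hV v hv).2.2.2⟩
    have ht₁ : t ∉ D₁.S := by
      rw [hD₁, Finset.mem_union, not_or]
      exact ⟨ht1, fun h => (hV t h).2.2.1 (Finset.mem_singleton_self t)⟩
    have hallow : D₁.Allowed {t} := by
      refine ⟨Finset.disjoint_singleton_right.2 ht₁, Or.inr ⟨t, Finset.mem_singleton_self t, ?_⟩⟩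
      rw [Set.Finite.mem_toFinset, Set.mem_ofPred_eq, not_le] at ht2
      exact ht2
    have hgen₁ : Generates H ⊥ (D₁.S : Set (HeightOneSpectrum (𝓞 F)))
        (({t} : Finset (HeightOneSpectrum (𝓞 F))) : Set (HeightOneSpectrum (𝓞 F))) := by
      refine hgen.mono ?_
      rw [hD₁]
      exact Finset.coe_subset.2 Finset.subset_union_right
    have hr : RubinM ⊥ D₁ {t} := by
      rw [rubinM_bot]
      refine all_core hall D₁ {t} hallow hG hgen₁ ?_
      rw [h₁, h₂, hs]
    refine all_ST D (T₀ := {t}) (Finset.disjoint_singleton_right.2 ht1) (free_single ht4) V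
      (fun v hv => ⟨(hV v hv).1, (hV v hv).2.2.1, (hV v hv).2.2.2⟩) ?_ D₁ hD₁ hr D' hD' T hT hfree
    rw [← hD₁]
    exact hgen₁

open Classical in
/-- **Popescu's conjecture** for all `S' ⊇ S`, if `#Σ ≤ 2 ^ (#S - r)` -/
theorem pop_bt (hall : All) (D : RubinData F H G) (hG : ∀ g : G, g * g = 1)
    (h : Nat.card (Sg D) ≤ 2 ^ sc D)
    (D' : RubinData F H G) (hD' : D.S ⊆ D'.S) : Popescu D' := by
  unfold Popescu
  rw [popescuWith_iff]
  refine pop_of_rubin D' ∅ fun t ht _ htw => ?_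
  exact rubin_bt hall D hG h D' hD' {t} (Finset.disjoint_singleton_right.2 ht) (free_single htw)

end

end Pool.Agent.BT9
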