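import Pool.Agent.H509.BT.Def
import Pool.Graph.R_pool_sql_team_seeded_3997aac3.Q68.MZ.LA
import Pool.Graph.R_pool_sql_team_seeded_3997aac3.Q285.MZ.LE
import Pool.Graph.R_pool_sql_team_seeded_3997aac3.Q182.MZ.LF

/-!
# Project BT: class field theory for quadratic characters, statements

`M / F` is Galois, `ψ` a character of its group, `art ψ : Dv F →+ Additive ℂˣ` is `v ↦ ψ (Frob_v)`
(`Q92/AR/Def.lean`).  For a number `N` and a prime ideal `v` an element `x` is near `1` at `v` if
`v (x - 1) ≥ v (N)`.  Library: `Pool.Agent.Q92.AR.recip` (Artin's reciprocity law), `all_NKer`,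
`Pool.Agent.Q111.EX.good : S_GOOD`, `Pool.Agent.Q38.EX.nrm : S_NRM`, `exists_quot`, `unram_of_inert`,
`split_of_inj`, `art_quot` (`Q111/EX`), `Pool.Agent.Q182.MZ.fixReal`, `apx`, `nm_prin`,
`Pool.Agent.Q84.AR.sgn : S_Sgn` (approximation with signs), `Pool/Agent/H509/Rec1.lean` (`recA`, `recB`,
`exists_conj`, `act_of_frob`, `act_of_inert`), `Pool/Agent/H509/Rec2.lean` (`eK`), `Rec3.lean`.
-/

set_option autoImplicit false
set_option linter.unusedSectionVars false
set_option linter.deprecated false

open NumberField IsDedekindDomain Filter Topology Module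

noncomputable section

namespace Pool.Agent.BT9

open Pool.Agent.Q92.AR (Dv prin Pr Ray nmD nu up sD puD Cong Pos frob IsFrobenius Unramified Ram art
  prin_mul prin_one prin_inv)
open Pool.Agent.Q20.EX (Inert CongAt)
open Pool.Agent.K3h30.RS
open Pool.Agent.K3h56.E2 (Quad Dict part InSF SplAt Over CA SU minus actK oddCard sgn)
open Pool.Agent.H509 (U1 Generates)
open Pool.Agent.Q5.MZ (LocN NonSplit PosRam VAData S_LA S_LB S_LC S_LD)

section
variable {F M : Type} [Field F] [NumberField F] [Field M] [NumberField M] [Algebra F M]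

/-- `ψ` is ramified at the prime ideal `v` -/
def RamAt (ψ : (M ≃ₐ[F] M) →* ℂˣ) (v : HeightOneSpectrum (𝓞 F)) : Prop :=
  ∃ (w : HeightOneSpectrum (𝓞 M)) (g : M ≃ₐ[F] M), w.under (𝓞 F) = v ∧ Inert w g ∧ ψ g ≠ 1

/-- `ψ` is ramified at the real place `φ` -/
def RamR (ψ : (M ≃ₐ[F] M) →* ℂˣ) (φ : F →+* ℝ) : Prop :=
  ∃ (ι : M →+* ℂ) (g : M ≃ₐ[F] M), (∀ x : F, ι (algebraMap F M x) = ((φ x : ℝ) : ℂ)) ∧
    (∀ x : M, ι (g x) = (starRingEnd ℂ) (ι x)) ∧ ψ g ≠ 1

end

/-- RECD. Artin's reciprocity law, conditions only at the places where `ψ` is ramified.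
Proof.  `L`, `θ'` from `Pool.Agent.Q111.EX.exists_quot ψ`: `θ'` is an injective character of `Gal(L/F)`
and `ψ` is `θ'` composed with the restriction.  If `ψ` is not ramified at `v`, then `v` is unramified in
`L` (`unram_of_inert`, see the proof of `recB` in `H509/Rec1.lean`) and `ψ (frob M v) = θ' (frob L v)`
(`chi_frob`, `Q225.AR.fr.1`, loc. cit.); so `art ψ d = art θ' d` if `d v = 0` for all `v` where `ψ` is
ramified.  If `ψ` is not ramified at the real place `φ`, then `φ` extends to a real place of `L` (loc.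
cit.).  Let `N1` be as in `recip` for `θ'` (a modulus, `Ram F L N1`), and for the finitely many primes
`v` dividing `N1` at which `ψ` is not ramified let `N_v` be from `good` (`S_GOOD`) for `L`, `θ'`, `v`.  Let
`N` be a common multiple of `N1`, all `N_v`, and a number `N0` with `Ram F M N0` (`Pool.Agent.Q280.AR.rF`).
Let `x` be as in the statement.  For the primes `v ∣ N` with `¬ RamAt ψ v` choose (approximation) `x_v`
totally positive, near `x` at `v` (`v (x / x_v - 1) ≥ v (N)`), near `1` at the other primes dividing `N`.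
`x' = x / ∏ x_v` is near `1` at all primes dividing `N` and positive at the ramified real places.
`art θ' (prin x_v) = 0` by `good` (if `v ∤ N1`, `x_v ∈ Ray N1`). By `fixReal` there is a `t ∈ Lˣ`,
`t ≡ 1 mod N`, with `x' nu t ∈ Ray F N`; `art θ' (prin (nu t)) = 0` by `all_NKer` and `nm_prin`.  So
`art θ' (prin x) = 0`, and `prin x v = 0` where `ψ` is ramified. -/
def S_RECD : Prop := ∀ (F M : Type) [Field F] [NumberField F] [Field M] [NumberField M] [Algebra F M]
  [IsGalois F M] (ψ : (M ≃ₐ[F] M) →* ℂˣ), ∃ N : ℕ, N ≠ 0 ∧ Ram F M N ∧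
  ∀ x : Fˣ, (∀ v, RamAt ψ v → v.valuation F ((x : F) - 1) ≤ v.valuation F (N : F)) →
    (∀ φ, RamR ψ φ → 0 < φ (x : F)) → art ψ (prin x) = 0

/-- LSR. The local component at a real place where `ψ` is ramified is not trivial.
Proof.  `N` may be replaced by a multiple; let `4 ∣ N`.  Let `C` be a number field which contains `M` and
`i = √-1`, Galois over `F` (e.g. `CyclotomicField 4 M`), `ψ_C`, `ε` the characters of `Gal(C/F)` given by
the restriction to `M` followed by `ψ` and by the action on `i`.  `art ψ_C = art ψ` on the divisors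
prime to a suitable number (`Pool.Agent.Q225.AR.fr`).  Complex conjugations have `ε = -1`.  Choose `x`,
near `1` modulo (a multiple of) `N`, negative at `φ` and positive at the other real places (`S_Sgn`).
(1) `art ε (prin x) ≠ 0`: for `v ∤ 2`, `frob v` maps `i` to `i ^ (N v)`, so `art ε d` is `(-1)^k` where `k`
is the number of factors `N v ≡ 3 mod 4`; `∏ (N v) ^ (v (x)) = |Norm_{F/ℚ} x|`, the norm is negative
(one negative factor, the complex places give positive factors) and `≡ 1 mod 4` (as `x ≡ 1 mod 4`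
at the primes dividing two; write `x = a / b` with `a, b` integral, prime to two).  (Or: use
`S_Nm`/base change to reduce to `ℚ`: `prin (norm x) = prin m`, `m = -norm x > 0`, `m ≡ 3 mod 4`.)
(2) `θ = ψ_C ε` is not ramified at `φ` (both factors are `-1` on the complex conjugations over `φ`, as
`ψ² = 1`), so `art θ (prin x) = 0` by `S_RECD` (take `N` a multiple of its number).
Hence `art ψ (prin x) ≠ 0`. -/
def S_LSR : Prop := S_RECD → ∀ (F M : Type) [Field F] [NumberField F] [Field M] [NumberField M]
  [Algebra F M] [IsGalois F M] (ψ : (M ≃ₐ[F] M) →* ℂˣ), (∀ g, ψ g * ψ g = 1) →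
  ∀ φ : F →+* ℝ, RamR ψ φ → ∀ N : ℕ, N ≠ 0 → ∃ x : Fˣ, Cong N (x : F) ∧ φ (x : F) < 0 ∧
    (∀ φ' : F →+* ℝ, φ' ≠ φ → 0 < φ' (x : F)) ∧ art ψ (prin x) ≠ 0

/-- NORF. Norms have trivial local symbols.
Proof.  `N` a multiple of the number from `recip` for `ψ`, with `Ram F K N`.  Let `y' ∈ Kˣ` be totally
positive, near `y` at the primes above `v` (very near: modulo `N ^ k`) and near `1` at the other primes
dividing `N` (approximation in `K`, `Pool.Agent.Q182.MZ.apx`).  Then `nu y' / nu y` is near `1` at `v` and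
`nu y'` is near `1` at the other primes dividing `N`, totally positive (`S_Nm`), so
`z / nu y' ∈ Ray F N` and `art ψ (prin z) = art ψ (prin (nu y'))`, `v(z) = v(nu y')`.  And
`prin (nu y') - v(..) v` is the norm of the part of `prin y'` prime to `v`, which is prime to `N`, so it is
killed (`all_NKer`, `nm_prin`; compare `Pool.Agent.Q182.MZ.locAll` in `Q182/MZ/LF.lean`). -/
def S_NORF : Prop := ∀ (F K : Type) [Field F] [NumberField F] [Field K] [NumberField K] [Algebra F K]
  [IsGalois F K] (ψ : (K ≃ₐ[F] K) →* ℂˣ), ∃ N : ℕ, N ≠ 0 ∧ Ram F K N ∧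
  ∀ (y : Kˣ) (v : HeightOneSpectrum (𝓞 F)) (z : Fˣ), (N : 𝓞 F) ∈ v.asIdeal → Pos (z : F) →
    CongAt {v}ᶜ N (z : F) →
    v.valuation F ((z : F) / (nu F K y : F) - 1) ≤ v.valuation F (N : F) →
    art ψ (prin z - Finsupp.single v (prin z v)) = 0

/-- BRI. The symbols `fr D d` and the Artin map: `eK F F H G` is the isomorphism of the group of
`H / F` with `G`.
Proof: both sides are additive in `d`, `d = single v k`, `v ∉ S`; `frob H v` and `σ v` are both Frobenius
elements at the unramified `v` (`Pool.Agent.Q125.AR.chi_frob`, `H509/Rec2.lean`: `eK_smul`, `H509/Rec3.lean`: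
`unr_of_squarefree` and the proofs there). -/
def S_BRI : Prop := ∀ (F H G : Type) [Field F] [NumberField F] [Field H] [NumberField H] [Algebra F H]
  [CommGroup G] [Finite G] [MulSemiringAction G H] [IsGaloisGroup G F H] (D : RubinData F H G)
  (ψ : G →* ℂˣ) (d : Dv F), (∀ v ∈ D.S, d v = 0) →
  art (ψ.comp (Pool.Agent.H509.Rec.eK F F H G)) d = Additive.ofMul (ψ (fr D d))

/-- BRK. The same for the quadratic field `K` which belongs to `χ`; `ψ` the injective character of the
group of `K / F`.
Proof: additivity; for `v ∉ S`, `frob K v` is the restriction of a Frobenius element of `H` (the lift of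
`σ v`), `ψ` has the values `1` and `-1` (at `τ`), `χ g = 1` iff `g` is trivial on `K` (`Dict`). -/
def S_BRK : Prop := ∀ (F H G K : Type) [Field F] [NumberField F] [Field H] [NumberField H]
  [Algebra F H] [CommGroup G] [Finite G] [MulSemiringAction G H] [IsGaloisGroup G F H] [Field K]
  [NumberField K] [Algebra F K] [Algebra K H] [IsGalois F K] (τ : K ≃ₐ[F] K) (χ : G →* ℂˣ),
  Dict F H G K τ χ → ∀ (D : RubinData F H G) (ψ : (K ≃ₐ[F] K) →* ℂˣ), Function.Injective ψ →
  ∀ d : Dv F, (∀ v ∈ D.S, d v = 0) → art ψ d = Additive.ofMul (χ (fr D d))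

/-- HN. The norm theorem of Hasse for quadratic extensions.
Proof.  Let `N0` be from `recip` for `ψ` (multiplied by a number with `Ram k E N0`), `N1, N2, A` from
`Pool.Agent.Q149.AR.va : S_VA` for `N0`.  Let `v ∣ N1` be `NonSplit`.  (a) `v` ramified in `E`: use the last
hypothesis with `N = N2`.  (b) `v` unramified: let `N` be a multiple of `N2` and of the number from
`Pool.Agent.Q111.EX.good` for `v`; choose `z` totally positive, `v (x / z - 1) ≥ v (N)`, near `1` (modulo
`N`) at the other primes dividing `N`.  `art ψ (prin z) = 0` by `good`, `prin z v = prin x v` is even and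
`ψ² = 1`, so `art ψ (prin z - v(z) v) = 0`.  By `S_LD`, `x = nu y * a`, `up a ∈ A`.  Then `a` is positive at
the real places which ramify in `E` (`x` and norms are, `S_Nm` (5)), `prin a` is zero at the `v ∣ N1`, even
at the inert `v ∤ N1`, so it is the norm of a divisor of `E` prime to `N1` (see the end of the proof of
`Pool.Agent.Q182.MZ.lf`), and `S_LA` gives `a = nu y'`. -/
def S_HN : Prop := S_LA → S_LD → ∀ (k E : Type) [Field k] [NumberField k] [Field E] [NumberField E]
  [Algebra k E] [IsGalois k E] (ψ : (E ≃ₐ[k] E) →* ℂˣ) (x : kˣ), finrank k E = 2 →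
  Function.Injective ψ → PosRam E x →
  (∀ v : HeightOneSpectrum (𝓞 k), Unramified E v → NonSplit E v → Even (prin x v)) →
  (∀ v : HeightOneSpectrum (𝓞 k), ¬ Unramified E v → ∀ N : ℕ, N ≠ 0 →
    ∃ z : kˣ, Pos (z : k) ∧ CongAt {v}ᶜ N (z : k) ∧
      v.valuation k ((x : k) / (z : k) - 1) ≤ v.valuation k (N : k) ∧
      art ψ (prin z - Finsupp.single v (prin z v)) = 0) →
  ∃ y : Eˣ, nu k E y = x

end Pool.Agent.BT9
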