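import Pool.Agent.H509.BT.Stm1

/-!
# Project BT: the local symbols with values in `G`, statements

`D : RubinData F H G`, `G` of exponent two.  `fr D d` is the product of the `σ_v ^ (d v)`, `v ∉ S`
(`BT/Def.lean`).  `Lam D` (`BT/Def.lean`) are the local norm symbols `L i : Fˣ →* G` at the places of
`S` which do not split completely.
-/

set_option autoImplicit false
set_option linter.unusedSectionVars false
set_option linter.deprecated false

open NumberField IsDedekindDomain Filter Topology Module

noncomputable section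

namespace Pool.Agent.BT9

open Pool.Agent.Q92.AR (Dv prin Pr Ray nmD nu up sD puD Cong Pos frob IsFrobenius Unramified Ram art
  prin_mul prin_one prin_inv)
open Pool.Agent.Q20.EX (Inert CongAt)
open Pool.Agent.K3h30.RS
open Pool.Agent.K3h56.E2 (Quad Dict part InSF SplAt Over CA SU minus actK oddCard sgn)
open Pool.Agent.H509 (U1 Generates)
open Pool.Agent.Q5.MZ (LocN NonSplit PosRam VAData S_LA S_LB S_LC S_LD)

/-- A modulus for all characters of `G`. -/
structure Mod {F H G : Type} [Field F] [NumberField F] [Field H] [NumberField H] [Algebra F H]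
    [CommGroup G] [Finite G] [MulSemiringAction G H] (D : RubinData F H G) (N : ℕ) : Prop where
  n0 : N ≠ 0
  ram : Ram F H N
  inS : ∀ v ∈ D.S, (N : 𝓞 F) ∈ v.asIdeal
  /-- reciprocity at a prime ideal `v`, for the characters which are trivial on its decomposition group -/
  recF : ∀ (ψ : G →* ℂˣ) (z : Fˣ) (v : HeightOneSpectrum (𝓞 F)), Pos (z : F) →
    CongAt {v}ᶜ N (z : F) → (∀ w : HeightOneSpectrum (𝓞 H), w.under (𝓞 F) = v →
      ∀ γ : G, Fixes (Sum.inr w : Place H) γ → ψ γ = 1) → ψ (fr D (prin z)) = 1
  /-- reciprocity at an unramified prime ideal, even valuation -/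
  recU : ∀ (z : Fˣ) (v : HeightOneSpectrum (𝓞 F)), Pos (z : F) → CongAt {v}ᶜ N (z : F) →
    Unramified H v → (v ∈ D.S → Even (prin z v)) → fr D (prin z) = 1
  /-- reciprocity at a real place -/
  recR : ∀ (ψ : G →* ℂˣ) (z : Fˣ) (φ : F →+* ℝ), Cong N (z : F) →
    (∀ φ' : F →+* ℝ, φ' ≠ φ → 0 < φ' (z : F)) → (∀ w : InfinitePlace H,
      InfinitePlace.mk ((algebraMap ℝ ℂ).comp φ) = w.comap (algebraMap F H) →
      ∀ γ : G, Fixes (Sum.inl w : Place H) γ → ψ γ = 1) → ψ (fr D (prin z)) = 1

/-- MOD. There is a modulus (and all its multiples are moduli).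
Proof.  `G` has finitely many characters; for `ψ : G →* ℂˣ` let `ψ' = ψ.comp (eK F F H G)`.  Let `N0` be
a multiple of the numbers from `S_RECD` for all `ψ'`, and of the residue characteristics of the
prime ideals in `D.S` (or of their absolute norms).  (recF): `ψ` is not ramified at `v` (inertia
elements fix a prime above `v`: `act_of_inert`, `H509/Rec3.lean`: `fixes_of_act`), `z` is near `1` at all
other primes dividing `N` and totally positive, so `art ψ' (prin z) = 0` by `S_RECD`.  If `v ∉ S`, then
`prin z` vanishes at `S` (near `1` there) and `S_BRI` gives the claim.  If `v ∈ S`, apply `S_BRI` to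
`d = prin z - v(z) v`: `art ψ' d = art ψ' (prin z) - v(z) ψ'(frob v) = 0`, since `frob H v` fixes a prime
above `v` (`act_of_frob`), and `fr D d = fr D (prin z)` (`fr_single_mem`).  (recU): all `ψ'` are
unramified at `v` (`inert_one` in `H509/Rec3.lean`), so `art ψ' (prin z) = 0` for all `ψ`; if `v ∈ S` then
`v(z)` is even and `ψ(..)^2 = 1`, so as before `ψ (fr D (prin z)) = 1` for all `ψ`, so
`fr D (prin z) = 1` (characters separate points:
`CommGroup.exists_apply_ne_one_of_hasEnoughRootsOfUnity G ℂ`).  (recR): `ψ'` is not ramified at `φ`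
(`fixes_of_conj`), `S_RECD`, `S_BRI`. -/
def S_MOD : Prop := ∀ (F H G : Type) [Field F] [NumberField F] [Field H] [NumberField H] [Algebra F H]
  [CommGroup G] [Finite G] [MulSemiringAction G H] [IsGaloisGroup G F H] (D : RubinData F H G),
  (∀ g : G, g * g = 1) → ∃ N0 : ℕ, N0 ≠ 0 ∧ ∀ N : ℕ, N ≠ 0 → N0 ∣ N → Mod D N

/-- SUR. The local symbols are not trivial.
Proof.  (1) `K`, `τ` from `Pool.Agent.K3h41.E2.t_DICT` for `ψ` (`ψ γ ≠ 1`, exponent two), `ψ_K` the
injective character of the group of `K / F` (`K / F` is Galois of degree two).  `v` is `NonSplit` in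
`K`: if `P, P'` are primes of `K` above `v` choose primes of `H` above them; they are conjugate under
`G` (`Pool.Agent.K3h25.RS.t_TRANS`), and if `P ≠ P'` the decomposition group would be contained in
`ker ψ` (an element of it with `ψ ≠ 1` acts as `τ` on `K` and interchanges `P` and `P'`; the
decomposition groups of the primes above `v` are equal, as `G` is commutative:
`Pool.Agent.H509.E3.fixes_conj`).  `S_LC` gives `z` with `art ψ_K (prin z - v(z) v) ≠ 0`;
`prin z - v(z) v` vanishes at `S` and `S_BRK` gives the claim (`fr D (single v k) = 1`).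
(2) `ψ' = ψ.comp (eK F F H G)` is ramified at `φ`: `w` is a complex place, `γ ≠ 1` fixes `w`, so it is
the complex conjugation for an embedding in `w` (there is an embedding `ι` in the class `w` with
`ι` real on `F`, equal to `φ` there; `Fixes` implies `InfinitePlace.mk (ι ∘ γ) = InfinitePlace.mk ι`, so
`ι ∘ γ = ι` or the complex conjugate of `ι`).  Then `S_LSR`, `S_BRI`. -/
def S_SUR : Prop := ∀ (F H G : Type) [Field F] [NumberField F] [Field H] [NumberField H] [Algebra F H]
  [CommGroup G] [Finite G] [MulSemiringAction G H] [IsGaloisGroup G F H] (D : RubinData F H G),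
  (∀ g : G, g * g = 1) → ∀ N : ℕ, Mod D N → ∀ (ψ : G →* ℂˣ) (γ : G), ψ γ ≠ 1 →
  (∀ w : HeightOneSpectrum (𝓞 H), w.under (𝓞 F) ∈ D.S → Fixes (Sum.inr w : Place H) γ →
    ∃ z : Fˣ, Pos (z : F) ∧ CongAt {w.under (𝓞 F)}ᶜ N (z : F) ∧ ψ (fr D (prin z)) ≠ 1) ∧
  (∀ (w : InfinitePlace H), Fixes (Sum.inl w : Place H) γ →
    ∃ φ : F →+* ℝ, InfinitePlace.mk ((algebraMap ℝ ℂ).comp φ) = w.comap (algebraMap F H) ∧
    ∃ z : Fˣ, Cong N (z : F) ∧ φ (z : F) < 0 ∧ (∀ φ' : F →+* ℝ, φ' ≠ φ → 0 < φ' (z : F)) ∧
      ψ (fr D (prin z)) ≠ 1)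

/-- NSY. Norms have trivial symbols.
Proof.  `ψ_K` the injective character of the group of `K / F`.  Let `N'` be a multiple of `N` and of the
number of `S_NORF` for `K`, `ψ_K`.  Choose `z'` totally positive, near `nu y` at `v` modulo `N'`, near `1`
modulo `N'` at the other primes dividing `N'`.  By `S_NORF` and `S_BRK` (`prin z' - v(z') v` vanishes at
`S`), `χ (fr D (prin z')) = 1`.  `z / z'` is totally positive and near `1` modulo `N` at all primes dividing
`N`; by `Mod.recU`-type reasoning (apply `Mod.recF` for a prime ideal `v` which does not divide `N` and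
splits completely in `H`, or `Mod.recU` with some unramified `v ∉ S`) `fr D (prin (z / z')) = 1`. -/
def S_NSY : Prop := ∀ (F H G K : Type) [Field F] [NumberField F] [Field H] [NumberField H]
  [Algebra F H] [CommGroup G] [Finite G] [MulSemiringAction G H] [IsGaloisGroup G F H] [Field K]
  [NumberField K] [Algebra F K] [Algebra K H] (τ : K ≃ₐ[F] K) (χ : G →* ℂˣ), Dict F H G K τ χ →
  ∀ (D : RubinData F H G), (∀ g : G, g * g = 1) → ∀ N : ℕ, Mod D N →
  ∀ (y : Kˣ) (v : HeightOneSpectrum (𝓞 F)) (z : Fˣ), v ∈ D.S → Pos (z : F) →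
    CongAt {v}ᶜ N (z : F) →
    v.valuation F ((z : F) / (nu F K y : F) - 1) ≤ v.valuation F (N : F) →
    χ (fr D (prin z)) = 1

/-- LAM. The local symbols exist.
Proof.  Let `N` be from `S_MOD`.
(0) If `z` is totally positive and near `1` at all primes dividing `N`, then `fr D (prin z) = 1`
(`Mod.recU` with a prime ideal not dividing `N`).
(1) `ι`: the places of `F` in `S` (infinite places, or prime ideals in `D.S`) over which no `D.w j`
lies; `u i` a place of `H` above (`Pool.Agent.K3h73.E2.t_PLACES`, `Pool.Agent.K3h25.RS.t_OVER`,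
`t_TRANS`; see `Pool/Agent/H509/Chi3.lean`, theorem `chi3`, for the counting: the number of the places of
`F` in `S` is `card (InfinitePlace F) + D.S.card`, and the `D.w j` lie over `r` different ones).
A complex place of `F` splits completely, so by `D.all` it is under some `D.w j`; the places in `ι` are
real places or prime ideals.
(2) For `i` a prime ideal `v ∈ S`: choose (`Pool.Agent.Q182.MZ.apx` or similar, `S_Sgn`) for `x ∈ Fˣ` an
`x_v` totally positive, `v (x / x_v - 1) ≥ v (N)`, near `1` at the other primes dividing `N`, and put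
`L i x = fr D (prin x_v)`.  By (0) this does not depend on the choice of `x_v` and is multiplicative.  For
`i` a real place `φ`: `x_φ` near `1` at all primes dividing `N`, positive at all real places other than `φ`,
with the sign of `x` at `φ`, `L i x = fr D (prin x_φ)`.
(3) `near`: take `x_i = 1`.  `unr`: `Mod.recU`.
(4) `dec`: the group `P` of the `γ` which fix `u i` is the intersection of the kernels of the
characters of `G` which are trivial on `P` (characters of `G / P`); by `Mod.recF`, `Mod.recR` (the
decomposition groups of the places over the same place of `F` are equal, `E3.fixes_conj`),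
`ψ (L i x) = 1` for these `ψ`.
(5) `prod`: define `x_v` for all primes `v` dividing `N` and `x_φ` for all real places `φ` as in (2).
`x / (∏ x_v ∏ x_φ)` is totally positive and near `1` at all primes dividing `N`, so by (0)
`fr D (prin x)` is the product of the `fr D (prin x_v)` and the `fr D (prin x_φ)`.  It is `1` if
`v ∉ S` (`Mod.recU`), and if `v` (or `φ`) is in `S` and splits completely (`Mod.recF`, `Mod.recR` for all
`ψ`).
(6) `norm`: for a prime ideal `S_NSY`.  For a real place `φ`: if `χ` is trivial on the decomposition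
group use `dec`.  Otherwise `φ` does not extend to a real place of `K`, so `φ (nu y) > 0`
(`S_Nm` (5), `Pool.Agent.Q106.AR.nm`) and one can take `x_φ = 1`.
(7) `approx`: the subgroup `L i (Fˣ)` of `P` is `P`: otherwise there is a character `ψ` of `G`, trivial on
it and not on `P`, and `S_SUR` gives a contradiction (the `z` there is a possible choice for `z_v`,
`z_φ`).  So there are `y_i` with `L i y_i = g i`; choose `x` near `y_i` at `i` (prime ideals: modulo `N`;
real places: same sign) and with `v (x) = n v` for `v ∈ R` (near `π_v ^ (n v)` at `v ∈ R`); then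
`L i x = L i y_i` by `near`. -/
def S_LAM : Prop := ∀ (F H G : Type) [Field F] [NumberField F] [Field H] [NumberField H] [Algebra F H]
  [CommGroup G] [Finite G] [MulSemiringAction G H] [IsGaloisGroup G F H] (D : RubinData F H G),
  (∀ g : G, g * g = 1) → Nonempty (Lam D)

/-- the exponent of `2` in `F` at the prime ideal `v` -/
def e2 {F : Type} [Field F] [NumberField F] (v : HeightOneSpectrum (𝓞 F)) : ℕ :=
  (prin (Units.mk0 (2 : F) two_ne_zero) v).toNat

open Classical in
/-- a bound for the order of `F_v^* / F_v^{*2}` (for `unramified` places: for the square of the order of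
the decomposition group) -/
def lb (F : Type) {H : Type} [Field F] [NumberField F] [Field H] [NumberField H] [Algebra F H] :
    Place H → ℕ
  | Sum.inl _ => 2
  | Sum.inr w => if Unramified H (w.under (𝓞 F)) then 4 else
      4 * Ideal.absNorm (w.under (𝓞 F)).asIdeal ^ e2 (w.under (𝓞 F))

/-- ISO. The Kummer group of `H / F` is isotropic for the sum of the Hilbert symbols; bound for the
order of the group generated by the decomposition groups.
Proof.  Let `ι₀` be the `i` with `u i` archimedean or ramified (`¬ Unramified H v`, `v` below), `ι₁` the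
other ones.  `P_i = {γ | Fixes (u i) γ}`, `Σ₀ = ⨆_{i ∈ ι₀} P_i`.
(1) For `i ∈ ι₀` let `Q_i ≤ Fˣ`: archimedean: the `x` which are positive at the real places `φ` under `u i`
(a place has at most one), index at most two, `x ∈ Q_i` is `Near`.  Ramified, `v` below: the group
`Pool.Agent.Q299.EX.Hv v 2 e he` (the `x` with `v (x / y² - 1) ≥ e` for some `y`), `e` large (larger than
`v (Λ.N)` and `2 v (2)`), of index at most `4 N(v) ^ (e2 v)` (`Pool.Agent.Q299.EX.index_Hv`, `n = 2`,
`ζ = -1`; `S_LOCN` is proved in `Q299/EX/Locn.lean`).  In both cases `L i x = 1` for `x ∈ Q_i`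
(`near`, `L i (y²) = 1`).  Let `Q = ⨅_{i ∈ ι₀} Q_i`; its index is at most `∏_{i ∈ ι₀} lb (u i)`.
(2) `λ : Fˣ → Σ₀`, `x ↦ ∏_{i ∈ ι₀} L i x`, is a surjective homomorphism (`approx` with `R = ∅`, `dec`), trivial
on `Q`.
(3) Let `X` be the group of the `x ∈ Fˣ` which are squares in `H`.  If `x ∈ X`, `x = h²`, and `v` is
unramified in `H`, then `v (x) = 2 w (h)` is even.  So `L i x = 1` for `i ∈ ι₁` (`unr`), and `fr D (prin x) = 1`
(exponent two), so `λ x = 1` by `prod`.
(4) If `x ∈ X ∩ Q`, `x = h²`, then `γ h = h` for all `γ ∈ P_i`, `i ∈ ι₀`: ramified: `x = y² z`, `z` near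
`1` at `v`, `h / y = s`, `s² = z`, let `w` be the prime of `u i`: `w (s - 1) + w (s + 1) = w (z - 1) > 2 w (2)`,
so one of `w (s ∓ 1) > w (2)`; if `γ s = -s` then, as `γ` preserves `w`, both are `> w (2)`, a contradiction to
`w (2) ≥ min`.  Archimedean: `x` is positive at the real places under `u i`; `γ ≠ 1` fixes `u i`, so it is
the complex conjugation for an embedding `ι'` of `H`, and `ι' (h)² = φ (x) > 0` so `ι' (h)` is real.
(5) Let `X' ≤ X` be the `x = h²` with `γ h = h` for all `γ ∈ Σ₀`.  `[X : X'] ≥ #Σ₀`: the map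
`Σ₀ → Hom (X / X', ±1)`, `γ ↦ (x ↦ γ h / h)` is injective since `H` is generated by square roots of
elements of `F` (`G` has exponent two: `G → Hom(Gˆ..)`; simplest: for every character `χ ≠ 1` of `G` the
quadratic field `K` of `Pool.Agent.K3h41.E2.t_DICT` is `F (√x)`, `x ∈ X`, and `γ √x = χ (γ) √x`); and for a
finite group `A` of exponent two `# Hom (A, ±1) ≤ # A`.
(6) So the image of `X` in `Fˣ / Q` has at least `[X : X'] ≥ #Σ₀` elements (`X ∩ Q ≤ X'`) and is in the
kernel of `Fˣ / Q → Σ₀`, of order `[Fˣ : Q] / #Σ₀`.  Hence `(#Σ₀)² ≤ [Fˣ : Q] ≤ ∏_{i ∈ ι₀} lb (u i)`.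
(7) For `i ∈ ι₁`, `#P_i ≤ 2`: the decomposition group at an unramified prime is generated by a Frobenius
element (it is isomorphic to the group of the residue field extension; library:
`Pool.Agent.Q238.MZ.Fr`, `Pool.Agent.Q92.AR.rd_injective`), exponent two.  `Sg D` is contained in
`Σ₀ ⊔ ⨆_{ι₁} P_i` (`all`, `D.splits`, `E3.fixes_conj`), so `#Sg D ≤ #Σ₀ 2 ^ #ι₁` (`E3.card_le_prod`), and
`lb (u i) = 4` for `i ∈ ι₁`. -/
def S_ISO : Prop := ∀ (F H G : Type) [Field F] [NumberField F] [Field H] [NumberField H] [Algebra F H]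
  [CommGroup G] [Finite G] [MulSemiringAction G H] [IsGaloisGroup G F H] (D : RubinData F H G),
  (∀ g : G, g * g = 1) → ∀ Λ : Lam D, Nat.card (Sg D) ^ 2 ≤ (letI := Λ.fin; ∏ i, lb F (Λ.u i))

/-- HNT. The norm theorem of Hasse for `K / F`, with the symbols `χ (Λ i x)`.
Proof.  Let `ψ` be the injective character of the group of `K / F`; apply `S_HN` (with `S_LA`, `S_LD`).
`PosRam`: let `φ` be a real place of `F` which does not extend to a real place of `K`, `w` a place of `H`
above: complex conjugation `c` at `w` is not trivial on `K`, `χ c ≠ 1`.  `w` is not conjugate to a `D.w j`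
(`D.splits`), so it is conjugate to some `u i`, and the decomposition group of `u i` is `{1, c}`.  Suppose
`φ (x) < 0` (it is not zero).  By `approx` there is an `x'` with `L i x' = c`; `φ (x') < 0` by `near`, so
`L i (x x') = 1`, `L i x = c`, a contradiction to `χ (L i x) = 1`.
Unramified in `K`, `NonSplit`: if `v ∉ S`, `v (x)` is even by assumption.  If `v ∈ S`: as `v` does not split in
`K`, a place of `H` above `v` is conjugate to some `u i`.  Let `N` be a multiple of `Λ.N` and of the number
of `Pool.Agent.Q111.EX.good` for `K`, `ψ`, `v`.  Choose `z` totally positive, near `x` at `v`, near `1` at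
the other primes dividing `N`.  `L j z = 1` for `j ≠ i` (`near`), `L i z = L i x` (`near`), so
`fr D (prin z) = L i x` by `prod` and `χ` of it is `1`; `prin z - v(z) v` vanishes at `S`, so
`art ψ (prin z - v(z) v) = 0` by `S_BRK`; `art ψ (prin z) = 0` by `good`.  So `v(z) ψ (frob v)` is trivial;
`ψ (frob K v) ≠ 1` (inert), so `v(x) = v(z)` is even.
Ramified in `K`: `v ∈ S` (`D.unramified`), a place above `v` is conjugate to some `u i`; for given `N`
choose `z` as before for a multiple of `N` and `Λ.N`; as before `art ψ (prin z - v(z) v) = 0`. -/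
def S_HNT : Prop := ∀ (F H G K : Type) [Field F] [NumberField F] [Field H] [NumberField H]
  [Algebra F H] [CommGroup G] [Finite G] [MulSemiringAction G H] [IsGaloisGroup G F H] [Field K]
  [NumberField K] [Algebra F K] [Algebra K H] (τ : K ≃ₐ[F] K) (χ : G →* ℂˣ), Dict F H G K τ χ →
  ∀ (D : RubinData F H G), (∀ g : G, g * g = 1) → ∀ (Λ : Lam D) (x : Fˣ),
  (∀ v, v ∉ D.S → Even (prin x v)) → (∀ i, χ (Λ.L i x) = 1) → ∃ y : Kˣ, nu F K y = x

end Pool.Agent.BT9
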