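import Pool.Agent.H509.BT.Stm2

/-!
# Project BT: the second part of the argument (Rédei type symbols), statements

`K = K_χ` quadratic over `F`, `x ∈ Fˣ` with even valuations outside `S`, `x = Norm β`, then
`(β) = 𝔞 𝔠^(1 - τ)` outside `S` with `(x) = 𝔞²` (`RepK D τ x β c`, `BT/Def.lean`), and the symbols
`ψ (fr D (N 𝔠))`, `ψ ∈ Perp D` (the characters which are trivial on the decomposition groups of `S`).
-/

set_option autoImplicit false
set_option linter.unusedSectionVars false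
set_option linter.deprecated false

open NumberField IsDedekindDomain Filter Topology Module

noncomputable section

namespace Pool.Agent.BT9

open Pool.Agent.Q92.AR (Dv prin Pr Ray nmD nu up sD puD Cong Pos frob IsFrobenius Unramified Ram art
  prin_mul prin_one prin_inv)
open Pool.Agent.Q20.EX (Inert CongAt)
open Pool.Agent.K3h30.RS
open Pool.Agent.K3h56.E2 (Quad Dict part InSF SplAt Over CA SU minus actK oddCard sgn)
open Pool.Agent.H509 (U1 Generates)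

/-- PF. The product formula for the unramified characters.
Proof: `fr D (prin y) = ∏ L i y` is in `Sg D` (`Λ.prod`, `Λ.dec`, `mem_Sg`, `Λ.ins`). -/
def S_PF : Prop := ∀ (F H G : Type) [Field F] [NumberField F] [Field H] [NumberField H] [Algebra F H]
  [CommGroup G] [Finite G] [MulSemiringAction G H] (D : RubinData F H G), Nonempty (Lam D) →
  ∀ ψ ∈ Perp D, ∀ y : Fˣ, ψ (fr D (prin y)) = 1

/-- CEX. The divisor `c` exists.
Proof.  For `w` not above `S` put `δ w = prin β w - prin x (w.under) / 2` (an integer).  `w.under` is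
unramified in `K` (`D.unramified`, `unr_of_squarefree` and tower), and the norm gives
`prin β w + prin β (τ w) = prin x (w.under)` (`up F K (nu F K β) = β * τ β`, `prin` of it at `w`, `w`
unramified over `F`; if `τ w = w` this says `2 prin β w = prin x (w.under)`), so `δ (τ w) = - δ w`.
`c w = max (δ w) 0` for `w` not above `S`, `c w = 0` otherwise, has `c w - c (τ w) = δ w`
(`sD τ c w = c (τ⁻¹ w)`, and `τ⁻¹ = τ`). -/
def S_CEX : Prop := ∀ (F H G K : Type) [Field F] [NumberField F] [Field H] [NumberField H]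
  [Algebra F H] [CommGroup G] [Finite G] [MulSemiringAction G H] [IsGaloisGroup G F H] [Field K]
  [NumberField K] [Algebra F K] [Algebra K H] (τ : K ≃ₐ[F] K) (χ : G →* ℂˣ), Dict F H G K τ χ →
  ∀ (D : RubinData F H G) (x : Fˣ) (β : Kˣ), nu F K β = x → (∀ v, v ∉ D.S → Even (prin x v)) →
  ∃ c : Dv K, RepK D τ x β c

/-- INVD. The norm of a `τ`-invariant divisor has even coefficients outside `S`.
Proof.  Let `v ∉ S`, it is unramified in `K`.  Inert: the coefficient is `2 d w` (`nmD_single`,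
`rdeg = 2`).  Split: `d w + d (τ w) = 2 d w`, `rdeg = 1`. -/
def S_INVD : Prop := ∀ (F H G K : Type) [Field F] [NumberField F] [Field H] [NumberField H]
  [Algebra F H] [CommGroup G] [Finite G] [MulSemiringAction G H] [IsGaloisGroup G F H] [Field K]
  [NumberField K] [Algebra F K] [Algebra K H] (τ : K ≃ₐ[F] K) (χ : G →* ℂˣ), Dict F H G K τ χ →
  ∀ (D : RubinData F H G) (d : Dv K), (∀ w : HeightOneSpectrum (𝓞 K),
    ¬ Above (D.S : Set (HeightOneSpectrum (𝓞 F))) w → sD τ d w = d w) →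
  (∀ v, v ∉ D.S → Even (nmD F K d v)) ∧ ((∀ g : G, g * g = 1) → fr D (nmD F K d) = 1)

/-- CWD. The symbol does not depend on the choices.
Proof.  `nu (β' / β) = 1`, so `β' / β = δ / τ δ` (Hilbert 90, `K / F` cyclic).  So
`d = c' - c - prin δ` satisfies `d w = d (τ w)` outside `S`: `2 (prin β' w - prin β w)` is
`2 (c' w - c' (τ w)) - 2 (c w - c (τ w))` and `2 (prin δ w - prin δ (τ w))`.  By `S_INVD`,
`fr D (nmD d) = 1`, and `nmD (prin δ) = prin (nu δ)` (`Pool.Agent.Q182.MZ.nm_prin`), `S_PF`. -/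
def S_CWD : Prop := ∀ (F H G K : Type) [Field F] [NumberField F] [Field H] [NumberField H]
  [Algebra F H] [CommGroup G] [Finite G] [MulSemiringAction G H] [IsGaloisGroup G F H] [Field K]
  [NumberField K] [Algebra F K] [Algebra K H] (τ : K ≃ₐ[F] K) (χ : G →* ℂˣ), Dict F H G K τ χ →
  ∀ (D : RubinData F H G), (∀ g : G, g * g = 1) → Nonempty (Lam D) →
  ∀ (x : Fˣ) (β β' : Kˣ) (c c' : Dv K), RepK D τ x β c → RepK D τ x β' c' →
  ∀ ψ ∈ Perp D, ψ (fr D (nmD F K c')) = ψ (fr D (nmD F K c))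

/-- CADD. The symbols are additive in `χ`.
Proof.  Work in `H` (or in the field `B = K₁ K₂ ⊆ H`); write `β₁, β₂` for the images in `H`.  Let
`t = Tr β₁ + Tr β₂ ∈ F` (traces of `K₁ / F`, `K₂ / F`), `β_i' = τ_i β_i`.  Identities (with
`β₁ β₁' = x = β₂ β₂'`):
(I1) `(β₁ + β₂) (β₁ + β₂') = β₁ t`, (I2) `(β₁ + β₂) (β₁' + β₂) = β₂ t`,
(I3) `(β₁' + β₂') (β₁' + β₂) = β₁' t`, (I4) `(β₁' + β₂') (β₁ + β₂') = β₂' t`.
If `β₁ + β₂ = 0`, then `β₁ = -β₂` is fixed by all of `G` (there is `g` with `χ₁ g = 1`, `χ₂ g = -1`, as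
`χ₁ ≠ χ₂`, `χ₂ ≠ 1`, ...; it fixes `β₁` and maps `β₂` to `β₂'`; similarly for `β₂`), so `β₁ ∈ F` and
`x = β₁²`, a contradiction to the assumption; in the same way `β₁ + β₂' ≠ 0`, so `t ≠ 0`, and all the
sums are `≠ 0`.  Put `β₃ = (β₁ + β₂) (β₁' + β₂') / t`.  It is fixed by all `g` with `χ₁ g = χ₂ g`, so it is in
`K₃`, and `β₃ β₃' = (β₁ + β₂) (β₁' + β₂') (β₁' + β₂) (β₁ + β₂') / t² = x` by (I1), (I3).
So `nu F K₃ β₃ = x`, and `S_CEX` gives `c₃`.
Claim: for all `v ∉ S` the integer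
`nmD c₁ v + nmD c₂ v + nmD c₃ v + a v + prin t v` is even.  Then `fr D` of the sum is `1` (exponent two)
and `S_PF` for `t` gives the statement (`ψ` has values `±1`).
Proof of the claim.  Fix a prime `P` of `H` above `v` and write `ν` for `prin · P` on `Hˣ`; `H / F` is
unramified at `v`, so `ν` restricts to `prin · v` on `Fˣ` and to `prin · w_i` on `K_iˣ`, `w_i` below `P`.
`a = a v`, `ν x = 2 a`, `m = ν t`.  Put `k_i = ν β_i - a`.  Then `nmD c_i v ≡ k_i (mod 2)`: if `w_i` is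
inert over `v`, `nmD c_i v = 2 c_i w_i` and `k_i = 0`; if it splits, `nmD c_i v = c_i w_i + c_i (τ w_i)`
and `k_i = c_i w_i - c_i (τ w_i)` (`RepK`).  So we have to show that `k₁ + k₂ + k₃ + a + m` is even, where
`k₃ = ν (β₁ + β₂) + ν (β₁' + β₂') - m - a`.  `ν β_i' = a - k_i`.
From (I1), (I2): `ν (β₁ + β₂) + ν (β₁ + β₂') = a + k₁ + m`, `ν (β₁ + β₂) + ν (β₁' + β₂) = a + k₂ + m`;
from (I3), (I4): `ν (β₁' + β₂') + ν (β₁' + β₂) = a - k₁ + m`, `ν (β₁' + β₂') + ν (β₁ + β₂') = a - k₂ + m`.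
Let `p = ν (β₁ + β₂)`, `p' = ν (β₁' + β₂')`.  The first and the fourth relation give
`p - p' = k₁ + k₂`.  So `k₃ = p + p' - m - a = 2 p - (k₁ + k₂) - m - a`, and
`k₁ + k₂ + k₃ + a + m = 2 p` is even.  (No case distinction is needed.) -/
def S_CADD : Prop := ∀ (F H G K₁ K₂ K₃ : Type) [Field F] [NumberField F] [Field H] [NumberField H]
  [Algebra F H] [CommGroup G] [Finite G] [MulSemiringAction G H] [IsGaloisGroup G F H] [Field K₁]
  [NumberField K₁] [Algebra F K₁] [Algebra K₁ H] [Field K₂] [NumberField K₂] [Algebra F K₂]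
  [Algebra K₂ H] [Field K₃] [NumberField K₃] [Algebra F K₃] [Algebra K₃ H] (τ₁ : K₁ ≃ₐ[F] K₁)
  (τ₂ : K₂ ≃ₐ[F] K₂) (τ₃ : K₃ ≃ₐ[F] K₃) (χ₁ χ₂ : G →* ℂˣ), Dict F H G K₁ τ₁ χ₁ →
  Dict F H G K₂ τ₂ χ₂ → Dict F H G K₃ τ₃ (χ₁ * χ₂) →
  ∀ (D : RubinData F H G), (∀ g : G, g * g = 1) → Nonempty (Lam D) →
  ∀ (x : Fˣ) (a : Dv F) (β₁ : K₁ˣ) (β₂ : K₂ˣ) (c₁ : Dv K₁) (c₂ : Dv K₂), (∀ y : Fˣ, y ^ 2 ≠ x) →
  (∀ v, v ∉ D.S → prin x v = 2 * a v) → RepK D τ₁ x β₁ c₁ → RepK D τ₂ x β₂ c₂ →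
  ∃ (β₃ : K₃ˣ) (c₃ : Dv K₃), RepK D τ₃ x β₃ c₃ ∧ ∀ ψ ∈ Perp D,
    ψ (fr D (nmD F K₃ c₃)) = ψ (fr D (nmD F K₁ c₁)) * ψ (fr D (nmD F K₂ c₂)) * ψ (fr D a)

/-- CHG. The characters of a quotient: `Perp D` separates the points of `G / Sg D`, and the number of
the characters of `G` which are trivial on a subgroup `P` is the index of `P`.
Proof: duality of finite abelian groups
(`CommGroup.exists_apply_ne_one_of_hasEnoughRootsOfUnity`,
`CommGroup.monoidHom_mulEquiv_of_hasEnoughRootsOfUnity` for `G ⧸ P`). -/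
def S_CHG : Prop := ∀ (G : Type) [CommGroup G] [Finite G] (P : Subgroup G),
  Nat.card {ψ : G →* ℂˣ // ∀ g ∈ P, ψ g = 1} = P.index ∧
  ∀ g : G, (∀ ψ : G →* ℂˣ, (∀ h ∈ P, ψ h = 1) → ψ g = 1) → g ∈ P

/-- EVX. Each `x` in the Selmer group is in an even number of the groups `W̃_χ`.
Proof.  Let `Λ : Lam D` and `X = {χ | ∀ i, χ (Λ.L i x) = 1}`, a subgroup of the group of all characters
of `G`.  Let `R ≤ G` be generated by the `Λ.L i x`.  The product of the `Λ.L i x` is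
`fr D (prin x) = 1` (`x` has even valuations outside `S`, exponent two), so `R` is generated by
`sc D - 1` elements (one of the `#ι = sc D ≥ 1` elements can be omitted; `Λ.card`, `D.more`, `Λ.all` give
`ι` nonempty) and `#R ≤ 2 ^ (sc D - 1)`.  `#X = #G / #R` (`S_CHG`).
If `x ∈ Wt D T q χ` then `χ ∈ X`: for `χ = 1` clear; for `χ ≠ 1`, `x = nu β`, use `Λ.norm`.
Let `#Sg D = 2 ^ sc D`, `#G = 2 ^ g 2 ^ sc D`, so `#X ≥ 2 ^ (g + 1)`, where `2 ^ g = [G : Sg D]` is the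
number of the elements of `Perp D` (a group; `S_CHG`).
(1) Let `x = y²`, `y ∈ Fˣ`.  Then `x ∈ Wt D T q χ` for all `χ`: `χ ≠ 1`: `β = y`, `c = 0`; `χ = 1`:
`a = prin y`, `S_PF`.  The number of all characters of `G` is `#G`, which is even (`sc D ≥ 1`).
(2) Let `x` be no square.  Let `a` be a divisor with `prin x v = 2 a v` for `v ∉ S` (`a v = 0` for
`v ∈ S`).  For `χ ∈ X`, `χ ≠ 1` there are `β, c` with `RepK D τ x β c`, `τ = (q χ _).τ` (`S_HNT`,
`S_CEX`); define `ρ χ : Perp D → {±1}`, `ρ χ ψ = ψ (fr D (nmD c)) * ψ (fr D a)`, and `ρ 1 = 1`.  It does not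
depend on `β, c` (`S_CWD`).  `ρ χ` is a homomorphism on the group `Perp D`, and
`ρ (χ χ') = ρ χ ρ χ'` for `χ, χ' ∈ X`: if `χ = 1` or `χ' = 1` clear; if `χ = χ'`, `χ χ = 1`, and
`(ρ χ)² = 1`; otherwise `S_CADD` (`ρ χ₃ = ρ χ₁ ρ χ₂`, as `ψ (fr D a)^2 = 1`) and `S_CWD`.  So
`ρ : X → Hom (Perp D, ℂˣ)` is a homomorphism into a group of order `2 ^ g`, its kernel has at least two
elements, and (a power of two) an even number.  For `χ ∈ X`:
`x ∈ Wt D T q χ` iff `ρ χ = θ`, `θ ψ = ψ (fr D a)`: for `χ ≠ 1` by definition and `S_CWD`; for `χ = 1`: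
`x ∈ Wt1 D T` iff `ψ (fr D a) = 1` for all `ψ ∈ Perp D` (`fr D a` depends only on `a` outside `S`).
So `{χ | x ∈ Wt D T q χ}` is empty or a coset of the kernel of `ρ`. -/
def S_EVX : Prop := ∀ (F H G : Type) [Field F] [NumberField F] [Field H] [NumberField H]
  [Algebra F H] [CommGroup G] [Finite G] [MulSemiringAction G H] [IsGaloisGroup G F H]
  (D : RubinData F H G), (∀ g : G, g * g = 1) → Nat.card (Sg D) = 2 ^ sc D →
  ∀ (T : Finset (HeightOneSpectrum (𝓞 F))) (q : ∀ χ : G →* ℂˣ, χ ≠ 1 → QF F H G χ),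
  ∀ x ∈ Sel D T, Even (Nat.card {χ : G →* ℂˣ // x ∈ Wt D T q χ})

end Pool.Agent.BT9
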