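import Pool.Agent.H509.BT.Stm3

/-!
# Project BT: class groups and units, statements

`DK / PK` is the quotient of the `(S, T)`-class group of `K` by the image of the one of `F`, `DF / PF`
the `(S, T)`-class group of `F` (`BT/Def.lean`).  For a subgroup `A ≤ B` the index is `A.relIndex B`.
-/

set_option autoImplicit false
set_option linter.unusedSectionVars false
set_option linter.deprecated false

open NumberField IsDedekindDomain Filter Topology Module

noncomputable section

namespace Pool.Agent.BT9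

open Pool.Agent.Q92.AR (Dv prin Pr Ray nmD nu up sD puD Cong Pos frob IsFrobenius Unramified Ram art
  prin_mul prin_one prin_inv)
open Pool.Agent.Q20.EX (Inert CongAt)
open Pool.Agent.K3h30.RS
open Pool.Agent.K3h56.E2 (Quad Dict part InSF SplAt Over CA SU minus actK oddCard sgn)
open Pool.Agent.H509 (U1 Generates)

/-! ## Class numbers -/

/-- TCLA. The cokernel of the map of the class groups.
Proof.  Let `U = SU K A0`, `U⁻ = U ⊓ minus τ`, `h_K = (CA A0).index = # Cl_S(K)`, `h_F = (CA D.S).index`.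
(1) `DK D ∅ K / PK D ∅ K` is the cokernel `C` of `Cl_S(F) → Cl_S(K)`: map a divisor `d` of `K` (zero
above `S`) to its class in `ClassGroup (𝓞 K) ⧸ CA A0` (`Pool.Agent.H509.Rec.clD` in `H509/Rec2.lean`,
`cl_prin`, `cl_ker`, `cl_CA`); the image of `PK` is the image of the classes of the divisors which come
from `F` (a divisor `e` of `F` as a function on the primes of `K`, unramified outside `S`).  `T1 K ∅` is
everything.
(2) The kernel of `Cl_S(F) → Cl_S(K)` is isomorphic to `U⁻ / U^{1-τ}`: for a class of `e`, `e = prin y`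
outside `S` (as divisors of `K`), map it to `y / τ y`.  It is in `U⁻`; it is well defined modulo
`U^{1-τ}`; injective (if `y / τ y = u / τ u` then `y / u ∈ F`); surjective: `z ∈ U⁻` has norm one,
`z = y / τ y` (Hilbert 90), the divisor of `y` is `τ`-invariant outside `S`, so it comes from `F` outside
`S` (unramified).
So `# C = h_K * [U⁻ : U^{1-τ}] / h_F = a`.  The library module `K3h92/E2/Cls.lean` (`t_CLS`, the
divisibility `h_F ∣ h_K [U⁻ : U^{1-τ}]`) contains most of this. -/
def S_TCLA : Prop := ∀ (F H G K : Type) [Field F] [NumberField F] [Field H] [NumberField H]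
  [Algebra F H] [CommGroup G] [Finite G] [MulSemiringAction G H] [IsGaloisGroup G F H] [Field K]
  [NumberField K] [Algebra F K] [Algebra K H] (τ : K ≃ₐ[F] K) (χ : G →* ℂˣ), Dict F H G K τ χ →
  ∀ (D : RubinData F H G) (A0 : Finset (HeightOneSpectrum (𝓞 K))), Over D.S A0 → ∀ a : ℕ,
  (CA (A0 : Set (HeightOneSpectrum (𝓞 K)))).index *
        ((SU K A0).map ((MonoidHom.id Kˣ) / actK τ)).relIndex (SU K A0 ⊓ minus τ) =
        (CA (D.S : Set (HeightOneSpectrum (𝓞 F)))).index * a →
  (PK D ∅ K).relIndex (DK D ∅ K) = a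

/-- TCLB. The effect of `T`.
Proof.  Let `R` be the group of the `y ∈ Kˣ` which are units at the primes above `T` (they map onto
`(𝓞 K / T)ˣ`), `V = (𝓞 K / T)ˣ` the product of the groups of the residue fields of the primes above `T`
(or `R / T1 K T`).
(1) `DK D T K / PK D T K → DK D ∅ K / PK D ∅ K` is surjective (a divisor can be changed by `prin y` to
be zero above `T`: approximation), and its kernel `Z` is the image of `R`: `y ↦ prin y` outside `S`
(if `d ∈ DK D T K` and `d = prin y + e` outside `S`, choose `f ∈ Fˣ` with `prin f = e` at the `v ∈ T`;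
then `y f` is a unit above `T`).  The kernel of `R → Z` is `T1 K T * R'`, where `R'` are the
`z ∈ R` whose divisor comes from `F` outside `S` (if `prin y = prin y' + e` outside `S`, `y' ∈ T1`,
`z = y / y'`).  So `#Z = [R : T1 R']`.
(2) `1 - τ : R → R`, `y ↦ y / τ y`: `[R : T1 R'] = [R^{1-τ} T1 : R'^{1-τ} T1]`, since `y / τ y ∈ T1`
implies `y ∈ T1 Fˣ ∩ R ≤ T1 R'` (`y` is modulo `w` in the residue field of `v`: at an inert `v` the
fixed points of the Frobenius automorphism, at a split `v`, `y` has the same residue at both primes).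
`R'^{1-τ}` is the group `E` of the `S`-units of `K` with norm one (Hilbert 90; adjust by `Fˣ` to be a unit
at `T`), which corresponds to `part (D.U ∅) χ` (`Pool.Agent.K3h3.E2.t_KH`), and `E ∩ T1` to
`part (D.U T) χ`; so `[R'^{1-τ} T1 : T1] = [part (D.U ∅) χ : part (D.U T) χ]`.
(3) `[R^{1-τ} T1 : T1] = ∏_{v ∈ T} (N v - sgn χ (σ_v))`: at an inert `v` (`sgn = -1`) the image of
`y ↦ y^{1 - q}` on the field of `q²` elements has `q + 1` elements, at a split `v` the image of
`(a, b) ↦ (a / b, b / a)` has `q - 1` elements; `sgn χ (σ_v)` decides (`Pool.Agent.K3h72.E2.t_FROB`, ...).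
So `#Z * [part (D.U ∅) χ : part (D.U T) χ] = ∏ (N v - sgn χ (σ_v))` and `#Z = b`.  The library module
`K3h57/E2/Tpart.lean` (`t_TPART`) contains computations of this kind. -/
def S_TCLB : Prop := ∀ (F H G K : Type) [Field F] [NumberField F] [Field H] [NumberField H]
  [Algebra F H] [CommGroup G] [Finite G] [MulSemiringAction G H] [IsGaloisGroup G F H] [Field K]
  [NumberField K] [Algebra F K] [Algebra K H] (τ : K ≃ₐ[F] K) (χ : G →* ℂˣ), Dict F H G K τ χ →
  ∀ (D : RubinData F H G) (T : Finset (HeightOneSpectrum (𝓞 F))), Disjoint D.S T → ∀ b : ℕ,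
  ((part (D.U T) χ).relIndex (part (D.U ∅) χ) : ℤ) * b =
        ∏ v ∈ T, ((Ideal.absNorm v.asIdeal : ℤ) - sgn χ (D.σ v)) →
  (PK D T K).relIndex (DK D T K) = (PK D ∅ K).relIndex (DK D ∅ K) * b

/-- TCLF. The same for `F`: the order of the `(S, T)`-class group.
Proof: as in `S_TCLA` (1) and `S_TCLB`, with `R` the units at `T` in `Fˣ`, `[R : FT T] = ∏ (N v - 1)`,
the kernel of `R → DF D T / PF D T` is `FT T` times the `S`-units, and
`part (D.U T) 1` is the group of the `S`-units of `F` in `FT T` (`Pool.Agent.K3h3.E2.t_KH1`). -/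
def S_TCLF : Prop := ∀ (F H G : Type) [Field F] [NumberField F] [Field H] [NumberField H]
  [Algebra F H] [CommGroup G] [Finite G] [MulSemiringAction G H] [IsGaloisGroup G F H]
  (D : RubinData F H G) (T : Finset (HeightOneSpectrum (𝓞 F))), Disjoint D.S T → ∀ b : ℕ,
  ((part (D.U T) (1 : G →* ℂˣ)).relIndex (part (D.U ∅) (1 : G →* ℂˣ)) : ℤ) * b =
        ∏ v ∈ T, ((Ideal.absNorm v.asIdeal : ℤ) - sgn (1 : G →* ℂˣ) (D.σ v)) →
  (PF D T).relIndex (DF D T) = (CA (D.S : Set (HeightOneSpectrum (𝓞 F)))).index * b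

/-- DK0. The index of `D0K`.
Proof.  The map `DK D T K → G ⧸ Sg D`, `d ↦ fr D (nmD F K d)`, has kernel `D0K` (`S_CHG`), and it is
surjective: as `χ` is not trivial on `Sg D`, every class of `G ⧸ Sg D` has a representative `g` with
`χ g = 1`.  `g` is an automorphism of `H / K`; by Chebotarev (`Pool.Agent.Q14.AR.cheb K H`, see
`H509/Rec2.lean`, `relIndex_dvd_index`) there is a prime `w` of `K`, not above `S ∪ T`, whose Frobenius
element is `g`; `fr D (nmD F K (single w 1)) = σ_v ^ (rdeg w) = g` (`v` below `w`; `σ_v ^ f` is the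
Frobenius element of `w` in `H / K`; `nmD_single`). -/
def S_DK0 : Prop := ∀ (F H G K : Type) [Field F] [NumberField F] [Field H] [NumberField H]
  [Algebra F H] [CommGroup G] [Finite G] [MulSemiringAction G H] [IsGaloisGroup G F H] [Field K]
  [NumberField K] [Algebra F K] [Algebra K H] (τ : K ≃ₐ[F] K) (χ : G →* ℂˣ), Dict F H G K τ χ →
  ∀ (D : RubinData F H G) (T : Finset (HeightOneSpectrum (𝓞 F))), (∃ g ∈ Sg D, χ g ≠ 1) →
  (D0K D T K).relIndex (DK D T K) = (Sg D).index

/-- DF0. The index of `D0F`.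
Proof: as for `S_DK0`, with `K = F`, `d ↦ fr D d`. -/
def S_DF0 : Prop := ∀ (F H G : Type) [Field F] [NumberField F] [Field H] [NumberField H]
  [Algebra F H] [CommGroup G] [Finite G] [MulSemiringAction G H] [IsGaloisGroup G F H]
  (D : RubinData F H G) (T : Finset (HeightOneSpectrum (𝓞 F))),
  (D0F D T).relIndex (DF D T) = (Sg D).index

/-- TADJ. `β` can be changed by `γ / τ γ` to be congruent to one modulo `T`.
Proof.  Let `v ∈ T`; `v` is unramified in `K`.  Inert, `w` above: `β` is a unit at `w` (its norm is one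
modulo `v`), its residue has norm one, so it is `ρ^q / ρ` for some element `ρ ≠ 0` of the field of `q²`
elements (Hilbert 90 for finite fields, or counting), and `τ` acts on the residue field by
`ρ ↦ ρ^q`; choose `γ` with residue `ρ` at `w`.  Split, `w ≠ τ w` above: choose `γ` near `β⁻¹` at `w`
(`w (γ β - 1) > 0`) and near `1` at `τ w`; then `β γ / τ γ` is near `1` at `w`, and at `τ w` it is
near `β τ(β)` by the action of `τ`, `= x`, near `1`.  Choose `γ` simultaneously for all `v ∈ T`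
(approximation in `K`, e.g. `Pool.Agent.Q182.MZ.apx`). -/
def S_TADJ : Prop := ∀ (F H G K : Type) [Field F] [NumberField F] [Field H] [NumberField H]
  [Algebra F H] [CommGroup G] [Finite G] [MulSemiringAction G H] [IsGaloisGroup G F H] [Field K]
  [NumberField K] [Algebra F K] [Algebra K H] (τ : K ≃ₐ[F] K) (χ : G →* ℂˣ), Dict F H G K τ χ →
  ∀ (D : RubinData F H G) (T : Finset (HeightOneSpectrum (𝓞 F))), Disjoint D.S T →
  ∀ β : Kˣ, nu F K β ∈ FT T → ∃ γ : Kˣ, β * (γ / actK τ γ) ∈ T1 K T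

/-- BK. `W̃_χ` and the class group.
Proof.  Let `C = D0K / PK` (a finite group, if `relIndex ≠ 0`).  `PK ≤ D0K`: if `d = prin y + e` outside
`S`, `fr D (nmD d)` is `fr D (prin (nu y))` (killed by `ψ ∈ Perp D`, `S_PF`) times `fr D` of the norm of
`e`, whose coefficients at the `v ∉ S` are `2 e v` (`S_INVD`).  For `d ∈ DK`, `d + τ d ∈ PK`
(`nmD d` as a divisor from `F`; it is zero above `S`, `T`).
(0) `WK ≤ WtK`: `c = 0`.
(1) Let `x ∈ WtK`, `β`, `c`.  By `S_TADJ` (`x ∈ FT T`) replace `β` by `β γ / τ γ ∈ T1 K T` and `c` by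
`c + prin γ`; `ψ (fr D (nmD (prin γ))) = 1` (`S_PF`).  Now `prin β w = 0` for `w` above `T`, and
`prin x v = 0` for `v ∈ T`, so `c w = c (τ w)` there.  Let `c'` be `c` outside `S ∪ T` and `0` above `S`
and `T`.  `RepK D τ x β c'` still holds, and `c - c'` is `τ`-invariant outside `S`, so
`ψ (fr D (nmD c')) = 1` (`S_INVD`); `c' ∈ D0K D T K`.  `c' - τ c' ∈ PK` (it is `prin β - 𝔞` outside `S`,
`𝔞 v = prin x v / 2`), so `2 c' ∈ PK`.  If the index is odd, `c' ∈ PK`: `c' = prin y + e` outside `S`,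
`y ∈ T1 K T`; then `β / (y / τ y) ∈ T1 K T` has norm `x` and its divisor is `𝔞` outside `S`.
So `x ∈ WK`.
(2) If the index is even and not zero there is (Cauchy) a `c ∈ D0K`, `c ∉ PK`, `2 c ∈ PK`.  Then
`c - τ c = 2 c - (c + τ c) ∈ PK`: `c - τ c = prin y + e` outside `S`, `y ∈ T1 K T`.  Put `β = y`,
`x = nu β`; taking norms, `0 = prin x v + 2 e v` for `v ∉ S` (unramified), so `x ∈ Sel D T`
(`x ∈ FT T`: the norm of an element `≡ 1`), `RepK D τ x β c`, and `x ∈ WtK`.  If `x ∈ WK`,
`x = nu β'`, `β' ∈ T1 K T`, `prin β' = e'` outside `S`, `2 e' v = prin x v = -2 e v` for `v ∉ S`.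
`β / β'` has norm one, `= γ / τ γ` (Hilbert 90), so `γ` and `c` have
`prin γ - τ prin γ = prin β + e = c - τ c` outside `S`, so `c - prin γ` is `τ`-invariant outside `S`
and comes from `F` there (unramified).  `γ / τ γ ∈ T1 K T`, so `γ ∈ Fˣ T1 K T` (as in `S_TCLB` (2)),
`c ∈ PK`, a contradiction. -/
def S_BK : Prop := ∀ (F H G K : Type) [Field F] [NumberField F] [Field H] [NumberField H]
  [Algebra F H] [CommGroup G] [Finite G] [MulSemiringAction G H] [IsGaloisGroup G F H] [Field K]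
  [NumberField K] [Algebra F K] [Algebra K H] (τ : K ≃ₐ[F] K) (χ : G →* ℂˣ), Dict F H G K τ χ →
  ∀ (D : RubinData F H G) (T : Finset (HeightOneSpectrum (𝓞 F))), Disjoint D.S T →
  (∀ g : G, g * g = 1) → Nonempty (Lam D) →
  PK D T K ≤ D0K D T K ∧ WK D T K ≤ WtK D T τ ∧
  (Odd ((PK D T K).relIndex (D0K D T K)) → WtK D T τ ≤ WK D T K) ∧
  (Even ((PK D T K).relIndex (D0K D T K)) → (PK D T K).relIndex (D0K D T K) ≠ 0 →
    ∃ x ∈ WtK D T τ, x ∉ WK D T K)

/-- BF. The same for `χ = 1`.
Proof.  `PF ≤ D0F` by `S_PF`.  (1) `x ∈ Wt1`, `prin x = 2 a` outside `S`; `a' = a` outside `S ∪ T`, `0`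
else, (`prin x v = 0` for `v ∈ T`), `a' ∈ D0F`, `2 a' ∈ PF` (`x ∈ FT T`), so `a' ∈ PF` if the index is
odd.  (2) `a ∈ D0F`, `a ∉ PF`, `2 a ∈ PF`, `2 a = prin x` outside `S`, `x ∈ FT T`: `x ∈ Wt1`, and
`x ∈ W1` would give `a = prin y` outside `S`. -/
def S_BF : Prop := ∀ (F H G : Type) [Field F] [NumberField F] [Field H] [NumberField H]
  [Algebra F H] [CommGroup G] [Finite G] [MulSemiringAction G H] [IsGaloisGroup G F H]
  (D : RubinData F H G) (T : Finset (HeightOneSpectrum (𝓞 F))), Disjoint D.S T →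
  (∀ g : G, g * g = 1) → Nonempty (Lam D) →
  PF D T ≤ D0F D T ∧ W1 D T ≤ Wt1 D T ∧
  (Odd ((PF D T).relIndex (D0F D T)) → Wt1 D T ≤ W1 D T) ∧
  (Even ((PF D T).relIndex (D0F D T)) → (PF D T).relIndex (D0F D T) ≠ 0 →
    ∃ x ∈ Wt1 D T, x ∉ W1 D T)

/-! ## Units -/

/-- WU. `W_χ` in terms of the `χ`-part of `U_{S,T}`.
Proof.  (tf) `D.U T` has no torsion and `-1 ∉ T1 H T` (`D.Allowed T`: `Pool.Agent.K3h60.E2`
(`t_BASIS`) contains a proof; `T` contains a prime not dividing two).
(1) `WK = Wu χ`.  `≤`: `x = nu β`, `β ∈ T1 K T`, divisor from `F` outside `S`.  Let `b` be the image of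
`τ β` in `H`, `u` the image of `β / τ β`: `u b² = β τ β = x`; `u` is a unit outside `S` (a divisor from
`F` is `τ`-invariant), `≡ 1` above `T`, and `g u = u^{±1}` by `Dict`.  `≥`: `x = u b²`.  If `χ g = 1`
then `g (b²) = b²`, `g b = ± b`, and `g b / b ≡ 1` above `T`, so `g b = b`.  So `b` comes from `K`
(`Dict.fix`).  If `χ g ≠ 1` then `g (b²) = x u`, `(b · g b)² = x²`, `b · g b = ± x`, and again (both
`≡ 1` above `T`) the sign is `+`.  So `b` comes from a `β ∈ T1 K T` with norm `x`, and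
`2 prin b w = prin x` outside `S` gives that the divisor of `β` comes from `F` outside `S`.
(2) `W1 = Wu 1`: similar, `u` and `b` come from `F`.
(3) The last three claims: the map `Wu χ → part (D.U T) χ / squares`, `x ↦ u`, is well defined: `u b² = u' b'²`,
`(b / b')² = u' / u`, so `v = b / b'` is in `D.U T` and in the `χ`-part (`g v = ± v^{±1}`, and the sign is
`+`); its kernel is `Sq T`: `u = v²`, `v` in the `χ`-part, `x = (v b)²`, `g (v b) = ± v b`, so `v b`
comes from `F`, from `FT T`.  It is surjective: `χ = 1`: `u` comes from `F`, `x = u`, `b = 1`.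
`χ ≠ 1`: `u` comes from `K` and has norm one, `u = β / τ β` (Hilbert 90), adjust `β` by an element of
`Fˣ` such that `β ∈ T1 K T` (as in `S_TCLB` (2)); the divisor of `β` is `τ`-invariant outside `S`, so it
comes from `F`; `x = nu β`, `b = τ β`; `x ∈ Sel D T`. -/
def S_WU : Prop := ∀ (F H G K : Type) [Field F] [NumberField F] [Field H] [NumberField H]
  [Algebra F H] [CommGroup G] [Finite G] [MulSemiringAction G H] [IsGaloisGroup G F H] [Field K]
  [NumberField K] [Algebra F K] [Algebra K H] (τ : K ≃ₐ[F] K) (χ : G →* ℂˣ), Dict F H G K τ χ →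
  ∀ (D : RubinData F H G) (T : Finset (HeightOneSpectrum (𝓞 F))), D.Allowed T →
  WK D T K = Wu D T χ ∧ Sq T ≤ Wu D T χ ∧
  (∀ u ∈ part (D.U T) χ, ∃ x ∈ Sel D T, ∃ b ∈ T1 H T, up F H x = u * b ^ 2) ∧
  (∀ (x : Fˣ), ∀ u ∈ part (D.U T) χ, ∀ b ∈ T1 H T, up F H x = u * b ^ 2 →
    (x ∈ Sq T ↔ u ∈ (part (D.U T) χ).map (powMonoidHom 2))) ∧
  (Sq T).relIndex (Wu D T χ) = ((part (D.U T) χ).map (powMonoidHom 2)).relIndex (part (D.U T) χ)

/-- WU1. The same for `χ = 1`; proof see `S_WU`. -/
def S_WU1 : Prop := ∀ (F H G : Type) [Field F] [NumberField F] [Field H] [NumberField H]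
  [Algebra F H] [CommGroup G] [Finite G] [MulSemiringAction G H] [IsGaloisGroup G F H]
  (D : RubinData F H G) (T : Finset (HeightOneSpectrum (𝓞 F))), D.Allowed T →
  W1 D T = Wu D T (1 : G →* ℂˣ) ∧ Sq T ≤ Wu D T (1 : G →* ℂˣ) ∧
  (∀ u ∈ part (D.U T) (1 : G →* ℂˣ), ∃ x ∈ Sel D T, ∃ b ∈ T1 H T, up F H x = u * b ^ 2) ∧
  (∀ (x : Fˣ), ∀ u ∈ part (D.U T) (1 : G →* ℂˣ), ∀ b ∈ T1 H T, up F H x = u * b ^ 2 →
    (x ∈ Sq T ↔ u ∈ (part (D.U T) (1 : G →* ℂˣ)).map (powMonoidHom 2))) ∧
  (Sq T).relIndex (Wu D T (1 : G →* ℂˣ)) =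
    ((part (D.U T) (1 : G →* ℂˣ)).map (powMonoidHom 2)).relIndex (part (D.U T) (1 : G →* ℂˣ))

/-- PHI. If the `(S, T)`-class group of `H` is trivial, a functional on `U_{S,T}` gives a functional
modulo two on the Selmer group; finiteness.
Proof.  (1) Let `x ∈ Sel D T`.  There is `b ∈ T1 H T` with `2 prin b w = prin x (w.under)` for all `w` not
above `S`: `b` is a product of powers of the elements given by `Generates` (`n = 1`, as `M = ⊥`) for
the `w` with `prin x (w.under) ≠ 0` (finitely many; not above `S ∪ T`).  `u = x / b² ∈ D.U T`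
(`prin (up F H x) w = prin x (w.under)`, unramified outside `S`).  Choose `b` for each `x` and put
`Φ x = f u (mod 2)`.  For another `b'`, `b / b' ∈ D.U T`, so `f (x / b'²) = f (x / b²) + 2 f (b / b')`.
So `Φ` does not depend on `b`, and it is additive.
(2) `(Sq T).relIndex (Sel D T) ≠ 0`: the map `Sel D T → D.U T / squares`, `x ↦ x / b²`, is a
homomorphism into a finite group (`D.U T` is finitely generated: see `Pool.Agent.K3h60.E2`,
`Pool.Agent.K3h4.E2.t_FUND`), and its kernel consists of the `x` which are squares in `H` of elements of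
`T1 H T`: `x = b²`; by (tf) in `S_WU`, `g b = ± b` implies `g b = b`, so `b` comes from `F` and
`x ∈ Sq T`. -/
def S_PHI : Prop := ∀ (F H G : Type) [Field F] [NumberField F] [Field H] [NumberField H]
  [Algebra F H] [CommGroup G] [Finite G] [MulSemiringAction G H] [IsGaloisGroup G F H]
  (D : RubinData F H G) (T : Finset (HeightOneSpectrum (𝓞 F))), D.Allowed T →
  Generates H ⊥ (D.S : Set (HeightOneSpectrum (𝓞 F))) (T : Set (HeightOneSpectrum (𝓞 F))) →
  (Sq T).relIndex (Sel D T) ≠ 0 ∧ ∀ f : Additive (D.U T) →+ ℤ,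
    ∃ Φ : Additive (Sel D T) →+ ZMod 2, ∀ (x : Fˣ) (hx : x ∈ Sel D T) (u : Hˣ), u ∈ D.U T →
      ∀ b ∈ T1 H T, up F H x = u * b ^ 2 → Φ (Additive.ofMul ⟨x, hx⟩) = ((ev f u : ℤ) : ZMod 2)

/-- RKA. The rank of the `χ`-part of `U_{S,T}`.
Proof.  `part (D.U ∅) χ` has squares of index `2 ^ (k + 1)`: for `χ ≠ 1`, `k` is the number of the places
of `F` in `S` which split in `K` (`Pool.Agent.K3h17.E2.t_RANK`, `K3h3.E2.t_KH`, `K3h50.E2.t_COUNT`;
exactly as in `Pool/Agent/H509/Chi3.lean`, `chi3`, the computation of `hsq`, where `k = D.r` because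
`χ` is active; for inactive `χ` one has `k > D.r`, `Chi4.lean`, `chi0`); for `χ = 1`,
`k = #S - 1` (`t_RANK1`, `t_KH1`, `Chi4.lean`, `one3`), `k = D.r` iff `1` is active.
`Pool.Agent.K3h60.E2.t_BASIS` for `k` gives `x : Fin k → Hˣ` with `closure (range x) = part (D.U T) χ`,
and `part (D.U T) χ` has finite index in `part (D.U ∅) χ`.  So `V = part (D.U T) χ` is generated by `k`
elements and torsion free (`D.Allowed T`), and a subgroup of finite index in `W = part (D.U ∅) χ`,
`[W : W²] = 2 ^ (k + 1)`, where the torsion elements of order two of `W` are `± 1`.  Hence `V` is free of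
rank `k`, `[V : V²] = 2 ^ k`.  (`V` is free of some rank `j ≤ k`; `W / W²` has order `2 ^ (j + 1)`, as
`W` is finitely generated of rank `j` with cyclic torsion group of even order; or: `[W : V] [V : V²] =
[W : W²] [W² : V²]` and `[W² : V²] = [W : V] / #(W[2] ) ...` as `V ∩ W[2] = 1`:
`[W² : V²] = [W : V W[2]] = [W : V] / 2`.) -/
def S_RKA : Prop := ∀ (F H G : Type) [Field F] [NumberField F] [Field H] [NumberField H]
  [Algebra F H] [CommGroup G] [Finite G] [MulSemiringAction G H] [IsGaloisGroup G F H]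
  (D : RubinData F H G) (T : Finset (HeightOneSpectrum (𝓞 F))), D.Allowed T →
  (∀ g : G, g * g = 1) → ∀ χ : G →* ℂˣ,
  (D.Active χ → ((part (D.U T) χ).map (powMonoidHom 2)).relIndex (part (D.U T) χ) = 2 ^ D.r) ∧
  (¬ D.Active χ → ∃ k, D.r < k ∧
    ((part (D.U T) χ).map (powMonoidHom 2)).relIndex (part (D.U T) χ) = 2 ^ k)

/-! ## Algebra -/

/-- DETA. A determinant modulo two.
Proof: `V / V²` is a vector space over `ZMod 2` with basis the classes of the `x b` (they generate it
and it has `2 ^ r` elements); the functionals modulo two are linear on it with matrix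
`M = (φ a (x b))`; the intersection of their kernels is zero iff `M` is injective iff
`det M ≠ 0` in `ZMod 2`. -/
def S_DETA : Prop := ∀ (A : Type) [CommGroup A] (V : Subgroup A) (r : ℕ) (x : Fin r → A)
  (hx : Subgroup.closure (Set.range x) = V),
  (V.map (powMonoidHom 2)).relIndex V = 2 ^ r → ∀ φ : Fin r → (Additive V →+ ℤ),
  ((∀ (u : A) (hu : u ∈ V), (∀ a, Even (φ a (Additive.ofMul ⟨u, hu⟩))) →
      u ∈ V.map (powMonoidHom 2)) ↔
    Odd (Matrix.det (Matrix.of fun a b : Fin r => φ a (Additive.ofMul ⟨x b, by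
      rw [← hx]; exact Subgroup.subset_closure ⟨b, rfl⟩⟩))))

/-- CNT. The final count.
Proof.  Work in the finite group `S' / Q'`, an elementary abelian 2-group, let `W̄ c` be the images of
the `W c`.  `∑_c #(W̄ c) = ∑_{x̄} #{c | x̄ ∈ W̄ c}` (`x̄` runs through `S' / Q'`; as `Q' ≤ W c`,
`x̄ ∈ W̄ c` iff `x ∈ W c`) is even.  `#(W̄ c)` is a power of two, odd iff `W̄ c` is trivial, i.e.
`W c = Q'`.  So the number of these `c` is even. -/
def S_CNT : Prop := ∀ (A : Type) [CommGroup A] (Q' S' : Subgroup A) (C : Type) [Finite C]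
  (W : C → Subgroup A), Q'.relIndex S' ≠ 0 → (∀ x ∈ S', x * x ∈ Q') →
  (∀ c, Q' ≤ W c ∧ W c ≤ S') → (∀ x ∈ S', Even (Nat.card {c // x ∈ W c})) →
  Even (Nat.card {c // W c = Q'})

/-- ASM3. Rubin's conjecture from the statements for the characters, with a parity condition.
Proof: copy the proof of the library theorem `Pool.Agent.K3h55.E2.t_ASM2`
(`Pool/Graph/R_pool_sql_team_seeded_5cf16337/K3h55/E2/Asm2.lean`), with coefficients
`κ χ = ε χ * n χ / (2 * #G ^ r)`.  The summands of the element are integral up to a factor two: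
for given `ψ : Fin D.r → GHom G (D.U T)` the value of the summand of `χ` is
`ε χ (n χ) (det mm_χ) / 2 • NN χ`, `mm_χ a b = ((ψ a).f (x χ b)).coeff 1`, and the coefficient of
`g` in the sum is `(1/2) ∑_χ ± n χ det mm_χ`, the sum over the active characters, which is an integer:
the number of the odd summands is even, by the last hypothesis for
`f a = (coefficient of 1) ∘ (ψ a).f`. -/
def S_ASM3 : Prop := ∀ (F H G : Type) [Field F] [NumberField F] [Field H] [NumberField H]
  [Algebra F H] [CommGroup G] [Finite G] [MulSemiringAction G H] [IsGaloisGroup G F H]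
  (D : RubinData F H G) (T : Finset (HeightOneSpectrum (𝓞 F))), D.Allowed T →
  (∀ g : G, g * g = 1) →
  (∀ χ : G →* ℂˣ, ¬ D.Active χ → Tendsto (fun s : ℂ => (s ^ D.r)⁻¹ * D.L χ s) (𝓝[≠] 0) (𝓝 0)) →
  ∀ (x : (G →* ℂˣ) → Fin D.r → Hˣ) (q : (G →* ℂˣ) → ℝ) (n : (G →* ℂˣ) → ℤ),
  (∀ χ : G →* ℂˣ, D.Active χ →
    Subgroup.closure (Set.range (x χ)) = part (D.U T) χ ∧
    Tendsto (fun s : ℂ => (s ^ D.r)⁻¹ * D.L χ s) (𝓝[≠] 0) (𝓝 (q χ : ℂ)) ∧
    2 * (q χ * ∏ v ∈ T, ((Ideal.absNorm v.asIdeal : ℝ) - (sgn χ (D.σ v) : ℝ))) =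
      n χ * (Nat.card G : ℝ) * Matrix.det (Matrix.of fun a b : Fin D.r =>
        Real.log (av (D.w a) ((x χ b : Hˣ) : H)))) →
  (∀ f : Fin D.r → (Additive (D.U T) →+ ℤ),
    Even (Nat.card {χ : G →* ℂˣ // D.Active χ ∧
      Odd (n χ * Matrix.det (Matrix.of fun a b : Fin D.r => ev (f a) (x χ b)))})) →
  D.Rubin T

end Pool.Agent.BT9
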