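import Pool.Agent.H509.BT.Stm4

/-!
# Project BT: the condition on the primes above two, statements
-/

set_option autoImplicit false
set_option linter.unusedSectionVars false
set_option linter.deprecated false

open NumberField IsDedekindDomain Filter Topology Module

noncomputable section

namespace Pool.Agent.BT9

open Pool.Agent.Q92.AR (Dv prin Pr Ray nmD nu up sD puD Cong Pos frob IsFrobenius Unramified Ram art
  prin_mul prin_one prin_inv)
open Pool.Agent.K3h30.RS

/-- The degree of `F_v` over `ℚ_2`, for a prime ideal `v` of `F` over two. -/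
def deg2 {F : Type} [Field F] [NumberField F] (v : HeightOneSpectrum (𝓞 F)) : ℕ :=
  Ideal.ramificationIdx' (Ideal.span {(2 : ℤ)}) v.asIdeal *
    Ideal.inertiaDeg' (Ideal.span {(2 : ℤ)}) v.asIdeal

/-- The real places of `F` which become complex in `H`. -/
def RC (F H : Type) [Field F] [NumberField F] [Field H] [NumberField H] [Algebra F H] : Type :=
  {v : InfinitePlace F // v.IsReal ∧
    ∀ w : InfinitePlace H, w.comap (algebraMap F H) = v → w.IsComplex}

/-- N2. `N v ^ (v (2)) = 2 ^ [F_v : ℚ_2]`.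
Proof: `Ideal.absNorm v.asIdeal = 2 ^ f` (`Ideal.absNorm_eq_pow_inertiaDeg'...`), and
`e2 v = prin 2 v = e` (`HeightOneSpectrum.valuation_liesOver` for `ℤ`, or
`Ideal.ramificationIdx'` as the multiplicity of `v.asIdeal` in `(2)`;
`Pool.Agent.Q125.AR.valuation_eq_exp : v.valuation F x = exp (-(prin x v))`). -/
def S_N2 : Prop := ∀ (F : Type) [Field F] [NumberField F] (v : HeightOneSpectrum (𝓞 F)),
  (2 : 𝓞 F) ∈ v.asIdeal → Ideal.absNorm v.asIdeal ^ e2 v = 2 ^ deg2 v

/-- TOT. The sum of the local degrees.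
Proof: the sum over all primes over two is `[F : ℚ]` (`Ideal.sum_ramification_inertia` for `ℤ`, `𝓞 F`,
`p = (2)`), which is the number of the infinite places if `F` is totally real. -/
def S_TOT : Prop := ∀ (F H : Type) [Field F] [NumberField F] [Field H] [NumberField H] [Algebra F H],
  (∀ v : InfinitePlace F, v.IsReal) → (∀ w : InfinitePlace H, w.IsComplex) →
  ∀ W : Finset (HeightOneSpectrum (𝓞 F)), (∀ v ∈ W, (2 : 𝓞 F) ∈ v.asIdeal) →
  ∑ v ∈ W, deg2 v ≤ Nat.card (RC F H)

/-- WILD. The bound for the decomposition groups.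
Proof.  Let `I∞`, `If` be the sets of the `i : Λ.ι` with `u i = inl _`, `u i = inr _`.  By `S_ISO`,
`#(Sg D)^2 ≤ ∏ lb (u i) ≤ 2 ^ #I∞ * 4 ^ #If * P`, `P = ∏ N v ^ (e2 v)` over the `v` below the `u i`,
`i ∈ If`, which are ramified in `H` (`¬ Unramified H v` implies `¬ Squarefree ..`:
`Pool.Agent.H509.Rec.unr_of_squarefree`); different `i` have different `v` (if `u i`, `u i'` are over the
same prime they are conjugate, `Pool.Agent.K3h25.RS.t_TRANS`, `Λ.inj`), and `e2 v = 0` unless `2 ∈ v`.  So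
`P ≤ ∏_{v ∈ W} N v ^ (e2 v) = 2 ^ (∑ deg2 v) ≤ 2 ^ (1 + #RC)` (`S_N2`; restrict `W` to the primes over
two if necessary, all factors are `≥ 1`).
`#RC ≤ #I∞`: for `v` in `RC` choose `w` above; the complex conjugation at `w` is not trivial, so `w` is
not conjugate to a `D.w j` (`D.splits`), so `w` is conjugate to some `u i`, `u i = inl w'` and `w'` is
over `v` (`Pool.Agent.H509.E3.fixes_conj`, conjugate places have the same restriction to `F`).
So `#(Sg D)^2 < 2 ^ (2 #I∞ + 2 #If + 2) = (2 ^ (sc D + 1))^2` (`Λ.card`: `#ι = sc D`), and `#(Sg D)` is a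
power of two (exponent two), so `#(Sg D) ≤ 2 ^ sc D`. -/
def S_WILD : Prop := ∀ (F H G : Type) [Field F] [NumberField F] [Field H] [NumberField H]
  [Algebra F H] [CommGroup G] [Finite G] [MulSemiringAction G H] [IsGaloisGroup G F H]
  (D : RubinData F H G), (∀ g : G, g * g = 1) → Nonempty (Lam D) →
  ∀ W : Finset (HeightOneSpectrum (𝓞 F)), (∀ v : HeightOneSpectrum (𝓞 F), (2 : 𝓞 F) ∈ v.asIdeal →
    ¬ Squarefree (v.asIdeal.map (algebraMap (𝓞 F) (𝓞 H))) → v ∈ W) →
  ∑ v ∈ W, deg2 v ≤ 1 + Nat.card (RC F H) → Nat.card (Sg D) ≤ 2 ^ sc D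

end Pool.Agent.BT9
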